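import Pool.Agent.Y829.RW3

/-! Sieve weights relative to a large modulus: the asymptotic behaviour. -/

set_option autoImplicit false

namespace Pool.Agent.Y829.RW

open Finset Filter Topology Pool.Agent.Y829 Pool.Agent.Y829.RP
open Pool.Agent.H378R2 (Phi EPhi LPhi MPhi WW GoodP GoodS BVrel)

lemma psi_err (ε : ℝ) (hε : 0 < ε) : ∃ C : ℝ, 0 ≤ C ∧ ∀ i : ℕ, |Chebyshev.psi i - i| ≤ ε * i + C := by
  have h1 := (Metric.tendsto_nhds.1 Pool.Agent.Helper507.PNT.psi_div_tendsto ε hε)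
  obtain ⟨x0, hx0⟩ := (h1.and (eventually_gt_atTop 0)).exists_forall_of_atTop
  refine ⟨Chebyshev.psi (max x0 0) + max x0 0, add_nonneg (Chebyshev.psi_nonneg _) (le_max_right _ _), ?_⟩
  intro i
  by_cases hi : x0 ≤ i
  · obtain ⟨h2, h3⟩ := hx0 i hi
    rw [Real.dist_eq] at h2
    have e1 : Chebyshev.psi i - i = (Chebyshev.psi i / i - 1) * i := by field_simp
    have h4 : |Chebyshev.psi i - i| ≤ ε * i := by
      rw [e1, abs_mul, abs_of_pos h3]
      exact mul_le_mul_of_nonneg_right h2.le h3.le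
    have h5 := Chebyshev.psi_nonneg (max x0 0)
    have h6 := le_max_right x0 0
    linarith
  · rw [not_le] at hi
    have h2 : (i : ℝ) ≤ max x0 0 := hi.le.trans (le_max_left _ _)
    have h3 : Chebyshev.psi i ≤ Chebyshev.psi (max x0 0) := Chebyshev.psi_mono h2
    have h4 := Chebyshev.psi_nonneg (i : ℝ)
    have h5 : (0 : ℝ) ≤ i := Nat.cast_nonneg _
    have h6 : 0 ≤ ε * i := by positivity
    have h7 := Chebyshev.psi_nonneg (max x0 0)
    have h8 := le_max_right x0 0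
    rw [abs_le]
    constructor <;> linarith

lemma psi_sum (n : ℕ) : ∑ i ∈ range (n + 1), (if i = 0 then (0 : ℝ) else ArithmeticFunction.vonMangoldt i - 1) =
    Chebyshev.psi n - n := by
  rw [sum_range_succ']
  simp only [Nat.succ_ne_zero, if_true, if_false, add_zero]
  rw [sum_sub_distrib, sum_const, card_range, nsmul_eq_mul, mul_one]
  congr 1
  unfold Chebyshev.psi
  rw [Nat.floor_natCast]
  have e1 : Ioc 0 n = (range n).image (fun i => i + 1) := by
    ext k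
    simp only [mem_Ioc, mem_image, mem_range]
    constructor
    · intro h
      exact ⟨k - 1, by omega, by omega⟩
    · rintro ⟨i, hi, rfl⟩
      omega
  rw [e1, sum_image (fun a _ b _ h => Nat.add_right_cancel h)]

lemma LM_le (ε : ℝ) (hε : 0 < ε) : ∃ C : ℝ, ∀ X : ℕ, 1 ≤ X → |LPhi X - MPhi X| ≤ ε * X + C := by
  obtain ⟨C, hC, hpsi⟩ := psi_err (ε / 9) (by positivity)
  refine ⟨3 * C, ?_⟩
  intro X hX
  have hXr : (1 : ℝ) ≤ X := by exact_mod_cast hX
  have hfl : ⌊3 * (X : ℝ)⌋₊ = 3 * X := by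
    have : 3 * (X : ℝ) = ((3 * X : ℕ) : ℝ) := by push_cast; ring
    rw [this, Nat.floor_natCast]
  set f : ℕ → ℝ := fun i => Phi (i / (X : ℝ)) with hf
  set g : ℕ → ℝ := fun i => if i = 0 then (0 : ℝ) else ArithmeticFunction.vonMangoldt i - 1 with hg
  have e1 : LPhi X - MPhi X = ∑ i ∈ range (3 * X + 1), f i * g i := by
    unfold Pool.Agent.H378R2.LPhi Pool.Agent.H378R2.MPhi
    rw [hfl, ← sum_sub_distrib]
    have e2 : range (3 * X + 1) = insert 0 (Icc 1 (3 * X)) := by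
      ext i
      rw [mem_insert, mem_range, mem_Icc]
      omega
    rw [e2, sum_insert (by simp)]
    have e3 : f 0 * g 0 = 0 := by simp [hg]
    rw [e3, zero_add]
    apply sum_congr rfl
    intro i hi
    have hi0 : i ≠ 0 := by have := (mem_Icc.1 hi).1; omega
    simp only [hf, hg, if_neg hi0]
    ring
  have e4 : ∑ i ∈ range (3 * X + 1), f i * g i =
      f (3 * X) * (∑ i ∈ range (3 * X + 1), g i) - ∑ i ∈ range (3 * X), (f (i + 1) - f i) * ∑ j ∈ range (i + 1), g j := by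
    have h := Finset.sum_range_by_parts f g (3 * X + 1)
    simpa [smul_eq_mul] using h
  have e5 : f (3 * X) = 0 := by
    rw [hf]
    apply Pool.Agent.H378R2.Phi_eq_zero_of_ge
    rw [le_div_iff₀ (by linarith)]
    have := Pool.Agent.H378R2.exp_one_lt_three'
    push_cast
    nlinarith
  rw [e1, e4, e5, zero_mul, zero_sub, abs_neg]
  refine (abs_sum_le_sum_abs _ _).trans ?_
  have h1 : ∀ i ∈ range (3 * X), |(f (i + 1) - f i) * ∑ j ∈ range (i + 1), g j| ≤
      1 / X * (ε / 9 * (3 * X) + C) := by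
    intro i hi
    rw [mem_range] at hi
    rw [abs_mul, hg, psi_sum]
    apply mul_le_mul _ _ (abs_nonneg _) (by positivity)
    · have h2 := Pool.Agent.H378R2.Phi_lip (u := ((i + 1 : ℕ) : ℝ) / X) (v := (i : ℝ) / X) (by positivity) (by positivity)
      refine h2.trans (le_of_eq ?_)
      have e6 : ((i + 1 : ℕ) : ℝ) / X - (i : ℝ) / X = 1 / X := by
        push_cast
        field_simp
        ring
      rw [e6, abs_of_pos (by positivity)]
    · refine (hpsi i).trans ?_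
      have h3 : (i : ℝ) ≤ 3 * X := by exact_mod_cast hi.le
      have h4 : ε / 9 * i ≤ ε / 9 * (3 * X) := mul_le_mul_of_nonneg_left h3 (by positivity)
      linarith
  refine (sum_le_sum h1).trans ?_
  rw [sum_const, card_range, nsmul_eq_mul]
  have e7 : ((3 * X : ℕ) : ℝ) * (1 / X * (ε / 9 * (3 * X) + C)) = ε * X + 3 * C := by
    push_cast
    field_simp
    ring
  rw [e7]

lemma LM (ε : ℝ) (hε : 0 < ε) : ∀ᶠ X : ℕ in atTop, |LPhi X - MPhi X| ≤ ε * MPhi X ∧ X / 20 ≤ MPhi X := by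
  obtain ⟨C, hC⟩ := LM_le (ε / 40) (by positivity)
  obtain ⟨X1, hX1⟩ := exists_nat_gt (40 * C / ε)
  filter_upwards [eventually_ge_atTop (max X1 40)] with X hX
  have h1 : X1 ≤ X := (le_max_left _ _).trans hX
  have h2 : 40 ≤ X := (le_max_right _ _).trans hX
  have hXr : (40 : ℝ) ≤ X := by exact_mod_cast h2
  have h3 := Pool.Agent.H378R2.MPhi_ge X hXr
  refine ⟨?_, h3⟩
  refine (hC X (by omega)).trans ?_
  have h4 : 40 * C / ε < X := lt_of_lt_of_le hX1 (by exact_mod_cast h1)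
  rw [div_lt_iff₀ hε] at h4
  have h5 : ε * (X / 20) ≤ ε * MPhi X := mul_le_mul_of_nonneg_left h3 hε.le
  nlinarith

/-- the mean of the singular series for long windows -/
lemma GG_two : ∃ C : ℕ, 1 ≤ C ∧ ∀ b : ℕ, C ≤ b → ∃ U1 : ℕ,
    ∀ (U Q : ℕ) (c : ℕ → ℕ → ℝ), U1 ≤ U → 1 ≤ Q → Real.log Q ≤ (U : ℝ) ^ (1 / ((C : ℝ) * b)) →
    (∀ n, 0 ≤ wt Q c n) → 0 ≤ mu Q c ∧
      |∑ h ∈ Icc 1 U, RP.GG Q c h - U * mu Q c| ≤ (1 / 2 : ℝ) ^ b * (U * mu Q c) := by
  classical
  obtain ⟨C, hC1, hmain⟩ := main2 1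
  refine ⟨C, hC1, fun b hb => ?_⟩
  obtain ⟨U1, hmain1⟩ := hmain b hb
  refine ⟨U1, ?_⟩
  intro U Q c hU1 hQ hlogQ hw
  set N := Q.factorial with hN
  have hN0 : 0 < N := Nat.factorial_pos _
  have hP : ∀ p ∈ PQ Q, p.Prime := fun p hp => (mem_PQ.1 hp).1
  have hPN : ∀ p ∈ PQ Q, p.Prime ∧ p ∣ N := fun p hp =>
    ⟨hP p hp, dvdfac Q p (mem_Icc.2 ⟨(hP p hp).one_lt.le, (mem_PQ.1 hp).2⟩)⟩
  have h1 := (hmain1 U Q N (PQ Q) (fun _ => {0}) (wt Q c) hU1 hQ hlogQ hN0 (dvdfac Q) hw (wt_lev Q c) hPN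
    (fun p hp => ⟨by
      rw [singleton_subset_iff, mem_range]; exact (hP p hp).pos, by simp, by
      simpa using (hP p hp).one_lt⟩)).1
  have hVO : VO (fun _ => ({0} : Finset ℕ)) (PQ Q) = V (PQ Q) := by
    unfold VO V
    simp
  rw [sum_GG Q U N c hN0 (dvdfac Q), hVO, sum_wt Q N c (dvdfac Q)] at h1
  have hNV : 0 < (N : ℝ) * V (PQ Q) := by
    have := V_pos hP
    have : (0 : ℝ) < N := by exact_mod_cast hN0
    positivity
  have hmu0 : 0 ≤ mu Q c := by
    have h3 := sum_wt Q N c (dvdfac Q)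
    have h4 : 0 ≤ (N : ℝ) * mu Q c := by rw [← h3]; exact sum_nonneg fun n _ => hw n
    exact nonneg_of_mul_nonneg_right h4 (by exact_mod_cast hN0)
  refine ⟨hmu0, ?_⟩
  have e1 : N * V (PQ Q) * ∑ h ∈ Icc 1 U, RP.GG Q c h - U * V (PQ Q) * (N * mu Q c) =
      (N * V (PQ Q)) * (∑ h ∈ Icc 1 U, RP.GG Q c h - U * mu Q c) := by ring
  have e2 : (1 / 2 : ℝ) ^ b * (U * V (PQ Q) * (N * mu Q c)) =
      (N * V (PQ Q)) * ((1 / 2 : ℝ) ^ b * (U * mu Q c)) := by ring
  rw [e1, e2, abs_mul, abs_of_pos hNV] at h1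
  exact le_of_mul_le_mul_left h1 hNV

/-- `log m` for primes `m`, and `0` otherwise, smoothed -/
noncomputable def th (X m : ℕ) : ℝ := if m.Prime then Phi (m / (X : ℝ)) * Real.log m else 0

lemma TT_th (X : ℕ) (hX : 1 ≤ X) (Q : ℕ) (c : ℕ → ℕ → ℝ) (hw : ∀ n, 0 ≤ wt Q c n) (S : ℝ)
    (hS : ∀ n, wt Q c n ≤ S) (h : ℕ) (hh : h ≤ X) :
    |∑ n ∈ Icc 1 (3 * X), wt Q c n * th X (n + h) - TT X Q c h| ≤
      S * (2 * Real.sqrt (3 * X) * Real.log (3 * X)) := by
  classical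
  have hXr : (1 : ℝ) ≤ X := by exact_mod_cast hX
  have hS0 : 0 ≤ S := (hw 0).trans (hS 0)
  have hfl : ⌊3 * (X : ℝ)⌋₊ = 3 * X := by
    have : 3 * (X : ℝ) = ((3 * X : ℕ) : ℝ) := by push_cast; ring
    rw [this, Nat.floor_natCast]
  have hbig : ∀ m : ℕ, 3 * X ≤ m → Phi (m / (X : ℝ)) = 0 := by
    intro m hm
    apply Pool.Agent.H378R2.Phi_eq_zero_of_ge
    rw [le_div_iff₀ (by linarith)]
    have := Pool.Agent.H378R2.exp_one_lt_three'
    have hm' : (3 : ℝ) * X ≤ m := by exact_mod_cast hm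
    nlinarith
  have hsmall : ∀ m : ℕ, m ≤ X → Phi (m / (X : ℝ)) = 0 := by
    intro m hm
    apply Pool.Agent.H378R2.Phi_eq_zero_of_le (by positivity)
    rw [div_le_one (by linarith)]
    exact_mod_cast hm
  have e1 : ∑ n ∈ Icc 1 (3 * X), wt Q c n * th X (n + h) = ∑ m ∈ Icc 1 (3 * X), wt Q c (m - h) * th X m := by
    have h1 : ∑ m ∈ Icc 1 (3 * X), wt Q c (m - h) * th X m =
        ∑ m ∈ Icc 1 (3 * X + h), wt Q c (m - h) * th X m := by
      apply sum_subset
      · intro m hm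
        rw [mem_Icc] at hm ⊢
        omega
      · intro m hm hm'
        rw [mem_Icc] at hm hm'
        unfold th
        rw [hbig m (by omega)]
        simp
    have h2 : ∑ m ∈ Icc 1 (3 * X + h), wt Q c (m - h) * th X m =
        ∑ m ∈ Icc (1 + h) (3 * X + h), wt Q c (m - h) * th X m := by
      symm
      apply sum_subset
      · intro m hm
        rw [mem_Icc] at hm ⊢
        omega
      · intro m hm hm'
        rw [mem_Icc] at hm hm'
        unfold th
        rw [hsmall m (by omega)]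
        simp
    rw [h1, h2, ← Finset.image_add_right_Icc, sum_image (fun a _ b _ h => Nat.add_right_cancel h)]
    apply sum_congr rfl
    intro n _
    rw [Nat.add_sub_cancel]
  rw [e1]
  unfold TT
  rw [hfl, ← sum_sub_distrib]
  refine (abs_sum_le_sum_abs _ _).trans ?_
  have h1 : ∀ m ∈ Icc 1 (3 * X), |wt Q c (m - h) * th X m -
      Phi (m / (X : ℝ)) * ArithmeticFunction.vonMangoldt m * wt Q c (m - h)| ≤
      (if ¬ m.Prime then S * ArithmeticFunction.vonMangoldt m else 0) := by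
    intro m _
    have hP0 := Pool.Agent.H378R2.Phi_nonneg (m / (X : ℝ))
    have hP1 := Pool.Agent.H378R2.Phi_le_one (m / (X : ℝ))
    have hL0 : 0 ≤ ArithmeticFunction.vonMangoldt m := ArithmeticFunction.vonMangoldt_nonneg
    by_cases hm : m.Prime
    · unfold th
      rw [if_pos hm, if_neg (not_not.2 hm), ArithmeticFunction.vonMangoldt_apply_prime hm]
      have e2 : wt Q c (m - h) * (Phi (m / (X : ℝ)) * Real.log m) -
          Phi (m / (X : ℝ)) * Real.log m * wt Q c (m - h) = 0 := by ring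
      rw [e2, abs_zero]
    · unfold th
      rw [if_neg hm, if_pos hm, mul_zero, zero_sub, abs_neg, abs_of_nonneg (by
        have := hw (m - h)
        positivity)]
      calc Phi (m / (X : ℝ)) * ArithmeticFunction.vonMangoldt m * wt Q c (m - h) ≤
            (1 * ArithmeticFunction.vonMangoldt m) * S := by
            apply mul_le_mul _ (hS _) (hw _) (by positivity)
            exact mul_le_mul_of_nonneg_right hP1 hL0
        _ = _ := by ring
  refine (sum_le_sum h1).trans ?_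
  rw [← sum_filter, ← mul_sum]
  apply mul_le_mul_of_nonneg_left _ hS0
  have h2 := Pool.Agent.H378R2.sum_nonprime_le (3 * (X : ℝ)) (by linarith)
  rw [hfl] at h2
  exact h2

/-- the smoothed mass -/
lemma mass_Phi (X : ℕ) (hX : 4 ≤ X) (Q : ℕ) (hQX : Q ≤ X) (c : ℕ → ℕ → ℝ) :
    |∑ n ∈ Icc 1 (3 * X), wt Q c n * Phi (n / (X : ℝ)) - MPhi X * mu Q c| ≤ 5 * ∑ d ∈ Icc 1 Q, ss c d := by
  classical
  have hfl : ⌊3 * (X : ℝ)⌋₊ = 3 * X := by
    have : 3 * (X : ℝ) = ((3 * X : ℕ) : ℝ) := by push_cast; ring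
    rw [this, Nat.floor_natCast]
  have h1 : ∀ n ∈ Icc 1 (3 * X), wt Q c n * Phi (n / (X : ℝ)) =
      ∑ d ∈ Icc 1 Q, ∑ a ∈ range d, c d a * (if n % d = a then Phi (n / (X : ℝ)) else 0) := by
    intro n _
    rw [wt_eq, sum_mul]
    apply sum_congr rfl
    intro d _
    rw [sum_mul]
    apply sum_congr rfl
    intro a _
    split_ifs <;> ring
  rw [sum_congr rfl h1, sum_comm]
  unfold mu
  rw [mul_sum, mul_sum, ← sum_sub_distrib]
  refine (abs_sum_le_sum_abs _ _).trans (sum_le_sum ?_)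
  intro d hd
  rw [mem_Icc] at hd
  rw [sum_comm, mul_sum, ← sum_sub_distrib]
  refine (abs_sum_le_sum_abs _ _).trans ?_
  unfold ss
  rw [mul_sum]
  apply sum_le_sum
  intro a ha
  rw [← mul_sum, ← sum_filter]
  have h2 := Pool.Agent.H378R2.phi_sum_class X (by exact_mod_cast hX) d a (by omega)
    (by exact_mod_cast hd.2.trans hQX)
  rw [hfl] at h2
  have e2 : (Icc 1 (3 * X)).filter (fun n => n % d = a) = (Icc 1 (3 * X)).filter (fun n => n ≡ a [MOD d]) := by
    apply filter_congr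
    intro n _
    unfold Nat.ModEq
    rw [Nat.mod_eq_of_lt (mem_range.1 ha)]
  rw [e2]
  have e3 : c d a * ∑ n ∈ (Icc 1 (3 * X)).filter (fun n => n ≡ a [MOD d]), Phi (n / (X : ℝ)) -
      MPhi X * (c d a / (d : ℝ)) =
      c d a * (∑ n ∈ (Icc 1 (3 * X)).filter (fun n => n ≡ a [MOD d]), Phi (n / (X : ℝ)) - MPhi X * (1 / d)) := by ring
  rw [e3, abs_mul, mul_comm]
  exact mul_le_mul_of_nonneg_right h2 (abs_nonneg _)

end Pool.Agent.Y829.RW
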