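import Pool.Agent.Y829.LP5
import Pool.Agent.Helper112.Arith

/-! Primes in arithmetic progressions to a large modulus, with sieve weights on the residue classes: conclusion. -/

set_option autoImplicit false

namespace Pool.Agent.Y829.LP

open Finset Filter Topology Pool.Agent.Y829 Pool.Agent.Y829.RP Pool.Agent.Y829.RS
open H343E (pi1)

lemma evT (C x : ℝ) (hC : 0 < C) (hx : 0 < x) (K : ℕ) : ∀ᶠ m : ℕ in atTop,
    C * (m : ℝ) ^ (1 / 10 : ℝ) * (m : ℝ) ^ (1 / 2 : ℝ) * Real.log m ^ K ≤ x * m := by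
  have h1 := (isLittleO_log_rpow_atTop (show (0 : ℝ) < 1 / (5 * ((K : ℝ) + 1)) by positivity)).def
    (show (0 : ℝ) < 1 by norm_num)
  have h2 := tendsto_natCast_atTop_atTop (R := ℝ) |>.eventually h1
  have h3 := ((tendsto_rpow_atTop (show (0 : ℝ) < 1 / 5 by norm_num)).comp
    (tendsto_natCast_atTop_atTop (R := ℝ))).eventually_ge_atTop (C / x)
  filter_upwards [h2, h3, eventually_ge_atTop 1] with m g1 g2 g3
  have hm1 : (1 : ℝ) ≤ m := by exact_mod_cast g3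
  have hm0 : (0 : ℝ) < m := by linarith
  have hL : 0 ≤ Real.log (m : ℝ) := Real.log_natCast_nonneg m
  rw [Real.norm_of_nonneg hL, Real.norm_of_nonneg (Real.rpow_nonneg hm0.le _), one_mul] at g1
  have h4 : Real.log (m : ℝ) ^ K ≤ (m : ℝ) ^ (1 / 5 : ℝ) := by
    calc Real.log (m : ℝ) ^ K ≤ ((m : ℝ) ^ (1 / (5 * ((K : ℝ) + 1)))) ^ K := pow_le_pow_left₀ hL g1 K
      _ = (m : ℝ) ^ (1 / (5 * ((K : ℝ) + 1)) * K) := by
          rw [← Real.rpow_natCast, ← Real.rpow_mul hm0.le]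
      _ ≤ (m : ℝ) ^ (1 / 5 : ℝ) := by
          apply Real.rpow_le_rpow_of_exponent_le hm1
          rw [div_mul_eq_mul_div, one_mul, div_le_div_iff₀ (by positivity) (by norm_num)]
          linarith
  have h5 : C ≤ x * (m : ℝ) ^ (1 / 5 : ℝ) := by
    simp only [Function.comp] at g2
    rw [div_le_iff₀ hx] at g2
    linarith
  calc C * (m : ℝ) ^ (1 / 10 : ℝ) * (m : ℝ) ^ (1 / 2 : ℝ) * Real.log m ^ K ≤
        (x * (m : ℝ) ^ (1 / 5 : ℝ)) * (m : ℝ) ^ (1 / 10 : ℝ) * (m : ℝ) ^ (1 / 2 : ℝ) * (m : ℝ) ^ (1 / 5 : ℝ) := by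
        gcongr
    _ = x * ((m : ℝ) ^ (1 / 5 : ℝ) * (m : ℝ) ^ (1 / 10 : ℝ) * (m : ℝ) ^ (1 / 2 : ℝ) * (m : ℝ) ^ (1 / 5 : ℝ)) := by ring
    _ = x * m := by
        rw [← Real.rpow_add hm0, ← Real.rpow_add hm0, ← Real.rpow_add hm0]
        norm_num

/-- the mass of the weight on the reduced classes -/
noncomputable def WW (Q m : ℕ) (c : ℕ → ℕ → ℝ) : ℝ :=
  ∑ n ∈ Ioc m (2 * m), wt Q c n * (if n.Coprime m then 1 else 0)

/-- comparison of the mass with the mean value -/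
lemma massmu (K : ℕ) (x : ℝ) (hx : 0 < x) : ∃ X0 : ℕ, ∀ m : ℕ, X0 ≤ m → ∀ Q : ℕ, 1 ≤ Q →
    (Q : ℝ) ^ 2 * Real.log m ^ K ≤ m → ∀ c : ℕ → ℕ → ℝ, ∑ d ∈ Icc 1 Q, ss c d ^ 2 / d ≤ Real.log m ^ K →
    |WW Q m c - m * (V (PR Q m) * muD Q m c)| ≤ x * (m / Real.log m ^ K) := by
  obtain ⟨C, hC, hdiv⟩ := Pool.Agent.Helper112.divisor_bound (1 / 10) (by norm_num)
  obtain ⟨X0, hX0⟩ := ((evT C x hC hx K).and (log_tend.eventually_ge_atTop 1)).exists_forall_of_atTop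
  refine ⟨max X0 1, ?_⟩
  intro m hm Q hQ hQm c hc
  obtain ⟨g1, g2⟩ := hX0 m ((le_max_left _ _).trans hm)
  have hm1 : 1 ≤ m := (le_max_right _ _).trans hm
  have hmr : (0 : ℝ) < m := by exact_mod_cast hm1
  have hL0 : 0 < Real.log (m : ℝ) := by linarith
  have hF0 : 0 < Q.factorial := Nat.factorial_pos _
  have h1 := leg2 m Q m (Q.factorial * m) c hm1 (Nat.mul_pos hF0 hm1) (fun d hd => (dvdfac Q d hd).mul_right m)
    (Dvd.intro_left _ rfl)
  rw [indep Q m c hm1] at h1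
  have h2 : (m : ℝ) / ((Q.factorial * m : ℕ) : ℝ) * (((Q.factorial * m : ℕ) : ℝ) * (V (PR Q m) * muD Q m c)) =
      m * (V (PR Q m) * muD Q m c) := by
    have h3 : ((Q.factorial * m : ℕ) : ℝ) ≠ 0 := by exact_mod_cast (Nat.mul_pos hF0 hm1).ne'
    field_simp
  rw [h2] at h1
  refine h1.trans ?_
  have h3 : ∑ d ∈ Icc 1 Q, ss c d ≤ (m : ℝ) ^ (1 / 2 : ℝ) := by
    apply abs_le_of_sq_le_sq' _ (Real.rpow_nonneg hmr.le _) |>.2
    refine (sumss Q c).trans ?_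
    have h4 := mul_le_mul_of_nonneg_right hc (sq_nonneg (Q : ℝ))
    have h5 : ((m : ℝ) ^ (1 / 2 : ℝ)) ^ 2 = m := by
      rw [← Real.rpow_natCast, ← Real.rpow_mul hmr.le]
      norm_num
    rw [h5]
    linarith
  have h4 := hdiv m hm1
  have h5 : 0 ≤ ∑ d ∈ Icc 1 Q, ss c d := sum_nonneg fun d _ => ss_nonneg c d
  rw [mul_div_assoc', le_div_iff₀ (by positivity)]
  calc (m.divisors.card : ℝ) * (∑ d ∈ Icc 1 Q, ss c d) * Real.log m ^ K ≤
        (C * (m : ℝ) ^ (1 / 10 : ℝ)) * (m : ℝ) ^ (1 / 2 : ℝ) * Real.log m ^ K := by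
        apply mul_le_mul_of_nonneg_right _ (by positivity)
        exact mul_le_mul h4 h3 h5 (by positivity)
    _ ≤ x * m := g1

/-- **Sieve weights on residue classes** -/
theorem classes (K A b : ℕ) : ∃ B X0 : ℕ, ∀ m : ℕ, X0 ≤ m → ∀ J0 J Q : ℕ,
    Real.log m * Real.log (Real.log m) ^ 3 ≤ J → ((J0 + J : ℕ) : ℝ) ≤ Real.log m ^ A → 1 ≤ Q →
    (Q : ℝ) ^ 2 * Real.log m ^ B ≤ m →
    ∀ c : ℕ → ℕ → ℝ, (∀ n, 0 ≤ wt Q c n) → ∑ d ∈ Icc 1 Q, ss c d ^ 2 / d ≤ Real.log m ^ K →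
    m / Real.log m ^ K ≤ WW Q m c →
    |∑ n ∈ Ioc m (2 * m), wt Q c n * (((Ioc J0 (J0 + J)).filter (fun j => (n + j * m).Prime)).card : ℝ) -
      J / Real.log m * (m / m.totient) * WW Q m c| ≤
      (1 / 2 : ℝ) ^ b * (J / Real.log m * (m / m.totient) * WW Q m c) := by
  classical
  obtain ⟨x, hx⟩ : ∃ x : ℝ, x = (1 / 2 : ℝ) ^ (b + 4) := ⟨_, rfl⟩
  have hx0 : 0 < x := by rw [hx]; positivity
  have hxb : (1 / 2 : ℝ) ^ b = 16 * x := by rw [hx, pow_add]; norm_num; ring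
  have hx1 : x ≤ 1 / 16 := by
    have : (1 / 2 : ℝ) ^ b ≤ 1 := pow_le_one₀ (by norm_num) (by norm_num)
    linarith
  obtain ⟨B, X1, hsh⟩ := shift_big K (K + 3) A
  obtain ⟨X2, hpr⟩ := short_pr A x hx0 (by linarith)
  obtain ⟨X3, hmod⟩ := modelJ K (b + 5)
  obtain ⟨X4, hmass⟩ := massmu K x hx0
  obtain ⟨X5, hX5⟩ := ((log_tend.eventually_ge_atTop (1 + 4 / x)).and (eventually_ge_atTop 3)).exists_forall_of_atTop
  refine ⟨max B K, max (max X1 X2) (max (max X3 X4) X5), ?_⟩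
  intro m hm J0 J Q hJ hJA hQ hQm c hw hc hW
  simp only [max_le_iff] at hm
  obtain ⟨⟨m1, m2⟩, ⟨⟨m3, m4⟩, m5⟩⟩ := hm
  obtain ⟨e1, e2⟩ := hX5 m m5
  have hmr : (0 : ℝ) < m := by exact_mod_cast (by omega : 0 < m)
  have hL1 : 1 ≤ Real.log (m : ℝ) := by
    have : 0 ≤ 4 / x := by positivity
    linarith
  have hL4 : 4 ≤ x * Real.log m := by
    have h1 : 4 / x ≤ Real.log m := by linarith
    rw [div_le_iff₀ hx0] at h1
    linarith
  have hQr : (1 : ℝ) ≤ Q := by exact_mod_cast hQ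
  have hQB : (Q : ℝ) ^ 2 * Real.log m ^ B ≤ m := by
    refine le_trans ?_ hQm
    apply mul_le_mul_of_nonneg_left _ (by positivity)
    exact pow_le_pow_right₀ hL1 (le_max_left _ _)
  have hQK : (Q : ℝ) ^ 2 * Real.log m ^ K ≤ m := by
    refine le_trans ?_ hQm
    apply mul_le_mul_of_nonneg_left _ (by positivity)
    exact pow_le_pow_right₀ hL1 (le_max_right _ _)
  have hQle : Q ≤ m := by
    have h1 : (1 : ℝ) ≤ Real.log m ^ K := one_le_pow₀ hL1
    have h2 : (Q : ℝ) ≤ m := by nlinarith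
    exact_mod_cast h2
  have hms := hmass m m4 Q hQ hQK c hc
  obtain ⟨L, hL⟩ : ∃ L : ℝ, L = Real.log m := ⟨_, rfl⟩
  obtain ⟨W, hWd⟩ : ∃ W : ℝ, W = WW Q m c := ⟨_, rfl⟩
  obtain ⟨mu', hmu'⟩ : ∃ mu' : ℝ, mu' = muD Q m c := ⟨_, rfl⟩
  have hVR0 : 0 < V (PR Q m) := V_pos fun p hp => (Nat.mem_primeFactors.1 (mem_filter.1 hp).1).1
  have hVR1 : V (PR Q m) ≤ 1 := V_le_one fun p hp => (Nat.mem_primeFactors.1 (mem_filter.1 hp).1).1
  have hVD0 : 0 < V (PD Q m) := V_pos fun p hp => (mem_PQ.1 (mem_filter.1 hp).1).1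
  have hφ := phi_split Q m (by omega)
  have hφ0 : (0 : ℝ) < m.totient := by exact_mod_cast Nat.totient_pos.2 (by omega)
  -- lower bound for the mean value
  have hmu : 1 / (2 * Real.log m ^ K) ≤ muD Q m c := by
    rw [← hWd, ← hmu', ← hL] at hms
    rw [← hWd, ← hL] at hW
    rw [← hmu', ← hL]
    rw [← hL] at hL1
    have h1 := (abs_le.1 hms).2
    have h2 : x * (m / L ^ K) ≤ 1 / 2 * (m / L ^ K) := mul_le_mul_of_nonneg_right (by linarith) (by positivity)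
    have h3 : 1 / 2 * (m / L ^ K) ≤ m * (V (PR Q m) * mu') := by linarith
    have h4 : (m : ℝ) * (1 / (2 * L ^ K)) ≤ m * (V (PR Q m) * mu') := by
      refine le_trans (le_of_eq ?_) h3
      field_simp
    have h5 := le_of_mul_le_mul_left h4 hmr
    have h6 : 0 < V (PR Q m) * mu' := lt_of_lt_of_le (by positivity) h5
    have h7 : 0 < mu' := by
      by_contra h8
      have h9 : V (PR Q m) * mu' ≤ 0 := mul_nonpos_of_nonneg_of_nonpos hVR0.le (not_lt.1 h8)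
      linarith
    have h8 : V (PR Q m) * mu' ≤ 1 * mu' := mul_le_mul_of_nonneg_right hVR1 h7.le
    linarith
  have hmd := hmod m m3 J0 J Q hJ hQ hQle c hw hc hmu
  have hbx : 2 * (1 / 2 : ℝ) ^ (b + 5) = x := by
    rw [hx, pow_succ (1 / 2 : ℝ) (b + 4)]
    ring
  rw [hbx, ← hmu'] at hmd
  rw [← hmu', ← hL] at hmu
  rw [← hWd, ← hmu', ← hL] at hms
  rw [← hWd, ← hL] at hW ⊢
  rw [← hL] at hL1 hL4 hJA
  have hL0 : 0 < L := by linarith
  have hJ0r : (0 : ℝ) ≤ J := Nat.cast_nonneg _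
  have hmu0 : 0 < mu' := lt_of_lt_of_le (by positivity) hmu
  -- the sum over the shifts
  obtain ⟨G, hG⟩ : ∃ G : ℝ, G = ∑ j ∈ Ioc J0 (J0 + J), RP.GG Q c (j * m) := ⟨_, rfl⟩
  have hG0 : 0 ≤ G := by rw [hG]; exact sum_nonneg fun j _ => GG_nonneg Q _ c hw
  rw [← hG] at hmd
  obtain ⟨S, hS⟩ : ∃ S : ℝ, S = ∑ n ∈ Ioc m (2 * m), wt Q c n *
    (((Ioc J0 (J0 + J)).filter (fun j => (n + j * m).Prime)).card : ℝ) := ⟨_, rfl⟩
  have hS2 : S = ∑ j ∈ Ioc J0 (J0 + J), ∑ n ∈ Ioc m (2 * m), wt Q c n * (if (n + j * m).Prime then 1 else 0) := by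
    rw [hS, sum_comm]
    apply sum_congr rfl
    intro n _
    rw [← mul_sum, card_filter]
    push_cast
    rfl
  have hSG : |S - m / L * G| ≤ x * (m / L * G) + J * (2 * (m / L ^ (K + 3))) := by
    rw [hS2, hG, mul_sum, ← sum_sub_distrib]
    refine (abs_sum_le_sum_abs _ _).trans ?_
    have h1 : ∀ j ∈ Ioc J0 (J0 + J), |∑ n ∈ Ioc m (2 * m), wt Q c n * (if (n + j * m).Prime then 1 else 0) -
        m / L * RP.GG Q c (j * m)| ≤ x * (m / L * RP.GG Q c (j * m)) + 2 * (m / L ^ (K + 3)) := by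
      intro j hj
      rw [mem_Ioc] at hj
      have h2 : ((j * m : ℕ) : ℝ) ≤ m * Real.log m ^ A := by
        push_cast
        rw [mul_comm, ← hL]
        apply mul_le_mul_of_nonneg_left _ hmr.le
        refine le_trans ?_ hJA
        exact_mod_cast hj.2
      have h3 := hsh m m1 Q hQ hQB c hc (j * m) h2
      obtain ⟨h4, h5⟩ := hpr m m2 (j * m) h2
      rw [← hL] at h3 h4 h5
      have h6 := GG_nonneg Q (j * m) c hw
      have h7 := mul_le_mul_of_nonneg_right h4 h6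
      have h8 := mul_le_mul_of_nonneg_right h5 h6
      have h9 := abs_le.1 h3
      rw [abs_le]
      constructor <;> linarith
    refine (sum_le_sum h1).trans (le_of_eq ?_)
    rw [sum_add_distrib, ← mul_sum, ← mul_sum, sum_const, Nat.card_Ioc, nsmul_eq_mul]
    congr 2
    push_cast
    congr 1
    omega
  -- the main term of the model
  obtain ⟨T, hT⟩ : ∃ T : ℝ, T = m / L * (J * (mu' / V (PD Q m))) := ⟨_, rfl⟩
  have hT0 : 0 ≤ T := by rw [hT]; positivity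
  have hGT : |m / L * G - T| ≤ x * T := by
    have h1 : m / L * G - T = m / L * (G - J * (mu' / V (PD Q m))) := by rw [hT]; ring
    rw [h1, abs_mul, abs_of_pos (by positivity : (0 : ℝ) < m / L)]
    have h2 := mul_le_mul_of_nonneg_left hmd (show (0 : ℝ) ≤ m / L by positivity)
    refine h2.trans (le_of_eq ?_)
    rw [hT]
    ring
  -- comparison with the mass
  obtain ⟨T0, hT0d⟩ : ∃ T0 : ℝ, T0 = J / L * (m / m.totient) * W := ⟨_, rfl⟩
  have hTT : |T - T0| ≤ x * T0 := by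
    have h1 : T = J / L * (m / m.totient) * (m * (V (PR Q m) * mu')) := by
      have h2 : (m.totient : ℝ) = m * (V (PD Q m) * V (PR Q m)) := by
        rw [← hφ]
        field_simp
      rw [hT, h2]
      field_simp
    have h2 : T - T0 = -(J / L * (m / m.totient) * (W - m * (V (PR Q m) * mu'))) := by
      rw [h1, hT0d]
      ring
    rw [h2, abs_neg, abs_mul, abs_of_nonneg (by positivity : (0 : ℝ) ≤ J / L * (m / m.totient))]
    have h3 : |W - m * (V (PR Q m) * mu')| ≤ x * W := hms.trans (mul_le_mul_of_nonneg_left hW hx0.le)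
    refine (mul_le_mul_of_nonneg_left h3 (by positivity)).trans (le_of_eq ?_)
    rw [hT0d]
    ring
  have hT00 : 0 ≤ T0 := by
    have h1 : 0 ≤ W := le_trans (by positivity) hW
    rw [hT0d]
    positivity
  have hErr : J * (2 * (m / L ^ (K + 3))) ≤ x * T := by
    have h1 : mu' ≤ mu' / V (PD Q m) := by
      rw [le_div_iff₀ hVD0]
      have h2 : V (PD Q m) ≤ 1 := V_le_one fun p hp => (mem_PQ.1 (mem_filter.1 hp).1).1
      exact mul_le_of_le_one_right hmu0.le h2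
    have h2 : m / L * (J * (1 / (2 * L ^ K))) ≤ T := by
      rw [hT]
      apply mul_le_mul_of_nonneg_left _ (by positivity)
      apply mul_le_mul_of_nonneg_left _ hJ0r
      exact hmu.trans h1
    have h3 : J * (2 * (m / L ^ (K + 3))) = (4 / L ^ 2) * (m / L * (J * (1 / (2 * L ^ K)))) := by
      rw [pow_add]
      field_simp
      ring
    rw [h3]
    have h4 : 4 / L ^ 2 ≤ x := by
      rw [div_le_iff₀ (by positivity)]
      nlinarith
    exact mul_le_mul h4 h2 (by positivity) hx0.le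
  rw [← hS, ← hT0d, hxb]
  have k1 := abs_le.1 hSG
  have k2 := abs_le.1 hGT
  have k3 := abs_le.1 hTT
  have k40 : x * T0 ≤ T0 := mul_le_of_le_one_left hT00 (by linarith)
  have k4 : T ≤ 2 * T0 := by linarith [k3.2]
  have k50 : x * T ≤ T := mul_le_of_le_one_left hT0 (by linarith)
  have k5 : m / L * G ≤ 2 * T := by linarith [k2.2]
  have k6 : x * (m / L * G) ≤ x * (2 * T) := mul_le_mul_of_nonneg_left k5 hx0.le
  have k7 : x * T ≤ x * (2 * T0) := mul_le_mul_of_nonneg_left k4 hx0.le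
  have k8 : 0 ≤ x * T0 := by positivity
  rw [abs_le]
  constructor <;> linarith [k1.1, k1.2, k2.1, k2.2, k3.1, k3.2]

end Pool.Agent.Y829.LP
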