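import Pool.Agent.Y829.BT3

/-! The tail bound with parameters. -/

set_option autoImplicit false

namespace Pool.Agent.Y829

open Finset Filter Topology
open Pool.Agent.W23.DC

lemma ev (r K K' : ℝ) (hr : 0 < r) : ∀ᶠ U : ℕ in atTop, K * Real.log U + K' ≤ (U : ℝ) ^ r := by
  have h1 := (isLittleO_log_rpow_atTop hr).bound (show (0 : ℝ) < 1 / (2 * (|K| + 1)) by positivity)
  have h2 := tendsto_natCast_atTop_atTop (R := ℝ) |>.eventually h1
  have h3 : Tendsto (fun N : ℕ => (N : ℝ) ^ r) atTop atTop :=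
    (tendsto_rpow_atTop hr).comp tendsto_natCast_atTop_atTop
  have h4 := h3.eventually_ge_atTop (2 * |K'|)
  filter_upwards [h2, h4, eventually_ge_atTop 1] with U hU1 hU2 hU3
  have hU : (1 : ℝ) ≤ U := by exact_mod_cast hU3
  have hl : 0 ≤ Real.log U := Real.log_nonneg hU
  have hp : 0 ≤ (U : ℝ) ^ r := by positivity
  rw [Real.norm_of_nonneg hl, Real.norm_of_nonneg hp] at hU1
  have h5 : K * Real.log U ≤ (|K| + 1) * Real.log U :=
    mul_le_mul_of_nonneg_right (by have := le_abs_self K; linarith) hl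
  have h6 : (|K| + 1) * Real.log U ≤ (|K| + 1) * (1 / (2 * (|K| + 1)) * (U : ℝ) ^ r) :=
    mul_le_mul_of_nonneg_left hU1 (by positivity)
  have h7 : (|K| + 1) * (1 / (2 * (|K| + 1)) * (U : ℝ) ^ r) = (U : ℝ) ^ r / 2 := by
    have : |K| + 1 ≠ 0 := by positivity
    field_simp
  have h8 := le_abs_self K'
  linarith

open Classical in
/-- **The tail bound** -/
theorem tail (a : ℝ) (ha0 : 0 < a) (ha1 : a < 1 / 2) : ∃ (c : ℝ) (U1 : ℕ), 0 < c ∧ 2 ≤ U1 ∧
    ∀ (U : ℕ) (P : Finset ℕ), U1 ≤ U → (∀ p ∈ P, p.Prime ∧ Real.log p ≤ (U : ℝ) ^ a) →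
    (((range (∏ p ∈ P, p)).filter (fun n => Sf P n U < c * (U * V P))).card : ℝ) * Real.exp (3 * (U : ℝ) ^ a) ≤
      ((∏ p ∈ P, p : ℕ) : ℝ) := by
  set delta : ℝ := min (1 / 10) ((1 / 2 - a) / 2) with hdelta
  have hd0 : 0 < delta := lt_min (by norm_num) (by linarith)
  have hd1 : delta ≤ 1 / 10 := min_le_left _ _
  have hd2 : delta ≤ (1 / 2 - a) / 2 := min_le_right _ _
  obtain ⟨c1, U0, hc1, hA⟩ := lemA delta hd0 hd1
  obtain ⟨cm, hcm, hmert⟩ := mert
  set r1 : ℝ := 1 / 2 + delta - a with hr1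
  set r2 : ℝ := 1 / 2 - delta - a with hr2
  have hr10 : 0 < r1 := by rw [hr1]; linarith
  have hr20 : 0 < r2 := by rw [hr2]; linarith
  have E1 := ev r1 0 (1 / (8 * cm)) hr10
  have E2 := ev r1 (1 / (2 * cm)) (|Real.log cm| / (2 * cm)) hr10
  have E3 := ev r2 (192 / (c1 * cm)) 0 hr20
  have E4 := ev (1 / 2 - delta) 0 2 (by linarith)
  obtain ⟨U2, hU2⟩ := ((E1.and E2).and (E3.and E4)).exists_forall_of_atTop
  refine ⟨c1 / 8, max (max U0 2) U2, by positivity, (le_max_right _ _).trans (le_max_left _ _), ?_⟩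
  intro U P hU hP
  obtain ⟨⟨h1, h2⟩, h3, h4⟩ := hU2 U ((le_max_right _ _).trans hU)
  have hU0 : U0 ≤ U := (le_max_left _ _).trans ((le_max_left _ _).trans hU)
  have hU2 : 2 ≤ U := (le_max_right _ _).trans ((le_max_left _ _).trans hU)
  have hUr : (2 : ℝ) ≤ U := by exact_mod_cast hU2
  have hUpos : (0 : ℝ) < U := by linarith
  have hlU : 0 < Real.log U := Real.log_pos (by linarith)
  have hUa1 : 1 ≤ (U : ℝ) ^ a := Real.one_le_rpow (by linarith) ha0.le
  set Q : ℕ := ⌊Real.exp ((U : ℝ) ^ a)⌋₊ with hQdef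
  have hQ : 2 ≤ Q := by
    apply Nat.le_floor
    have h5 := Real.add_one_le_exp ((U : ℝ) ^ a)
    push_cast
    linarith
  have hQr : (2 : ℝ) ≤ Q := by exact_mod_cast hQ
  set L : ℝ := Real.log Q with hL
  have hL2 : Real.log 2 ≤ L := Real.log_le_log (by norm_num) hQr
  have hL0 : 0 < L := lt_of_lt_of_le (Real.log_pos one_lt_two) hL2
  have hLU : L ≤ (U : ℝ) ^ a := by
    rw [hL, Real.log_le_iff_le_exp (by linarith)]
    exact Nat.floor_le (Real.exp_pos _).le
  have hPQ : ∀ p ∈ P, p.Prime ∧ p ≤ Q := by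
    intro p hp
    refine ⟨(hP p hp).1, ?_⟩
    apply Nat.le_floor
    have h5 : (0 : ℝ) < p := by exact_mod_cast (hP p hp).1.pos
    exact (Real.log_le_iff_le_exp h5).1 (hP p hp).2
  set y : ℝ := (U : ℝ) ^ ((1 / 2 : ℝ) - delta) with hy
  have hy2 : 2 ≤ y := by linarith
  have hyU : y ≤ U := by
    calc y ≤ (U : ℝ) ^ (1 : ℝ) := Real.rpow_le_rpow_of_exponent_le (by linarith) (by linarith)
      _ = U := Real.rpow_one _
  set Ps' := P.filter (fun p : ℕ => (p : ℝ) ≤ y) with hPs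
  set Pm := P.filter (fun p : ℕ => y < (p : ℝ) ∧ p ≤ U) with hPm
  set Pl := P.filter (fun p : ℕ => y < (p : ℝ) ∧ U < p) with hPl
  have hs : ∀ p ∈ Ps', p.Prime := fun p hp => (hP p (mem_filter.1 hp).1).1
  have hm : ∀ p ∈ Pm, p.Prime := fun p hp => (hP p (mem_filter.1 hp).1).1
  have hl : ∀ p ∈ Pl, p.Prime := fun p hp => (hP p (mem_filter.1 hp).1).1
  have dsm : Disjoint Ps' Pm := by
    rw [disjoint_left]
    intro p hp hp'
    exact absurd (mem_filter.1 hp).2 (not_le.2 (mem_filter.1 hp').2.1)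
  have dsl : Disjoint (Ps' ∪ Pm) Pl := by
    rw [disjoint_left]
    intro p hp hp'
    have h5 := (mem_filter.1 hp').2
    rcases mem_union.1 hp with h | h
    · exact absurd (mem_filter.1 h).2 (not_le.2 h5.1)
    · exact absurd (mem_filter.1 h).2.2 (not_le.2 h5.2)
  have hun : Ps' ∪ Pm ∪ Pl = P := by
    ext p
    rw [mem_union, mem_union, mem_filter, mem_filter, mem_filter]
    constructor
    · rintro ((h | h) | h) <;> exact h.1
    · intro hp
      by_cases h5 : (p : ℝ) ≤ y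
      · exact Or.inl (Or.inl ⟨hp, h5⟩)
      · rw [not_le] at h5
        by_cases h6 : p ≤ U
        · exact Or.inl (Or.inr ⟨hp, h5, h6⟩)
        · exact Or.inr ⟨hp, h5, not_le.1 h6⟩
  have hVP : V P = V Ps' * V Pm * V Pl := by
    rw [← hun]
    unfold V
    rw [prod_union dsl, prod_union dsm]
  have hprod : (∏ p ∈ Ps', p) * (∏ p ∈ Pm, p) * (∏ p ∈ Pl, p) = ∏ p ∈ P, p := by
    rw [← hun, prod_union dsl, prod_union dsm]
  have hVs := V_pos hs
  have hVm := V_pos hm
  have hVl := V_pos hl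
  have hVl1 := V_le_one hl
  have hVlow : cm / L ≤ V Pl := hmert Q hQ Pl fun p hp => ⟨hl p hp, (hPQ p (mem_filter.1 hp).1).2⟩
  have hVlow' : cm / (U : ℝ) ^ a ≤ V Pl := le_trans (div_le_div_of_nonneg_left hcm.le hL0 hLU) hVlow
  have hVsm : cm / Real.log U ≤ V Ps' * V Pm := by
    have h5 := hmert U hU2 (Ps' ∪ Pm) (by
      intro p hp
      rcases mem_union.1 hp with h | h
      · refine ⟨hs p h, ?_⟩
        have h6 := (mem_filter.1 h).2.trans hyU
        exact_mod_cast h6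
      · exact ⟨hm p h, (mem_filter.1 h).2.2⟩)
    refine h5.trans (le_of_eq ?_)
    unfold V
    rw [prod_union dsm]
  set lam1 : ℝ := y / (8 * U * V Pl) with hlam1
  have hlam10 : 0 ≤ lam1 := by positivity
  have hUa : 0 < (U : ℝ) ^ a := Real.rpow_pos_of_pos hUpos _
  -- bound for lam1
  have hlamb : lam1 ≤ 1 / (8 * cm * (U : ℝ) ^ r1) := by
    have h5 : 8 * U * (cm / (U : ℝ) ^ a) ≤ 8 * U * V Pl := mul_le_mul_of_nonneg_left hVlow' (by positivity)
    have h6 : lam1 ≤ y / (8 * U * (cm / (U : ℝ) ^ a)) :=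
      div_le_div_of_nonneg_left (by positivity) (by positivity) h5
    refine h6.trans (le_of_eq ?_)
    have h7 : y * (U : ℝ) ^ a * (U : ℝ) ^ r1 = U := by
      rw [hy, hr1, ← Real.rpow_add hUpos, ← Real.rpow_add hUpos]
      have : (1 / 2 : ℝ) - delta + a + (1 / 2 + delta - a) = 1 := by ring
      rw [this, Real.rpow_one]
    have h8 : 0 < (U : ℝ) ^ r1 := Real.rpow_pos_of_pos hUpos _
    rw [div_eq_div_iff (by positivity) (by positivity), one_mul]
    field_simp
    linarith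
  have hUr1 : 0 < (U : ℝ) ^ r1 := Real.rpow_pos_of_pos hUpos _
  have hlam1' : lam1 ≤ 1 := by
    refine hlamb.trans ?_
    rw [div_le_one (by positivity)]
    rw [zero_mul, zero_add, div_le_iff₀ (by positivity)] at h1
    linarith
  have hlogV : -Real.log (V Pl) ≤ Real.log U + |Real.log cm| := by
    have h5 : Real.log (cm / L) ≤ Real.log (V Pl) := Real.log_le_log (by positivity) hVlow
    rw [Real.log_div hcm.ne' hL0.ne'] at h5
    have h6 : Real.log L ≤ Real.log U := by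
      apply Real.log_le_log hL0
      refine hLU.trans ?_
      calc (U : ℝ) ^ a ≤ (U : ℝ) ^ (1 : ℝ) := Real.rpow_le_rpow_of_exponent_le (by linarith) (by linarith)
        _ = U := Real.rpow_one _
    have h7 := neg_abs_le (Real.log cm)
    linarith
  have hsum : lam1 * -(2 * Real.log (V Pl)) ≤ 1 / 2 := by
    have h5 : 0 ≤ -Real.log (V Pl) := by
      have := Real.log_nonpos hVl.le hVl1
      linarith
    have h6 : lam1 * -(2 * Real.log (V Pl)) ≤ 1 / (8 * cm * (U : ℝ) ^ r1) * (2 * (Real.log U + |Real.log cm|)) := by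
      apply mul_le_mul hlamb (by linarith) (by linarith) (by positivity)
    refine h6.trans ?_
    have h7 : 1 / (8 * cm * (U : ℝ) ^ r1) * (2 * (Real.log U + |Real.log cm|)) =
        (1 / (2 * cm) * Real.log U + |Real.log cm| / (2 * cm)) / (2 * (U : ℝ) ^ r1) := by
      field_simp
      ring
    rw [h7, div_le_iff₀ (by positivity)]
    linarith
  set lam2 : ℝ := y / (16 * U) with hlam2
  have key := twost Ps' Pm Pl U lam1 lam2 y c1 hs hm hl dsm dsl (fun p hp => (mem_filter.1 hp).2)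
    (fun p hp => (mem_filter.1 hp).2.2) hy2 (by omega) hlam10 hlam1' hsum (by
      rw [hlam1, hlam2]; field_simp; ring) rfl (fun n => hA U n Ps' hU0 fun p hp => ⟨hs p hp, (mem_filter.1 hp).2⟩)
  rw [hun, hprod] at key
  set D := ∏ p ∈ P, p with hD
  set B := (range D).filter (fun n => Sf P n U < c1 / 8 * (U * V P)) with hB
  set z : ℝ := c1 * y * (V Ps' * V Pm) / 64 with hz
  have hmark : (B.card : ℝ) * Real.exp (-z) ≤ (D : ℝ) * Real.exp (-(c1 * y * (V Ps' * V Pm) / 32)) := by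
    refine le_trans ?_ key
    calc (B.card : ℝ) * Real.exp (-z) = ∑ n ∈ B, Real.exp (-z) := by rw [sum_const, nsmul_eq_mul]
      _ ≤ ∑ n ∈ B, Real.exp (-(lam1 * Sf P n U)) := by
        apply sum_le_sum
        intro n hn
        apply Real.exp_le_exp.2
        have h5 := (mem_filter.1 hn).2
        have h6 : lam1 * Sf P n U ≤ lam1 * (c1 / 8 * (U * V P)) := mul_le_mul_of_nonneg_left h5.le hlam10
        have h7 : lam1 * (c1 / 8 * (U * V P)) = z := by
          rw [hz, hlam1, hVP]; field_simp; ring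
        linarith
      _ ≤ _ := sum_le_sum_of_subset_of_nonneg (filter_subset _ _) fun _ _ _ => (Real.exp_pos _).le
  have hcard : (B.card : ℝ) ≤ D * Real.exp (-z) := by
    have h5 : -(c1 * y * (V Ps' * V Pm) / 32) = -z + -z := by rw [hz]; ring
    rw [h5, Real.exp_add, ← mul_assoc] at hmark
    exact le_of_mul_le_mul_right hmark (Real.exp_pos _)
  have hz3 : 3 * (U : ℝ) ^ a ≤ z := by
    have h5 : c1 * y * (cm / Real.log U) / 64 ≤ z := by
      rw [hz]
      apply div_le_div_of_nonneg_right _ (by norm_num)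
      exact mul_le_mul_of_nonneg_left hVsm (by positivity)
    refine le_trans ?_ h5
    have h7 : y = (U : ℝ) ^ a * (U : ℝ) ^ r2 := by
      rw [hy, hr2, ← Real.rpow_add hUpos]
      congr 1
      ring
    rw [h7, le_div_iff₀ (by norm_num)]
    have h8 : 192 * Real.log U ≤ c1 * cm * (U : ℝ) ^ r2 := by
      rw [add_zero, div_mul_eq_mul_div, div_le_iff₀ (by positivity)] at h3
      linarith
    have h9 : c1 * ((U : ℝ) ^ a * (U : ℝ) ^ r2) * (cm / Real.log U) =
        (U : ℝ) ^ a * (c1 * cm * (U : ℝ) ^ r2) / Real.log U := by ring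
    rw [h9, le_div_iff₀ hlU]
    have h10 := mul_le_mul_of_nonneg_left h8 hUa.le
    linarith
  calc (B.card : ℝ) * Real.exp (3 * (U : ℝ) ^ a) ≤ D * Real.exp (-z) * Real.exp z :=
        mul_le_mul hcard (Real.exp_le_exp.2 hz3) (Real.exp_pos _).le (by positivity)
    _ = D := by rw [mul_assoc, ← Real.exp_add]; simp

end Pool.Agent.Y829
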