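import Pool.Agent.Y829.BT4

/-! Nonnegative weights of level `Q` are spread out. -/

set_option autoImplicit false

namespace Pool.Agent.Y829

open Finset

/-- the weight `w` is a sum of functions of periods `1, ..., Q` -/
def Lev (Q : ℕ) (w : ℕ → ℝ) : Prop :=
  ∃ f : ℕ → ℕ → ℝ, (∀ d n, f d (n + d) = f d n) ∧ ∀ n, w n = ∑ d ∈ Icc 1 Q, f d n

lemma per_mul {f : ℕ → ℝ} {d : ℕ} (h : ∀ n, f (n + d) = f n) (n k : ℕ) : f (n + d * k) = f n := by
  induction k with
  | zero => simp
  | succ k ih =>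
    have : n + d * (k + 1) = (n + d * k) + d := by ring
    rw [this, h, ih]

lemma per_mod {f : ℕ → ℝ} {d A : ℕ} (h : ∀ n, f (n + d) = f n) (hd : d ∣ A) (n : ℕ) : f (n % A) = f n := by
  obtain ⟨k, hk⟩ := hd
  have h1 := Nat.mod_add_div n A
  have h2 : f (n % A + d * (k * (n / A))) = f (n % A) := per_mul h _ _
  have h3 : n % A + d * (k * (n / A)) = n := by
    rw [← mul_assoc, ← hk]; exact h1
  rw [h3] at h2
  exact h2.symm

lemma Lev.mod {Q A : ℕ} {w : ℕ → ℝ} (h : Lev Q w) (hd : ∀ d ∈ Icc 1 Q, d ∣ A) (n : ℕ) : w (n % A) = w n := by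
  obtain ⟨f, hf, hw⟩ := h
  rw [hw, hw]
  exact sum_congr rfl fun d hdQ => per_mod (hf d) (hd d hdQ) n

/-- a weight of level `Q` is at most `Q²` times its mean -/
theorem supb (A Q : ℕ) (hA : 0 < A) (hd : ∀ d ∈ Icc 1 Q, d ∣ A) (w : ℕ → ℝ) (hw0 : ∀ n, 0 ≤ w n) (hw : Lev Q w)
    (n : ℕ) : A * w n ≤ (Q : ℝ) ^ 2 * ∑ m ∈ range A, w m := by
  classical
  have hne : NeZero A := ⟨hA.ne'⟩
  have hwm := hw.mod hd
  obtain ⟨f, hf, hwf⟩ := hw
  set Φ : ℕ → ZMod A → ℂ := fun d k => ((f d k.val : ℝ) : ℂ) with hΦ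
  set W : ZMod A → ℂ := fun k => ((w k.val : ℝ) : ℂ) with hW
  have hWs : W = ∑ d ∈ Icc 1 Q, Φ d := by
    funext k
    rw [Finset.sum_apply]
    simp only [hW, hΦ, hwf]
    push_cast
    rfl
  set S : Finset (ZMod A) := (Icc 1 Q).biUnion (fun d => univ.filter (fun k : ZMod A => d • k = 0)) with hS
  have hScard : (S.card : ℝ) ≤ (Q : ℝ) ^ 2 := by
    have h1 : S.card ≤ ∑ d ∈ Icc 1 Q, Q := by
      refine card_biUnion_le.trans (sum_le_sum ?_)
      intro d hdQ
      rw [mem_Icc] at hdQ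
      exact (IsAddCyclic.card_nsmul_eq_zero_le (α := ZMod A) (by omega)).trans hdQ.2
    rw [sum_const, Nat.card_Icc, Nat.add_sub_cancel, smul_eq_mul] at h1
    rw [sq]
    exact_mod_cast h1
  have hvan : ∀ d ∈ Icc 1 Q, ∀ k : ZMod A, d • k ≠ 0 → ZMod.dft (Φ d) k = 0 := by
    intro d hdQ k hk
    rw [ZMod.dft_apply]
    set T : ℂ := ∑ j : ZMod A, ZMod.stdAddChar (-(j * k)) • Φ d j with hT
    have h1 : T = ZMod.stdAddChar (-((d : ZMod A) * k)) * T := by
      calc T = ∑ j : ZMod A, ZMod.stdAddChar (-((j + (d : ZMod A)) * k)) • Φ d (j + (d : ZMod A)) := by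
            rw [hT]
            exact (Equiv.sum_comp (Equiv.addRight (d : ZMod A))
              (fun j : ZMod A => ZMod.stdAddChar (-(j * k)) • Φ d j)).symm
        _ = ∑ j : ZMod A, ZMod.stdAddChar (-((d : ZMod A) * k)) * (ZMod.stdAddChar (-(j * k)) • Φ d j) := by
            apply sum_congr rfl
            intro j _
            have e1 : Φ d (j + (d : ZMod A)) = Φ d j := by
              simp only [hΦ]
              congr 1
              rw [ZMod.val_add, per_mod (hf d) (hd d hdQ), ZMod.val_natCast]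
              have h2 : f d (j.val + d % A) = f d ((j.val + d % A) % A) := (per_mod (hf d) (hd d hdQ) _).symm
              rw [h2, Nat.add_mod_mod, per_mod (hf d) (hd d hdQ), hf]
            have e2 : -((j + (d : ZMod A)) * k) = -((d : ZMod A) * k) + -(j * k) := by ring
            rw [e1, e2, AddChar.map_add_eq_mul]
            simp only [smul_eq_mul]
            ring
        _ = _ := by rw [← mul_sum]
    have h2 : (1 - ZMod.stdAddChar (-((d : ZMod A) * k))) * T = 0 := by
      rw [sub_mul, one_mul, ← h1, sub_self]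
    rcases mul_eq_zero.1 h2 with h3 | h3
    · exfalso
      apply hk
      have h4 : ZMod.stdAddChar (-((d : ZMod A) * k)) = ZMod.stdAddChar (0 : ZMod A) := by
        rw [AddChar.map_zero_eq_one]
        exact (sub_eq_zero.1 h3).symm
      have h5 := ZMod.injective_stdAddChar h4
      rw [nsmul_eq_mul]
      exact neg_eq_zero.1 h5
    · exact h3
  have hvanW : ∀ k : ZMod A, k ∉ S → ZMod.dft W k = 0 := by
    intro k hk
    rw [hWs, map_sum, Finset.sum_apply]
    apply sum_eq_zero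
    intro d hdQ
    apply hvan d hdQ
    intro h1
    apply hk
    rw [hS, mem_biUnion]
    exact ⟨d, hdQ, mem_filter.2 ⟨mem_univ _, h1⟩⟩
  have hsumW : ∑ k : ZMod A, w k.val = ∑ m ∈ range A, w m := by
    apply sum_nbij' (fun k : ZMod A => k.val) (fun m => (m : ZMod A))
    · intro k _
      exact mem_range.2 (ZMod.val_lt k)
    · intro m _
      exact mem_univ _
    · intro k _
      exact ZMod.natCast_zmod_val k
    · intro m hm
      exact ZMod.val_cast_of_lt (mem_range.1 hm)
    · intro k _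
      rfl
  have hbW : ∀ k : ZMod A, ‖ZMod.dft W k‖ ≤ ∑ m ∈ range A, w m := by
    intro k
    rw [ZMod.dft_apply, ← hsumW]
    refine (norm_sum_le _ _).trans (sum_le_sum ?_)
    intro j _
    rw [norm_smul, AddChar.norm_apply, one_mul]
    simp only [hW]
    rw [Complex.norm_real, Real.norm_of_nonneg (hw0 _)]
  have hinv := congrFun (ZMod.dft_dft W) (-(n : ZMod A))
  rw [neg_neg, ZMod.dft_apply] at hinv
  have h1 : ‖(A : ℂ) • W (n : ZMod A)‖ = A * w n := by
    rw [norm_smul]
    simp only [hW]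
    rw [Complex.norm_real, Real.norm_of_nonneg (hw0 _), Complex.norm_natCast, ZMod.val_natCast, hwm]
  rw [← h1, ← hinv]
  have h2 : ∑ j : ZMod A, ZMod.stdAddChar (-(j * -(n : ZMod A))) • ZMod.dft W j =
      ∑ j ∈ S, ZMod.stdAddChar (-(j * -(n : ZMod A))) • ZMod.dft W j := by
    symm
    apply sum_subset (subset_univ _)
    intro j _ hj
    rw [hvanW j hj, smul_zero]
  rw [h2]
  calc ‖∑ j ∈ S, ZMod.stdAddChar (-(j * -(n : ZMod A))) • ZMod.dft W j‖ ≤
      ∑ j ∈ S, ∑ m ∈ range A, w m := by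
        refine (norm_sum_le _ _).trans (sum_le_sum ?_)
        intro j _
        rw [norm_smul, AddChar.norm_apply, one_mul]
        exact hbW j
    _ = (S.card : ℝ) * ∑ m ∈ range A, w m := by rw [sum_const, nsmul_eq_mul]
    _ ≤ _ := mul_le_mul_of_nonneg_right hScard (sum_nonneg fun m _ => hw0 m)

end Pool.Agent.Y829
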