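import Pool.Agent.Y829.RP4

/-! Exponential moments for the number of `m` in a window with `l + q m` free of given primes, random `q`. -/

set_option autoImplicit false

namespace Pool.Agent.Y829.EH

open Finset Pool.Agent.Y829

lemma root_m {p A l m : ℕ} (hp : p.Prime) (hA : A.Coprime p) (hl : p ∣ m → ¬ p ∣ l) (x : ℕ) :
    ((range p).filter (fun i => p ∣ l + (x + A * i) * m)).card = if p ∣ m then 0 else 1 := by
  split_ifs with hm
  · rw [card_eq_zero, filter_eq_empty_iff]
    intro i _ h
    exact hl hm ((Nat.dvd_add_left (hm.trans (Dvd.intro_left _ rfl))).1 h)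
  · have hAm : (A * m).Coprime p := by
      apply Nat.Coprime.mul_left hA
      rw [Nat.coprime_comm, Nat.Prime.coprime_iff_not_dvd hp]
      exact hm
    have h1 := roots hp hAm {0} (by rw [singleton_subset_iff, mem_range]; exact hp.pos) (l + x * m)
    rw [card_singleton] at h1
    rw [← h1]
    refine congrArg card (filter_congr ?_)
    intro i _
    rw [mem_singleton]
    have e1 : l + x * m + A * m * i = l + (x + A * i) * m := by ring
    rw [e1]
    exact ⟨fun h => Nat.mod_eq_zero_of_dvd h, fun h => Nat.dvd_of_mod_eq_zero h⟩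

/-- the indicator of `p ∤ m`, divided by `p` -/
noncomputable def om (p m : ℕ) : ℝ := (if p ∣ m then 0 else 1) / (p : ℝ)

lemma om_nonneg (p m : ℕ) : 0 ≤ om p m := by
  unfold om
  split_ifs <;> positivity

lemma om_le {p m : ℕ} : om p m ≤ 1 / (p : ℝ) := by
  unfold om
  apply div_le_div_of_nonneg_right _ (Nat.cast_nonneg p)
  split_ifs <;> norm_num

lemma om_half {p m : ℕ} (hp : p.Prime) : om p m ≤ 1 / 2 := by
  refine om_le.trans ?_
  apply one_div_le_one_div_of_le (by norm_num)
  exact_mod_cast hp.two_le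

lemma avgw {p A l : ℕ} (hp : p.Prime) (hA : A.Coprime p) (hl : ¬ p ∣ l) (x : ℕ) (H : Finset ℕ) (v : ℕ → ℝ)
    (hv : ∀ m ∈ H, 0 ≤ v m) (t b : ℝ) (htb : |t| * b ≤ 1)
    (hHb : ∀ q : ℕ, ∑ m ∈ H.filter (fun m => p ∣ l + q * m), v m ≤ b) :
    ∑ i ∈ range p, Real.exp (t * ∑ m ∈ H.filter (fun m => ¬ p ∣ l + (x + A * i) * m), v m) ≤
      p * Real.exp (t * ∑ m ∈ H, v m * (1 - (1 - t * b) * om p m)) := by
  have hp0 : (0 : ℝ) < p := by exact_mod_cast hp.pos
  set a : ℕ → ℝ := fun i => ∑ m ∈ H.filter (fun m => p ∣ l + (x + A * i) * m), v m with ha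
  have ha0 : ∀ i, 0 ≤ a i := fun i => sum_nonneg fun m hm => hv m (mem_filter.1 hm).1
  have hab : ∀ i, a i ≤ b := fun i => hHb (x + A * i)
  have hb0 : 0 ≤ b := (ha0 0).trans (hab 0)
  set T : ℝ := ∑ m ∈ H, v m with hT
  have h1 : ∀ i, ∑ m ∈ H.filter (fun m => ¬ p ∣ l + (x + A * i) * m), v m = T - a i := by
    intro i
    have h2 := sum_filter_add_sum_filter_not H (fun m => p ∣ l + (x + A * i) * m) v
    have h3 : a i = ∑ m ∈ H.filter (fun m => p ∣ l + (x + A * i) * m), v m := rfl
    rw [h3, hT, ← h2]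
    ring
  have h2 : ∑ i ∈ range p, a i = p * ∑ m ∈ H, v m * om p m := by
    have h3 : ∀ i ∈ range p, a i = ∑ m ∈ H, (if p ∣ l + (x + A * i) * m then v m else 0) := by
      intro i _
      show ∑ m ∈ H.filter (fun m => p ∣ l + (x + A * i) * m), v m = _
      rw [sum_filter]
    rw [sum_congr rfl h3, sum_comm, mul_sum]
    apply sum_congr rfl
    intro m _
    rw [← sum_filter, sum_const, root_m hp hA (fun _ => hl) x, nsmul_eq_mul]
    unfold om
    push_cast
    field_simp
  have h3 : ∀ i ∈ range p, Real.exp (t * ∑ m ∈ H.filter (fun m => ¬ p ∣ l + (x + A * i) * m), v m) ≤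
      Real.exp (t * T) * (1 - t * (1 - t * b) * a i) := by
    intro i _
    rw [h1 i]
    have h4 : t * (T - a i) = t * T + -(t * a i) := by ring
    rw [h4, Real.exp_add]
    apply mul_le_mul_of_nonneg_left _ (Real.exp_pos _).le
    have h6 : |(-(t * a i))| ≤ 1 := by
      rw [abs_neg, abs_mul, abs_of_nonneg (ha0 i)]
      exact (mul_le_mul_of_nonneg_left (hab i) (abs_nonneg _)).trans htb
    have h7 := Real.abs_exp_sub_one_sub_id_le (x := -(t * a i)) h6
    have h8 := (abs_le.1 h7).2
    have h9 : (-(t * a i)) ^ 2 ≤ t * t * (a i * b) := by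
      have e1 : (-(t * a i)) ^ 2 = (t * t) * (a i * a i) := by ring
      rw [e1]
      apply mul_le_mul_of_nonneg_left _ (mul_self_nonneg t)
      exact mul_le_mul_of_nonneg_left (hab i) (ha0 i)
    have e3 : 1 - t * (1 - t * b) * a i = 1 + -(t * a i) + t * t * (a i * b) := by ring
    rw [e3]
    linarith
  refine (sum_le_sum h3).trans ?_
  rw [← mul_sum, sum_sub_distrib, ← mul_sum, h2]
  simp only [sum_const, card_range, nsmul_eq_mul, mul_one]
  set W : ℝ := ∑ m ∈ H, v m * om p m with hW
  have h4 : (p : ℝ) - t * (1 - t * b) * (p * W) = p * (1 + -(t * (1 - t * b) * W)) := by ring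
  have h5 : 1 + -(t * (1 - t * b) * W) ≤ Real.exp (-(t * (1 - t * b) * W)) := by
    rw [add_comm]; exact Real.add_one_le_exp _
  rw [h4]
  have h6 : ∑ m ∈ H, v m * (1 - (1 - t * b) * om p m) = T - (1 - t * b) * W := by
    rw [hT, hW, mul_sum, ← sum_sub_distrib]
    apply sum_congr rfl
    intro m _
    ring
  rw [h6]
  calc Real.exp (t * T) * (p * (1 + -(t * (1 - t * b) * W))) ≤
      Real.exp (t * T) * (p * Real.exp (-(t * (1 - t * b) * W))) := by
        apply mul_le_mul_of_nonneg_left _ (Real.exp_pos _).le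
        exact mul_le_mul_of_nonneg_left h5 hp0.le
    _ = p * Real.exp (t * T + -(t * (1 - t * b) * W)) := by rw [Real.exp_add]; ring
    _ = _ := by
      congr 2
      ring

/-- **exponential moments** -/
theorem expw (P : Finset ℕ) : ∀ (t : ℝ) (b : ℕ → ℝ) (l : ℕ) (H : Finset ℕ) (x A : ℕ),
    (∀ p ∈ P, p.Prime) → (∀ p ∈ P, ¬ p ∣ l) → (∀ p ∈ P, |t| * b p ≤ 1) →
    (∀ p ∈ P, ∀ q : ℕ, ((H.filter (fun m => p ∣ l + q * m)).card : ℝ) ≤ b p) →
    (∀ p ∈ P, A.Coprime p) →
    ∑ j ∈ range (∏ p ∈ P, p), Real.exp (t * ((H.filter (fun m => ∀ p ∈ P, ¬ p ∣ l + (x + A * j) * m)).card : ℝ)) ≤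
      (∏ p ∈ P, (p : ℝ)) * Real.exp (t * ∑ m ∈ H, ∏ p ∈ P, (1 - (1 - t * b p) * om p m)) := by
  classical
  induction P using Finset.induction_on with
  | empty =>
    intro t b l H x A _ _ _ _ _
    simp
  | insert p P hpP ih =>
    intro t b l H x A hP hl hb hHb hA
    have hp : p.Prime := hP p (mem_insert_self _ _)
    have hp0 : (0 : ℝ) < p := by exact_mod_cast hp.pos
    have hb0 : ∀ q ∈ insert p P, 0 ≤ b q := fun q hq => (Nat.cast_nonneg _).trans (hHb q hq 0)
    set K : ℕ → ℝ := fun m => ∏ q ∈ P, (1 - (1 - t * b q) * om q m) with hK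
    have hfac : ∀ q ∈ P, ∀ m, 0 ≤ 1 - (1 - t * b q) * om q m ∧ 1 - (1 - t * b q) * om q m ≤ 1 := by
      intro q hq m
      have hq' : q ∈ insert p P := mem_insert_of_mem hq
      have h4 := om_half (m := m) (hP q hq')
      have h5 := om_nonneg q m
      have h6 : |t * b q| ≤ 1 := by
        rw [abs_mul, abs_of_nonneg (hb0 q hq')]
        exact hb q hq'
      have h7 := abs_le.1 h6
      constructor
      · have h8 : (1 - t * b q) * om q m ≤ 2 * (1 / 2) :=
          mul_le_mul (by linarith [h7.1]) h4 h5 (by norm_num)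
        linarith
      · have h8 : 0 ≤ (1 - t * b q) * om q m :=
          mul_nonneg (by linarith [h7.2]) h5
        linarith
    have hK0 : ∀ m, 0 ≤ K m := fun m => prod_nonneg fun q hq => (hfac q hq m).1
    have hK1 : ∀ m, K m ≤ 1 := fun m => prod_le_one (fun q hq => (hfac q hq m).1) fun q hq => (hfac q hq m).2
    rw [prod_insert hpP, prod_insert hpP, sum_split]
    have h1 : ∀ i ∈ range p, ∑ j ∈ range (∏ q ∈ P, q),
        Real.exp (t * ((H.filter (fun m => ∀ q ∈ insert p P, ¬ q ∣ l + (x + A * (i + p * j)) * m)).card : ℝ)) ≤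
        (∏ q ∈ P, (q : ℝ)) * Real.exp (t * ∑ m ∈ H.filter (fun m => ¬ p ∣ l + (x + A * i) * m), K m) := by
      intro i _
      have h2 := ih t b l (H.filter (fun m => ¬ p ∣ l + (x + A * i) * m)) (x + A * i) (A * p)
        (fun q hq => hP q (mem_insert_of_mem hq)) (fun q hq => hl q (mem_insert_of_mem hq))
        (fun q hq => hb q (mem_insert_of_mem hq)) ?_ ?_
      · refine le_trans (le_of_eq ?_) h2
        apply sum_congr rfl
        intro j _
        rw [filter_filter]
        refine congrArg Real.exp (congrArg (fun z : ℝ => t * z) (congrArg Nat.cast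
          (congrArg card ?_)))
        apply filter_congr
        intro m _
        rw [forall_mem_insert]
        have e1 : x + A * (i + p * j) = x + A * i + A * p * j := by ring
        rw [e1]
        have e3 : (p ∣ l + (x + A * i + A * p * j) * m) ↔ (p ∣ l + (x + A * i) * m) := by
          have e4 : l + (x + A * i + A * p * j) * m = (l + (x + A * i) * m) + p * (A * j * m) := by ring
          rw [e4]
          exact Nat.dvd_add_left (Dvd.intro _ rfl)
        rw [e3]
      · intro q hq r
        refine le_trans ?_ (hHb q (mem_insert_of_mem hq) r)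
        have h3 := card_le_card (filter_subset_filter (fun m => q ∣ l + r * m)
          (filter_subset (fun m => ¬ p ∣ l + (x + A * i) * m) H))
        exact_mod_cast h3
      · intro q hq
        have hq' : q ∈ insert p P := mem_insert_of_mem hq
        apply Nat.Coprime.mul_left (hA q hq')
        rw [Nat.coprime_primes hp (hP q hq')]
        rintro rfl
        exact hpP hq
    refine (sum_le_sum h1).trans ?_
    rw [← mul_sum]
    have h2 := avgw hp (hA p (mem_insert_self _ _)) (hl p (mem_insert_self _ _)) x H K (fun m _ => hK0 m) t (b p)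
      (hb p (mem_insert_self _ _)) ?_
    · have h3 : 0 ≤ ∏ q ∈ P, (q : ℝ) := prod_nonneg fun q _ => Nat.cast_nonneg _
      refine (mul_le_mul_of_nonneg_left h2 h3).trans (le_of_eq ?_)
      have h4 : ∑ m ∈ H, ∏ q ∈ insert p P, (1 - (1 - t * b q) * om q m) = ∑ m ∈ H, K m * (1 - (1 - t * b p) * om p m) := by
        apply sum_congr rfl
        intro m _
        rw [prod_insert hpP, mul_comm]
      rw [h4]
      ring
    · intro q
      refine le_trans ?_ (hHb p (mem_insert_self _ _) q)
      rw [card_eq_sum_ones]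
      push_cast
      exact sum_le_sum fun m _ => hK1 m

/-- the density of `m` -/
noncomputable def kap (P : Finset ℕ) (m : ℕ) : ℝ := ∏ p ∈ P, (1 - om p m)

/-- **deviation from the mean** -/
theorem devw (P : Finset ℕ) (b : ℕ → ℝ) (l : ℕ) (H : Finset ℕ) (x A : ℕ) (lam eta eps : ℝ)
    (hP : ∀ p ∈ P, p.Prime) (hl : ∀ p ∈ P, ¬ p ∣ l)
    (hlam : 0 ≤ lam) (hb : ∀ p ∈ P, lam * b p ≤ 1)
    (hHb : ∀ p ∈ P, ∀ q : ℕ, ((H.filter (fun m => p ∣ l + q * m)).card : ℝ) ≤ b p)
    (hA : ∀ p ∈ P, A.Coprime p) (heta : eta ≤ 1)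
    (hsum : 2 * ∑ p ∈ P, lam * b p * (1 / (p : ℝ)) ≤ eta) :
    (((range (∏ p ∈ P, p)).filter (fun j => eps * (∑ m ∈ H, kap P m) <
      |((H.filter (fun m => ∀ p ∈ P, ¬ p ∣ l + (x + A * j) * m)).card : ℝ) - ∑ m ∈ H, kap P m|)).card : ℝ) ≤
      2 * ((∏ p ∈ P, p : ℕ) : ℝ) * Real.exp (-(lam * (∑ m ∈ H, kap P m) * (eps - 2 * eta))) := by
  classical
  set S : ℕ → ℝ := fun j => ((H.filter (fun m => ∀ p ∈ P, ¬ p ∣ l + (x + A * j) * m)).card : ℝ) with hS
  set D := ∏ p ∈ P, p with hD
  set M : ℝ := ∑ m ∈ H, kap P m with hM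
  have hb0 : ∀ q ∈ P, 0 ≤ b q := fun q hq => (Nat.cast_nonneg _).trans (hHb q hq 0)
  have hpert : ∀ m, ∏ p ∈ P, (1 - (1 - lam * b p) * om p m) ≤ (1 + 2 * eta) * kap P m ∧
      (1 - 2 * eta) * kap P m ≤ ∏ p ∈ P, (1 - (1 + lam * b p) * om p m) := by
    intro m
    have h1 := prod_pert P (fun p => om p m) (fun p => lam * b p) (fun p hp => ⟨om_nonneg p m, om_half (hP p hp)⟩)
      eta heta (fun p hp => mul_nonneg hlam (hb0 p hp)) (by
        refine le_trans ?_ hsum
        apply mul_le_mul_of_nonneg_left _ (by norm_num)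
        apply sum_le_sum
        intro p hp
        exact mul_le_mul_of_nonneg_left om_le (mul_nonneg hlam (hb0 p hp)))
    exact ⟨h1.1, h1.2 hb⟩
  have hprod : ((D : ℕ) : ℝ) = ∏ p ∈ P, (p : ℝ) := by rw [hD]; push_cast; rfl
  -- upper tail
  have U1 : (((range D).filter (fun j => eps * M < S j - M)).card : ℝ) ≤
      D * Real.exp (-(lam * M * (eps - 2 * eta))) := by
    have h1 := expw P lam b l H x A hP hl (by rwa [abs_of_nonneg hlam]) hHb hA
    have h2 : ∑ j ∈ (range D).filter (fun j => eps * M < S j - M), Real.exp (lam * (M + eps * M)) ≤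
        ∑ j ∈ range D, Real.exp (lam * S j) := by
      refine le_trans (sum_le_sum ?_) (sum_le_sum_of_subset_of_nonneg (filter_subset _ _) fun j _ _ => (Real.exp_pos _).le)
      intro j hj
      rw [mem_filter] at hj
      apply Real.exp_le_exp.2
      apply mul_le_mul_of_nonneg_left _ hlam
      linarith [hj.2]
    rw [sum_const, nsmul_eq_mul] at h2
    have h3 : lam * ∑ m ∈ H, ∏ p ∈ P, (1 - (1 - lam * b p) * om p m) ≤ lam * ((1 + 2 * eta) * M) := by
      apply mul_le_mul_of_nonneg_left _ hlam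
      rw [hM, mul_sum]
      exact sum_le_sum fun m _ => (hpert m).1
    have h4 := (h2.trans h1).trans (mul_le_mul_of_nonneg_left (Real.exp_le_exp.2 h3)
      (prod_nonneg fun p _ => Nat.cast_nonneg p))
    rw [← hprod] at h4
    have h5 := mul_le_mul_of_nonneg_right h4 (Real.exp_pos (-(lam * (M + eps * M)))).le
    rw [mul_assoc, ← Real.exp_add, mul_assoc, ← Real.exp_add] at h5
    have e1 : lam * (M + eps * M) + -(lam * (M + eps * M)) = 0 := by ring
    have e2 : lam * ((1 + 2 * eta) * M) + -(lam * (M + eps * M)) = -(lam * M * (eps - 2 * eta)) := by ring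
    rw [e1, e2, Real.exp_zero, mul_one] at h5
    exact h5
  -- lower tail
  have L1 : (((range D).filter (fun j => eps * M < M - S j)).card : ℝ) ≤
      D * Real.exp (-(lam * M * (eps - 2 * eta))) := by
    have h1 := expw P (-lam) b l H x A hP hl (by rwa [abs_neg, abs_of_nonneg hlam]) hHb hA
    have h2 : ∑ j ∈ (range D).filter (fun j => eps * M < M - S j), Real.exp (-lam * (M - eps * M)) ≤
        ∑ j ∈ range D, Real.exp (-lam * S j) := by
      refine le_trans (sum_le_sum ?_) (sum_le_sum_of_subset_of_nonneg (filter_subset _ _) fun j _ _ => (Real.exp_pos _).le)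
      intro j hj
      rw [mem_filter] at hj
      apply Real.exp_le_exp.2
      rw [neg_mul, neg_mul, neg_le_neg_iff]
      apply mul_le_mul_of_nonneg_left _ hlam
      linarith [hj.2]
    rw [sum_const, nsmul_eq_mul] at h2
    have h3 : -lam * ∑ m ∈ H, ∏ p ∈ P, (1 - (1 - -lam * b p) * om p m) ≤ -(lam * ((1 - 2 * eta) * M)) := by
      rw [neg_mul, neg_le_neg_iff]
      apply mul_le_mul_of_nonneg_left _ hlam
      rw [hM, mul_sum]
      apply sum_le_sum
      intro m _
      refine (hpert m).2.trans (le_of_eq ?_)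
      apply prod_congr rfl
      intro p _
      ring
    have h4 := (h2.trans h1).trans (mul_le_mul_of_nonneg_left (Real.exp_le_exp.2 h3)
      (prod_nonneg fun p _ => Nat.cast_nonneg p))
    rw [← hprod] at h4
    have h5 := mul_le_mul_of_nonneg_right h4 (Real.exp_pos (lam * (M - eps * M))).le
    rw [mul_assoc, ← Real.exp_add, mul_assoc, ← Real.exp_add] at h5
    have e1 : -lam * (M - eps * M) + lam * (M - eps * M) = 0 := by ring
    have e2 : -(lam * ((1 - 2 * eta) * M)) + lam * (M - eps * M) = -(lam * M * (eps - 2 * eta)) := by ring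
    rw [e1, e2, Real.exp_zero, mul_one] at h5
    exact h5
  have hsub : (range D).filter (fun j => eps * M < |S j - M|) ⊆
      (range D).filter (fun j => eps * M < S j - M) ∪ (range D).filter (fun j => eps * M < M - S j) := by
    intro j hj
    rw [mem_filter] at hj
    rw [mem_union, mem_filter, mem_filter]
    rcases lt_abs.1 hj.2 with h | h
    · exact Or.inl ⟨hj.1, h⟩
    · right; exact ⟨hj.1, by linarith⟩
  have hc : (((range D).filter (fun j => eps * M < |S j - M|)).card : ℝ) ≤
      ((range D).filter (fun j => eps * M < S j - M)).card + ((range D).filter (fun j => eps * M < M - S j)).card := by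
    exact_mod_cast (card_le_card hsub).trans (card_union_le _ _)
  refine hc.trans ?_
  linarith

end Pool.Agent.Y829.EH
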