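import Pool.Agent.Y829.EH9

/-! The weighted number of primes in progressions to large moduli. -/

set_option autoImplicit false

namespace Pool.Agent.Y829.EH

open Finset Filter Topology H343E Pool.Agent.TH423.SH.PSUa Pool.Agent.Y829 Pool.Agent.Y829.RP

/-- the number of primes `l + k m ≤ X + l`, `m ≥ 1` -/
noncomputable def Fp (X l k : ℕ) : ℝ := ∑ m ∈ Icc 1 (X / k), (if (l + k * m).Prime then (1 : ℝ) else 0)

/-- the model sum for one window -/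
lemma winmodel : ∃ C : ℕ, 1 ≤ C ∧ ∀ b : ℕ, C ≤ b → ∃ U1 x0 : ℕ, 2 ≤ U1 ∧ ∀ x : ℕ, x0 ≤ x → ∀ U : ℕ, U1 ≤ U →
    Real.log x ≤ (U : ℝ) ^ (1 / ((C : ℝ) * b)) → ∀ R l : ℕ, 1 ≤ R → R ≤ x → 0 < l → (l : ℝ) ≤ Real.log x →
    ∀ w : ℕ → ℝ, (∀ q, 0 ≤ w q) → Lev R w → (∀ p, p.Prime → p ∣ l → ∀ q, p ∣ q → w q = 0) →
    (1 - (1 / 2 : ℝ) ^ b) * (U * V (PQ x) * ∑ q ∈ range x.factorial, w q * gq ((PQ x).filter (fun p : ℕ => (p : ℝ) ≤ Real.log x / 8)) q) ≤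
      ∑ q ∈ range x.factorial, w q * SE l (PQ x) U q ∧
    ∑ q ∈ range x.factorial, w q * SE l (PQ x) U q ≤
      (1 + 3 * (1 / 2 : ℝ) ^ b) * (U * V (PQ x) * ∑ q ∈ range x.factorial, w q * gq ((PQ x).filter (fun p : ℕ => (p : ℝ) ≤ Real.log x / 8)) q) := by
  classical
  obtain ⟨C, hC, hmod1⟩ := mod1
  refine ⟨C, hC, ?_⟩
  intro b hb
  obtain ⟨U1, hU12, hm1⟩ := hmod1 b hb
  set δ : ℝ := (1 / 2 : ℝ) ^ b with hδ
  have hδ0 : 0 < δ := by positivity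
  have hδ1 : δ ≤ 1 := pow_le_one₀ (by norm_num) (by norm_num)
  obtain ⟨L0, hL01, hm2⟩ := mod2 δ hδ0 hδ1
  obtain ⟨x1, hx1⟩ := (log_tend.eventually_ge_atTop L0).exists_forall_of_atTop
  refine ⟨U1, max x1 2, hU12, ?_⟩
  intro x hx U hU hLU R l hR hRx hl0 hlL w hw0 hw hwl
  have hL := hx1 x ((le_max_left _ _).trans hx)
  have hx2 : 2 ≤ x := (le_max_right _ _).trans hx
  obtain ⟨hm2a, -⟩ := hm2 (Real.log x) hL
  set L := Real.log (x : ℝ) with hLd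
  set N := x.factorial with hN
  have hN0 : 0 < N := Nat.factorial_pos _
  have hdN : ∀ d ∈ Icc 1 x, d ∣ N := dvdfac x
  have hdNR : ∀ d ∈ Icc 1 R, d ∣ N := fun d hd => hdN d (mem_Icc.2 ⟨(mem_Icc.1 hd).1, (mem_Icc.1 hd).2.trans hRx⟩)
  have hPp : ∀ p ∈ PQ x, p.Prime := fun p hp => (mem_PQ.1 hp).1
  have hPN : ∀ p ∈ PQ x, p ∣ N := fun p hp => hdN p (mem_Icc.2 ⟨(hPp p hp).one_lt.le, (mem_PQ.1 hp).2⟩)
  have hlogp : ∀ p ∈ PQ x, Real.log p ≤ L := by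
    intro p hp
    apply Real.log_le_log
    · exact_mod_cast (hPp p hp).pos
    · exact_mod_cast (mem_PQ.1 hp).2
  have hlogR : Real.log R ≤ L := by
    apply Real.log_le_log
    · exact_mod_cast hR
    · exact_mod_cast hRx
  obtain ⟨P1, hP1P, hP1, hSE⟩ := hm1 U hU (PQ x) l R N w (fun p hp => ⟨hPp p hp, (hlogp p hp).trans hLU⟩) hl0
    (hlL.trans hLU) hR (hlogR.trans hLU) hN0 hdNR hPN hw0 hw (fun p hp hpl q hpq => hwl p (hPp p hp) hpl q hpq)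
  set Py := (PQ x).filter (fun p : ℕ => (p : ℝ) ≤ L / 8) with hPy
  have hPyp : ∀ p ∈ Py, p.Prime := fun p hp => hPp p (mem_filter.1 hp).1
  have hL1 : 0 ≤ L := by linarith
  have hPy1 : Py ⊆ P1 := by
    intro p hp
    have h1 := (mem_filter.1 hp).2
    exact hP1 p (mem_filter.1 hp).1 (by linarith)
  have hm2b := hm2a (PQ x) R N w (fun p hp => ⟨hPp p hp, hlogp p hp, hPN p hp⟩) hR hlogR hN0 hdNR hw0 hw
  rw [← hPy] at hm2b
  set Γ : ℝ := ∑ q ∈ range N, w q * gq Py q with hΓ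
  have hV0 : 0 < V (PQ x) := V_pos hPp
  have hUV : 0 ≤ U * V (PQ x) := by positivity
  have hGE : ∑ q ∈ range N, w q * GE (PQ x) P1 U q = U * V (PQ x) * ∑ q ∈ range N, w q * gq P1 q := by
    rw [mul_sum]
    apply sum_congr rfl
    intro q _
    unfold GE
    ring
  rw [hGE] at hSE
  have h1 : Γ ≤ ∑ q ∈ range N, w q * gq P1 q := by
    rw [hΓ]
    apply sum_le_sum
    intro q _
    exact mul_le_mul_of_nonneg_left (gq_mono hPy1 (fun p hp => hPp p (hP1P hp)) q) (hw0 q)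
  have h2 : ∑ q ∈ range N, w q * gq P1 q ≤ (1 + δ) * Γ := by
    refine le_trans ?_ hm2b
    apply sum_le_sum
    intro q _
    exact mul_le_mul_of_nonneg_left (gq_mono hP1P hPp q) (hw0 q)
  have hΓ0 : 0 ≤ Γ := sum_nonneg fun q _ => mul_nonneg (hw0 q) (le_trans zero_le_one (gq_ge_one hPyp q))
  have hSE' := abs_le.1 hSE
  set G1 : ℝ := ∑ q ∈ range N, w q * gq P1 q with hG1
  constructor
  · have h3 := mul_le_mul_of_nonneg_left h1 hUV
    have h4 : (1 - δ) * (U * V (PQ x) * Γ) ≤ (1 - δ) * (U * V (PQ x) * G1) :=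
      mul_le_mul_of_nonneg_left h3 (by linarith)
    linarith [hSE'.1]
  · have h3 := mul_le_mul_of_nonneg_left h2 hUV
    have h4 : (1 + δ) * (U * V (PQ x) * G1) ≤ (1 + δ) * (U * V (PQ x) * ((1 + δ) * Γ)) :=
      mul_le_mul_of_nonneg_left h3 (by linarith)
    have h5 : 0 ≤ U * V (PQ x) * Γ := by positivity
    have h6 : (1 + δ) * (U * V (PQ x) * ((1 + δ) * Γ)) ≤ (1 + 3 * δ) * (U * V (PQ x) * Γ) := by
      have e1 : (1 + δ) * (U * V (PQ x) * ((1 + δ) * Γ)) = ((1 + δ) * (1 + δ)) * (U * V (PQ x) * Γ) := by ring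
      rw [e1]
      apply mul_le_mul_of_nonneg_right _ h5
      nlinarith
    linarith [hSE'.2]

end Pool.Agent.Y829.EH
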