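import Pool.Agent.Y829.EH10

/-! The weighted number of primes in progressions to large moduli: the pieces. -/

set_option autoImplicit false

namespace Pool.Agent.Y829.EH

open Finset Filter Topology H343E Pool.Agent.TH423.SH.PSUa Pool.Agent.Y829 Pool.Agent.Y829.RP

/-- the end of the range of the moduli for the cofactor `m` -/
def ymf (X Y m : ℕ) : ℕ := min (2 * Y) (X / m)

noncomputable def A1f (X Y R l : ℕ) (c : ℕ → ℕ → ℝ) : ℝ :=
  ∑ m ∈ Icc 1 (X / Y), ((ymf X Y m : ℝ) - Y) * (m * Gm R c l m)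

noncomputable def A2f (X Y R l : ℕ) (c : ℕ → ℕ → ℝ) : ℝ := ∑ m ∈ Icc 1 (X / Y), (m : ℝ) * Gm R c l m

noncomputable def SMf (X Y : ℕ) : ℝ := ∑ k ∈ Ioc Y (2 * Y), ((X / k : ℕ) : ℝ)

/-- the primes up to `(log x) / 8` -/
noncomputable def Pyf (x : ℕ) : Finset ℕ := (PQ x).filter (fun p : ℕ => (p : ℝ) ≤ Real.log x / 8)

noncomputable def Gf (x R : ℕ) (c : ℕ → ℕ → ℝ) : ℝ := ∑ q ∈ range x.factorial, wt R c q * gq (Pyf x) q

lemma Pyf_prime {x p : ℕ} (hp : p ∈ Pyf x) : p.Prime := (mem_PQ.1 (mem_filter.1 hp).1).1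

lemma sz1 (x Y l K E : ℕ) (hx3 : 3 ≤ x) (hL : 16 ≤ Real.log x) (hxY : (x : ℝ) ≤ Y * Real.log x ^ K)
    (hYx : (Y : ℝ) * Real.log x ^ E ≤ x) (ev3 : Real.log x ^ (2 * K + 2) ≤ x) (hlL : (l : ℝ) ≤ Real.log x) :
    (0 < Y ∧ l ≤ Y ∧ Y ≤ x) ∧ (x : ℝ) ≤ (Y : ℝ) ^ 2 := by
  set L := Real.log (x : ℝ) with hLd
  have hL1 : 1 ≤ L := by linarith
  have hL0 : 0 < L := by linarith
  have hxr : (3 : ℝ) ≤ x := by exact_mod_cast hx3
  have hLK : (1 : ℝ) ≤ L ^ K := one_le_pow₀ hL1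
  have hYpos : (0 : ℝ) < Y := by
    by_contra h
    have h1 : (Y : ℝ) = 0 := le_antisymm (not_lt.1 h) (Nat.cast_nonneg _)
    rw [h1, zero_mul] at hxY
    linarith
  have h1 : L ^ (2 * K + 2) ≤ Y * L ^ K := ev3.trans hxY
  have h2 : L ^ (2 * K + 2) = L ^ 2 * L ^ K * L ^ K := by ring
  rw [h2] at h1
  have h3 : L ^ 2 * L ^ K ≤ Y := le_of_mul_le_mul_right h1 (by positivity)
  have h4 : L ^ 2 ≤ L ^ 2 * L ^ K := le_mul_of_one_le_right (by positivity) hLK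
  have h5 : (1 : ℝ) ≤ L ^ 2 := one_le_pow₀ hL1
  have h6 : L ^ K ≤ L ^ 2 * L ^ K := le_mul_of_one_le_left (by positivity) h5
  have h7 : L ≤ L ^ 2 := by nlinarith
  refine ⟨⟨by exact_mod_cast hYpos, ?_, ?_⟩, ?_⟩
  · have : (l : ℝ) ≤ Y := by linarith
    exact_mod_cast this
  · have h8 : (Y : ℝ) ≤ Y * L ^ E := le_mul_of_one_le_right hYpos.le (one_le_pow₀ hL1)
    have : (Y : ℝ) ≤ x := by linarith
    exact_mod_cast this
  · calc (x : ℝ) ≤ Y * L ^ K := hxY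
      _ ≤ Y * Y := mul_le_mul_of_nonneg_left (by linarith) hYpos.le
      _ = _ := by ring

lemma sz2 (x Y l E : ℕ) (δ : ℝ) (hδ0 : 0 < δ) (hδL : 8 ≤ δ * Real.log x) (hL : 16 ≤ Real.log x) (hE : 1 ≤ E)
    (hYx : (Y : ℝ) * Real.log x ^ E ≤ x) (hY0 : 0 < Y) (hlY : l ≤ Y) (hlx : l ≤ x) (k : ℕ) (hk : k ∈ Ioc Y (2 * Y)) :
    Real.log x ^ E / 4 ≤ ((x - l) / k : ℕ) ∧ (((x - l) / Y : ℕ) : ℝ) ≤ 3 * ((x - l) / k : ℕ) ∧
      (x : ℝ) / k ≤ (1 + δ) * ((x - l) / k : ℕ) ∧ (((x - l) / k : ℕ) : ℝ) ≤ x / k := by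
  set L := Real.log (x : ℝ) with hLd
  have hL1 : 1 ≤ L := by linarith
  have hXr : ((x - l : ℕ) : ℝ) = x - l := by push_cast [Nat.cast_sub hlx]; ring
  set X : ℕ := x - l with hX
  have hYpos : (0 : ℝ) < Y := by exact_mod_cast hY0
  rw [mem_Ioc] at hk
  have hkr : (0 : ℝ) < k := by exact_mod_cast (by omega : 0 < k)
  have hk2 : (k : ℝ) ≤ 2 * Y := by exact_mod_cast hk.2
  have hl0 : (0 : ℝ) ≤ l := Nat.cast_nonneg _
  set Mk : ℕ := X / k with hMk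
  have h1 : (X : ℝ) / k < Mk + 1 := by
    rw [div_lt_iff₀ hkr]
    have : X < (X / k + 1) * k := by
      have h2 := Nat.lt_mul_div_succ X (show 0 < k by omega)
      rw [mul_comm] at h2
      exact h2
    exact_mod_cast this
  have hlk : (l : ℝ) / k ≤ 1 := by
    rw [div_le_one hkr]
    exact_mod_cast hlY.trans hk.1.le
  have h2 : (x : ℝ) / k < Mk + 2 := by
    rw [hXr, sub_div] at h1
    linarith
  have hpow : L ≤ L ^ E := by
    calc L = L ^ 1 := (pow_one L).symm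
      _ ≤ L ^ E := pow_le_pow_right₀ hL1 hE
  have h3 : L ^ E / 2 ≤ x / k := by
    rw [div_le_div_iff₀ (by norm_num) hkr]
    have h4 : L ^ E * k ≤ L ^ E * (2 * Y) := mul_le_mul_of_nonneg_left hk2 (by positivity)
    linarith
  have h4 : L ^ E / 4 ≤ Mk := by linarith
  have hMx : (((X / Y : ℕ) : ℕ) : ℝ) * Y ≤ X := by
    have : X / Y * Y ≤ X := Nat.div_mul_le_self X Y
    exact_mod_cast this
  refine ⟨h4, ?_, ?_, ?_⟩
  · have h5 : ((X / Y : ℕ) : ℝ) ≤ x / Y := by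
      rw [le_div_iff₀ hYpos]
      rw [hXr] at hMx
      linarith
    have h6 : (x : ℝ) / Y ≤ 2 * (x / k) := by
      rw [mul_div_assoc', div_le_div_iff₀ hYpos hkr]
      have h7 : (x : ℝ) * k ≤ x * (2 * Y) := mul_le_mul_of_nonneg_left hk2 (Nat.cast_nonneg _)
      linarith
    linarith
  · have h5 : 2 ≤ δ * Mk := by
      have h6 : δ * (L / 4) ≤ δ * Mk := mul_le_mul_of_nonneg_left (by linarith) hδ0.le
      linarith
    linarith
  · have h5 : Mk * k ≤ X := Nat.div_mul_le_self X k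
    have h6 : (Mk : ℝ) * k ≤ X := by exact_mod_cast h5
    rw [le_div_iff₀ hkr]
    linarith

lemma powU (L : ℝ) (C b U1 U : ℕ) (hC : 1 ≤ C) (hb : 1 ≤ b) (hL : 16 ≤ L) (hU1 : (U1 : ℝ) + 4 ≤ L)
    (hU : L ^ (2 * C * b) / 4 ≤ U) : U1 ≤ U ∧ L ≤ (U : ℝ) ^ (1 / ((C : ℝ) * b)) := by
  have hL1 : 1 ≤ L := by linarith
  have hL0 : 0 < L := by linarith
  have hCb : (1 : ℝ) ≤ (C : ℝ) * b := by
    have h1 : (1 : ℝ) ≤ C := by exact_mod_cast hC
    have h2 : (1 : ℝ) ≤ b := by exact_mod_cast hb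
    nlinarith
  have h1 : (L : ℝ) ^ (2 * C * b) = L ^ (C * b) * L ^ (C * b) := by rw [← pow_add]; congr 1; ring
  have h2 : L ≤ L ^ (C * b) := by
    calc L = L ^ 1 := (pow_one L).symm
      _ ≤ L ^ (C * b) := pow_le_pow_right₀ hL1 (Nat.mul_pos hC hb)
  have h3 : L ^ (C * b) ≤ U := by
    refine le_trans ?_ hU
    rw [h1]
    nlinarith
  constructor
  · have h4 : (U1 : ℝ) ≤ U := by linarith
    exact_mod_cast h4
  · have h4 : L = (L ^ (C * b)) ^ (1 / ((C : ℝ) * b)) := by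
      rw [← Real.rpow_natCast, ← Real.rpow_mul hL0.le]
      push_cast
      rw [mul_one_div, div_self (by linarith), Real.rpow_one]
    rw [h4]
    exact Real.rpow_le_rpow (by positivity) h3 (by positivity)

lemma SEsum (l : ℕ) (P : Finset ℕ) (U q : ℕ) :
    SE l P U q = ∑ m ∈ Icc 1 U, (if (∀ p ∈ P, ¬ p ∣ l + q * m) then (1 : ℝ) else 0) := by
  unfold SE
  rw [card_filter]
  push_cast
  rfl

lemma ymf_ge (X Y m : ℕ) (hY : 0 < Y) (hm : m ∈ Icc 1 (X / Y)) : Y ≤ ymf X Y m := by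
  rw [mem_Icc] at hm
  apply le_min (by omega)
  rw [Nat.le_div_iff_mul_le (by omega), mul_comm]
  exact (Nat.mul_le_mul_right Y hm.2).trans (Nat.div_mul_le_self X Y)

lemma card_ymf (X Y m : ℕ) (hY : 0 < Y) (hm : m ∈ Icc 1 (X / Y)) :
    ∑ _k ∈ Ioc Y (ymf X Y m), (1 : ℝ) = (ymf X Y m : ℝ) - Y := by
  rw [sum_const, Nat.card_Ioc, nsmul_eq_mul, mul_one, Nat.cast_sub (ymf_ge X Y m hY hm)]

lemma SM_eq (X Y : ℕ) (hY : 0 < Y) : SMf X Y = ∑ m ∈ Icc 1 (X / Y), ((ymf X Y m : ℝ) - Y) := by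
  have h1 : ∀ k ∈ Ioc Y (2 * Y), ((X / k : ℕ) : ℝ) = ∑ m ∈ Icc 1 (X / k), (1 : ℝ) := by
    intro k _
    simp
  unfold SMf
  rw [sum_congr rfl h1, hyp X Y (X / Y) rfl hY (fun _ _ => (1 : ℝ))]
  exact sum_congr rfl fun m hm => card_ymf X Y m hY hm

lemma Gm_eq (x X Y R l m : ℕ) (c : ℕ → ℕ → ℝ) (hRx : R ≤ x) (hMx : X / Y ≤ x) (hm : m ∈ Icc 1 (X / Y)) :
    x.factorial * V (PQ x) * (m * Gm R c l m) =
      ∑ q ∈ range x.factorial, wt R c q * (if (∀ p ∈ PQ x, ¬ p ∣ l + q * m) then 1 else 0) := by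
  rw [mem_Icc] at hm
  exact (sum_free_m R x x.factorial l m c hRx (Nat.factorial_pos _) (dvdfac x) hm.1 (hm.2.trans hMx)).symm

lemma NV_pos (x : ℕ) : 0 < (x.factorial : ℝ) * V (PQ x) := by
  have h1 : (0 : ℝ) < x.factorial := by exact_mod_cast Nat.factorial_pos x
  have h2 := V_pos (P := PQ x) (fun p hp => (mem_PQ.1 hp).1)
  positivity

lemma Gm_nonneg (x X Y R l m : ℕ) (c : ℕ → ℕ → ℝ) (hRx : R ≤ x) (hMx : X / Y ≤ x) (hw : ∀ q, 0 ≤ wt R c q)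
    (hm : m ∈ Icc 1 (X / Y)) : 0 ≤ (m : ℝ) * Gm R c l m := by
  have h1 : 0 ≤ x.factorial * V (PQ x) * (m * Gm R c l m) := by
    rw [Gm_eq x X Y R l m c hRx hMx hm]
    apply sum_nonneg
    intro q _
    apply mul_nonneg (hw q)
    split_ifs <;> norm_num
  exact nonneg_of_mul_nonneg_right h1 (NV_pos x)

lemma A2_eq (x X Y R l : ℕ) (c : ℕ → ℕ → ℝ) (hRx : R ≤ x) (hMx : X / Y ≤ x) :
    x.factorial * V (PQ x) * A2f X Y R l c = ∑ q ∈ range x.factorial, wt R c q * SE l (PQ x) (X / Y) q := by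
  unfold A2f
  rw [mul_sum, sum_congr rfl (fun m hm => Gm_eq x X Y R l m c hRx hMx hm), sum_comm]
  apply sum_congr rfl
  intro q _
  rw [SEsum, mul_sum]

lemma A1_eq (x X Y R l : ℕ) (c : ℕ → ℕ → ℝ) (hRx : R ≤ x) (hMx : X / Y ≤ x) (hY : 0 < Y) :
    x.factorial * V (PQ x) * A1f X Y R l c =
      ∑ k ∈ Ioc Y (2 * Y), ∑ q ∈ range x.factorial, wt R c q * SE l (PQ x) (X / k) q := by
  have h1 : ∀ k ∈ Ioc Y (2 * Y), ∑ q ∈ range x.factorial, wt R c q * SE l (PQ x) (X / k) q =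
      ∑ m ∈ Icc 1 (X / k), ∑ q ∈ range x.factorial, wt R c q * (if (∀ p ∈ PQ x, ¬ p ∣ l + q * m) then 1 else 0) := by
    intro k _
    rw [sum_comm]
    apply sum_congr rfl
    intro q _
    rw [SEsum, mul_sum]
  rw [sum_congr rfl h1, hyp X Y (X / Y) rfl hY
    (fun _ m => ∑ q ∈ range x.factorial, wt R c q * (if (∀ p ∈ PQ x, ¬ p ∣ l + q * m) then 1 else 0))]
  unfold A1f
  rw [mul_sum]
  apply sum_congr rfl
  intro m hm
  rw [← Gm_eq x X Y R l m c hRx hMx hm]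
  have h2 := card_ymf X Y m hY hm
  rw [sum_const, nsmul_eq_mul, mul_one] at h2
  show _ = ∑ k ∈ Ioc Y (ymf X Y m), _
  rw [sum_const, nsmul_eq_mul, h2]
  ring

lemma A_bd (x X Y R l : ℕ) (c : ℕ → ℕ → ℝ) (δ : ℝ) (hδ0 : 0 < δ) (hδ1 : δ ≤ 1 / 2) (hRx : R ≤ x) (hMx : X / Y ≤ x)
    (hY : 0 < Y) (hw : ∀ q, 0 ≤ wt R c q)
    (hwin : ∀ U : ℕ, (U = X / Y ∨ ∃ k ∈ Ioc Y (2 * Y), U = X / k) →
      (1 - δ) * (U * V (PQ x) * Gf x R c) ≤ ∑ q ∈ range x.factorial, wt R c q * SE l (PQ x) U q ∧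
      ∑ q ∈ range x.factorial, wt R c q * SE l (PQ x) U q ≤ (1 + 3 * δ) * (U * V (PQ x) * Gf x R c))
    (h3 : (Y : ℝ) * ((X / Y : ℕ) : ℝ) ≤ 3 * SMf X Y) :
    (1 - δ) * (Gf x R c / x.factorial * SMf X Y) ≤ A1f X Y R l c ∧
    A1f X Y R l c ≤ (1 + 3 * δ) * (Gf x R c / x.factorial * SMf X Y) ∧
    Y * A2f X Y R l c ≤ 12 * (Gf x R c / x.factorial * SMf X Y) := by
  have hNV := NV_pos x
  have hNr : (0 : ℝ) < x.factorial := by exact_mod_cast Nat.factorial_pos x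
  have hV : 0 < V (PQ x) := V_pos (fun p hp => (mem_PQ.1 hp).1)
  have hG0 : 0 ≤ Gf x R c := sum_nonneg fun q _ =>
    mul_nonneg (hw q) (le_trans zero_le_one (gq_ge_one (fun p hp => Pyf_prime hp) q))
  refine ⟨?_, ?_, ?_⟩
  · have h1 : ∑ k ∈ Ioc Y (2 * Y), (1 - δ) * (((X / k : ℕ) : ℝ) * V (PQ x) * Gf x R c) ≤
        x.factorial * V (PQ x) * A1f X Y R l c := by
      rw [A1_eq x X Y R l c hRx hMx hY]
      exact sum_le_sum fun k hk => (hwin (X / k) (Or.inr ⟨k, hk, rfl⟩)).1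
    have h2 : ∑ k ∈ Ioc Y (2 * Y), (1 - δ) * (((X / k : ℕ) : ℝ) * V (PQ x) * Gf x R c) =
        x.factorial * V (PQ x) * ((1 - δ) * (Gf x R c / x.factorial * SMf X Y)) := by
      unfold SMf
      rw [← mul_sum, ← sum_mul, ← sum_mul]
      field_simp
    rw [h2] at h1
    exact le_of_mul_le_mul_left h1 hNV
  · have h1 : x.factorial * V (PQ x) * A1f X Y R l c ≤
        ∑ k ∈ Ioc Y (2 * Y), (1 + 3 * δ) * (((X / k : ℕ) : ℝ) * V (PQ x) * Gf x R c) := by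
      rw [A1_eq x X Y R l c hRx hMx hY]
      exact sum_le_sum fun k hk => (hwin (X / k) (Or.inr ⟨k, hk, rfl⟩)).2
    have h2 : ∑ k ∈ Ioc Y (2 * Y), (1 + 3 * δ) * (((X / k : ℕ) : ℝ) * V (PQ x) * Gf x R c) =
        x.factorial * V (PQ x) * ((1 + 3 * δ) * (Gf x R c / x.factorial * SMf X Y)) := by
      unfold SMf
      rw [← mul_sum, ← sum_mul, ← sum_mul]
      field_simp
    rw [h2] at h1
    exact le_of_mul_le_mul_left h1 hNV
  · have h1 := (hwin (X / Y) (Or.inl rfl)).2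
    rw [← A2_eq x X Y R l c hRx hMx] at h1
    have h2 : x.factorial * V (PQ x) * A2f X Y R l c ≤
        x.factorial * V (PQ x) * (4 * (((X / Y : ℕ) : ℝ) * (Gf x R c / x.factorial))) := by
      refine h1.trans ?_
      have h3 : (1 + 3 * δ) * (((X / Y : ℕ) : ℝ) * V (PQ x) * Gf x R c) ≤ 4 * (((X / Y : ℕ) : ℝ) * V (PQ x) * Gf x R c) := by
        apply mul_le_mul_of_nonneg_right (by linarith) (by positivity)
      refine h3.trans (le_of_eq ?_)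
      field_simp
    have h4 : A2f X Y R l c ≤ 4 * (((X / Y : ℕ) : ℝ) * (Gf x R c / x.factorial)) := le_of_mul_le_mul_left h2 hNV
    have h5 := mul_le_mul_of_nonneg_left h4 (Nat.cast_nonneg (α := ℝ) Y)
    have h6 : (Y : ℝ) * (4 * (((X / Y : ℕ) : ℝ) * (Gf x R c / x.factorial))) =
        4 * (Gf x R c / x.factorial) * (Y * ((X / Y : ℕ) : ℝ)) := by ring
    have h7 := mul_le_mul_of_nonneg_left h3 (show 0 ≤ 4 * (Gf x R c / x.factorial) by positivity)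
    rw [h6] at h5
    refine h5.trans (h7.trans (le_of_eq ?_))
    ring

end Pool.Agent.Y829.EH
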