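import Pool.Agent.Y829.EH11

/-! The weighted number of primes in progressions to large moduli: primes and target. -/

set_option autoImplicit false

namespace Pool.Agent.Y829.EH

open Finset Filter Topology H343E Pool.Agent.TH423.SH.PSUa Pool.Agent.Y829 Pool.Agent.Y829.RP

/-- the number of primes for one cofactor -/
lemma stepm (x Y R l m K : ℕ) (c : ℕ → ℕ → ℝ) (η : ℝ) (hη0 : 0 < η) (hL0 : 0 < Real.log x)
    (hY0 : 0 < Y) (hlY : l ≤ Y) (hlx : l ≤ x) (hm : m ∈ Icc 1 ((x - l) / Y))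
    (hG : 0 ≤ Gm R c l m)
    (hbv : |∑ q ∈ Ioc Y (ymf (x - l) Y m), wt R c q * (if (l + q * m).Prime then 1 else 0) -
      (pi1 (l + ymf (x - l) Y m * m) - pi1 (l + Y * m)) * Gm R c l m| ≤ x / Real.log x ^ (2 * K + 2))
    (hn1 : |pi1 (l + ymf (x - l) Y m * m) - ((l + ymf (x - l) Y m * m : ℕ) : ℝ) / Real.log x| ≤
      η * (((l + ymf (x - l) Y m * m : ℕ) : ℝ) / Real.log x))
    (hn2 : |pi1 (l + Y * m) - ((l + Y * m : ℕ) : ℝ) / Real.log x| ≤ η * (((l + Y * m : ℕ) : ℝ) / Real.log x)) :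
    |(∑ k ∈ Ioc Y (ymf (x - l) Y m), wt R c k * (if (l + k * m).Prime then 1 else 0)) -
        ((ymf (x - l) Y m : ℝ) - Y) * (m * Gm R c l m) / Real.log x| ≤
      x / Real.log x ^ (2 * K + 2) + 5 * η * (Y * (m * Gm R c l m)) / Real.log x := by
  set y := ymf (x - l) Y m with hy
  set L := Real.log (x : ℝ) with hLd
  have hm' := mem_Icc.1 hm
  have hmr : (1 : ℝ) ≤ m := by exact_mod_cast hm'.1
  have hYpos : (0 : ℝ) < Y := by exact_mod_cast hY0
  have hlY' : (l : ℝ) ≤ Y := by exact_mod_cast hlY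
  push_cast at hn1 hn2
  have hpn : |(pi1 (l + y * m) - pi1 (l + Y * m)) - ((y : ℝ) - Y) * m / L| ≤ 5 * η * (Y * m) / L := by
    have e1 : (pi1 (l + y * m) - pi1 (l + Y * m)) - ((y : ℝ) - Y) * m / L =
        (pi1 (l + y * m) - ((l : ℝ) + y * m) / L) - (pi1 (l + Y * m) - ((l : ℝ) + Y * m) / L) := by ring
    rw [e1]
    refine (abs_sub _ _).trans ?_
    have e2 : η * (((l : ℝ) + y * m) / L) + η * (((l : ℝ) + Y * m) / L) ≤ 5 * η * (Y * m) / L := by
      rw [← mul_add, ← add_div, mul_div_assoc', div_le_div_iff_of_pos_right hL0]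
      have e3 : (y : ℝ) ≤ 2 * Y := by exact_mod_cast (min_le_left _ _ : min (2 * Y) ((x - l) / m) ≤ 2 * Y)
      have e4 : (y : ℝ) * m ≤ 2 * Y * m := mul_le_mul_of_nonneg_right e3 (by linarith)
      have e5 : (Y : ℝ) ≤ Y * m := le_mul_of_one_le_right hYpos.le hmr
      have e6 : (l : ℝ) + y * m + (l + Y * m) ≤ 5 * (Y * m) := by linarith
      have e7 := mul_le_mul_of_nonneg_left e6 hη0.le
      linarith
    linarith
  have e1 : (∑ k ∈ Ioc Y y, wt R c k * (if (l + k * m).Prime then 1 else 0)) - ((y : ℝ) - Y) * (m * Gm R c l m) / L =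
      ((∑ k ∈ Ioc Y y, wt R c k * (if (l + k * m).Prime then 1 else 0)) -
        (pi1 (l + y * m) - pi1 (l + Y * m)) * Gm R c l m) +
      ((pi1 (l + y * m) - pi1 (l + Y * m)) - ((y : ℝ) - Y) * m / L) * Gm R c l m := by ring
  rw [e1]
  refine (abs_add_le _ _).trans ?_
  rw [abs_mul, abs_of_nonneg hG]
  have h3 := mul_le_mul_of_nonneg_right hpn hG
  have h4 : 5 * η * (Y * m) / L * Gm R c l m = 5 * η * (Y * (m * Gm R c l m)) / L := by ring
  rw [h4] at h3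
  exact add_le_add hbv h3

lemma stepA (x Y R l K : ℕ) (c : ℕ → ℕ → ℝ) (η : ℝ) (hY0 : 0 < Y)
    (h : ∀ m ∈ Icc 1 ((x - l) / Y), |(∑ k ∈ Ioc Y (ymf (x - l) Y m), wt R c k * (if (l + k * m).Prime then 1 else 0)) -
        ((ymf (x - l) Y m : ℝ) - Y) * (m * Gm R c l m) / Real.log x| ≤
      x / Real.log x ^ (2 * K + 2) + 5 * η * (Y * (m * Gm R c l m)) / Real.log x) :
    |∑ k ∈ Ioc Y (2 * Y), wt R c k * Fp (x - l) l k - A1f (x - l) Y R l c / Real.log x| ≤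
      (((x - l) / Y : ℕ) : ℝ) * (x / Real.log x ^ (2 * K + 2)) + 5 * η * (Y * A2f (x - l) Y R l c) / Real.log x := by
  have hSeq : ∑ k ∈ Ioc Y (2 * Y), wt R c k * Fp (x - l) l k =
      ∑ m ∈ Icc 1 ((x - l) / Y), ∑ k ∈ Ioc Y (ymf (x - l) Y m), wt R c k * (if (l + k * m).Prime then 1 else 0) := by
    have h1 := hyp (x - l) Y ((x - l) / Y) rfl hY0 (fun k m => wt R c k * (if (l + k * m).Prime then 1 else 0))
    refine Eq.trans ?_ h1
    apply sum_congr rfl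
    intro k _
    unfold Fp
    rw [mul_sum]
  have h1 : ∑ k ∈ Ioc Y (2 * Y), wt R c k * Fp (x - l) l k - A1f (x - l) Y R l c / Real.log x =
      ∑ m ∈ Icc 1 ((x - l) / Y), ((∑ k ∈ Ioc Y (ymf (x - l) Y m), wt R c k * (if (l + k * m).Prime then 1 else 0)) -
        ((ymf (x - l) Y m : ℝ) - Y) * (m * Gm R c l m) / Real.log x) := by
    unfold A1f
    rw [hSeq, sum_sub_distrib, sum_div]
  rw [h1]
  refine (abs_sum_le_sum_abs _ _).trans ((sum_le_sum h).trans ?_)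
  unfold A2f
  rw [sum_add_distrib, sum_const, Nat.card_Icc, Nat.add_sub_cancel, nsmul_eq_mul, ← sum_div, ← mul_sum, ← mul_sum]

/-- the weight times the local factor -/
noncomputable def AMf (x X Y R : ℕ) (c : ℕ → ℕ → ℝ) : ℝ :=
  ∑ k ∈ Ioc Y (2 * Y), wt R c k * gq (Pyf x) k * ((X / k : ℕ) : ℝ)

lemma AMZ (x X Y R : ℕ) (c : ℕ → ℕ → ℝ) (hY0 : 0 < Y) (hRx : R ≤ x) :
    |AMf x X Y R c - Gf x R c / x.factorial * SMf X Y| ≤
      ((X / Y : ℕ) : ℝ) * (2 ^ (Pyf x).card * ∑ e ∈ Icc 1 R, ss c e) := by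
  have h1 : AMf x X Y R c = ∑ m ∈ Icc 1 (X / Y), ∑ k ∈ Ioc Y (ymf X Y m), wt R c k * gq (Pyf x) k := by
    refine Eq.trans ?_ (hyp X Y (X / Y) rfl hY0 (fun k _ => wt R c k * gq (Pyf x) k))
    unfold AMf
    apply sum_congr rfl
    intro k _
    rw [sum_const, Nat.card_Icc, Nat.add_sub_cancel, nsmul_eq_mul, mul_comm]
  have h2 : Gf x R c / x.factorial * SMf X Y = ∑ m ∈ Icc 1 (X / Y), ((ymf X Y m : ℝ) - Y) / x.factorial * Gf x R c := by
    rw [SM_eq X Y hY0, mul_sum]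
    apply sum_congr rfl
    intro m _
    ring
  rw [h1, h2, ← sum_sub_distrib]
  refine (abs_sum_le_sum_abs _ _).trans ?_
  have h3 : ∀ m ∈ Icc 1 (X / Y), |∑ k ∈ Ioc Y (ymf X Y m), wt R c k * gq (Pyf x) k -
      ((ymf X Y m : ℝ) - Y) / x.factorial * Gf x R c| ≤ 2 ^ (Pyf x).card * ∑ e ∈ Icc 1 R, ss c e := by
    intro m hm
    exact eqd R x.factorial Y (ymf X Y m) c (Pyf x) (fun p hp => Pyf_prime hp) (Nat.factorial_pos _)
      (fun d hd => dvdfac x d (mem_Icc.2 ⟨(mem_Icc.1 hd).1, (mem_Icc.1 hd).2.trans hRx⟩))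
      (fun p hp => dvdfac x p (mem_Icc.2 ⟨(Pyf_prime hp).one_lt.le, (mem_PQ.1 (mem_filter.1 hp).1).2⟩)) (ymf_ge X Y m hY0 hm)
  refine (sum_le_sum h3).trans ?_
  rw [sum_const, Nat.card_Icc, Nat.add_sub_cancel, nsmul_eq_mul]

lemma loc (x k : ℕ) (δ : ℝ) (hL : 16 ≤ Real.log x) (hk0 : 0 < k) (hkx : k ≤ 2 * x)
    (hm2 : ∀ q : ℕ, 0 < q → Real.log q ≤ 2 * Real.log x → (q : ℝ) / (Nat.totient q : ℝ) ≤
      (1 + δ) * gq (q.primeFactors.filter (fun p : ℕ => (p : ℝ) ≤ Real.log x / 8)) q) :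
    gq (Pyf x) k ≤ (k : ℝ) / (Nat.totient k : ℝ) ∧ (k : ℝ) / (Nat.totient k : ℝ) ≤ (1 + δ) * gq (Pyf x) k := by
  have hx0 : (0 : ℝ) < x := by
    by_contra h
    have h1 : (x : ℝ) = 0 := le_antisymm (not_lt.1 h) (Nat.cast_nonneg _)
    rw [h1, Real.log_zero] at hL
    linarith
  have hLx : Real.log x ≤ x := by
    have := Real.log_le_sub_one_of_pos hx0
    linarith
  have hFP : gq (k.primeFactors.filter (fun p : ℕ => (p : ℝ) ≤ Real.log x / 8)) k = gq (Pyf x) k := by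
    have h1 : k.primeFactors.filter (fun p : ℕ => (p : ℝ) ≤ Real.log x / 8) = (Pyf x).filter (fun p => p ∣ k) := by
      ext p
      rw [mem_filter, mem_filter]
      unfold Pyf
      rw [mem_filter, mem_PQ, Nat.mem_primeFactors]
      constructor
      · rintro ⟨⟨h2, h3, _⟩, h4⟩
        refine ⟨⟨⟨h2, ?_⟩, h4⟩, h3⟩
        have h5 : (p : ℝ) ≤ x := by linarith
        exact_mod_cast h5
      · rintro ⟨⟨⟨h2, _⟩, h4⟩, h3⟩
        exact ⟨⟨h2, h3, hk0.ne'⟩, h4⟩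
    rw [h1]
    unfold gq
    rw [prod_filter]
    apply prod_congr rfl
    intro p _
    split_ifs <;> rfl
  have hlogk : Real.log k ≤ 2 * Real.log x := by
    have hx2 : (2 : ℝ) ≤ x := by linarith
    have h1 : (k : ℝ) ≤ (x : ℝ) ^ 2 := by
      have h2 : (k : ℝ) ≤ 2 * x := by exact_mod_cast hkx
      nlinarith
    have h2 := Real.log_le_log (by exact_mod_cast hk0) h1
    rw [Real.log_pow] at h2
    exact_mod_cast h2
  have h1 := hm2 k hk0 hlogk
  rw [hFP] at h1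
  refine ⟨?_, h1⟩
  have hkp : ∀ p ∈ k.primeFactors, p.Prime := fun p hp => Nat.prime_of_mem_primeFactors hp
  have h2 : (k : ℝ) / (Nat.totient k : ℝ) = gq k.primeFactors k := by
    have h2 := V_tot hk0
    have h3 : V k.primeFactors * gq k.primeFactors k = 1 := by
      unfold V gq
      rw [← prod_mul_distrib]
      apply prod_eq_one
      intro p hp
      rw [if_pos (Nat.dvd_of_mem_primeFactors hp), mul_inv_cancel₀ (fac_pos (hkp p hp)).ne']
    have h4 : (k : ℝ) ≠ 0 := by exact_mod_cast hk0.ne'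
    have h5 : (Nat.totient k : ℝ) ≠ 0 := by exact_mod_cast (Nat.totient_pos.2 hk0).ne'
    rw [h2] at h3
    field_simp at h3
    rw [div_eq_iff h5]
    linarith
  rw [h2, ← hFP]
  exact gq_mono (filter_subset _ _) hkp k

/-- the expected number -/
noncomputable def Tf (x Y R : ℕ) (c : ℕ → ℕ → ℝ) : ℝ :=
  ∑ k ∈ Ioc Y (2 * Y), wt R c k * (x / Real.log x / (Nat.totient k : ℝ))

lemma T_cmp (x X Y R : ℕ) (c : ℕ → ℕ → ℝ) (δ : ℝ) (hδ0 : 0 < δ) (hL0 : 0 < Real.log x) (hw : ∀ q, 0 ≤ wt R c q)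
    (hloc : ∀ k ∈ Ioc Y (2 * Y), gq (Pyf x) k ≤ (k : ℝ) / (Nat.totient k : ℝ) ∧
      (k : ℝ) / (Nat.totient k : ℝ) ≤ (1 + δ) * gq (Pyf x) k)
    (hMk : ∀ k ∈ Ioc Y (2 * Y), (x : ℝ) / k ≤ (1 + δ) * (X / k : ℕ) ∧ ((X / k : ℕ) : ℝ) ≤ x / k) :
    AMf x X Y R c ≤ Tf x Y R c * Real.log x ∧ Tf x Y R c * Real.log x ≤ (1 + δ) ^ 2 * AMf x X Y R c := by
  unfold AMf Tf
  have h1 : ∀ k ∈ Ioc Y (2 * Y), wt R c k * (x / Real.log x / (Nat.totient k : ℝ)) * Real.log x =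
      wt R c k * ((k : ℝ) / (Nat.totient k : ℝ) * (x / k)) := by
    intro k hk
    have hk' := mem_Ioc.1 hk
    have hkr : (0 : ℝ) < k := by exact_mod_cast (by omega : 0 < k)
    have hφ : (0 : ℝ) < Nat.totient k := by exact_mod_cast Nat.totient_pos.2 (by omega)
    field_simp
  constructor
  · rw [sum_mul]
    apply sum_le_sum
    intro k hk
    have hk' := mem_Ioc.1 hk
    have hkr : (0 : ℝ) < k := by exact_mod_cast (by omega : 0 < k)
    rw [h1 k hk, mul_assoc]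
    apply mul_le_mul_of_nonneg_left _ (hw k)
    exact mul_le_mul (hloc k hk).1 (hMk k hk).2 (Nat.cast_nonneg _) (by positivity)
  · rw [sum_mul, mul_sum]
    apply sum_le_sum
    intro k hk
    have hk' := mem_Ioc.1 hk
    have hkr : (0 : ℝ) < k := by exact_mod_cast (by omega : 0 < k)
    rw [h1 k hk]
    have h2 : (1 + δ) ^ 2 * (wt R c k * gq (Pyf x) k * ((X / k : ℕ) : ℝ)) =
        wt R c k * (((1 + δ) * gq (Pyf x) k) * ((1 + δ) * ((X / k : ℕ) : ℝ))) := by ring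
    rw [h2]
    apply mul_le_mul_of_nonneg_left _ (hw k)
    have h3 := le_trans zero_le_one (gq_ge_one (fun p hp => Pyf_prime hp) k : 1 ≤ gq (Pyf x) k)
    exact mul_le_mul (hloc k hk).2 (hMk k hk).1 (by positivity) (by positivity)

lemma T_mass (x Y R K : ℕ) (c : ℕ → ℕ → ℝ) (hL0 : 0 < Real.log x) (hY0 : 0 < Y) (hw : ∀ q, 0 ≤ wt R c q)
    (hmass : (Y : ℝ) ≤ Real.log x ^ K * ∑ q ∈ Ioc Y (2 * Y), wt R c q) :
    0 ≤ Tf x Y R c ∧ (x : ℝ) ≤ 2 * Real.log x ^ (K + 1) * Tf x Y R c := by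
  have hYpos : (0 : ℝ) < Y := by exact_mod_cast hY0
  unfold Tf
  constructor
  · apply sum_nonneg
    intro k _
    have := hw k
    positivity
  set L := Real.log (x : ℝ) with hLd
  set T : ℝ := ∑ k ∈ Ioc Y (2 * Y), wt R c k * (x / L / (Nat.totient k : ℝ)) with hT
  have h1 : (∑ k ∈ Ioc Y (2 * Y), wt R c k) * (x / L / (2 * Y)) ≤ T := by
    rw [hT, sum_mul]
    apply sum_le_sum
    intro k hk
    have hk' := mem_Ioc.1 hk
    apply mul_le_mul_of_nonneg_left _ (hw k)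
    have hφ : (0 : ℝ) < Nat.totient k := by exact_mod_cast Nat.totient_pos.2 (by omega)
    apply div_le_div_of_nonneg_left (by positivity) hφ
    have h2 : Nat.totient k ≤ 2 * Y := (Nat.totient_le k).trans hk'.2
    exact_mod_cast h2
  have h2 : (Y : ℝ) * (x / L / (2 * Y)) ≤ L ^ K * T := by
    calc (Y : ℝ) * (x / L / (2 * Y)) ≤ (L ^ K * ∑ k ∈ Ioc Y (2 * Y), wt R c k) * (x / L / (2 * Y)) :=
          mul_le_mul_of_nonneg_right hmass (by positivity)
      _ = L ^ K * ((∑ k ∈ Ioc Y (2 * Y), wt R c k) * (x / L / (2 * Y))) := by ring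
      _ ≤ _ := mul_le_mul_of_nonneg_left h1 (by positivity)
  have h3 : (Y : ℝ) * (x / L / (2 * Y)) = x / (2 * L) := by field_simp
  rw [h3, div_le_iff₀ (by positivity)] at h2
  calc (x : ℝ) ≤ L ^ K * T * (2 * L) := h2
    _ = _ := by ring

/-- the error terms -/
lemma errE (x R K E : ℕ) (c : ℕ → ℕ → ℝ) (M δ T : ℝ) (hx : 0 < x) (hL : 1 ≤ Real.log x) (hδ0 : 0 < δ) (hδL : 8 ≤ δ * Real.log x)
    (hR : 1 ≤ R) (hRx : (R : ℝ) ^ 2 * Real.log x ^ E ≤ x) (hc : ∑ d ∈ Icc 1 R, ss c d ^ 2 / d ≤ Real.log x ^ K)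
    (hM : M ≤ Real.log x ^ K) (hM0 : 0 ≤ M) (hT0 : 0 ≤ T) (hT : (x : ℝ) ≤ 2 * Real.log x ^ (K + 1) * T)
    (ev2 : (2 / δ) * Real.log x ^ (3 * K + 1) ≤ Real.exp (3 / 8 * Real.log x)) :
    M * (x / Real.log x ^ (2 * K + 2)) ≤ δ * T ∧
    M * (2 ^ (Pyf x).card * ∑ e ∈ Icc 1 R, ss c e) ≤ δ * (T * Real.log x) := by
  set L := Real.log (x : ℝ) with hLd
  have hxpos : (0 : ℝ) < x := by exact_mod_cast hx
  have hL0 : 0 < L := by linarith
  have hLK : (1 : ℝ) ≤ L ^ K := one_le_pow₀ hL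
  constructor
  · have h1 : M * (x / L ^ (2 * K + 2)) ≤ L ^ K * (x / L ^ (2 * K + 2)) := mul_le_mul_of_nonneg_right hM (by positivity)
    have h2 : L ^ K * (x / L ^ (2 * K + 2)) = x / L ^ (K + 2) := by
      have : (2 * K + 2) = K + (K + 2) := by ring
      rw [this, pow_add L K (K + 2)]
      field_simp
    rw [h2] at h1
    refine h1.trans ?_
    rw [div_le_iff₀ (by positivity)]
    have h3 : 2 * L ^ (K + 1) * T ≤ δ * T * L ^ (K + 2) := by
      have h4 : (L : ℝ) ^ (K + 2) = L * L ^ (K + 1) := by ring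
      rw [h4]
      have h5 : 2 * (L ^ (K + 1) * T) ≤ (δ * L) * (L ^ (K + 1) * T) :=
        mul_le_mul_of_nonneg_right (by linarith) (by positivity)
      linarith
    linarith
  · have hRr : (1 : ℝ) ≤ R := by exact_mod_cast hR
    have hss : ∑ d ∈ Icc 1 R, ss c d ≤ R * L ^ K := by
      have h1 : ∀ d ∈ Icc 1 R, ss c d ≤ (1 / 2) * (R * (ss c d ^ 2 / d)) + (1 / 2) := by
        intro d hd
        rw [mem_Icc] at hd
        have hd0 : (0 : ℝ) < d := by exact_mod_cast (by omega : 0 < d)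
        have hdQ : (d : ℝ) ≤ R := by exact_mod_cast hd.2
        have h2 : ss c d ^ 2 ≤ R * (ss c d ^ 2 / d) := by
          rw [mul_div_assoc', le_div_iff₀ hd0, mul_comm]
          exact mul_le_mul_of_nonneg_right hdQ (sq_nonneg _)
        nlinarith [sq_nonneg (ss c d - 1)]
      refine (sum_le_sum h1).trans ?_
      rw [sum_add_distrib, ← mul_sum, ← mul_sum, sum_const, Nat.card_Icc, Nat.add_sub_cancel, nsmul_eq_mul]
      have h3 := mul_le_mul_of_nonneg_left hc (show (0 : ℝ) ≤ R by linarith)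
      have h4 : (R : ℝ) ≤ R * L ^ K := le_mul_of_one_le_right (by linarith) hLK
      linarith
    have hcardPy : (2 : ℝ) ^ (Pyf x).card ≤ Real.exp (1 / 8 * L) := by
      have h1 : Pyf x ⊆ Icc 1 ⌊L / 8⌋₊ := by
        intro p hp
        rw [mem_Icc]
        exact ⟨(Pyf_prime hp).one_lt.le, Nat.le_floor (mem_filter.1 hp).2⟩
      have h2 : ((Pyf x).card : ℝ) ≤ L / 8 := by
        have h3 : (Pyf x).card ≤ ⌊L / 8⌋₊ := by simpa using card_le_card h1
        have h4 : (⌊L / 8⌋₊ : ℝ) ≤ L / 8 := Nat.floor_le (by positivity)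
        have h5 : ((Pyf x).card : ℝ) ≤ ⌊L / 8⌋₊ := by exact_mod_cast h3
        linarith
      have h3 : (2 : ℝ) ≤ Real.exp 1 := by have := Real.exp_one_gt_d9; linarith
      calc (2 : ℝ) ^ (Pyf x).card ≤ (Real.exp 1) ^ (Pyf x).card := pow_le_pow_left₀ (by norm_num) h3 _
        _ = Real.exp (Pyf x).card := by rw [← Real.exp_nat_mul, mul_one]
        _ ≤ _ := Real.exp_le_exp.2 (by linarith)
    have hRsq : (R : ℝ) ≤ Real.exp (1 / 2 * L) := by
      have h1 : (R : ℝ) ^ 2 ≤ x := by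
        have h2 : (1 : ℝ) ≤ L ^ E := one_le_pow₀ hL
        have h3 : (R : ℝ) ^ 2 ≤ (R : ℝ) ^ 2 * L ^ E := le_mul_of_one_le_right (by positivity) h2
        linarith
      have h2 : (x : ℝ) = Real.exp (1 / 2 * L) ^ 2 := by
        rw [← Real.exp_nat_mul]
        push_cast
        rw [show (2 : ℝ) * (1 / 2 * L) = L by ring, hLd, Real.exp_log hxpos]
      rw [h2] at h1
      exact (pow_le_pow_iff_left₀ (by linarith) (Real.exp_pos _).le (by norm_num)).1 h1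
    have h1 : M * (2 ^ (Pyf x).card * ∑ e ∈ Icc 1 R, ss c e) ≤
        L ^ K * (Real.exp (1 / 8 * L) * (Real.exp (1 / 2 * L) * L ^ K)) := by
      apply mul_le_mul hM _ (by
        apply mul_nonneg (by positivity) (sum_nonneg fun _ _ => ss_nonneg _ _)) (by positivity)
      apply mul_le_mul hcardPy _ (sum_nonneg fun _ _ => ss_nonneg _ _) (Real.exp_pos _).le
      exact hss.trans (mul_le_mul_of_nonneg_right hRsq (by positivity))
    have h2 : (2 / δ) * L ^ (3 * K + 1) * (L ^ K * (Real.exp (1 / 8 * L) * (Real.exp (1 / 2 * L) * L ^ K))) ≤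
        x * (L ^ (2 * K)) := by
      have h3 : (x : ℝ) = Real.exp (3 / 8 * L) * (Real.exp (1 / 8 * L) * Real.exp (1 / 2 * L)) := by
        rw [← Real.exp_add, ← Real.exp_add, show (3 / 8 * L + (1 / 8 * L + 1 / 2 * L) : ℝ) = L by ring, hLd,
          Real.exp_log hxpos]
      have h4 := mul_le_mul_of_nonneg_right ev2
        (show 0 ≤ Real.exp (1 / 8 * L) * Real.exp (1 / 2 * L) * L ^ (2 * K) by positivity)
      calc (2 / δ) * L ^ (3 * K + 1) * (L ^ K * (Real.exp (1 / 8 * L) * (Real.exp (1 / 2 * L) * L ^ K))) =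
          (2 / δ) * L ^ (3 * K + 1) * (Real.exp (1 / 8 * L) * Real.exp (1 / 2 * L) * L ^ (2 * K)) := by ring
        _ ≤ Real.exp (3 / 8 * L) * (Real.exp (1 / 8 * L) * Real.exp (1 / 2 * L) * L ^ (2 * K)) := h4
        _ = _ := by rw [h3]; ring
    generalize L ^ K * (Real.exp (1 / 8 * L) * (Real.exp (1 / 2 * L) * L ^ K)) = Q0 at h1 h2
    have h3 : (2 / δ) * L ^ (K + 1) * Q0 ≤ x := by
      have h4 : (2 / δ) * L ^ (3 * K + 1) * Q0 = ((2 / δ) * L ^ (K + 1) * Q0) * L ^ (2 * K) := by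
        have : (3 * K + 1) = (K + 1) + 2 * K := by ring
        rw [this, pow_add L (K + 1) (2 * K)]
        ring
      rw [h4] at h2
      exact le_of_mul_le_mul_right h2 (by positivity)
    have h4 : (2 / δ) * L ^ (K + 1) * Q0 ≤ 2 * L ^ (K + 1) * T := h3.trans hT
    have h5 : (2 / δ) * L ^ (K + 1) * Q0 = 2 * L ^ (K + 1) * (Q0 / δ) := by ring
    rw [h5] at h4
    have h6 : Q0 / δ ≤ T := le_of_mul_le_mul_left h4 (by positivity)
    rw [div_le_iff₀ hδ0] at h6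
    refine h1.trans (h6.trans ?_)
    have h7 : T ≤ T * L := le_mul_of_one_le_right hT0 hL
    have h8 := mul_le_mul_of_nonneg_left h7 hδ0.le
    linarith

/-- the final arithmetic -/
lemma arith (S A1 A2Y Z0 AM T L δ η E1 E2 : ℝ) (hδ0 : 0 < δ) (hδ1 : δ ≤ 1 / 2) (hη : η = δ / 60) (hL : 1 ≤ L)
    (hZ0 : 0 ≤ Z0) (hT0 : 0 ≤ T) (hE1 : E1 ≤ δ * T) (hE2 : E2 ≤ δ * (T * L))
    (hA1l : (1 - δ) * Z0 ≤ A1) (hA1u : A1 ≤ (1 + 3 * δ) * Z0) (hA2 : A2Y ≤ 12 * Z0)
    (hS : |S - A1 / L| ≤ E1 + 5 * η * A2Y / L) (hAM : |AM - Z0| ≤ E2) (hTl : AM ≤ T * L) (hTu : T * L ≤ (1 + δ) ^ 2 * AM) :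
    |S - T| ≤ 13 * δ * T := by
  have hL0 : 0 < L := by linarith
  have hAM' := abs_le.1 hAM
  obtain ⟨Z, hZ⟩ : ∃ Z, Z = Z0 / L := ⟨_, rfl⟩
  have hZ0' : 0 ≤ Z := by rw [hZ]; positivity
  have hZL : Z * L = Z0 := by rw [hZ]; field_simp
  have hZup : Z ≤ (1 + δ) * T := by
    have h1 : Z * L ≤ ((1 + δ) * T) * L := by
      rw [hZL]
      have : Z0 ≤ AM + E2 := by linarith
      linarith
    exact le_of_mul_le_mul_right h1 hL0
  have hZlow : (1 - 4 * δ) * T ≤ Z := by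
    have h1 : ((1 - 4 * δ) * T) * L ≤ Z * L := by
      rw [hZL]
      have h2 : AM ≤ Z0 + δ * (T * L) := by linarith
      have h3 : (1 + δ) ^ 2 * AM ≤ (1 + δ) ^ 2 * (Z0 + δ * (T * L)) := mul_le_mul_of_nonneg_left h2 (by positivity)
      have h4 : T * L ≤ (1 + δ) ^ 2 * (Z0 + δ * (T * L)) := hTu.trans h3
      have hTL : 0 ≤ T * L := by positivity
      have h5 : (1 + δ) ^ 2 * (1 - 3 * δ) ≤ 1 := by nlinarith [sq_nonneg δ, mul_nonneg hδ0.le (sq_nonneg δ)]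
      by_contra h6
      push Not at h6
      have h7 : Z0 + δ * (T * L) < (1 - 3 * δ) * (T * L) := by linarith
      have h8 : (1 + δ) ^ 2 * (Z0 + δ * (T * L)) < (1 + δ) ^ 2 * ((1 - 3 * δ) * (T * L)) :=
        mul_lt_mul_of_pos_left h7 (by positivity)
      have h9 : (1 + δ) ^ 2 * ((1 - 3 * δ) * (T * L)) ≤ 1 * (T * L) := by
        rw [← mul_assoc]
        exact mul_le_mul_of_nonneg_right h5 hTL
      linarith
    exact le_of_mul_le_mul_right h1 hL0
  have hSZ : |S - Z| ≤ 4 * δ * Z + δ * T := by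
    have h1 : |A1 / L - Z| ≤ 3 * δ * Z := by
      have h2 : A1 / L - Z = (A1 - Z0) / L := by rw [hZ]; ring
      have h3 : 3 * δ * Z = 3 * δ * Z0 / L := by rw [hZ]; ring
      rw [h2, h3, abs_div, abs_of_pos hL0, div_le_div_iff_of_pos_right hL0, abs_le]
      constructor
      · nlinarith
      · linarith
    have h2 : 5 * η * A2Y / L ≤ δ * Z := by
      have h3 : δ * Z = δ * Z0 / L := by rw [hZ]; ring
      rw [h3, div_le_div_iff_of_pos_right hL0, hη]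
      have h3 := mul_le_mul_of_nonneg_left hA2 (show 0 ≤ 5 * (δ / 60) by positivity)
      linarith
    have h3 : |S - Z| ≤ |S - A1 / L| + |A1 / L - Z| := abs_sub_le _ _ _
    linarith
  have hfin : |S - T| ≤ |S - Z| + |Z - T| := abs_sub_le _ _ _
  have hZT : |Z - T| ≤ 4 * δ * T := by
    rw [abs_le]
    constructor
    · linarith
    · have : 0 ≤ δ * T := by positivity
      linarith
  have h1 : 4 * δ * Z ≤ 8 * δ * T := by
    have h2 : Z ≤ 2 * T := by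
      have : δ * T ≤ 1 * T := mul_le_mul_of_nonneg_right (by linarith) hT0
      linarith
    have := mul_le_mul_of_nonneg_left h2 (show 0 ≤ 4 * δ by positivity)
    linarith
  linarith

end Pool.Agent.Y829.EH
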