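import Pool.Agent.Y829.EH12

/-! The weighted number of primes in progressions to large moduli: the theorem. -/

set_option autoImplicit false

namespace Pool.Agent.Y829.EH

open Finset Filter Topology H343E Pool.Agent.TH423.SH.PSUa Pool.Agent.Y829 Pool.Agent.Y829.RP

lemma evE2 (K : ℕ) (δ : ℝ) (hδ0 : 0 < δ) :
    ∀ᶠ x : ℕ in atTop, (2 / δ) * Real.log x ^ (3 * K + 1) ≤ Real.exp (3 / 8 * Real.log x) := by
  have h1 := (isLittleO_pow_exp_pos_mul_atTop (k := 3 * K + 1) (show (0 : ℝ) < 3 / 8 by norm_num)).def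
    (show (0 : ℝ) < 1 / (2 / δ) by positivity)
  have h2 := log_tend.eventually h1
  filter_upwards [h2, log_tend.eventually_ge_atTop 1] with x hx hx1
  rw [Real.norm_eq_abs, Real.norm_eq_abs, abs_of_pos (Real.exp_pos _), abs_of_nonneg (by positivity)] at hx
  have h3 := mul_le_mul_of_nonneg_left hx (show (0 : ℝ) ≤ 2 / δ by positivity)
  refine h3.trans (le_of_eq ?_)
  field_simp

lemma evE3 (K : ℕ) : ∀ᶠ x : ℕ in atTop, Real.log x ^ (2 * K + 2) ≤ x := by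
  have h2 := (Real.isLittleO_pow_log_id_atTop (n := 2 * K + 2)).def (show (0 : ℝ) < 1 by norm_num)
  have h3 := tendsto_natCast_atTop_atTop.eventually h2
  filter_upwards [h3, eventually_gt_atTop 1] with x hx hx1
  have hx0 : (1 : ℝ) < x := by exact_mod_cast hx1
  have hl : 0 < Real.log x := Real.log_pos hx0
  rw [Real.norm_eq_abs, Real.norm_eq_abs, abs_of_nonneg (by positivity)] at hx
  simp only [id] at hx
  rw [abs_of_pos (by linarith : (0 : ℝ) < x), one_mul] at hx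
  exact hx

theorem core : ∃ C : ℕ, 1 ≤ C ∧ ∀ b : ℕ, C ≤ b → ∀ K : ℕ, ∃ B x0 : ℕ, ∀ x : ℕ, x0 ≤ x → ∀ Y R l : ℕ,
    (Y : ℝ) * Real.log x ^ (2 * C * b) ≤ x → (x : ℝ) ≤ Y * Real.log x ^ K → 1 ≤ R →
    (R : ℝ) ^ 2 * Real.log x ^ B ≤ x → 0 < l → (l : ℝ) ≤ Real.log x →
    ∀ c : ℕ → ℕ → ℝ, (∀ q, 0 ≤ wt R c q) → ∑ d ∈ Icc 1 R, ss c d ^ 2 / d ≤ Real.log x ^ K →
    (∀ p, p.Prime → p ∣ l → ∀ q, p ∣ q → wt R c q = 0) →
    (Y : ℝ) ≤ Real.log x ^ K * ∑ q ∈ Ioc Y (2 * Y), wt R c q →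
    |∑ k ∈ Ioc Y (2 * Y), wt R c k * Fp (x - l) l k - Tf x Y R c| ≤ 13 * (1 / 2 : ℝ) ^ b * Tf x Y R c := by
  classical
  obtain ⟨C, hC, hwin⟩ := winmodel
  refine ⟨C, hC, ?_⟩
  intro b hb K
  obtain ⟨U1, x1, hU12, hwin1⟩ := hwin b hb
  obtain ⟨δ, hδ⟩ : ∃ δ : ℝ, δ = (1 / 2 : ℝ) ^ b := ⟨_, rfl⟩
  rw [← hδ] at hwin1
  have hb1 : 1 ≤ b := hC.trans hb
  have hδ0 : 0 < δ := by rw [hδ]; positivity
  have hδ1 : δ ≤ 1 / 2 := by
    have : (1 / 2 : ℝ) ^ b ≤ (1 / 2 : ℝ) ^ 1 := pow_le_pow_of_le_one (by norm_num) (by norm_num) hb1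
    rw [pow_one] at this
    rw [hδ]
    exact this
  obtain ⟨L0, hL01, hm2⟩ := mod2 δ hδ0 (by linarith)
  obtain ⟨B1, x2, hbv⟩ := bvm K (2 * K + 2)
  have hη0 : 0 < δ / 60 := by positivity
  obtain ⟨x3, hpnt⟩ := pnt1 (δ / 60) hη0 (by linarith) K
  have E1 : ∀ᶠ x : ℕ in atTop, max (max L0 (U1 + 4)) (max (8 / δ + 8) 16) ≤ Real.log x := log_tend.eventually_ge_atTop _
  obtain ⟨x4, hx4⟩ := (E1.and ((evE2 K δ hδ0).and (evE3 K))).exists_forall_of_atTop
  refine ⟨B1 + 2 * K, max (max x1 x2) (max x3 (max x4 3)), ?_⟩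
  intro x hx Y R l hYx hxY hR hRx hl0 hlL c hw hc hwl hmass
  rw [← hδ]
  have hx1' : x1 ≤ x := (le_max_left _ _).trans ((le_max_left _ _).trans hx)
  have hx2' : x2 ≤ x := (le_max_right _ _).trans ((le_max_left _ _).trans hx)
  have hx3' : x3 ≤ x := (le_max_left _ _).trans ((le_max_right _ _).trans hx)
  have hx4' : x4 ≤ x := (le_max_left _ _).trans ((le_max_right _ _).trans ((le_max_right _ _).trans hx))
  have hx33 : 3 ≤ x := (le_max_right _ _).trans ((le_max_right _ _).trans ((le_max_right _ _).trans hx))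
  obtain ⟨ev1, ev2, ev3⟩ := hx4 x hx4'
  have hLL0 : L0 ≤ Real.log x := ((le_max_left _ _).trans (le_max_left _ _)).trans ev1
  have hLU1 : (U1 : ℝ) + 4 ≤ Real.log x := ((le_max_right _ _).trans (le_max_left _ _)).trans ev1
  have hLδ : 8 / δ + 8 ≤ Real.log x := ((le_max_left _ _).trans (le_max_right _ _)).trans ev1
  have hL16 : 16 ≤ Real.log x := ((le_max_right _ _).trans (le_max_right _ _)).trans ev1
  have hL0 : 0 < Real.log x := by linarith
  have hL1 : 1 ≤ Real.log x := by linarith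
  have hδL : 8 ≤ δ * Real.log x := by
    have h1 : 8 / δ ≤ Real.log x := by linarith
    rw [div_le_iff₀ hδ0] at h1
    linarith
  have hxpos : 0 < x := by omega
  obtain ⟨⟨hY0, hlY, hYxn⟩, hY2x⟩ := sz1 x Y l K (2 * C * b) hx33 hL16 hxY hYx ev3 hlL
  have hlx : l ≤ x := hlY.trans hYxn
  have hE : 1 ≤ 2 * C * b := Nat.mul_pos (Nat.mul_pos (by norm_num) hC) hb1
  have hMk := fun k hk => sz2 x Y l (2 * C * b) δ hδ0 hδL hL16 hE hYx hY0 hlY hlx k hk
  have hYpos : (0 : ℝ) < Y := by exact_mod_cast hY0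
  have hXr : ((x - l : ℕ) : ℝ) = x - l := by push_cast [Nat.cast_sub hlx]; ring
  have hl0r : (0 : ℝ) ≤ l := Nat.cast_nonneg _
  have hMYX : (((x - l) / Y : ℕ) : ℝ) * Y ≤ x - l := by
    have : (x - l) / Y * Y ≤ x - l := Nat.div_mul_le_self _ Y
    have h2 : (((x - l) / Y * Y : ℕ) : ℝ) ≤ ((x - l : ℕ) : ℝ) := by exact_mod_cast this
    rw [hXr] at h2
    push_cast at h2
    exact h2
  have hMK : (((x - l) / Y : ℕ) : ℝ) ≤ Real.log x ^ K := by
    have h2 : (((x - l) / Y : ℕ) : ℝ) * Y ≤ Real.log x ^ K * Y := by linarith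
    exact le_of_mul_le_mul_right h2 hYpos
  have hMxn : (x - l) / Y ≤ x := (Nat.div_le_self _ Y).trans (Nat.sub_le x l)
  have hRn : R ≤ x := by
    have h1 : (R : ℝ) ≤ x := by
      have h2 : (1 : ℝ) ≤ Real.log x ^ (B1 + 2 * K) := one_le_pow₀ hL1
      have h3 : (1 : ℝ) ≤ R := by exact_mod_cast hR
      have h4 : (R : ℝ) ^ 2 ≤ (R : ℝ) ^ 2 * Real.log x ^ (B1 + 2 * K) := le_mul_of_one_le_right (by positivity) h2
      have h5 : (R : ℝ) ≤ (R : ℝ) ^ 2 := by nlinarith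
      linarith
    exact_mod_cast h1
  have h2Y : 2 * Y ∈ Ioc Y (2 * Y) := by rw [mem_Ioc]; omega
  have hSMlow : (Y : ℝ) * (((x - l) / Y : ℕ) : ℝ) ≤ 3 * SMf (x - l) Y := by
    have h1 : ∑ k ∈ Ioc Y (2 * Y), (((x - l) / Y : ℕ) : ℝ) ≤ ∑ k ∈ Ioc Y (2 * Y), 3 * (((x - l) / k : ℕ) : ℝ) :=
      sum_le_sum fun k hk => (hMk k hk).2.1
    rw [sum_const, Nat.card_Ioc, nsmul_eq_mul, ← mul_sum] at h1
    have h2 : ((2 * Y - Y : ℕ) : ℝ) = Y := by
      have : 2 * Y - Y = Y := by omega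
      rw [this]
    rw [h2] at h1
    exact h1
  have hwinU : ∀ U : ℕ, (U = (x - l) / Y ∨ ∃ k ∈ Ioc Y (2 * Y), U = (x - l) / k) →
      (1 - δ) * (U * V (PQ x) * Gf x R c) ≤ ∑ q ∈ range x.factorial, wt R c q * SE l (PQ x) U q ∧
      ∑ q ∈ range x.factorial, wt R c q * SE l (PQ x) U q ≤ (1 + 3 * δ) * (U * V (PQ x) * Gf x R c) := by
    intro U hU
    have h1 : Real.log x ^ (2 * C * b) / 4 ≤ U := by
      rcases hU with h | ⟨k, hk, h⟩
      · rw [h]
        refine (hMk (2 * Y) h2Y).1.trans ?_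
        exact_mod_cast Nat.div_le_div_left (by omega) hY0
      · rw [h]
        exact (hMk k hk).1
    obtain ⟨h2, h3⟩ := powU (Real.log x) C b U1 U hC hb1 hL16 hLU1 h1
    exact hwin1 x hx1' U h2 h3 R l hR hRn hl0 hlL (wt R c) hw (wt_lev R c) hwl
  obtain ⟨hA1l, hA1u, hA2⟩ := A_bd x (x - l) Y R l c δ hδ0 hδ1 hRn hMxn hY0 hw hwinU hSMlow
  have hG0 : 0 ≤ Gf x R c := sum_nonneg fun q _ =>
    mul_nonneg (hw q) (le_trans zero_le_one (gq_ge_one (fun p hp => Pyf_prime hp) q))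
  have hSM0 : 0 ≤ SMf (x - l) Y := sum_nonneg fun k _ => Nat.cast_nonneg _
  have hZ0 : 0 ≤ Gf x R c / x.factorial * SMf (x - l) Y := by positivity
  -- the primes
  have hstep := stepA x Y R l K c (δ / 60) hY0 (fun m hm => by
    have hm' := mem_Icc.1 hm
    have hmr : (1 : ℝ) ≤ m := by exact_mod_cast hm'.1
    have hmK : (m : ℝ) ≤ Real.log x ^ K := le_trans (by exact_mod_cast hm'.2) hMK
    have hYm : Y * m ≤ x - l := by
      have h3 : Y * m ≤ Y * ((x - l) / Y) := Nat.mul_le_mul_left Y hm'.2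
      have h4 : Y * ((x - l) / Y) ≤ x - l := by rw [mul_comm]; exact Nat.div_mul_le_self _ Y
      exact h3.trans h4
    have hymX : ymf (x - l) Y m * m ≤ x - l :=
      (Nat.mul_le_mul_right m (min_le_right _ _)).trans (Nat.div_mul_le_self _ m)
    have hymY := ymf_ge (x - l) Y m hY0 hm
    have hym2 : ymf (x - l) Y m ≤ 2 * Y := min_le_left _ _
    have hYYm : Y ≤ Y * m := Nat.le_mul_of_pos_right Y hm'.1
    have hYYm' : Y ≤ ymf (x - l) Y m * m := hymY.trans (Nat.le_mul_of_pos_right _ hm'.1)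
    have hbv1 := hbv x hx2' Y R m l (ymf (x - l) Y m) hR hm'.1 (by
      have h3 : (x : ℝ) ≤ ((l + Y * m : ℕ) : ℝ) ^ 2 := by
        refine hY2x.trans ?_
        apply pow_le_pow_left₀ hYpos.le
        exact_mod_cast (by omega : Y ≤ l + Y * m)
      exact_mod_cast h3) (by omega) hymY hym2 (by
      have h3 : (R : ℝ) ^ 2 * Real.log x ^ (B1 + 2 * K) ≤ Y * Real.log x ^ K := hRx.trans hxY
      have h4 : (R : ℝ) ^ 2 * Real.log x ^ (B1 + 2 * K) = (R : ℝ) ^ 2 * Real.log x ^ K * Real.log x ^ B1 * Real.log x ^ K := by ring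
      rw [h4] at h3
      have h5 : (R : ℝ) ^ 2 * Real.log x ^ K * Real.log x ^ B1 ≤ Y := le_of_mul_le_mul_right h3 (by positivity)
      refine le_trans ?_ h5
      apply mul_le_mul_of_nonneg_right _ (by positivity)
      exact mul_le_mul_of_nonneg_left hmK (by positivity)) c hc
    have hn1 := hpnt x hx3' (l + ymf (x - l) Y m * m) (by
      refine hxY.trans ?_
      apply mul_le_mul_of_nonneg_right _ (by positivity)
      exact_mod_cast (by omega : Y ≤ l + ymf (x - l) Y m * m)) (by omega)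
    have hn2 := hpnt x hx3' (l + Y * m) (by
      refine hxY.trans ?_
      apply mul_le_mul_of_nonneg_right _ (by positivity)
      exact_mod_cast (by omega : Y ≤ l + Y * m)) (by omega)
    have hGm1 : 0 ≤ Gm R c l m := by
      have h1 := Gm_nonneg x (x - l) Y R l m c hRn hMxn hw hm
      exact nonneg_of_mul_nonneg_right h1 (by linarith)
    exact stepm x Y R l m K c (δ / 60) hη0 hL0 hY0 hlY hlx hm hGm1 hbv1 hn1 hn2)
  -- the target
  obtain ⟨hT0, hTm⟩ := T_mass x Y R K c hL0 hY0 hw hmass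
  obtain ⟨-, hm2b⟩ := hm2 (Real.log x) hLL0
  obtain ⟨hTl, hTu⟩ := T_cmp x (x - l) Y R c δ hδ0 hL0 hw (fun k hk => by
    have hk' := mem_Ioc.1 hk
    exact loc x k δ hL16 (by omega) (by omega) hm2b) (fun k hk => ⟨(hMk k hk).2.2.1, (hMk k hk).2.2.2⟩)
  obtain ⟨hE1, hE2⟩ := errE x R K (B1 + 2 * K) c (((x - l) / Y : ℕ) : ℝ) δ (Tf x Y R c) hxpos hL1 hδ0 hδL hR hRx hc hMK
    (Nat.cast_nonneg _) hT0 hTm ev2
  exact arith _ _ _ _ _ _ _ δ (δ / 60) _ _ hδ0 hδ1 rfl hL1 hZ0 hT0 hE1 hE2 hA1l hA1u hA2 hstep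
    (AMZ x (x - l) Y R c hY0 hRn) hTl hTu

/-! ### weights restricted to moduli prime to `l` -/

/-- the coefficients of the weight restricted to moduli prime to `l` -/
noncomputable def cl (l : ℕ) (c : ℕ → ℕ → ℝ) (k a : ℕ) : ℝ := by
  classical exact if l ∣ k ∧ a.Coprime l then c (k / l) (a % (k / l)) else 0

lemma wt_cl (R l : ℕ) (hl : 0 < l) (c : ℕ → ℕ → ℝ) (q : ℕ) :
    wt (R * l) (cl l c) q = if q.Coprime l then wt R c q else 0 := by
  classical
  unfold wt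
  rw [summult R l hl (fun k => cl l c k (q % k)) (fun k hk => by
    unfold cl
    rw [if_neg (fun h => hk h.1)])]
  have h1 : ∀ e ∈ Icc 1 R, cl l c (e * l) (q % (e * l)) = if q.Coprime l then c e (q % e) else 0 := by
    intro e he
    have he1 := (mem_Icc.1 he).1
    unfold cl
    have h2 : (q % (e * l)).Coprime l ↔ q.Coprime l := by
      unfold Nat.Coprime
      have h3 : Nat.gcd (q % (e * l)) l = Nat.gcd q l := by
        have h4 : q % (e * l) % l = q % l := Nat.mod_mul_left_mod q e l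
        rw [Nat.gcd_comm, Nat.gcd_rec, h4, ← Nat.gcd_rec, Nat.gcd_comm]
      rw [h3]
    rw [Nat.mul_div_cancel _ hl, Nat.mod_mul_right_mod]
    by_cases h3 : q.Coprime l
    · rw [if_pos ⟨Dvd.intro_left e rfl, h2.2 h3⟩, if_pos h3]
    · rw [if_neg (fun h => h3 (h2.1 h.2)), if_neg h3]
  rw [sum_congr rfl h1]
  split_ifs
  · rfl
  · simp

lemma ss_cl (l : ℕ) (hl : 0 < l) (c : ℕ → ℕ → ℝ) (e : ℕ) (he : 0 < e) : ss (cl l c) (e * l) ≤ l * ss c e := by
  classical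
  unfold ss
  rw [sum_split]
  have h1 : ∀ i ∈ range e, ∑ j ∈ range l, |cl l c (e * l) (i + e * j)| ≤ l * |c e i| := by
    intro i hi
    have h2 : ∀ j ∈ range l, |cl l c (e * l) (i + e * j)| ≤ |c e i| := by
      intro j _
      unfold cl
      rw [Nat.mul_div_cancel _ hl, Nat.add_mul_mod_self_left, Nat.mod_eq_of_lt (mem_range.1 hi)]
      split_ifs
      · exact le_rfl
      · rw [abs_zero]; exact abs_nonneg _
    refine (sum_le_sum h2).trans ?_
    rw [sum_const, card_range, nsmul_eq_mul]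
  refine (sum_le_sum h1).trans ?_
  rw [mul_sum]

lemma sum_ss_cl (R l : ℕ) (hl : 0 < l) (c : ℕ → ℕ → ℝ) :
    ∑ k ∈ Icc 1 (R * l), ss (cl l c) k ^ 2 / (k : ℝ) ≤ l * ∑ e ∈ Icc 1 R, ss c e ^ 2 / (e : ℝ) := by
  classical
  rw [summult R l hl (fun k => ss (cl l c) k ^ 2 / (k : ℝ)) (fun k hk => by
    have h1 : ss (cl l c) k = 0 := by
      unfold ss
      apply sum_eq_zero
      intro a _
      unfold cl
      rw [if_neg (fun h => hk h.1), abs_zero]
    show ss (cl l c) k ^ 2 / (k : ℝ) = 0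
    rw [h1]
    simp)]
  rw [mul_sum]
  apply sum_le_sum
  intro e he
  have he1 := (mem_Icc.1 he).1
  have her : (0 : ℝ) < e := by exact_mod_cast he1
  have hlr : (0 : ℝ) < l := by exact_mod_cast hl
  have h1 := ss_cl l hl c e he1
  have h2 := ss_nonneg (cl l c) (e * l)
  have h3 : ss (cl l c) (e * l) ^ 2 ≤ (l * ss c e) ^ 2 := pow_le_pow_left₀ h2 h1 2
  push_cast
  calc ss (cl l c) (e * l) ^ 2 / ((e : ℝ) * l) ≤ (l * ss c e) ^ 2 / ((e : ℝ) * l) :=
        div_le_div_of_nonneg_right h3 (by positivity)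
    _ = l * (ss c e ^ 2 / e) := by field_simp

end Pool.Agent.Y829.EH
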