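import Pool.Agent.Y829.EH13

/-! Sieve weighted moduli: the final form. -/

set_option autoImplicit false

namespace Pool.Agent.Y829.EH

open Finset Filter Topology Pool.Agent.Y829 Pool.Agent.Y829.RP

/-- the number of primes `p ≤ x`, `p ≡ l` mod `q` -/
noncomputable def piq (x q l : ℕ) : ℝ := (((Icc 1 x).filter (fun p => p.Prime ∧ p ≡ l [MOD q])).card : ℝ)

lemma piq_Fp (x q l : ℕ) (hl : 0 < l) (hlq : l < q) (hlx : l ≤ x) :
    Fp (x - l) l q ≤ piq x q l ∧ piq x q l ≤ Fp (x - l) l q + 1 := by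
  classical
  have hq : 0 < q := by omega
  have hF : Fp (x - l) l q = (((Icc 1 ((x - l) / q)).filter (fun m => (l + q * m).Prime)).card : ℝ) := by
    unfold Fp
    rw [card_filter]
    push_cast
    rfl
  set I := ((Icc 1 ((x - l) / q)).filter (fun m => (l + q * m).Prime)).image (fun m => l + q * m) with hI
  have hcI : I.card = ((Icc 1 ((x - l) / q)).filter (fun m => (l + q * m).Prime)).card := by
    rw [hI, card_image_of_injective]
    intro a b hab
    dsimp only at hab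
    have : q * a = q * b := by omega
    exact Nat.eq_of_mul_eq_mul_left hq this
  have h1 : I ⊆ (Icc 1 x).filter (fun p => p.Prime ∧ p ≡ l [MOD q]) := by
    intro p hp
    rw [hI, mem_image] at hp
    obtain ⟨m, hm, rfl⟩ := hp
    rw [mem_filter, mem_Icc] at hm
    rw [mem_filter, mem_Icc]
    have h2 : m * q ≤ x - l := (Nat.le_div_iff_mul_le hq).1 hm.1.2
    have h3 : q * m = m * q := mul_comm _ _
    refine ⟨⟨by omega, by omega⟩, hm.2, ?_⟩
    show (l + q * m) % q = l % q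
    rw [Nat.add_mul_mod_self_left]
  have h2 : (Icc 1 x).filter (fun p => p.Prime ∧ p ≡ l [MOD q]) ⊆ insert l I := by
    intro p hp
    rw [mem_filter, mem_Icc] at hp
    obtain ⟨⟨hp1, hp2⟩, hpp, hpl⟩ := hp
    rw [mem_insert]
    have hlp : l ≤ p := by
      by_contra h
      push Not at h
      have h3 : p % q = l % q := hpl
      rw [Nat.mod_eq_of_lt (by omega), Nat.mod_eq_of_lt hlq] at h3
      omega
    obtain ⟨m, hm⟩ := (Nat.modEq_iff_dvd' hlp).1 hpl.symm
    rcases Nat.eq_zero_or_pos m with h0 | h0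
    · left
      rw [h0, mul_zero] at hm
      omega
    · right
      rw [hI, mem_image]
      have hpe : l + q * m = p := by omega
      refine ⟨m, ?_, hpe⟩
      rw [mem_filter, mem_Icc, hpe]
      refine ⟨⟨h0, ?_⟩, hpp⟩
      rw [Nat.le_div_iff_mul_le hq, mul_comm]
      omega
  have h3 := card_le_card h1
  have h4 := (card_le_card h2).trans (card_insert_le l I)
  rw [hcI] at h3 h4
  rw [hF]
  unfold piq
  exact ⟨by exact_mod_cast h3, by exact_mod_cast h4⟩

theorem final : ∃ c₁ A1 : ℝ, 0 < c₁ ∧ ∀ A : ℝ, A1 ≤ A → ∀ K : ℕ, ∃ B x0 : ℕ, ∀ x Y R l : ℕ, x0 ≤ x →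
    (Y : ℝ) * Real.log x ^ A ≤ x → (x : ℝ) ≤ Y * Real.log x ^ K → 1 ≤ R →
    (R : ℝ) ^ 2 * Real.log x ^ B ≤ x → 0 < l → (l : ℝ) ≤ Real.log x →
    ∀ c : ℕ → ℕ → ℝ, (∀ q, 0 ≤ wt R c q) → ∑ d ∈ Icc 1 R, ss c d ^ 2 / d ≤ Real.log x ^ K →
    (Y : ℝ) ≤ Real.log x ^ K * ∑ q ∈ (Ioc Y (2 * Y)).filter (fun q => q.Coprime l), wt R c q →
    |∑ q ∈ (Ioc Y (2 * Y)).filter (fun q => q.Coprime l), wt R c q *
      (piq x q l - x / ((Nat.totient q : ℝ) * Real.log x))| ≤
      Real.exp (-(c₁ * A)) * ∑ q ∈ (Ioc Y (2 * Y)).filter (fun q => q.Coprime l), wt R c q *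
        (x / ((Nat.totient q : ℝ) * Real.log x)) := by
  classical
  obtain ⟨C, hC, hcore⟩ := core
  have hCr : (1 : ℝ) ≤ C := by exact_mod_cast hC
  have hl2 : 0 < Real.log 2 := Real.log_pos (by norm_num)
  refine ⟨Real.log 2 / (4 * C), 2 * C * (C + 1) + 20 * C + 4, by positivity, ?_⟩
  intro A hA K
  have hA0 : 0 < A := by nlinarith
  have hA2 : 2 ≤ A := by nlinarith
  obtain ⟨b, hb⟩ : ∃ b : ℕ, b = ⌊A / (2 * C)⌋₊ := ⟨_, rfl⟩
  have hbA : (b : ℝ) ≤ A / (2 * C) := by rw [hb]; exact Nat.floor_le (by positivity)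
  have hbA2 : A / (2 * C) < b + 1 := by rw [hb]; exact Nat.lt_floor_add_one _
  have hbC : C ≤ b := by
    rw [hb]
    apply Nat.le_floor
    rw [le_div_iff₀ (by linarith)]
    nlinarith
  obtain ⟨B, x0, hc0⟩ := hcore b hbC (K + 1)
  obtain ⟨δ, hδ⟩ : ∃ δ : ℝ, δ = (1 / 2 : ℝ) ^ b := ⟨_, rfl⟩
  have hδ0 : 0 < δ := by rw [hδ]; positivity
  obtain ⟨x1, hx1⟩ := (log_tend.eventually_ge_atTop (8 / δ + 8)).exists_forall_of_atTop
  obtain ⟨x2, hx2⟩ := (evE3 K).exists_forall_of_atTop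
  refine ⟨B + 2, max (max x0 x1) (max x2 3), ?_⟩
  intro x Y R l hx hYx hxY hR hRx hl0 hlL c hw hc hmass
  have hx0' : x0 ≤ x := (le_max_left _ _).trans ((le_max_left _ _).trans hx)
  have hL := hx1 x ((le_max_right _ _).trans ((le_max_left _ _).trans hx))
  have hx2' := hx2 x ((le_max_left _ _).trans ((le_max_right _ _).trans hx))
  have hx3 : 3 ≤ x := (le_max_right _ _).trans ((le_max_right _ _).trans hx)
  have hxr : (3 : ℝ) ≤ x := by exact_mod_cast hx3
  have hdiv : 0 < 8 / δ := by positivity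
  have hL8 : 8 ≤ Real.log x := by linarith
  have hL0 : 0 < Real.log x := by linarith
  have hL1 : 1 ≤ Real.log x := by linarith
  have hδ1 : δ ≤ 1 / 2 := by
    have hb1 : 1 ≤ b := hC.trans hbC
    have : (1 / 2 : ℝ) ^ b ≤ (1 / 2 : ℝ) ^ 1 := pow_le_pow_of_le_one (by norm_num) (by norm_num) hb1
    rw [pow_one] at this
    rw [hδ]
    exact this
  have hL16 : 16 ≤ Real.log x := by
    have h1 : 8 / (1 / 2 : ℝ) ≤ 8 / δ := div_le_div_of_nonneg_left (by norm_num) hδ0 hδ1
    norm_num at h1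
    linarith
  have hδL : 8 ≤ δ * Real.log x := by
    have h1 : 8 / δ ≤ Real.log x := by linarith
    rw [div_le_iff₀ hδ0] at h1
    linarith
  obtain ⟨L, hLd⟩ : ∃ L : ℝ, L = Real.log x := ⟨_, rfl⟩
  have hpowA : L ^ (2 * C * b) ≤ L ^ A := by
    rw [← Real.rpow_natCast]
    apply Real.rpow_le_rpow_of_exponent_le (by rw [hLd]; exact hL1)
    push_cast
    rw [le_div_iff₀ (by positivity)] at hbA
    linarith
  have hYx' : (Y : ℝ) * Real.log x ^ (2 * C * b) ≤ x := by
    rw [← hLd]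
    rw [← hLd] at hYx
    exact (mul_le_mul_of_nonneg_left hpowA (Nat.cast_nonneg _)).trans hYx
  have hLK : (1 : ℝ) ≤ Real.log x ^ K := one_le_pow₀ hL1
  obtain ⟨⟨hY0, hlY, hYxn⟩, -⟩ := sz1 x Y l K (2 * C * b) hx3 hL16 hxY hYx' hx2' hlL
  have hlx : l ≤ x := hlY.trans hYxn
  have hlr : (1 : ℝ) ≤ l := by exact_mod_cast hl0
  set F := (Ioc Y (2 * Y)).filter (fun q => q.Coprime l) with hF
  have hsum : ∀ G : ℕ → ℝ, ∑ q ∈ Ioc Y (2 * Y), wt (R * l) (cl l c) q * G q = ∑ q ∈ F, wt R c q * G q := by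
    intro G
    rw [hF, sum_filter]
    apply sum_congr rfl
    intro q _
    rw [wt_cl R l hl0 c q]
    split_ifs <;> simp
  have hsum1 : ∑ q ∈ Ioc Y (2 * Y), wt (R * l) (cl l c) q = ∑ q ∈ F, wt R c q := by
    have := hsum (fun _ => 1)
    simpa using this
  have h1 := hc0 x hx0' Y (R * l) l hYx' (by
    refine hxY.trans ?_
    apply mul_le_mul_of_nonneg_left _ (Nat.cast_nonneg _)
    exact pow_le_pow_right₀ hL1 (by omega)) (Nat.mul_pos hR hl0) (by
    push_cast
    calc ((R : ℝ) * l) ^ 2 * Real.log x ^ B = (R : ℝ) ^ 2 * Real.log x ^ B * ((l : ℝ) ^ 2) := by ring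
      _ ≤ (R : ℝ) ^ 2 * Real.log x ^ B * (Real.log x ^ 2) := by
          apply mul_le_mul_of_nonneg_left _ (by positivity)
          exact pow_le_pow_left₀ (by linarith) hlL 2
      _ = (R : ℝ) ^ 2 * Real.log x ^ (B + 2) := by ring
      _ ≤ x := hRx) hl0 hlL (cl l c) (by
    intro q
    rw [wt_cl R l hl0 c q]
    split_ifs
    · exact hw q
    · exact le_rfl) (by
    refine (sum_ss_cl R l hl0 c).trans ?_
    calc (l : ℝ) * ∑ e ∈ Icc 1 R, ss c e ^ 2 / (e : ℝ) ≤ Real.log x * Real.log x ^ K :=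
          mul_le_mul hlL hc (sum_nonneg fun e _ => by positivity) hL0.le
      _ = _ := by ring) (by
    intro p hp hpl q hpq
    rw [wt_cl R l hl0 c q, if_neg]
    intro h
    have := Nat.dvd_gcd hpq hpl
    rw [Nat.coprime_iff_gcd_eq_one.1 h] at this
    exact hp.one_lt.ne' (Nat.dvd_one.1 this)) (by
    rw [hsum1]
    refine hmass.trans ?_
    apply mul_le_mul_of_nonneg_right _ (sum_nonneg fun q _ => hw q)
    exact pow_le_pow_right₀ hL1 (by omega))
  have hT : Tf x Y (R * l) (cl l c) = ∑ q ∈ F, wt R c q * (x / ((Nat.totient q : ℝ) * Real.log x)) := by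
    unfold Tf
    rw [hsum]
    apply sum_congr rfl
    intro q _
    rw [div_div, mul_comm (Real.log (x : ℝ))]
  rw [hT, hsum, ← hδ] at h1
  obtain ⟨T, hTd⟩ : ∃ T : ℝ, T = ∑ q ∈ F, wt R c q * (x / ((Nat.totient q : ℝ) * Real.log x)) := ⟨_, rfl⟩
  rw [← hTd] at h1 ⊢
  have hYpos : (0 : ℝ) < Y := by exact_mod_cast hY0
  -- the prime `l`
  have h2 : |∑ q ∈ F, wt R c q * piq x q l - ∑ q ∈ F, wt R c q * Fp (x - l) l q| ≤ ∑ q ∈ F, wt R c q := by
    rw [← sum_sub_distrib]
    refine (abs_sum_le_sum_abs _ _).trans (sum_le_sum ?_)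
    intro q hq
    have hq' := mem_Ioc.1 (mem_filter.1 hq).1
    obtain ⟨h3, h4⟩ := piq_Fp x q l hl0 (by omega) hlx
    rw [← mul_sub, abs_mul, abs_of_nonneg (hw q)]
    calc wt R c q * |piq x q l - Fp (x - l) l q| ≤ wt R c q * 1 := by
          apply mul_le_mul_of_nonneg_left _ (hw q)
          rw [abs_le]
          constructor <;> linarith
      _ = _ := mul_one _
  have h3 : ∑ q ∈ F, wt R c q ≤ δ * T := by
    rw [hTd, mul_sum]
    apply sum_le_sum
    intro q hq
    have hq' := mem_Ioc.1 (mem_filter.1 hq).1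
    have hφ : (0 : ℝ) < Nat.totient q := by exact_mod_cast Nat.totient_pos.2 (by omega)
    have h4 : (Nat.totient q : ℝ) ≤ 2 * Y := by exact_mod_cast (Nat.totient_le q).trans hq'.2
    have h5 : 1 ≤ δ * (x / ((Nat.totient q : ℝ) * Real.log x)) := by
      have h6 : (Y : ℝ) * Real.log x ^ 2 ≤ x := by
        refine le_trans ?_ hYx
        apply mul_le_mul_of_nonneg_left _ hYpos.le
        rw [← Real.rpow_natCast]
        apply Real.rpow_le_rpow_of_exponent_le hL1
        push_cast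
        exact hA2
      rw [mul_div_assoc', le_div_iff₀ (by positivity), one_mul]
      have h7 : (Nat.totient q : ℝ) * Real.log x ≤ 2 * Y * Real.log x := mul_le_mul_of_nonneg_right h4 hL0.le
      have h8 : δ * ((Y : ℝ) * Real.log x ^ 2) ≤ δ * x := mul_le_mul_of_nonneg_left h6 hδ0.le
      have h9 : δ * ((Y : ℝ) * Real.log x ^ 2) = (δ * Real.log x) * (Y * Real.log x) := by ring
      rw [h9] at h8
      have h10 : 8 * (Y * Real.log x) ≤ (δ * Real.log x) * (Y * Real.log x) :=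
        mul_le_mul_of_nonneg_right hδL (by positivity)
      have h11 : 0 < Y * Real.log x := by positivity
      linarith
    calc wt R c q = wt R c q * 1 := (mul_one _).symm
      _ ≤ wt R c q * (δ * (x / ((Nat.totient q : ℝ) * Real.log x))) := mul_le_mul_of_nonneg_left h5 (hw q)
      _ = _ := by ring
  have hT0 : 0 ≤ T := by
    rw [hTd]
    apply sum_nonneg
    intro q _
    have := hw q
    positivity
  have h4 : ∑ q ∈ F, wt R c q * (piq x q l - x / ((Nat.totient q : ℝ) * Real.log x)) =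
      ∑ q ∈ F, wt R c q * piq x q l - T := by
    rw [hTd, ← sum_sub_distrib]
    apply sum_congr rfl
    intro q _
    ring
  rw [h4]
  have h5 : |∑ q ∈ F, wt R c q * piq x q l - T| ≤ 14 * δ * T := by
    have h6 := abs_sub_le (∑ q ∈ F, wt R c q * piq x q l) (∑ q ∈ F, wt R c q * Fp (x - l) l q) T
    linarith
  refine h5.trans ?_
  apply mul_le_mul_of_nonneg_right _ hT0
  have e1 : δ = Real.exp (-(b * Real.log 2)) := by
    rw [hδ, ← mul_neg, Real.exp_nat_mul, Real.exp_neg, Real.exp_log (by norm_num)]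
    norm_num
  have e2 : (14 : ℝ) ≤ Real.exp (4 * Real.log 2) := by
    have h6 : Real.exp (4 * Real.log 2) = 16 := by
      rw [show (4 : ℝ) * Real.log 2 = ((4 : ℕ) : ℝ) * Real.log 2 by norm_num, Real.exp_nat_mul, Real.exp_log (by norm_num)]
      norm_num
    rw [h6]
    norm_num
  calc 14 * δ ≤ Real.exp (4 * Real.log 2) * Real.exp (-(b * Real.log 2)) := by
        rw [← e1]
        exact mul_le_mul_of_nonneg_right e2 hδ0.le
    _ = Real.exp (4 * Real.log 2 + -(b * Real.log 2)) := by rw [Real.exp_add]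
    _ ≤ _ := by
        apply Real.exp_le_exp.2
        have h7 : (b : ℝ) ≥ A / (2 * C) - 1 := by linarith
        have h8 : 10 ≤ A / (2 * C) := by
          rw [le_div_iff₀ (by linarith)]
          nlinarith
        have e3 : Real.log 2 / (4 * C) * A = Real.log 2 * (A / (2 * C) / 2) := by
          field_simp
          ring
        rw [e3]
        nlinarith

end Pool.Agent.Y829.EH
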