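import Pool.Agent.Y829.EH1

/-! Concentration of the number of `m ≤ U` with `l + q m` free of primes, for random `q`. -/

set_option autoImplicit false

namespace Pool.Agent.Y829.EH

open Finset Filter Topology Pool.Agent.Y829

/-- the number of `m ≤ U` with `l + q m` free of the primes of `P` -/
noncomputable def SE (l : ℕ) (P : Finset ℕ) (U q : ℕ) : ℝ :=
  (((Icc 1 U).filter (fun m => ∀ p ∈ P, ¬ p ∣ l + q * m)).card : ℝ)

lemma SE_nonneg (l : ℕ) (P : Finset ℕ) (U q : ℕ) : 0 ≤ SE l P U q := Nat.cast_nonneg _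

lemma SE_le (l : ℕ) (P : Finset ℕ) (U q : ℕ) : SE l P U q ≤ U := by
  unfold SE
  have : ((Icc 1 U).filter (fun m => ∀ p ∈ P, ¬ p ∣ l + q * m)).card ≤ U :=
    (card_filter_le _ _).trans (by simp)
  exact_mod_cast this

/-- the correction factor of the primes dividing `q` -/
noncomputable def gq (P : Finset ℕ) (q : ℕ) : ℝ := ∏ p ∈ P, (if p ∣ q then (1 - 1 / (p : ℝ))⁻¹ else 1)

lemma gq_ge_one {P : Finset ℕ} (hP : ∀ p ∈ P, p.Prime) (q : ℕ) : 1 ≤ gq P q := by
  unfold gq
  have h1 : ∏ _p ∈ P, (1 : ℝ) ≤ ∏ p ∈ P, (if p ∣ q then (1 - 1 / (p : ℝ))⁻¹ else 1) := by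
    apply Finset.prod_le_prod
    · intro p _; norm_num
    · intro p hp
      split_ifs
      · exact (one_le_inv₀ (fac_pos (hP p hp))).2 fac_le_one
      · exact le_rfl
  simpa using h1

lemma gq_mono {P R : Finset ℕ} (hPR : P ⊆ R) (hR : ∀ p ∈ R, p.Prime) (q : ℕ) : gq P q ≤ gq R q := by
  classical
  have h1 : gq R q = gq (R \ P) q * gq P q := by
    unfold gq
    exact (prod_sdiff hPR).symm
  have h2 := gq_ge_one (P := R \ P) (fun p hp => hR p (sdiff_subset hp)) q
  have h3 := gq_ge_one (P := P) (fun p hp => hR p (hPR hp)) q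
  rw [h1]
  nlinarith

lemma cntM (p l q U : ℕ) (hp : p.Prime) (hl : p ∣ q → ¬ p ∣ l) :
    (((Icc 1 U).filter (fun m => p ∣ l + q * m)).card : ℝ) ≤ (U : ℝ) / p + 1 := by
  have hc : ((range p).filter (fun r => p ∣ l + q * r)).card ≤ 1 := by
    have h1 := root_m (m := q) hp (Nat.coprime_one_left p) hl 0
    have h2 : (range p).filter (fun i => p ∣ l + (0 + 1 * i) * q) = (range p).filter (fun r => p ∣ l + q * r) := by
      apply filter_congr
      intro r _
      have : l + (0 + 1 * r) * q = l + q * r := by ring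
      rw [this]
    rw [h2] at h1
    rw [h1]
    split_ifs <;> norm_num
  have h1 := cntO p 0 U hp.pos ((range p).filter (fun r => p ∣ l + q * r)) (filter_subset _ _) 1 hc
  have h2 : (Icc 1 U).filter (fun h => (0 + h) % p ∈ (range p).filter (fun r => p ∣ l + q * r)) =
      (Icc 1 U).filter (fun m => p ∣ l + q * m) := by
    apply filter_congr
    intro m _
    rw [mem_filter, mem_range, zero_add]
    have h3 : (p ∣ l + q * (m % p)) ↔ (p ∣ l + q * m) := by
      have h4 : l + q * m ≡ l + q * (m % p) [MOD p] := (Nat.ModEq.mul_left q (Nat.mod_modEq m p).symm).add_left l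
      rw [← Nat.modEq_zero_iff_dvd, ← Nat.modEq_zero_iff_dvd]
      exact ⟨fun h => h4.trans h, fun h => h4.symm.trans h⟩
    rw [h3]
    exact ⟨fun h => h.2, fun h => ⟨Nat.mod_lt _ hp.pos, h⟩⟩
  rw [h2] at h1
  push_cast at h1
  linarith

lemma gq_union {P R : Finset ℕ} [DecidableEq ℕ] (h : Disjoint P R) (q : ℕ) : gq (P ∪ R) q = gq P q * gq R q := by
  unfold gq
  rw [prod_union h]

lemma gq_congr {P : Finset ℕ} {q r : ℕ} (h : ∀ p ∈ P, (p ∣ q ↔ p ∣ r)) : gq P q = gq P r := by
  unfold gq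
  apply prod_congr rfl
  intro p hp
  by_cases h1 : p ∣ q
  · rw [if_pos h1, if_pos ((h p hp).1 h1)]
  · rw [if_neg h1, if_neg (fun h2 => h1 ((h p hp).2 h2))]

lemma kap_bounds {P : Finset ℕ} (hP : ∀ p ∈ P, p.Prime) (m : ℕ) (hm : 0 < m) (z : ℝ) (hz : 0 < z)
    (hPz : ∀ p ∈ P, z < p) : V P ≤ kap P m ∧ (1 - (Nat.log 2 m) / z) * kap P m ≤ V P := by
  classical
  have hk0 : ∀ p ∈ P, 0 ≤ 1 - om p m := fun p hp => by linarith [om_half (m := m) (hP p hp)]
  constructor
  · unfold V kap
    apply Finset.prod_le_prod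
    · intro p hp; exact (fac_pos (hP p hp)).le
    · intro p _
      linarith [om_le (p := p) (m := m)]
  · have h1 : V P = kap P m * ∏ p ∈ P.filter (fun p => p ∣ m), (1 - 1 / (p : ℝ)) := by
      unfold V kap
      rw [prod_filter, ← prod_mul_distrib]
      apply prod_congr rfl
      intro p _
      unfold om
      split_ifs <;> simp
    have h2 := weier (P.filter (fun p => p ∣ m)) (fun p => 1 / (p : ℝ)) (fun p hp => by
      have := fac_pos (hP p (mem_filter.1 hp).1)
      constructor
      · positivity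
      · linarith)
    have h3 : ∑ p ∈ P.filter (fun p => p ∣ m), 1 / (p : ℝ) ≤ (Nat.log 2 m) / z := by
      have h4 : ∀ p ∈ P.filter (fun p => p ∣ m), 1 / (p : ℝ) ≤ 1 / z := by
        intro p hp
        exact one_div_le_one_div_of_le hz (hPz p (mem_filter.1 hp).1).le
      refine (sum_le_sum h4).trans ?_
      rw [sum_const, nsmul_eq_mul, mul_one_div]
      apply div_le_div_of_nonneg_right _ hz.le
      have h5 : P.filter (fun p => p ∣ m) ⊆ m.primeFactors := by
        intro p hp
        rw [mem_filter] at hp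
        rw [Nat.mem_primeFactors]
        exact ⟨hP p hp.1, hp.2, hm.ne'⟩
      have h6 : 2 ^ m.primeFactors.card ≤ m := by
        have h7 : 2 ^ m.primeFactors.card ≤ ∏ p ∈ m.primeFactors, p :=
          pow_card_le_prod _ _ _ fun p hp => (Nat.prime_of_mem_primeFactors hp).two_le
        exact h7.trans (Nat.le_of_dvd hm (Nat.prod_primeFactors_dvd m))
      have h7 : m.primeFactors.card ≤ Nat.log 2 m := Nat.le_log_of_pow_le (by norm_num) h6
      exact_mod_cast (card_le_card h5).trans h7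
    rw [h1, mul_comm]
    apply mul_le_mul_of_nonneg_left _ (prod_nonneg hk0)
    linarith

end Pool.Agent.Y829.EH
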