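import Pool.Agent.Y829.EH2

/-! Concentration, for random `q`. -/

set_option autoImplicit false

namespace Pool.Agent.Y829.EH

open Finset Filter Topology Pool.Agent.Y829

/-- the expected number -/
noncomputable def GE (P P1 : Finset ℕ) (U q : ℕ) : ℝ := U * V P * gq P1 q

theorem etail : ∃ C : ℕ, 1 ≤ C ∧ ∀ b : ℕ, C ≤ b → ∃ U1 : ℕ, 2 ≤ U1 ∧ ∀ U : ℕ, U1 ≤ U →
    ∀ (P : Finset ℕ) (l : ℕ), (∀ p ∈ P, p.Prime ∧ Real.log p ≤ (U : ℝ) ^ (1 / ((C : ℝ) * b))) →
    0 < l → (l : ℝ) ≤ (U : ℝ) ^ (1 / ((C : ℝ) * b)) →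
    ∃ P1 ⊆ P, (∀ p ∈ P, (p : ℝ) ≤ (U : ℝ) ^ (1 / ((C : ℝ) * b)) → p ∈ P1) ∧
    (U : ℝ) ^ (-(1 / 2 : ℝ)) ≤ V P ∧
    (((range (∏ p ∈ P, p)).filter (fun q => (∀ p ∈ P, p ∣ l → ¬ p ∣ q) ∧ (1 / 2 : ℝ) ^ b * GE P P1 U q <
      |SE l P U q - GE P P1 U q|)).card : ℝ) * Real.exp (3 * (U : ℝ) ^ (1 / ((C : ℝ) * b))) ≤
      ((∏ p ∈ P, p : ℕ) : ℝ) := by
  classical
  obtain ⟨C1, hC1, hsmall⟩ := small 1
  obtain ⟨cm, hcm, hmert⟩ := mert
  set C : ℕ := 24 * C1 with hC
  refine ⟨C, by omega, ?_⟩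
  intro b hb
  have hb1 : 1 ≤ b := by omega
  obtain ⟨U0, hU0⟩ := hsmall (b + 2) (by omega)
  have hbr : (1 : ℝ) ≤ b := by exact_mod_cast hb1
  have hC1r : (1 : ℝ) ≤ C1 := by exact_mod_cast hC1
  have hCeq : (C : ℝ) = 24 * C1 := by rw [hC]; push_cast; ring
  set a : ℝ := 1 / ((C : ℝ) * b) with ha
  have ha0 : 0 < a := by positivity
  set e1 : ℝ := 1 / ((C1 : ℝ) * ((b + 2 : ℕ) : ℝ)) with he1
  have hb2r : (((b + 2 : ℕ) : ℝ)) ≤ 3 * b := by push_cast; linarith
  have he10 : 0 < e1 := by positivity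
  have hae : 8 * a ≤ e1 := by
    rw [ha, he1, hCeq, mul_one_div, div_le_div_iff₀ (by positivity) (by positivity)]
    have h1 : (C1 : ℝ) * ((b + 2 : ℕ) : ℝ) ≤ C1 * (3 * b) := mul_le_mul_of_nonneg_left hb2r (by linarith)
    linarith
  have he1h : e1 ≤ 1 / 3 := by
    rw [he1]
    apply one_div_le_one_div_of_le (by norm_num)
    have h1 : (3 : ℝ) ≤ ((b + 2 : ℕ) : ℝ) := by push_cast; linarith
    nlinarith
  have ha4 : a ≤ 1 / 24 := by linarith
  -- constants
  set K1 : ℝ := (1 / 2 : ℝ) ^ (b + 3) * (1 / 2) ^ (b + 2) / 48 * cm with hK1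
  have hK10 : 0 < K1 := by positivity
  have E1 : ∀ᶠ U : ℕ in atTop, 4 / K1 < (U : ℝ) ^ (2 * a) :=
    ((tendsto_rpow_atTop (by linarith)).comp tendsto_natCast_atTop_atTop).eventually_gt_atTop _
  have E2 : ∀ᶠ U : ℕ in atTop, (1 / cm : ℝ) < (U : ℝ) ^ (1 / 4 : ℝ) :=
    ((tendsto_rpow_atTop (by norm_num)).comp tendsto_natCast_atTop_atTop).eventually_gt_atTop _
  have E3 := ev (1 / 2) 1 (|Real.log cm|) (by norm_num)
  have E4 := ev e1 (2 * 2 ^ (b + 5)) 0 he10
  obtain ⟨U2, hU2⟩ := ((E1.and E2).and (E3.and E4)).exists_forall_of_atTop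
  refine ⟨max (max U0 2) U2, (le_max_right _ _).trans (le_max_left _ _), ?_⟩
  intro U hU P l hP hl0 hlU
  obtain ⟨⟨ev1, ev2⟩, ev3, ev4⟩ := hU2 U ((le_max_right _ _).trans hU)
  have hU0' : U0 ≤ U := (le_max_left _ _).trans ((le_max_left _ _).trans hU)
  have hU2' : 2 ≤ U := (le_max_right _ _).trans ((le_max_left _ _).trans hU)
  have hUr : (2 : ℝ) ≤ U := by exact_mod_cast hU2'
  have hUpos : (0 : ℝ) < U := by linarith
  have hU1 : (1 : ℝ) ≤ U := by linarith
  have hUa1 : 1 ≤ (U : ℝ) ^ a := Real.one_le_rpow hU1 ha0.le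
  have hPp : ∀ p ∈ P, p.Prime := fun p hp => (hP p hp).1
  set z : ℝ := (U : ℝ) ^ e1 with hz
  have hz1 : 1 ≤ z := Real.one_le_rpow hU1 he10.le
  have hz0 : 0 < z := by linarith
  have haz : (U : ℝ) ^ a ≤ z := Real.rpow_le_rpow_of_exponent_le hU1 (by linarith)
  -- the density
  set X : ℕ := ⌊Real.exp ((U : ℝ) ^ a)⌋₊ with hX
  have hX2 : 2 ≤ X := by
    rw [hX]
    apply Nat.le_floor
    have h1 := Real.add_one_le_exp ((U : ℝ) ^ a)
    push_cast
    linarith
  have hPX : ∀ p ∈ P, p.Prime ∧ p ≤ X := by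
    intro p hp
    refine ⟨hPp p hp, Nat.le_floor ?_⟩
    have h1 : (0 : ℝ) < p := by exact_mod_cast (hPp p hp).pos
    exact (Real.log_le_iff_le_exp h1).1 (hP p hp).2
  have hlogX0 : 0 < Real.log X := Real.log_pos (by exact_mod_cast (by omega : 1 < X))
  have hlogX : Real.log X ≤ (U : ℝ) ^ a := by
    have h1 : (0 : ℝ) < X := by exact_mod_cast (by omega : 0 < X)
    rw [Real.log_le_iff_le_exp h1]
    exact Nat.floor_le (Real.exp_pos _).le
  have hVge : ∀ Q ⊆ P, cm * (U : ℝ) ^ (-a) ≤ V Q := by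
    intro Q hQ
    refine le_trans ?_ (hmert X hX2 Q fun p hp => hPX p (hQ hp))
    rw [Real.rpow_neg hUpos.le, ← div_eq_mul_inv]
    exact div_le_div_of_nonneg_left hcm.le hlogX0 hlogX
  have hV0 : 0 < V P := V_pos hPp
  -- the two sets of primes
  set P1 := P.filter (fun p : ℕ => (p : ℝ) ≤ z) with hP1
  set P2 := P.filter (fun p : ℕ => z < (p : ℝ)) with hP2
  have hd12 : Disjoint P1 P2 := by
    rw [disjoint_left]
    intro p hp hp'
    have h1 := (mem_filter.1 hp).2
    have h2 := (mem_filter.1 hp').2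
    linarith
  have hun : P1 ∪ P2 = P := by
    ext p
    rw [mem_union, mem_filter, mem_filter]
    constructor
    · rintro (h | h) <;> exact h.1
    · intro hp
      by_cases h5 : (p : ℝ) ≤ z
      · exact Or.inl ⟨hp, h5⟩
      · exact Or.inr ⟨hp, not_le.1 h5⟩
  have hP1P : P1 ⊆ P := filter_subset _ _
  have hP2P : P2 ⊆ P := filter_subset _ _
  have hP2z : ∀ p ∈ P2, z < p := fun p hp => (mem_filter.1 hp).2
  have hP1p : ∀ p ∈ P1, p.Prime := fun p hp => hPp p (hP1P hp)
  have hP2p : ∀ p ∈ P2, p.Prime := fun p hp => hPp p (hP2P hp)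
  have hP2l : ∀ p ∈ P2, ¬ p ∣ l := by
    intro p hp h
    have h1 : (p : ℝ) ≤ l := by exact_mod_cast Nat.le_of_dvd hl0 h
    linarith [hP2z p hp]
  refine ⟨P1, hP1P, fun p hp h => mem_filter.2 ⟨hp, h.trans haz⟩, ?_, ?_⟩
  · refine le_trans ?_ (hVge P (Subset.refl _))
    have h1 : (U : ℝ) ^ (-(1 / 4 : ℝ)) ≤ (U : ℝ) ^ (-a) :=
      Real.rpow_le_rpow_of_exponent_le hU1 (by linarith)
    have h2 : (U : ℝ) ^ (-(1 / 4 : ℝ)) ≤ cm := by
      rw [Real.rpow_neg hUpos.le]
      rw [div_lt_iff₀ hcm] at ev2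
      rw [inv_le_comm₀ (by positivity) hcm, ← one_div, div_le_iff₀ hcm]
      exact ev2.le
    calc (U : ℝ) ^ (-(1 / 2 : ℝ)) = (U : ℝ) ^ (-(1 / 4 : ℝ)) * (U : ℝ) ^ (-(1 / 4 : ℝ)) := by
          rw [← Real.rpow_add hUpos]; norm_num
      _ ≤ _ := mul_le_mul h2 h1 (by positivity) (by positivity)
  set D1 := ∏ p ∈ P1, p with hD1
  set D2 := ∏ p ∈ P2, p with hD2
  have hDD : ∏ p ∈ P, p = D1 * D2 := by rw [← hun, prod_union hd12]
  have hcopr : ∀ p ∈ P2, D1.Coprime p := by
    intro p hp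
    apply Nat.Coprime.prod_left
    intro q hq
    rw [Nat.coprime_primes (hPp q (hP1P hq)) (hPp p (hP2P hp))]
    rintro rfl
    exact disjoint_left.1 hd12 hq hp
  have hVV : V P = V P1 * V P2 := by
    unfold V
    rw [← hun, prod_union hd12]
  have hV1 : 0 < V P1 := V_pos hP1p
  have hV2 : 0 < V P2 := V_pos hP2p
  -- parameters
  set eta : ℝ := (1 / 2 : ℝ) ^ (b + 3) with heta
  have heta0 : 0 < eta := by positivity
  have heta1 : eta ≤ 1 := pow_le_one₀ (by norm_num) (by norm_num)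
  set lam : ℝ := eta * z / (24 * U) with hlam
  have hlam0 : 0 < lam := by positivity
  set bb : ℕ → ℝ := fun p => (U : ℝ) / p + 1 with hbb
  have hzU : z ≤ (U : ℝ) ^ (1 / 2 : ℝ) := Real.rpow_le_rpow_of_exponent_le hU1 (by linarith)
  have hUz : (U : ℝ) ^ (1 / 2 : ℝ) ≤ U / z := by
    rw [le_div_iff₀ hz0]
    calc (U : ℝ) ^ (1 / 2 : ℝ) * z ≤ (U : ℝ) ^ (1 / 2 : ℝ) * (U : ℝ) ^ (1 / 2 : ℝ) :=
          mul_le_mul_of_nonneg_left hzU (by positivity)
      _ = U := by rw [← Real.rpow_add hUpos]; norm_num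
  have hUz1 : 1 ≤ (U : ℝ) / z := le_trans (Real.one_le_rpow hU1 (by norm_num)) hUz
  have hbble : ∀ p ∈ P2, bb p ≤ 2 * (U / z) := by
    intro p hp
    have h1 : (U : ℝ) / p ≤ U / z := div_le_div_of_nonneg_left hUpos.le hz0 (hP2z p hp).le
    show (U : ℝ) / p + 1 ≤ _
    linarith
  have hlb : ∀ p ∈ P2, lam * bb p ≤ 1 := by
    intro p hp
    have h1 := mul_le_mul_of_nonneg_left (hbble p hp) hlam0.le
    refine h1.trans ?_
    have h2 : lam * (2 * (U / z)) = eta / 12 := by
      rw [hlam]; field_simp; ring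
    rw [h2]
    linarith
  have hsum1 : ∑ p ∈ P2, 1 / (p : ℝ) ≤ U / z := by
    refine (sum_inv_V P2 hP2p).trans (le_trans ?_ hUz)
    have h1 := Real.log_le_log (by positivity) (hVge P2 hP2P)
    rw [Real.log_mul hcm.ne' (by positivity), Real.log_rpow hUpos] at h1
    have h2 := neg_abs_le (Real.log cm)
    have h3 : 0 ≤ Real.log U := Real.log_nonneg hU1
    have h4 : a * Real.log U ≤ 1 * Real.log U := mul_le_mul_of_nonneg_right (by linarith) h3
    linarith
  have hsum2 := sum_sq_inv P2 z hz0 hP2z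
  have hsum : 2 * ∑ p ∈ P2, lam * bb p * (1 / (p : ℝ)) ≤ eta := by
    have h1 : ∑ p ∈ P2, lam * bb p * (1 / (p : ℝ)) = ∑ p ∈ P2, (lam * (U * (1 / (p : ℝ) ^ 2) + 1 / (p : ℝ))) := by
      apply sum_congr rfl
      intro p hp
      have h2 : (0 : ℝ) < p := by exact_mod_cast (hP2p p hp).pos
      rw [hbb]
      field_simp
    have h2 : ∑ p ∈ P2, (lam * (U * (1 / (p : ℝ) ^ 2) + 1 / (p : ℝ))) =
        lam * (U * ∑ p ∈ P2, 1 / (p : ℝ) ^ 2 + ∑ p ∈ P2, 1 / (p : ℝ)) := by
      rw [← mul_sum, sum_add_distrib, ← mul_sum]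
    rw [h1, h2]
    have h3 : U * ∑ p ∈ P2, 1 / (p : ℝ) ^ 2 + ∑ p ∈ P2, 1 / (p : ℝ) ≤ 3 * (U / z) := by
      have h4 := mul_le_mul_of_nonneg_left hsum2 hUpos.le
      have h5 : (U : ℝ) * (2 / z) = 2 * (U / z) := by ring
      linarith
    have h4 := mul_le_mul_of_nonneg_left h3 hlam0.le
    have h5 : 2 * (lam * (3 * (U / z))) = eta / 4 := by
      rw [hlam]; field_simp; ring
    linarith
  -- the density of `m`
  set rho : ℝ := (1 / 2 : ℝ) ^ (b + 4) with hrho
  have hrho0 : 0 < rho := by positivity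
  have hrho1 : rho ≤ 1 / 32 := by
    have : (1 / 2 : ℝ) ^ (b + 4) ≤ (1 / 2 : ℝ) ^ 5 := pow_le_pow_of_le_one (by norm_num) (by norm_num) (by omega)
    norm_num at this ⊢
    linarith
  have hkap : ∀ m ∈ Icc 1 U, V P2 ≤ kap P2 m ∧ kap P2 m ≤ (1 + rho) * V P2 := by
    intro m hm
    rw [mem_Icc] at hm
    obtain ⟨h1, h2⟩ := kap_bounds hP2p m (by omega) z hz0 hP2z
    refine ⟨h1, ?_⟩
    have h3 : (Nat.log 2 m : ℝ) / z ≤ rho / 2 := by
      rw [div_le_iff₀ hz0]
      have h4 : (Nat.log 2 m : ℝ) ≤ 2 * Real.log U := by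
        have h5 : (2 : ℝ) ^ (Nat.log 2 m) ≤ m := by exact_mod_cast Nat.pow_log_le_self 2 (by omega)
        have h6 : (m : ℝ) ≤ U := by exact_mod_cast hm.2
        have h7 := Real.log_le_log (by positivity) (h5.trans h6)
        rw [Real.log_pow] at h7
        have h8 := Real.log_two_gt_d9
        have h9 : (0 : ℝ) ≤ Nat.log 2 m := Nat.cast_nonneg _
        nlinarith
      have h5 : rho / 2 * (2 * 2 ^ (b + 5) * Real.log U + 0) ≤ rho / 2 * z := mul_le_mul_of_nonneg_left ev4 (by positivity)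
      have h6 : rho / 2 * (2 * 2 ^ (b + 5) * Real.log U + 0) = 2 * Real.log U := by
        have h7 : rho * 2 ^ (b + 4) = 1 := by rw [hrho, ← mul_pow]; norm_num
        calc rho / 2 * (2 * 2 ^ (b + 5) * Real.log U + 0) = (rho * 2 ^ (b + 4)) * (2 * Real.log U) := by
              rw [pow_succ (2 : ℝ) (b + 4)]; ring
          _ = _ := by rw [h7, one_mul]
      linarith
    have hk0 : 0 ≤ kap P2 m := hV2.le.trans h1
    have h4 : (1 - rho / 2) * kap P2 m ≤ V P2 :=
      (mul_le_mul_of_nonneg_right (by linarith) hk0).trans h2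
    nlinarith
  -- one residue class modulo `D1`
  set bad : ℕ → ℕ → Prop := fun i j => (∀ p ∈ P, p ∣ l → ¬ p ∣ (i + D1 * j)) ∧
    (1 / 2 : ℝ) ^ b * GE P P1 U (i + D1 * j) < |SE l P U (i + D1 * j) - GE P P1 U (i + D1 * j)| with hbad
  have key : ∀ i ∈ range D1, ∑ j ∈ range D2, (if bad i j then (1 : ℝ) else 0) ≤ D2 * Real.exp (-(3 * (U : ℝ) ^ a)) := by
    intro i _
    have hmod : ∀ p ∈ P1, ∀ j, (p ∣ i + D1 * j ↔ p ∣ i) := by
      intro p hp j
      exact Nat.dvd_add_left ((dvd_prod_of_mem (fun x : ℕ => x) hp).trans (Dvd.intro _ rfl))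
    by_cases hi : ∀ p ∈ P1, p ∣ l → ¬ p ∣ i
    swap
    · push Not at hi
      obtain ⟨p, hp, hpl, hpi⟩ := hi
      have h1 : ∀ j ∈ range D2, (if bad i j then (1 : ℝ) else 0) = 0 := by
        intro j _
        rw [if_neg]
        rintro ⟨h2, -⟩
        exact h2 p (hP1P hp) hpl ((hmod p hp j).2 hpi)
      rw [sum_congr rfl h1, sum_const_zero]
      positivity
    set Om : ℕ → Finset ℕ := fun p => (range p).filter (fun r => p ∣ l + i * r) with hOm
    have hOmc : ∀ p ∈ P1, (Om p).card = if p ∣ i then 0 else 1 := by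
      intro p hp
      have h1 := root_m (m := i) (hP1p p hp) (Nat.coprime_one_left p) (l := l) (fun h h' => hi p hp h' h) 0
      rw [← h1]
      refine congrArg card (filter_congr ?_)
      intro r _
      have : l + i * r = l + (0 + 1 * r) * i := by ring
      rw [this]
    have hOmle : ∀ p ∈ P1, (Om p).card ≤ 1 := by
      intro p hp
      rw [hOmc p hp]
      split_ifs <;> norm_num
    set H := (Icc 1 U).filter (fun m => ∀ p ∈ P1, ¬ p ∣ l + i * m) with hH
    have hHeq : (Icc 1 U).filter (fun h => ∀ p ∈ P1, (0 + h) % p ∉ Om p) = H := by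
      rw [hH]
      apply filter_congr
      intro m _
      have h1 : ∀ p ∈ P1, ((0 + m) % p ∉ Om p ↔ ¬ p ∣ l + i * m) := by
        intro p hp
        rw [hOm, mem_filter, mem_range, zero_add]
        have h3 : (p ∣ l + i * (m % p)) ↔ (p ∣ l + i * m) := by
          have h4 : l + i * m ≡ l + i * (m % p) [MOD p] := (Nat.ModEq.mul_left i (Nat.mod_modEq m p).symm).add_left l
          rw [← Nat.modEq_zero_iff_dvd, ← Nat.modEq_zero_iff_dvd]
          exact ⟨fun h => h4.trans h, fun h => h4.symm.trans h⟩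
        rw [h3]
        exact ⟨fun h h' => h ⟨Nat.mod_lt _ (hP1p p hp).pos, h'⟩, fun h h' => h h'.2⟩
      exact ⟨fun h p hp => (h1 p hp).1 (h p hp), fun h p hp => (h1 p hp).2 (h p hp)⟩
    have hHc := hU0 U hU0' P1 Om (fun p hp => ⟨hP1p p hp, (mem_filter.1 hp).2⟩)
      (fun p hp => ⟨filter_subset _ _, hOmle p hp, lt_of_le_of_lt (hOmle p hp) (hP1p p hp).one_lt⟩) 0
    rw [hHeq] at hHc
    have hVO1 : VO Om P1 = V P1 * gq P1 i := by
      unfold VO V gq
      rw [← prod_mul_distrib]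
      apply prod_congr rfl
      intro p hp
      have hf := (fac_pos (hP1p p hp)).ne'
      rw [hOmc p hp]
      split_ifs with h1
      · push_cast
        rw [mul_inv_cancel₀ hf]
        simp
      · push_cast
        ring
    rw [hVO1] at hHc
    set g : ℝ := gq P1 i with hg
    have hg1 : 1 ≤ g := gq_ge_one hP1p i
    have hg0 : 0 < g := by linarith
    have hHc' := abs_le.1 hHc
    have hUV1 : 0 < U * (V P1 * g) := by positivity
    have hp2 : (1 / 2 : ℝ) ^ (b + 2) ≤ 1 / 8 := by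
      have h1 : (1 / 2 : ℝ) ^ (b + 2) ≤ (1 / 2 : ℝ) ^ 3 := pow_le_pow_of_le_one (by norm_num) (by norm_num) (by omega)
      norm_num at h1 ⊢
      linarith
    have hHlow : U * (V P1 * g) / 2 ≤ H.card := by nlinarith [hHc'.1]
    have hHup : (H.card : ℝ) ≤ 5 / 4 * (U * (V P1 * g)) := by nlinarith [hHc'.2]
    have hS : ∀ j, SE l P U (i + D1 * j) =
        ((H.filter (fun m => ∀ p ∈ P2, ¬ p ∣ l + (i + D1 * j) * m)).card : ℝ) := by
      intro j
      unfold SE
      refine congrArg Nat.cast (congrArg card ?_)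
      rw [hH, filter_filter]
      apply filter_congr
      intro m _
      have e1 : ∀ p ∈ P1, (p ∣ l + (i + D1 * j) * m ↔ p ∣ l + i * m) := by
        intro p hp
        obtain ⟨k, hk⟩ := dvd_prod_of_mem (fun x : ℕ => x) hp
        have : l + (i + D1 * j) * m = (l + i * m) + p * (k * j * m) := by rw [hD1, hk]; ring
        rw [this]
        exact Nat.dvd_add_left (Dvd.intro _ rfl)
      constructor
      · intro h1
        refine ⟨fun p hp => ?_, fun p hp => h1 p (hP2P hp)⟩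
        rw [← e1 p hp]
        exact h1 p (hP1P hp)
      · rintro ⟨h1, h2⟩ p hp
        rw [← hun, mem_union] at hp
        rcases hp with hp | hp
        · rw [e1 p hp]; exact h1 p hp
        · exact h2 p hp
    have hG : ∀ j, GE P P1 U (i + D1 * j) = U * (V P1 * g) * V P2 := by
      intro j
      unfold GE
      rw [gq_congr (fun p hp => hmod p hp j), hVV]
      ring
    set M : ℝ := ∑ m ∈ H, kap P2 m with hM
    have hHI : H ⊆ Icc 1 U := filter_subset _ _
    have hMlow : H.card * V P2 ≤ M := by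
      rw [hM, ← nsmul_eq_mul, ← sum_const]
      exact sum_le_sum fun m hm => (hkap m (hHI hm)).1
    have hMup : M ≤ H.card * ((1 + rho) * V P2) := by
      rw [hM, ← nsmul_eq_mul, ← sum_const]
      exact sum_le_sum fun m hm => (hkap m (hHI hm)).2
    have hdev := devw P2 bb l H i D1 lam eta ((1 / 2 : ℝ) ^ (b + 1)) hP2p hP2l hlam0.le hlb ?_ hcopr heta1 hsum
    · have h1 : ∑ j ∈ range D2, (if bad i j then (1 : ℝ) else 0) ≤
          (((range D2).filter (fun j => (1 / 2 : ℝ) ^ (b + 1) * M <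
            |((H.filter (fun m => ∀ p ∈ P2, ¬ p ∣ l + (i + D1 * j) * m)).card : ℝ) - M|)).card : ℝ) := by
        rw [card_filter]
        push_cast
        apply sum_le_sum
        intro j _
        by_cases hb' : bad i j
        · rw [if_pos hb', if_pos]
          have hbd := hb'.2
          rw [hS, hG] at hbd
          set S := ((H.filter (fun m => ∀ p ∈ P2, ¬ p ∣ l + (i + D1 * j) * m)).card : ℝ) with hSd
          set G : ℝ := U * (V P1 * g) * V P2 with hGd
          have hG0 : 0 < G := by positivity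
          have h2 : |S - G| ≤ |S - M| + |M - G| := abs_sub_le _ _ _
          have h3 : |M - G| ≤ ((1 / 2 : ℝ) ^ (b + 2) + 5 / 4 * rho) * G := by
            have e1 : |M - G| ≤ |M - H.card * V P2| + |H.card * V P2 - G| := abs_sub_le _ _ _
            have e2 : |M - H.card * V P2| ≤ 5 / 4 * rho * G := by
              rw [abs_of_nonneg (by linarith)]
              have e3 : M - H.card * V P2 ≤ rho * (H.card * V P2) := by linarith
              refine e3.trans ?_
              have e4 := mul_le_mul_of_nonneg_right hHup hV2.le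
              have e5 := mul_le_mul_of_nonneg_left e4 hrho0.le
              calc rho * (H.card * V P2) ≤ rho * (5 / 4 * (U * (V P1 * g)) * V P2) := e5
                _ = _ := by rw [hGd]; ring
            have e3 : |H.card * V P2 - G| ≤ (1 / 2 : ℝ) ^ (b + 2) * G := by
              have e4 : H.card * V P2 - G = (H.card - U * (V P1 * g)) * V P2 := by rw [hGd]; ring
              rw [e4, abs_mul, abs_of_pos hV2]
              have := mul_le_mul_of_nonneg_right hHc hV2.le
              calc _ ≤ _ := this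
                _ = _ := by rw [hGd]; ring
            linarith
          have h4 : M ≤ (5 / 4) * (33 / 32) * G := by
            refine hMup.trans ?_
            have e4 := mul_le_mul_of_nonneg_right hHup (show 0 ≤ (1 + rho) * V P2 by positivity)
            refine e4.trans ?_
            have e5 : 5 / 4 * (U * (V P1 * g)) * ((1 + rho) * V P2) = 5 / 4 * (1 + rho) * G := by rw [hGd]; ring
            rw [e5]
            apply mul_le_mul_of_nonneg_right _ hG0.le
            linarith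
          have h5 : (1 / 2 : ℝ) ^ (b + 1) = (1 / 2 : ℝ) ^ b / 2 := by rw [pow_succ]; ring
          have h6 : (1 / 2 : ℝ) ^ (b + 2) = (1 / 2 : ℝ) ^ b / 4 := by rw [pow_add]; norm_num; ring
          have h6' : rho = (1 / 2 : ℝ) ^ b / 16 := by rw [hrho, pow_add]; norm_num; ring
          rw [h6, h6'] at h3
          rw [h5]
          have h7 : (0 : ℝ) < (1 / 2 : ℝ) ^ b := by positivity
          have h8 := mul_le_mul_of_nonneg_left h4 (show (0 : ℝ) ≤ (1 / 2 : ℝ) ^ b / 2 by positivity)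
          have h9 : 0 < (1 / 2 : ℝ) ^ b * G := by positivity
          nlinarith
        · rw [if_neg hb']
          split_ifs <;> norm_num
      refine h1.trans (hdev.trans ?_)
      rw [← hD2]
      have h2 : 4 * (U : ℝ) ^ a ≤ lam * M * ((1 / 2 : ℝ) ^ (b + 1) - 2 * eta) := by
        have e1 : (1 / 2 : ℝ) ^ (b + 1) - 2 * eta = (1 / 2 : ℝ) ^ (b + 2) := by
          rw [heta, pow_succ (1 / 2 : ℝ) (b + 2), pow_succ (1 / 2 : ℝ) (b + 1)]
          ring
        rw [e1]
        have h4 : U * (cm * (U : ℝ) ^ (-a)) / 2 ≤ M := by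
          refine le_trans ?_ hMlow
          have e2 := mul_le_mul_of_nonneg_right hHlow hV2.le
          refine le_trans ?_ e2
          have e3 := hVge P (Subset.refl _)
          rw [hVV] at e3
          have e4 : V P1 * V P2 ≤ V P1 * V P2 * g := le_mul_of_one_le_right (by positivity) hg1
          have e5 := mul_le_mul_of_nonneg_left (e3.trans e4) hUpos.le
          linarith
        have h5 : lam * (U * (cm * (U : ℝ) ^ (-a)) / 2) * (1 / 2 : ℝ) ^ (b + 2) = K1 * (z * (U : ℝ) ^ (-a)) := by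
          rw [hlam, hK1, heta]
          field_simp
          ring
        have h6 : (U : ℝ) ^ (3 * a) ≤ z * (U : ℝ) ^ (-a) := by
          rw [hz, ← Real.rpow_add hUpos]
          apply Real.rpow_le_rpow_of_exponent_le hU1
          linarith
        have h7 : 4 * (U : ℝ) ^ a ≤ K1 * (U : ℝ) ^ (3 * a) := by
          have e2 : (U : ℝ) ^ (3 * a) = (U : ℝ) ^ (2 * a) * (U : ℝ) ^ a := by
            rw [← Real.rpow_add hUpos]
            congr 1
            ring
          rw [e2, ← mul_assoc]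
          apply mul_le_mul_of_nonneg_right _ (by positivity)
          rw [div_lt_iff₀ hK10] at ev1
          linarith
        calc 4 * (U : ℝ) ^ a ≤ K1 * (U : ℝ) ^ (3 * a) := h7
          _ ≤ K1 * (z * (U : ℝ) ^ (-a)) := mul_le_mul_of_nonneg_left h6 hK10.le
          _ = _ := h5.symm
          _ ≤ _ := by
            apply mul_le_mul_of_nonneg_right _ (by positivity)
            exact mul_le_mul_of_nonneg_left h4 hlam0.le
      have h3 : 2 * Real.exp (-(lam * M * ((1 / 2 : ℝ) ^ (b + 1) - 2 * eta))) ≤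
          Real.exp (-(3 * (U : ℝ) ^ a)) := by
        have h4 : Real.exp (-(lam * M * ((1 / 2 : ℝ) ^ (b + 1) - 2 * eta))) ≤
            Real.exp (-(U : ℝ) ^ a) * Real.exp (-(3 * (U : ℝ) ^ a)) := by
          rw [← Real.exp_add]
          apply Real.exp_le_exp.2
          linarith
        have h5 : Real.exp (-(U : ℝ) ^ a) ≤ 1 / 2 := by
          rw [Real.exp_neg]
          have h6 := Real.add_one_le_exp ((U : ℝ) ^ a)
          rw [inv_le_comm₀ (Real.exp_pos _) (by norm_num)]
          norm_num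
          linarith
        have h6 := mul_le_mul_of_nonneg_right h5 (Real.exp_pos (-(3 * (U : ℝ) ^ a))).le
        linarith
      have h4 := mul_le_mul_of_nonneg_left h3 (Nat.cast_nonneg (α := ℝ) D2)
      linarith
    · intro p hp q
      refine le_trans ?_ (cntM p l q U (hP2p p hp) (fun _ => hP2l p hp))
      exact_mod_cast card_le_card (filter_subset_filter (fun m => p ∣ l + q * m) hHI)
  have hcard : (((range (∏ p ∈ P, p)).filter (fun q => (∀ p ∈ P, p ∣ l → ¬ p ∣ q) ∧ (1 / 2 : ℝ) ^ b * GE P P1 U q <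
      |SE l P U q - GE P P1 U q|)).card : ℝ) ≤ D1 * (D2 * Real.exp (-(3 * (U : ℝ) ^ a))) := by
    rw [card_filter]
    push_cast
    rw [hDD, sum_split]
    refine (sum_le_sum key).trans ?_
    rw [sum_const, card_range, nsmul_eq_mul]
  have h1 := mul_le_mul_of_nonneg_right hcard (Real.exp_pos (3 * (U : ℝ) ^ a)).le
  refine h1.trans (le_of_eq ?_)
  rw [hDD]
  push_cast
  rw [mul_assoc, mul_assoc, ← Real.exp_add, neg_add_cancel, Real.exp_zero, mul_one]

end Pool.Agent.Y829.EH
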