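import Pool.Agent.Y829.EH3

/-! The model: weights over a period. -/

set_option autoImplicit false

namespace Pool.Agent.Y829.EH

open Finset Filter Topology Pool.Agent.Y829 Pool.Agent.Y829.RP

lemma VP_gq_le {P P1 : Finset ℕ} (hP : ∀ p ∈ P, p.Prime) (h1 : P1 ⊆ P) (q : ℕ) : V P * gq P1 q ≤ 1 := by
  classical
  have h2 := gq_mono h1 hP q
  have h3 : V P * gq P q ≤ 1 := by
    unfold V gq
    rw [← prod_mul_distrib]
    apply prod_le_one
    · intro p hp
      have := fac_pos (hP p hp)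
      split_ifs <;> positivity
    · intro p hp
      have := fac_pos (hP p hp)
      split_ifs
      · rw [mul_inv_cancel₀ this.ne']
      · rw [mul_one]; exact fac_le_one
  exact (mul_le_mul_of_nonneg_left h2 (V_pos hP).le).trans h3

lemma SE_per (l : ℕ) (P : Finset ℕ) (U T q : ℕ) (hP : ∀ p ∈ P, p ∣ T) : SE l P U (q + T) = SE l P U q := by
  unfold SE
  refine congrArg Nat.cast (congrArg card (filter_congr ?_))
  intro m _
  have h1 : ∀ p ∈ P, (p ∣ l + (q + T) * m ↔ p ∣ l + q * m) := by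
    intro p hp
    have e : l + (q + T) * m = (l + q * m) + T * m := by ring
    rw [e]
    exact Nat.dvd_add_left ((hP p hp).trans (Dvd.intro _ rfl))
  exact ⟨fun h p hp h' => h p hp ((h1 p hp).2 h'), fun h p hp h' => h p hp ((h1 p hp).1 h')⟩

lemma gq_per (P : Finset ℕ) (T q : ℕ) (hP : ∀ p ∈ P, p ∣ T) : gq P (q + T) = gq P q :=
  gq_congr fun p hp => Nat.dvd_add_left (hP p hp)

/-- the weighted mean of the number of survivors -/
theorem mod1 : ∃ C : ℕ, 1 ≤ C ∧ ∀ b : ℕ, C ≤ b → ∃ U1 : ℕ, 2 ≤ U1 ∧ ∀ U : ℕ, U1 ≤ U →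
    ∀ (P : Finset ℕ) (l R N : ℕ) (w : ℕ → ℝ), (∀ p ∈ P, p.Prime ∧ Real.log p ≤ (U : ℝ) ^ (1 / ((C : ℝ) * b))) →
    0 < l → (l : ℝ) ≤ (U : ℝ) ^ (1 / ((C : ℝ) * b)) → 1 ≤ R → Real.log R ≤ (U : ℝ) ^ (1 / ((C : ℝ) * b)) →
    0 < N → (∀ d ∈ Icc 1 R, d ∣ N) → (∀ p ∈ P, p ∣ N) → (∀ q, 0 ≤ w q) → Lev R w →
    (∀ p ∈ P, p ∣ l → ∀ q, p ∣ q → w q = 0) →
    ∃ P1 ⊆ P, (∀ p ∈ P, (p : ℝ) ≤ (U : ℝ) ^ (1 / ((C : ℝ) * b)) → p ∈ P1) ∧
    |∑ q ∈ range N, w q * SE l P U q - ∑ q ∈ range N, w q * GE P P1 U q| ≤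
      (1 / 2 : ℝ) ^ b * ∑ q ∈ range N, w q * GE P P1 U q := by
  classical
  obtain ⟨C1, hC1, htail⟩ := etail
  refine ⟨2 * C1, by omega, ?_⟩
  intro b hb
  obtain ⟨U1, hU12, htail1⟩ := htail (b + 1) (by omega)
  have hb1 : 1 ≤ b := by omega
  have hbr : (1 : ℝ) ≤ b := by exact_mod_cast hb1
  have hC1r : (1 : ℝ) ≤ C1 := by exact_mod_cast hC1
  set a : ℝ := 1 / ((C1 : ℝ) * ((b + 1 : ℕ) : ℝ)) with ha
  set a' : ℝ := 1 / (((2 * C1 : ℕ) : ℝ) * b) with ha'
  have ha0 : 0 < a := by positivity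
  have haa' : a' ≤ a := by
    rw [ha, ha']
    apply one_div_le_one_div_of_le (by positivity)
    push_cast
    nlinarith
  have E1 := ev a (1 / 2) (b + 1) ha0
  obtain ⟨U2, hU2⟩ := E1.exists_forall_of_atTop
  refine ⟨max U1 U2, hU12.trans (le_max_left _ _), ?_⟩
  intro U hU P l R N w hP hl0 hl hR hlogR hN hdN hPN hw0 hw hwl
  have hU1' : U1 ≤ U := (le_max_left _ _).trans hU
  have ev1 := hU2 U ((le_max_right _ _).trans hU)
  have hR0 : (0 : ℝ) < R := by exact_mod_cast hR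
  have hUr : (1 : ℝ) ≤ U := by exact_mod_cast (by omega : 1 ≤ U)
  have hUpos : (0 : ℝ) < U := by linarith
  have hUa1 : 1 ≤ (U : ℝ) ^ a := Real.one_le_rpow hUr ha0.le
  have hUaa : (U : ℝ) ^ a' ≤ (U : ℝ) ^ a := Real.rpow_le_rpow_of_exponent_le hUr haa'
  have hRexp : (R : ℝ) ^ 2 ≤ Real.exp (2 * (U : ℝ) ^ a) := by
    have h1 : (R : ℝ) ≤ Real.exp ((U : ℝ) ^ a) := (Real.log_le_iff_le_exp hR0).1 (hlogR.trans hUaa)
    calc (R : ℝ) ^ 2 ≤ (Real.exp ((U : ℝ) ^ a)) ^ 2 := pow_le_pow_left₀ hR0.le h1 2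
      _ = Real.exp (2 * (U : ℝ) ^ a) := by rw [← Real.exp_nat_mul]; norm_num
  have hPp : ∀ p ∈ P, p.Prime := fun p hp => (hP p hp).1
  have hNr : (0 : ℝ) < N := by exact_mod_cast hN
  obtain ⟨P1, hP1P, hP1, hVlow, ht⟩ := htail1 U hU1' P l (fun p hp => ⟨hPp p hp, ((hP p hp).2).trans hUaa⟩) hl0
    (hl.trans hUaa)
  refine ⟨P1, hP1P, fun p hp h => hP1 p hp (h.trans hUaa), ?_⟩
  have hhalf : (1 / 2 : ℝ) ^ b = 2 * (1 / 2 : ℝ) ^ (b + 1) := by rw [pow_succ]; ring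
  have hV0 : 0 < V P := V_pos hPp
  have hGEle : ∀ q, GE P P1 U q ≤ U := by
    intro q
    unfold GE
    rw [mul_assoc]
    exact mul_le_of_le_one_right hUpos.le (VP_gq_le hPp hP1P q)
  have hGEge : ∀ q, U * V P ≤ GE P P1 U q := by
    intro q
    unfold GE
    exact le_mul_of_one_le_right (by positivity) (gq_ge_one (fun p hp => hPp p (hP1P hp)) q)
  set D := ∏ p ∈ P, p with hD
  have hDN : D ∣ N := Finset.prod_primes_dvd _ (fun p hp => (hPp p hp).prime) hPN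
  obtain ⟨k, hk⟩ := hDN
  set good : ℕ → Prop := fun q => (∀ p ∈ P, p ∣ l → ¬ p ∣ q) ∧ (1 / 2 : ℝ) ^ (b + 1) * GE P P1 U q <
      |SE l P U q - GE P P1 U q| with hgood
  have hdD : ∀ p ∈ P, p ∣ D := fun p hp => dvd_prod_of_mem (fun x : ℕ => x) hp
  have hgper : ∀ q, good (q + D) ↔ good q := by
    intro q
    show ((∀ p ∈ P, p ∣ l → ¬ p ∣ q + D) ∧ (1 / 2 : ℝ) ^ (b + 1) * GE P P1 U (q + D) <
      |SE l P U (q + D) - GE P P1 U (q + D)|) ↔ _
    have e1 : GE P P1 U (q + D) = GE P P1 U q := by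
      unfold GE
      rw [gq_per P1 D q fun p hp => hdD p (hP1P hp)]
    rw [SE_per l P U D q hdD, e1]
    have e2 : ∀ p ∈ P, (p ∣ q + D ↔ p ∣ q) := fun p hp => Nat.dvd_add_left (hdD p hp)
    constructor
    · rintro ⟨h1, h2⟩
      exact ⟨fun p hp hpl hpq => h1 p hp hpl ((e2 p hp).2 hpq), h2⟩
    · rintro ⟨h1, h2⟩
      exact ⟨fun p hp hpl hpq => h1 p hp hpl ((e2 p hp).1 hpq), h2⟩
  set B := (range N).filter good with hB
  have h1 : (B.card : ℝ) = k * (((range D).filter good).card : ℝ) := by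
    rw [hB, card_filter, card_filter]
    push_cast
    rw [hk, per_sum (G := fun n => if good n then (1 : ℝ) else 0) (T := D)]
    intro n
    show (if good (n + D) then (1 : ℝ) else 0) = if good n then (1 : ℝ) else 0
    simp only [hgper n]
  have h2 : (B.card : ℝ) * Real.exp (3 * (U : ℝ) ^ a) ≤ N := by
    rw [h1, mul_assoc, hk]
    push_cast
    rw [mul_comm (D : ℝ)]
    exact mul_le_mul_of_nonneg_left (by exact_mod_cast ht) (Nat.cast_nonneg _)
  have h3 : ∀ n ∈ B, w n ≤ (R : ℝ) ^ 2 * (∑ n ∈ range N, w n) / N := by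
    intro n _
    rw [le_div_iff₀ hNr, mul_comm]
    exact supb N R hN hdN w hw0 hw n
  set T0 : ℝ := ∑ n ∈ range N, w n with hT0
  have hT00 : 0 ≤ T0 := sum_nonneg fun n _ => hw0 n
  have hbad : ∑ n ∈ B, w n ≤ Real.exp (-(U : ℝ) ^ a) * T0 := by
    refine (sum_le_sum h3).trans ?_
    rw [sum_const, nsmul_eq_mul, ← mul_div_assoc, div_le_iff₀ hNr]
    have h4 : (B.card : ℝ) * (R : ℝ) ^ 2 ≤ Real.exp (-(U : ℝ) ^ a) * N := by
      calc (B.card : ℝ) * (R : ℝ) ^ 2 ≤ (B.card : ℝ) * Real.exp (2 * (U : ℝ) ^ a) :=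
            mul_le_mul_of_nonneg_left hRexp (Nat.cast_nonneg _)
        _ = Real.exp (-(U : ℝ) ^ a) * ((B.card : ℝ) * Real.exp (3 * (U : ℝ) ^ a)) := by
            have : Real.exp (2 * (U : ℝ) ^ a) = Real.exp (-(U : ℝ) ^ a) * Real.exp (3 * (U : ℝ) ^ a) := by
              rw [← Real.exp_add]; congr 1; ring
            rw [this]; ring
        _ ≤ _ := mul_le_mul_of_nonneg_left h2 (Real.exp_pos _).le
    have h5 := mul_le_mul_of_nonneg_right h4 hT00
    linarith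
  rw [← sum_sub_distrib]
  refine (abs_sum_le_sum_abs _ _).trans ?_
  have h4 : ∀ q ∈ range N, |w q * SE l P U q - w q * GE P P1 U q| ≤
      (1 / 2 : ℝ) ^ (b + 1) * (w q * GE P P1 U q) + (if q ∈ B then w q * U else 0) := by
    intro q hq
    have e1 : w q * SE l P U q - w q * GE P P1 U q = w q * (SE l P U q - GE P P1 U q) := by ring
    rw [e1, abs_mul, abs_of_nonneg (hw0 q)]
    have hG0 : 0 ≤ GE P P1 U q := le_trans (by positivity) (hGEge q)
    by_cases hqB : q ∈ B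
    · rw [if_pos hqB]
      have h5 : |SE l P U q - GE P P1 U q| ≤ U := by
        rw [abs_le]
        have := SE_nonneg l P U q
        have := SE_le l P U q
        have := hGEle q
        constructor <;> linarith
      have h6 := mul_le_mul_of_nonneg_left h5 (hw0 q)
      have h7 : 0 ≤ (1 / 2 : ℝ) ^ (b + 1) * (w q * GE P P1 U q) := by
        have := hw0 q
        positivity
      linarith
    · rw [if_neg hqB, add_zero]
      by_cases h5 : ∀ p ∈ P, p ∣ l → ¬ p ∣ q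
      · have h6 : |SE l P U q - GE P P1 U q| ≤ (1 / 2 : ℝ) ^ (b + 1) * GE P P1 U q := by
          by_contra h7
          push Not at h7
          exact hqB (mem_filter.2 ⟨hq, h5, h7⟩)
        have := mul_le_mul_of_nonneg_left h6 (hw0 q)
        linarith
      · push Not at h5
        obtain ⟨p, hp, hpl, hpq⟩ := h5
        rw [hwl p hp hpl q hpq]
        simp
  refine (sum_le_sum h4).trans ?_
  rw [sum_add_distrib, ← mul_sum, ← sum_filter]
  have h5 : (range N).filter (fun i => i ∈ B) = B := by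
    ext i
    rw [mem_filter]
    exact ⟨fun h => h.2, fun h => ⟨(mem_filter.1 h).1, h⟩⟩
  rw [h5, ← sum_mul]
  have h6 : (∑ i ∈ B, w i) * U ≤ (1 / 2 : ℝ) ^ (b + 1) * ∑ q ∈ range N, w q * GE P P1 U q := by
    have h4 := mul_le_mul_of_nonneg_right hbad hUpos.le
    refine h4.trans ?_
    have h5 : Real.exp (-(U : ℝ) ^ a) ≤ (1 / 2 : ℝ) ^ (b + 1) * V P := by
      refine le_trans ?_ (mul_le_mul_of_nonneg_left hVlow (by positivity))
      have h6 : (1 / 2 : ℝ) ^ (b + 1) * (U : ℝ) ^ (-(1 / 2 : ℝ)) =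
          Real.exp (-((b + 1 : ℕ) * Real.log 2 + 1 / 2 * Real.log U)) := by
        rw [neg_add, Real.exp_add, ← mul_neg, Real.exp_nat_mul, Real.exp_neg, Real.exp_log (by norm_num),
          Real.rpow_def_of_pos hUpos]
        congr 2
        · norm_num
        · ring
      rw [h6]
      apply Real.exp_le_exp.2
      have h7 : Real.log 2 ≤ 1 := by have := Real.log_two_lt_d9; linarith
      have h8 : ((b + 1 : ℕ) : ℝ) * Real.log 2 ≤ (b + 1 : ℕ) * 1 :=
        mul_le_mul_of_nonneg_left h7 (Nat.cast_nonneg _)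
      push_cast at h8 ⊢
      linarith
    have h6 : T0 * (U * V P) ≤ ∑ q ∈ range N, w q * GE P P1 U q := by
      rw [hT0, sum_mul]
      exact sum_le_sum fun q _ => mul_le_mul_of_nonneg_left (hGEge q) (hw0 q)
    have h7 := mul_le_mul_of_nonneg_right h5 (mul_nonneg hT00 hUpos.le)
    calc Real.exp (-(U : ℝ) ^ a) * T0 * U = Real.exp (-(U : ℝ) ^ a) * (T0 * U) := by ring
      _ ≤ _ := h7
      _ = (1 / 2 : ℝ) ^ (b + 1) * (T0 * (U * V P)) := by ring
      _ ≤ _ := mul_le_mul_of_nonneg_left h6 (by positivity)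
  rw [hhalf]
  linarith

end Pool.Agent.Y829.EH
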