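import Pool.Agent.Y829.EH4

/-! Expansions of the local factor. -/

set_option autoImplicit false

namespace Pool.Agent.Y829.EH

open Finset Filter Topology Pool.Agent.Y829 Pool.Agent.Y829.RP

lemma modlcm {e d q v : ℕ} (h1 : q ≡ v [MOD e]) (h2 : q ≡ v [MOD d]) : q ≡ v [MOD (Nat.lcm e d)] := by
  rw [Nat.modEq_iff_dvd] at *
  rw [Int.natCast_dvd] at *
  exact Nat.lcm_dvd h1 h2

lemma cls2 (e d a : ℕ) (he : 0 < e) :
    (∀ q, ¬ (q % e = a ∧ d ∣ q)) ∨ ∃ v, ∀ q, (q % e = a ∧ d ∣ q) ↔ q ≡ v [MOD (Nat.lcm e d)] := by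
  by_cases h : ∃ v, v % e = a ∧ d ∣ v
  · obtain ⟨v, hv1, hv2⟩ := h
    right
    refine ⟨v, fun q => ⟨?_, ?_⟩⟩
    · rintro ⟨h1, h2⟩
      apply modlcm
      · show q % e = v % e
        rw [h1, hv1]
      · exact ((Nat.modEq_zero_iff_dvd).2 h2).trans ((Nat.modEq_zero_iff_dvd).2 hv2).symm
    · intro h1
      have h2 : q ≡ v [MOD e] := h1.of_dvd (Nat.dvd_lcm_left e d)
      have h3 : q ≡ v [MOD d] := h1.of_dvd (Nat.dvd_lcm_right e d)
      refine ⟨?_, ?_⟩
      · have : q % e = v % e := h2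
        rw [this, hv1]
      · exact (Nat.modEq_zero_iff_dvd).1 (h3.trans ((Nat.modEq_zero_iff_dvd).2 hv2))
  · left
    intro q hq
    exact h ⟨q, hq⟩

lemma cnt2 (e d a N A B : ℕ) (he : 0 < e) (hd : 0 < d) (heN : e ∣ N) (hdN : d ∣ N) (hN : 0 < N) (hAB : A ≤ B) :
    |(((Ioc A B).filter (fun q => q % e = a ∧ d ∣ q)).card : ℝ) -
      ((B : ℝ) - A) / N * (((range N).filter (fun q => q % e = a ∧ d ∣ q)).card : ℝ)| ≤ 1 := by
  rcases cls2 e d a he with h | ⟨v, hv⟩
  · have h1 : ∀ s : Finset ℕ, s.filter (fun q => q % e = a ∧ d ∣ q) = ∅ := by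
      intro s
      rw [filter_eq_empty_iff]
      intro q _
      exact h q
    rw [h1, h1]
    simp
  · have hL : 0 < Nat.lcm e d := Nat.lcm_pos he hd
    have hLN : Nat.lcm e d ∣ N := Nat.lcm_dvd heN hdN
    have h1 : (Ioc A B).filter (fun q => q % e = a ∧ d ∣ q) =
        (Ico (A + 1) (B + 1)).filter (fun q => q ≡ v [MOD (Nat.lcm e d)]) := by
      ext q
      rw [mem_filter, mem_filter, mem_Ioc, mem_Ico, hv q]
      constructor
      · rintro ⟨h2, h3⟩; exact ⟨by omega, h3⟩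
      · rintro ⟨h2, h3⟩; exact ⟨by omega, h3⟩
    have h2 : (range N).filter (fun q => q % e = a ∧ d ∣ q) =
        (range N).filter (fun q => q % (Nat.lcm e d) = v % (Nat.lcm e d)) := by
      apply filter_congr
      intro q _
      rw [hv q]
      exact Iff.rfl
    have h3 := cnt_class N (Nat.lcm e d) (v % (Nat.lcm e d)) hL (Nat.mod_lt _ hL) hLN
    rw [h1, h2, h3, Nat.cast_div hLN (by exact_mod_cast hL.ne')]
    have h4 := cnt_mod (A + 1) (B + 1) (Nat.lcm e d) v (by omega) hL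
    have hN' : (N : ℝ) ≠ 0 := by exact_mod_cast hN.ne'
    have h5 : (((B + 1 : ℕ) : ℝ) - ((A + 1 : ℕ) : ℝ)) / (Nat.lcm e d : ℝ) = ((B : ℝ) - A) / N * (N / (Nat.lcm e d : ℝ)) := by
      push_cast
      field_simp
      ring
    rw [h5] at h4
    exact h4

/-- expansion of the local factor -/
lemma gq_expand {P : Finset ℕ} (hP : ∀ p ∈ P, p.Prime) (q : ℕ) :
    gq P q = ∑ S ∈ P.powerset, (if (∏ p ∈ S, p) ∣ q then ∏ p ∈ S, (1 / ((p : ℝ) - 1)) else 0) := by
  classical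
  have h1 : gq P q = ∏ p ∈ P, (1 + (if p ∣ q then 1 / ((p : ℝ) - 1) else 0)) := by
    unfold gq
    apply prod_congr rfl
    intro p hp
    split_ifs
    · have h2 : (1 : ℝ) < p := by exact_mod_cast (hP p hp).one_lt
      have h3 : (p : ℝ) - 1 ≠ 0 := by linarith
      have h4 : (p : ℝ) ≠ 0 := by linarith
      field_simp
      ring
    · ring
  rw [h1, prod_one_add]
  apply sum_congr rfl
  intro S hS
  rw [mem_powerset] at hS
  by_cases h2 : (∏ p ∈ S, p) ∣ q
  · rw [if_pos h2]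
    apply prod_congr rfl
    intro p hp
    rw [if_pos ((dvd_prod_of_mem (fun x : ℕ => x) hp).trans h2)]
  · rw [if_neg h2]
    have h3 : ∃ p ∈ S, ¬ p ∣ q := by
      by_contra h4
      push Not at h4
      exact h2 (Finset.prod_primes_dvd _ (fun p hp => (hP p (hS hp)).prime) h4)
    obtain ⟨p, hp, hpq⟩ := h3
    apply prod_eq_zero hp
    rw [if_neg hpq]

/-- the weighted local factor in intervals and in periods -/
theorem eqd (R N A B : ℕ) (c : ℕ → ℕ → ℝ) (P : Finset ℕ) (hP : ∀ p ∈ P, p.Prime) (hN : 0 < N)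
    (hdN : ∀ d ∈ Icc 1 R, d ∣ N) (hPN : ∀ p ∈ P, p ∣ N) (hAB : A ≤ B) :
    |∑ q ∈ Ioc A B, wt R c q * gq P q - ((B : ℝ) - A) / N * ∑ q ∈ range N, wt R c q * gq P q| ≤
      2 ^ P.card * ∑ e ∈ Icc 1 R, ss c e := by
  classical
  set tS : Finset ℕ → ℝ := fun S => ∏ p ∈ S, (1 / ((p : ℝ) - 1)) with htS
  have ht : ∀ S ∈ P.powerset, 0 ≤ tS S ∧ tS S ≤ 1 := by
    intro S hS
    rw [mem_powerset] at hS
    have h1 : ∀ p ∈ S, 0 ≤ 1 / ((p : ℝ) - 1) ∧ 1 / ((p : ℝ) - 1) ≤ 1 := by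
      intro p hp
      have h2 : (2 : ℝ) ≤ p := by exact_mod_cast (hP p (hS hp)).two_le
      constructor
      · apply div_nonneg zero_le_one; linarith
      · rw [div_le_one (by linarith)]; linarith
    exact ⟨prod_nonneg fun p hp => (h1 p hp).1, prod_le_one (fun p hp => (h1 p hp).1) fun p hp => (h1 p hp).2⟩
  have hexp : ∀ s : Finset ℕ, ∑ q ∈ s, wt R c q * gq P q =
      ∑ S ∈ P.powerset, tS S * ∑ e ∈ Icc 1 R, ∑ a ∈ range e, c e a *
        ((s.filter (fun q => q % e = a ∧ (∏ p ∈ S, p) ∣ q)).card : ℝ) := by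
    intro s
    have h1 : ∀ q ∈ s, wt R c q * gq P q = ∑ S ∈ P.powerset, tS S * ∑ e ∈ Icc 1 R, ∑ a ∈ range e,
        c e a * (if q % e = a ∧ (∏ p ∈ S, p) ∣ q then 1 else 0) := by
      intro q _
      rw [gq_expand hP q, mul_sum]
      apply sum_congr rfl
      intro S _
      by_cases h2 : (∏ p ∈ S, p) ∣ q
      · rw [if_pos h2, wt_eq, mul_comm]
        congr 1
        apply sum_congr rfl
        intro e _
        apply sum_congr rfl
        intro a _
        by_cases h3 : q % e = a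
        · rw [if_pos h3, if_pos ⟨h3, h2⟩]
        · rw [if_neg h3, if_neg (fun h => h3 h.1)]
      · rw [if_neg h2, mul_zero]
        symm
        apply mul_eq_zero_of_right
        apply sum_eq_zero
        intro e _
        apply sum_eq_zero
        intro a _
        rw [if_neg (fun h => h2 h.2), mul_zero]
    rw [sum_congr rfl h1, sum_comm]
    apply sum_congr rfl
    intro S _
    rw [← mul_sum, sum_comm]
    congr 1
    apply sum_congr rfl
    intro e _
    rw [sum_comm]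
    apply sum_congr rfl
    intro a _
    rw [← mul_sum, card_filter]
    push_cast
    rfl
  rw [hexp, hexp, mul_sum, ← sum_sub_distrib]
  refine (abs_sum_le_sum_abs _ _).trans ?_
  have hkey : ∀ S ∈ P.powerset, |tS S * ∑ e ∈ Icc 1 R, ∑ a ∈ range e, c e a *
        (((Ioc A B).filter (fun q => q % e = a ∧ (∏ p ∈ S, p) ∣ q)).card : ℝ) -
      ((B : ℝ) - A) / N * (tS S * ∑ e ∈ Icc 1 R, ∑ a ∈ range e, c e a *
        (((range N).filter (fun q => q % e = a ∧ (∏ p ∈ S, p) ∣ q)).card : ℝ))| ≤ ∑ e ∈ Icc 1 R, ss c e := by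
    intro S hS
    have hSP : S ⊆ P := mem_powerset.1 hS
    have hd0 : 0 < ∏ p ∈ S, p := prod_pos fun p hp => (hP p (hSP hp)).pos
    have hdN' : (∏ p ∈ S, p) ∣ N :=
      Finset.prod_primes_dvd _ (fun p hp => (hP p (hSP hp)).prime) fun p hp => hPN p (hSP hp)
    have e1 : tS S * ∑ e ∈ Icc 1 R, ∑ a ∈ range e, c e a *
        (((Ioc A B).filter (fun q => q % e = a ∧ (∏ p ∈ S, p) ∣ q)).card : ℝ) -
      ((B : ℝ) - A) / N * (tS S * ∑ e ∈ Icc 1 R, ∑ a ∈ range e, c e a *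
        (((range N).filter (fun q => q % e = a ∧ (∏ p ∈ S, p) ∣ q)).card : ℝ)) =
      tS S * ∑ e ∈ Icc 1 R, ∑ a ∈ range e, c e a *
        ((((Ioc A B).filter (fun q => q % e = a ∧ (∏ p ∈ S, p) ∣ q)).card : ℝ) - ((B : ℝ) - A) / N *
          (((range N).filter (fun q => q % e = a ∧ (∏ p ∈ S, p) ∣ q)).card : ℝ)) := by
      rw [mul_left_comm, ← mul_sub, mul_sum (s := Icc 1 R), ← sum_sub_distrib]
      congr 1
      apply sum_congr rfl
      intro e _
      rw [mul_sum, ← sum_sub_distrib]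
      apply sum_congr rfl
      intro a _
      ring
    rw [e1, abs_mul, abs_of_nonneg (ht S hS).1]
    have h2 : |∑ e ∈ Icc 1 R, ∑ a ∈ range e, c e a *
        ((((Ioc A B).filter (fun q => q % e = a ∧ (∏ p ∈ S, p) ∣ q)).card : ℝ) - ((B : ℝ) - A) / N *
          (((range N).filter (fun q => q % e = a ∧ (∏ p ∈ S, p) ∣ q)).card : ℝ))| ≤ ∑ e ∈ Icc 1 R, ss c e := by
      refine (abs_sum_le_sum_abs _ _).trans (sum_le_sum ?_)
      intro e he
      have he1 := (mem_Icc.1 he).1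
      refine (abs_sum_le_sum_abs _ _).trans ?_
      unfold ss
      apply sum_le_sum
      intro a _
      rw [abs_mul]
      calc |c e a| * _ ≤ |c e a| * 1 := mul_le_mul_of_nonneg_left
            (cnt2 e _ a N A B (by omega) hd0 (hdN e he) hdN' hN hAB) (abs_nonneg _)
        _ = |c e a| := mul_one _
    calc tS S * _ ≤ 1 * ∑ e ∈ Icc 1 R, ss c e := mul_le_mul (ht S hS).2 h2 (abs_nonneg _) zero_le_one
      _ = _ := one_mul _
  refine (sum_le_sum hkey).trans ?_
  rw [sum_const, card_powerset, nsmul_eq_mul]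
  push_cast
  exact le_rfl

/-- products over a period -/
lemma perprod {P : Finset ℕ} (hP : ∀ p ∈ P, p.Prime) (N : ℕ) (hN : 0 < N) (hPN : ∀ p ∈ P, p ∣ N) (f : ℕ → ℝ) :
    ∑ q ∈ range N, ∏ p ∈ P, (1 + (if p ∣ q then f p else 0)) = N * ∏ p ∈ P, (1 + f p / p) := by
  classical
  have h1 : ∀ q ∈ range N, ∏ p ∈ P, (1 + (if p ∣ q then f p else 0)) =
      ∑ S ∈ P.powerset, (∏ p ∈ S, f p) * (if (∏ p ∈ S, p) ∣ q then 1 else 0) := by
    intro q _
    rw [prod_one_add]
    apply sum_congr rfl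
    intro S hS
    rw [mem_powerset] at hS
    by_cases h2 : (∏ p ∈ S, p) ∣ q
    · rw [if_pos h2, mul_one]
      apply prod_congr rfl
      intro p hp
      rw [if_pos ((dvd_prod_of_mem (fun x : ℕ => x) hp).trans h2)]
    · rw [if_neg h2, mul_zero]
      have h3 : ∃ p ∈ S, ¬ p ∣ q := by
        by_contra h4
        push Not at h4
        exact h2 (Finset.prod_primes_dvd _ (fun p hp => (hP p (hS hp)).prime) h4)
      obtain ⟨p, hp, hpq⟩ := h3
      apply prod_eq_zero hp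
      rw [if_neg hpq]
  rw [sum_congr rfl h1, sum_comm, prod_one_add, mul_sum]
  apply sum_congr rfl
  intro S hS
  have hSP : S ⊆ P := mem_powerset.1 hS
  have hd0 : 0 < ∏ p ∈ S, p := prod_pos fun p hp => (hP p (hSP hp)).pos
  have hdN : (∏ p ∈ S, p) ∣ N :=
    Finset.prod_primes_dvd _ (fun p hp => (hP p (hSP hp)).prime) fun p hp => hPN p (hSP hp)
  rw [← mul_sum]
  have h2 : ∑ q ∈ range N, (if (∏ p ∈ S, p) ∣ q then (1 : ℝ) else 0) = N / (∏ p ∈ S, p : ℕ) := by
    have h3 := cnt_class N (∏ p ∈ S, p) 0 hd0 hd0 hdN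
    have h4 : (range N).filter (fun q => q % (∏ p ∈ S, p) = 0) = (range N).filter (fun q => (∏ p ∈ S, p) ∣ q) := by
      apply filter_congr
      intro q _
      exact (Nat.dvd_iff_mod_eq_zero).symm
    rw [h4] at h3
    rw [← Nat.cast_div hdN (by exact_mod_cast hd0.ne'), ← h3, card_filter]
    push_cast
    rfl
  rw [h2, prod_div_distrib]
  push_cast
  have : (∏ p ∈ S, (p : ℝ)) ≠ 0 := by
    apply prod_ne_zero_iff.2
    intro p hp
    exact_mod_cast (hP p (hSP hp)).ne_zero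
  field_simp

end Pool.Agent.Y829.EH
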