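import Pool.Agent.Y829.EH5

/-! The primes beyond `L / 8` hardly change the local factor. -/

set_option autoImplicit false

namespace Pool.Agent.Y829.EH

open Finset Filter Topology Pool.Agent.Y829 Pool.Agent.Y829.RP

/-- exponential moment of the reciprocal sum of the large prime divisors -/
lemma expdiv {P : Finset ℕ} (hP : ∀ p ∈ P, p.Prime) (T : ℝ) (hT : 1 ≤ T) (hPT : ∀ p ∈ P, T < p) (N : ℕ) (hN : 0 < N)
    (hPN : ∀ p ∈ P, p ∣ N) :
    ∑ q ∈ range N, Real.exp (T * ∑ p ∈ P.filter (fun p => p ∣ q), 1 / (p : ℝ)) ≤ N * Real.exp 4 := by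
  classical
  have hT0 : 0 < T := by linarith
  have h1 : ∀ q ∈ range N, Real.exp (T * ∑ p ∈ P.filter (fun p => p ∣ q), 1 / (p : ℝ)) =
      ∏ p ∈ P, (1 + (if p ∣ q then (Real.exp (T / p) - 1) else 0)) := by
    intro q _
    rw [mul_sum, Real.exp_sum, prod_filter]
    apply prod_congr rfl
    intro p _
    split_ifs
    · rw [mul_one_div]; ring
    · ring
  rw [sum_congr rfl h1, perprod hP N hN hPN (fun p => Real.exp (T / p) - 1)]
  apply mul_le_mul_of_nonneg_left _ (Nat.cast_nonneg N)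
  have h2 : ∏ p ∈ P, (1 + (Real.exp (T / p) - 1) / p) ≤ ∏ p ∈ P, Real.exp (2 * T * (1 / (p : ℝ) ^ 2)) := by
    apply Finset.prod_le_prod
    · intro p hp
      have : 1 ≤ Real.exp (T / p) := Real.one_le_exp (by positivity)
      have : 0 ≤ (Real.exp (T / p) - 1) / p := div_nonneg (by linarith) (Nat.cast_nonneg _)
      linarith
    · intro p hp
      have hp0 : (0 : ℝ) < p := by exact_mod_cast (hP p hp).pos
      have h3 : T / p ≤ 1 := by rw [div_le_one hp0]; exact (hPT p hp).le
      have h4 : 0 ≤ T / p := by positivity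
      have h5 := (abs_le.1 (Real.abs_exp_sub_one_sub_id_le (x := T / p) (by rw [abs_of_nonneg h4]; exact h3))).2
      have h6 : (T / p) ^ 2 ≤ T / p := by nlinarith
      have h7 : (Real.exp (T / p) - 1) / p ≤ 2 * T * (1 / (p : ℝ) ^ 2) := by
        have h8 : Real.exp (T / p) - 1 ≤ 2 * (T / p) := by linarith
        calc (Real.exp (T / p) - 1) / p ≤ 2 * (T / p) / p := div_le_div_of_nonneg_right h8 hp0.le
          _ = _ := by field_simp
      have h8 := Real.add_one_le_exp (2 * T * (1 / (p : ℝ) ^ 2))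
      linarith
  refine h2.trans ?_
  rw [← Real.exp_sum, ← mul_sum]
  apply Real.exp_le_exp.2
  have h3 := sum_sq_inv P T hT0 hPT
  have h4 := mul_le_mul_of_nonneg_left h3 (show (0 : ℝ) ≤ 2 * T by linarith)
  have h5 : 2 * T * (2 / T) = 4 := by field_simp; norm_num
  linarith

lemma gq_le_exp {P : Finset ℕ} (hP : ∀ p ∈ P, p.Prime) (q : ℕ) :
    gq P q ≤ Real.exp (2 * ∑ p ∈ P.filter (fun p => p ∣ q), 1 / (p : ℝ)) := by
  classical
  rw [mul_sum, Real.exp_sum, prod_filter]
  unfold gq
  apply Finset.prod_le_prod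
  · intro p hp
    have := fac_pos (hP p hp)
    split_ifs <;> positivity
  · intro p hp
    split_ifs
    · have h1 := fac_pos (hP p hp)
      have h2 : (2 : ℝ) ≤ p := by exact_mod_cast (hP p hp).two_le
      rw [inv_le_comm₀ h1 (Real.exp_pos _), ← Real.exp_neg]
      have h3 : Real.exp (-(2 * (1 / (p : ℝ)))) = (Real.exp (2 * (1 / (p : ℝ))))⁻¹ := Real.exp_neg _
      rw [h3]
      have h4 := Real.add_one_le_exp (2 * (1 / (p : ℝ)))
      rw [inv_le_comm₀ (Real.exp_pos _) h1]
      refine le_trans ?_ h4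
      rw [inv_le_comm₀ h1 (by positivity), ← one_div, div_le_iff₀ (by positivity)]
      have h5 : (1 / (p : ℝ)) ≤ 1 / 2 := one_div_le_one_div_of_le (by norm_num) h2
      have h6 : 0 < 1 / (p : ℝ) := by positivity
      nlinarith
    · exact le_rfl

/-- the primes between `y` and `T` -/
lemma midsum {P : Finset ℕ} (hP : ∀ p ∈ P, p.Prime) (y T : ℝ) (hy : 1 < y) (hT : 0 ≤ T) (h : ∀ p ∈ P, y < p ∧ (p : ℝ) ≤ T) :
    ∑ p ∈ P, 1 / (p : ℝ) ≤ 2 * T / (y * Real.log y) := by
  classical
  have hy0 : 0 < y := by linarith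
  have hly : 0 < Real.log y := Real.log_pos hy
  have h1 : (P.card : ℝ) * Real.log y ≤ 2 * T := by
    have h2 : y ^ P.card ≤ ∏ p ∈ P, (p : ℝ) := by
      rw [← prod_const]
      exact Finset.prod_le_prod (fun p _ => hy0.le) fun p hp => (h p hp).1.le
    have h3 : ∏ p ∈ P, (p : ℝ) ≤ (4 : ℝ) ^ ⌊T⌋₊ := by
      have h4 : ∏ p ∈ P, p ≤ primorial ⌊T⌋₊ := by
        unfold primorial
        apply prod_le_prod_of_subset_of_one_le'
        · intro p hp
          rw [mem_filter, mem_range]
          refine ⟨?_, hP p hp⟩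
          have := Nat.le_floor (h p hp).2
          omega
        · intro p hp _
          exact (mem_filter.1 hp).2.one_lt.le
      have h5 : ∏ p ∈ P, p ≤ 4 ^ ⌊T⌋₊ := h4.trans (primorial_le_four_pow _)
      have h6 : ((∏ p ∈ P, p : ℕ) : ℝ) ≤ ((4 ^ ⌊T⌋₊ : ℕ) : ℝ) := Nat.cast_le.2 h5
      rw [Nat.cast_prod, Nat.cast_pow] at h6
      exact h6
    have h4 := Real.log_le_log (by positivity) (h2.trans h3)
    rw [Real.log_pow, Real.log_pow] at h4
    have h5 : Real.log 4 ≤ 2 := by
      have h6 : Real.log 4 = 2 * Real.log 2 := by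
        rw [show (4 : ℝ) = 2 ^ 2 by norm_num, Real.log_pow]; norm_num
      rw [h6]
      have := Real.log_two_lt_d9
      linarith
    have h6 : (⌊T⌋₊ : ℝ) ≤ T := Nat.floor_le hT
    have h7 : 0 ≤ Real.log 4 := Real.log_nonneg (by norm_num)
    have h8 : (⌊T⌋₊ : ℝ) * Real.log 4 ≤ T * 2 := mul_le_mul h6 h5 h7 hT
    linarith
  have h2 : ∑ p ∈ P, 1 / (p : ℝ) ≤ P.card * (1 / y) := by
    rw [← nsmul_eq_mul, ← sum_const]
    exact sum_le_sum fun p hp => one_div_le_one_div_of_le hy0 (h p hp).1.le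
  refine h2.trans ?_
  rw [mul_one_div, div_le_div_iff₀ hy0 (by positivity)]
  nlinarith

/-- the decomposition of the local factor -/
lemma gq_split {P : Finset ℕ} (hP : ∀ p ∈ P, p.Prime) (y T κ δ : ℝ) (hyT : y ≤ T) (q : ℕ)
    (hmid : ∑ p ∈ P.filter (fun p : ℕ => y < (p : ℝ) ∧ (p : ℝ) ≤ T), 1 / (p : ℝ) ≤ κ)
    (hlarge : ∑ p ∈ (P.filter (fun p : ℕ => T < (p : ℝ))).filter (fun p => p ∣ q), 1 / (p : ℝ) ≤ δ) :
    gq P q ≤ Real.exp (2 * κ + 2 * δ) * gq (P.filter (fun p : ℕ => (p : ℝ) ≤ y)) q := by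
  classical
  set Py := P.filter (fun p : ℕ => (p : ℝ) ≤ y) with hPy
  set Pm := P.filter (fun p : ℕ => y < (p : ℝ) ∧ (p : ℝ) ≤ T) with hPm
  set PT := P.filter (fun p : ℕ => T < (p : ℝ)) with hPT
  have h1 : Disjoint Py (Pm ∪ PT) := by
    rw [disjoint_left]
    intro p hp hp'
    have h1 := (mem_filter.1 hp).2
    rcases mem_union.1 hp' with h | h
    · have h2 := (mem_filter.1 h).2
      linarith [h2.1]
    · have h2 := (mem_filter.1 h).2
      linarith
  have h2 : Disjoint Pm PT := by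
    rw [disjoint_left]
    intro p hp hp'
    have h1 := (mem_filter.1 hp).2
    have h2 := (mem_filter.1 hp').2
    linarith [h1.2]
  have h3 : Py ∪ (Pm ∪ PT) = P := by
    ext p
    rw [mem_union, mem_union, mem_filter, mem_filter, mem_filter]
    constructor
    · rintro (h | h | h) <;> exact h.1
    · intro hp
      rcases le_or_gt (p : ℝ) y with h4 | h4
      · exact Or.inl ⟨hp, h4⟩
      · rcases le_or_gt (p : ℝ) T with h5 | h5
        · exact Or.inr (Or.inl ⟨hp, h4, h5⟩)
        · exact Or.inr (Or.inr ⟨hp, h5⟩)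
  have hPyp : ∀ p ∈ Py, p.Prime := fun p hp => hP p (mem_filter.1 hp).1
  have hPmp : ∀ p ∈ Pm, p.Prime := fun p hp => hP p (mem_filter.1 hp).1
  have hPTp : ∀ p ∈ PT, p.Prime := fun p hp => hP p (mem_filter.1 hp).1
  have h4 : gq P q = gq Py q * (gq Pm q * gq PT q) := by
    rw [← gq_union h2, ← gq_union h1, h3]
  have h5 : gq Pm q ≤ Real.exp (2 * κ) := by
    refine (gq_le_exp hPmp q).trans (Real.exp_le_exp.2 ?_)
    have h6 : ∑ p ∈ Pm.filter (fun p => p ∣ q), 1 / (p : ℝ) ≤ ∑ p ∈ Pm, 1 / (p : ℝ) :=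
      sum_le_sum_of_subset_of_nonneg (filter_subset _ _) fun p _ _ => by positivity
    linarith
  have h6 : gq PT q ≤ Real.exp (2 * δ) := by
    refine (gq_le_exp hPTp q).trans (Real.exp_le_exp.2 ?_)
    linarith
  have h7 := gq_ge_one hPyp q
  have h8 := gq_ge_one hPmp q
  have h9 := gq_ge_one hPTp q
  rw [h4, Real.exp_add, mul_comm]
  apply mul_le_mul_of_nonneg_right _ (by linarith)
  exact mul_le_mul h5 h6 (by linarith) (Real.exp_pos _).le

/-- **the weighted mean of the local factor** -/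
theorem mod2 (ε : ℝ) (hε : 0 < ε) (hε1 : ε ≤ 1) : ∃ L0 : ℝ, 1 ≤ L0 ∧ ∀ L : ℝ, L0 ≤ L →
    (∀ (P : Finset ℕ) (R N : ℕ) (w : ℕ → ℝ), (∀ p ∈ P, p.Prime ∧ Real.log p ≤ L ∧ p ∣ N) → 1 ≤ R → Real.log R ≤ L →
      0 < N → (∀ d ∈ Icc 1 R, d ∣ N) → (∀ q, 0 ≤ w q) → Lev R w →
      ∑ q ∈ range N, w q * gq P q ≤ (1 + ε) * ∑ q ∈ range N, w q * gq (P.filter (fun p : ℕ => (p : ℝ) ≤ L / 8)) q) ∧
    (∀ q : ℕ, 0 < q → Real.log q ≤ 2 * L → (q : ℝ) / (Nat.totient q : ℝ) ≤
      (1 + ε) * gq (q.primeFactors.filter (fun p : ℕ => (p : ℝ) ≤ L / 8)) q) := by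
  classical
  obtain ⟨cm, hcm, hmert⟩ := mert
  set ε' : ℝ := ε / 16 with hε'
  have hε'0 : 0 < ε' := by positivity
  -- `L` large
  have E1 : ∀ᶠ L : ℝ in atTop, 2 * (4 / ε') * 8 / ε' ≤ Real.log (L / 8) := by
    have h1 : Tendsto (fun L : ℝ => Real.log (L / 8)) atTop atTop :=
      Real.tendsto_log_atTop.comp (tendsto_id.atTop_div_const (by norm_num))
    exact h1.eventually_ge_atTop _
  have E2 : ∀ᶠ L : ℝ in atTop, L * Real.exp 4 / cm * Real.exp (-2 * L) ≤ ε / 4 := by
    have h1 : Tendsto (fun L : ℝ => L ^ 1 * Real.exp (-2 * L)) atTop (𝓝 0) := by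
      have h2 := Real.tendsto_pow_mul_exp_neg_atTop_nhds_zero 1
      have h3 : Tendsto (fun L : ℝ => 2 * L) atTop atTop := tendsto_id.const_mul_atTop (by norm_num)
      have h4 := (h2.comp h3).const_mul (1 / 2)
      rw [mul_zero] at h4
      refine h4.congr fun L => ?_
      simp only [Function.comp]
      have : -(2 * L) = -2 * L := by ring
      rw [this]
      ring
    have h2 := h1.const_mul (Real.exp 4 / cm)
    rw [mul_zero] at h2
    have h3 := h2.eventually_le_const (show (0 : ℝ) < ε / 4 by positivity)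
    filter_upwards [h3] with L hL
    calc L * Real.exp 4 / cm * Real.exp (-2 * L) = Real.exp 4 / cm * (L ^ 1 * Real.exp (-2 * L)) := by ring
      _ ≤ _ := hL
  obtain ⟨L1, hL1⟩ := (E1.and E2).exists_forall_of_atTop
  refine ⟨max L1 16, by have := le_max_right L1 (16 : ℝ); linarith, ?_⟩
  intro L hL
  obtain ⟨ev1, ev2⟩ := hL1 L ((le_max_left _ _).trans hL)
  have hL16 : 16 ≤ L := (le_max_right _ _).trans hL
  have hL0 : 0 < L := by linarith
  set y : ℝ := L / 8 with hy
  set T : ℝ := 4 * L / ε' with hT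
  have hy1 : 1 < y := by rw [hy]; linarith
  have hy0 : 0 < y := by linarith
  have hε'1 : ε' ≤ 1 / 16 := by rw [hε']; linarith
  have hT4 : 4 * L ≤ T := by
    rw [hT, le_div_iff₀ hε'0]
    nlinarith
  have hyT : y ≤ T := by linarith
  have hT1 : 1 ≤ T := by linarith
  have hTε : T * ε' = 4 * L := by rw [hT]; field_simp
  have hly : 0 < Real.log y := Real.log_pos hy1
  have hmid : ∀ P : Finset ℕ, (∀ p ∈ P, p.Prime) →
      ∑ p ∈ P.filter (fun p : ℕ => y < (p : ℝ) ∧ (p : ℝ) ≤ T), 1 / (p : ℝ) ≤ ε' := by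
    intro P hP
    refine (midsum (fun p hp => hP p (mem_filter.1 hp).1) y T hy1 (by linarith) (fun p hp => (mem_filter.1 hp).2)).trans ?_
    rw [div_le_iff₀ (by positivity)]
    have h1 : 2 * T = ε' * (y * (2 * (4 / ε') * 8 / ε')) := by
      rw [hT, hy]
      field_simp
    rw [h1]
    apply mul_le_mul_of_nonneg_left _ hε'0.le
    exact mul_le_mul_of_nonneg_left ev1 hy0.le
  have hexp : Real.exp (2 * ε' + 2 * ε') ≤ 1 + ε / 2 := by
    have h1 : 2 * ε' + 2 * ε' = ε / 4 := by rw [hε']; ring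
    rw [h1]
    have h2 := (abs_le.1 (Real.abs_exp_sub_one_sub_id_le (x := ε / 4) (by rw [abs_of_nonneg (by linarith)]; linarith))).2
    nlinarith
  constructor
  · intro P R N w hP hR hlogR hN hdN hw0 hw
    have hPp : ∀ p ∈ P, p.Prime := fun p hp => (hP p hp).1
    have hNr : (0 : ℝ) < N := by exact_mod_cast hN
    have hR0 : (0 : ℝ) < R := by exact_mod_cast hR
    set PT := P.filter (fun p : ℕ => T < (p : ℝ)) with hPT
    set s : ℕ → ℝ := fun q => ∑ p ∈ PT.filter (fun p => p ∣ q), 1 / (p : ℝ) with hs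
    set E := (range N).filter (fun q => ε' < s q) with hE
    set W : ℝ := ∑ q ∈ range N, w q with hW
    have hW0 : 0 ≤ W := sum_nonneg fun q _ => hw0 q
    have hcE : (E.card : ℝ) * Real.exp (4 * L) ≤ N * Real.exp 4 := by
      refine le_trans ?_ (expdiv (P := PT) (fun p hp => hPp p (mem_filter.1 hp).1) T hT1
        (fun p hp => (mem_filter.1 hp).2) N hN (fun p hp => (hP p (mem_filter.1 hp).1).2.2))
      rw [← nsmul_eq_mul, ← sum_const]
      refine le_trans (sum_le_sum ?_) (sum_le_sum_of_subset_of_nonneg (filter_subset _ _) fun j _ _ => (Real.exp_pos _).le)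
      intro q hq
      apply Real.exp_le_exp.2
      rw [← hTε]
      exact mul_le_mul_of_nonneg_left (mem_filter.1 hq).2.le (by linarith)
    have hwE : ∑ q ∈ E, w q ≤ Real.exp 4 * Real.exp (-2 * L) * W := by
      have h1 : ∀ q ∈ E, w q ≤ (R : ℝ) ^ 2 * W / N := by
        intro q _
        rw [le_div_iff₀ hNr, mul_comm]
        exact supb N R hN hdN w hw0 hw q
      refine (sum_le_sum h1).trans ?_
      rw [sum_const, nsmul_eq_mul, ← mul_div_assoc, div_le_iff₀ hNr]
      have h2 : (R : ℝ) ^ 2 ≤ Real.exp (2 * L) := by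
        have h3 : (R : ℝ) ≤ Real.exp L := (Real.log_le_iff_le_exp hR0).1 hlogR
        calc (R : ℝ) ^ 2 ≤ (Real.exp L) ^ 2 := pow_le_pow_left₀ hR0.le h3 2
          _ = Real.exp (2 * L) := by rw [← Real.exp_nat_mul]; norm_num
      have h3 : (E.card : ℝ) * (R : ℝ) ^ 2 ≤ Real.exp 4 * Real.exp (-2 * L) * N := by
        calc (E.card : ℝ) * (R : ℝ) ^ 2 ≤ E.card * Real.exp (2 * L) :=
              mul_le_mul_of_nonneg_left h2 (Nat.cast_nonneg _)
          _ = (E.card * Real.exp (4 * L)) * Real.exp (-2 * L) := by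
              rw [mul_assoc, ← Real.exp_add]; congr 2; ring
          _ ≤ (N * Real.exp 4) * Real.exp (-2 * L) := mul_le_mul_of_nonneg_right hcE (Real.exp_pos _).le
          _ = _ := by ring
      have h4 := mul_le_mul_of_nonneg_right h3 hW0
      linarith
    have hgle : ∀ q, gq P q ≤ L / cm := by
      intro q
      have h1 := VP_gq_le hPp (Subset.refl P) q
      have h2 : cm / L ≤ V P := by
        set X : ℕ := ⌊Real.exp L⌋₊ with hX
        have hX2 : 2 ≤ X := by
          rw [hX]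
          apply Nat.le_floor
          have h1 := Real.add_one_le_exp L
          push_cast
          linarith
        have h3 : ∀ p ∈ P, p.Prime ∧ p ≤ X := by
          intro p hp
          refine ⟨hPp p hp, Nat.le_floor ?_⟩
          have h1 : (0 : ℝ) < p := by exact_mod_cast (hPp p hp).pos
          exact (Real.log_le_iff_le_exp h1).1 (hP p hp).2.1
        have hlogX0 : 0 < Real.log X := Real.log_pos (by exact_mod_cast (by omega : 1 < X))
        have hlogX : Real.log X ≤ L := by
          have h1 : (0 : ℝ) < X := by exact_mod_cast (by omega : 0 < X)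
          rw [Real.log_le_iff_le_exp h1]
          exact Nat.floor_le (Real.exp_pos _).le
        exact (div_le_div_of_nonneg_left hcm.le hlogX0 hlogX).trans (hmert X hX2 P h3)
      have h3 : 0 ≤ gq P q := le_trans zero_le_one (gq_ge_one hPp q)
      rw [le_div_iff₀ hcm]
      have h4 := mul_le_mul_of_nonneg_right h2 h3
      have h5 : cm / L * gq P q ≤ 1 := h4.trans h1
      rw [div_mul_eq_mul_div, div_le_one hL0] at h5
      linarith
    set Py := P.filter (fun p : ℕ => (p : ℝ) ≤ y) with hPy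
    have hPyp : ∀ p ∈ Py, p.Prime := fun p hp => hPp p (mem_filter.1 hp).1
    have h1 : ∀ q ∈ range N, w q * gq P q ≤ (1 + ε / 2) * (w q * gq Py q) + (if q ∈ E then w q * (L / cm) else 0) := by
      intro q hq
      have hw1 := hw0 q
      have hg1 := gq_ge_one hPyp q
      by_cases hqE : q ∈ E
      · rw [if_pos hqE]
        have h2 := mul_le_mul_of_nonneg_left (hgle q) hw1
        have h3 : 0 ≤ (1 + ε / 2) * (w q * gq Py q) := by positivity
        linarith
      · rw [if_neg hqE, add_zero]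
        have h2 : s q ≤ ε' := by
          by_contra h3
          push Not at h3
          exact hqE (mem_filter.2 ⟨hq, h3⟩)
        have h3 := gq_split hPp y T ε' ε' hyT q (hmid P hPp) h2
        have h4 : gq P q ≤ (1 + ε / 2) * gq Py q := h3.trans (mul_le_mul_of_nonneg_right hexp (by linarith))
        have h5 := mul_le_mul_of_nonneg_left h4 hw1
        linarith
    refine (sum_le_sum h1).trans ?_
    rw [sum_add_distrib, ← mul_sum, ← sum_filter]
    have h5 : (range N).filter (fun i => i ∈ E) = E := by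
      ext i
      rw [mem_filter]
      exact ⟨fun h => h.2, fun h => ⟨(mem_filter.1 h).1, h⟩⟩
    rw [h5, ← sum_mul]
    set G : ℝ := ∑ q ∈ range N, w q * gq Py q with hG
    have h6 : W ≤ G := by
      rw [hW, hG]
      apply sum_le_sum
      intro q _
      exact le_mul_of_one_le_right (hw0 q) (gq_ge_one hPyp q)
    have h7 : (∑ q ∈ E, w q) * (L / cm) ≤ ε / 4 * W := by
      have h8 := mul_le_mul_of_nonneg_right hwE (show 0 ≤ L / cm by positivity)
      refine h8.trans ?_
      have h9 := mul_le_mul_of_nonneg_right ev2 hW0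
      calc Real.exp 4 * Real.exp (-2 * L) * W * (L / cm) = L * Real.exp 4 / cm * Real.exp (-2 * L) * W := by ring
        _ ≤ _ := h9
    have h8 := mul_le_mul_of_nonneg_left h6 (show (0 : ℝ) ≤ ε / 4 by positivity)
    nlinarith
  · intro q hq hlogq
    set P := q.primeFactors with hPd
    have hPp : ∀ p ∈ P, p.Prime := fun p hp => Nat.prime_of_mem_primeFactors hp
    have h1 : (q : ℝ) / (Nat.totient q : ℝ) = gq P q := by
      have h2 := V_tot hq
      have h3 : V P * gq P q = 1 := by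
        unfold V gq
        rw [← prod_mul_distrib]
        apply prod_eq_one
        intro p hp
        rw [if_pos (Nat.dvd_of_mem_primeFactors hp), mul_inv_cancel₀ (fac_pos (hPp p hp)).ne']
      have h4 : (q : ℝ) ≠ 0 := by exact_mod_cast hq.ne'
      have h5 : (Nat.totient q : ℝ) ≠ 0 := by exact_mod_cast (Nat.totient_pos.2 hq).ne'
      rw [← hPd] at h2
      rw [h2] at h3
      field_simp at h3
      rw [div_eq_iff h5]
      linarith
    rw [h1]
    have h2 : ∑ p ∈ (P.filter (fun p : ℕ => T < (p : ℝ))).filter (fun p => p ∣ q), 1 / (p : ℝ) ≤ ε' := by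
      have h3 : ∑ p ∈ (P.filter (fun p : ℕ => T < (p : ℝ))).filter (fun p => p ∣ q), 1 / (p : ℝ) ≤
          ((P.filter (fun p : ℕ => T < (p : ℝ))).filter (fun p => p ∣ q)).card * (1 / T) := by
        rw [← nsmul_eq_mul, ← sum_const]
        apply sum_le_sum
        intro p hp
        exact one_div_le_one_div_of_le (by linarith) (mem_filter.1 (mem_filter.1 hp).1).2.le
      refine h3.trans ?_
      rw [mul_one_div, div_le_iff₀ (by linarith)]
      have h4 : (((P.filter (fun p : ℕ => T < (p : ℝ))).filter (fun p => p ∣ q)).card : ℝ) ≤ P.card := by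
        exact_mod_cast card_le_card ((filter_subset _ _).trans (filter_subset _ _))
      have h5 : (2 : ℝ) ^ P.card ≤ q := by
        have h7 : 2 ^ q.primeFactors.card ≤ ∏ p ∈ q.primeFactors, p :=
          pow_card_le_prod _ _ _ fun p hp => (Nat.prime_of_mem_primeFactors hp).two_le
        exact_mod_cast h7.trans (Nat.le_of_dvd hq (Nat.prod_primeFactors_dvd q))
      have h6 := Real.log_le_log (by positivity) h5
      rw [Real.log_pow] at h6
      have h7 := Real.log_two_gt_d9
      have h8 : (0 : ℝ) ≤ P.card := Nat.cast_nonneg _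
      nlinarith
    have h3 := gq_split hPp y T ε' ε' hyT q (hmid P hPp) h2
    refine h3.trans ?_
    apply mul_le_mul_of_nonneg_right _ (le_trans zero_le_one (gq_ge_one (fun p hp => hPp p (mem_filter.1 hp).1) q))
    linarith

end Pool.Agent.Y829.EH
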