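import Pool.Agent.Y829.EH6

/-! The Bombieri-Vinogradov theorem for weighted moduli with a small cofactor. -/

set_option autoImplicit false

namespace Pool.Agent.Y829.EH

open Finset Filter Topology H343E Pool.Agent.TH423.SH.PSUa Pool.Agent.Y829 Pool.Agent.Y829.RP

/-- the main term of the cofactor `m` -/
noncomputable def Gm (R : ℕ) (c : ℕ → ℕ → ℝ) (l m : ℕ) : ℝ :=
  ∑ e ∈ Icc 1 R, ∑ a ∈ range e, (if (l + a * m).Coprime (e * m) then c e a / (Nat.totient (e * m) : ℝ) else 0)

lemma cnt_prm (A B l m e a : ℕ) (he : 0 < e) (hm : 0 < m) (ha : a < e) (heA : e ≤ A) (hAB : A ≤ B) :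
    (((Ioc A B).filter (fun q => q % e = a ∧ (l + q * m).Prime)).card : ℝ) =
      if (l + a * m).Coprime (e * m) then
        piAP (l + B * m) (e * m) ((l + a * m) % (e * m)) - piAP (l + A * m) (e * m) ((l + a * m) % (e * m)) else 0 := by
  have hem : 0 < e * m := Nat.mul_pos he hm
  have h1 : ((Ioc A B).filter (fun q => q % e = a ∧ (l + q * m).Prime)).card =
      ((Ioc (l + A * m) (l + B * m)).filter (fun p => p.Prime ∧ p ≡ (l + a * m) % (e * m) [MOD e * m])).card := by
    apply card_nbij' (fun q => l + q * m) (fun p => (p - l) / m)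
    · intro q hq
      rw [mem_coe, mem_filter, mem_Ioc] at hq
      rw [mem_coe, mem_filter, mem_Ioc]
      dsimp only
      obtain ⟨⟨h2, h3⟩, h4, h5⟩ := hq
      have h6 : A * m < q * m := Nat.mul_lt_mul_of_pos_right h2 hm
      have h7 : q * m ≤ B * m := Nat.mul_le_mul_right m h3
      refine ⟨by omega, h5, ?_⟩
      have h8 : q ≡ a [MOD e] := by
        show q % e = a % e
        rw [h4, Nat.mod_eq_of_lt ha]
      have h9 : q * m ≡ a * m [MOD e * m] := Nat.ModEq.mul_right' m h8
      exact (h9.add_left l).trans (Nat.mod_modEq _ _).symm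
    · intro p hp
      rw [mem_coe, mem_filter, mem_Ioc] at hp
      rw [mem_coe, mem_filter, mem_Ioc]
      dsimp only
      obtain ⟨⟨h2, h3⟩, h4, h5⟩ := hp
      have h5' : p ≡ l + a * m [MOD e * m] := h5.trans (Nat.mod_modEq _ _)
      have hlp : l ≤ p := by omega
      have h6 : m ∣ p - l := by
        have h7 : p ≡ l [MOD m] := by
          have h8 : p ≡ l + a * m [MOD m] := h5'.of_dvd (Dvd.intro_left e rfl)
          have h9 : l + a * m ≡ l [MOD m] := by
            show (l + a * m) % m = l % m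
            rw [Nat.add_mul_mod_self_right]
          exact h8.trans h9
        exact (Nat.modEq_iff_dvd' hlp).1 h7.symm
      obtain ⟨q, hq⟩ := h6
      have h7 : (p - l) / m = q := by rw [hq, Nat.mul_div_cancel_left _ hm]
      have h8 : p = l + q * m := by rw [mul_comm]; omega
      rw [h7]
      have h9 : A * m < q * m := by omega
      have h10 : q * m ≤ B * m := by omega
      refine ⟨⟨Nat.lt_of_mul_lt_mul_right h9, Nat.le_of_mul_le_mul_right h10 hm⟩, ?_, by rw [← h8]; exact h4⟩
      have h11 : l + q * m ≡ l + a * m [MOD e * m] := by rw [← h8]; exact h5'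
      have h12 : q * m ≡ a * m [MOD e * m] := Nat.ModEq.add_left_cancel' l h11
      have h13 : q ≡ a [MOD e] := Nat.ModEq.mul_right_cancel' hm.ne' h12
      have h14 : q % e = a % e := h13
      rw [h14, Nat.mod_eq_of_lt ha]
    · intro q _
      show (l + q * m - l) / m = q
      rw [Nat.add_sub_cancel_left, Nat.mul_div_cancel _ hm]
    · intro p hp
      rw [mem_coe, mem_filter, mem_Ioc] at hp
      obtain ⟨⟨h2, h3⟩, h4, h5⟩ := hp
      have h5' : p ≡ l + a * m [MOD e * m] := h5.trans (Nat.mod_modEq _ _)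
      have hlp : l ≤ p := by omega
      have h6 : m ∣ p - l := by
        have h7 : p ≡ l [MOD m] := by
          have h8 : p ≡ l + a * m [MOD m] := h5'.of_dvd (Dvd.intro_left e rfl)
          have h9 : l + a * m ≡ l [MOD m] := by
            show (l + a * m) % m = l % m
            rw [Nat.add_mul_mod_self_right]
          exact h8.trans h9
        exact (Nat.modEq_iff_dvd' hlp).1 h7.symm
      show l + (p - l) / m * m = p
      rw [Nat.div_mul_cancel h6]
      omega
  rw [h1]
  split_ifs with hc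
  · unfold piAP
    rw [eq_sub_iff_add_eq]
    have hABm : A * m ≤ B * m := Nat.mul_le_mul_right m hAB
    have h2 : (Icc 1 (l + B * m)).filter (fun p => p.Prime ∧ p ≡ (l + a * m) % (e * m) [MOD e * m]) =
        (Ioc (l + A * m) (l + B * m)).filter (fun p => p.Prime ∧ p ≡ (l + a * m) % (e * m) [MOD e * m]) ∪
        (Icc 1 (l + A * m)).filter (fun p => p.Prime ∧ p ≡ (l + a * m) % (e * m) [MOD e * m]) := by
      ext p
      simp only [mem_filter, mem_union, mem_Ioc, mem_Icc]
      constructor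
      · rintro ⟨h3, h4⟩
        by_cases h5 : p ≤ l + A * m
        · exact Or.inr ⟨⟨h3.1, h5⟩, h4⟩
        · exact Or.inl ⟨⟨by omega, h3.2⟩, h4⟩
      · rintro (⟨h3, h4⟩ | ⟨h3, h4⟩)
        · exact ⟨⟨by omega, h3.2⟩, h4⟩
        · exact ⟨⟨h3.1, by omega⟩, h4⟩
    have h3 : Disjoint ((Ioc (l + A * m) (l + B * m)).filter (fun p => p.Prime ∧ p ≡ (l + a * m) % (e * m) [MOD e * m]))
        ((Icc 1 (l + A * m)).filter (fun p => p.Prime ∧ p ≡ (l + a * m) % (e * m) [MOD e * m])) := by
      rw [disjoint_left]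
      intro p hp hp'
      rw [mem_filter, mem_Ioc] at hp
      rw [mem_filter, mem_Icc] at hp'
      omega
    rw [h2, card_union_of_disjoint h3]
    push_cast
    ring
  · have h2 : (Ioc (l + A * m) (l + B * m)).filter (fun p => p.Prime ∧ p ≡ (l + a * m) % (e * m) [MOD e * m]) = ∅ := by
      rw [filter_eq_empty_iff]
      rintro p hp ⟨hpp, hpm⟩
      rw [mem_Ioc] at hp
      rw [Nat.Prime.not_coprime_iff_dvd] at hc
      obtain ⟨r, hr, hra, hrd⟩ := hc
      have h3 : p ≡ l + a * m [MOD r] := (hpm.trans (Nat.mod_modEq _ _)).of_dvd hrd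
      have h4 : r ∣ p := (Nat.modEq_zero_iff_dvd).1 (h3.trans ((Nat.modEq_zero_iff_dvd).2 hra))
      have h5 : r = p := (Nat.prime_dvd_prime_iff_eq hr hpp).1 h4
      have h6 := Nat.le_of_dvd hem hrd
      have h7 : e * m ≤ A * m := Nat.mul_le_mul_right m heA
      omega
    rw [h2]
    simp

lemma summult (R m : ℕ) (hm : 0 < m) (F : ℕ → ℝ) (hF : ∀ k, ¬ m ∣ k → F k = 0) :
    ∑ k ∈ Icc 1 (R * m), F k = ∑ e ∈ Icc 1 R, F (e * m) := by
  have h1 : ∑ k ∈ Icc 1 (R * m), F k = ∑ k ∈ (Icc 1 (R * m)).filter (fun k => m ∣ k), F k := by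
    rw [sum_filter]
    apply sum_congr rfl
    intro k _
    split_ifs with h
    · rfl
    · exact hF k h
  rw [h1]
  symm
  apply sum_nbij' (fun e => e * m) (fun k => k / m)
  · intro e he
    rw [mem_Icc] at he
    rw [mem_filter, mem_Icc]
    exact ⟨⟨Nat.mul_pos he.1 hm, Nat.mul_le_mul_right m he.2⟩, Dvd.intro_left e rfl⟩
  · intro k hk
    rw [mem_filter, mem_Icc] at hk
    obtain ⟨⟨h2, h3⟩, e, rfl⟩ := hk
    rw [Nat.mul_div_cancel_left _ hm, mem_Icc]
    constructor
    · exact Nat.pos_of_mul_pos_left (by omega : 0 < m * e) |> fun h => h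
    · rw [mul_comm] at h3
      exact Nat.le_of_mul_le_mul_right h3 hm
  · intro e _
    exact Nat.mul_div_cancel _ hm
  · intro k hk
    rw [mem_filter] at hk
    exact Nat.div_mul_cancel hk.2
  · intro e _
    rfl

end Pool.Agent.Y829.EH
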