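import Pool.Agent.Y829.EH7

/-! The Bombieri-Vinogradov theorem for weighted moduli with a small cofactor; the model. -/

set_option autoImplicit false

namespace Pool.Agent.Y829.EH

open Finset Filter Topology H343E Pool.Agent.TH423.SH.PSUa Pool.Agent.Y829 Pool.Agent.Y829.RP

theorem bvm (K K' : ℕ) : ∃ B x0 : ℕ, ∀ x : ℕ, x0 ≤ x → ∀ Y R m l y : ℕ, 1 ≤ R → 1 ≤ m →
    x ≤ (l + Y * m) ^ 2 → l + Y * m ≤ x → Y ≤ y → y ≤ 2 * Y → (R : ℝ) ^ 2 * m * Real.log x ^ B ≤ Y →
    ∀ c : ℕ → ℕ → ℝ, ∑ d ∈ Icc 1 R, ss c d ^ 2 / d ≤ Real.log x ^ K →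
    |∑ q ∈ Ioc Y y, wt R c q * (if (l + q * m).Prime then 1 else 0) -
      (pi1 (l + y * m) - pi1 (l + Y * m)) * Gm R c l m| ≤ x / Real.log x ^ K' := by
  classical
  obtain ⟨B1, X1, hb⟩ := bvs (K + 1) (K' + 1)
  obtain ⟨x1, hx1⟩ := (log_tend.eventually_ge_atTop ((2 : ℝ) ^ (K + K' + 4))).exists_forall_of_atTop
  refine ⟨B1, max (max x1 3) (X1 ^ 2), ?_⟩
  intro x hx Y R m l y hR hm hxX hXx hYy hy hRm c hc
  have hL := hx1 x ((le_max_left _ _).trans ((le_max_left _ _).trans hx))
  have hx3 : 3 ≤ x := (le_max_right _ _).trans ((le_max_left _ _).trans hx)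
  set X : ℕ := l + Y * m with hX
  have hX1 : X1 ≤ X := by
    have h1 : X1 ^ 2 ≤ X ^ 2 := ((le_max_right _ _).trans hx).trans hxX
    exact (Nat.pow_le_pow_iff_left (by norm_num)).1 h1
  have hxr : (0 : ℝ) < x := by exact_mod_cast (by omega : 0 < x)
  have hX0 : 0 < X := by
    rcases Nat.eq_zero_or_pos X with h | h
    · rw [h] at hxX
      omega
    · exact h
  have hXr : (0 : ℝ) < X := by exact_mod_cast hX0
  set L := Real.log (x : ℝ) with hLd
  have h16 : (16 : ℝ) ≤ 2 ^ (K + K' + 4) := by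
    have : (2 : ℝ) ^ 4 ≤ 2 ^ (K + K' + 4) := pow_le_pow_right₀ (by norm_num) (by omega)
    norm_num at this ⊢
    linarith
  have hL16 : 16 ≤ L := h16.trans hL
  have hL0 : 0 < L := by linarith
  have hLX : Real.log X ≤ L := Real.log_le_log hXr (by exact_mod_cast hXx)
  have hLX2 : L ≤ 2 * Real.log X := by
    have h1 : (x : ℝ) ≤ (X : ℝ) ^ 2 := by exact_mod_cast hxX
    have h2 := Real.log_le_log hxr h1
    rw [Real.log_pow] at h2
    push_cast at h2
    linarith
  have hLX0 : 0 < Real.log X := by linarith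
  have hLX8 : 8 ≤ Real.log X := by linarith
  have hmr : (1 : ℝ) ≤ m := by exact_mod_cast hm
  have hRr : (1 : ℝ) ≤ R := by exact_mod_cast hR
  -- the level
  have hlev : ((R * m : ℕ) : ℝ) ^ 2 * Real.log X ^ B1 ≤ X := by
    have h1 : Real.log X ^ B1 ≤ L ^ B1 := pow_le_pow_left₀ hLX0.le hLX _
    push_cast
    calc ((R : ℝ) * m) ^ 2 * Real.log X ^ B1 ≤ ((R : ℝ) * m) ^ 2 * L ^ B1 :=
          mul_le_mul_of_nonneg_left h1 (by positivity)
      _ = ((R : ℝ) ^ 2 * m * L ^ B1) * m := by ring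
      _ ≤ Y * m := mul_le_mul_of_nonneg_right hRm (by linarith)
      _ ≤ X := by
        have h2 : Y * m ≤ X := by rw [hX]; omega
        exact_mod_cast h2
  have hRY : R ≤ Y := by
    have h1 : (R : ℝ) ≤ Y := by
      refine le_trans ?_ hRm
      have h2 : (1 : ℝ) ≤ L ^ B1 := one_le_pow₀ (by linarith)
      have h3 : (R : ℝ) ≤ (R : ℝ) ^ 2 := by nlinarith
      have h4 : (R : ℝ) ^ 2 ≤ (R : ℝ) ^ 2 * m := by nlinarith [sq_nonneg (R : ℝ)]
      have h5 : (R : ℝ) ^ 2 * m ≤ (R : ℝ) ^ 2 * m * L ^ B1 := le_mul_of_one_le_right (by positivity) h2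
      linarith
    exact_mod_cast h1
  -- the coefficients
  set c' : ℕ → ℕ → ℝ := fun k a => if m ∣ k ∧ a = 0 then ss c (k / m) else 0 with hc'
  have hss : ∀ k, 1 ≤ k → ss c' k = if m ∣ k then ss c (k / m) else 0 := by
    intro k hk
    have h1 : ss c' k = ∑ a ∈ range k, |c' k a| := rfl
    rw [h1, sum_eq_single 0]
    · rw [hc']
      dsimp only
      by_cases h2 : m ∣ k
      · rw [if_pos ⟨h2, rfl⟩, if_pos h2, abs_of_nonneg (ss_nonneg c _)]
      · rw [if_neg (fun h => h2 h.1), if_neg h2, abs_zero]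
    · intro a _ ha
      rw [hc']
      dsimp only
      rw [if_neg (fun h => ha h.2), abs_zero]
    · intro h
      exact absurd (mem_range.2 hk) h
  have hc1 : ∑ k ∈ Icc 1 (R * m), ss c' k ^ 2 / k ≤ Real.log X ^ (K + 1) := by
    have h1 : ∑ k ∈ Icc 1 (R * m), ss c' k ^ 2 / (k : ℝ) =
        ∑ k ∈ Icc 1 (R * m), (if m ∣ k then ss c (k / m) ^ 2 / (k : ℝ) else 0) := by
      apply sum_congr rfl
      intro k hk
      rw [hss k (mem_Icc.1 hk).1]
      split_ifs <;> simp
    rw [h1, summult R m hm (fun k => if m ∣ k then ss c (k / m) ^ 2 / (k : ℝ) else 0) (fun k hk => by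
      show (if m ∣ k then ss c (k / m) ^ 2 / (k : ℝ) else 0) = 0
      rw [if_neg hk])]
    have h2 : ∀ e ∈ Icc 1 R, (if m ∣ e * m then ss c (e * m / m) ^ 2 / ((e * m : ℕ) : ℝ) else 0) ≤ ss c e ^ 2 / e := by
      intro e he
      rw [if_pos (Dvd.intro_left e rfl), Nat.mul_div_cancel _ hm]
      have he1 : (1 : ℝ) ≤ e := by exact_mod_cast (mem_Icc.1 he).1
      apply div_le_div_of_nonneg_left (sq_nonneg _) (by linarith)
      push_cast
      nlinarith
    refine (sum_le_sum h2).trans (hc.trans ?_)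
    have h3 : L ^ K ≤ (2 * Real.log X) ^ K := pow_le_pow_left₀ hL0.le hLX2 K
    rw [mul_pow] at h3
    have h4 : (2 : ℝ) ^ K ≤ Real.log X := by
      have h5 : (2 : ℝ) ^ (K + K' + 4) = 2 ^ K * 2 ^ K' * 16 := by rw [pow_add, pow_add]; norm_num
      have h6 : (1 : ℝ) ≤ 2 ^ K' := one_le_pow₀ (by norm_num)
      have h7 : (0 : ℝ) < 2 ^ K := by positivity
      nlinarith
    calc L ^ K ≤ 2 ^ K * Real.log X ^ K := h3
      _ ≤ Real.log X * Real.log X ^ K := mul_le_mul_of_nonneg_right h4 (by positivity)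
      _ = _ := by ring
  have herr : ∀ x' : ℕ, X ≤ x' → x' ≤ 3 * X → ∑ e ∈ Icc 1 R, ss c e * ee x' (e * m) ≤ X / Real.log X ^ (K' + 1) := by
    intro x' h1 h2
    have h3 := hb X hX1 (R * m) (Nat.mul_pos hR hm) hlev c' hc1 x' h1 h2
    refine le_trans (le_of_eq ?_) h3
    have h4 : ∑ k ∈ Icc 1 (R * m), ss c' k * ee x' k =
        ∑ k ∈ Icc 1 (R * m), (if m ∣ k then ss c (k / m) * ee x' k else 0) := by
      apply sum_congr rfl
      intro k hk
      rw [hss k (mem_Icc.1 hk).1]
      split_ifs <;> simp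
    rw [h4, summult R m hm (fun k => if m ∣ k then ss c (k / m) * ee x' k else 0) (fun k hk => by
      show (if m ∣ k then ss c (k / m) * ee x' k else 0) = 0
      rw [if_neg hk])]
    apply sum_congr rfl
    intro e _
    rw [if_pos (Dvd.intro_left e rfl), Nat.mul_div_cancel _ hm]
  -- the decomposition
  have hyX : l + y * m ≤ 3 * X := by
    have h1 : y * m ≤ 2 * Y * m := Nat.mul_le_mul_right m hy
    have h2 : 2 * Y * m = 2 * (Y * m) := by ring
    omega
  have hXy : X ≤ l + y * m := by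
    have h1 : Y * m ≤ y * m := Nat.mul_le_mul_right m hYy
    omega
  have e1 : ∑ q ∈ Ioc Y y, wt R c q * (if (l + q * m).Prime then 1 else 0) =
      ∑ e ∈ Icc 1 R, ∑ a ∈ range e, c e a *
        (((Ioc Y y).filter (fun q => q % e = a ∧ (l + q * m).Prime)).card : ℝ) := by
    have h1 : ∀ q ∈ Ioc Y y, wt R c q * (if (l + q * m).Prime then 1 else 0) =
        ∑ e ∈ Icc 1 R, ∑ a ∈ range e, c e a * (if q % e = a ∧ (l + q * m).Prime then 1 else 0) := by
      intro q _
      rw [wt_eq, sum_mul]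
      apply sum_congr rfl
      intro d _
      rw [sum_mul]
      apply sum_congr rfl
      intro a _
      by_cases h2 : q % d = a <;> by_cases h3 : (l + q * m).Prime <;> simp [h2, h3]
    rw [sum_congr rfl h1, sum_comm]
    apply sum_congr rfl
    intro d _
    rw [sum_comm]
    apply sum_congr rfl
    intro a _
    rw [← mul_sum, card_filter]
    push_cast
    rfl
  rw [e1]
  unfold Gm
  rw [mul_sum, ← sum_sub_distrib]
  refine (abs_sum_le_sum_abs _ _).trans ?_
  have key : ∀ e ∈ Icc 1 R, |∑ a ∈ range e, c e a *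
        (((Ioc Y y).filter (fun q => q % e = a ∧ (l + q * m).Prime)).card : ℝ) -
        (pi1 (l + y * m) - pi1 X) * ∑ a ∈ range e,
          (if (l + a * m).Coprime (e * m) then c e a / (Nat.totient (e * m) : ℝ) else 0)| ≤
      ss c e * ee (l + y * m) (e * m) + ss c e * ee X (e * m) := by
    intro e he
    rw [mem_Icc] at he
    rw [mul_sum, ← sum_sub_distrib]
    refine (abs_sum_le_sum_abs _ _).trans ?_
    unfold ss
    rw [sum_mul, sum_mul, ← sum_add_distrib]
    apply sum_le_sum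
    intro a ha
    rw [mem_range] at ha
    have hem : 0 < e * m := Nat.mul_pos he.1 hm
    rw [cnt_prm Y y l m e a he.1 hm ha (he.2.trans hRY) hYy]
    split_ifs with hcop
    · have hlt : (l + a * m) % (e * m) < e * m := Nat.mod_lt _ hem
      have hco : ((l + a * m) % (e * m)).Coprime (e * m) := by
        rw [Nat.Coprime, ← Nat.gcd_rec, Nat.gcd_comm]
        exact hcop
      have h1 := FF_le_ee (l + y * m) (e * m) ((l + a * m) % (e * m)) hlt hco
      have h2 := FF_le_ee X (e * m) ((l + a * m) % (e * m)) hlt hco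
      unfold FF at h1 h2
      have e2 : c e a * (piAP (l + y * m) (e * m) ((l + a * m) % (e * m)) - piAP (l + Y * m) (e * m) ((l + a * m) % (e * m))) -
          (pi1 (l + y * m) - pi1 X) * (c e a / (Nat.totient (e * m) : ℝ)) =
          c e a * ((piAP (l + y * m) (e * m) ((l + a * m) % (e * m)) - pi1 (l + y * m) / (Nat.totient (e * m) : ℝ)) -
            (piAP X (e * m) ((l + a * m) % (e * m)) - pi1 X / (Nat.totient (e * m) : ℝ))) := by rw [hX]; ring
      rw [e2, abs_mul, ← mul_add]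
      apply mul_le_mul_of_nonneg_left _ (abs_nonneg _)
      refine (abs_sub _ _).trans ?_
      linarith
    · simp only [mul_zero, sub_zero, abs_zero]
      have := ee_nonneg (l + y * m) (e * m)
      have := ee_nonneg X (e * m)
      positivity
  refine (sum_le_sum key).trans ?_
  rw [sum_add_distrib]
  have h1 := herr (l + y * m) hXy hyX
  have h2 := herr X le_rfl (by omega)
  have h3 : 2 * (X / Real.log X ^ (K' + 1)) ≤ x / L ^ K' := by
    have h4 : (L : ℝ) ^ (K' + 1) ≤ 2 ^ (K' + 1) * Real.log X ^ (K' + 1) := by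
      rw [← mul_pow]
      exact pow_le_pow_left₀ hL0.le hLX2 _
    have h5 : (2 : ℝ) ^ (K' + 2) ≤ L := by
      refine le_trans ?_ hL
      exact pow_le_pow_right₀ (by norm_num) (by omega)
    have hXx' : (X : ℝ) ≤ x := by exact_mod_cast hXx
    rw [mul_div_assoc', div_le_div_iff₀ (by positivity) (by positivity)]
    calc 2 * (X : ℝ) * L ^ K' ≤ 2 * x * L ^ K' := by
          apply mul_le_mul_of_nonneg_right _ (by positivity)
          linarith
      _ = x * (2 * L ^ K') := by ring
      _ ≤ x * Real.log X ^ (K' + 1) := by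
          apply mul_le_mul_of_nonneg_left _ hxr.le
          have h6 : (2 : ℝ) ^ (K' + 1) * (2 * L ^ K') ≤ 2 ^ (K' + 1) * Real.log X ^ (K' + 1) := by
            refine le_trans ?_ h4
            calc (2 : ℝ) ^ (K' + 1) * (2 * L ^ K') = 2 ^ (K' + 2) * L ^ K' := by ring
              _ ≤ L * L ^ K' := mul_le_mul_of_nonneg_right h5 (by positivity)
              _ = _ := by ring
          exact le_of_mul_le_mul_left h6 (by positivity)
  linarith

/-- the model for one class -/
lemma modm (R2 N e a m l : ℕ) (hN : 0 < N) (hdN : ∀ d ∈ Icc 1 R2, d ∣ N) (he : 0 < e) (heR : e ≤ R2) (hm : 0 < m)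
    (hmR : m ≤ R2) (ha : a < e) :
    (((range N).filter (fun q => q % e = a ∧ ∀ p ∈ PQ R2, ¬ p ∣ l + q * m)).card : ℝ) =
      if (l + a * m).Coprime (e * m) then N * V (PQ R2) * m / (Nat.totient (e * m) : ℝ) else 0 := by
  classical
  split_ifs with hc
  · set P2 := (PQ R2).filter (fun p => ¬ p ∣ e * m) with hP2
    have hP2p : ∀ p ∈ P2, p.Prime := fun p hp => (mem_PQ.1 (mem_filter.1 hp).1).1
    have hP2c : ∀ p ∈ P2, (e * m).Coprime p := by
      intro p hp
      rw [Nat.coprime_comm, Nat.Prime.coprime_iff_not_dvd (hP2p p hp)]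
      exact (mem_filter.1 hp).2
    have hP2e : ∀ p ∈ P2, e.Coprime p := fun p hp => Nat.Coprime.coprime_mul_right (hP2c p hp)
    set D := ∏ p ∈ P2, p with hD
    have hDN : D ∣ N := by
      apply Finset.prod_primes_dvd
      · intro p hp; exact (hP2p p hp).prime
      · intro p hp
        have h1 := mem_PQ.1 (mem_filter.1 hp).1
        exact hdN p (mem_Icc.2 ⟨h1.1.one_lt.le, h1.2⟩)
    have heD : e.Coprime D := Nat.Coprime.prod_right hP2e
    obtain ⟨k, hk⟩ := heD.mul_dvd_of_dvd_of_dvd (hdN e (mem_Icc.2 ⟨he, heR⟩)) hDN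
    have hem : 0 < e * m := Nat.mul_pos he hm
    have hpf : (PQ R2).filter (fun p => p ∣ e * m) = (e * m).primeFactors := by
      ext p
      rw [mem_filter, mem_PQ, Nat.mem_primeFactors]
      constructor
      · rintro ⟨h1, h2⟩; exact ⟨h1.1, h2, by omega⟩
      · rintro ⟨h1, h2, _⟩
        refine ⟨⟨h1, ?_⟩, h2⟩
        rcases (Nat.Prime.dvd_mul h1).1 h2 with h3 | h3
        · exact (Nat.le_of_dvd he h3).trans heR
        · exact (Nat.le_of_dvd hm h3).trans hmR
    have hVV : V (PQ R2) = V P2 * (((e * m).totient : ℝ) / (e * m : ℕ)) := by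
      rw [← V_tot hem, ← hpf, hP2]
      unfold V
      rw [mul_comm]
      exact (prod_filter_mul_prod_filter_not _ _ _).symm
    have h1 : (((range N).filter (fun q => q % e = a ∧ ∀ p ∈ PQ R2, ¬ p ∣ l + q * m)).card : ℝ) =
        k * ∏ p ∈ P2, ((p : ℝ) - 1) := by
      rw [card_filter]
      push_cast
      rw [show N = e * (D * k) by rw [hk]; ring, sum_split]
      rw [sum_eq_single a]
      · have h2 : ∀ j ∈ range (D * k), (if (a + e * j) % e = a ∧ ∀ p ∈ PQ R2, ¬ p ∣ l + (a + e * j) * m then (1 : ℝ) else 0) =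
            ((({0} : Finset ℕ).filter (fun h' => ∀ p ∈ P2, ¬ p ∣ (l + a * m) + (e * m) * j + h')).card : ℝ) := by
          intro j _
          have e1 : (a + e * j) % e = a := by
            rw [Nat.add_mul_mod_self_left, Nat.mod_eq_of_lt ha]
          have e2 : l + (a + e * j) * m = (l + a * m) + (e * m) * j + 0 := by ring
          rw [e1, filter_singleton]
          have h3 : (∀ p ∈ PQ R2, ¬ p ∣ l + (a + e * j) * m) ↔ ∀ p ∈ P2, ¬ p ∣ (l + a * m) + (e * m) * j + 0 := by
            rw [e2]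
            constructor
            · intro h4 p hp
              exact h4 p (mem_filter.1 hp).1
            · intro h4 p hp
              by_cases hpd : p ∣ e * m
              · intro h5
                have h6 : p ∣ l + a * m := by
                  have e3 : (l + a * m) + (e * m) * j + 0 = (l + a * m) + (e * m) * j := by ring
                  rw [e3] at h5
                  exact (Nat.dvd_add_left (hpd.trans (Dvd.intro _ rfl))).1 h5
                have h7 := Nat.dvd_gcd h6 hpd
                rw [Nat.coprime_iff_gcd_eq_one.1 hc] at h7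
                exact (mem_PQ.1 hp).1.one_lt.ne' (Nat.dvd_one.1 h7)
              · exact h4 p (mem_filter.2 ⟨hp, hpd⟩)
          by_cases h4 : ∀ p ∈ P2, ¬ p ∣ (l + a * m) + (e * m) * j + 0
          · rw [if_pos ⟨rfl, h3.2 h4⟩, if_pos h4]; simp
          · rw [if_neg (fun h5 => h4 (h3.1 h5.2)), if_neg h4]; simp
        rw [sum_congr rfl h2, per_sum (G := fun j => ((({0} : Finset ℕ).filter (fun h' => ∀ p ∈ P2, ¬ p ∣ (l + a * m) + (e * m) * j + h')).card : ℝ)) (T := D)]
        · rw [fullavg P2 {0} (l + a * m) (e * m) hP2p hP2c]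
          simp
        · intro j
          show ((({0} : Finset ℕ).filter (fun h' => ∀ p ∈ P2, ¬ p ∣ (l + a * m) + (e * m) * (j + D) + h')).card : ℝ) =
            ((({0} : Finset ℕ).filter (fun h' => ∀ p ∈ P2, ¬ p ∣ (l + a * m) + (e * m) * j + h')).card : ℝ)
          refine congrArg Nat.cast (congrArg card ?_)
          apply filter_congr
          intro h' _
          have h4 : ∀ p ∈ P2, (p ∣ (l + a * m) + (e * m) * (j + D) + h' ↔ p ∣ (l + a * m) + (e * m) * j + h') := by
            intro p hp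
            have e4 : (l + a * m) + (e * m) * (j + D) + h' = ((l + a * m) + (e * m) * j + h') + (e * m) * D := by ring
            rw [e4]
            exact Nat.dvd_add_left ((dvd_prod_of_mem (fun x : ℕ => x) hp).trans (Dvd.intro_left _ rfl))
          constructor
          · intro h5 p hp h6
            exact h5 p hp ((h4 p hp).2 h6)
          · intro h5 p hp h6
            exact h5 p hp ((h4 p hp).1 h6)
      · intro i hi hia
        apply sum_eq_zero
        intro j _
        rw [if_neg]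
        rintro ⟨h2, _⟩
        rw [Nat.add_mul_mod_self_left, Nat.mod_eq_of_lt (mem_range.1 hi)] at h2
        exact hia h2
      · intro h2
        exact absurd (mem_range.2 ha) h2
    rw [h1, hVV]
    have hV2 : ∏ p ∈ P2, ((p : ℝ) - 1) = D * V P2 := by
      rw [hD]
      unfold V
      push_cast
      rw [← prod_mul_distrib]
      apply prod_congr rfl
      intro p hp
      have : (p : ℝ) ≠ 0 := by exact_mod_cast (hP2p p hp).ne_zero
      field_simp
    rw [hV2, hk]
    have hφ : ((e * m).totient : ℝ) ≠ 0 := by exact_mod_cast (Nat.totient_pos.2 hem).ne'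
    have hd0 : (e : ℝ) ≠ 0 := by exact_mod_cast he.ne'
    have hm0 : (m : ℝ) ≠ 0 := by exact_mod_cast hm.ne'
    push_cast
    field_simp
  · have h1 : (range N).filter (fun q => q % e = a ∧ ∀ p ∈ PQ R2, ¬ p ∣ l + q * m) = ∅ := by
      rw [filter_eq_empty_iff]
      rintro q _ ⟨h2, h3⟩
      rw [Nat.Prime.not_coprime_iff_dvd] at hc
      obtain ⟨r, hr, hra, hrd⟩ := hc
      have hrR : r ≤ R2 := by
        rcases (Nat.Prime.dvd_mul hr).1 hrd with h4 | h4
        · exact (Nat.le_of_dvd he h4).trans heR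
        · exact (Nat.le_of_dvd hm h4).trans hmR
      apply h3 r (mem_PQ.2 ⟨hr, hrR⟩)
      have h4 : l + q * m ≡ l + a * m [MOD e * m] := by
        have h5 : q ≡ a [MOD e] := by
          show q % e = a % e
          rw [h2, Nat.mod_eq_of_lt ha]
        exact (Nat.ModEq.mul_right' m h5).add_left l
      exact (Nat.modEq_zero_iff_dvd).1 ((h4.of_dvd hrd).trans ((Nat.modEq_zero_iff_dvd).2 hra))
    rw [h1]
    simp

lemma sum_free_m (R R2 N l m : ℕ) (c : ℕ → ℕ → ℝ) (hRR : R ≤ R2) (hN : 0 < N) (hdN : ∀ d ∈ Icc 1 R2, d ∣ N)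
    (hm : 0 < m) (hmR : m ≤ R2) :
    ∑ q ∈ range N, wt R c q * (if (∀ p ∈ PQ R2, ¬ p ∣ l + q * m) then 1 else 0) = N * V (PQ R2) * (m * Gm R c l m) := by
  classical
  have h1 : ∀ q ∈ range N, wt R c q * (if (∀ p ∈ PQ R2, ¬ p ∣ l + q * m) then (1 : ℝ) else 0) =
      ∑ d ∈ Icc 1 R, ∑ a ∈ range d, c d a * (if q % d = a ∧ (∀ p ∈ PQ R2, ¬ p ∣ l + q * m) then 1 else 0) := by
    intro q _
    rw [wt_eq, sum_mul]
    apply sum_congr rfl
    intro d _
    rw [sum_mul]
    apply sum_congr rfl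
    intro a _
    by_cases h2 : q % d = a <;> by_cases h3 : (∀ p ∈ PQ R2, ¬ p ∣ l + q * m) <;> simp only [h2, h3] <;> simp
  rw [sum_congr rfl h1, sum_comm]
  unfold Gm
  rw [mul_sum, mul_sum]
  apply sum_congr rfl
  intro d hd
  rw [mem_Icc] at hd
  rw [sum_comm, mul_sum, mul_sum]
  apply sum_congr rfl
  intro a ha
  have h2 := modm R2 N d a m l hN hdN (by omega) (hd.2.trans hRR) hm hmR (mem_range.1 ha)
  rw [← mul_sum]
  have h3 : ∑ q ∈ range N, (if q % d = a ∧ (∀ p ∈ PQ R2, ¬ p ∣ l + q * m) then (1 : ℝ) else 0) =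
      (((range N).filter (fun q => q % d = a ∧ (∀ p ∈ PQ R2, ¬ p ∣ l + q * m))).card : ℝ) := by
    rw [card_filter]
    push_cast
    rfl
  rw [h3, h2]
  split_ifs
  · ring
  · ring

end Pool.Agent.Y829.EH
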