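import Pool.Agent.Y829.EH8

/-! Auxiliary results: prime number theorem, double counting. -/

set_option autoImplicit false

namespace Pool.Agent.Y829.EH

open Finset Filter Topology H343E Pool.Agent.TH423.SH.PSUa Pool.Agent.Y829 Pool.Agent.Y829.RP

lemma pnt1 (η : ℝ) (hη : 0 < η) (hη1 : η ≤ 1) (K : ℕ) : ∃ x0 : ℕ, ∀ x : ℕ, x0 ≤ x → ∀ n : ℕ,
    (x : ℝ) ≤ n * Real.log x ^ K → n ≤ 3 * x → |pi1 n - n / Real.log x| ≤ η * (n / Real.log x) := by
  have h1 : ∀ᶠ n : ℕ in atTop, |pi1 n * Real.log n / n - 1| < η / 4 := by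
    have h2 := (tendsto_order.1 (pi_tend.sub_const 1 |>.abs)).2 (η / 4) (by simpa using by positivity)
    exact h2
  obtain ⟨n0, hn0⟩ := h1.exists_forall_of_atTop
  -- `K log log x + 2 ≤ (η / 8) log x` and `n0 (log x)^K < x`
  have E1 : ∀ᶠ x : ℕ in atTop, (K : ℝ) * Real.log (Real.log x) + 2 ≤ η / 8 * Real.log x := by
    have h2 := (Real.isLittleO_log_id_atTop.comp_tendsto log_tend).def (show (0 : ℝ) < η / (16 * (K + 1)) by positivity)
    have h3 := log_tend.eventually_ge_atTop (32 / η + 1)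
    filter_upwards [h2, h3] with x hx hx2
    have hL : 32 / η + 1 ≤ Real.log x := hx2
    have hdiv : 0 < 32 / η := by positivity
    have hL0 : 0 < Real.log x := by linarith
    simp only [Function.comp, id] at hx
    rw [Real.norm_eq_abs, Real.norm_eq_abs, abs_of_pos hL0] at hx
    have h4 := (le_abs_self _).trans hx
    have h5 : (K : ℝ) * Real.log (Real.log x) ≤ K * (η / (16 * (K + 1)) * Real.log x) :=
      mul_le_mul_of_nonneg_left h4 (Nat.cast_nonneg _)
    have h6 : (K : ℝ) * (η / (16 * (K + 1)) * Real.log x) ≤ η / 16 * Real.log x := by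
      have h7 : (K : ℝ) * (η / (16 * (K + 1))) ≤ η / 16 := by
        rw [mul_div_assoc', div_le_div_iff₀ (by positivity) (by norm_num)]
        have : (0 : ℝ) ≤ K := Nat.cast_nonneg K
        nlinarith
      calc (K : ℝ) * (η / (16 * (K + 1)) * Real.log x) = (K * (η / (16 * (K + 1)))) * Real.log x := by ring
        _ ≤ _ := mul_le_mul_of_nonneg_right h7 hL0.le
    have h8 : 2 ≤ η / 16 * Real.log x := by
      have h9 : 32 / η ≤ Real.log x := by linarith
      rw [div_le_iff₀ hη] at h9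
      linarith
    linarith
  have E2 : ∀ᶠ x : ℕ in atTop, ((n0 : ℝ) + 3) * Real.log x ^ K < x := by
    have h2 := (Real.isLittleO_pow_log_id_atTop (n := K)).def (show (0 : ℝ) < 1 / (2 * ((n0 : ℝ) + 3)) by positivity)
    have h3 := tendsto_natCast_atTop_atTop.eventually h2
    filter_upwards [h3, eventually_gt_atTop 1] with x hx hx1
    have hx0 : (1 : ℝ) < x := by exact_mod_cast hx1
    have hl : 0 < Real.log x := Real.log_pos hx0
    rw [Real.norm_eq_abs, Real.norm_eq_abs, abs_of_nonneg (by positivity)] at hx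
    simp only [id] at hx
    rw [abs_of_pos (by linarith : (0 : ℝ) < x)] at hx
    have h4 := mul_le_mul_of_nonneg_left hx (show (0 : ℝ) ≤ (n0 : ℝ) + 3 by positivity)
    have h5 : ((n0 : ℝ) + 3) * (1 / (2 * ((n0 : ℝ) + 3)) * x) = x / 2 := by field_simp
    linarith
  obtain ⟨x1, hx1⟩ := (E1.and E2).exists_forall_of_atTop
  refine ⟨max x1 16, ?_⟩
  intro x hx n hn hn3
  obtain ⟨e1, e2⟩ := hx1 x ((le_max_left _ _).trans hx)
  have hx16 : 16 ≤ x := (le_max_right _ _).trans hx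
  have hxr : (16 : ℝ) ≤ x := by exact_mod_cast hx16
  set L := Real.log (x : ℝ) with hLd
  have hL0 : 0 < L := Real.log_pos (by linarith)
  have hL1 : 1 ≤ L := by
    rw [hLd, Real.le_log_iff_exp_le (by linarith)]
    have := Real.exp_one_lt_d9
    linarith
  have hn0' : (n0 : ℝ) + 3 < n := by
    have h3 : ((n0 : ℝ) + 3) * L ^ K < n * L ^ K := lt_of_lt_of_le e2 hn
    exact lt_of_mul_lt_mul_right h3 (by positivity)
  have hn0n : n0 ≤ n := by
    have : (n0 : ℝ) ≤ n := by linarith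
    exact_mod_cast this
  have hnr : (3 : ℝ) < n := by
    have : (0 : ℝ) ≤ n0 := Nat.cast_nonneg _
    linarith
  have hnpos : (0 : ℝ) < n := by linarith
  set l := Real.log (n : ℝ) with hl
  have hl0 : 0 < l := Real.log_pos (by linarith)
  have h2 := hn0 n hn0n
  have hup : l ≤ (1 + η / 8) * L := by
    have h3 : (n : ℝ) ≤ 3 * x := by exact_mod_cast hn3
    have h4 := Real.log_le_log hnpos h3
    rw [Real.log_mul (by norm_num) (by linarith)] at h4
    have h5 : Real.log 3 ≤ 2 := by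
      have := Real.log_le_sub_one_of_pos (show (0 : ℝ) < 3 by norm_num)
      linarith
    have h6 : 0 ≤ (K : ℝ) * Real.log L := mul_nonneg (Nat.cast_nonneg _) (Real.log_nonneg hL1)
    linarith
  have hlow : (1 - η / 8) * L ≤ l := by
    have h4 := Real.log_le_log (by linarith) hn
    rw [Real.log_mul hnpos.ne' (by positivity), Real.log_pow] at h4
    linarith
  -- `pi1 n` versus `n / l`
  have h3 : |pi1 n - n / l| ≤ η / 4 * (n / l) := by
    have h4 : pi1 n - n / l = (pi1 n * l / n - 1) * (n / l) := by field_simp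
    rw [h4, abs_mul, abs_of_pos (by positivity : 0 < (n : ℝ) / l)]
    exact mul_le_mul_of_nonneg_right h2.le (by positivity)
  have h4 : |(n : ℝ) / l - n / L| ≤ η / 4 * (n / L) := by
    have h5 : (n : ℝ) / l - n / L = ((L - l) / l) * (n / L) := by field_simp
    rw [h5, abs_mul, abs_of_pos (by positivity : 0 < (n : ℝ) / L)]
    apply mul_le_mul_of_nonneg_right _ (by positivity)
    rw [abs_div, abs_of_pos hl0, div_le_iff₀ hl0, abs_le]
    constructor <;> nlinarith
  have h5 : (n : ℝ) / l ≤ (1 + η / 4) * (n / L) := by linarith [(abs_le.1 h4).2]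
  have h6 : |pi1 n - n / L| ≤ |pi1 n - n / l| + |(n : ℝ) / l - n / L| := abs_sub_le _ _ _
  have h7 : 0 < (n : ℝ) / L := by positivity
  have h8 := mul_le_mul_of_nonneg_left h5 (show (0 : ℝ) ≤ η / 4 by positivity)
  have h9 : η * (η * (n / L)) ≤ 1 * (η * (n / L)) := mul_le_mul_of_nonneg_right hη1 (by positivity)
  have h10 : 0 < η * (n / L) := by positivity
  linarith

/-- double counting over the hyperbola -/
lemma hyp (X Y M : ℕ) (hM : M = X / Y) (hY : 0 < Y) (F : ℕ → ℕ → ℝ) :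
    ∑ k ∈ Ioc Y (2 * Y), ∑ m ∈ Icc 1 (X / k), F k m = ∑ m ∈ Icc 1 M, ∑ k ∈ Ioc Y (min (2 * Y) (X / m)), F k m := by
  rw [sum_sigma', sum_sigma']
  apply sum_nbij' (fun z => ⟨z.2, z.1⟩) (fun z => ⟨z.2, z.1⟩)
  · rintro ⟨k, m⟩ h
    rw [mem_sigma, mem_Ioc, mem_Icc] at h
    rw [mem_sigma, mem_Icc, mem_Ioc]
    dsimp only at h ⊢
    obtain ⟨⟨h1, h2⟩, h3, h4⟩ := h
    have hk : 0 < k := by omega
    have h5 : m * k ≤ X := (Nat.le_div_iff_mul_le hk).1 h4
    refine ⟨⟨h3, ?_⟩, h1, le_min h2 ?_⟩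
    · rw [hM, Nat.le_div_iff_mul_le hY]
      exact (Nat.mul_le_mul_left m h1.le).trans h5
    · rw [Nat.le_div_iff_mul_le (by omega), mul_comm]
      exact h5
  · rintro ⟨m, k⟩ h
    rw [mem_sigma, mem_Icc, mem_Ioc] at h
    rw [mem_sigma, mem_Ioc, mem_Icc]
    dsimp only at h ⊢
    obtain ⟨⟨h1, h2⟩, h3, h4⟩ := h
    have h5 := h4.trans (min_le_left _ _)
    have h6 := h4.trans (min_le_right _ _)
    have h7 : k * m ≤ X := (Nat.le_div_iff_mul_le (by omega)).1 h6
    refine ⟨⟨h3, h5⟩, h1, ?_⟩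
    rw [Nat.le_div_iff_mul_le (by omega), mul_comm]
    exact h7
  · rintro ⟨k, m⟩ _; rfl
  · rintro ⟨k, m⟩ _; rfl
  · rintro ⟨k, m⟩ _; rfl

end Pool.Agent.Y829.EH
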