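import Pool.Agent.Y829.RS3

/-! The mass of a sieve weight on a sparse set. -/

set_option autoImplicit false

namespace Pool.Agent.Y829.RS

open Finset Filter Topology Pool.Agent.Y829 Pool.Agent.Y829.RP

lemma bigsum (Q : ℕ) (c : ℕ → ℕ → ℝ) (T : ℝ) (hT : 0 < T) :
    ∑ d ∈ (Icc 1 Q).filter (fun d => T < (d.divisors.card : ℝ)), ss c d / d ≤
      Real.sqrt ((∑ d ∈ Icc 1 Q, ss c d ^ 2 / d) * (HH Q ^ 2 / T)) := by
  classical
  obtain ⟨D, hD⟩ : ∃ D, D = (Icc 1 Q).filter (fun d => T < (d.divisors.card : ℝ)) := ⟨_, rfl⟩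
  rw [← hD]
  have hDs : D ⊆ Icc 1 Q := by rw [hD]; exact filter_subset _ _
  apply Real.le_sqrt_of_sq_le
  have h1 : (∑ d ∈ D, ss c d / (d : ℝ)) ^ 2 ≤ (∑ d ∈ D, ss c d ^ 2 / (d : ℝ)) * ∑ d ∈ D, 1 / (d : ℝ) := by
    apply sum_sq_le_sum_mul_sum_of_sq_eq_mul
    · intro d _; positivity
    · intro d _; positivity
    · intro d _
      ring
  refine h1.trans ?_
  have h2 : ∑ d ∈ D, ss c d ^ 2 / (d : ℝ) ≤ ∑ d ∈ Icc 1 Q, ss c d ^ 2 / (d : ℝ) :=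
    sum_le_sum_of_subset_of_nonneg hDs fun d _ _ => by positivity
  have h3 : ∑ d ∈ D, 1 / (d : ℝ) ≤ HH Q ^ 2 / T := by
    rw [le_div_iff₀ hT, sum_mul]
    refine le_trans ?_ (tausum Q)
    refine le_trans ?_ (sum_le_sum_of_subset_of_nonneg hDs fun d _ _ => by positivity)
    apply sum_le_sum
    intro d hd
    rw [hD, mem_filter] at hd
    have hd0 : (0 : ℝ) < d := by exact_mod_cast (mem_Icc.1 hd.1).1
    rw [one_div, inv_mul_eq_div]
    exact div_le_div_of_nonneg_right hd.2.le hd0.le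
  exact mul_le_mul h2 h3 (sum_nonneg fun d _ => by positivity) (sum_nonneg fun d _ => by positivity)

lemma onesum (N d : ℕ) (c : ℕ → ℕ → ℝ) (hd : 0 < d) (hdN : d ∣ N) :
    ∑ n ∈ range N, |c d (n % d)| = N * (ss c d / d) := by
  obtain ⟨k, hk⟩ := hdN
  rw [hk, sum_split]
  have h1 : ∀ i ∈ range d, ∑ j ∈ range k, |c d ((i + d * j) % d)| = k * |c d i| := by
    intro i hi
    have h2 : ∀ j ∈ range k, |c d ((i + d * j) % d)| = |c d i| := by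
      intro j _
      rw [Nat.add_mul_mod_self_left, Nat.mod_eq_of_lt (mem_range.1 hi)]
    rw [sum_congr rfl h2, sum_const, card_range, nsmul_eq_mul]
  rw [sum_congr rfl h1, ← mul_sum]
  unfold ss
  have : (d : ℝ) ≠ 0 := by exact_mod_cast hd.ne'
  push_cast
  field_simp

lemma badmass1 (Q N : ℕ) (c : ℕ → ℕ → ℝ) (T ρ : ℝ) (hT : 0 < T) (S : Finset ℕ) (hS : S ⊆ range N)
    (hdN : ∀ d ∈ Icc 1 Q, d ∣ N) (hρ : (S.card : ℝ) ≤ ρ * N) :
    ∑ n ∈ S, |wt Q c n| ≤ N * (Real.sqrt ((∑ d ∈ Icc 1 Q, ss c d ^ 2 / d) * (HH Q ^ 2 / T)) +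
      Real.sqrt (ρ * (T * HH Q * ∑ d ∈ Icc 1 Q, ss c d ^ 2 / d))) := by
  classical
  obtain ⟨D, hD⟩ : ∃ D, D = (Icc 1 Q).filter (fun d => T < (d.divisors.card : ℝ)) := ⟨_, rfl⟩
  obtain ⟨D', hD'⟩ : ∃ D', D' = (Icc 1 Q).filter (fun d => ¬ T < (d.divisors.card : ℝ)) := ⟨_, rfl⟩
  have h1 : ∀ n ∈ S, |wt Q c n| ≤ ∑ d ∈ D, |c d (n % d)| + ∑ d ∈ D', |c d (n % d)| := by
    intro n _
    unfold wt
    refine (abs_sum_le_sum_abs _ _).trans (le_of_eq ?_)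
    rw [hD, hD', sum_filter_add_sum_filter_not]
  refine (sum_le_sum h1).trans ?_
  rw [sum_add_distrib, mul_add]
  have hb := bigsum Q c T hT
  rw [← hD] at hb
  have hDs : D ⊆ Icc 1 Q := by rw [hD]; exact filter_subset _ _
  have hDs' : D' ⊆ Icc 1 Q := by rw [hD']; exact filter_subset _ _
  apply add_le_add
  · have h2 : ∑ n ∈ S, ∑ d ∈ D, |c d (n % d)| ≤ ∑ n ∈ range N, ∑ d ∈ D, |c d (n % d)| :=
      sum_le_sum_of_subset_of_nonneg hS fun n _ _ => sum_nonneg fun d _ => abs_nonneg _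
    refine h2.trans ?_
    rw [sum_comm]
    have h3 : ∀ d ∈ D, ∑ n ∈ range N, |c d (n % d)| = N * (ss c d / d) := by
      intro d hd
      exact onesum N d c (mem_Icc.1 (hDs hd)).1 (hdN d (hDs hd))
    rw [sum_congr rfl h3, ← mul_sum]
    exact mul_le_mul_of_nonneg_left hb (Nat.cast_nonneg _)
  · have h2 := meansq Q N c T D' hDs' hT.le (fun d hd => by
      rw [hD', mem_filter, not_lt] at hd
      exact hd.2) hdN
    obtain ⟨S1, hS1⟩ : ∃ S1, S1 = ∑ d ∈ Icc 1 Q, ss c d ^ 2 / (d : ℝ) := ⟨_, rfl⟩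
    rw [← hS1] at h2 ⊢
    have hS10 : 0 ≤ S1 := by rw [hS1]; exact sum_nonneg fun d _ => by positivity
    have hN0 : (0 : ℝ) ≤ N := Nat.cast_nonneg _
    have h3 : (∑ n ∈ S, ∑ d ∈ D', |c d (n % d)|) ^ 2 ≤ (S.card : ℝ) * ∑ n ∈ S, (∑ d ∈ D', |c d (n % d)|) ^ 2 :=
      sq_sum_le_card_mul_sum_sq
    have h4 : ∑ n ∈ S, (∑ d ∈ D', |c d (n % d)|) ^ 2 ≤ ∑ n ∈ range N, (∑ d ∈ D', |c d (n % d)|) ^ 2 :=
      sum_le_sum_of_subset_of_nonneg hS fun n _ _ => sq_nonneg _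
    have h5 : (S.card : ℝ) * ∑ n ∈ S, (∑ d ∈ D', |c d (n % d)|) ^ 2 ≤ (ρ * N) * (N * (T * HH Q * S1)) := by
      apply mul_le_mul hρ (h4.trans h2) (sum_nonneg fun n _ => sq_nonneg _)
      exact (Nat.cast_nonneg _).trans hρ
    have h6 : (∑ n ∈ S, ∑ d ∈ D', |c d (n % d)|) ^ 2 ≤ N ^ 2 * (ρ * (T * HH Q * S1)) := by
      refine (h3.trans h5).trans (le_of_eq ?_)
      ring
    have h7 := Real.le_sqrt_of_sq_le h6
    rw [Real.sqrt_mul (by positivity), Real.sqrt_sq hN0] at h7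
    exact h7

lemma HH_le (Q : ℕ) : HH Q ≤ 1 + Real.log Q := by
  have h1 := harmonic_le_one_add_log Q
  refine le_trans (le_of_eq ?_) h1
  rw [harmonic_eq_sum_Icc]
  push_cast
  unfold HH
  apply sum_congr rfl
  intro k _
  rw [one_div]

/-- a sieve weight has little mass on a sparse set -/
lemma badmass (K m : ℕ) : ∃ X0 : ℕ, ∀ X : ℕ, X0 ≤ X → ∀ Q : ℕ, 1 ≤ Q → Q ≤ X → ∀ c : ℕ → ℕ → ℝ,
    ∑ d ∈ Icc 1 Q, ss c d ^ 2 / d ≤ Real.log X ^ K → ∀ N : ℕ, (∀ d ∈ Icc 1 Q, d ∣ N) →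
    ∀ S : Finset ℕ, S ⊆ range N → (S.card : ℝ) * Real.log X ^ (2 * K + 4 * m + 10) ≤ N →
    (∑ n ∈ S, |wt Q c n|) * Real.log X ^ m ≤ N := by
  obtain ⟨X0, hX0⟩ := (log_tend.eventually_ge_atTop (4 : ℝ)).exists_forall_of_atTop
  refine ⟨X0, ?_⟩
  intro X hX Q hQ1 hQX c hc N hdN S hS hcard
  have hL4 := hX0 X hX
  obtain ⟨L, hL⟩ : ∃ L : ℝ, L = Real.log X := ⟨_, rfl⟩
  rw [← hL] at hL4 hc hcard ⊢
  have hL0 : 0 < L := by linarith
  have hQr : (1 : ℝ) ≤ Q := by exact_mod_cast hQ1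
  have hHH : HH Q ≤ 2 * L := by
    refine (HH_le Q).trans ?_
    have : Real.log Q ≤ L := by
      rw [hL]
      exact Real.log_le_log (by linarith) (by exact_mod_cast hQX)
    linarith
  have hHH0 := HH_nonneg Q
  obtain ⟨S1, hS1⟩ : ∃ S1, S1 = ∑ d ∈ Icc 1 Q, ss c d ^ 2 / (d : ℝ) := ⟨_, rfl⟩
  have hS10 : 0 ≤ S1 := by rw [hS1]; exact sum_nonneg fun d _ => by positivity
  have hN0 : (0 : ℝ) ≤ N := Nat.cast_nonneg _
  have h1 := badmass1 Q N c (L ^ (K + 2 * m + 4)) (1 / L ^ (2 * K + 4 * m + 10)) (by positivity) S hS hdN (by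
    rw [one_div, inv_mul_eq_div, le_div_iff₀ (by positivity)]
    exact hcard)
  rw [← hS1] at h1 hc
  have e1 : Real.sqrt (S1 * (HH Q ^ 2 / L ^ (K + 2 * m + 4))) ≤ 1 / (2 * L ^ m) := by
    rw [Real.sqrt_le_iff]
    refine ⟨by positivity, ?_⟩
    have h2 : S1 * (HH Q ^ 2 / L ^ (K + 2 * m + 4)) ≤ L ^ K * ((2 * L) ^ 2 / L ^ (K + 2 * m + 4)) := by
      apply mul_le_mul hc _ (by positivity) (by positivity)
      apply div_le_div_of_nonneg_right _ (by positivity)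
      exact pow_le_pow_left₀ hHH0 hHH 2
    refine h2.trans ?_
    have h3 : L ^ K * ((2 * L) ^ 2 / L ^ (K + 2 * m + 4)) = (4 / L ^ 2) * (1 / (L ^ m) ^ 2) := by
      rw [show K + 2 * m + 4 = K + 2 + (2 * m + 2) by ring, pow_add, pow_add, pow_add, pow_mul']
      field_simp
      ring
    have h4 : (1 / (2 * L ^ m)) ^ 2 = (1 / 4) * (1 / (L ^ m) ^ 2) := by
      field_simp
      ring
    rw [h3, h4]
    apply mul_le_mul_of_nonneg_right _ (by positivity)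
    rw [div_le_div_iff₀ (by positivity) (by norm_num)]
    nlinarith
  have e2 : Real.sqrt (1 / L ^ (2 * K + 4 * m + 10) * (L ^ (K + 2 * m + 4) * HH Q * S1)) ≤ 1 / (2 * L ^ m) := by
    rw [Real.sqrt_le_iff]
    refine ⟨by positivity, ?_⟩
    have h2 : L ^ (K + 2 * m + 4) * HH Q * S1 ≤ L ^ (K + 2 * m + 4) * (2 * L) * L ^ K := by
      apply mul_le_mul _ hc hS10 (by positivity)
      exact mul_le_mul_of_nonneg_left hHH (by positivity)
    have h2' := mul_le_mul_of_nonneg_left h2 (show 0 ≤ 1 / L ^ (2 * K + 4 * m + 10) by positivity)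
    refine h2'.trans ?_
    have h3 : 1 / L ^ (2 * K + 4 * m + 10) * (L ^ (K + 2 * m + 4) * (2 * L) * L ^ K) = (2 / L ^ 5) * (1 / (L ^ m) ^ 2) := by
      rw [show 2 * K + 4 * m + 10 = (K + 2 * m + 4) + 1 + K + (2 * m + 5) by ring, pow_add _ _ (2 * m + 5),
        pow_add _ _ K, pow_add _ _ 1, pow_add _ (2 * m) 5, pow_mul']
      field_simp
    have h4 : (1 / (2 * L ^ m)) ^ 2 = (1 / 4) * (1 / (L ^ m) ^ 2) := by
      field_simp
      ring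
    rw [h3, h4]
    apply mul_le_mul_of_nonneg_right _ (by positivity)
    rw [div_le_div_iff₀ (by positivity) (by norm_num)]
    have h5 : (4 : ℝ) ^ 5 ≤ L ^ 5 := pow_le_pow_left₀ (by norm_num) hL4 5
    norm_num at h5 ⊢
    linarith
  have h2 : ∑ n ∈ S, |wt Q c n| ≤ N * (1 / L ^ m) := by
    refine h1.trans (mul_le_mul_of_nonneg_left ?_ hN0)
    have h3 : 1 / (2 * L ^ m) + 1 / (2 * L ^ m) = 1 / L ^ m := by
      field_simp
      ring
    linarith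
  have h3 := mul_le_mul_of_nonneg_right h2 (show 0 ≤ L ^ m by positivity)
  refine h3.trans (le_of_eq ?_)
  field_simp

lemma sumss (Q : ℕ) (c : ℕ → ℕ → ℝ) : (∑ d ∈ Icc 1 Q, ss c d) ^ 2 ≤ (∑ d ∈ Icc 1 Q, ss c d ^ 2 / d) * (Q : ℝ) ^ 2 := by
  have h1 : (∑ d ∈ Icc 1 Q, ss c d) ^ 2 ≤ (∑ d ∈ Icc 1 Q, ss c d ^ 2 / (d : ℝ)) * ∑ d ∈ Icc 1 Q, (d : ℝ) := by
    apply sum_sq_le_sum_mul_sum_of_sq_eq_mul
    · intro d _; positivity
    · intro d _; positivity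
    · intro d hd
      have : (d : ℝ) ≠ 0 := by
        have := (mem_Icc.1 hd).1
        exact_mod_cast (by omega : d ≠ 0)
      field_simp
  refine h1.trans ?_
  apply mul_le_mul_of_nonneg_left _ (sum_nonneg fun d _ => by positivity)
  have h2 : ∑ d ∈ Icc 1 Q, (d : ℝ) ≤ ∑ _d ∈ Icc 1 Q, (Q : ℝ) := by
    apply sum_le_sum
    intro d hd
    exact_mod_cast (mem_Icc.1 hd).2
  rw [sum_const, nsmul_eq_mul, Nat.card_Icc] at h2
  refine h2.trans (le_of_eq ?_)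
  push_cast
  ring

end Pool.Agent.Y829.RS
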