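import Pool.Agent.Y829.EH14
import Pool.Agent.Y829.RS4

/-! Concentration for random `q`, windows of length `log x (log log x)^3`. -/

set_option autoImplicit false

namespace Pool.Agent.Y829.ET

open Finset Filter Topology Pool.Agent.Y829 Pool.Agent.Y829.EH Pool.Agent.Y829.RP

lemma kap_V {P : Finset ℕ} {m U : ℕ} (hP : ∀ p ∈ P, U < p) (hm0 : 0 < m) (hm : m ≤ U) : kap P m = V P := by
  unfold kap V
  apply prod_congr rfl
  intro p hp
  unfold om
  rw [if_neg]
  intro h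
  have h1 := Nat.le_of_dvd hm0 h
  have h2 := hP p hp
  omega

lemma twostageE (Pa Pb P1 : Finset ℕ) (U l : ℕ) (δ lam eta β : ℝ) (hPa : ∀ p ∈ Pa, p.Prime)
    (hPb : ∀ p ∈ Pb, p.Prime ∧ U < p) (hd : Disjoint Pa Pb) (hP1 : P1 ⊆ Pa) (hl : ∀ p ∈ Pb, ¬ p ∣ l)
    (hδ : 0 < δ) (hδ1 : δ ≤ 1 / 4)
    (heta : eta = δ / 4) (hlam : 0 ≤ lam) (hlam1 : lam ≤ 1 / 2)
    (hsum : 4 * (lam * ∑ p ∈ Pb, 1 / (p : ℝ)) ≤ eta)
    (hbad : (((range (∏ p ∈ Pa, p)).filter (fun q => (∀ p ∈ Pa, p ∣ l → ¬ p ∣ q) ∧ δ * GE Pa P1 U q <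
      |SE l Pa U q - GE Pa P1 U q|)).card : ℝ) ≤ β * ((∏ p ∈ Pa, p : ℕ) : ℝ)) :
    (((range (∏ p ∈ Pa ∪ Pb, p)).filter (fun q => (∀ p ∈ Pa ∪ Pb, p ∣ l → ¬ p ∣ q) ∧
      3 * δ * GE (Pa ∪ Pb) P1 U q < |SE l (Pa ∪ Pb) U q - GE (Pa ∪ Pb) P1 U q|)).card : ℝ) ≤
      (β + 2 * Real.exp (-(lam * (U * V (Pa ∪ Pb) / 2) * (δ / 2)))) *
        ((∏ p ∈ Pa ∪ Pb, p : ℕ) : ℝ) := by
  classical
  obtain ⟨D1, hD1⟩ : ∃ D, D = ∏ p ∈ Pa, p := ⟨_, rfl⟩
  obtain ⟨D2, hD2⟩ : ∃ D, D = ∏ p ∈ Pb, p := ⟨_, rfl⟩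
  have hDD : ∏ p ∈ Pa ∪ Pb, p = D1 * D2 := by rw [hD1, hD2, prod_union hd]
  have hV : V (Pa ∪ Pb) = V Pa * V Pb := by
    unfold V
    rw [prod_union hd]
  have hV1 : 0 < V Pa := V_pos hPa
  have hV2 : 0 < V Pb := V_pos (fun p hp => (hPb p hp).1)
  have hcopr : ∀ p ∈ Pb, D1.Coprime p := by
    intro p hp
    rw [hD1]
    apply Nat.Coprime.prod_left
    intro q hq
    rw [Nat.coprime_primes (hPa q hq) (hPb p hp).1]
    rintro rfl
    exact disjoint_left.1 hd hq hp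
  rw [← hD1] at hbad
  rw [hDD]
  obtain ⟨E, hE⟩ : ∃ E : ℝ, E = Real.exp (-(lam * (U * V (Pa ∪ Pb) / 2) * (δ / 2))) := ⟨_, rfl⟩
  rw [← hE]
  have hE0 : 0 < E := by rw [hE]; exact Real.exp_pos _
  obtain ⟨bad, hbaddef⟩ : ∃ bad : ℕ → Prop, bad = fun q => (∀ p ∈ Pa ∪ Pb, p ∣ l → ¬ p ∣ q) ∧
      3 * δ * GE (Pa ∪ Pb) P1 U q < |SE l (Pa ∪ Pb) U q - GE (Pa ∪ Pb) P1 U q| := ⟨_, rfl⟩
  obtain ⟨bad1, hbad1⟩ : ∃ bad1 : ℕ → Prop, bad1 = fun q => (∀ p ∈ Pa, p ∣ l → ¬ p ∣ q) ∧ δ * GE Pa P1 U q <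
      |SE l Pa U q - GE Pa P1 U q| := ⟨_, rfl⟩
  have hdvdD : ∀ p ∈ Pa, p ∣ D1 := fun p hp => by rw [hD1]; exact dvd_prod_of_mem (fun p : ℕ => p) hp
  -- one residue class modulo `D1`
  have key : ∀ i ∈ range D1, ∑ j ∈ range D2, (if bad (i + D1 * j) then (1 : ℝ) else 0) ≤
      (if bad1 i then (1 : ℝ) else 0) * D2 + D2 * (2 * E) := by
    intro i _
    have hmod : ∀ p ∈ Pa, ∀ j, (p ∣ i + D1 * j ↔ p ∣ i) := by
      intro p hp j
      exact Nat.dvd_add_left ((hdvdD p hp).trans (Dvd.intro _ rfl))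
    by_cases hi : bad1 i
    · rw [if_pos hi, one_mul]
      have h1 : ∑ j ∈ range D2, (if bad (i + D1 * j) then (1 : ℝ) else 0) ≤ ∑ j ∈ range D2, (1 : ℝ) := by
        apply sum_le_sum
        intro j _
        split_ifs <;> norm_num
      rw [sum_const, card_range, nsmul_eq_mul, mul_one] at h1
      have h2 : 0 ≤ (D2 : ℝ) * (2 * E) := by positivity
      linarith
    rw [if_neg hi, zero_mul, zero_add]
    by_cases hcop : ∀ p ∈ Pa, p ∣ l → ¬ p ∣ i
    swap
    · push Not at hcop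
      obtain ⟨p, hp, hpl, hpi⟩ := hcop
      have h1 : ∀ j ∈ range D2, (if bad (i + D1 * j) then (1 : ℝ) else 0) = 0 := by
        intro j _
        rw [if_neg]
        rw [hbaddef]
        rintro ⟨h2, -⟩
        exact h2 p (mem_union_left _ hp) hpl ((hmod p hp j).2 hpi)
      rw [sum_congr rfl h1, sum_const_zero]
      positivity
    obtain ⟨g, hg⟩ : ∃ g, g = gq P1 i := ⟨_, rfl⟩
    have hg1 : 1 ≤ g := by rw [hg]; exact gq_ge_one (fun p hp => hPa p (hP1 hp)) i
    have hg0 : 0 < g := by linarith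
    obtain ⟨H, hH⟩ : ∃ H, H = (Icc 1 U).filter (fun m => ∀ p ∈ Pa, ¬ p ∣ l + i * m) := ⟨_, rfl⟩
    have hHc : |(H.card : ℝ) - U * (V Pa * g)| ≤ δ * (U * (V Pa * g)) := by
      rw [hbad1] at hi
      have h1 : ¬ (δ * GE Pa P1 U i < |SE l Pa U i - GE Pa P1 U i|) := fun h => hi ⟨hcop, h⟩
      rw [not_lt] at h1
      have h2 : SE l Pa U i = (H.card : ℝ) := by unfold SE; rw [hH]
      have h3 : GE Pa P1 U i = U * (V Pa * g) := by unfold GE; rw [← hg]; ring
      rwa [h2, h3] at h1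
    have hHI : H ⊆ Icc 1 U := by rw [hH]; exact filter_subset _ _
    have hS : ∀ j, SE l (Pa ∪ Pb) U (i + D1 * j) =
        ((H.filter (fun m => ∀ p ∈ Pb, ¬ p ∣ l + (i + D1 * j) * m)).card : ℝ) := by
      intro j
      unfold SE
      refine congrArg Nat.cast (congrArg card ?_)
      rw [hH, filter_filter]
      apply filter_congr
      intro m _
      have e1 : ∀ p ∈ Pa, (p ∣ l + (i + D1 * j) * m ↔ p ∣ l + i * m) := by
        intro p hp
        obtain ⟨k, hk⟩ := hdvdD p hp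
        have : l + (i + D1 * j) * m = (l + i * m) + p * (k * j * m) := by rw [hk]; ring
        rw [this]
        exact Nat.dvd_add_left (Dvd.intro _ rfl)
      constructor
      · intro h1
        refine ⟨fun p hp => ?_, fun p hp => h1 p (mem_union_right _ hp)⟩
        rw [← e1 p hp]
        exact h1 p (mem_union_left _ hp)
      · rintro ⟨h1, h2⟩ p hp
        rcases mem_union.1 hp with hp | hp
        · rw [e1 p hp]; exact h1 p hp
        · exact h2 p hp
    have hG : ∀ j, GE (Pa ∪ Pb) P1 U (i + D1 * j) = U * (V Pa * g) * V Pb := by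
      intro j
      unfold GE
      rw [gq_congr (fun p hp => hmod p (hP1 hp) j), hV, ← hg]
      ring
    obtain ⟨M, hM⟩ : ∃ M : ℝ, M = ∑ m ∈ H, kap Pb m := ⟨_, rfl⟩
    have hMeq : M = H.card * V Pb := by
      rw [hM, ← nsmul_eq_mul, ← sum_const]
      apply sum_congr rfl
      intro m hm
      have := mem_Icc.1 (hHI hm)
      exact kap_V (fun p hp => (hPb p hp).2) (by omega) this.2
    have hlb : ∀ p ∈ Pb, lam * (2 : ℝ) ≤ 1 := fun p _ => by linarith
    have hHb : ∀ p ∈ Pb, ∀ q : ℕ, ((H.filter (fun m => p ∣ l + q * m)).card : ℝ) ≤ 2 := by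
      intro p hp q
      have hp0 : 0 < p := (hPb p hp).1.pos
      have h1 := cntM p l q U (hPb p hp).1 (fun _ => hl p hp)
      have h2 : ((H.filter (fun m => p ∣ l + q * m)).card : ℝ) ≤
          (((Icc 1 U).filter (fun m => p ∣ l + q * m)).card : ℝ) := by
        exact_mod_cast card_le_card (filter_subset_filter (fun m => p ∣ l + q * m) hHI)
      have h3 : (U : ℝ) / p ≤ 1 := by
        rw [div_le_one (by exact_mod_cast hp0)]
        exact_mod_cast (hPb p hp).2.le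
      linarith
    have hdev := devw Pb (fun _ => 2) l H i D1 lam eta δ (fun p hp => (hPb p hp).1) hl hlam hlb hHb hcopr
      (by linarith) (by
        refine le_trans (le_of_eq ?_) hsum
        rw [mul_sum, mul_sum, mul_sum]
        apply sum_congr rfl
        intro p _
        ring)
    rw [← hM, ← hD2] at hdev
    have hUV : 0 ≤ U * (V Pa * g) := by positivity
    have hHlow : U * (V Pa * g) / 2 ≤ H.card := by
      have := (abs_le.1 hHc).1
      nlinarith
    have hHup : (H.card : ℝ) ≤ 5 / 4 * (U * (V Pa * g)) := by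
      have := (abs_le.1 hHc).2
      nlinarith
    have h1 : ∑ j ∈ range D2, (if bad (i + D1 * j) then (1 : ℝ) else 0) ≤
        (((range D2).filter (fun j => δ * M <
          |((H.filter (fun m => ∀ p ∈ Pb, ¬ p ∣ l + (i + D1 * j) * m)).card : ℝ) - M|)).card : ℝ) := by
      rw [card_filter]
      push_cast
      apply sum_le_sum
      intro j _
      by_cases hb : bad (i + D1 * j)
      · rw [if_pos hb, if_pos]
        rw [hbaddef] at hb
        have hbd := hb.2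
        rw [hS j, hG j] at hbd
        obtain ⟨S, hSd⟩ : ∃ S : ℝ, S = ((H.filter (fun m => ∀ p ∈ Pb, ¬ p ∣ l + (i + D1 * j) * m)).card : ℝ) := ⟨_, rfl⟩
        rw [← hSd] at hbd ⊢
        obtain ⟨G, hGd⟩ : ∃ G : ℝ, G = U * (V Pa * g) * V Pb := ⟨_, rfl⟩
        rw [← hGd] at hbd
        have hG0 : 0 ≤ G := by rw [hGd]; positivity
        have h2 : |S - G| ≤ |S - M| + |M - G| := abs_sub_le _ _ _
        have h3 : |M - G| ≤ δ * G := by
          have e1 : M - G = (H.card - U * (V Pa * g)) * V Pb := by rw [hMeq, hGd]; ring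
          rw [e1, abs_mul, abs_of_pos hV2]
          have := mul_le_mul_of_nonneg_right hHc hV2.le
          calc _ ≤ _ := this
            _ = _ := by rw [hGd]; ring
        have h4 : M ≤ (5 / 4) * G := by
          rw [hMeq, hGd]
          have := mul_le_mul_of_nonneg_right hHup hV2.le
          linarith
        have h8 := mul_le_mul_of_nonneg_left h4 hδ.le
        have h9 : 0 ≤ δ * G := by positivity
        linarith
      · rw [if_neg hb]
        split_ifs <;> norm_num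
    refine h1.trans (hdev.trans ?_)
    have h3 : U * V (Pa ∪ Pb) / 2 ≤ M := by
      rw [hMeq, hV]
      have h4 := mul_le_mul_of_nonneg_right hHlow hV2.le
      have h5 : V Pa * V Pb ≤ V Pa * V Pb * g := le_mul_of_one_le_right (by positivity) hg1
      have h6 := mul_le_mul_of_nonneg_left h5 (Nat.cast_nonneg (α := ℝ) U)
      linarith
    have h4 : Real.exp (-(lam * M * (δ - 2 * eta))) ≤ E := by
      rw [hE]
      apply Real.exp_le_exp.2
      rw [neg_le_neg_iff]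
      have e1 : δ - 2 * eta = δ / 2 := by rw [heta]; ring
      rw [e1]
      apply mul_le_mul_of_nonneg_right _ (by linarith)
      exact mul_le_mul_of_nonneg_left h3 hlam
    have h5 : (0 : ℝ) ≤ 2 * D2 := by positivity
    have h6 := mul_le_mul_of_nonneg_left h4 h5
    linarith
  have h1 : (((range (D1 * D2)).filter bad).card : ℝ) = ∑ i ∈ range D1, ∑ j ∈ range D2, (if bad (i + D1 * j) then (1 : ℝ) else 0) := by
    rw [card_filter]
    push_cast
    exact sum_split D1 D2 (fun n => if bad n then (1 : ℝ) else 0)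
  have h2 : (((range D1).filter bad1).card : ℝ) = ∑ i ∈ range D1, (if bad1 i then (1 : ℝ) else 0) := by
    rw [card_filter]
    push_cast
    rfl
  have h3 : ((D1 * D2 : ℕ) : ℝ) = D1 * D2 := by push_cast; ring
  have h4 := sum_le_sum key
  rw [← h1, sum_add_distrib, ← sum_mul, ← h2, sum_const, card_range, nsmul_eq_mul] at h4
  have h5 : (((range D1).filter bad1).card : ℝ) ≤ β * D1 := by
    rw [hbad1]
    convert hbad
  have h6 : (0 : ℝ) ≤ D2 := Nat.cast_nonneg _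
  have h7 := mul_le_mul_of_nonneg_right h5 h6
  have h8 : (((range (D1 * D2)).filter (fun q => (∀ p ∈ Pa ∪ Pb, p ∣ l → ¬ p ∣ q) ∧
      3 * δ * GE (Pa ∪ Pb) P1 U q < |SE l (Pa ∪ Pb) U q - GE (Pa ∪ Pb) P1 U q|)).card : ℝ) ≤
      (((range (D1 * D2)).filter bad).card : ℝ) := by
    rw [hbaddef]
    apply le_of_eq
    congr
  refine h8.trans ?_
  rw [h3]
  calc _ ≤ _ := h4
    _ ≤ β * D1 * D2 + D1 * (D2 * (2 * E)) := by linarith
    _ = _ := by ring

end Pool.Agent.Y829.ET
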