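import Pool.Agent.Y829.ET2

/-! The model sum for windows of length `log x (log log x)^3`. -/

set_option autoImplicit false

namespace Pool.Agent.Y829.ET

open Finset Filter Topology Pool.Agent.Y829 Pool.Agent.Y829.EH Pool.Agent.Y829.RP Pool.Agent.Y829.RS

lemma exp_half_le {ε : ℝ} (h0 : 0 ≤ ε) (h1 : ε ≤ 1) : Real.exp (ε / 2) ≤ 1 + 3 / 4 * ε := by
  have h2 := Real.abs_exp_sub_one_sub_id_le (x := ε / 2) (by rw [abs_of_nonneg (by linarith)]; linarith)
  have h3 := (abs_le.1 h2).2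
  nlinarith

lemma gqall (K : ℕ) (ε a : ℝ) (hε : 0 < ε) (hε1 : ε ≤ 1) (ha : 0 < a) : ∃ x0 : ℕ, ∀ x : ℕ, x0 ≤ x → ∀ R : ℕ,
    1 ≤ R → R ≤ x → ∀ c : ℕ → ℕ → ℝ, (∀ q, 0 ≤ wt R c q) → ∑ d ∈ Icc 1 R, ss c d ^ 2 / d ≤ Real.log x ^ K →
    1 / (2 * Real.log x ^ K) ≤ mu R c →
    ∑ q ∈ range x.factorial, wt R c q * gq (PQ x) q ≤
      (1 + ε) * ∑ q ∈ range x.factorial, wt R c q * gq ((PQ x).filter (fun p : ℕ => (p : ℝ) ≤ Real.log x ^ a)) q := by
  classical
  obtain ⟨X2, hX2⟩ := badmass K (K + 2)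
  obtain ⟨cm, hcm, hmert⟩ := mert
  have E := ((log_tend.eventually_ge_atTop (1 + 8 / (ε * cm))).and
    (evl a (4 / ε * (2 * K + 4 * (K + 2) + 10)) (4 / ε * (4 + Real.log 4)) ha)).and
    (eventually_ge_atTop 3)
  obtain ⟨X3, hX3⟩ := E.exists_forall_of_atTop
  refine ⟨max X2 X3, ?_⟩
  intro x hx R hR hRx c hw hc hmu
  have hc2 := hX2 x ((le_max_left _ _).trans hx) R hR hRx c hc
  obtain ⟨⟨e1, e2⟩, e3⟩ := hX3 x ((le_max_right _ _).trans hx)
  have hP : ∀ p ∈ PQ x, p.Prime := fun p hp => (mem_PQ.1 hp).1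
  have hVP : cm / Real.log x ≤ V (PQ x) := hmert x (by omega) (PQ x) fun p hp => ⟨hP p hp, (mem_PQ.1 hp).2⟩
  have hV0 : 0 < V (PQ x) := V_pos hP
  obtain ⟨L, hL⟩ : ∃ L : ℝ, L = Real.log x := ⟨_, rfl⟩
  rw [← hL] at hc2 hc e1 e2 hmu hVP ⊢
  have hL1 : 1 ≤ L := by
    have : 0 ≤ 8 / (ε * cm) := by positivity
    linarith
  have hL0 : 0 < L := by linarith
  obtain ⟨N, hN⟩ : ∃ N, N = x.factorial := ⟨_, rfl⟩
  have hN0 : 0 < N := by rw [hN]; exact Nat.factorial_pos _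
  have hdNx : ∀ d ∈ Icc 1 x, d ∣ N := by rw [hN]; exact dvdfac x
  have hdN : ∀ d ∈ Icc 1 R, d ∣ N := fun d hd => hdNx d (mem_Icc.2 ⟨(mem_Icc.1 hd).1, (mem_Icc.1 hd).2.trans hRx⟩)
  have hPN : ∀ p ∈ PQ x, p ∣ N := fun p hp => hdNx p (mem_Icc.2 ⟨(hP p hp).one_lt.le, (mem_PQ.1 hp).2⟩)
  rw [← hN]
  obtain ⟨P0, hP0⟩ : ∃ P0, P0 = (PQ x).filter (fun p : ℕ => (p : ℝ) ≤ L ^ a) := ⟨_, rfl⟩
  obtain ⟨P2, hP2⟩ : ∃ P2, P2 = (PQ x).filter (fun p : ℕ => ¬ (p : ℝ) ≤ L ^ a) := ⟨_, rfl⟩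
  rw [← hP0]
  have hun : PQ x = P0 ∪ P2 := by rw [hP0, hP2, filter_union_filter_not_eq]
  have hdis : Disjoint P0 P2 := by rw [hP0, hP2]; exact disjoint_filter_filter_not _ _ _
  have hP0s : P0 ⊆ PQ x := by rw [hP0]; exact filter_subset _ _
  have hP2s : P2 ⊆ PQ x := by rw [hP2]; exact filter_subset _ _
  have hT1 : 1 ≤ L ^ a := Real.one_le_rpow hL1 ha.le
  have hexp := expdiv (P := P2) (fun p hp => hP p (hP2s hp)) (L ^ a) hT1 (fun p hp => by
    rw [hP2, mem_filter, not_le] at hp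
    exact hp.2) N hN0 (fun p hp => hPN p (hP2s hp))
  obtain ⟨sg, hsg⟩ : ∃ sg : ℕ → ℝ, sg = fun q => ∑ p ∈ P2.filter (fun p => p ∣ q), 1 / (p : ℝ) := ⟨_, rfl⟩
  have hexp' : ∑ q ∈ range N, Real.exp (L ^ a * sg q) ≤ N * Real.exp 4 := by rw [hsg]; exact hexp
  obtain ⟨B, hB⟩ : ∃ B, B = (range N).filter (fun q => ε / 4 < sg q) := ⟨_, rfl⟩
  have hBs : B ⊆ range N := by rw [hB]; exact filter_subset _ _
  have hNr : (0 : ℝ) < N := by exact_mod_cast hN0
  have hcount : (B.card : ℝ) * L ^ (2 * K + 4 * (K + 2) + 10) ≤ N := by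
    have h1 : (B.card : ℝ) * Real.exp (L ^ a * (ε / 4)) ≤ N * Real.exp 4 := by
      rw [← nsmul_eq_mul, ← sum_const]
      refine le_trans ?_ hexp'
      refine le_trans (sum_le_sum ?_) (sum_le_sum_of_subset_of_nonneg hBs fun q _ _ => (Real.exp_pos _).le)
      intro q hq
      rw [hB, mem_filter] at hq
      apply Real.exp_le_exp.2
      exact mul_le_mul_of_nonneg_left hq.2.le (by positivity)
    have h2 : 4 * (Real.exp (-(L ^ a * (ε / 4) - 4)) * L ^ (2 * K + 4 * (K + 2) + 10)) ≤ 1 := by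
      apply expneg_le hL0
      have h3 := mul_le_mul_of_nonneg_left e2 (show 0 ≤ ε / 4 by positivity)
      have h4 : ε / 4 * (4 / ε * (2 * K + 4 * (K + 2) + 10) * Real.log L + 4 / ε * (4 + Real.log 4)) =
          (2 * K + 4 * (K + 2) + 10) * Real.log L + (4 + Real.log 4) := by
        field_simp
      rw [h4] at h3
      push_cast
      linarith
    have h3 : Real.exp (-(L ^ a * (ε / 4) - 4)) = Real.exp 4 * Real.exp (-(L ^ a * (ε / 4))) := by
      rw [← Real.exp_add]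
      congr 1
      ring
    rw [h3] at h2
    have h4 : (B.card : ℝ) ≤ N * (Real.exp 4 * Real.exp (-(L ^ a * (ε / 4)))) := by
      have h5 := mul_le_mul_of_nonneg_right h1 (Real.exp_pos (-(L ^ a * (ε / 4)))).le
      rw [mul_assoc, ← Real.exp_add, add_neg_cancel, Real.exp_zero, mul_one] at h5
      linarith
    have hLp : 0 ≤ L ^ (2 * K + 4 * (K + 2) + 10) := by positivity
    have h5 := mul_le_mul_of_nonneg_right h4 hLp
    have h6 : N * (Real.exp 4 * Real.exp (-(L ^ a * (ε / 4)))) * L ^ (2 * K + 4 * (K + 2) + 10) ≤ N * 1 := by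
      rw [mul_assoc]
      apply mul_le_mul_of_nonneg_left _ hNr.le
      have : 0 ≤ Real.exp 4 * Real.exp (-(L ^ a * (ε / 4))) * L ^ (2 * K + 4 * (K + 2) + 10) := by positivity
      linarith
    linarith
  have hb := hc2 N hdN B hBs hcount
  have hb' : ∑ n ∈ B, |wt R c n| = ∑ n ∈ B, wt R c n := sum_congr rfl fun n _ => abs_of_nonneg (hw n)
  rw [hb'] at hb
  have hsw := sum_wt R N c hdN
  have hmu0 : 0 < mu R c := lt_of_lt_of_le (by positivity) hmu
  obtain ⟨G0, hG0⟩ : ∃ G0, G0 = ∑ q ∈ range N, wt R c q * gq P0 q := ⟨_, rfl⟩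
  rw [← hG0]
  have hg1 : ∀ q, 1 ≤ gq P0 q := fun q => gq_ge_one (fun p hp => hP p (hP0s hp)) q
  have hG0mu : N * mu R c ≤ G0 := by
    rw [← hsw, hG0]
    apply sum_le_sum
    intro q _
    exact le_mul_of_one_le_right (hw q) (hg1 q)
  have h1 : ∀ q ∈ range N, wt R c q * gq (PQ x) q ≤ (1 + 3 / 4 * ε) * (wt R c q * gq P0 q) +
      (if ε / 4 < sg q then wt R c q * (L / cm) else 0) := by
    intro q _
    have hw0 := hw q
    have hg0 := hg1 q
    by_cases hq : ε / 4 < sg q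
    · rw [if_pos hq]
      have h2 : gq (PQ x) q ≤ L / cm := by
        have h3 := VP_gq_le hP (Subset.refl (PQ x)) q
        have h4 : cm / L * gq (PQ x) q ≤ 1 := by
          refine le_trans ?_ h3
          apply mul_le_mul_of_nonneg_right hVP
          exact zero_le_one.trans (gq_ge_one hP q)
        rw [le_div_iff₀ hcm]
        rw [div_mul_eq_mul_div, div_le_one hL0] at h4
        linarith
      have h3 := mul_le_mul_of_nonneg_left h2 hw0
      have h4 : 0 ≤ (1 + 3 / 4 * ε) * (wt R c q * gq P0 q) := by positivity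
      linarith
    · rw [if_neg hq, add_zero]
      rw [not_lt] at hq
      have h2 : gq (PQ x) q = gq P0 q * gq P2 q := by rw [hun, gq_union hdis]
      have h3 : gq P2 q ≤ 1 + 3 / 4 * ε := by
        refine (gq_le_exp (P := P2) (fun p hp => hP p (hP2s hp)) q).trans ?_
        refine le_trans ?_ (exp_half_le hε.le hε1)
        apply Real.exp_le_exp.2
        have : ∑ p ∈ P2.filter (fun p => p ∣ q), 1 / (p : ℝ) = sg q := by rw [hsg]
        rw [this]
        linarith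
      rw [h2]
      have h4 : wt R c q * (gq P0 q * gq P2 q) ≤ wt R c q * (gq P0 q * (1 + 3 / 4 * ε)) := by
        apply mul_le_mul_of_nonneg_left _ hw0
        exact mul_le_mul_of_nonneg_left h3 (by linarith)
      linarith
  refine (sum_le_sum h1).trans ?_
  rw [sum_add_distrib, ← mul_sum, ← hG0, ← sum_filter, ← sum_mul, ← hB]
  have h2 : (∑ n ∈ B, wt R c n) * (L / cm) ≤ ε / 4 * (N * mu R c) := by
    have h3 : (∑ n ∈ B, wt R c n) ≤ N / L ^ (K + 2) := by
      rw [le_div_iff₀ (by positivity)]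
      exact hb
    have h4 := mul_le_mul_of_nonneg_right h3 (show 0 ≤ L / cm by positivity)
    refine h4.trans ?_
    have h5 : ε / 4 * (N * (1 / (2 * L ^ K))) ≤ ε / 4 * (N * mu R c) := by
      apply mul_le_mul_of_nonneg_left _ (by positivity)
      exact mul_le_mul_of_nonneg_left hmu hNr.le
    refine le_trans ?_ h5
    have h6 : ε / 4 * (N * (1 / (2 * L ^ K))) = (N / L ^ (K + 2) * (L / cm)) * (ε * cm * L / 8) := by
      rw [pow_add]
      field_simp
      ring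
    rw [h6]
    have h9 : 1 ≤ ε * cm * L / 8 := by
      have h10 : 8 / (ε * cm) ≤ L := by linarith
      rw [div_le_iff₀ (by positivity)] at h10
      linarith
    exact le_mul_of_one_le_right (by positivity) h9
  have h3 : ε / 4 * (N * mu R c) ≤ ε / 4 * G0 := mul_le_mul_of_nonneg_left hG0mu (by positivity)
  linarith

end Pool.Agent.Y829.ET
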