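import Pool.Agent.Y829.ET3

/-! The model sum for windows of length `log x (log log x)^3`, part 2. -/

set_option autoImplicit false

namespace Pool.Agent.Y829.ET

open Finset Filter Topology Pool.Agent.Y829 Pool.Agent.Y829.EH Pool.Agent.Y829.RP Pool.Agent.Y829.RS

theorem winm (K b : ℕ) : ∃ x0 : ℕ, ∀ x : ℕ, x0 ≤ x → ∀ U : ℕ,
    Real.log x * Real.log (Real.log x) ^ 3 ≤ U → ∀ R l : ℕ, 1 ≤ R → R ≤ x → 0 < l → (l : ℝ) ≤ Real.log (Real.log x) →
    ∀ c : ℕ → ℕ → ℝ, (∀ q, 0 ≤ wt R c q) → ∑ d ∈ Icc 1 R, ss c d ^ 2 / d ≤ Real.log x ^ K →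
    1 / (2 * Real.log x ^ K) ≤ mu R c → (∀ p, p.Prime → p ∣ l → ∀ q, p ∣ q → wt R c q = 0) →
    (1 - (1 / 2 : ℝ) ^ b) * (U * V (PQ x) * ∑ q ∈ range x.factorial, wt R c q * gq ((PQ x).filter (fun p : ℕ => (p : ℝ) ≤ Real.log x / 8)) q) ≤
      ∑ q ∈ range x.factorial, wt R c q * SE l (PQ x) U q ∧
    ∑ q ∈ range x.factorial, wt R c q * SE l (PQ x) U q ≤
      (1 + 3 * (1 / 2 : ℝ) ^ b) * (U * V (PQ x) * ∑ q ∈ range x.factorial, wt R c q * gq ((PQ x).filter (fun p : ℕ => (p : ℝ) ≤ Real.log x / 8)) q) := by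
  classical
  obtain ⟨δ1, hδ1⟩ : ∃ δ1 : ℝ, δ1 = (1 / 2 : ℝ) ^ (b + 3) := ⟨_, rfl⟩
  have hδ10 : 0 < δ1 := by rw [hδ1]; positivity
  have hδb : (1 / 2 : ℝ) ^ b = 8 * δ1 := by rw [hδ1, pow_add]; norm_num; ring
  have hδ11 : δ1 ≤ 1 / 8 := by
    have : (1 / 2 : ℝ) ^ b ≤ 1 := pow_le_one₀ (by norm_num) (by norm_num)
    linarith
  obtain ⟨a, X1, ha0, hX1⟩ := concE (b + 3) (2 * K + 4 * (K + 2) + 10)
  obtain ⟨X2, hX2⟩ := badmass K (K + 2)
  obtain ⟨a', ha'⟩ : ∃ a' : ℝ, a' = min a (1 / 2) := ⟨_, rfl⟩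
  have ha'0 : 0 < a' := by rw [ha']; exact lt_min ha0 (by norm_num)
  obtain ⟨X4, hX4⟩ := gqall K δ1 a' hδ10 (by linarith) ha'0
  obtain ⟨cm, hcm, hmert⟩ := mert
  have E := (log_tend.eventually_ge_atTop (64 + 2 / (δ1 * cm))).and (eventually_ge_atTop 3)
  obtain ⟨X3, hX3⟩ := E.exists_forall_of_atTop
  refine ⟨max (max X1 X2) (max X3 X4), ?_⟩
  intro x hx U hU R l hR hRx hl0 hlll c hw hc hmu hwl
  obtain ⟨P1, hP1P, hP1, hc1⟩ := hX1 x ((le_max_left _ _).trans ((le_max_left _ _).trans hx)) U l hU hl0 hlll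
  have hc2 := hX2 x ((le_max_right _ _).trans ((le_max_left _ _).trans hx)) R hR hRx c hc
  have hc4 := hX4 x ((le_max_right _ _).trans ((le_max_right _ _).trans hx)) R hR hRx c hw hc hmu
  obtain ⟨e1, e2⟩ := hX3 x ((le_max_left _ _).trans ((le_max_right _ _).trans hx))
  have hP : ∀ p ∈ PQ x, p.Prime := fun p hp => (mem_PQ.1 hp).1
  have hVP : cm / Real.log x ≤ V (PQ x) := hmert x (by omega) (PQ x) fun p hp => ⟨hP p hp, (mem_PQ.1 hp).2⟩
  have hV0 : 0 < V (PQ x) := V_pos hP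
  obtain ⟨L, hL⟩ : ∃ L : ℝ, L = Real.log x := ⟨_, rfl⟩
  rw [← hL] at hc1 hc2 hc4 hc e1 hmu hVP hP1 ⊢
  have hL64 : 64 ≤ L := by
    have : 0 ≤ 2 / (δ1 * cm) := by positivity
    linarith
  have hL1 : 1 ≤ L := by linarith
  have hL0 : 0 < L := by linarith
  obtain ⟨M, hM⟩ : ∃ M, M = ∏ p ∈ PQ x, p := ⟨_, rfl⟩
  have hM0 : 0 < M := by rw [hM]; exact prod_pos fun p hp => (hP p hp).pos
  obtain ⟨N, hN⟩ : ∃ N, N = x.factorial := ⟨_, rfl⟩
  have hN0 : 0 < N := by rw [hN]; exact Nat.factorial_pos _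
  have hdNx : ∀ d ∈ Icc 1 x, d ∣ N := by rw [hN]; exact dvdfac x
  have hdN : ∀ d ∈ Icc 1 R, d ∣ N := fun d hd => hdNx d (mem_Icc.2 ⟨(mem_Icc.1 hd).1, (mem_Icc.1 hd).2.trans hRx⟩)
  rw [← hN] at hc4 ⊢
  have hMN : M ∣ N := by
    rw [hM]
    apply Finset.prod_primes_dvd
    · intro p hp; exact (hP p hp).prime
    · intro p hp
      exact hdNx p (mem_Icc.2 ⟨(hP p hp).one_lt.le, (mem_PQ.1 hp).2⟩)
  obtain ⟨k, hk⟩ := hMN
  rw [← hM] at hc1
  have hdvdM : ∀ p ∈ PQ x, p ∣ M := fun p hp => by rw [hM]; exact dvd_prod_of_mem (fun p : ℕ => p) hp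
  obtain ⟨bad, hbad⟩ : ∃ bad : ℕ → Prop, bad = fun q => (∀ p ∈ PQ x, p ∣ l → ¬ p ∣ q) ∧
      δ1 * GE (PQ x) P1 U q < |SE l (PQ x) U q - GE (PQ x) P1 U q| := ⟨_, rfl⟩
  have hc1' : (((range M).filter bad).card : ℝ) * L ^ (2 * K + 4 * (K + 2) + 10) ≤ M := by
    rw [hbad, hδ1]
    convert hc1
  have hper : ∀ n, (if bad (n + M) then (1 : ℝ) else 0) = if bad n then (1 : ℝ) else 0 := by
    intro n
    have h1 : bad (n + M) ↔ bad n := by
      rw [hbad]
      show ((∀ p ∈ PQ x, p ∣ l → ¬ p ∣ (n + M)) ∧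
        δ1 * GE (PQ x) P1 U (n + M) < |SE l (PQ x) U (n + M) - GE (PQ x) P1 U (n + M)|) ↔
        ((∀ p ∈ PQ x, p ∣ l → ¬ p ∣ n) ∧
        δ1 * GE (PQ x) P1 U n < |SE l (PQ x) U n - GE (PQ x) P1 U n|)
      have g1 : GE (PQ x) P1 U (n + M) = GE (PQ x) P1 U n := by
        unfold GE
        rw [gq_per P1 M n (fun p hp => hdvdM p (hP1P hp))]
      rw [g1, SE_per l (PQ x) U M n hdvdM]
      have g2 : (∀ p ∈ PQ x, p ∣ l → ¬ p ∣ (n + M)) ↔ (∀ p ∈ PQ x, p ∣ l → ¬ p ∣ n) := by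
        constructor
        · intro h p hp hpl hpn
          exact h p hp hpl ((Nat.dvd_add_left (hdvdM p hp)).2 hpn)
        · intro h p hp hpl hpn
          exact h p hp hpl ((Nat.dvd_add_left (hdvdM p hp)).1 hpn)
      rw [g2]
    simp only [h1]
  have hcount : (((range N).filter bad).card : ℝ) * L ^ (2 * K + 4 * (K + 2) + 10) ≤ N := by
    have h1 : (((range N).filter bad).card : ℝ) = k * (((range M).filter bad).card : ℝ) := by
      rw [card_filter, card_filter, hk]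
      push_cast
      exact per_sum hper k
    rw [h1, hk]
    push_cast
    have := mul_le_mul_of_nonneg_left hc1' (Nat.cast_nonneg (α := ℝ) k)
    linarith
  have hb := hc2 N hdN ((range N).filter bad) (filter_subset _ _) hcount
  have hb' : ∑ n ∈ (range N).filter bad, |wt R c n| = ∑ n ∈ (range N).filter bad, wt R c n :=
    sum_congr rfl fun n _ => abs_of_nonneg (hw n)
  rw [hb'] at hb
  have hsw := sum_wt R N c hdN
  have hUr : (0 : ℝ) ≤ U := Nat.cast_nonneg _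
  have hNr : (0 : ℝ) < N := by exact_mod_cast hN0
  have hmu0 : 0 < mu R c := lt_of_lt_of_le (by positivity) hmu
  have hP1p : ∀ p ∈ P1, p.Prime := fun p hp => hP p (hP1P hp)
  obtain ⟨G1, hG1⟩ : ∃ G1, G1 = ∑ q ∈ range N, wt R c q * gq P1 q := ⟨_, rfl⟩
  have hG1mu : N * mu R c ≤ G1 := by
    rw [← hsw, hG1]
    apply sum_le_sum
    intro q _
    exact le_mul_of_one_le_right (hw q) (gq_ge_one hP1p q)
  have hGE : ∑ q ∈ range N, wt R c q * GE (PQ x) P1 U q = U * V (PQ x) * G1 := by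
    rw [hG1, mul_sum]
    apply sum_congr rfl
    intro q _
    unfold GE
    ring
  have h1 : |∑ q ∈ range N, wt R c q * SE l (PQ x) U q - U * V (PQ x) * G1| ≤ 2 * δ1 * (U * V (PQ x) * G1) := by
    rw [← hGE, ← sum_sub_distrib]
    refine (abs_sum_le_sum_abs _ _).trans ?_
    have h3 : ∀ n ∈ range N, |wt R c n * SE l (PQ x) U n - wt R c n * GE (PQ x) P1 U n| ≤
        δ1 * (wt R c n * GE (PQ x) P1 U n) + (if bad n then wt R c n * U else 0) := by
      intro n _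
      have hgn : 0 ≤ GE (PQ x) P1 U n := by
        unfold GE
        have := gq_ge_one hP1p n
        positivity
      rw [← mul_sub, abs_mul, abs_of_nonneg (hw n)]
      by_cases hbn : bad n
      · rw [if_pos hbn]
        have h4 : |SE l (PQ x) U n - GE (PQ x) P1 U n| ≤ U := by
          have a1 := SE_le l (PQ x) U n
          have a2 := SE_nonneg l (PQ x) U n
          have a3 : GE (PQ x) P1 U n ≤ U := by
            unfold GE
            have := mul_le_mul_of_nonneg_left (VP_gq_le hP hP1P n) hUr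
            linarith
          rw [abs_le]
          constructor <;> linarith
        have h5 := mul_le_mul_of_nonneg_left h4 (hw n)
        have h6 : 0 ≤ δ1 * (wt R c n * GE (PQ x) P1 U n) := by
          have := hw n
          positivity
        linarith
      · rw [if_neg hbn, add_zero]
        by_cases hcop : ∀ p ∈ PQ x, p ∣ l → ¬ p ∣ n
        · have h5 : |SE l (PQ x) U n - GE (PQ x) P1 U n| ≤ δ1 * GE (PQ x) P1 U n := by
            rw [hbad] at hbn
            by_contra h6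
            rw [not_le] at h6
            exact hbn ⟨hcop, h6⟩
          have h6 := mul_le_mul_of_nonneg_left h5 (hw n)
          linarith
        · push Not at hcop
          obtain ⟨p, hp, hpl, hpn⟩ := hcop
          rw [hwl p (hP p hp) hpl n hpn]
          simp
    refine (sum_le_sum h3).trans ?_
    rw [sum_add_distrib, ← mul_sum, hGE, ← sum_filter, ← sum_mul]
    have h4 : (∑ n ∈ (range N).filter bad, wt R c n) * U ≤ δ1 * (U * V (PQ x) * G1) := by
      have h5 : (∑ n ∈ (range N).filter bad, wt R c n) ≤ N / L ^ (K + 2) := by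
        rw [le_div_iff₀ (by positivity)]
        exact hb
      have h6 : (N : ℝ) / L ^ (K + 2) ≤ δ1 * V (PQ x) * G1 := by
        have h7 : δ1 * (cm / L) * (N * (1 / (2 * L ^ K))) ≤ δ1 * V (PQ x) * G1 := by
          apply mul_le_mul
          · exact mul_le_mul_of_nonneg_left hVP hδ10.le
          · exact (mul_le_mul_of_nonneg_left hmu hNr.le).trans hG1mu
          · positivity
          · positivity
        refine le_trans ?_ h7
        have h8 : δ1 * (cm / L) * (N * (1 / (2 * L ^ K))) = (N / L ^ (K + 2)) * (δ1 * cm * L / 2) := by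
          rw [pow_add]
          field_simp
        rw [h8]
        have h9 : 1 ≤ δ1 * cm * L / 2 := by
          have h10 : 2 / (δ1 * cm) ≤ L := by linarith
          rw [div_le_iff₀ (by positivity)] at h10
          linarith
        exact le_mul_of_one_le_right (by positivity) h9
      have h7 := mul_le_mul_of_nonneg_right (h5.trans h6) hUr
      refine h7.trans (le_of_eq ?_)
      ring
    linarith
  -- the local factors
  obtain ⟨Py, hPy⟩ : ∃ Py, Py = (PQ x).filter (fun p : ℕ => (p : ℝ) ≤ L / 8) := ⟨_, rfl⟩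
  obtain ⟨P0, hP0⟩ : ∃ P0, P0 = (PQ x).filter (fun p : ℕ => (p : ℝ) ≤ L ^ a') := ⟨_, rfl⟩
  rw [← hP0] at hc4
  rw [← hPy]
  have hLa1 : L ^ a' ≤ L ^ a := Real.rpow_le_rpow_of_exponent_le hL1 (by rw [ha']; exact min_le_left _ _)
  have hLa2 : L ^ a' ≤ L / 8 := by
    have h2 : L ^ a' ≤ L ^ (1 / 2 : ℝ) := Real.rpow_le_rpow_of_exponent_le hL1 (by rw [ha']; exact min_le_right _ _)
    refine h2.trans ?_
    rw [← Real.sqrt_eq_rpow, Real.sqrt_le_iff]
    refine ⟨by positivity, ?_⟩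
    nlinarith
  have s1 : P0 ⊆ P1 := by
    intro p hp
    rw [hP0, mem_filter] at hp
    exact hP1 p hp.1 (hp.2.trans hLa1)
  have s2 : P0 ⊆ Py := by
    intro p hp
    rw [hP0, mem_filter] at hp
    rw [hPy, mem_filter]
    exact ⟨hp.1, hp.2.trans hLa2⟩
  have s3 : Py ⊆ PQ x := by rw [hPy]; exact filter_subset _ _
  obtain ⟨Γ, hΓ⟩ : ∃ Γ, Γ = ∑ q ∈ range N, wt R c q * gq Py q := ⟨_, rfl⟩
  obtain ⟨G0, hG0⟩ : ∃ G0, G0 = ∑ q ∈ range N, wt R c q * gq P0 q := ⟨_, rfl⟩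
  obtain ⟨Ga, hGa⟩ : ∃ Ga, Ga = ∑ q ∈ range N, wt R c q * gq (PQ x) q := ⟨_, rfl⟩
  rw [← hΓ]
  rw [← hGa, ← hG0] at hc4
  have t1 : G0 ≤ G1 := by
    rw [hG0, hG1]
    exact sum_le_sum fun q _ => mul_le_mul_of_nonneg_left (gq_mono s1 hP1p q) (hw q)
  have t2 : G0 ≤ Γ := by
    rw [hG0, hΓ]
    exact sum_le_sum fun q _ => mul_le_mul_of_nonneg_left (gq_mono s2 (fun p hp => hP p (s3 hp)) q) (hw q)
  have t3 : G1 ≤ Ga := by
    rw [hGa, hG1]
    exact sum_le_sum fun q _ => mul_le_mul_of_nonneg_left (gq_mono hP1P hP q) (hw q)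
  have t4 : Γ ≤ Ga := by
    rw [hGa, hΓ]
    exact sum_le_sum fun q _ => mul_le_mul_of_nonneg_left (gq_mono s3 hP q) (hw q)
  have hN0mu : 0 < N * mu R c := by positivity
  have hG10 : 0 ≤ G1 := by linarith
  have hUV : 0 ≤ U * V (PQ x) := by positivity
  have u1 : G1 ≤ (1 + δ1) * Γ := by nlinarith
  have u2 : Γ ≤ (1 + δ1) * G1 := by nlinarith
  have hΓ0 : 0 ≤ Γ := by
    have : 0 ≤ (1 + δ1) * Γ := hG10.trans u1
    exact nonneg_of_mul_nonneg_right this (by linarith)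
  have h1' := abs_le.1 h1
  have v1 := mul_le_mul_of_nonneg_left u1 hUV
  have v2 := mul_le_mul_of_nonneg_left u2 hUV
  obtain ⟨W, hW⟩ : ∃ W, W = U * V (PQ x) * Γ := ⟨_, rfl⟩
  obtain ⟨W1, hW1⟩ : ∃ W1, W1 = U * V (PQ x) * G1 := ⟨_, rfl⟩
  have v1' : W1 ≤ (1 + δ1) * W := by rw [hW, hW1]; linarith
  have v2' : W ≤ (1 + δ1) * W1 := by rw [hW, hW1]; linarith
  rw [← hW1] at h1'
  rw [← hW, hδb]
  have hW0 : 0 ≤ W := by rw [hW]; positivity
  have hW10 : 0 ≤ W1 := by rw [hW1]; positivity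
  constructor
  · nlinarith [h1'.1, mul_nonneg hδ10.le hW10]
  · nlinarith [h1'.2, mul_nonneg hδ10.le hW0]

end Pool.Agent.Y829.ET
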