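import Pool.Agent.Y829.G3

/-! Sieve weights and windows: two sided theorem, several classes. -/

set_option autoImplicit false

namespace Pool.Agent.Y829

open Finset Filter Topology

lemma SO_per (Om : ℕ → Finset ℕ) (R : Finset ℕ) (U T n : ℕ) (hR : ∀ p ∈ R, p ∣ T) :
    SO Om R U (n + T) = SO Om R U n := by
  classical
  unfold SO
  refine congrArg Nat.cast (congrArg card ?_)
  apply filter_congr
  intro h _
  have e1 : ∀ p ∈ R, (n + T + h) % p = (n + h) % p := by
    intro p hp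
    obtain ⟨k, hk⟩ := hR p hp
    have : n + T + h = (n + h) + p * k := by rw [hk]; ring
    rw [this]
    exact Nat.add_mul_mod_self_left _ _ _
  constructor
  · intro h1 p hp
    rw [← e1 p hp]
    exact h1 p hp
  · intro h1 p hp
    rw [e1 p hp]
    exact h1 p hp

theorem main2 (κ : ℕ) : ∃ C : ℕ, 1 ≤ C ∧ ∀ b : ℕ, C ≤ b → ∃ U1 : ℕ, ∀ (U Q N : ℕ) (P : Finset ℕ)
    (Om : ℕ → Finset ℕ) (w : ℕ → ℝ), U1 ≤ U → 1 ≤ Q → Real.log Q ≤ (U : ℝ) ^ (1 / ((C : ℝ) * b)) →
    0 < N → (∀ d ∈ Icc 1 Q, d ∣ N) → (∀ n, 0 ≤ w n) → Lev Q w → (∀ p ∈ P, p.Prime ∧ p ∣ N) →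
    (∀ p ∈ P, Om p ⊆ range p ∧ (Om p).card ≤ κ ∧ (Om p).card < p) →
    |∑ n ∈ range N, w n * SO Om P U n - U * VO Om P * ∑ n ∈ range N, w n| ≤
      (1 / 2 : ℝ) ^ b * (U * VO Om P * ∑ n ∈ range N, w n) ∧
    ((∀ p ∈ P, Real.log p ≤ (U : ℝ) ^ (1 / ((C : ℝ) * b))) →
      ∑ n ∈ (range N).filter (fun n => (1 / 2 : ℝ) ^ b * (U * VO Om P) < |SO Om P U n - U * VO Om P|), w n ≤
        Real.exp (-(U : ℝ) ^ (1 / ((C : ℝ) * b))) * ∑ n ∈ range N, w n) := by
  classical
  obtain ⟨C1, hC1, htail⟩ := gtail κ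
  refine ⟨2 * C1, by omega, ?_⟩
  intro b hb
  obtain ⟨U1, hU12, htail1⟩ := htail (b + 1) (by omega)
  have hb1 : 1 ≤ b := by omega
  have hbr : (1 : ℝ) ≤ b := by exact_mod_cast hb1
  have hC1r : (1 : ℝ) ≤ C1 := by exact_mod_cast hC1
  set a : ℝ := 1 / ((C1 : ℝ) * ((b + 1 : ℕ) : ℝ)) with ha
  set a' : ℝ := 1 / (((2 * C1 : ℕ) : ℝ) * b) with ha'
  have ha0 : 0 < a := by positivity
  have ha'0 : 0 < a' := by positivity
  have haa' : a' ≤ a := by
    rw [ha, ha']
    apply one_div_le_one_div_of_le (by positivity)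
    push_cast
    nlinarith
  have E1 := ev a (1 / 2) (b + 1) ha0
  obtain ⟨U2, hU2⟩ := E1.exists_forall_of_atTop
  refine ⟨max U1 U2, ?_⟩
  intro U Q N P Om w hU hQ hlog' hN hdN hw0 hw hP hOm
  have hU1' : U1 ≤ U := (le_max_left _ _).trans hU
  have ev1 := hU2 U ((le_max_right _ _).trans hU)
  have hQ0 : (0 : ℝ) < Q := by exact_mod_cast hQ
  have hUr : (1 : ℝ) ≤ U := by exact_mod_cast (by omega : 1 ≤ U)
  have hUpos : (0 : ℝ) < U := by linarith
  have hUa1 : 1 ≤ (U : ℝ) ^ a := Real.one_le_rpow hUr ha0.le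
  have hUaa : (U : ℝ) ^ a' ≤ (U : ℝ) ^ a := Real.rpow_le_rpow_of_exponent_le hUr haa'
  have hlog : Real.log Q ≤ (U : ℝ) ^ a := hlog'.trans hUaa
  have hQexp : (Q : ℝ) ^ 2 ≤ Real.exp (2 * (U : ℝ) ^ a) := by
    have h1 : (Q : ℝ) ≤ Real.exp ((U : ℝ) ^ a) := (Real.log_le_iff_le_exp hQ0).1 hlog
    calc (Q : ℝ) ^ 2 ≤ (Real.exp ((U : ℝ) ^ a)) ^ 2 := pow_le_pow_left₀ hQ0.le h1 2
      _ = Real.exp (2 * (U : ℝ) ^ a) := by rw [← Real.exp_nat_mul]; norm_num
  have hPp : ∀ p ∈ P, p.Prime := fun p hp => (hP p hp).1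
  have hNr : (0 : ℝ) < N := by exact_mod_cast hN
  have hhalf : (1 / 2 : ℝ) ^ b = 2 * (1 / 2 : ℝ) ^ (b + 1) := by rw [pow_succ]; ring
  -- the bad residues carry little weight
  have hbad : ∀ (R : Finset ℕ) (T : ℕ), (∀ p ∈ R, p ∈ P ∧ Real.log p ≤ (U : ℝ) ^ a) → (∏ p ∈ R, p) ∣ T → 0 < T →
      (∀ d ∈ Icc 1 Q, d ∣ T) →
      ∑ n ∈ (range T).filter (fun n => (1 / 2 : ℝ) ^ (b + 1) * (U * VO Om R) < |SO Om R U n - U * VO Om R|), w n ≤
        Real.exp (-(U : ℝ) ^ a) * ∑ n ∈ range T, w n := by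
    intro R T hR hRT hT hdT
    obtain ⟨-, ht⟩ := htail1 U hU1' R Om (fun p hp => ⟨hPp p (hR p hp).1, (hR p hp).2⟩)
      (fun p hp => hOm p (hR p hp).1)
    obtain ⟨k1, hk1⟩ := hRT
    set D1 := ∏ p ∈ R, p with hD1
    set B := (range T).filter (fun n => (1 / 2 : ℝ) ^ (b + 1) * (U * VO Om R) < |SO Om R U n - U * VO Om R|) with hB
    have h1 : (B.card : ℝ) =
        k1 * (((range D1).filter (fun n => (1 / 2 : ℝ) ^ (b + 1) * (U * VO Om R) < |SO Om R U n - U * VO Om R|)).card : ℝ) := by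
      rw [hB, card_filter, card_filter]
      push_cast
      rw [hk1, per_sum (G := fun n => if (1 / 2 : ℝ) ^ (b + 1) * (U * VO Om R) < |SO Om R U n - U * VO Om R| then (1 : ℝ) else 0) (T := D1)]
      intro n
      show (if (1 / 2 : ℝ) ^ (b + 1) * (U * VO Om R) < |SO Om R U (n + D1) - U * VO Om R| then (1 : ℝ) else 0) =
        if (1 / 2 : ℝ) ^ (b + 1) * (U * VO Om R) < |SO Om R U n - U * VO Om R| then (1 : ℝ) else 0
      rw [SO_per Om R U D1 n fun p hp => dvd_prod_of_mem (fun x : ℕ => x) hp]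
    have h2 : (B.card : ℝ) * Real.exp (3 * (U : ℝ) ^ a) ≤ T := by
      rw [h1, mul_assoc, hk1]
      push_cast
      rw [mul_comm (D1 : ℝ)]
      exact mul_le_mul_of_nonneg_left (by exact_mod_cast ht) (Nat.cast_nonneg _)
    have hTr : (0 : ℝ) < T := by exact_mod_cast hT
    have h3 : ∀ n ∈ B, w n ≤ (Q : ℝ) ^ 2 * (∑ n ∈ range T, w n) / T := by
      intro n _
      rw [le_div_iff₀ hTr, mul_comm]
      exact supb T Q hT hdT w hw0 hw n
    refine (sum_le_sum h3).trans ?_
    rw [sum_const, nsmul_eq_mul, ← mul_div_assoc, div_le_iff₀ hTr]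
    have h4 : (B.card : ℝ) * (Q : ℝ) ^ 2 ≤ Real.exp (-(U : ℝ) ^ a) * T := by
      calc (B.card : ℝ) * (Q : ℝ) ^ 2 ≤ (B.card : ℝ) * Real.exp (2 * (U : ℝ) ^ a) :=
            mul_le_mul_of_nonneg_left hQexp (Nat.cast_nonneg _)
        _ = Real.exp (-(U : ℝ) ^ a) * ((B.card : ℝ) * Real.exp (3 * (U : ℝ) ^ a)) := by
            have : Real.exp (2 * (U : ℝ) ^ a) = Real.exp (-(U : ℝ) ^ a) * Real.exp (3 * (U : ℝ) ^ a) := by
              rw [← Real.exp_add]; congr 1; ring
            rw [this]; ring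
        _ ≤ _ := mul_le_mul_of_nonneg_left h2 (Real.exp_pos _).le
    have h5 := mul_le_mul_of_nonneg_right h4 (sum_nonneg (s := range T) fun n _ => hw0 n)
    linarith
  refine ⟨?_, ?_⟩
  swap
  · intro hMp
    have hPN : (∏ p ∈ P, p) ∣ N :=
      Finset.prod_primes_dvd _ (fun p hp => (hPp p hp).prime) (fun p hp => (hP p hp).2)
    have h1 := hbad P N (fun p hp => ⟨hp, (hMp p hp).trans hUaa⟩) hPN hN hdN
    have hVpos : 0 < VO Om P := VO_pos hPp fun p hp => (hOm p hp).2.2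
    have h2 : (range N).filter (fun n => (1 / 2 : ℝ) ^ b * (U * VO Om P) < |SO Om P U n - U * VO Om P|) ⊆
        (range N).filter (fun n => (1 / 2 : ℝ) ^ (b + 1) * (U * VO Om P) < |SO Om P U n - U * VO Om P|) := by
      intro n hn
      rw [mem_filter] at hn ⊢
      refine ⟨hn.1, lt_of_le_of_lt ?_ hn.2⟩
      rw [hhalf]
      have : 0 ≤ (1 / 2 : ℝ) ^ (b + 1) * (U * VO Om P) := by positivity
      linarith
    refine (sum_le_sum_of_subset_of_nonneg h2 fun n _ _ => hw0 n).trans (h1.trans ?_)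
    apply mul_le_mul_of_nonneg_right _ (sum_nonneg fun n _ => hw0 n)
    apply Real.exp_le_exp.2
    linarith
  set P1 := P.filter (fun p => p ≤ Q) with hP1
  set P2 := P.filter (fun p => Q < p) with hP2
  have hP1P : P1 ⊆ P := filter_subset _ _
  have hP2P : P2 ⊆ P := filter_subset _ _
  have hP1p : ∀ p ∈ P1, p.Prime := fun p hp => hPp p (hP1P hp)
  have hP2p : ∀ p ∈ P2, p.Prime := fun p hp => hPp p (hP2P hp)
  have hd12 : Disjoint P1 P2 := by
    rw [disjoint_left]
    intro p hp hp'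
    have h1 := (mem_filter.1 hp).2
    have h2 := (mem_filter.1 hp').2
    omega
  have hun : P1 ∪ P2 = P := by
    ext p
    rw [mem_union, mem_filter, mem_filter]
    constructor
    · rintro (h | h) <;> exact h.1
    · intro hp
      by_cases h5 : p ≤ Q
      · exact Or.inl ⟨hp, h5⟩
      · exact Or.inr ⟨hp, not_le.1 h5⟩
  set A := (Icc 1 Q).lcm id with hA
  have hAd : ∀ d ∈ Icc 1 Q, d ∣ A := fun d hd => Finset.dvd_lcm hd
  have hAN : A ∣ N := Finset.lcm_dvd fun d hd => hdN d hd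
  have hA0 : 0 < A := Nat.pos_of_dvd_of_pos hAN hN
  have hAfac : A ∣ Q.factorial := by
    apply Finset.lcm_dvd
    intro d hd
    rw [mem_Icc] at hd
    exact Nat.dvd_factorial (show 0 < d by omega) hd.2
  have hAP2 : ∀ p ∈ P2, A.Coprime p := by
    intro p hp
    rw [Nat.coprime_comm, Nat.Prime.coprime_iff_not_dvd (hP2p p hp)]
    intro h1
    have h2 := (Nat.Prime.dvd_factorial (hP2p p hp)).1 (h1.trans hAfac)
    have h3 := (mem_filter.1 hp).2
    omega
  set D1 := ∏ p ∈ P1, p with hD1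
  set D2 := ∏ p ∈ P2, p with hD2
  have hD1A : D1 ∣ A := by
    apply Finset.prod_primes_dvd
    · intro p hp; exact (hP1p p hp).prime
    · intro p hp
      apply hAd
      rw [mem_Icc]
      exact ⟨(hP1p p hp).one_lt.le, (mem_filter.1 hp).2⟩
  have hD2N : D2 ∣ N := by
    apply Finset.prod_primes_dvd
    · intro p hp; exact (hP2p p hp).prime
    · intro p hp
      exact (hP p (hP2P hp)).2
  have hAD2 : A.Coprime D2 := Nat.Coprime.prod_right hAP2
  obtain ⟨k, hk⟩ := hAD2.mul_dvd_of_dvd_of_dvd hAN hD2N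
  have hD1A' := hD1A
  obtain ⟨k1, hk1⟩ := hD1A
  have hwA : ∀ n, w (n + A) = w n := by
    intro n
    have h1 := hw.mod hAd (n + A)
    have h2 := hw.mod hAd n
    rw [Nat.add_mod_right] at h1
    rw [← h1, h2]
  set T0 : ℝ := ∑ n ∈ range A, w n with hT0
  have hT00 : 0 ≤ T0 := sum_nonneg fun n _ => hw0 n
  have r1 : ∑ n ∈ range N, w n = (D2 * k : ℕ) * T0 := by
    have h1 : N = A * (D2 * k) := by rw [hk]; ring
    rw [h1, per_sum hwA]
  have r2 : ∑ n ∈ range N, w n * SO Om P U n =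
      k * ((∏ p ∈ P2, ((p : ℝ) - (Om p).card)) * ∑ i ∈ range A, w i * SO Om P1 U i) := by
    rw [hk, per_sum (G := fun n => w n * SO Om P U n) (T := A * D2)]
    · congr 1
      rw [sum_split, mul_sum]
      apply sum_congr rfl
      intro i _
      set H := (Icc 1 U).filter (fun h => ∀ p ∈ P1, (i + h) % p ∉ Om p) with hH
      have h2 : ∀ j ∈ range D2, w (i + A * j) * SO Om P U (i + A * j) =
          w i * ((H.filter (fun h => ∀ p ∈ P2, (i + A * j + h) % p ∉ Om p)).card : ℝ) := by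
        intro j _
        rw [per_mul hwA]
        congr 1
        unfold SO
        refine congrArg Nat.cast (congrArg card ?_)
        rw [hH, filter_filter]
        apply filter_congr
        intro h _
        have e1 : ∀ p ∈ P1, (i + A * j + h) % p = (i + h) % p := by
          intro p hp
          have h1 : p ∣ A := (dvd_prod_of_mem (fun x : ℕ => x) hp).trans ⟨k1, hk1⟩
          obtain ⟨l, hl⟩ := h1
          have : i + A * j + h = (i + h) + p * (l * j) := by rw [hl]; ring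
          rw [this]
          exact Nat.add_mul_mod_self_left _ _ _
        constructor
        · intro h1
          refine ⟨fun p hp => ?_, fun p hp => h1 p (hP2P hp)⟩
          rw [← e1 p hp]
          exact h1 p (hP1P hp)
        · rintro ⟨h1, h2⟩ p hp
          rw [← hun, mem_union] at hp
          rcases hp with hp | hp
          · rw [e1 p hp]; exact h1 p hp
          · exact h2 p hp
      rw [sum_congr rfl h2, ← mul_sum, fullk P2 Om H i A hP2p (fun p hp => (hOm p (hP2P hp)).1) hAP2]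
      have h3 : (H.card : ℝ) = SO Om P1 U i := by
        unfold SO
        refine congrArg Nat.cast (congrArg card ?_)
        rw [hH]
      rw [h3]
      ring
    · intro n
      have h2 : w (n + A * D2) = w n := per_mul hwA n D2
      have h3 : SO Om P U (n + A * D2) = SO Om P U n := by
        apply SO_per
        intro p hp
        rw [← hun, mem_union] at hp
        rcases hp with hp | hp
        · exact ((dvd_prod_of_mem (fun x : ℕ => x) hp).trans ⟨k1, hk1⟩).trans (Dvd.intro _ rfl)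
        · exact (dvd_prod_of_mem (fun x : ℕ => x) hp).trans (Dvd.intro_left _ rfl)
      show w (n + A * D2) * SO Om P U (n + A * D2) = w n * SO Om P U n
      rw [h2, h3]
  have hP1log : ∀ p ∈ P1, Real.log p ≤ (U : ℝ) ^ a := by
    intro p hp
    refine le_trans ?_ hlog
    apply Real.log_le_log
    · exact_mod_cast (hP1p p hp).pos
    · exact_mod_cast (mem_filter.1 hp).2
  have hVlow := (htail1 U hU1' P1 Om (fun p hp => ⟨hP1p p hp, hP1log p hp⟩) (fun p hp => hOm p (hP1P hp))).1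
  have hV1 : 0 < VO Om P1 := VO_pos hP1p fun p hp => (hOm p (hP1P hp)).2.2
  have hb1' := hbad P1 A (fun p hp => ⟨hP1P hp, hP1log p hp⟩) hD1A' hA0 hAd
  have hmain : |∑ i ∈ range A, w i * SO Om P1 U i - U * VO Om P1 * T0| ≤
      (1 / 2 : ℝ) ^ b * (U * VO Om P1 * T0) := by
    have e1 : ∑ i ∈ range A, w i * SO Om P1 U i - U * VO Om P1 * T0 =
        ∑ i ∈ range A, w i * (SO Om P1 U i - U * VO Om P1) := by
      rw [hT0, mul_sum, ← sum_sub_distrib]
      apply sum_congr rfl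
      intro i _
      ring
    rw [e1]
    refine (abs_sum_le_sum_abs _ _).trans ?_
    set B := (range A).filter (fun n => (1 / 2 : ℝ) ^ (b + 1) * (U * VO Om P1) < |SO Om P1 U n - U * VO Om P1|) with hB
    have h1 : ∀ i ∈ range A, |w i * (SO Om P1 U i - U * VO Om P1)| ≤
        w i * ((1 / 2 : ℝ) ^ (b + 1) * (U * VO Om P1)) + (if i ∈ B then w i * U else 0) := by
      intro i hi
      rw [abs_mul, abs_of_nonneg (hw0 i)]
      by_cases hiB : i ∈ B
      · rw [if_pos hiB]
        have h2 : |SO Om P1 U i - U * VO Om P1| ≤ U := by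
          rw [abs_le]
          have h3 := SO_nonneg Om P1 U i
          have h4 := SO_le Om P1 U i
          have h5 := VO_le_one hP1p fun p hp => (hOm p (hP1P hp)).2.2
          constructor
          · nlinarith
          · have : 0 ≤ U * VO Om P1 := by positivity
            linarith
        have h3 := mul_le_mul_of_nonneg_left h2 (hw0 i)
        have h4 : 0 ≤ w i * ((1 / 2 : ℝ) ^ (b + 1) * (U * VO Om P1)) := by
          have := hw0 i
          positivity
        linarith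
      · rw [if_neg hiB, add_zero]
        apply mul_le_mul_of_nonneg_left _ (hw0 i)
        by_contra h2
        push Not at h2
        exact hiB (mem_filter.2 ⟨hi, h2⟩)
    refine (sum_le_sum h1).trans ?_
    rw [sum_add_distrib, ← sum_mul, ← sum_filter]
    have h2 : (range A).filter (fun i => i ∈ B) = B := by
      ext i
      rw [mem_filter]
      exact ⟨fun h => h.2, fun h => ⟨(mem_filter.1 h).1, h⟩⟩
    rw [h2, ← sum_mul]
    have h3 : (∑ i ∈ B, w i) * U ≤ (1 / 2 : ℝ) ^ (b + 1) * (U * VO Om P1 * T0) := by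
      have h4 := mul_le_mul_of_nonneg_right hb1' hUpos.le
      refine h4.trans ?_
      have h5 : Real.exp (-(U : ℝ) ^ a) ≤ (1 / 2 : ℝ) ^ (b + 1) * VO Om P1 := by
        refine le_trans ?_ (mul_le_mul_of_nonneg_left hVlow (by positivity))
        have h6 : (1 / 2 : ℝ) ^ (b + 1) * (U : ℝ) ^ (-(1 / 2 : ℝ)) =
            Real.exp (-((b + 1 : ℕ) * Real.log 2 + 1 / 2 * Real.log U)) := by
          rw [neg_add, Real.exp_add, ← mul_neg, Real.exp_nat_mul, Real.exp_neg, Real.exp_log (by norm_num),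
            Real.rpow_def_of_pos hUpos]
          congr 2
          · norm_num
          · ring
        rw [h6]
        apply Real.exp_le_exp.2
        have h7 : Real.log 2 ≤ 1 := by have := Real.log_two_lt_d9; linarith
        have h8 : ((b + 1 : ℕ) : ℝ) * Real.log 2 ≤ (b + 1 : ℕ) * 1 :=
          mul_le_mul_of_nonneg_left h7 (Nat.cast_nonneg _)
        push_cast at h8 ⊢
        linarith
      have h6 := mul_le_mul_of_nonneg_right h5 (mul_nonneg hT00 hUpos.le)
      calc Real.exp (-(U : ℝ) ^ a) * T0 * U = Real.exp (-(U : ℝ) ^ a) * (T0 * U) := by ring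
        _ ≤ _ := h6
        _ = _ := by ring
    have h4 : T0 * ((1 / 2 : ℝ) ^ (b + 1) * (U * VO Om P1)) = (1 / 2 : ℝ) ^ (b + 1) * (U * VO Om P1 * T0) := by ring
    rw [← hT0, h4, hhalf]
    linarith
  have hVP : VO Om P = VO Om P1 * VO Om P2 := by rw [← hun, VO_union hd12]
  have hV2 : (D2 : ℝ) * VO Om P2 = ∏ p ∈ P2, ((p : ℝ) - (Om p).card) := by
    rw [hD2]
    unfold VO
    push_cast
    rw [← prod_mul_distrib]
    apply prod_congr rfl
    intro p hp
    have : (p : ℝ) ≠ 0 := by exact_mod_cast (hP2p p hp).ne_zero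
    field_simp
  have hprod0 : 0 ≤ ∏ p ∈ P2, ((p : ℝ) - (Om p).card) := by
    apply prod_nonneg
    intro p hp
    have : ((Om p).card : ℝ) < p := by exact_mod_cast (hOm p (hP2P hp)).2.2
    linarith
  rw [r1, r2, hVP]
  push_cast
  have e1 : (k : ℝ) * ((∏ p ∈ P2, ((p : ℝ) - (Om p).card)) * ∑ i ∈ range A, w i * SO Om P1 U i) -
      U * (VO Om P1 * VO Om P2) * (D2 * k * T0) =
      (k * ∏ p ∈ P2, ((p : ℝ) - (Om p).card)) * (∑ i ∈ range A, w i * SO Om P1 U i - U * VO Om P1 * T0) := by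
    rw [← hV2]; ring
  have e2 : (1 / 2 : ℝ) ^ b * (U * (VO Om P1 * VO Om P2) * (D2 * k * T0)) =
      (k * ∏ p ∈ P2, ((p : ℝ) - (Om p).card)) * ((1 / 2 : ℝ) ^ b * (U * VO Om P1 * T0)) := by
    rw [← hV2]; ring
  rw [e1, e2, abs_mul, abs_of_nonneg (by positivity)]
  exact mul_le_mul_of_nonneg_left hmain (by positivity)

end Pool.Agent.Y829
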