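import Pool.Agent.Y829.ET4
import Pool.Agent.Y829.RS5

/-! The weighted number of primes in progressions to moduli up to `x / (log x (log log x)^4)`. -/

set_option autoImplicit false

namespace Pool.Agent.Y829.ET

open Finset Filter Topology H343E Pool.Agent.TH423.SH.PSUa Pool.Agent.Y829 Pool.Agent.Y829.EH Pool.Agent.Y829.RP
open Pool.Agent.Y829.RS

theorem coreT (b : ℕ) (hb1 : 1 ≤ b) (K : ℕ) : ∃ B x0 : ℕ, ∀ x : ℕ, x0 ≤ x → ∀ Y R l : ℕ,
    (Y : ℝ) * (Real.log x * Real.log (Real.log x) ^ 4) ≤ x → (x : ℝ) ≤ Y * Real.log x ^ K → 1 ≤ R →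
    (R : ℝ) ^ 2 * Real.log x ^ B ≤ x → 0 < l → (l : ℝ) ≤ Real.log (Real.log x) →
    ∀ c : ℕ → ℕ → ℝ, (∀ q, 0 ≤ wt R c q) → ∑ d ∈ Icc 1 R, ss c d ^ 2 / d ≤ Real.log x ^ K →
    (∀ p, p.Prime → p ∣ l → ∀ q, p ∣ q → wt R c q = 0) →
    (Y : ℝ) ≤ Real.log x ^ K * ∑ q ∈ Ioc Y (2 * Y), wt R c q →
    |∑ k ∈ Ioc Y (2 * Y), wt R c k * Fp (x - l) l k - Tf x Y R c| ≤ 13 * (1 / 2 : ℝ) ^ b * Tf x Y R c := by
  classical
  obtain ⟨x1, hwin1⟩ := winm K b
  obtain ⟨δ, hδ⟩ : ∃ δ : ℝ, δ = (1 / 2 : ℝ) ^ b := ⟨_, rfl⟩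
  rw [← hδ] at hwin1
  have hδ0 : 0 < δ := by rw [hδ]; positivity
  have hδ1 : δ ≤ 1 / 2 := by
    have : (1 / 2 : ℝ) ^ b ≤ (1 / 2 : ℝ) ^ 1 := pow_le_pow_of_le_one (by norm_num) (by norm_num) hb1
    rw [pow_one] at this
    rw [hδ]
    exact this
  obtain ⟨L0, hL01, hm2⟩ := mod2 δ hδ0 (by linarith)
  obtain ⟨B1, x2, hbv⟩ := bvm K (2 * K + 2)
  have hη0 : 0 < δ / 60 := by positivity
  obtain ⟨x3, hpnt⟩ := pnt1 (δ / 60) hη0 (by linarith) K
  have E1 : ∀ᶠ x : ℕ in atTop, max L0 (max (8 / δ + 8) 16) ≤ Real.log x := log_tend.eventually_ge_atTop _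
  have E5 : ∀ᶠ x : ℕ in atTop, (4 : ℝ) ≤ Real.log (Real.log (x : ℝ)) := ll_tend.eventually_ge_atTop _
  obtain ⟨x4, hx4⟩ := ((E1.and ((evE2 K δ hδ0).and (evE3 K))).and (E5.and (evbig (2 * K)))).exists_forall_of_atTop
  refine ⟨B1 + 2 * K, max (max x1 x2) (max x3 (max x4 3)), ?_⟩
  intro x hx Y R l hYx0 hxY hR hRx hl0 hlll c hw hc hwl hmass
  rw [← hδ]
  have hx1' : x1 ≤ x := (le_max_left _ _).trans ((le_max_left _ _).trans hx)
  have hx2' : x2 ≤ x := (le_max_right _ _).trans ((le_max_left _ _).trans hx)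
  have hx3' : x3 ≤ x := (le_max_left _ _).trans ((le_max_right _ _).trans hx)
  have hx4' : x4 ≤ x := (le_max_left _ _).trans ((le_max_right _ _).trans ((le_max_right _ _).trans hx))
  have hx33 : 3 ≤ x := (le_max_right _ _).trans ((le_max_right _ _).trans ((le_max_right _ _).trans hx))
  obtain ⟨⟨ev1, ev2, ev3⟩, ev5, ev6⟩ := hx4 x hx4'
  have hLL0 : L0 ≤ Real.log x := (le_max_left _ _).trans ev1
  have hLδ : 8 / δ + 8 ≤ Real.log x := ((le_max_left _ _).trans (le_max_right _ _)).trans ev1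
  have hL16 : 16 ≤ Real.log x := ((le_max_right _ _).trans (le_max_right _ _)).trans ev1
  have hL0 : 0 < Real.log x := by linarith
  have hL1 : 1 ≤ Real.log x := by linarith
  have hlL : (l : ℝ) ≤ Real.log x := by
    have h1 := Real.log_le_sub_one_of_pos hL0
    linarith
  have hYx : (Y : ℝ) * Real.log x ^ 1 ≤ x := by
    refine le_trans ?_ hYx0
    apply mul_le_mul_of_nonneg_left _ (Nat.cast_nonneg _)
    rw [pow_one]
    have h1 : (1 : ℝ) ≤ Real.log (Real.log x) ^ 4 := one_le_pow₀ (by linarith)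
    nlinarith
  have hδL : 8 ≤ δ * Real.log x := by
    have h1 : 8 / δ ≤ Real.log x := by linarith
    rw [div_le_iff₀ hδ0] at h1
    linarith
  have hxpos : 0 < x := by omega
  obtain ⟨⟨hY0, hlY, hYxn⟩, hY2x⟩ := sz1 x Y l K 1 hx33 hL16 hxY hYx ev3 hlL
  have hlx : l ≤ x := hlY.trans hYxn
  have hMk := fun k hk => sz2 x Y l 1 δ hδ0 hδL hL16 le_rfl hYx hY0 hlY hlx k hk
  have hYpos : (0 : ℝ) < Y := by exact_mod_cast hY0
  have hXr : ((x - l : ℕ) : ℝ) = x - l := by push_cast [Nat.cast_sub hlx]; ring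
  have hl0r : (0 : ℝ) ≤ l := Nat.cast_nonneg _
  have hMYX : (((x - l) / Y : ℕ) : ℝ) * Y ≤ x - l := by
    have : (x - l) / Y * Y ≤ x - l := Nat.div_mul_le_self _ Y
    have h2 : (((x - l) / Y * Y : ℕ) : ℝ) ≤ ((x - l : ℕ) : ℝ) := by exact_mod_cast this
    rw [hXr] at h2
    push_cast at h2
    exact h2
  have hMK : (((x - l) / Y : ℕ) : ℝ) ≤ Real.log x ^ K := by
    have h2 : (((x - l) / Y : ℕ) : ℝ) * Y ≤ Real.log x ^ K * Y := by linarith
    exact le_of_mul_le_mul_right h2 hYpos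
  have hMxn : (x - l) / Y ≤ x := (Nat.div_le_self _ Y).trans (Nat.sub_le x l)
  have hRn : R ≤ x := by
    have h1 : (R : ℝ) ≤ x := by
      have h2 : (1 : ℝ) ≤ Real.log x ^ (B1 + 2 * K) := one_le_pow₀ hL1
      have h3 : (1 : ℝ) ≤ R := by exact_mod_cast hR
      have h4 : (R : ℝ) ^ 2 ≤ (R : ℝ) ^ 2 * Real.log x ^ (B1 + 2 * K) := le_mul_of_one_le_right (by positivity) h2
      have h5 : (R : ℝ) ≤ (R : ℝ) ^ 2 := by nlinarith
      linarith
    exact_mod_cast h1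
  have h2Y : 2 * Y ∈ Ioc Y (2 * Y) := by rw [mem_Ioc]; omega
  have hSMlow : (Y : ℝ) * (((x - l) / Y : ℕ) : ℝ) ≤ 3 * SMf (x - l) Y := by
    have h1 : ∑ k ∈ Ioc Y (2 * Y), (((x - l) / Y : ℕ) : ℝ) ≤ ∑ k ∈ Ioc Y (2 * Y), 3 * (((x - l) / k : ℕ) : ℝ) :=
      sum_le_sum fun k hk => (hMk k hk).2.1
    rw [sum_const, Nat.card_Ioc, nsmul_eq_mul, ← mul_sum] at h1
    have h2 : ((2 * Y - Y : ℕ) : ℝ) = Y := by
      have : 2 * Y - Y = Y := by omega
      rw [this]
    rw [h2] at h1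
    exact h1
  have hLK : 0 < Real.log x ^ K := by positivity
  -- the mean of the weight
  have hmu : 1 / (2 * Real.log x ^ K) ≤ mu R c := by
    have h1 := sum_dy R Y c
    have h2 : ∑ d ∈ Icc 1 R, ss c d ≤ Y / (2 * Real.log x ^ K) := by
      apply abs_le_of_sq_le_sq' _ (by positivity) |>.2
      refine (sumss R c).trans ?_
      have h3 : (∑ d ∈ Icc 1 R, ss c d ^ 2 / (d : ℝ)) * (R : ℝ) ^ 2 ≤ Y := by
        have h4 := mul_le_mul_of_nonneg_right hc (sq_nonneg (R : ℝ))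
        refine h4.trans ?_
        have h5 : (R : ℝ) ^ 2 * Real.log x ^ (B1 + 2 * K) ≤ Y * Real.log x ^ K := hRx.trans hxY
        have h6 : (R : ℝ) ^ 2 * Real.log x ^ (B1 + 2 * K) = (Real.log x ^ K * (R : ℝ) ^ 2 * Real.log x ^ B1) * Real.log x ^ K := by ring
        rw [h6] at h5
        have h7 := le_of_mul_le_mul_right h5 hLK
        refine le_trans ?_ h7
        exact le_mul_of_one_le_right (by positivity) (one_le_pow₀ hL1)
      refine h3.trans ?_
      rw [div_pow, le_div_iff₀ (by positivity), sq (Y : ℝ)]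
      apply mul_le_mul_of_nonneg_left _ hYpos.le
      have h5 : 4 * Real.log x ^ (2 * (2 * K)) ≤ Y * Real.log x ^ K := ev6.trans hxY
      have h6 : 4 * Real.log x ^ (2 * (2 * K)) = 4 * Real.log x ^ (3 * K) * Real.log x ^ K := by ring
      rw [h6] at h5
      have h7 := le_of_mul_le_mul_right h5 hLK
      refine le_trans ?_ h7
      have h8 : (2 * Real.log x ^ K) ^ 2 = 4 * Real.log x ^ (2 * K) := by ring
      rw [h8]
      apply mul_le_mul_of_nonneg_left _ (by norm_num)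
      exact pow_le_pow_right₀ hL1 (by omega)
    have h3 := (abs_le.1 h1).2
    have h4 : (Y : ℝ) / Real.log x ^ K ≤ ∑ q ∈ Ioc Y (2 * Y), wt R c q := by
      rw [div_le_iff₀ hLK]
      linarith
    have h5 : (Y : ℝ) / Real.log x ^ K - Y / (2 * Real.log x ^ K) ≤ Y * mu R c := by linarith
    have h6 : (Y : ℝ) / Real.log x ^ K - Y / (2 * Real.log x ^ K) = Y * (1 / (2 * Real.log x ^ K)) := by
      field_simp
      ring
    rw [h6] at h5
    exact le_of_mul_le_mul_left h5 hYpos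
  have hwinU : ∀ U : ℕ, (U = (x - l) / Y ∨ ∃ k ∈ Ioc Y (2 * Y), U = (x - l) / k) →
      (1 - δ) * (U * V (PQ x) * Gf x R c) ≤ ∑ q ∈ range x.factorial, wt R c q * SE l (PQ x) U q ∧
      ∑ q ∈ range x.factorial, wt R c q * SE l (PQ x) U q ≤ (1 + 3 * δ) * (U * V (PQ x) * Gf x R c) := by
    intro U hU
    have hw0 : ∀ k ∈ Ioc Y (2 * Y), Real.log x * Real.log (Real.log x) ^ 3 ≤ (((x - l) / k : ℕ) : ℝ) := by
      intro k hk
      have h1 := (hMk k hk).2.2.1
      have hk' := mem_Ioc.1 hk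
      have hkr : (0 : ℝ) < k := by exact_mod_cast (by omega : 0 < k)
      have hk2 : (k : ℝ) ≤ 2 * Y := by exact_mod_cast hk'.2
      have hll0 : 0 ≤ Real.log x * Real.log (Real.log x) ^ 3 := by positivity
      have h2 : 4 * (Real.log x * Real.log (Real.log x) ^ 3) ≤ Real.log x * Real.log (Real.log x) ^ 4 := by
        have : Real.log x * Real.log (Real.log x) ^ 4 = Real.log (Real.log x) * (Real.log x * Real.log (Real.log x) ^ 3) := by ring
        rw [this]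
        exact mul_le_mul_of_nonneg_right ev5 hll0
      have h3 : 2 * (Real.log x * Real.log (Real.log x) ^ 3) ≤ (x : ℝ) / k := by
        rw [le_div_iff₀ hkr]
        have h4 : 2 * (Real.log x * Real.log (Real.log x) ^ 3) * k ≤ 2 * (Real.log x * Real.log (Real.log x) ^ 3) * (2 * Y) :=
          mul_le_mul_of_nonneg_left hk2 (by positivity)
        have h5 := mul_le_mul_of_nonneg_left h2 hYpos.le
        linarith
      have h4 : (0 : ℝ) ≤ (((x - l) / k : ℕ) : ℝ) := Nat.cast_nonneg _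
      nlinarith
    have h1 : Real.log x * Real.log (Real.log x) ^ 3 ≤ U := by
      rcases hU with h | ⟨k, hk, h⟩
      · rw [h]
        refine (hw0 (2 * Y) h2Y).trans ?_
        exact_mod_cast Nat.div_le_div_left (by omega) hY0
      · rw [h]
        exact hw0 k hk
    exact hwin1 x hx1' U h1 R l hR hRn hl0 hlll c hw hc hmu hwl
  obtain ⟨hA1l, hA1u, hA2⟩ := A_bd x (x - l) Y R l c δ hδ0 hδ1 hRn hMxn hY0 hw hwinU hSMlow
  have hG0 : 0 ≤ Gf x R c := sum_nonneg fun q _ =>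
    mul_nonneg (hw q) (le_trans zero_le_one (gq_ge_one (fun p hp => Pyf_prime hp) q))
  have hSM0 : 0 ≤ SMf (x - l) Y := sum_nonneg fun k _ => Nat.cast_nonneg _
  have hZ0 : 0 ≤ Gf x R c / x.factorial * SMf (x - l) Y := by positivity
  -- the primes
  have hstep := stepA x Y R l K c (δ / 60) hY0 (fun m hm => by
    have hm' := mem_Icc.1 hm
    have hmr : (1 : ℝ) ≤ m := by exact_mod_cast hm'.1
    have hmK : (m : ℝ) ≤ Real.log x ^ K := le_trans (by exact_mod_cast hm'.2) hMK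
    have hYm : Y * m ≤ x - l := by
      have h3 : Y * m ≤ Y * ((x - l) / Y) := Nat.mul_le_mul_left Y hm'.2
      have h4 : Y * ((x - l) / Y) ≤ x - l := by rw [mul_comm]; exact Nat.div_mul_le_self _ Y
      exact h3.trans h4
    have hymX : ymf (x - l) Y m * m ≤ x - l :=
      (Nat.mul_le_mul_right m (min_le_right _ _)).trans (Nat.div_mul_le_self _ m)
    have hymY := ymf_ge (x - l) Y m hY0 hm
    have hym2 : ymf (x - l) Y m ≤ 2 * Y := min_le_left _ _
    have hYYm : Y ≤ Y * m := Nat.le_mul_of_pos_right Y hm'.1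
    have hYYm' : Y ≤ ymf (x - l) Y m * m := hymY.trans (Nat.le_mul_of_pos_right _ hm'.1)
    have hbv1 := hbv x hx2' Y R m l (ymf (x - l) Y m) hR hm'.1 (by
      have h3 : (x : ℝ) ≤ ((l + Y * m : ℕ) : ℝ) ^ 2 := by
        refine hY2x.trans ?_
        apply pow_le_pow_left₀ hYpos.le
        exact_mod_cast (by omega : Y ≤ l + Y * m)
      exact_mod_cast h3) (by omega) hymY hym2 (by
      have h3 : (R : ℝ) ^ 2 * Real.log x ^ (B1 + 2 * K) ≤ Y * Real.log x ^ K := hRx.trans hxY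
      have h4 : (R : ℝ) ^ 2 * Real.log x ^ (B1 + 2 * K) = (R : ℝ) ^ 2 * Real.log x ^ K * Real.log x ^ B1 * Real.log x ^ K := by ring
      rw [h4] at h3
      have h5 : (R : ℝ) ^ 2 * Real.log x ^ K * Real.log x ^ B1 ≤ Y := le_of_mul_le_mul_right h3 (by positivity)
      refine le_trans ?_ h5
      apply mul_le_mul_of_nonneg_right _ (by positivity)
      exact mul_le_mul_of_nonneg_left hmK (by positivity)) c hc
    have hn1 := hpnt x hx3' (l + ymf (x - l) Y m * m) (by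
      refine hxY.trans ?_
      apply mul_le_mul_of_nonneg_right _ (by positivity)
      exact_mod_cast (by omega : Y ≤ l + ymf (x - l) Y m * m)) (by omega)
    have hn2 := hpnt x hx3' (l + Y * m) (by
      refine hxY.trans ?_
      apply mul_le_mul_of_nonneg_right _ (by positivity)
      exact_mod_cast (by omega : Y ≤ l + Y * m)) (by omega)
    have hGm1 : 0 ≤ Gm R c l m := by
      have h1 := Gm_nonneg x (x - l) Y R l m c hRn hMxn hw hm
      exact nonneg_of_mul_nonneg_right h1 (by linarith)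
    exact stepm x Y R l m K c (δ / 60) hη0 hL0 hY0 hlY hlx hm hGm1 hbv1 hn1 hn2)
  -- the target
  obtain ⟨hT0, hTm⟩ := T_mass x Y R K c hL0 hY0 hw hmass
  obtain ⟨-, hm2b⟩ := hm2 (Real.log x) hLL0
  obtain ⟨hTl, hTu⟩ := T_cmp x (x - l) Y R c δ hδ0 hL0 hw (fun k hk => by
    have hk' := mem_Ioc.1 hk
    exact loc x k δ hL16 (by omega) (by omega) hm2b) (fun k hk => ⟨(hMk k hk).2.2.1, (hMk k hk).2.2.2⟩)
  obtain ⟨hE1, hE2⟩ := errE x R K (B1 + 2 * K) c (((x - l) / Y : ℕ) : ℝ) δ (Tf x Y R c) hxpos hL1 hδ0 hδL hR hRx hc hMK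
    (Nat.cast_nonneg _) hT0 hTm ev2
  exact arith _ _ _ _ _ _ _ δ (δ / 60) _ _ hδ0 hδ1 rfl hL1 hZ0 hT0 hE1 hE2 hA1l hA1u hA2 hstep
    (AMZ x (x - l) Y R c hY0 hRn) hTl hTu

end Pool.Agent.Y829.ET
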