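import Pool.Agent.Y829.ET5

/-! The weighted number of primes in progressions to moduli up to `x / (log x (log log x)^4)`. -/

set_option autoImplicit false

namespace Pool.Agent.Y829.ET

open Finset Filter Topology H343E Pool.Agent.TH423.SH.PSUa Pool.Agent.Y829 Pool.Agent.Y829.EH Pool.Agent.Y829.RP
open Pool.Agent.Y829.RS

theorem finalT (b : ℕ) (hb1 : 1 ≤ b) (K : ℕ) : ∃ B x0 : ℕ, ∀ x Y R l : ℕ, x0 ≤ x →
    (Y : ℝ) * (Real.log x * Real.log (Real.log x) ^ 4) ≤ x → (x : ℝ) ≤ Y * Real.log x ^ K → 1 ≤ R →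
    (R : ℝ) ^ 2 * Real.log x ^ B ≤ x → 0 < l → (l : ℝ) ≤ Real.log (Real.log x) →
    ∀ c : ℕ → ℕ → ℝ, (∀ q, 0 ≤ wt R c q) → ∑ d ∈ Icc 1 R, ss c d ^ 2 / d ≤ Real.log x ^ K →
    (Y : ℝ) ≤ Real.log x ^ K * ∑ q ∈ (Ioc Y (2 * Y)).filter (fun q => q.Coprime l), wt R c q →
    |∑ q ∈ (Ioc Y (2 * Y)).filter (fun q => q.Coprime l), wt R c q *
      (piq x q l - x / ((Nat.totient q : ℝ) * Real.log x))| ≤
      14 * (1 / 2 : ℝ) ^ b * ∑ q ∈ (Ioc Y (2 * Y)).filter (fun q => q.Coprime l), wt R c q *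
        (x / ((Nat.totient q : ℝ) * Real.log x)) := by
  classical
  obtain ⟨B, x0, hc0⟩ := coreT b hb1 (K + 1)
  obtain ⟨δ, hδ⟩ : ∃ δ : ℝ, δ = (1 / 2 : ℝ) ^ b := ⟨_, rfl⟩
  have hδ0 : 0 < δ := by rw [hδ]; positivity
  obtain ⟨x1, hx1⟩ := ((log_tend.eventually_ge_atTop (8 / δ + 8)).and (ll_tend.eventually_ge_atTop (8 / δ + 8))).exists_forall_of_atTop
  obtain ⟨x2, hx2⟩ := (evE3 K).exists_forall_of_atTop
  refine ⟨B + 2, max (max x0 x1) (max x2 3), ?_⟩
  intro x Y R l hx hYx hxY hR hRx hl0 hlll c hw hc hmass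
  have hx0' : x0 ≤ x := (le_max_left _ _).trans ((le_max_left _ _).trans hx)
  obtain ⟨hL, hll8⟩ := hx1 x ((le_max_right _ _).trans ((le_max_left _ _).trans hx))
  have hx2' := hx2 x ((le_max_left _ _).trans ((le_max_right _ _).trans hx))
  have hx3 : 3 ≤ x := (le_max_right _ _).trans ((le_max_right _ _).trans hx)
  have hxr : (3 : ℝ) ≤ x := by exact_mod_cast hx3
  have hdiv : 0 < 8 / δ := by positivity
  have hL8 : 8 ≤ Real.log x := by linarith
  have hL0 : 0 < Real.log x := by linarith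
  have hL1 : 1 ≤ Real.log x := by linarith
  have hδ1 : δ ≤ 1 / 2 := by
    have : (1 / 2 : ℝ) ^ b ≤ (1 / 2 : ℝ) ^ 1 := pow_le_pow_of_le_one (by norm_num) (by norm_num) hb1
    rw [pow_one] at this
    rw [hδ]
    exact this
  have hL16 : 16 ≤ Real.log x := by
    have h1 : 8 / (1 / 2 : ℝ) ≤ 8 / δ := div_le_div_of_nonneg_left (by norm_num) hδ0 hδ1
    norm_num at h1
    linarith
  have hδL : 8 ≤ δ * Real.log x := by
    have h1 : 8 / δ ≤ Real.log x := by linarith
    rw [div_le_iff₀ hδ0] at h1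
    linarith
  have hlL : (l : ℝ) ≤ Real.log x := by
    have h1 := Real.log_le_sub_one_of_pos hL0
    linarith
  have hll1 : 1 ≤ Real.log (Real.log x) := by linarith
  have hYx' : (Y : ℝ) * Real.log x ^ 1 ≤ x := by
    refine le_trans ?_ hYx
    apply mul_le_mul_of_nonneg_left _ (Nat.cast_nonneg _)
    rw [pow_one]
    have h1 : (1 : ℝ) ≤ Real.log (Real.log x) ^ 4 := one_le_pow₀ hll1
    nlinarith
  have hLK : (1 : ℝ) ≤ Real.log x ^ K := one_le_pow₀ hL1
  obtain ⟨⟨hY0, hlY, hYxn⟩, -⟩ := sz1 x Y l K 1 hx3 hL16 hxY hYx' hx2' hlL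
  have hlx : l ≤ x := hlY.trans hYxn
  have hlr : (1 : ℝ) ≤ l := by exact_mod_cast hl0
  set F := (Ioc Y (2 * Y)).filter (fun q => q.Coprime l) with hF
  have hsum : ∀ G : ℕ → ℝ, ∑ q ∈ Ioc Y (2 * Y), wt (R * l) (cl l c) q * G q = ∑ q ∈ F, wt R c q * G q := by
    intro G
    rw [hF, sum_filter]
    apply sum_congr rfl
    intro q _
    rw [wt_cl R l hl0 c q]
    split_ifs <;> simp
  have hsum1 : ∑ q ∈ Ioc Y (2 * Y), wt (R * l) (cl l c) q = ∑ q ∈ F, wt R c q := by
    have := hsum (fun _ => 1)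
    simpa using this
  have h1 := hc0 x hx0' Y (R * l) l hYx (by
    refine hxY.trans ?_
    apply mul_le_mul_of_nonneg_left _ (Nat.cast_nonneg _)
    exact pow_le_pow_right₀ hL1 (by omega)) (Nat.mul_pos hR hl0) (by
    push_cast
    calc ((R : ℝ) * l) ^ 2 * Real.log x ^ B = (R : ℝ) ^ 2 * Real.log x ^ B * ((l : ℝ) ^ 2) := by ring
      _ ≤ (R : ℝ) ^ 2 * Real.log x ^ B * (Real.log x ^ 2) := by
          apply mul_le_mul_of_nonneg_left _ (by positivity)
          exact pow_le_pow_left₀ (by linarith) hlL 2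
      _ = (R : ℝ) ^ 2 * Real.log x ^ (B + 2) := by ring
      _ ≤ x := hRx) hl0 hlll (cl l c) (by
    intro q
    rw [wt_cl R l hl0 c q]
    split_ifs
    · exact hw q
    · exact le_rfl) (by
    refine (sum_ss_cl R l hl0 c).trans ?_
    calc (l : ℝ) * ∑ e ∈ Icc 1 R, ss c e ^ 2 / (e : ℝ) ≤ Real.log x * Real.log x ^ K :=
          mul_le_mul hlL hc (sum_nonneg fun e _ => by positivity) hL0.le
      _ = _ := by ring) (by
    intro p hp hpl q hpq
    rw [wt_cl R l hl0 c q, if_neg]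
    intro h
    have := Nat.dvd_gcd hpq hpl
    rw [Nat.coprime_iff_gcd_eq_one.1 h] at this
    exact hp.one_lt.ne' (Nat.dvd_one.1 this)) (by
    rw [hsum1]
    refine hmass.trans ?_
    apply mul_le_mul_of_nonneg_right _ (sum_nonneg fun q _ => hw q)
    exact pow_le_pow_right₀ hL1 (by omega))
  have hT : Tf x Y (R * l) (cl l c) = ∑ q ∈ F, wt R c q * (x / ((Nat.totient q : ℝ) * Real.log x)) := by
    unfold Tf
    rw [hsum]
    apply sum_congr rfl
    intro q _
    rw [div_div, mul_comm (Real.log (x : ℝ))]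
  rw [hT, hsum, ← hδ] at h1
  obtain ⟨T, hTd⟩ : ∃ T : ℝ, T = ∑ q ∈ F, wt R c q * (x / ((Nat.totient q : ℝ) * Real.log x)) := ⟨_, rfl⟩
  rw [← hTd] at h1 ⊢
  have hYpos : (0 : ℝ) < Y := by exact_mod_cast hY0
  -- the prime `l`
  have h2 : |∑ q ∈ F, wt R c q * piq x q l - ∑ q ∈ F, wt R c q * Fp (x - l) l q| ≤ ∑ q ∈ F, wt R c q := by
    rw [← sum_sub_distrib]
    refine (abs_sum_le_sum_abs _ _).trans (sum_le_sum ?_)
    intro q hq
    have hq' := mem_Ioc.1 (mem_filter.1 hq).1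
    obtain ⟨h3, h4⟩ := piq_Fp x q l hl0 (by omega) hlx
    rw [← mul_sub, abs_mul, abs_of_nonneg (hw q)]
    calc wt R c q * |piq x q l - Fp (x - l) l q| ≤ wt R c q * 1 := by
          apply mul_le_mul_of_nonneg_left _ (hw q)
          rw [abs_le]
          constructor <;> linarith
      _ = _ := mul_one _
  have h3 : ∑ q ∈ F, wt R c q ≤ δ * T := by
    rw [hTd, mul_sum]
    apply sum_le_sum
    intro q hq
    have hq' := mem_Ioc.1 (mem_filter.1 hq).1
    have hφ : (0 : ℝ) < Nat.totient q := by exact_mod_cast Nat.totient_pos.2 (by omega)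
    have h4 : (Nat.totient q : ℝ) ≤ 2 * Y := by exact_mod_cast (Nat.totient_le q).trans hq'.2
    have h5 : 1 ≤ δ * (x / ((Nat.totient q : ℝ) * Real.log x)) := by
      rw [mul_div_assoc', le_div_iff₀ (by positivity), one_mul]
      have h7 : (Nat.totient q : ℝ) * Real.log x ≤ 2 * Y * Real.log x := mul_le_mul_of_nonneg_right h4 hL0.le
      have h8 := mul_le_mul_of_nonneg_left hYx hδ0.le
      have h9 : δ * ((Y : ℝ) * (Real.log x * Real.log (Real.log x) ^ 4)) =
          (δ * Real.log (Real.log x) ^ 4) * (Y * Real.log x) := by ring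
      rw [h9] at h8
      have h12 : 8 ≤ δ * Real.log (Real.log x) ^ 4 := by
        have h13 : Real.log (Real.log x) ≤ Real.log (Real.log x) ^ 4 := le_self_pow₀ hll1 (by norm_num)
        have h14 : 8 / δ ≤ Real.log (Real.log x) := by linarith
        rw [div_le_iff₀ hδ0] at h14
        have h15 := mul_le_mul_of_nonneg_left h13 hδ0.le
        linarith
      have h10 : 8 * (Y * Real.log x) ≤ (δ * Real.log (Real.log x) ^ 4) * (Y * Real.log x) :=
        mul_le_mul_of_nonneg_right h12 (by positivity)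
      have h11 : 0 < Y * Real.log x := by positivity
      linarith
    calc wt R c q = wt R c q * 1 := (mul_one _).symm
      _ ≤ wt R c q * (δ * (x / ((Nat.totient q : ℝ) * Real.log x))) := mul_le_mul_of_nonneg_left h5 (hw q)
      _ = _ := by ring
  have hT0 : 0 ≤ T := by
    rw [hTd]
    apply sum_nonneg
    intro q _
    have := hw q
    positivity
  have h4 : ∑ q ∈ F, wt R c q * (piq x q l - x / ((Nat.totient q : ℝ) * Real.log x)) =
      ∑ q ∈ F, wt R c q * piq x q l - T := by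
    rw [hTd, ← sum_sub_distrib]
    apply sum_congr rfl
    intro q _
    ring
  rw [h4]
  have h5 : |∑ q ∈ F, wt R c q * piq x q l - T| ≤ 14 * δ * T := by
    have h6 := abs_sub_le (∑ q ∈ F, wt R c q * piq x q l) (∑ q ∈ F, wt R c q * Fp (x - l) l q) T
    linarith
  rw [← hδ]
  exact h5

end Pool.Agent.Y829.ET
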