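import Pool.Agent.Y829.BT1

/-! Exponential moments for a sieve with several classes, both tails. -/

set_option autoImplicit false

namespace Pool.Agent.Y829

open Finset

lemma roots {p A : ℕ} (hp : p.Prime) (hA : A.Coprime p) (O : Finset ℕ) (hO : O ⊆ range p) (x : ℕ) :
    ((range p).filter (fun i => (x + A * i) % p ∈ O)).card = O.card := by
  classical
  set f : ℕ → ℕ := fun i => (x + A * i) % p with hf
  have hinj : Set.InjOn f (range p : Set ℕ) := by
    intro i hi j hj hij
    rw [mem_coe, mem_range] at hi hj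
    have h1 : x + A * i ≡ x + A * j [MOD p] := hij
    have h2 : A * i ≡ A * j [MOD p] := Nat.ModEq.add_left_cancel' x h1
    have h3 : i ≡ j [MOD p] := Nat.ModEq.cancel_left_of_coprime (by rw [Nat.coprime_comm] at hA; exact hA) h2
    have h4 : i % p = j % p := h3
    rwa [Nat.mod_eq_of_lt hi, Nat.mod_eq_of_lt hj] at h4
  have himg : image f (range p) = range p := by
    apply eq_of_subset_of_card_le
    · intro y hy
      rw [mem_image] at hy
      obtain ⟨i, _, rfl⟩ := hy
      exact mem_range.2 (Nat.mod_lt _ hp.pos)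
    · rw [card_image_of_injOn hinj]
  have h1 : image f ((range p).filter (fun i => (x + A * i) % p ∈ O)) = O := by
    ext y
    rw [mem_image]
    constructor
    · rintro ⟨i, hi, rfl⟩
      exact (mem_filter.1 hi).2
    · intro hy
      have h2 : y ∈ image f (range p) := by rw [himg]; exact hO hy
      rw [mem_image] at h2
      obtain ⟨i, hi, rfl⟩ := h2
      exact ⟨i, mem_filter.2 ⟨hi, hy⟩, rfl⟩
  have h2 := card_image_of_injOn (s := (range p).filter (fun i => (x + A * i) % p ∈ O)) (f := f)
    (hinj.mono (by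
      intro i hi
      rw [mem_coe, mem_filter] at hi
      exact mem_coe.2 hi.1))
  rw [h1] at h2
  exact h2.symm

lemma avgk {p A : ℕ} (hp : p.Prime) (hA : A.Coprime p) (O : Finset ℕ) (hO : O ⊆ range p) (x : ℕ) (H : Finset ℕ)
    (t b K : ℝ) (htb : |t| * b ≤ 1) (hHb : ∀ r : ℕ, ((H.filter (fun h => (r + h) % p ∈ O)).card : ℝ) ≤ b)
    (hK0 : 0 ≤ K) (hK1 : K ≤ 1) :
    ∑ i ∈ range p, Real.exp (t * ((H.filter (fun h => (x + A * i + h) % p ∉ O)).card : ℝ) * K) ≤
      p * Real.exp (t * (H.card : ℝ) * ((1 - (1 - t * b) * ((O.card : ℝ) / p)) * K)) := by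
  have hp0 : (0 : ℝ) < p := by exact_mod_cast hp.pos
  set a : ℕ → ℝ := fun i => ((H.filter (fun h => (x + A * i + h) % p ∈ O)).card : ℝ) with ha
  have ha0 : ∀ i, 0 ≤ a i := fun i => Nat.cast_nonneg _
  have hab : ∀ i, a i ≤ b := fun i => hHb (x + A * i)
  have hb0 : 0 ≤ b := (ha0 0).trans (hab 0)
  have h1 : ∀ i, ((H.filter (fun h => (x + A * i + h) % p ∉ O)).card : ℝ) = H.card - a i := by
    intro i
    have h2 := card_filter_add_card_filter_not (s := H) (fun h => (x + A * i + h) % p ∈ O)
    have h3 : ((H.filter (fun h => (x + A * i + h) % p ∈ O)).card : ℝ) +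
        ((H.filter (fun h => (x + A * i + h) % p ∉ O)).card : ℝ) = H.card := by exact_mod_cast h2
    have h4 : a i = ((H.filter (fun h => (x + A * i + h) % p ∈ O)).card : ℝ) := rfl
    rw [h4]
    linarith
  have h2 : ∑ i ∈ range p, a i = (O.card : ℝ) * H.card := by
    simp only [ha, card_filter]
    push_cast
    rw [sum_comm]
    have h3 : ∀ h ∈ H, ∑ i ∈ range p, (if (x + A * i + h) % p ∈ O then (1 : ℝ) else 0) = O.card := by
      intro h _
      have h4 := roots hp hA O hO (x + h)
      rw [card_filter] at h4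
      have h5 : ∑ i ∈ range p, (if (x + h + A * i) % p ∈ O then (1 : ℝ) else 0) = O.card := by exact_mod_cast h4
      refine (sum_congr rfl fun i _ => ?_).trans h5
      rw [add_right_comm]
    rw [sum_congr rfl h3]
    simp [mul_comm]
  set X : ℝ := t * (H.card : ℝ) * K with hX
  have h3 : ∀ i ∈ range p, Real.exp (t * ((H.filter (fun h => (x + A * i + h) % p ∉ O)).card : ℝ) * K) ≤
      Real.exp X * (1 - t * K * (1 - t * b) * a i) := by
    intro i _
    rw [h1 i]
    have h4 : t * ((H.card : ℝ) - a i) * K = X + -(t * K * a i) := by rw [hX]; ring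
    rw [h4, Real.exp_add]
    apply mul_le_mul_of_nonneg_left _ (Real.exp_pos _).le
    have h6 : |(-(t * K * a i))| ≤ 1 := by
      rw [abs_neg, abs_mul, abs_mul, abs_of_nonneg hK0, abs_of_nonneg (ha0 i)]
      refine le_trans ?_ htb
      calc |t| * K * a i ≤ |t| * 1 * b := by
            apply mul_le_mul (mul_le_mul_of_nonneg_left hK1 (abs_nonneg _)) (hab i) (ha0 i)
            rw [mul_one]; exact abs_nonneg _
        _ = _ := by ring
    have h7 := Real.abs_exp_sub_one_sub_id_le (x := -(t * K * a i)) h6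
    have h8 := (abs_le.1 h7).2
    have h9 : (-(t * K * a i)) ^ 2 ≤ t * t * K * (a i * b) := by
      have e1 : (-(t * K * a i)) ^ 2 = (t * t * K * a i) * (K * a i) := by ring
      have e2 : t * t * K * (a i * b) = (t * t * K * a i) * b := by ring
      rw [e1, e2]
      apply mul_le_mul_of_nonneg_left
      · calc K * a i ≤ 1 * b := mul_le_mul hK1 (hab i) (ha0 i) (by norm_num)
          _ = b := one_mul _
      · have := ha0 i
        have := mul_self_nonneg t
        positivity
    have e3 : 1 - t * K * (1 - t * b) * a i = 1 + -(t * K * a i) + t * t * K * (a i * b) := by ring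
    rw [e3]
    linarith
  refine (sum_le_sum h3).trans ?_
  rw [← mul_sum, sum_sub_distrib, ← mul_sum, h2]
  simp only [sum_const, card_range, nsmul_eq_mul, mul_one]
  have h4 : (p : ℝ) - t * K * (1 - t * b) * (O.card * H.card) = p * (1 + -(X * (1 - t * b) * (O.card / p))) := by
    rw [hX]; field_simp; ring
  have h5 : 1 + -(X * (1 - t * b) * ((O.card : ℝ) / p)) ≤ Real.exp (-(X * (1 - t * b) * (O.card / p))) := by
    rw [add_comm]; exact Real.add_one_le_exp _
  rw [h4]
  calc Real.exp X * (p * (1 + -(X * (1 - t * b) * (O.card / p)))) ≤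
      Real.exp X * (p * Real.exp (-(X * (1 - t * b) * (O.card / p)))) := by
        apply mul_le_mul_of_nonneg_left _ (Real.exp_pos _).le
        exact mul_le_mul_of_nonneg_left h5 hp0.le
    _ = p * Real.exp (X + -(X * (1 - t * b) * (O.card / p))) := by rw [Real.exp_add]; ring
    _ = _ := by
      congr 2
      rw [hX]
      ring

/-- **exponential moments** -/
theorem expk (P : Finset ℕ) : ∀ (t : ℝ) (b : ℕ → ℝ) (Om : ℕ → Finset ℕ) (H : Finset ℕ) (x A : ℕ),
    (∀ p ∈ P, p.Prime) → (∀ p ∈ P, Om p ⊆ range p) → (∀ p ∈ P, 2 * (Om p).card ≤ p) →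
    (∀ p ∈ P, |t| * b p ≤ 1) → (∀ p ∈ P, ∀ r : ℕ, ((H.filter (fun h => (r + h) % p ∈ Om p)).card : ℝ) ≤ b p) →
    (∀ p ∈ P, A.Coprime p) →
    ∑ j ∈ range (∏ p ∈ P, p), Real.exp (t * ((H.filter (fun h => ∀ p ∈ P, (x + A * j + h) % p ∉ Om p)).card : ℝ)) ≤
      (∏ p ∈ P, (p : ℝ)) *
        Real.exp (t * (H.card : ℝ) * ∏ p ∈ P, (1 - (1 - t * b p) * (((Om p).card : ℝ) / p))) := by
  classical
  induction P using Finset.induction_on with
  | empty =>
    intro t b Om H x A _ _ _ _ _ _
    simp
  | insert p P hpP ih =>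
    intro t b Om H x A hP hO hO2 hb hHb hA
    have hp : p.Prime := hP p (mem_insert_self _ _)
    have hp0 : (0 : ℝ) < p := by exact_mod_cast hp.pos
    have hb0 : ∀ q ∈ insert p P, 0 ≤ b q := fun q hq => (Nat.cast_nonneg _).trans (hHb q hq 0)
    set K : ℝ := ∏ q ∈ P, (1 - (1 - t * b q) * (((Om q).card : ℝ) / q)) with hK
    have hfac : ∀ q ∈ P, 0 ≤ 1 - (1 - t * b q) * (((Om q).card : ℝ) / q) ∧
        1 - (1 - t * b q) * (((Om q).card : ℝ) / q) ≤ 1 := by
      intro q hq
      have hq' : q ∈ insert p P := mem_insert_of_mem hq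
      have h2 : (0 : ℝ) < q := by exact_mod_cast (hP q hq').pos
      have h3 : 2 * ((Om q).card : ℝ) ≤ q := by exact_mod_cast hO2 q hq'
      have h4 : ((Om q).card : ℝ) / q ≤ 1 / 2 := by
        rw [div_le_div_iff₀ h2 (by norm_num)]
        linarith
      have h5 : 0 ≤ ((Om q).card : ℝ) / q := by positivity
      have h6 : |t * b q| ≤ 1 := by
        rw [abs_mul, abs_of_nonneg (hb0 q hq')]
        exact hb q hq'
      have h7 := abs_le.1 h6
      constructor
      · have h8 : (1 - t * b q) * (((Om q).card : ℝ) / q) ≤ 2 * (1 / 2) :=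
          mul_le_mul (by linarith [h7.1]) h4 h5 (by norm_num)
        linarith
      · have h8 : 0 ≤ (1 - t * b q) * (((Om q).card : ℝ) / q) :=
          mul_nonneg (by linarith [h7.2]) h5
        linarith
    have hK0 : 0 ≤ K := prod_nonneg fun q hq => (hfac q hq).1
    have hK1 : K ≤ 1 := prod_le_one (fun q hq => (hfac q hq).1) fun q hq => (hfac q hq).2
    rw [prod_insert hpP, prod_insert hpP, prod_insert hpP, sum_split]
    have h1 : ∀ i ∈ range p, ∑ j ∈ range (∏ q ∈ P, q),
        Real.exp (t * ((H.filter (fun h => ∀ q ∈ insert p P, (x + A * (i + p * j) + h) % q ∉ Om q)).card : ℝ)) ≤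
        (∏ q ∈ P, (q : ℝ)) * Real.exp (t * ((H.filter (fun h => (x + A * i + h) % p ∉ Om p)).card : ℝ) * K) := by
      intro i _
      have h2 := ih t b Om (H.filter (fun h => (x + A * i + h) % p ∉ Om p)) (x + A * i) (A * p)
        (fun q hq => hP q (mem_insert_of_mem hq)) (fun q hq => hO q (mem_insert_of_mem hq))
        (fun q hq => hO2 q (mem_insert_of_mem hq)) (fun q hq => hb q (mem_insert_of_mem hq)) ?_ ?_
      · refine le_trans (le_of_eq ?_) h2
        apply sum_congr rfl
        intro j _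
        rw [filter_filter]
        refine congrArg Real.exp (congrArg (fun z : ℝ => t * z) (congrArg Nat.cast
          (congrArg card ?_)))
        apply filter_congr
        intro h _
        rw [forall_mem_insert]
        have e1 : x + A * (i + p * j) + h = (x + A * i + h) + p * (A * j) := by ring
        have e2 : x + A * i + A * p * j + h = x + A * (i + p * j) + h := by ring
        rw [e2]
        have e3 : (x + A * (i + p * j) + h) % p = (x + A * i + h) % p := by
          rw [e1]
          exact Nat.add_mul_mod_self_left _ _ _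
        rw [e3]
      · intro q hq r
        refine le_trans ?_ (hHb q (mem_insert_of_mem hq) r)
        have h3 := card_le_card (filter_subset_filter (fun h => (r + h) % q ∈ Om q)
          (filter_subset (fun h => (x + A * i + h) % p ∉ Om p) H))
        exact_mod_cast h3
      · intro q hq
        have hq' : q ∈ insert p P := mem_insert_of_mem hq
        apply Nat.Coprime.mul_left (hA q hq')
        rw [Nat.coprime_primes hp (hP q hq')]
        rintro rfl
        exact hpP hq
    refine (sum_le_sum h1).trans ?_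
    rw [← mul_sum]
    have h2 := avgk hp (hA p (mem_insert_self _ _)) (Om p) (hO p (mem_insert_self _ _)) x H t (b p) K
      (hb p (mem_insert_self _ _)) (hHb p (mem_insert_self _ _)) hK0 hK1
    have h3 : 0 ≤ ∏ q ∈ P, (q : ℝ) := prod_nonneg fun q _ => Nat.cast_nonneg _
    refine (mul_le_mul_of_nonneg_left h2 h3).trans (le_of_eq ?_)
    ring

/-- the density of the sieve -/
noncomputable def VO (Om : ℕ → Finset ℕ) (P : Finset ℕ) : ℝ := ∏ p ∈ P, (1 - ((Om p).card : ℝ) / p)

/-- perturbation of the product -/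
lemma prod_pert (P : Finset ℕ) (g s : ℕ → ℝ) (hg : ∀ p ∈ P, 0 ≤ g p ∧ g p ≤ 1 / 2) (eta : ℝ) (he : eta ≤ 1)
    (hs : ∀ p ∈ P, 0 ≤ s p) (hs1 : 2 * ∑ p ∈ P, s p * g p ≤ eta) :
    ∏ p ∈ P, (1 - (1 - s p) * g p) ≤ (1 + 2 * eta) * ∏ p ∈ P, (1 - g p) ∧
    ((∀ p ∈ P, s p ≤ 1) → (1 - 2 * eta) * ∏ p ∈ P, (1 - g p) ≤ ∏ p ∈ P, (1 - (1 + s p) * g p)) := by
  classical
  have hsum0 : 0 ≤ ∑ p ∈ P, s p * g p := sum_nonneg fun p hp => mul_nonneg (hs p hp) (hg p hp).1
  have he0 : 0 ≤ eta := by linarith
  have hV0 : 0 ≤ ∏ p ∈ P, (1 - g p) := prod_nonneg fun p hp => by linarith [(hg p hp).2]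
  constructor
  · have h1 : ∏ p ∈ P, (1 - (1 - s p) * g p) ≤ ∏ p ∈ P, ((1 - g p) * Real.exp (2 * (s p * g p))) := by
      apply prod_le_prod
      · intro p hp
        have h2 := hg p hp
        have h3 := mul_nonneg (hs p hp) h2.1
        nlinarith
      · intro p hp
        have h2 := hg p hp
        have h3 := mul_nonneg (hs p hp) h2.1
        have h4 : 1 + 2 * (s p * g p) ≤ Real.exp (2 * (s p * g p)) := by
          rw [add_comm]; exact Real.add_one_le_exp _
        have h5 : (1 - g p) * (1 + 2 * (s p * g p)) ≤ (1 - g p) * Real.exp (2 * (s p * g p)) :=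
          mul_le_mul_of_nonneg_left h4 (by linarith)
        refine le_trans ?_ h5
        nlinarith
    refine h1.trans ?_
    rw [prod_mul_distrib, ← Real.exp_sum, mul_comm]
    apply mul_le_mul_of_nonneg_right _ hV0
    rw [← mul_sum]
    have h2 : Real.exp (2 * ∑ p ∈ P, s p * g p) ≤ Real.exp eta := Real.exp_le_exp.2 hs1
    refine h2.trans ?_
    have h3 := Real.abs_exp_sub_one_sub_id_le (x := eta) (by rw [abs_of_nonneg he0]; exact he)
    have h4 := (abs_le.1 h3).2
    nlinarith
  · intro hs2
    have h1 : ∏ p ∈ P, ((1 - g p) * (1 - 2 * (s p * g p))) ≤ ∏ p ∈ P, (1 - (1 + s p) * g p) := by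
      apply prod_le_prod
      · intro p hp
        have h2 := hg p hp
        have h3 : s p * g p ≤ 1 * (1 / 2) := mul_le_mul (hs2 p hp) h2.2 h2.1 (by norm_num)
        exact mul_nonneg (by linarith) (by linarith)
      · intro p hp
        have h2 := hg p hp
        have h3 := mul_nonneg (hs p hp) h2.1
        nlinarith
    refine le_trans ?_ h1
    rw [prod_mul_distrib, mul_comm]
    apply mul_le_mul_of_nonneg_left _ hV0
    have h2 : ∀ Q ⊆ P, 1 - ∑ p ∈ Q, 2 * (s p * g p) ≤ ∏ p ∈ Q, (1 - 2 * (s p * g p)) := by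
      intro Q
      induction Q using Finset.induction_on with
      | empty => intro _; simp
      | insert q Q hqQ ih =>
        intro hQ
        rw [sum_insert hqQ, prod_insert hqQ]
        have hq : q ∈ P := hQ (mem_insert_self _ _)
        have h3 := ih ((subset_insert _ _).trans hQ)
        have h4 := hg q hq
        have h5 := mul_nonneg (hs q hq) h4.1
        have h6 : s q * g q ≤ 1 * (1 / 2) := mul_le_mul (hs2 q hq) h4.2 h4.1 (by norm_num)
        have h7 : 0 ≤ ∑ p ∈ Q, 2 * (s p * g p) := by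
          apply sum_nonneg
          intro p hp
          have hp' : p ∈ P := hQ (mem_insert_of_mem hp)
          have := mul_nonneg (hs p hp') (hg p hp').1
          positivity
        have h8 := mul_le_mul_of_nonneg_left h3 (show 0 ≤ 1 - 2 * (s q * g q) by linarith)
        nlinarith
    have h3 := h2 P (Subset.refl _)
    rw [← mul_sum] at h3
    linarith

/-- deviation from the mean -/
theorem devi (P : Finset ℕ) (b : ℕ → ℝ) (Om : ℕ → Finset ℕ) (H : Finset ℕ) (x A : ℕ) (lam eta eps : ℝ)
    (hP : ∀ p ∈ P, p.Prime) (hO : ∀ p ∈ P, Om p ⊆ range p) (hO2 : ∀ p ∈ P, 2 * (Om p).card ≤ p)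
    (hlam : 0 ≤ lam) (hb : ∀ p ∈ P, lam * b p ≤ 1)
    (hHb : ∀ p ∈ P, ∀ r : ℕ, ((H.filter (fun h => (r + h) % p ∈ Om p)).card : ℝ) ≤ b p)
    (hA : ∀ p ∈ P, A.Coprime p) (heta : eta ≤ 1)
    (hsum : 2 * ∑ p ∈ P, lam * b p * (((Om p).card : ℝ) / p) ≤ eta) :
    (((range (∏ p ∈ P, p)).filter (fun j => eps * (H.card * VO Om P) <
      |((H.filter (fun h => ∀ p ∈ P, (x + A * j + h) % p ∉ Om p)).card : ℝ) - H.card * VO Om P|)).card : ℝ) ≤
      2 * ((∏ p ∈ P, p : ℕ) : ℝ) * Real.exp (-(lam * (H.card * VO Om P) * (eps - 2 * eta))) := by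
  classical
  set S : ℕ → ℝ := fun j => ((H.filter (fun h => ∀ p ∈ P, (x + A * j + h) % p ∉ Om p)).card : ℝ) with hS
  set D := ∏ p ∈ P, p with hD
  set M : ℝ := H.card * VO Om P with hM
  have hg : ∀ p ∈ P, 0 ≤ ((Om p).card : ℝ) / p ∧ ((Om p).card : ℝ) / p ≤ 1 / 2 := by
    intro p hp
    have h2 : (0 : ℝ) < p := by exact_mod_cast (hP p hp).pos
    have h3 : 2 * ((Om p).card : ℝ) ≤ p := by exact_mod_cast hO2 p hp
    constructor
    · positivity
    · rw [div_le_div_iff₀ h2 (by norm_num)]
      linarith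
  have hb0 : ∀ q ∈ P, 0 ≤ b q := fun q hq => (Nat.cast_nonneg _).trans (hHb q hq 0)
  obtain ⟨hup, hlo⟩ := prod_pert P (fun p => ((Om p).card : ℝ) / p) (fun p => lam * b p) hg eta heta
    (fun p hp => mul_nonneg hlam (hb0 p hp)) hsum
  have hlo' := hlo hb
  have hprod : ((D : ℕ) : ℝ) = ∏ p ∈ P, (p : ℝ) := by rw [hD]; push_cast; rfl
  have hH0 : (0 : ℝ) ≤ H.card := Nat.cast_nonneg _
  -- upper tail
  have U1 : (((range D).filter (fun j => eps * M < S j - M)).card : ℝ) ≤
      D * Real.exp (-(lam * M * (eps - 2 * eta))) := by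
    have h1 := expk P lam b Om H x A hP hO hO2 (by rwa [abs_of_nonneg hlam]) hHb hA
    have h2 : ∑ j ∈ (range D).filter (fun j => eps * M < S j - M), Real.exp (lam * (M + eps * M)) ≤
        ∑ j ∈ range D, Real.exp (lam * S j) := by
      refine le_trans (sum_le_sum ?_) (sum_le_sum_of_subset_of_nonneg (filter_subset _ _) fun j _ _ => (Real.exp_pos _).le)
      intro j hj
      rw [mem_filter] at hj
      apply Real.exp_le_exp.2
      apply mul_le_mul_of_nonneg_left _ hlam
      linarith [hj.2]
    rw [sum_const, nsmul_eq_mul] at h2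
    have h3 : lam * (H.card : ℝ) * ∏ p ∈ P, (1 - (1 - lam * b p) * (((Om p).card : ℝ) / p)) ≤
        lam * ((1 + 2 * eta) * M) := by
      rw [mul_assoc]
      apply mul_le_mul_of_nonneg_left _ hlam
      rw [hM]
      have := mul_le_mul_of_nonneg_left hup hH0
      calc _ ≤ _ := this
        _ = _ := by unfold VO; ring
    have h4 := (h2.trans h1).trans (mul_le_mul_of_nonneg_left (Real.exp_le_exp.2 h3)
      (prod_nonneg fun p _ => Nat.cast_nonneg p))
    rw [← hprod] at h4
    have h5 := mul_le_mul_of_nonneg_right h4 (Real.exp_pos (-(lam * (M + eps * M)))).le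
    rw [mul_assoc, ← Real.exp_add, mul_assoc, ← Real.exp_add] at h5
    have e1 : lam * (M + eps * M) + -(lam * (M + eps * M)) = 0 := by ring
    have e2 : lam * ((1 + 2 * eta) * M) + -(lam * (M + eps * M)) = -(lam * M * (eps - 2 * eta)) := by ring
    rw [e1, e2, Real.exp_zero, mul_one] at h5
    exact h5
  -- lower tail
  have L1 : (((range D).filter (fun j => eps * M < M - S j)).card : ℝ) ≤
      D * Real.exp (-(lam * M * (eps - 2 * eta))) := by
    have h1 := expk P (-lam) b Om H x A hP hO hO2 (by rwa [abs_neg, abs_of_nonneg hlam]) hHb hA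
    have h2 : ∑ j ∈ (range D).filter (fun j => eps * M < M - S j), Real.exp (-lam * (M - eps * M)) ≤
        ∑ j ∈ range D, Real.exp (-lam * S j) := by
      refine le_trans (sum_le_sum ?_) (sum_le_sum_of_subset_of_nonneg (filter_subset _ _) fun j _ _ => (Real.exp_pos _).le)
      intro j hj
      rw [mem_filter] at hj
      apply Real.exp_le_exp.2
      rw [neg_mul, neg_mul, neg_le_neg_iff]
      apply mul_le_mul_of_nonneg_left _ hlam
      linarith [hj.2]
    rw [sum_const, nsmul_eq_mul] at h2
    have h3 : -lam * (H.card : ℝ) * ∏ p ∈ P, (1 - (1 - -lam * b p) * (((Om p).card : ℝ) / p)) ≤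
        -(lam * ((1 - 2 * eta) * M)) := by
      rw [neg_mul, neg_mul, neg_le_neg_iff, mul_assoc]
      apply mul_le_mul_of_nonneg_left _ hlam
      rw [hM]
      have := mul_le_mul_of_nonneg_left hlo' hH0
      calc _ = (H.card : ℝ) * ((1 - 2 * eta) * ∏ p ∈ P, (1 - ((Om p).card : ℝ) / p)) := by unfold VO; ring
        _ ≤ _ := this
        _ = _ := by
          congr 1
          apply prod_congr rfl
          intro p _
          ring
    have h4 := (h2.trans h1).trans (mul_le_mul_of_nonneg_left (Real.exp_le_exp.2 h3)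
      (prod_nonneg fun p _ => Nat.cast_nonneg p))
    rw [← hprod] at h4
    have h5 := mul_le_mul_of_nonneg_right h4 (Real.exp_pos (lam * (M - eps * M))).le
    rw [mul_assoc, ← Real.exp_add, mul_assoc, ← Real.exp_add] at h5
    have e1 : -lam * (M - eps * M) + lam * (M - eps * M) = 0 := by ring
    have e2 : -(lam * ((1 - 2 * eta) * M)) + lam * (M - eps * M) = -(lam * M * (eps - 2 * eta)) := by ring
    rw [e1, e2, Real.exp_zero, mul_one] at h5
    exact h5
  have hsub : (range D).filter (fun j => eps * M < |S j - M|) ⊆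
      (range D).filter (fun j => eps * M < S j - M) ∪ (range D).filter (fun j => eps * M < M - S j) := by
    intro j hj
    rw [mem_filter] at hj
    rw [mem_union, mem_filter, mem_filter]
    rcases lt_abs.1 hj.2 with h | h
    · exact Or.inl ⟨hj.1, h⟩
    · right; exact ⟨hj.1, by linarith⟩
  have hc : (((range D).filter (fun j => eps * M < |S j - M|)).card : ℝ) ≤
      ((range D).filter (fun j => eps * M < S j - M)).card + ((range D).filter (fun j => eps * M < M - S j)).card := by
    exact_mod_cast (card_le_card hsub).trans (card_union_le _ _)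
  refine hc.trans ?_
  linarith

end Pool.Agent.Y829
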