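import Pool.Agent.Y829.G1
import Pool.Agent.Y829.BT6

/-! The fundamental lemma for intervals and several classes; every residue class. -/

set_option autoImplicit false

namespace Pool.Agent.Y829

open Finset Filter Topology

open Classical in
lemma fullk (R : Finset ℕ) : ∀ (Om : ℕ → Finset ℕ) (H : Finset ℕ) (x A : ℕ), (∀ p ∈ R, p.Prime) →
    (∀ p ∈ R, Om p ⊆ range p) → (∀ p ∈ R, A.Coprime p) →
    ∑ j ∈ range (∏ p ∈ R, p), ((H.filter (fun h => ∀ p ∈ R, (x + A * j + h) % p ∉ Om p)).card : ℝ) =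
      (∏ p ∈ R, ((p : ℝ) - (Om p).card)) * H.card := by
  induction R using Finset.induction_on with
  | empty =>
    intro Om H x A _ _ _
    simp
  | insert p R hpR ih =>
    intro Om H x A hR hO hA
    have hp : p.Prime := hR p (mem_insert_self _ _)
    rw [prod_insert hpR, prod_insert hpR, sum_split]
    have h1 : ∀ i ∈ range p, ∑ j ∈ range (∏ q ∈ R, q),
        ((H.filter (fun h => ∀ q ∈ insert p R, (x + A * (i + p * j) + h) % q ∉ Om q)).card : ℝ) =
        (∏ q ∈ R, ((q : ℝ) - (Om q).card)) * ((H.filter (fun h => (x + A * i + h) % p ∉ Om p)).card : ℝ) := by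
      intro i _
      have h2 := ih Om (H.filter (fun h => (x + A * i + h) % p ∉ Om p)) (x + A * i) (A * p)
        (fun q hq => hR q (mem_insert_of_mem hq)) (fun q hq => hO q (mem_insert_of_mem hq)) ?_
      · rw [← h2]
        apply sum_congr rfl
        intro j _
        rw [filter_filter]
        refine congrArg Nat.cast (congrArg card ?_)
        apply filter_congr
        intro h _
        rw [forall_mem_insert]
        have e1 : x + A * (i + p * j) + h = (x + A * i + h) + p * (A * j) := by ring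
        have e2 : x + A * i + A * p * j + h = x + A * (i + p * j) + h := by ring
        rw [e2]
        have e3 : (x + A * (i + p * j) + h) % p = (x + A * i + h) % p := by
          rw [e1]
          exact Nat.add_mul_mod_self_left _ _ _
        rw [e3]
      · intro q hq
        have hq' : q ∈ insert p R := mem_insert_of_mem hq
        apply Nat.Coprime.mul_left (hA q hq')
        rw [Nat.coprime_primes hp (hR q hq')]
        rintro rfl
        exact hpR hq
    rw [sum_congr rfl h1, ← mul_sum]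
    have h2 : ∑ i ∈ range p, ((H.filter (fun h => (x + A * i + h) % p ∉ Om p)).card : ℝ) =
        (p - (Om p).card) * H.card := by
      simp only [card_filter]
      push_cast
      rw [sum_comm]
      have h3 : ∀ h ∈ H, ∑ i ∈ range p, (if (x + A * i + h) % p ∉ Om p then (1 : ℝ) else 0) =
          p - (Om p).card := by
        intro h _
        have h4 := roots hp (hA p (mem_insert_self _ _)) (Om p) (hO p (mem_insert_self _ _)) (x + h)
        have h5 := card_filter_add_card_filter_not (s := range p) (fun i => (x + h + A * i) % p ∈ Om p)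
        rw [h4, card_range] at h5
        have h6 : (((range p).filter (fun i => (x + h + A * i) % p ∉ Om p)).card : ℝ) = p - (Om p).card := by
          rw [eq_sub_iff_add_eq, add_comm]
          exact_mod_cast h5
        rw [card_filter] at h6
        push_cast at h6
        refine (sum_congr rfl fun i _ => ?_).trans h6
        rw [add_right_comm]
      rw [sum_congr rfl h3, sum_const, nsmul_eq_mul]
      ring
    rw [h2]
    ring

lemma VO_pos {Om : ℕ → Finset ℕ} {P : Finset ℕ} (hP : ∀ p ∈ P, p.Prime) (hO : ∀ p ∈ P, (Om p).card < p) :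
    0 < VO Om P := by
  unfold VO
  apply prod_pos
  intro p hp
  have h1 : (0 : ℝ) < p := by exact_mod_cast (hP p hp).pos
  have h2 : ((Om p).card : ℝ) < p := by exact_mod_cast hO p hp
  have : ((Om p).card : ℝ) / p < 1 := by rw [div_lt_one h1]; exact h2
  linarith

lemma VO_le_one {Om : ℕ → Finset ℕ} {P : Finset ℕ} (hP : ∀ p ∈ P, p.Prime) (hO : ∀ p ∈ P, (Om p).card < p) :
    VO Om P ≤ 1 := by
  unfold VO
  apply prod_le_one
  · intro p hp
    have h1 : (0 : ℝ) < p := by exact_mod_cast (hP p hp).pos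
    have h2 : ((Om p).card : ℝ) < p := by exact_mod_cast hO p hp
    have : ((Om p).card : ℝ) / p < 1 := by rw [div_lt_one h1]; exact h2
    linarith
  · intro p _
    have : 0 ≤ ((Om p).card : ℝ) / p := by positivity
    linarith

lemma VO_union {Om : ℕ → Finset ℕ} {P R : Finset ℕ} [DecidableEq ℕ] (h : Disjoint P R) :
    VO Om (P ∪ R) = VO Om P * VO Om R := by
  unfold VO
  rw [prod_union h]

/-- lower bound for the density -/
lemma VO_ge {Om : ℕ → Finset ℕ} {P : Finset ℕ} {κ : ℕ} (hP : ∀ p ∈ P, p.Prime) (hO : ∀ p ∈ P, (Om p).card < p)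
    (hk : ∀ p ∈ P, (Om p).card ≤ κ) :
    (1 / (2 * κ + 2 : ℝ)) ^ (2 * κ + 2) * V P ^ (2 * κ + 2) ≤ VO Om P := by
  classical
  set m : ℕ := 2 * κ + 2 with hm
  have hm1 : (1 : ℝ) ≤ (m : ℝ) := by exact_mod_cast (by omega : 1 ≤ m)
  have hmr : (2 * (κ : ℝ) + 2) = (m : ℝ) := by rw [hm]; push_cast; ring
  rw [hmr]
  have h1 : ∏ p ∈ P, ((if p < m then 1 / (m : ℝ) else 1) * (1 - 1 / (p : ℝ)) ^ m) ≤ VO Om P := by
    unfold VO
    apply Finset.prod_le_prod
    · intro p hp
      have := fac_pos (hP p hp)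
      apply mul_nonneg
      · split_ifs <;> positivity
      · positivity
    · intro p hp
      have h2 : (0 : ℝ) < p := by exact_mod_cast (hP p hp).pos
      have h3 : ((Om p).card : ℝ) + 1 ≤ p := by exact_mod_cast hO p hp
      have h4 : ((Om p).card : ℝ) ≤ κ := by exact_mod_cast hk p hp
      have hf := fac_pos (hP p hp)
      have hf1 := fac_le_one (p := p)
      by_cases hpm : p < m
      · rw [if_pos hpm]
        have h5 : (1 - 1 / (p : ℝ)) ^ m ≤ 1 := pow_le_one₀ hf.le hf1
        have h6 : 1 / (m : ℝ) ≤ 1 / p := by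
          apply one_div_le_one_div_of_le h2
          exact_mod_cast hpm.le
        have h7 : 1 / (p : ℝ) ≤ 1 - ((Om p).card : ℝ) / p := by
          have : 1 - ((Om p).card : ℝ) / p - 1 / p = (p - ((Om p).card + 1)) / p := by field_simp; ring
          have h8 : 0 ≤ (p - (((Om p).card : ℝ) + 1)) / p := div_nonneg (by linarith) h2.le
          linarith
        calc 1 / (m : ℝ) * (1 - 1 / (p : ℝ)) ^ m ≤ 1 / (m : ℝ) * 1 :=
              mul_le_mul_of_nonneg_left h5 (by positivity)
          _ ≤ _ := by linarith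
      · rw [if_neg hpm, one_mul]
        have hpm' : (m : ℝ) ≤ p := by exact_mod_cast not_lt.1 hpm
        set x : ℝ := (m : ℝ) / p with hx
        have hx0 : 0 < x := by positivity
        have hx1 : x ≤ 1 := by rw [hx, div_le_one h2]; exact hpm'
        have h5 : (1 - 1 / (p : ℝ)) ^ m ≤ Real.exp (-x) := by
          have h6 : 1 - 1 / (p : ℝ) ≤ Real.exp (-(1 / p)) := by
            have := Real.add_one_le_exp (-(1 / (p : ℝ)))
            linarith
          calc (1 - 1 / (p : ℝ)) ^ m ≤ (Real.exp (-(1 / p))) ^ m := pow_le_pow_left₀ hf.le h6 m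
            _ = Real.exp (-x) := by
              rw [← Real.exp_nat_mul, hx]
              congr 1
              ring
        have h6 : Real.exp (-x) ≤ 1 - x / 2 := by
          rw [Real.exp_neg]
          have h7 := Real.add_one_le_exp x
          rw [inv_le_comm₀ (Real.exp_pos _) (by linarith)]
          refine le_trans ?_ h7
          rw [inv_le_comm₀ (by linarith) (by linarith), ← one_div, div_le_iff₀ (by linarith)]
          nlinarith
        have h7 : ((Om p).card : ℝ) / p ≤ x / 2 := by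
          rw [hx, div_div, div_le_div_iff₀ h2 (by positivity)]
          rw [← hmr]
          nlinarith
        linarith
  refine le_trans ?_ h1
  rw [prod_mul_distrib, prod_pow]
  apply mul_le_mul_of_nonneg_right _ (pow_nonneg (V_pos hP).le _)
  rw [prod_ite, prod_const_one, mul_one, prod_const]
  apply pow_le_pow_of_le_one (by positivity)
  · rw [div_le_one (by linarith)]; exact hm1
  · calc (P.filter (fun p => p < m)).card ≤ (range m).card := by
          apply card_le_card
          intro p hp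
          exact mem_range.2 (mem_filter.1 hp).2
      _ = m := card_range m

/-- number of integers in `[a, b)` in a residue class -/
lemma cnt_mod (a b M v : ℕ) (hab : a ≤ b) (hM : 0 < M) :
    |(((Ico a b).filter (fun n => n ≡ v [MOD M])).card : ℝ) - ((b : ℝ) - a) / M| ≤ 1 := by
  have h := Nat.Ico_filter_modEq_card a b hM v
  set c := ((Ico a b).filter (fun n => n ≡ v [MOD M])).card with hc
  set e : ℚ := ((b : ℚ) - (v : ℚ)) / (M : ℚ) with he
  set d : ℚ := ((a : ℚ) - (v : ℚ)) / (M : ℚ) with hd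
  have hMq : (0 : ℚ) < M := by exact_mod_cast hM
  have habq : (a : ℚ) ≤ b := by exact_mod_cast hab
  have hed : e - d = ((b : ℚ) - a) / M := by
    rw [he, hd]; field_simp; ring
  have hXM : (0 : ℚ) ≤ ((b : ℚ) - a) / M := div_nonneg (by linarith) hMq.le
  have h1 := Int.le_ceil e
  have h2 := Int.ceil_lt_add_one e
  have h3 := Int.le_ceil d
  have h4 := Int.ceil_lt_add_one d
  have hq : |(c : ℚ) - ((b : ℚ) - a) / M| ≤ 1 := by
    have hcq : (c : ℚ) = max ((⌈e⌉ : ℚ) - ⌈d⌉) 0 := by
      have := congrArg (fun z : ℤ => (z : ℚ)) h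
      push_cast at this
      convert this using 2
    rw [hcq, abs_le, ← hed]
    constructor
    · have := le_max_left ((⌈e⌉ : ℚ) - ⌈d⌉) 0
      linarith
    · have : max ((⌈e⌉ : ℚ) - ⌈d⌉) 0 ≤ e - d + 1 := by
        apply max_le
        · linarith
        · rw [hed]; linarith
      linarith
  have hr : ((|(c : ℚ) - ((b : ℚ) - a) / M| : ℚ) : ℝ) ≤ ((1 : ℚ) : ℝ) := by exact_mod_cast hq
  push_cast at hr
  exact hr

/-- the Chinese remainder theorem -/
lemma crt (D : ℕ) (T : Finset ℕ) (hT : ∀ p ∈ T, p.Prime) (hD : ∀ p ∈ T, D.Coprime p) (r : ℕ) (hr : r < D)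
    (c : ℕ → ℕ) (hc : ∀ p ∈ T, c p < p) :
    ∃ v : ℕ, ∀ m : ℕ, (m % D = r ∧ ∀ p ∈ T, m % p = c p) ↔ m ≡ v [MOD (D * ∏ p ∈ T, p)] := by
  have hpair : Set.Pairwise (T : Set ℕ) (Function.onFun Nat.Coprime (fun p : ℕ => p)) := by
    intro p hp q hq hpq
    exact (Nat.coprime_primes (hT p hp) (hT q hq)).2 hpq
  obtain ⟨k, hk⟩ := Nat.chineseRemainderOfFinset c (fun p => p) T (fun p hp => (hT p hp).ne_zero) hpair
  have hDT : D.Coprime (∏ p ∈ T, p) := Nat.Coprime.prod_right hD
  obtain ⟨v, hv1, hv2⟩ := Nat.chineseRemainder hDT r k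
  refine ⟨v, fun m => ?_⟩
  constructor
  · rintro ⟨h1, h2⟩
    rw [← Nat.modEq_and_modEq_iff_modEq_mul hDT]
    constructor
    · have : m ≡ r [MOD D] := by
        show m % D = r % D
        rw [h1, Nat.mod_eq_of_lt hr]
      exact this.trans hv1.symm
    · have h3 : ∀ p ∈ T, p ∣ ((v : ℤ) - m).natAbs := by
        intro p hp
        have h4 : m ≡ c p [MOD p] := by
          show m % p = c p % p
          rw [h2 p hp, Nat.mod_eq_of_lt (hc p hp)]
        have h5 : v ≡ k [MOD p] := hv2.of_dvd (dvd_prod_of_mem _ hp)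
        have h6 : m ≡ v [MOD p] := h4.trans ((hk p hp).symm.trans h5.symm)
        have h7 := (Nat.modEq_iff_dvd).1 h6
        exact Int.natCast_dvd.1 h7
      have h4 : (∏ p ∈ T, p) ∣ ((v : ℤ) - m).natAbs :=
        Finset.prod_primes_dvd _ (fun p hp => (hT p hp).prime) h3
      rw [Nat.modEq_iff_dvd]
      exact Int.natCast_dvd.2 h4
  · intro h
    have h1 : m ≡ v [MOD D] := h.of_dvd (Dvd.intro _ rfl)
    have h2 : m ≡ v [MOD (∏ p ∈ T, p)] := h.of_dvd (Dvd.intro_left _ rfl)
    constructor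
    · have h3 : m ≡ r [MOD D] := h1.trans hv1
      have h4 : m % D = r % D := h3
      rw [h4, Nat.mod_eq_of_lt hr]
    · intro p hp
      have h3 : m ≡ v [MOD p] := h2.of_dvd (dvd_prod_of_mem _ hp)
      have h5 : v ≡ k [MOD p] := hv2.of_dvd (dvd_prod_of_mem _ hp)
      have h6 : m ≡ c p [MOD p] := h3.trans (h5.trans (hk p hp))
      have h7 : m % p = c p % p := h6
      rw [h7, Nat.mod_eq_of_lt (hc p hp)]

lemma shiftc (n U : ℕ) (Q : ℕ → Prop) [DecidablePred Q] :
    ((Icc 1 U).filter (fun h => Q (n + h))).card = ((Ico (n + 1) (n + U + 1)).filter Q).card := by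
  apply card_nbij' (fun h => n + h) (fun m => m - n)
  · intro h hh
    rw [mem_coe, mem_filter, mem_Icc] at hh
    rw [mem_coe, mem_filter, mem_Ico]
    dsimp only
    exact ⟨by omega, hh.2⟩
  · intro m hm
    rw [mem_coe, mem_filter, mem_Ico] at hm
    rw [mem_coe, mem_filter, mem_Icc]
    dsimp only
    refine ⟨by omega, ?_⟩
    have : n + (m - n) = m := by omega
    rw [this]
    exact hm.2
  · intro h hh
    show n + h - n = h
    omega
  · intro m hm
    rw [mem_coe, mem_filter, mem_Ico] at hm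
    show n + (m - n) = m
    omega

/-- **The fundamental lemma in every interval**, several classes, all small primes. -/
theorem small (κ : ℕ) : ∃ C : ℕ, 1 ≤ C ∧ ∀ b : ℕ, C ≤ b → ∃ U0 : ℕ, ∀ U : ℕ, U0 ≤ U →
    ∀ (P : Finset ℕ) (Om : ℕ → Finset ℕ), (∀ p ∈ P, p.Prime ∧ (p : ℝ) ≤ (U : ℝ) ^ (1 / ((C : ℝ) * b))) →
    (∀ p ∈ P, Om p ⊆ range p ∧ (Om p).card ≤ κ ∧ (Om p).card < p) → ∀ n : ℕ,
    |(((Icc 1 U).filter (fun h => ∀ p ∈ P, (n + h) % p ∉ Om p)).card : ℝ) - U * VO Om P| ≤
      (1 / 2 : ℝ) ^ b * (U * VO Om P) := by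
  classical
  obtain ⟨C0, hC0, hfl⟩ := Pool.Agent.TH882.FL.fl1 κ
  set m : ℕ := 2 * κ + 2 with hm
  set C : ℕ := 32 * C0 + 4 * m with hC
  refine ⟨C, by omega, ?_⟩
  intro b hb
  have hb1 : 1 ≤ b := by omega
  have hbr : (1 : ℝ) ≤ b := by exact_mod_cast hb1
  have hCr : (1 : ℝ) ≤ C := by exact_mod_cast (by omega : 1 ≤ C)
  set e1 : ℝ := 1 / ((C : ℝ) * b) with he1
  have he10 : 0 < e1 := by positivity
  have he1C : e1 * C ≤ 1 := by
    rw [he1, div_mul_eq_mul_div, one_mul, div_le_one (by positivity)]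
    nlinarith
  have hCm : 4 * (m : ℝ) ≤ C := by
    have : 4 * m ≤ C := by omega
    exact_mod_cast this
  have hm2 : (2 : ℝ) ≤ m := by exact_mod_cast (by omega : 2 ≤ m)
  have he1m : (m : ℝ) * e1 ≤ 1 / 4 := by nlinarith
  have he1h : 2 * e1 ≤ 1 := by nlinarith
  have he1b : 8 * (C0 : ℝ) * b * e1 ≤ 1 / 4 := by
    have h1 : e1 * b * C = 1 := by rw [he1]; field_simp
    have h2 : 32 * (C0 : ℝ) ≤ C := by
      have : 32 * C0 ≤ C := by omega
      exact_mod_cast this
    have h3 : 0 < e1 * b := by positivity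
    nlinarith
  have E1 := ev (1 / 2) ((C0.factorial : ℝ) * 4 * 2 ^ (b + 1) * (m : ℝ) ^ m) 0 (by norm_num)
  have E2 : ∀ᶠ U : ℕ in atTop, (2 : ℝ) < (U : ℝ) ^ e1 :=
    ((tendsto_rpow_atTop he10).comp tendsto_natCast_atTop_atTop).eventually_gt_atTop 2
  obtain ⟨U0, hU0⟩ := (E1.and E2).exists_forall_of_atTop
  refine ⟨max U0 2, ?_⟩
  intro U hU P Om hP hOm n
  obtain ⟨ev1, ev2⟩ := hU0 U ((le_max_left _ _).trans hU)
  have hU2 : 2 ≤ U := (le_max_right _ _).trans hU
  have hUr : (2 : ℝ) ≤ U := by exact_mod_cast hU2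
  have hUpos : (0 : ℝ) < U := by linarith
  have hU1 : (1 : ℝ) ≤ U := by linarith
  obtain ⟨J, hJ1, hJ2, hJ3⟩ := exJ hU2 he10 he1h ev2
  have hPp : ∀ p ∈ P, p.Prime := fun p hp => (hP p hp).1
  set P1 := P.filter (fun p => p ≤ C0) with hP1
  set P2 := P.filter (fun p => C0 < p) with hP2
  have hd12 : Disjoint P1 P2 := by
    rw [disjoint_left]
    intro p hp hp'
    have h1 := (mem_filter.1 hp).2
    have h2 := (mem_filter.1 hp').2
    omega
  have hun : P1 ∪ P2 = P := by
    ext p
    rw [mem_union, mem_filter, mem_filter]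
    constructor
    · rintro (h | h) <;> exact h.1
    · intro hp
      by_cases h5 : p ≤ C0
      · exact Or.inl ⟨hp, h5⟩
      · exact Or.inr ⟨hp, not_le.1 h5⟩
  have hP1p : ∀ p ∈ P1, p.Prime := fun p hp => hPp p (mem_filter.1 hp).1
  have hP2p : ∀ p ∈ P2, p.Prime := fun p hp => hPp p (mem_filter.1 hp).1
  have hO1 : ∀ p ∈ P1, Om p ⊆ range p ∧ (Om p).card ≤ κ ∧ (Om p).card < p := fun p hp => hOm p (mem_filter.1 hp).1
  have hO2 : ∀ p ∈ P2, Om p ⊆ range p ∧ (Om p).card ≤ κ ∧ (Om p).card < p := fun p hp => hOm p (mem_filter.1 hp).1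
  set D := ∏ p ∈ P1, p with hD
  have hD0 : 0 < D := prod_pos fun p hp => (hP1p p hp).pos
  have hDr : (0 : ℝ) < D := by exact_mod_cast hD0
  have hDle : (D : ℝ) ≤ C0.factorial := by
    have h1 : D ∣ C0.factorial := by
      apply Finset.prod_primes_dvd
      · intro p hp; exact (hP1p p hp).prime
      · intro p hp
        exact (Nat.Prime.dvd_factorial (hP1p p hp)).2 (mem_filter.1 hp).2
    exact_mod_cast Nat.le_of_dvd (Nat.factorial_pos _) h1
  set R := (range D).filter (fun r => ∀ p ∈ P1, r % p ∉ Om p) with hR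
  have hRcard : (R.card : ℝ) = D * VO Om P1 := by
    have h1 := fullk P1 Om {0} 0 1 hP1p (fun p hp => (hO1 p hp).1) (fun p _ => Nat.coprime_one_left p)
    have h2 : ∑ j ∈ range (∏ p ∈ P1, p), ((({0} : Finset ℕ).filter (fun h => ∀ p ∈ P1, (0 + 1 * j + h) % p ∉ Om p)).card : ℝ) =
        R.card := by
      rw [hR, card_filter]
      push_cast
      apply sum_congr rfl
      intro j _
      have h3 : ({0} : Finset ℕ).filter (fun h => ∀ p ∈ P1, (0 + 1 * j + h) % p ∉ Om p) =
          if (∀ p ∈ P1, j % p ∉ Om p) then {0} else ∅ := by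
        rw [filter_singleton]
        simp
      rw [h3]
      split_ifs <;> simp
    rw [h2] at h1
    rw [h1]
    unfold VO
    rw [hD]
    push_cast
    rw [← prod_mul_distrib, card_singleton]
    push_cast
    rw [mul_one]
    apply prod_congr rfl
    intro p hp
    have : (p : ℝ) ≠ 0 := by exact_mod_cast (hP1p p hp).ne_zero
    field_simp
  -- one class
  set E : ℝ := ((J : ℝ) + 2) * (((2 ^ 2 ^ J : ℕ) : ℝ) ^ (C0 * (b + 1))) ^ 2 with hE
  have hclass : ∀ r ∈ R, |((((Ico (n + 1) (n + U + 1)).filter (fun m => m % D = r)).filter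
      (fun m => ∀ p ∈ P2, m % p ∉ Om p)).card : ℝ) - (U : ℝ) / D * VO Om P2| ≤
      (1 / 2 : ℝ) ^ (b + 1) * ((U : ℝ) / D * VO Om P2) + E := by
    intro r hr
    apply hfl (b + 1) J C0 P2 Om (by omega) le_rfl
    · intro p hp
      have h1 := hP p (mem_filter.1 hp).1
      refine ⟨h1.1, (mem_filter.1 hp).2, ?_⟩
      exact_mod_cast h1.2.trans hJ1
    · intro p hp
      exact (hO2 p hp).2.1
    · positivity
    · intro T hT c hc
      have hTp : ∀ p ∈ T, p.Prime := fun p hp => hP2p p (hT hp)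
      have hDT : ∀ p ∈ T, D.Coprime p := by
        intro p hp
        apply Nat.Coprime.prod_left
        intro q hq
        rw [Nat.coprime_primes (hP1p q hq) (hTp p hp)]
        rintro rfl
        exact disjoint_left.1 hd12 hq (hT hp)
      obtain ⟨v, hv⟩ := crt D T hTp hDT r (mem_range.1 (mem_filter.1 hr).1) c
        (fun p hp => mem_range.1 ((hO2 p (hT hp)).1 (hc p hp)))
      have h1 : ((Ico (n + 1) (n + U + 1)).filter (fun m => m % D = r)).filter (fun m => ∀ p ∈ T, m % p = c p) =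
          (Ico (n + 1) (n + U + 1)).filter (fun m => m ≡ v [MOD (D * ∏ p ∈ T, p)]) := by
        rw [filter_filter]
        apply filter_congr
        intro m _
        exact hv m
      have h2 := cnt_mod (n + 1) (n + U + 1) (D * ∏ p ∈ T, p) v (by omega)
        (Nat.mul_pos hD0 (prod_pos fun p hp => (hTp p hp).pos))
      rw [h1]
      have h3 : (((n + U + 1 : ℕ) : ℝ) - ((n + 1 : ℕ) : ℝ)) / ((D * ∏ p ∈ T, p : ℕ) : ℝ) =
          (U : ℝ) / D / ∏ p ∈ T, (p : ℝ) := by
        push_cast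
        rw [div_div]
        congr 1
        ring
      rw [h3] at h2
      exact h2
  -- the sum over the classes
  have hS : (((Icc 1 U).filter (fun h => ∀ p ∈ P, (n + h) % p ∉ Om p)).card : ℝ) =
      ∑ r ∈ R, ((((Ico (n + 1) (n + U + 1)).filter (fun m => m % D = r)).filter
        (fun m => ∀ p ∈ P2, m % p ∉ Om p)).card : ℝ) := by
    rw [shiftc n U (fun m => ∀ p ∈ P, m % p ∉ Om p)]
    have h1 : ((Ico (n + 1) (n + U + 1)).filter (fun m => ∀ p ∈ P, m % p ∉ Om p)).card =
        ∑ r ∈ R, (((Ico (n + 1) (n + U + 1)).filter (fun m => ∀ p ∈ P, m % p ∉ Om p)).filter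
          (fun m => m % D = r)).card := by
      apply card_eq_sum_card_fiberwise
      intro x hx
      rw [mem_coe, mem_filter] at hx
      rw [mem_coe, hR, mem_filter, mem_range]
      refine ⟨Nat.mod_lt _ hD0, fun p hp => ?_⟩
      rw [Nat.mod_mod_of_dvd _ (dvd_prod_of_mem _ hp)]
      exact hx.2 p (mem_filter.1 hp).1
    rw [h1]
    push_cast
    apply sum_congr rfl
    intro r hr
    refine congrArg Nat.cast (congrArg card ?_)
    ext x
    simp only [mem_filter]
    constructor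
    · rintro ⟨⟨h2, h3⟩, h4⟩
      exact ⟨⟨h2, h4⟩, fun p hp => h3 p (mem_filter.1 hp).1⟩
    · rintro ⟨⟨h2, h4⟩, h3⟩
      refine ⟨⟨h2, fun p hp => ?_⟩, h4⟩
      rw [← hun, mem_union] at hp
      rcases hp with hp | hp
      · have h5 := (mem_filter.1 hr).2 p hp
        rw [← h4, Nat.mod_mod_of_dvd _ (dvd_prod_of_mem _ hp)] at h5
        exact h5
      · exact h3 p hp
  have hVO : VO Om P = VO Om P1 * VO Om P2 := by rw [← hun, VO_union hd12]
  have hmain : |(((Icc 1 U).filter (fun h => ∀ p ∈ P, (n + h) % p ∉ Om p)).card : ℝ) - U * VO Om P| ≤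
      (1 / 2 : ℝ) ^ (b + 1) * (U * VO Om P) + R.card * E := by
    have h1 : (U : ℝ) * VO Om P = ∑ r ∈ R, ((U : ℝ) / D * VO Om P2) := by
      rw [sum_const, nsmul_eq_mul, hRcard, hVO]
      field_simp
    rw [h1, hS, ← sum_sub_distrib]
    refine (abs_sum_le_sum_abs _ _).trans ((sum_le_sum hclass).trans (le_of_eq ?_))
    rw [sum_add_distrib, ← mul_sum, sum_const (b := E), nsmul_eq_mul]
  refine hmain.trans ?_
  -- the error
  have hVpos : 0 < V P := V_pos hPp
  have hVO0 : 0 < VO Om P := VO_pos hPp fun p hp => (hOm p hp).2.2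
  have hV1 : (U : ℝ) ^ (-e1) ≤ V P := by
    have hy1 : (1 : ℝ) ≤ (U : ℝ) ^ e1 := Real.one_le_rpow hU1 he10.le
    have hfl1 : 1 ≤ ⌊(U : ℝ) ^ e1⌋₊ := Nat.le_floor (by exact_mod_cast hy1)
    have h1 := V_ge hPp hfl1 (fun p hp => Nat.le_floor (hP p hp).2)
    refine le_trans ?_ h1
    rw [Real.rpow_neg hUpos.le, ← one_div]
    apply one_div_le_one_div_of_le (by exact_mod_cast hfl1)
    exact Nat.floor_le (by linarith)
  have hVOge := VO_ge (Om := Om) (P := P) (κ := κ) hPp (fun p hp => (hOm p hp).2.2) (fun p hp => (hOm p hp).2.1)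
  have hmr : (2 * (κ : ℝ) + 2) = (m : ℝ) := by rw [hm]; push_cast; ring
  rw [hmr, ← hm] at hVOge
  have hVO2 : (1 / (m : ℝ)) ^ m * (U : ℝ) ^ (-(1 / 4 : ℝ)) ≤ VO Om P := by
    refine le_trans ?_ hVOge
    apply mul_le_mul_of_nonneg_left _ (by positivity)
    calc (U : ℝ) ^ (-(1 / 4 : ℝ)) ≤ (U : ℝ) ^ (-(m * e1)) :=
          Real.rpow_le_rpow_of_exponent_le hU1 (by linarith)
      _ = ((U : ℝ) ^ (-e1)) ^ m := by
          rw [← Real.rpow_natCast, ← Real.rpow_mul hUpos.le]
          congr 1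
          ring
      _ ≤ V P ^ m := pow_le_pow_left₀ (by positivity) hV1 m
  have hEle : E ≤ 4 * Real.log U * (U : ℝ) ^ (1 / 4 : ℝ) := by
    rw [hE]
    apply mul_le_mul hJ3 _ (by positivity) (by have := Real.log_nonneg hU1; linarith)
    calc (((2 ^ 2 ^ J : ℕ) : ℝ) ^ (C0 * (b + 1))) ^ 2 ≤ (((U : ℝ) ^ (2 * e1)) ^ (C0 * (b + 1))) ^ 2 := by
          apply pow_le_pow_left₀ (by positivity)
          exact pow_le_pow_left₀ (by positivity) hJ2 _
      _ = (U : ℝ) ^ (2 * e1 * (C0 * (b + 1)) * 2) := by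
          rw [← pow_mul, ← Real.rpow_natCast, ← Real.rpow_mul hUpos.le]
          congr 1
          push_cast
          ring
      _ ≤ (U : ℝ) ^ (1 / 4 : ℝ) := by
          apply Real.rpow_le_rpow_of_exponent_le hU1
          refine le_trans ?_ he1b
          have h1 : (0 : ℝ) ≤ C0 * e1 := by positivity
          nlinarith
  have hRle : (R.card : ℝ) ≤ C0.factorial := by
    refine le_trans ?_ hDle
    have : R.card ≤ D := (card_filter_le _ _).trans (by rw [card_range])
    exact_mod_cast this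
  have hRE : R.card * E ≤ (1 / 2 : ℝ) ^ (b + 1) * (U * VO Om P) := by
    have hE0 : 0 ≤ 4 * Real.log U * (U : ℝ) ^ (1 / 4 : ℝ) := by
      have := Real.log_nonneg hU1
      positivity
    calc (R.card : ℝ) * E ≤ C0.factorial * (4 * Real.log U * (U : ℝ) ^ (1 / 4 : ℝ)) :=
          mul_le_mul hRle hEle (by positivity) (by positivity)
      _ ≤ (1 / 2 : ℝ) ^ (b + 1) * (U * ((1 / (m : ℝ)) ^ m * (U : ℝ) ^ (-(1 / 4 : ℝ)))) := by
          have h1 : (U : ℝ) * (U : ℝ) ^ (-(1 / 4 : ℝ)) = (U : ℝ) ^ (1 / 2 : ℝ) * (U : ℝ) ^ (1 / 4 : ℝ) := by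
            rw [← Real.rpow_add hUpos]
            nth_rewrite 1 [← Real.rpow_one (U : ℝ)]
            rw [← Real.rpow_add hUpos]
            norm_num
          have h2 : (1 / 2 : ℝ) ^ (b + 1) * (U * ((1 / (m : ℝ)) ^ m * (U : ℝ) ^ (-(1 / 4 : ℝ)))) =
              (1 / 2 : ℝ) ^ (b + 1) * (1 / (m : ℝ)) ^ m * ((U : ℝ) ^ (1 / 2 : ℝ) * (U : ℝ) ^ (1 / 4 : ℝ)) := by
            rw [← h1]; ring
          rw [h2]
          have h3 : (0 : ℝ) < (U : ℝ) ^ (1 / 4 : ℝ) := by positivity
          have h4 : (1 / 2 : ℝ) ^ (b + 1) * (1 / (m : ℝ)) ^ m = 1 / (2 ^ (b + 1) * (m : ℝ) ^ m) := by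
            rw [one_div_pow, one_div_pow, ← one_div_mul_one_div]
          rw [h4, div_mul_eq_mul_div, one_mul, le_div_iff₀ (by positivity)]
          have h5 := mul_le_mul_of_nonneg_right ev1 h3.le
          calc _ = ((C0.factorial : ℝ) * 4 * 2 ^ (b + 1) * (m : ℝ) ^ m * Real.log U + 0) * (U : ℝ) ^ (1 / 4 : ℝ) := by ring
            _ ≤ _ := h5
      _ ≤ _ := by
          apply mul_le_mul_of_nonneg_left _ (by positivity)
          exact mul_le_mul_of_nonneg_left hVO2 hUpos.le
  have h5 : (1 / 2 : ℝ) ^ b = (1 / 2 : ℝ) ^ (b + 1) + (1 / 2 : ℝ) ^ (b + 1) := by rw [pow_succ]; ring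
  rw [h5, add_mul]
  linarith

end Pool.Agent.Y829
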