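import Pool.Agent.Y829.G2

/-! Concentration of the number of survivors, several classes. -/

set_option autoImplicit false

namespace Pool.Agent.Y829

open Finset Filter Topology

/-- the number of survivors in the window `n + 1, ..., n + U` -/
noncomputable def SO (Om : ℕ → Finset ℕ) (P : Finset ℕ) (U n : ℕ) : ℝ := by
  classical exact (((Icc 1 U).filter (fun h => ∀ p ∈ P, (n + h) % p ∉ Om p)).card : ℝ)

lemma SO_le (Om : ℕ → Finset ℕ) (P : Finset ℕ) (U n : ℕ) : SO Om P U n ≤ U := by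
  classical
  unfold SO
  have : ((Icc 1 U).filter (fun h => ∀ p ∈ P, (n + h) % p ∉ Om p)).card ≤ U :=
    (card_filter_le _ _).trans (by simp)
  exact_mod_cast this

lemma SO_nonneg (Om : ℕ → Finset ℕ) (P : Finset ℕ) (U n : ℕ) : 0 ≤ SO Om P U n := by
  unfold SO; exact Nat.cast_nonneg _

lemma cntO (p r U : ℕ) (hp : 0 < p) (O : Finset ℕ) (hO : O ⊆ range p) (κ : ℕ) (hk : O.card ≤ κ) :
    (((Icc 1 U).filter (fun h => (r + h) % p ∈ O)).card : ℝ) ≤ κ * ((U : ℝ) / p + 1) := by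
  classical
  have h1 : (Icc 1 U).filter (fun h => (r + h) % p ∈ O) ⊆
      O.biUnion (fun s => (Icc 1 U).filter (fun h => (r + h) % p = s)) := by
    intro h hh
    rw [mem_filter] at hh
    rw [mem_biUnion]
    exact ⟨_, hh.2, mem_filter.2 ⟨hh.1, rfl⟩⟩
  have h2 : ∀ s ∈ O, (((Icc 1 U).filter (fun h => (r + h) % p = s)).card : ℝ) ≤ (U : ℝ) / p + 1 := by
    intro s hs
    rw [shiftc r U (fun m => m % p = s)]
    have h3 := (abs_le.1 (cnt_mod (r + 1) (r + U + 1) p s (by omega) hp)).2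
    have h4 : (Ico (r + 1) (r + U + 1)).filter (fun m => m % p = s) =
        (Ico (r + 1) (r + U + 1)).filter (fun m => m ≡ s [MOD p]) := by
      apply filter_congr
      intro m _
      have : s % p = s := Nat.mod_eq_of_lt (mem_range.1 (hO hs))
      unfold Nat.ModEq
      rw [this]
    rw [h4]
    have h5 : (((r + U + 1 : ℕ) : ℝ) - ((r + 1 : ℕ) : ℝ)) / (p : ℝ) = (U : ℝ) / p := by
      push_cast
      congr 1
      ring
    rw [h5] at h3
    linarith
  have h3 : (((Icc 1 U).filter (fun h => (r + h) % p ∈ O)).card : ℝ) ≤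
      ∑ s ∈ O, (((Icc 1 U).filter (fun h => (r + h) % p = s)).card : ℝ) := by
    exact_mod_cast (card_le_card h1).trans card_biUnion_le
  refine h3.trans ((sum_le_sum h2).trans ?_)
  rw [sum_const, nsmul_eq_mul]
  apply mul_le_mul_of_nonneg_right
  · exact_mod_cast hk
  · positivity

lemma sum_sq_inv (P : Finset ℕ) (z : ℝ) (hz : 0 < z) (hP : ∀ p ∈ P, z < p) :
    ∑ p ∈ P, 1 / (p : ℝ) ^ 2 ≤ 2 / z := by
  classical
  have h1 : P ⊆ Ioo ⌊z⌋₊ (P.sup id + 1) := by
    intro p hp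
    rw [mem_Ioo]
    constructor
    · exact Nat.floor_lt hz.le |>.2 (hP p hp)
    · have : id p ≤ P.sup id := le_sup hp
      simp only [id] at this
      omega
  have h2 := sum_Ioo_inv_sq_le (α := ℝ) ⌊z⌋₊ (P.sup id + 1)
  have h3 : ∑ p ∈ P, 1 / (p : ℝ) ^ 2 ≤ ∑ i ∈ Ioo ⌊z⌋₊ (P.sup id + 1), ((i : ℝ) ^ 2)⁻¹ := by
    refine le_trans (le_of_eq ?_) (sum_le_sum_of_subset_of_nonneg h1 fun i _ _ => by positivity)
    apply sum_congr rfl
    intro p _
    rw [one_div]
  refine (h3.trans h2).trans ?_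
  apply div_le_div_of_nonneg_left (by norm_num) hz
  exact (Nat.lt_floor_add_one z).le

lemma sum_inv_V (P : Finset ℕ) (hP : ∀ p ∈ P, p.Prime) : ∑ p ∈ P, 1 / (p : ℝ) ≤ -Real.log (V P) := by
  unfold V
  rw [Real.log_prod (fun p hp => (fac_pos (hP p hp)).ne'), ← sum_neg_distrib]
  apply sum_le_sum
  intro p hp
  have := Real.log_le_sub_one_of_pos (fac_pos (hP p hp))
  linarith

/-- **Concentration** -/
theorem gtail (κ : ℕ) : ∃ C : ℕ, 1 ≤ C ∧ ∀ b : ℕ, C ≤ b → ∃ U1 : ℕ, 2 ≤ U1 ∧ ∀ U : ℕ, U1 ≤ U →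
    ∀ (P : Finset ℕ) (Om : ℕ → Finset ℕ), (∀ p ∈ P, p.Prime ∧ Real.log p ≤ (U : ℝ) ^ (1 / ((C : ℝ) * b))) →
    (∀ p ∈ P, Om p ⊆ range p ∧ (Om p).card ≤ κ ∧ (Om p).card < p) →
    (U : ℝ) ^ (-(1 / 2 : ℝ)) ≤ VO Om P ∧
    (((range (∏ p ∈ P, p)).filter (fun n => (1 / 2 : ℝ) ^ b * (U * VO Om P) <
      |SO Om P U n - U * VO Om P|)).card : ℝ) * Real.exp (3 * (U : ℝ) ^ (1 / ((C : ℝ) * b))) ≤
      ((∏ p ∈ P, p : ℕ) : ℝ) := by
  classical
  obtain ⟨C1, hC1, hsmall⟩ := small κ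
  obtain ⟨cm, hcm, hmert⟩ := mert
  set m : ℕ := 2 * κ + 2 with hm
  set C : ℕ := 3 * C1 * (m + 4) with hC
  have hCC1 : C1 ≤ C := by rw [hC]; nlinarith
  refine ⟨C, by omega, ?_⟩
  intro b hb
  have hb1 : 1 ≤ b := by omega
  obtain ⟨U0, hU0⟩ := hsmall (b + 2) (by omega)
  have hbr : (1 : ℝ) ≤ b := by exact_mod_cast hb1
  have hC1r : (1 : ℝ) ≤ C1 := by exact_mod_cast hC1
  have hCr : (1 : ℝ) ≤ C := by exact_mod_cast (by omega : 1 ≤ C)
  have hm2 : (2 : ℝ) ≤ m := by exact_mod_cast (by omega : 2 ≤ m)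
  set a : ℝ := 1 / ((C : ℝ) * b) with ha
  have ha0 : 0 < a := by positivity
  set e1 : ℝ := 1 / ((C1 : ℝ) * ((b + 2 : ℕ) : ℝ)) with he1
  have hb2r : (((b + 2 : ℕ) : ℝ)) ≤ 3 * b := by push_cast; linarith
  have he10 : 0 < e1 := by positivity
  have hCeq : (C : ℝ) = 3 * C1 * (m + 4) := by rw [hC]; push_cast; ring
  have hae : ((m : ℝ) + 4) * a ≤ e1 := by
    rw [ha, he1, hCeq, mul_one_div, div_le_div_iff₀ (by positivity) (by positivity)]
    have h1 : (C1 : ℝ) * ((b + 2 : ℕ) : ℝ) ≤ C1 * (3 * b) := mul_le_mul_of_nonneg_left hb2r (by linarith)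
    have h2 := mul_le_mul_of_nonneg_left h1 (show (0 : ℝ) ≤ m + 4 by linarith)
    linarith
  have he1h : e1 ≤ 1 / 3 := by
    rw [he1]
    apply one_div_le_one_div_of_le (by norm_num)
    have h1 : (3 : ℝ) ≤ ((b + 2 : ℕ) : ℝ) := by push_cast; linarith
    nlinarith
  have hma : (m : ℝ) * a ≤ 1 / 3 := by nlinarith
  have hma0 : 0 ≤ (m : ℝ) * a := by positivity
  have ha4 : a ≤ 1 / 12 := by nlinarith
  -- constants
  set K1 : ℝ := (1 / 2 : ℝ) ^ (b + 3) * (1 / 2) ^ (b + 2) / (12 * (κ + 1) ^ 2) * (cm / m) ^ m with hK1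
  have hK10 : 0 < K1 := by positivity
  have E1 : ∀ᶠ U : ℕ in atTop, 4 / K1 < (U : ℝ) ^ (3 * a) :=
    ((tendsto_rpow_atTop (by linarith)).comp tendsto_natCast_atTop_atTop).eventually_gt_atTop _
  have E2 : ∀ᶠ U : ℕ in atTop, (2 * κ + 1 : ℝ) < (U : ℝ) ^ e1 :=
    ((tendsto_rpow_atTop he10).comp tendsto_natCast_atTop_atTop).eventually_gt_atTop _
  have E3 := ev (1 / 2) 1 (|Real.log cm|) (by norm_num)
  have E4 : ∀ᶠ U : ℕ in atTop, (m / cm) ^ m < (U : ℝ) ^ (1 / 6 : ℝ) :=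
    ((tendsto_rpow_atTop (by norm_num)).comp tendsto_natCast_atTop_atTop).eventually_gt_atTop _
  obtain ⟨U2, hU2⟩ := ((E1.and E2).and (E3.and E4)).exists_forall_of_atTop
  refine ⟨max (max U0 2) U2, (le_max_right _ _).trans (le_max_left _ _), ?_⟩
  intro U hU P Om hP hOm
  obtain ⟨⟨ev1, ev2⟩, ev3, ev4⟩ := hU2 U ((le_max_right _ _).trans hU)
  have hU0' : U0 ≤ U := (le_max_left _ _).trans ((le_max_left _ _).trans hU)
  have hU2' : 2 ≤ U := (le_max_right _ _).trans ((le_max_left _ _).trans hU)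
  have hUr : (2 : ℝ) ≤ U := by exact_mod_cast hU2'
  have hUpos : (0 : ℝ) < U := by linarith
  have hU1 : (1 : ℝ) ≤ U := by linarith
  have hUa1 : 1 ≤ (U : ℝ) ^ a := Real.one_le_rpow hU1 ha0.le
  have hPp : ∀ p ∈ P, p.Prime := fun p hp => (hP p hp).1
  set z : ℝ := (U : ℝ) ^ e1 with hz
  have hz1 : 1 ≤ z := Real.one_le_rpow hU1 he10.le
  have hz0 : 0 < z := by linarith
  -- the density
  set X : ℕ := ⌊Real.exp ((U : ℝ) ^ a)⌋₊ with hX
  have hX2 : 2 ≤ X := by
    rw [hX]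
    apply Nat.le_floor
    have h1 := Real.add_one_le_exp ((U : ℝ) ^ a)
    push_cast
    linarith
  have hPX : ∀ p ∈ P, p.Prime ∧ p ≤ X := by
    intro p hp
    refine ⟨hPp p hp, Nat.le_floor ?_⟩
    have h1 : (0 : ℝ) < p := by exact_mod_cast (hPp p hp).pos
    exact (Real.log_le_iff_le_exp h1).1 (hP p hp).2
  have hlogX0 : 0 < Real.log X := Real.log_pos (by exact_mod_cast (by omega : 1 < X))
  have hlogX : Real.log X ≤ (U : ℝ) ^ a := by
    have h1 : (0 : ℝ) < X := by exact_mod_cast (by omega : 0 < X)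
    rw [Real.log_le_iff_le_exp h1]
    exact Nat.floor_le (Real.exp_pos _).le
  have hVge : ∀ Q ⊆ P, cm * (U : ℝ) ^ (-a) ≤ V Q := by
    intro Q hQ
    refine le_trans ?_ (hmert X hX2 Q fun p hp => hPX p (hQ hp))
    rw [Real.rpow_neg hUpos.le, ← div_eq_mul_inv]
    exact div_le_div_of_nonneg_left hcm.le hlogX0 hlogX
  have hVO0 : 0 < VO Om P := VO_pos hPp fun p hp => (hOm p hp).2.2
  have hVOge : (cm / m) ^ m * (U : ℝ) ^ (-(m * a)) ≤ VO Om P := by
    have h1 := VO_ge (Om := Om) (P := P) (κ := κ) hPp (fun p hp => (hOm p hp).2.2) (fun p hp => (hOm p hp).2.1)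
    have hmr : (2 * (κ : ℝ) + 2) = (m : ℝ) := by rw [hm]; push_cast; ring
    rw [hmr, ← hm] at h1
    refine le_trans ?_ h1
    have h2 := pow_le_pow_left₀ (by positivity) (hVge P (Subset.refl _)) m
    calc (cm / m) ^ m * (U : ℝ) ^ (-(m * a)) = (1 / (m : ℝ)) ^ m * (cm * (U : ℝ) ^ (-a)) ^ m := by
          rw [mul_pow, ← Real.rpow_natCast ((U : ℝ) ^ (-a)), ← Real.rpow_mul hUpos.le, ← mul_assoc, ← mul_pow]
          congr 2
          · ring
          · ring
      _ ≤ _ := mul_le_mul_of_nonneg_left h2 (by positivity)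
  refine ⟨?_, ?_⟩
  · refine le_trans ?_ hVOge
    have h1 : (U : ℝ) ^ (-(1 / 3 : ℝ)) ≤ (U : ℝ) ^ (-(m * a)) :=
      Real.rpow_le_rpow_of_exponent_le hU1 (by linarith)
    have h2 : (U : ℝ) ^ (-(1 / 6 : ℝ)) ≤ (cm / m) ^ m := by
      rw [Real.rpow_neg hUpos.le]
      have h3 : (cm / m) ^ m = ((m / cm) ^ m)⁻¹ := by rw [← inv_pow, inv_div]
      rw [h3]
      apply inv_anti₀ (by positivity) ev4.le
    calc (U : ℝ) ^ (-(1 / 2 : ℝ)) = (U : ℝ) ^ (-(1 / 6 : ℝ)) * (U : ℝ) ^ (-(1 / 3 : ℝ)) := by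
          rw [← Real.rpow_add hUpos]; norm_num
      _ ≤ _ := mul_le_mul h2 h1 (by positivity) (by positivity)
  -- the two sets of primes
  set P1 := P.filter (fun p : ℕ => (p : ℝ) ≤ z) with hP1
  set P2 := P.filter (fun p : ℕ => z < (p : ℝ)) with hP2
  have hd12 : Disjoint P1 P2 := by
    rw [disjoint_left]
    intro p hp hp'
    have h1 := (mem_filter.1 hp).2
    have h2 := (mem_filter.1 hp').2
    linarith
  have hun : P1 ∪ P2 = P := by
    ext p
    rw [mem_union, mem_filter, mem_filter]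
    constructor
    · rintro (h | h) <;> exact h.1
    · intro hp
      by_cases h5 : (p : ℝ) ≤ z
      · exact Or.inl ⟨hp, h5⟩
      · exact Or.inr ⟨hp, not_le.1 h5⟩
  have hP1P : P1 ⊆ P := filter_subset _ _
  have hP2P : P2 ⊆ P := filter_subset _ _
  have hP2z : ∀ p ∈ P2, z < p := fun p hp => (mem_filter.1 hp).2
  set D1 := ∏ p ∈ P1, p with hD1
  set D2 := ∏ p ∈ P2, p with hD2
  have hDD : ∏ p ∈ P, p = D1 * D2 := by rw [← hun, prod_union hd12]
  have hcopr : ∀ p ∈ P2, D1.Coprime p := by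
    intro p hp
    apply Nat.Coprime.prod_left
    intro q hq
    rw [Nat.coprime_primes (hPp q (hP1P hq)) (hPp p (hP2P hp))]
    rintro rfl
    exact disjoint_left.1 hd12 hq hp
  have hVO : VO Om P = VO Om P1 * VO Om P2 := by rw [← hun, VO_union hd12]
  have hVO1 : 0 < VO Om P1 := VO_pos (fun p hp => hPp p (hP1P hp)) fun p hp => (hOm p (hP1P hp)).2.2
  have hVO2 : 0 < VO Om P2 := VO_pos (fun p hp => hPp p (hP2P hp)) fun p hp => (hOm p (hP2P hp)).2.2
  -- parameters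
  set eta : ℝ := (1 / 2 : ℝ) ^ (b + 3) with heta
  have heta0 : 0 < eta := by positivity
  have heta1 : eta ≤ 1 := pow_le_one₀ (by norm_num) (by norm_num)
  set lam : ℝ := eta * z / (6 * (κ + 1) ^ 2 * U) with hlam
  have hlam0 : 0 < lam := by positivity
  set bb : ℕ → ℝ := fun p => κ * ((U : ℝ) / p + 1) with hbb
  have hzU : z ≤ (U : ℝ) ^ (1 / 2 : ℝ) := Real.rpow_le_rpow_of_exponent_le hU1 (by linarith)
  have hUz : (U : ℝ) ^ (1 / 2 : ℝ) ≤ U / z := by
    rw [le_div_iff₀ hz0]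
    calc (U : ℝ) ^ (1 / 2 : ℝ) * z ≤ (U : ℝ) ^ (1 / 2 : ℝ) * (U : ℝ) ^ (1 / 2 : ℝ) :=
          mul_le_mul_of_nonneg_left hzU (by positivity)
      _ = U := by rw [← Real.rpow_add hUpos]; norm_num
  have hUz1 : 1 ≤ (U : ℝ) / z := le_trans (Real.one_le_rpow hU1 (by norm_num)) hUz
  have hbble : ∀ p ∈ P2, bb p ≤ κ * (2 * (U / z)) := by
    intro p hp
    apply mul_le_mul_of_nonneg_left _ (Nat.cast_nonneg κ)
    have h1 : (U : ℝ) / p ≤ U / z := div_le_div_of_nonneg_left hUpos.le hz0 (hP2z p hp).le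
    linarith
  have hlb : ∀ p ∈ P2, lam * bb p ≤ 1 := by
    intro p hp
    have h1 := mul_le_mul_of_nonneg_left (hbble p hp) hlam0.le
    refine h1.trans ?_
    have h2 : lam * (κ * (2 * (U / z))) = eta * (κ / (3 * (κ + 1) ^ 2)) := by
      rw [hlam]; field_simp; ring
    rw [h2]
    have h3 : (κ : ℝ) / (3 * (κ + 1) ^ 2) ≤ 1 := by
      rw [div_le_one (by positivity)]
      have : (0 : ℝ) ≤ κ := Nat.cast_nonneg κ
      nlinarith
    calc eta * (κ / (3 * (κ + 1) ^ 2)) ≤ 1 * 1 :=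
          mul_le_mul heta1 h3 (by positivity) (by norm_num)
      _ = 1 := one_mul 1
  have hsum1 : ∑ p ∈ P2, 1 / (p : ℝ) ≤ U / z := by
    refine (sum_inv_V P2 fun p hp => hPp p (hP2P hp)).trans (le_trans ?_ hUz)
    have h1 := Real.log_le_log (by positivity) (hVge P2 hP2P)
    rw [Real.log_mul hcm.ne' (by positivity), Real.log_rpow hUpos] at h1
    have h2 := neg_abs_le (Real.log cm)
    have h3 : 0 ≤ Real.log U := Real.log_nonneg hU1
    have h4 : a * Real.log U ≤ 1 * Real.log U := mul_le_mul_of_nonneg_right (by linarith) h3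
    linarith
  have hsum2 := sum_sq_inv P2 z hz0 hP2z
  have hsum : 2 * ∑ p ∈ P2, lam * bb p * (((Om p).card : ℝ) / p) ≤ eta := by
    have h1 : ∑ p ∈ P2, lam * bb p * (((Om p).card : ℝ) / p) ≤
        ∑ p ∈ P2, (lam * κ ^ 2 * (U * (1 / (p : ℝ) ^ 2) + 1 / (p : ℝ))) := by
      apply sum_le_sum
      intro p hp
      have h2 : (0 : ℝ) < p := by exact_mod_cast (hPp p (hP2P hp)).pos
      have h3 : ((Om p).card : ℝ) / p ≤ κ / p := by
        apply div_le_div_of_nonneg_right _ h2.le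
        exact_mod_cast (hOm p (hP2P hp)).2.1
      have h4 : 0 ≤ lam * bb p := by rw [hbb]; positivity
      refine (mul_le_mul_of_nonneg_left h3 h4).trans (le_of_eq ?_)
      rw [hbb]
      field_simp
    have h2 : ∑ p ∈ P2, (lam * κ ^ 2 * (U * (1 / (p : ℝ) ^ 2) + 1 / (p : ℝ))) =
        lam * κ ^ 2 * (U * ∑ p ∈ P2, 1 / (p : ℝ) ^ 2 + ∑ p ∈ P2, 1 / (p : ℝ)) := by
      rw [← mul_sum, sum_add_distrib, ← mul_sum]
    rw [h2] at h1
    have h3 : U * ∑ p ∈ P2, 1 / (p : ℝ) ^ 2 + ∑ p ∈ P2, 1 / (p : ℝ) ≤ 3 * (U / z) := by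
      have h4 := mul_le_mul_of_nonneg_left hsum2 hUpos.le
      have h5 : (U : ℝ) * (2 / z) = 2 * (U / z) := by ring
      linarith
    have h4 := mul_le_mul_of_nonneg_left h3 (show 0 ≤ lam * (κ : ℝ) ^ 2 by positivity)
    have h5 : 2 * (lam * κ ^ 2 * (3 * (U / z))) = eta * (κ ^ 2 / (κ + 1) ^ 2) := by
      rw [hlam]; field_simp; ring
    have h6 : (κ : ℝ) ^ 2 / (κ + 1) ^ 2 ≤ 1 := by
      rw [div_le_one (by positivity)]
      have : (0 : ℝ) ≤ κ := Nat.cast_nonneg κ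
      nlinarith
    have h7 := mul_le_mul_of_nonneg_left h6 heta0.le
    linarith
  have hO2 : ∀ p ∈ P2, 2 * (Om p).card ≤ p := by
    intro p hp
    have h1 := hP2z p hp
    have h2 := (hOm p (hP2P hp)).2.1
    have h3 : (2 * κ + 1 : ℝ) < p := by linarith
    have h4 : 2 * κ + 1 < p := by exact_mod_cast h3
    omega
  -- one residue class modulo `D1`
  have key : ∀ i ∈ range D1, ∑ j ∈ range D2, (if (1 / 2 : ℝ) ^ b * (U * VO Om P) <
      |SO Om P U (i + D1 * j) - U * VO Om P| then (1 : ℝ) else 0) ≤ D2 * Real.exp (-(3 * (U : ℝ) ^ a)) := by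
    intro i _
    set H := (Icc 1 U).filter (fun h => ∀ p ∈ P1, (i + h) % p ∉ Om p) with hH
    have hHc := hU0 U hU0' P1 Om (fun p hp => ⟨hPp p (hP1P hp), (mem_filter.1 hp).2⟩)
      (fun p hp => hOm p (hP1P hp)) i
    rw [← hH] at hHc
    have hHc' := abs_le.1 hHc
    have hUV1 : 0 < U * VO Om P1 := by positivity
    have hp2 : (1 / 2 : ℝ) ^ (b + 2) ≤ 1 / 8 := by
      have h1 : (1 / 2 : ℝ) ^ (b + 2) ≤ (1 / 2 : ℝ) ^ 3 := pow_le_pow_of_le_one (by norm_num) (by norm_num) (by omega)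
      norm_num at h1 ⊢
      linarith
    have hHlow : U * VO Om P1 / 2 ≤ H.card := by nlinarith [hHc'.1]
    have hS : ∀ j, SO Om P U (i + D1 * j) =
        ((H.filter (fun h => ∀ p ∈ P2, (i + D1 * j + h) % p ∉ Om p)).card : ℝ) := by
      intro j
      unfold SO
      refine congrArg Nat.cast (congrArg card ?_)
      rw [hH, filter_filter]
      apply filter_congr
      intro h _
      have e1 : ∀ p ∈ P1, (i + D1 * j + h) % p = (i + h) % p := by
        intro p hp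
        have h1 : p ∣ D1 := dvd_prod_of_mem _ hp
        obtain ⟨k, hk⟩ := h1
        have : i + D1 * j + h = (i + h) + p * (k * j) := by rw [hk]; ring
        rw [this]
        exact Nat.add_mul_mod_self_left _ _ _
      constructor
      · intro h1
        refine ⟨fun p hp => ?_, fun p hp => h1 p (hP2P hp)⟩
        rw [← e1 p hp]
        exact h1 p (hP1P hp)
      · rintro ⟨h1, h2⟩ p hp
        rw [← hun, mem_union] at hp
        rcases hp with hp | hp
        · rw [e1 p hp]; exact h1 p hp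
        · exact h2 p hp
    have hdev := devi P2 bb Om H i D1 lam eta ((1 / 2 : ℝ) ^ (b + 1)) (fun p hp => hPp p (hP2P hp))
      (fun p hp => (hOm p (hP2P hp)).1) hO2 hlam0.le hlb ?_ hcopr heta1 hsum
    · have h1 : ∑ j ∈ range D2, (if (1 / 2 : ℝ) ^ b * (U * VO Om P) <
          |SO Om P U (i + D1 * j) - U * VO Om P| then (1 : ℝ) else 0) ≤
          (((range D2).filter (fun j => (1 / 2 : ℝ) ^ (b + 1) * (H.card * VO Om P2) <
            |((H.filter (fun h => ∀ p ∈ P2, (i + D1 * j + h) % p ∉ Om p)).card : ℝ) - H.card * VO Om P2|)).card : ℝ) := by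
        rw [card_filter]
        push_cast
        apply sum_le_sum
        intro j _
        by_cases hbad : (1 / 2 : ℝ) ^ b * (U * VO Om P) < |SO Om P U (i + D1 * j) - U * VO Om P|
        · rw [if_pos hbad, if_pos]
          rw [hS] at hbad
          set S := ((H.filter (fun h => ∀ p ∈ P2, (i + D1 * j + h) % p ∉ Om p)).card : ℝ) with hSd
          have h2 : |S - U * VO Om P| ≤ |S - H.card * VO Om P2| + |H.card * VO Om P2 - U * VO Om P| := abs_sub_le _ _ _
          have h3 : |H.card * VO Om P2 - U * VO Om P| ≤ (1 / 2 : ℝ) ^ (b + 2) * (U * VO Om P) := by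
            rw [hVO]
            have e1 : H.card * VO Om P2 - U * (VO Om P1 * VO Om P2) = (H.card - U * VO Om P1) * VO Om P2 := by ring
            rw [e1, abs_mul, abs_of_pos hVO2]
            have := mul_le_mul_of_nonneg_right hHc hVO2.le
            linarith
          have h4 : H.card * VO Om P2 ≤ (5 / 4) * (U * VO Om P) := by
            rw [hVO]
            have h5 : (H.card : ℝ) ≤ 5 / 4 * (U * VO Om P1) := by nlinarith [hHc'.2]
            have := mul_le_mul_of_nonneg_right h5 hVO2.le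
            linarith
          have h5 : (1 / 2 : ℝ) ^ (b + 1) = (1 / 2 : ℝ) ^ b / 2 := by rw [pow_succ]; ring
          have h6 : (1 / 2 : ℝ) ^ (b + 2) = (1 / 2 : ℝ) ^ b / 4 := by rw [pow_add]; norm_num; ring
          rw [h6] at h3
          rw [h5]
          have h7 : (0 : ℝ) < (1 / 2 : ℝ) ^ b := by positivity
          have h8 := mul_le_mul_of_nonneg_left h4 (show (0 : ℝ) ≤ (1 / 2 : ℝ) ^ b / 2 by positivity)
          have h9 : 0 < (1 / 2 : ℝ) ^ b * (U * VO Om P) := by positivity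
          linarith
        · rw [if_neg hbad]
          split_ifs <;> norm_num
      refine h1.trans (hdev.trans ?_)
      rw [← hD2]
      have h2 : 4 * (U : ℝ) ^ a ≤ lam * (H.card * VO Om P2) * ((1 / 2 : ℝ) ^ (b + 1) - 2 * eta) := by
        have e1 : (1 / 2 : ℝ) ^ (b + 1) - 2 * eta = (1 / 2 : ℝ) ^ (b + 2) := by
          rw [heta, pow_succ (1 / 2 : ℝ) (b + 2), pow_succ (1 / 2 : ℝ) (b + 1)]
          ring
        rw [e1]
        have h3 : U * VO Om P / 2 ≤ H.card * VO Om P2 := by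
          rw [hVO]
          have := mul_le_mul_of_nonneg_right hHlow hVO2.le
          linarith
        have h4 : U * ((cm / m) ^ m * (U : ℝ) ^ (-(m * a))) / 2 ≤ H.card * VO Om P2 := by
          refine le_trans ?_ h3
          have := mul_le_mul_of_nonneg_left hVOge hUpos.le
          linarith
        have h5 : lam * (U * ((cm / m) ^ m * (U : ℝ) ^ (-(m * a))) / 2) * (1 / 2 : ℝ) ^ (b + 2) =
            K1 * (z * (U : ℝ) ^ (-(m * a))) := by
          rw [hlam, hK1, heta]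
          field_simp
          ring
        have h6 : (U : ℝ) ^ (4 * a) ≤ z * (U : ℝ) ^ (-(m * a)) := by
          rw [hz, ← Real.rpow_add hUpos]
          apply Real.rpow_le_rpow_of_exponent_le hU1
          linarith
        have h7 : 4 * (U : ℝ) ^ a ≤ K1 * (U : ℝ) ^ (4 * a) := by
          have e2 : (U : ℝ) ^ (4 * a) = (U : ℝ) ^ (3 * a) * (U : ℝ) ^ a := by
            rw [← Real.rpow_add hUpos]
            congr 1
            ring
          rw [e2, ← mul_assoc]
          apply mul_le_mul_of_nonneg_right _ (by positivity)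
          rw [div_lt_iff₀ hK10] at ev1
          linarith
        calc 4 * (U : ℝ) ^ a ≤ K1 * (U : ℝ) ^ (4 * a) := h7
          _ ≤ K1 * (z * (U : ℝ) ^ (-(m * a))) := mul_le_mul_of_nonneg_left h6 hK10.le
          _ = _ := h5.symm
          _ ≤ _ := by
            apply mul_le_mul_of_nonneg_right _ (by positivity)
            exact mul_le_mul_of_nonneg_left h4 hlam0.le
      have h3 : 2 * Real.exp (-(lam * (H.card * VO Om P2) * ((1 / 2 : ℝ) ^ (b + 1) - 2 * eta))) ≤
          Real.exp (-(3 * (U : ℝ) ^ a)) := by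
        have h4 : Real.exp (-(lam * (H.card * VO Om P2) * ((1 / 2 : ℝ) ^ (b + 1) - 2 * eta))) ≤
            Real.exp (-(U : ℝ) ^ a) * Real.exp (-(3 * (U : ℝ) ^ a)) := by
          rw [← Real.exp_add]
          apply Real.exp_le_exp.2
          linarith
        have h5 : Real.exp (-(U : ℝ) ^ a) ≤ 1 / 2 := by
          rw [Real.exp_neg]
          have h6 := Real.add_one_le_exp ((U : ℝ) ^ a)
          rw [inv_le_comm₀ (Real.exp_pos _) (by norm_num)]
          norm_num
          linarith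
        have h6 := mul_le_mul_of_nonneg_right h5 (Real.exp_pos (-(3 * (U : ℝ) ^ a))).le
        linarith
      have h4 := mul_le_mul_of_nonneg_left h3 (Nat.cast_nonneg (α := ℝ) D2)
      linarith
    · intro p hp r
      rw [hbb]
      refine le_trans ?_ (cntO p r U (hPp p (hP2P hp)).pos (Om p) (hOm p (hP2P hp)).1 κ (hOm p (hP2P hp)).2.1)
      have h1 := card_le_card (filter_subset_filter (fun h => (r + h) % p ∈ Om p)
        (filter_subset (fun h => ∀ p ∈ P1, (i + h) % p ∉ Om p) (Icc 1 U)))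
      exact_mod_cast h1
  have hcard : (((range (∏ p ∈ P, p)).filter (fun n => (1 / 2 : ℝ) ^ b * (U * VO Om P) <
      |SO Om P U n - U * VO Om P|)).card : ℝ) ≤ D1 * (D2 * Real.exp (-(3 * (U : ℝ) ^ a))) := by
    rw [card_filter]
    push_cast
    rw [hDD, sum_split]
    refine (sum_le_sum key).trans ?_
    rw [sum_const, card_range, nsmul_eq_mul]
  have h1 := mul_le_mul_of_nonneg_right hcard (Real.exp_pos (3 * (U : ℝ) ^ a)).le
  refine h1.trans (le_of_eq ?_)
  rw [hDD]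
  push_cast
  rw [mul_assoc, mul_assoc, ← Real.exp_add, neg_add_cancel, Real.exp_zero, mul_one]

end Pool.Agent.Y829
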