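import Pool.Agent.Y829.SB4
import Pool.Agent.W762.EC.PntA

/-! Primes in arithmetic progressions to a large modulus, with sieve weights on the residue classes: large shifts. -/

set_option autoImplicit false

namespace Pool.Agent.Y829.LP

open Finset Filter Topology H343E Pool.Agent.TH423.SH.PSUa Pool.Agent.Y829 Pool.Agent.Y829.RP Pool.Agent.Y829.RS

lemma shift_core (X Q h : ℕ) (hQX : Q ≤ X) (c : ℕ → ℕ → ℝ) :
    |∑ n ∈ Ioc X (2 * X), wt Q c n * (if (n + h).Prime then 1 else 0) -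
      (pi1 (2 * X + h) - pi1 (X + h)) * RP.GG Q c h| ≤
      ∑ d ∈ Icc 1 Q, ss c d * ee (2 * X + h) d + ∑ d ∈ Icc 1 Q, ss c d * ee (X + h) d := by
  have e1 : ∑ n ∈ Ioc X (2 * X), wt Q c n * (if (n + h).Prime then 1 else 0) =
      ∑ d ∈ Icc 1 Q, ∑ a ∈ range d, c d a *
        (((Ioc X (2 * X)).filter (fun n => n % d = a ∧ (n + h).Prime)).card : ℝ) := by
    have h1 : ∀ n ∈ Ioc X (2 * X), wt Q c n * (if (n + h).Prime then 1 else 0) =
        ∑ d ∈ Icc 1 Q, ∑ a ∈ range d, c d a * (if n % d = a ∧ (n + h).Prime then 1 else 0) := by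
      intro n _
      rw [wt_eq, sum_mul]
      apply sum_congr rfl
      intro d _
      rw [sum_mul]
      apply sum_congr rfl
      intro a _
      by_cases h2 : n % d = a <;> by_cases h3 : (n + h).Prime <;> simp [h2, h3]
    rw [sum_congr rfl h1, sum_comm]
    apply sum_congr rfl
    intro d _
    rw [sum_comm]
    apply sum_congr rfl
    intro a _
    rw [← mul_sum, card_filter]
    push_cast
    rfl
  rw [e1]
  unfold RP.GG
  rw [mul_sum, ← sum_sub_distrib]
  refine (abs_sum_le_sum_abs _ _).trans ?_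
  have key : ∀ d ∈ Icc 1 Q, |∑ a ∈ range d, c d a *
        (((Ioc X (2 * X)).filter (fun n => n % d = a ∧ (n + h).Prime)).card : ℝ) -
        (pi1 (2 * X + h) - pi1 (X + h)) * ∑ a ∈ range d, (if (a + h).Coprime d then c d a / (Nat.totient d : ℝ) else 0)| ≤
      ss c d * ee (2 * X + h) d + ss c d * ee (X + h) d := by
    intro d hd
    rw [mem_Icc] at hd
    rw [mul_sum, ← sum_sub_distrib]
    refine (abs_sum_le_sum_abs _ _).trans ?_
    unfold ss
    rw [sum_mul, sum_mul, ← sum_add_distrib]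
    apply sum_le_sum
    intro a ha
    rw [mem_range] at ha
    rw [cnt_pr X h d a (by omega) ha (by omega)]
    split_ifs with hcop
    · have hlt : (a + h) % d < d := Nat.mod_lt _ (by omega)
      have hco : ((a + h) % d).Coprime d := by
        rw [Nat.Coprime, ← Nat.gcd_rec, Nat.gcd_comm]
        exact hcop
      have h1 := FF_le_ee (2 * X + h) d ((a + h) % d) hlt hco
      have h2 := FF_le_ee (X + h) d ((a + h) % d) hlt hco
      unfold FF at h1 h2
      have e2 : c d a * (piAP (2 * X + h) d ((a + h) % d) - piAP (X + h) d ((a + h) % d)) -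
          (pi1 (2 * X + h) - pi1 (X + h)) * (c d a / (Nat.totient d : ℝ)) =
          c d a * ((piAP (2 * X + h) d ((a + h) % d) - pi1 (2 * X + h) / (Nat.totient d : ℝ)) -
            (piAP (X + h) d ((a + h) % d) - pi1 (X + h) / (Nat.totient d : ℝ))) := by ring
      rw [e2, abs_mul, ← mul_add]
      apply mul_le_mul_of_nonneg_left _ (abs_nonneg _)
      refine (abs_sub _ _).trans ?_
      linarith
    · simp only [mul_zero, sub_zero, abs_zero]
      have := ee_nonneg (2 * X + h) d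
      have := ee_nonneg (X + h) d
      positivity
  refine (sum_le_sum key).trans ?_
  rw [sum_add_distrib]

lemma evA (A : ℕ) : ∀ᶠ X : ℕ in atTop, 1 + Real.log X ^ A ≤ X := by
  have h1 := (Real.isLittleO_pow_log_id_atTop (n := A)).def (show (0 : ℝ) < 1 / 2 by norm_num)
  have h2 := tendsto_natCast_atTop_atTop (R := ℝ) |>.eventually h1
  filter_upwards [h2, eventually_ge_atTop 2] with X h3 hX
  have hX0 : (0 : ℝ) ≤ X := Nat.cast_nonneg _
  have hX2 : (2 : ℝ) ≤ X := by exact_mod_cast hX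
  have hL : 0 ≤ Real.log (X : ℝ) := Real.log_natCast_nonneg X
  rw [Real.norm_of_nonneg (by positivity), id, Real.norm_of_nonneg hX0] at h3
  linarith

/-- primes in the shifted window, with a sieve weight; large shifts -/
theorem shift_big (K K' A : ℕ) : ∃ B X0 : ℕ, ∀ X : ℕ, X0 ≤ X → ∀ Q : ℕ, 1 ≤ Q → (Q : ℝ) ^ 2 * Real.log X ^ B ≤ X →
    ∀ c : ℕ → ℕ → ℝ, ∑ d ∈ Icc 1 Q, ss c d ^ 2 / d ≤ Real.log X ^ K →
    ∀ h : ℕ, (h : ℝ) ≤ X * Real.log X ^ A → |∑ n ∈ Ioc X (2 * X), wt Q c n * (if (n + h).Prime then 1 else 0) -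
      (pi1 (2 * X + h) - pi1 (X + h)) * RP.GG Q c h| ≤ 2 * (X / Real.log X ^ K') := by
  obtain ⟨B, X0, hb⟩ := bvs K (K' + A + 1)
  obtain ⟨X1, hX1⟩ := ((evA A).and (log_tend.eventually_ge_atTop ((2 : ℝ) ^ B + 2))).exists_forall_of_atTop
  refine ⟨B + 1, max (max X0 3) X1, ?_⟩
  intro X hX Q hQ hQX c hc h hhX
  have hX0 : X0 ≤ X := (le_max_left _ _).trans ((le_max_left _ _).trans hX)
  have hX3 : 3 ≤ X := (le_max_right _ _).trans ((le_max_left _ _).trans hX)
  obtain ⟨ev1, ev2⟩ := hX1 X ((le_max_right _ _).trans hX)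
  have hXr : (0 : ℝ) < X := by exact_mod_cast (by omega : 0 < X)
  have hX1r : (1 : ℝ) ≤ X := by exact_mod_cast (by omega : 1 ≤ X)
  obtain ⟨L, hL⟩ : ∃ L : ℝ, L = Real.log X := ⟨_, rfl⟩
  have h2B : (0 : ℝ) < 2 ^ B := by positivity
  rw [← hL] at hQX hc hhX ev1 ev2 ⊢
  have hL2 : 2 ≤ L := by linarith
  have hL0 : 0 < L := by linarith
  have hQr : (1 : ℝ) ≤ Q := by exact_mod_cast hQ
  obtain ⟨Y, hY⟩ : ∃ Y : ℕ, Y = X + h := ⟨_, rfl⟩
  have hYX : X ≤ Y := by omega
  have hYr : (Y : ℝ) = X + h := by rw [hY]; push_cast; rfl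
  have hXY : (X : ℝ) ≤ Y := by exact_mod_cast hYX
  have hY0 : (0 : ℝ) < Y := by linarith
  have hYle : (Y : ℝ) ≤ X * (1 + L ^ A) := by rw [hYr]; linarith
  have hYle2 : (Y : ℝ) ≤ X * X := hYle.trans (mul_le_mul_of_nonneg_left ev1 hXr.le)
  have hlY : L ≤ Real.log Y := by rw [hL]; exact Real.log_le_log hXr hXY
  have hlY2 : Real.log Y ≤ 2 * L := by
    have h1 := Real.log_le_log hY0 hYle2
    rw [Real.log_mul hXr.ne' hXr.ne', ← hL] at h1
    linarith
  have hlY0 : 0 < Real.log Y := by linarith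
  have hQleX : Q ≤ X := by
    have h1 : (1 : ℝ) ≤ L ^ (B + 1) := one_le_pow₀ (by linarith)
    have h2 : (Q : ℝ) ≤ X := by nlinarith
    exact_mod_cast h2
  have hQY : (Q : ℝ) ^ 2 * Real.log Y ^ B ≤ Y := by
    have h1 : Real.log Y ^ B ≤ L ^ (B + 1) := by
      calc Real.log Y ^ B ≤ (2 * L) ^ B := pow_le_pow_left₀ hlY0.le hlY2 _
        _ = 2 ^ B * L ^ B := mul_pow _ _ _
        _ ≤ L * L ^ B := mul_le_mul_of_nonneg_right (by linarith) (by positivity)
        _ = _ := by ring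
    calc (Q : ℝ) ^ 2 * Real.log Y ^ B ≤ (Q : ℝ) ^ 2 * L ^ (B + 1) :=
          mul_le_mul_of_nonneg_left h1 (by positivity)
      _ ≤ X := hQX
      _ ≤ Y := hXY
  have hcY : ∑ d ∈ Icc 1 Q, ss c d ^ 2 / d ≤ Real.log Y ^ K := hc.trans (pow_le_pow_left₀ hL0.le hlY _)
  have hb1 := hb Y (hX0.trans hYX) Q hQ hQY c hcY (X + h) (by omega) (by omega)
  have hb2 := hb Y (hX0.trans hYX) Q hQ hQY c hcY (2 * X + h) (by omega) (by omega)
  have hfin : (Y : ℝ) / Real.log Y ^ (K' + A + 1) ≤ X / L ^ K' := by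
    have h1 : (Y : ℝ) / Real.log Y ^ (K' + A + 1) ≤ X * (1 + L ^ A) / L ^ (K' + A + 1) := by
      apply div_le_div₀ (by positivity) hYle (by positivity)
      exact pow_le_pow_left₀ hL0.le hlY _
    refine h1.trans ?_
    have h2 : 1 + L ^ A ≤ L ^ (A + 1) := by
      have h3 : (1 : ℝ) ≤ L ^ A := one_le_pow₀ (by linarith)
      rw [pow_succ]
      nlinarith
    rw [div_le_div_iff₀ (by positivity) (by positivity)]
    have h3 : L ^ (K' + A + 1) = L ^ K' * L ^ (A + 1) := by ring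
    rw [h3]
    have h4 := mul_le_mul_of_nonneg_left h2 (show 0 ≤ X * L ^ K' by positivity)
    calc X * (1 + L ^ A) * L ^ K' = X * L ^ K' * (1 + L ^ A) := by ring
      _ ≤ X * L ^ K' * L ^ (A + 1) := h4
      _ = _ := by ring
  have hcore := shift_core X Q h hQleX c
  linarith

end Pool.Agent.Y829.LP
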