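import Pool.Agent.Y829.LP1

/-! Primes in arithmetic progressions to a large modulus, with sieve weights on the residue classes: primes in short
intervals. -/

set_option autoImplicit false

namespace Pool.Agent.Y829.LP

open Finset Filter Topology Pool.Agent.Y829 Pool.Agent.Y829.RP Pool.Agent.Y829.RS
open H343E (pi1)

lemma theta_diff (a b : ℕ) (hab : a ≤ b) : Chebyshev.theta (b : ℝ) - Chebyshev.theta (a : ℝ) =
    ∑ p ∈ (Ioc a b).filter Nat.Prime, Real.log p := by
  unfold Chebyshev.theta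
  rw [Nat.floor_natCast, Nat.floor_natCast, sum_filter, sum_filter, sum_filter,
    ← sum_Ioc_consecutive (fun p => if Nat.Prime p then Real.log (p : ℝ) else 0) (Nat.zero_le a) hab]
  ring

lemma pi_diff (a b : ℕ) (hab : a ≤ b) : pi1 b - pi1 a = (((Ioc a b).filter Nat.Prime).card : ℝ) := by
  have h1 : ∀ x : ℕ, pi1 x = ∑ p ∈ Ioc 0 x, if Nat.Prime p then (1 : ℝ) else 0 := by
    intro x
    unfold pi1
    rw [card_filter]
    push_cast
    apply sum_congr _ (fun _ _ => rfl)
    ext p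
    rw [mem_Icc, mem_Ioc]
    omega
  rw [h1, h1, ← sum_Ioc_consecutive (fun p => if Nat.Prime p then (1 : ℝ) else 0) (Nat.zero_le a) hab, card_filter]
  push_cast
  ring

lemma evP (A : ℕ) (e C : ℝ) (he : 0 < e) : ∀ᶠ X : ℕ in atTop, 16 * Real.log X ^ (A + 3) ≤ e ^ 2 * X ∧
    C ≤ e * Real.log X ∧ (A + 1) * Real.log (Real.log X) ≤ e * Real.log X ∧ 3 ≤ Real.log X ∧
      2 + Real.log X ^ A ≤ X := by
  have h1 := (Real.isLittleO_pow_log_id_atTop (n := A + 3)).def (show (0 : ℝ) < e ^ 2 / 16 by positivity)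
  have h2 := tendsto_natCast_atTop_atTop (R := ℝ) |>.eventually h1
  have h3 := log_tend.eventually_ge_atTop (C / e)
  have h4 := (Real.isLittleO_log_id_atTop).def (show (0 : ℝ) < e / (A + 1) by positivity)
  have h5 := log_tend.eventually h4
  have h6 := (evA (A + 1))
  filter_upwards [h2, h3, h5, h6, log_tend.eventually_ge_atTop 3, eventually_ge_atTop 1] with X g1 g2 g3 g4 g5 g6
  have hX0 : (0 : ℝ) ≤ X := Nat.cast_nonneg _
  have hL : 0 ≤ Real.log (X : ℝ) := Real.log_natCast_nonneg X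
  have hLL : 0 ≤ Real.log (Real.log (X : ℝ)) := Real.log_nonneg (by linarith)
  rw [Real.norm_of_nonneg (by positivity), id, Real.norm_of_nonneg hX0] at g1
  rw [Real.norm_of_nonneg hLL, id, Real.norm_of_nonneg hL] at g3
  refine ⟨by linarith, ?_, ?_, g5, ?_⟩
  · rw [div_le_iff₀ he] at g2
    linarith
  · have h7 := mul_le_mul_of_nonneg_left g3 (show (0 : ℝ) ≤ A + 1 by positivity)
    refine h7.trans (le_of_eq ?_)
    field_simp
  · have h7 : (1 : ℝ) ≤ Real.log X ^ A := one_le_pow₀ (by linarith)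
    have h8 : Real.log (X : ℝ) ^ (A + 1) = Real.log X ^ A * Real.log X := pow_succ _ _
    nlinarith

/-- primes in short intervals of relative length a power of the logarithm -/
lemma short_pr (A : ℕ) (eta : ℝ) (he : 0 < eta) (he1 : eta ≤ 1) : ∃ X1 : ℕ, ∀ X : ℕ, X1 ≤ X → ∀ h : ℕ,
    (h : ℝ) ≤ X * Real.log X ^ A →
    (1 - eta) * (X / Real.log X) ≤ pi1 (2 * X + h) - pi1 (X + h) ∧
      pi1 (2 * X + h) - pi1 (X + h) ≤ (1 + eta) * (X / Real.log X) := by
  obtain ⟨e, hee⟩ : ∃ e : ℝ, e = eta / 5 := ⟨_, rfl⟩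
  have he0 : 0 < e := by rw [hee]; positivity
  obtain ⟨N1, hN1⟩ := Pool.Agent.W762.EC.PntA.large (A + 3) (by omega)
  obtain ⟨C, hC⟩ : ∃ C : ℝ, C = 35 + 16 * 8 ^ (A + 3) := ⟨_, rfl⟩
  rw [← hC] at hN1
  have hC0 : 0 < C := by rw [hC]; positivity
  obtain ⟨X1, hX1⟩ := (evP A e C he0).exists_forall_of_atTop
  refine ⟨max (max N1 X1) 3, ?_⟩
  intro X hX h hh
  have hXN : N1 ≤ X := (le_max_left _ _).trans ((le_max_left _ _).trans hX)
  have hX3 : 3 ≤ X := (le_max_right _ _).trans hX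
  obtain ⟨g1, g2, g3, g4, g5⟩ := hX1 X ((le_max_right _ _).trans ((le_max_left _ _).trans hX))
  obtain ⟨L, hL⟩ : ∃ L : ℝ, L = Real.log X := ⟨_, rfl⟩
  rw [← hL] at g1 g2 g3 g4 g5 hh ⊢
  have hL0 : 0 < L := by linarith
  have hXr : (0 : ℝ) < X := by exact_mod_cast (by omega : 0 < X)
  have hh0 : (0 : ℝ) ≤ h := Nat.cast_nonneg _
  -- estimates for the two end points
  have key : ∀ y : ℕ, X ≤ y → (y : ℝ) ≤ X * (2 + L ^ A) → L ≤ Real.log y ∧ Real.log y ≤ (1 + e) * L ∧
      |Chebyshev.theta (y : ℝ) - y| ≤ 2 * e * X := by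
    intro y hy hy2
    have hXy : (X : ℝ) ≤ y := by exact_mod_cast hy
    have hy0 : (0 : ℝ) < y := by linarith
    have k1 : L ≤ Real.log y := by rw [hL]; exact Real.log_le_log hXr hXy
    have k2 : 2 + L ^ A ≤ L ^ (A + 1) := by
      have h7 : (1 : ℝ) ≤ L ^ A := one_le_pow₀ (by linarith)
      rw [pow_succ]
      nlinarith
    have k3 : (y : ℝ) ≤ X * L ^ (A + 1) := hy2.trans (mul_le_mul_of_nonneg_left k2 hXr.le)
    have k4 : Real.log y ≤ (1 + e) * L := by
      have h7 := Real.log_le_log hy0 k3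
      rw [Real.log_mul hXr.ne' (by positivity), Real.log_pow, ← hL] at h7
      push_cast at h7
      linarith
    have k5 : Real.log y ≤ 2 * L := by
      have h7 : (y : ℝ) ≤ X * X := hy2.trans (mul_le_mul_of_nonneg_left g5 hXr.le)
      have h8 := Real.log_le_log hy0 h7
      rw [Real.log_mul hXr.ne' hXr.ne', ← hL] at h8
      linarith
    refine ⟨k1, k4, ?_⟩
    have h8 := hN1 y (hXN.trans hy)
    have h9 := Chebyshev.abs_psi_sub_theta_le_sqrt_mul_log (x := (y : ℝ)) (by
      have : (1 : ℝ) ≤ X := by exact_mod_cast (by omega : 1 ≤ X)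
      linarith)
    have h10 : C * (y / Real.log y ^ (A + 3)) ≤ e * X := by
      have h11 : (y : ℝ) / Real.log y ^ (A + 3) ≤ X * L ^ (A + 1) / L ^ (A + 3) :=
        div_le_div₀ (by positivity) k3 (by positivity) (pow_le_pow_left₀ hL0.le k1 _)
      have h12 : X * L ^ (A + 1) / L ^ (A + 3) = X / L ^ 2 := by
        rw [show A + 3 = (A + 1) + 2 by ring, pow_add L (A + 1) 2]
        field_simp
      rw [h12] at h11
      have h13 := mul_le_mul_of_nonneg_left h11 hC0.le
      refine h13.trans ?_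
      have h14 : C * (X / L ^ 2) = (C / L) * (X / L) := by field_simp
      rw [h14]
      have h15 : C / L ≤ e := by
        rw [div_le_iff₀ hL0]
        linarith
      have h16 : (X : ℝ) / L ≤ X := div_le_self hXr.le (by linarith)
      exact mul_le_mul h15 h16 (by positivity) he0.le
    have h11 : 2 * √(y : ℝ) * Real.log y ≤ e * X := by
      apply abs_le_of_sq_le_sq' _ (by positivity) |>.2
      have h12 : (2 * √(y : ℝ) * Real.log y) ^ 2 = 4 * y * Real.log y ^ 2 := by
        rw [mul_pow, mul_pow, Real.sq_sqrt hy0.le]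
        norm_num
      rw [h12]
      calc 4 * (y : ℝ) * Real.log y ^ 2 ≤ 4 * (X * L ^ (A + 1)) * (2 * L) ^ 2 := by
            apply mul_le_mul _ _ (by positivity) (by positivity)
            · exact mul_le_mul_of_nonneg_left k3 (by norm_num)
            · exact pow_le_pow_left₀ (by linarith) k5 2
        _ = X * (16 * L ^ (A + 3)) := by
            rw [show A + 3 = (A + 1) + 2 by ring, pow_add L (A + 1) 2]
            ring
        _ ≤ X * (e ^ 2 * X) := mul_le_mul_of_nonneg_left g1 hXr.le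
        _ = (e * X) ^ 2 := by ring
    have h12 : Chebyshev.theta (y : ℝ) - y = (Chebyshev.psi (y : ℝ) - y) - (Chebyshev.psi (y : ℝ) - Chebyshev.theta (y : ℝ)) := by
      ring
    rw [h12]
    refine (abs_sub _ _).trans ?_
    linarith
  have hcast1 : ((X + h : ℕ) : ℝ) = X + h := by push_cast; rfl
  have hcast2 : ((2 * X + h : ℕ) : ℝ) = 2 * X + h := by push_cast; rfl
  have hLA : (1 : ℝ) ≤ L ^ A := one_le_pow₀ (by linarith)
  obtain ⟨a1, a2, a3⟩ := key (X + h) (by omega) (by rw [hcast1]; nlinarith)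
  obtain ⟨b1, b2, b3⟩ := key (2 * X + h) (by omega) (by rw [hcast2]; nlinarith)
  have hth := theta_diff (X + h) (2 * X + h) (by omega)
  rw [pi_diff (X + h) (2 * X + h) (by omega)]
  obtain ⟨S, hS⟩ : ∃ S : Finset ℕ, S = (Ioc (X + h) (2 * X + h)).filter Nat.Prime := ⟨_, rfl⟩
  rw [← hS] at hth ⊢
  have hlow : (S.card : ℝ) * L ≤ ∑ p ∈ S, Real.log p := by
    rw [← nsmul_eq_mul]
    apply card_nsmul_le_sum
    intro p hp
    rw [hS, mem_filter, mem_Ioc] at hp
    rw [hL]
    exact Real.log_le_log hXr (by exact_mod_cast (by omega : X ≤ p))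
  have hup : ∑ p ∈ S, Real.log p ≤ (S.card : ℝ) * ((1 + e) * L) := by
    rw [← nsmul_eq_mul]
    apply sum_le_card_nsmul
    intro p hp
    rw [hS, mem_filter, mem_Ioc] at hp
    refine le_trans ?_ b2
    exact Real.log_le_log (by exact_mod_cast (by omega : 0 < p)) (by exact_mod_cast hp.1.2)
  have a3' := abs_le.1 a3
  have b3' := abs_le.1 b3
  rw [hcast1] at a3' hth
  rw [hcast2] at b3' hth
  have hdiff1 : (1 - 4 * e) * X ≤ ∑ p ∈ S, Real.log p := by rw [← hth]; linarith
  have hdiff2 : ∑ p ∈ S, Real.log p ≤ (1 + 4 * e) * X := by rw [← hth]; linarith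
  have he5 : eta = 5 * e := by rw [hee]; ring
  constructor
  · have h1 : (1 - 4 * e) * X ≤ (S.card : ℝ) * ((1 + e) * L) := hdiff1.trans hup
    have h2 : (1 - eta) * (X / L) * ((1 + e) * L) ≤ (S.card : ℝ) * ((1 + e) * L) := by
      refine le_trans ?_ h1
      have h3 : (1 - eta) * (X / L) * ((1 + e) * L) = ((1 - 5 * e) * (1 + e)) * X := by
        rw [he5]
        field_simp
      rw [h3]
      apply mul_le_mul_of_nonneg_right _ hXr.le
      nlinarith [sq_nonneg e]
    exact le_of_mul_le_mul_right h2 (by positivity)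
  · have h1 : (S.card : ℝ) * L ≤ (1 + 4 * e) * X := hlow.trans hdiff2
    have h2 : (S.card : ℝ) ≤ (1 + 4 * e) * X / L := by
      rw [le_div_iff₀ hL0]
      exact h1
    refine h2.trans ?_
    rw [he5, mul_div_assoc]
    apply mul_le_mul_of_nonneg_right _ (by positivity)
    linarith

end Pool.Agent.Y829.LP
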