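import Pool.Agent.Y829.LP3
import Pool.Agent.Y829.RS5

/-! Primes in arithmetic progressions to a large modulus, with sieve weights on the residue classes: the model. -/

set_option autoImplicit false

namespace Pool.Agent.Y829.LP

open Finset Filter Topology Pool.Agent.Y829 Pool.Agent.Y829.RP Pool.Agent.Y829.RS

/-- the primes up to `Q` not dividing `m` -/
def PN (Q m : ℕ) : Finset ℕ := (PQ Q).filter (fun p => ¬ p ∣ m)

/-- the primes up to `Q` dividing `m` -/
def PD (Q m : ℕ) : Finset ℕ := (PQ Q).filter (fun p => p ∣ m)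

/-- the indicator of the integers without prime factor in `P` -/
noncomputable def fr (P : Finset ℕ) (n : ℕ) : ℝ := by
  classical exact if ∀ p ∈ P, ¬ p ∣ n then 1 else 0

lemma fr_nonneg (P : Finset ℕ) (n : ℕ) : 0 ≤ fr P n := by
  unfold fr; split_ifs <;> norm_num

lemma fr_le (P : Finset ℕ) (n : ℕ) : fr P n ≤ 1 := by
  unfold fr; split_ifs <;> norm_num

lemma exinv (m M : ℕ) (hM : 0 < M) (hc : m.Coprime M) : ∃ mi : ℕ, m * mi ≡ 1 [MOD M] := by
  rcases Nat.lt_or_ge 1 M with h | h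
  · have hg : m.gcd M = 1 := hc
    obtain ⟨mi, _, hmi⟩ := Nat.exists_mul_mod_eq_gcd (n := m) (k := M) (by rw [hg]; exact h)
    refine ⟨mi, ?_⟩
    show m * mi % M = 1 % M
    rw [hmi, hg, Nat.mod_eq_of_lt h]
  · have : M = 1 := by omega
    rw [this]
    exact ⟨0, Nat.modEq_one⟩

lemma dvd_shift (m mi p n j : ℕ) (h : m * mi ≡ 1 [MOD p]) : p ∣ n + j * m ↔ p ∣ n * mi + j := by
  have h1 : (n + j * m) * mi ≡ n * mi + j [MOD p] := by
    have e : (n + j * m) * mi = n * mi + j * (m * mi) := by ring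
    rw [e]
    have h2 := (h.mul_left j).add_left (n * mi)
    rwa [mul_one] at h2
  have h2 : (n * mi + j) * m ≡ n + j * m [MOD p] := by
    have e : (n * mi + j) * m = n * (m * mi) + j * m := by ring
    rw [e]
    have h2 := (h.mul_left n).add_right (j * m)
    rwa [mul_one] at h2
  constructor
  · intro h3
    exact (Nat.modEq_zero_iff_dvd).1 (h1.symm.trans ((Nat.modEq_zero_iff_dvd).2 (h3.mul_right mi)))
  · intro h3
    exact (Nat.modEq_zero_iff_dvd).1 (h2.symm.trans ((Nat.modEq_zero_iff_dvd).2 (h3.mul_right m)))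

/-- the number of `j` such that `n + j m` has no prime factor up to `Q` -/
lemma SJ_eq (Q m mi J0 J n : ℕ) (h : ∀ p ∈ PN Q m, m * mi ≡ 1 [MOD p]) :
    ∑ j ∈ Ioc J0 (J0 + J), (if (∀ p ∈ PQ Q, ¬ p ∣ n + j * m) then (1 : ℝ) else 0) =
      fr (PD Q m) n * SO (fun _ => {0}) (PN Q m) J (n * mi + J0) := by
  classical
  unfold fr
  split_ifs with hf
  · rw [one_mul]
    unfold SO
    rw [card_filter]
    push_cast
    symm
    apply sum_nbij' (fun i => J0 + i) (fun j => j - J0)
    · intro i hi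
      rw [mem_Icc] at hi
      rw [mem_Ioc]
      omega
    · intro j hj
      rw [mem_Ioc] at hj
      rw [mem_Icc]
      omega
    · intro i _
      omega
    · intro j hj
      rw [mem_Ioc] at hj
      omega
    · intro i _
      have e1 : (∀ p ∈ PN Q m, (n * mi + J0 + i) % p ∉ ({0} : Finset ℕ)) ↔
          (∀ p ∈ PQ Q, ¬ p ∣ n + (J0 + i) * m) := by
        constructor
        · intro h1 p hp
          by_cases hpm : p ∣ m
          · intro h2
            have h3 : p ∣ n := (Nat.dvd_add_left (hpm.mul_left _)).1 h2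
            exact hf p (mem_filter.2 ⟨hp, hpm⟩) h3
          · have hpN : p ∈ PN Q m := mem_filter.2 ⟨hp, hpm⟩
            rw [dvd_shift m mi p n (J0 + i) (h p hpN)]
            intro h2
            apply h1 p hpN
            rw [mem_singleton]
            apply Nat.mod_eq_zero_of_dvd
            rw [add_assoc]
            exact h2
        · intro h1 p hp h2
          rw [mem_singleton] at h2
          have h3 := Nat.dvd_of_mod_eq_zero h2
          rw [add_assoc, ← dvd_shift m mi p n (J0 + i) (h p hp)] at h3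
          exact h1 p (mem_filter.1 hp).1 h3
      by_cases h4 : (∀ p ∈ PQ Q, ¬ p ∣ n + (J0 + i) * m)
      · rw [if_pos (e1.2 h4), if_pos h4]
      · rw [if_neg (fun h5 => h4 (e1.1 h5)), if_neg h4]
  · rw [zero_mul]
    apply sum_eq_zero
    intro j _
    rw [if_neg]
    intro h1
    apply hf
    intro p hp hpn
    have hp1 := mem_filter.1 hp
    exact h1 p hp1.1 (dvd_add hpn (hp1.2.mul_left _))

/-- counting through an affine bijection -/
lemma aff_count (M mi J0 : ℕ) (hM : 0 < M) (hmi : mi.Coprime M) (g : ℕ → Prop) [DecidablePred g]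
    (hg : ∀ n, g (n + M) ↔ g n) :
    ((range M).filter (fun n => g (n * mi + J0))).card ≤ ((range M).filter g).card := by
  have hgk : ∀ k n, g (n + M * k) ↔ g n := by
    intro k
    induction k with
    | zero => intro n; simp
    | succ k ih =>
      intro n
      rw [mul_add, mul_one, ← add_assoc, hg, ih]
  have hmod : ∀ n, g (n % M) ↔ g n := by
    intro n
    have h1 := hgk (n / M) (n % M)
    rw [Nat.mod_add_div] at h1
    exact h1.symm
  apply card_le_card_of_injOn (fun n => (n * mi + J0) % M)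
  · intro n hn
    rw [mem_coe, mem_filter, mem_range] at hn
    rw [mem_coe, mem_filter, mem_range]
    exact ⟨Nat.mod_lt _ hM, (hmod _).2 hn.2⟩
  · intro x hx y hy hxy
    rw [mem_coe, mem_filter, mem_range] at hx hy
    have h1 : x * mi + J0 ≡ y * mi + J0 [MOD M] := hxy
    have h2 : x * mi ≡ y * mi [MOD M] := Nat.ModEq.add_right_cancel' J0 h1
    have h3 : x ≡ y [MOD M] := Nat.ModEq.cancel_right_of_coprime (by rw [Nat.gcd_comm]; exact hmi) h2
    have h4 : x % M = y % M := h3
    rwa [Nat.mod_eq_of_lt hx.1, Nat.mod_eq_of_lt hy.1] at h4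

/-- the mean value of the weight over the integers without common prime factor with `m` up to `Q` -/
noncomputable def muD (Q m : ℕ) (c : ℕ → ℕ → ℝ) : ℝ :=
  (∑ n ∈ range Q.factorial, wt Q c n * fr (PD Q m) n) / (Q.factorial : ℝ)

lemma V_split (Q m : ℕ) : V (PQ Q) = V (PD Q m) * V (PN Q m) := by
  unfold V PD PN
  exact (prod_filter_mul_prod_filter_not _ _ _).symm

/-- the model -/
theorem modelJ (K b : ℕ) : ∃ X0 : ℕ, ∀ m : ℕ, X0 ≤ m → ∀ J0 J Q : ℕ,
    Real.log m * Real.log (Real.log m) ^ 3 ≤ J → 1 ≤ Q → Q ≤ m →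
    ∀ c : ℕ → ℕ → ℝ, (∀ n, 0 ≤ wt Q c n) → ∑ d ∈ Icc 1 Q, ss c d ^ 2 / d ≤ Real.log m ^ K →
    1 / (2 * Real.log m ^ K) ≤ muD Q m c →
    |∑ j ∈ Ioc J0 (J0 + J), RP.GG Q c (j * m) - J * (muD Q m c / V (PD Q m))| ≤
      2 * (1 / 2 : ℝ) ^ b * (J * (muD Q m c / V (PD Q m))) := by
  classical
  obtain ⟨X1, hX1⟩ := concP b (2 * K + 4 * (K + 2) + 10)
  obtain ⟨X2, hX2⟩ := badmass K (K + 2)
  obtain ⟨cm, hcm, hmert⟩ := mert
  obtain ⟨δ, hδ⟩ : ∃ δ : ℝ, δ = (1 / 2 : ℝ) ^ b := ⟨_, rfl⟩
  have hδ0 : 0 < δ := by rw [hδ]; positivity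
  have E := (log_tend.eventually_ge_atTop (1 + 2 / (δ * cm))).and (eventually_ge_atTop 3)
  obtain ⟨X3, hX3⟩ := E.exists_forall_of_atTop
  refine ⟨max (max X1 X2) X3, ?_⟩
  intro m hX J0 J Q hU hQ1 hQX c hw hc hmu
  have hP' : ∀ p ∈ PN Q m, p.Prime ∧ p ≤ m := fun p hp => by
    have h1 := mem_PQ.1 (mem_filter.1 hp).1
    exact ⟨h1.1, h1.2.trans hQX⟩
  have hc1 := hX1 m ((le_max_left _ _).trans ((le_max_left _ _).trans hX)) J (PN Q m) hU hP'
  have hc2 := hX2 m ((le_max_right _ _).trans ((le_max_left _ _).trans hX)) Q hQ1 hQX c hc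
  obtain ⟨e1, e2⟩ := hX3 m ((le_max_right _ _).trans hX)
  have hVP : cm / Real.log m ≤ V (PN Q m) := hmert m (by omega) (PN Q m) hP'
  have hV0 : 0 < V (PN Q m) := V_pos fun p hp => (hP' p hp).1
  have hVD : 0 < V (PD Q m) := V_pos fun p hp => (mem_PQ.1 (mem_filter.1 hp).1).1
  obtain ⟨L, hL⟩ : ∃ L : ℝ, L = Real.log m := ⟨_, rfl⟩
  rw [← hL] at hc1 hc2 hc e1 hmu hVP
  have hL1 : 1 ≤ L := by
    have : 0 ≤ 2 / (δ * cm) := by positivity
    linarith
  have hL0 : 0 < L := by linarith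
  obtain ⟨P, hPd⟩ : ∃ P, P = PN Q m := ⟨_, rfl⟩
  rw [← hPd] at hc1 hVP hV0 hP'
  have hP : ∀ p ∈ P, p.Prime := fun p hp => (hP' p hp).1
  obtain ⟨M, hM⟩ : ∃ M, M = ∏ p ∈ P, p := ⟨_, rfl⟩
  have hM0 : 0 < M := by rw [hM]; exact prod_pos fun p hp => (hP p hp).pos
  have hcop : m.Coprime M := by
    rw [hM]
    apply Nat.Coprime.prod_right
    intro p hp
    rw [Nat.coprime_comm, Nat.Prime.coprime_iff_not_dvd (hP p hp)]
    rw [hPd] at hp
    exact (mem_filter.1 hp).2
  obtain ⟨mi, hmi⟩ := exinv m M hM0 hcop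
  have hmip : ∀ p ∈ PN Q m, m * mi ≡ 1 [MOD p] := by
    intro p hp
    rw [← hPd] at hp
    exact hmi.of_dvd (by rw [hM]; exact dvd_prod_of_mem (fun p : ℕ => p) hp)
  have hmic : mi.Coprime M := by
    have h1 : (m * mi).gcd M = Nat.gcd 1 M := hmi.gcd_eq
    rw [Nat.gcd_one_left] at h1
    exact Nat.Coprime.coprime_mul_left (show (m * mi).Coprime M from h1)
  obtain ⟨N, hN⟩ : ∃ N, N = Q.factorial := ⟨_, rfl⟩
  have hN0 : 0 < N := by rw [hN]; exact Nat.factorial_pos _
  have hdN : ∀ d ∈ Icc 1 Q, d ∣ N := by rw [hN]; exact dvdfac Q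
  have hMN : M ∣ N := by
    rw [hM]
    apply Finset.prod_primes_dvd
    · intro p hp; exact (hP p hp).prime
    · intro p hp
      rw [hPd] at hp
      have h1 := mem_PQ.1 (mem_filter.1 hp).1
      exact hdN p (mem_Icc.2 ⟨h1.1.one_lt.le, h1.2⟩)
  obtain ⟨k, hk⟩ := hMN
  rw [← hM] at hc1
  obtain ⟨S, hS⟩ : ∃ S : ℕ → ℝ, S = fun n => SO (fun _ => {0}) P J n := ⟨_, rfl⟩
  have hSper : ∀ n, S (n + M) = S n := by
    intro n
    rw [hS]
    exact SO_per (fun _ => {0}) P J M n (fun p hp => by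
        rw [hM]; exact dvd_prod_of_mem (fun p : ℕ => p) hp)
  have hSk : ∀ k n, S (n + M * k) = S n := by
    intro k
    induction k with
    | zero => intro n; simp
    | succ k ih =>
      intro n
      rw [mul_add, mul_one, ← add_assoc, hSper, ih]
  obtain ⟨bad0, hbad0⟩ : ∃ bad : ℕ → Prop, bad = fun n => δ * (J * V P) < |S n - J * V P| := ⟨_, rfl⟩
  obtain ⟨bad, hbad⟩ : ∃ bad : ℕ → Prop, bad = fun n => bad0 (n * mi + J0) := ⟨_, rfl⟩
  have hc1' : (((range M).filter bad0).card : ℝ) * L ^ (2 * K + 4 * (K + 2) + 10) ≤ M := by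
    rw [hbad0, hS, hδ]
    convert hc1
  have hb0per : ∀ n, bad0 (n + M) ↔ bad0 n := by
    intro n
    rw [hbad0]
    show (δ * (J * V P) < |S (n + M) - J * V P|) ↔ (δ * (J * V P) < |S n - J * V P|)
    rw [hSper]
  have hc1'' : (((range M).filter bad).card : ℝ) * L ^ (2 * K + 4 * (K + 2) + 10) ≤ M := by
    refine le_trans ?_ hc1'
    apply mul_le_mul_of_nonneg_right _ (by positivity)
    have h1 := aff_count M mi J0 hM0 hmic bad0 hb0per
    rw [hbad]
    exact_mod_cast h1
  -- the bad set has density at most `L^(-C)`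
  have hper : ∀ n, (if bad (n + M) then (1 : ℝ) else 0) = if bad n then (1 : ℝ) else 0 := by
    intro n
    have h1 : bad (n + M) ↔ bad n := by
      rw [hbad]
      show bad0 ((n + M) * mi + J0) ↔ bad0 (n * mi + J0)
      have e : (n + M) * mi + J0 = (n * mi + J0) + M * mi := by ring
      rw [e, hbad0]
      show (δ * (J * V P) < |S ((n * mi + J0) + M * mi) - J * V P|) ↔ (δ * (J * V P) < |S (n * mi + J0) - J * V P|)
      rw [hSk]
    simp only [h1]
  have hcount : (((range N).filter bad).card : ℝ) * L ^ (2 * K + 4 * (K + 2) + 10) ≤ N := by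
    have h1 : (((range N).filter bad).card : ℝ) = k * (((range M).filter bad).card : ℝ) := by
      rw [card_filter, card_filter, hk]
      push_cast
      exact per_sum hper k
    rw [h1, hk]
    push_cast
    have := mul_le_mul_of_nonneg_left hc1'' (Nat.cast_nonneg (α := ℝ) k)
    linarith
  have hb := hc2 N hdN ((range N).filter bad) (filter_subset _ _) hcount
  have hb' : ∑ n ∈ (range N).filter bad, |wt Q c n| = ∑ n ∈ (range N).filter bad, wt Q c n :=
    sum_congr rfl fun n _ => abs_of_nonneg (hw n)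
  rw [hb'] at hb
  -- the weighted sum
  obtain ⟨mu', hmu'⟩ : ∃ mu' : ℝ, mu' = muD Q m c := ⟨_, rfl⟩
  have hUr : (0 : ℝ) ≤ J := Nat.cast_nonneg _
  have hNr : (0 : ℝ) < N := by exact_mod_cast hN0
  have hsw : ∑ n ∈ range N, wt Q c n * fr (PD Q m) n = N * mu' := by
    rw [hmu']
    unfold muD
    rw [← hN]
    field_simp
  rw [← hmu'] at hmu ⊢
  have hmu0 : 0 < mu' := lt_of_lt_of_le (by positivity) hmu
  obtain ⟨w', hw'⟩ : ∃ w' : ℕ → ℝ, w' = fun n => wt Q c n * fr (PD Q m) n := ⟨_, rfl⟩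
  have hw'0 : ∀ n, 0 ≤ w' n := by
    intro n
    rw [hw']
    exact mul_nonneg (hw n) (fr_nonneg _ _)
  have hw'1 : ∀ n, w' n ≤ wt Q c n := by
    intro n
    rw [hw']
    exact mul_le_of_le_one_right (hw n) (fr_le _ _)
  have hsw' : ∑ n ∈ range N, w' n = N * mu' := by rw [hw']; exact hsw
  have h1 : |∑ n ∈ range N, w' n * S (n * mi + J0) - J * V P * ∑ n ∈ range N, w' n| ≤
      2 * δ * (J * V P) * (N * mu') := by
    have h2 : ∑ n ∈ range N, w' n * S (n * mi + J0) - J * V P * ∑ n ∈ range N, w' n =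
        ∑ n ∈ range N, w' n * (S (n * mi + J0) - J * V P) := by
      rw [mul_sum, ← sum_sub_distrib]
      apply sum_congr rfl
      intro n _
      ring
    rw [h2]
    refine (abs_sum_le_sum_abs _ _).trans ?_
    have h3 : ∀ n ∈ range N, |w' n * (S (n * mi + J0) - J * V P)| ≤
        w' n * (δ * (J * V P)) + (if bad n then wt Q c n * J else 0) := by
      intro n _
      rw [abs_mul, abs_of_nonneg (hw'0 n)]
      by_cases hbn : bad n
      · rw [if_pos hbn]
        have h4 : |S (n * mi + J0) - J * V P| ≤ J := by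
          have a1 : S (n * mi + J0) ≤ J := by rw [hS]; exact SO_le (fun _ => {0}) P J _
          have a2 : 0 ≤ S (n * mi + J0) := by rw [hS]; exact SO_nonneg (fun _ => {0}) P J _
          have a3 : J * V P ≤ J * 1 := mul_le_mul_of_nonneg_left (V_le_one hP) hUr
          have a4 : 0 ≤ J * V P := by positivity
          rw [abs_le]
          constructor <;> linarith
        have h5 := mul_le_mul (hw'1 n) h4 (abs_nonneg _) (hw n)
        have h6 : 0 ≤ w' n * (δ * (J * V P)) := by
          have := hw'0 n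
          positivity
        linarith
      · rw [if_neg hbn, add_zero]
        apply mul_le_mul_of_nonneg_left _ (hw'0 n)
        rw [hbad, hbad0] at hbn
        exact not_lt.1 hbn
    refine (sum_le_sum h3).trans ?_
    rw [sum_add_distrib, ← sum_mul, hsw', ← sum_filter, ← sum_mul]
    have h4 : (∑ n ∈ (range N).filter bad, wt Q c n) * J ≤ δ * (J * V P) * (N * mu') := by
      have h5 : (∑ n ∈ (range N).filter bad, wt Q c n) ≤ N / L ^ (K + 2) := by
        rw [le_div_iff₀ (by positivity)]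
        exact hb
      have h6 : (N : ℝ) / L ^ (K + 2) ≤ δ * V P * (N * mu') := by
        have h7 : δ * (cm / L) * (N * (1 / (2 * L ^ K))) ≤ δ * V P * (N * mu') := by
          apply mul_le_mul
          · exact mul_le_mul_of_nonneg_left hVP hδ0.le
          · exact mul_le_mul_of_nonneg_left hmu hNr.le
          · positivity
          · positivity
        refine le_trans ?_ h7
        have h8 : δ * (cm / L) * (N * (1 / (2 * L ^ K))) = (N / L ^ (K + 2)) * (δ * cm * L / 2) := by
          rw [pow_add]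
          field_simp
        rw [h8]
        have h9 : 1 ≤ δ * cm * L / 2 := by
          have h10 : 2 / (δ * cm) ≤ L := by linarith
          rw [div_le_iff₀ (by positivity)] at h10
          linarith
        exact le_mul_of_one_le_right (by positivity) h9
      have h7 := mul_le_mul_of_nonneg_right (h5.trans h6) hUr
      refine h7.trans (le_of_eq ?_)
      ring
    linarith
  have h2 : ∑ n ∈ range N, w' n * S (n * mi + J0) = N * V (PQ Q) * ∑ j ∈ Ioc J0 (J0 + J), RP.GG Q c (j * m) := by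
    rw [mul_sum]
    have g1 : ∀ j ∈ Ioc J0 (J0 + J), N * V (PQ Q) * RP.GG Q c (j * m) =
        ∑ n ∈ range N, wt Q c n * (if (∀ p ∈ PQ Q, ¬ p ∣ n + j * m) then 1 else 0) :=
      fun j _ => (sum_wt_free Q N (j * m) c hN0 hdN).symm
    rw [sum_congr rfl g1, sum_comm]
    apply sum_congr rfl
    intro n _
    rw [← mul_sum, SJ_eq Q m mi J0 J n hmip, hw', hS, hPd]
    ring
  rw [h2, hsw', V_split Q m, ← hPd] at h1
  have hNV : 0 < (N : ℝ) * (V (PD Q m) * V P) := by positivity
  have h3 : N * (V (PD Q m) * V P) * |∑ j ∈ Ioc J0 (J0 + J), RP.GG Q c (j * m) - J * (mu' / V (PD Q m))| ≤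
      N * (V (PD Q m) * V P) * (2 * δ * (J * (mu' / V (PD Q m)))) := by
    have e3 : N * (V (PD Q m) * V P) * |∑ j ∈ Ioc J0 (J0 + J), RP.GG Q c (j * m) - J * (mu' / V (PD Q m))| =
        |N * (V (PD Q m) * V P) * ∑ j ∈ Ioc J0 (J0 + J), RP.GG Q c (j * m) - J * V P * (N * mu')| := by
      have e4 : N * (V (PD Q m) * V P) * ∑ j ∈ Ioc J0 (J0 + J), RP.GG Q c (j * m) - J * V P * (N * mu') =
          (N * (V (PD Q m) * V P)) * (∑ j ∈ Ioc J0 (J0 + J), RP.GG Q c (j * m) - J * (mu' / V (PD Q m))) := by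
        field_simp
      rw [e4, abs_mul, abs_of_pos hNV]
    rw [e3]
    refine h1.trans (le_of_eq ?_)
    field_simp
  rw [← hδ]
  exact le_of_mul_le_mul_left h3 hNV

end Pool.Agent.Y829.LP
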