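import Pool.Agent.Y829.LP4

/-! Primes in arithmetic progressions to a large modulus, with sieve weights on the residue classes: the mass of the
weight on the reduced classes. -/

set_option autoImplicit false

namespace Pool.Agent.Y829.LP

open Finset Filter Topology Pool.Agent.Y829 Pool.Agent.Y829.RP Pool.Agent.Y829.RS

lemma leg1 (X N d e a : ℕ) (hd : 0 < d) (he : 0 < e) (hN : 0 < N) (hdN : d ∣ N) (heN : e ∣ N) :
    |∑ n ∈ Ioc X (2 * X), (if n % d = a ∧ e ∣ n then (1 : ℝ) else 0) -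
      X / N * ∑ n ∈ range N, (if n % d = a ∧ e ∣ n then (1 : ℝ) else 0)| ≤ 1 := by
  classical
  have hl : 0 < Nat.lcm d e := Nat.lcm_pos hd he
  by_cases hex : ∃ v, v % d = a ∧ e ∣ v
  · obtain ⟨v, hv1, hv2⟩ := hex
    have key : ∀ n, (n % d = a ∧ e ∣ n) ↔ n ≡ v [MOD (Nat.lcm d e)] := by
      intro n
      constructor
      · rintro ⟨h1, h2⟩
        have h3 : n ≡ v [MOD d] := by
          show n % d = v % d
          rw [h1, hv1]
        have h4 : n ≡ v [MOD e] := (Nat.modEq_zero_iff_dvd.2 h2).trans (Nat.modEq_zero_iff_dvd.2 hv2).symm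
        rw [Nat.modEq_iff_dvd] at *
        rw [Int.natCast_dvd] at *
        exact Nat.lcm_dvd h3 h4
      · intro h
        have h3 : n ≡ v [MOD d] := h.of_dvd (Nat.dvd_lcm_left d e)
        have h4 : n ≡ v [MOD e] := h.of_dvd (Nat.dvd_lcm_right d e)
        exact ⟨by rw [← hv1]; exact h3, Nat.modEq_zero_iff_dvd.1 (h4.trans (Nat.modEq_zero_iff_dvd.2 hv2))⟩
    have k1 : ∀ s : Finset ℕ, ∑ n ∈ s, (if n % d = a ∧ e ∣ n then (1 : ℝ) else 0) =
        ((s.filter (fun n => n ≡ v [MOD (Nat.lcm d e)])).card : ℝ) := by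
      intro s
      rw [card_filter]
      push_cast
      apply sum_congr rfl
      intro n _
      by_cases h : n ≡ v [MOD (Nat.lcm d e)]
      · rw [if_pos ((key n).2 h), if_pos h]
      · rw [if_neg (fun h' => h ((key n).1 h')), if_neg h]
    rw [k1, k1]
    have h1 : (((range N).filter (fun n => n ≡ v [MOD (Nat.lcm d e)])).card : ℝ) = N / (Nat.lcm d e : ℝ) := by
      have h2 := cnt_class N (Nat.lcm d e) (v % (Nat.lcm d e)) hl (Nat.mod_lt _ hl) (Nat.lcm_dvd hdN heN)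
      have h3 : (range N).filter (fun n => n ≡ v [MOD (Nat.lcm d e)]) =
          (range N).filter (fun n => n % (Nat.lcm d e) = v % (Nat.lcm d e)) := rfl
      rw [h3, h2, Nat.cast_div (Nat.lcm_dvd hdN heN) (by exact_mod_cast hl.ne')]
    have e1 : Ioc X (2 * X) = Ico (X + 1) (2 * X + 1) := by
      ext n
      rw [mem_Ioc, mem_Ico]
      omega
    have h4 := cnt_mod (X + 1) (2 * X + 1) (Nat.lcm d e) v (by omega) hl
    have h5 : (((2 * X + 1 : ℕ) : ℝ) - ((X + 1 : ℕ) : ℝ)) / (Nat.lcm d e : ℝ) = X / N * (N / (Nat.lcm d e : ℝ)) := by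
      have hN' : (N : ℝ) ≠ 0 := by exact_mod_cast hN.ne'
      have hl' : (Nat.lcm d e : ℝ) ≠ 0 := by exact_mod_cast hl.ne'
      push_cast
      field_simp
      ring
    rw [h5] at h4
    rw [h1, e1]
    exact h4
  · have k1 : ∀ s : Finset ℕ, ∑ n ∈ s, (if n % d = a ∧ e ∣ n then (1 : ℝ) else 0) = 0 := by
      intro s
      apply sum_eq_zero
      intro n _
      rw [if_neg (fun h => hex ⟨n, h⟩)]
    rw [k1, k1]
    simp

lemma legendre (n m : ℕ) (hm : 0 < m) : (if n.Coprime m then (1 : ℝ) else 0) =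
    ∑ e ∈ m.divisors, (ArithmeticFunction.moebius e : ℝ) * (if e ∣ n then 1 else 0) := by
  classical
  have h1 : ∑ e ∈ m.divisors, (ArithmeticFunction.moebius e : ℝ) * (if e ∣ n then 1 else 0) =
      ∑ e ∈ (n.gcd m).divisors, (ArithmeticFunction.moebius e : ℝ) := by
    have h2 : (n.gcd m).divisors = m.divisors.filter (fun e => e ∣ n) := by
      ext e
      rw [mem_filter, Nat.mem_divisors, Nat.mem_divisors, Nat.dvd_gcd_iff]
      have := Nat.gcd_pos_of_pos_right n hm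
      constructor
      · rintro ⟨⟨h3, h4⟩, -⟩
        exact ⟨⟨h4, hm.ne'⟩, h3⟩
      · rintro ⟨⟨h3, -⟩, h4⟩
        exact ⟨⟨h4, h3⟩, this.ne'⟩
    rw [h2, sum_filter]
    apply sum_congr rfl
    intro e _
    split_ifs <;> simp
  have h3 := congrArg (fun f : ArithmeticFunction ℤ => f (n.gcd m)) ArithmeticFunction.moebius_mul_coe_zeta
  simp only [ArithmeticFunction.coe_mul_zeta_apply, ArithmeticFunction.one_apply] at h3
  have h4 := congrArg (fun z : ℤ => (z : ℝ)) h3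
  push_cast at h4
  rw [h1, h4]

lemma leg2 (X Q m N : ℕ) (c : ℕ → ℕ → ℝ) (hm : 0 < m) (hN : 0 < N) (hdN : ∀ d ∈ Icc 1 Q, d ∣ N) (hmN : m ∣ N) :
    |∑ n ∈ Ioc X (2 * X), wt Q c n * (if n.Coprime m then 1 else 0) -
      X / N * ∑ n ∈ range N, wt Q c n * (if n.Coprime m then 1 else 0)| ≤ m.divisors.card * ∑ d ∈ Icc 1 Q, ss c d := by
  classical
  have h0 : ∀ s : Finset ℕ, ∑ n ∈ s, wt Q c n * (if n.Coprime m then (1 : ℝ) else 0) =
      ∑ e ∈ m.divisors, (ArithmeticFunction.moebius e : ℝ) * ∑ d ∈ Icc 1 Q, ∑ a ∈ range d, c d a *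
        ∑ n ∈ s, (if n % d = a ∧ e ∣ n then (1 : ℝ) else 0) := by
    intro s
    have h1 : ∀ n ∈ s, wt Q c n * (if n.Coprime m then (1 : ℝ) else 0) =
        ∑ e ∈ m.divisors, (ArithmeticFunction.moebius e : ℝ) * ∑ d ∈ Icc 1 Q, ∑ a ∈ range d, c d a *
          (if n % d = a ∧ e ∣ n then (1 : ℝ) else 0) := by
      intro n _
      rw [legendre n m hm, mul_sum]
      apply sum_congr rfl
      intro e _
      rw [wt_eq, sum_mul, mul_sum]
      apply sum_congr rfl
      intro d _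
      rw [sum_mul, mul_sum]
      apply sum_congr rfl
      intro a _
      by_cases h2 : n % d = a <;> by_cases h3 : e ∣ n <;> simp [h2, h3]
      ring
    rw [sum_congr rfl h1, sum_comm]
    apply sum_congr rfl
    intro e _
    rw [← mul_sum, sum_comm]
    congr 1
    apply sum_congr rfl
    intro d _
    rw [sum_comm]
    apply sum_congr rfl
    intro a _
    rw [← mul_sum]
  rw [h0, h0, mul_sum, ← sum_sub_distrib]
  refine (abs_sum_le_sum_abs _ _).trans ?_
  rw [← nsmul_eq_mul]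
  apply sum_le_card_nsmul
  intro e he
  have he1 := Nat.mem_divisors.1 he
  have he0 : 0 < e := Nat.pos_of_mem_divisors he
  have e1 : (ArithmeticFunction.moebius e : ℝ) * ∑ d ∈ Icc 1 Q, ∑ a ∈ range d, c d a *
        ∑ n ∈ Ioc X (2 * X), (if n % d = a ∧ e ∣ n then (1 : ℝ) else 0) -
      X / N * ((ArithmeticFunction.moebius e : ℝ) * ∑ d ∈ Icc 1 Q, ∑ a ∈ range d, c d a *
        ∑ n ∈ range N, (if n % d = a ∧ e ∣ n then (1 : ℝ) else 0)) =
      (ArithmeticFunction.moebius e : ℝ) * ∑ d ∈ Icc 1 Q, ∑ a ∈ range d, c d a *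
        (∑ n ∈ Ioc X (2 * X), (if n % d = a ∧ e ∣ n then (1 : ℝ) else 0) -
          X / N * ∑ n ∈ range N, (if n % d = a ∧ e ∣ n then (1 : ℝ) else 0)) := by
    have e2 : ∑ d ∈ Icc 1 Q, ∑ a ∈ range d, c d a *
        (∑ n ∈ Ioc X (2 * X), (if n % d = a ∧ e ∣ n then (1 : ℝ) else 0) -
          X / N * ∑ n ∈ range N, (if n % d = a ∧ e ∣ n then (1 : ℝ) else 0)) =
        ∑ d ∈ Icc 1 Q, ∑ a ∈ range d, c d a *
          ∑ n ∈ Ioc X (2 * X), (if n % d = a ∧ e ∣ n then (1 : ℝ) else 0) -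
        X / N * ∑ d ∈ Icc 1 Q, ∑ a ∈ range d, c d a *
          ∑ n ∈ range N, (if n % d = a ∧ e ∣ n then (1 : ℝ) else 0) := by
      rw [mul_sum, ← sum_sub_distrib]
      apply sum_congr rfl
      intro d _
      rw [mul_sum, ← sum_sub_distrib]
      apply sum_congr rfl
      intro a _
      ring
    rw [e2]
    ring
  rw [e1, abs_mul]
  have h5 : |(ArithmeticFunction.moebius e : ℝ)| ≤ 1 := by
    have := ArithmeticFunction.abs_moebius_le_one (n := e)
    exact_mod_cast this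
  refine (mul_le_mul_of_nonneg_right h5 (abs_nonneg _)).trans ?_
  rw [one_mul]
  refine (abs_sum_le_sum_abs _ _).trans (sum_le_sum ?_)
  intro d hd
  have hd1 := (mem_Icc.1 hd).1
  refine (abs_sum_le_sum_abs _ _).trans ?_
  unfold ss
  apply sum_le_sum
  intro a _
  rw [abs_mul]
  exact mul_le_of_le_one_right (abs_nonneg _)
    (leg1 X N d e a (by omega) he0 hN (hdN d hd) (he1.1.trans hmN))

/-- the prime factors of `m` above `Q` -/
def PR (Q m : ℕ) : Finset ℕ := m.primeFactors.filter (fun p => ¬ p ≤ Q)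

lemma PD_eq (Q m : ℕ) (hm : 0 < m) : PD Q m = m.primeFactors.filter (fun p => p ≤ Q) := by
  ext p
  unfold PD
  rw [mem_filter, mem_filter, mem_PQ, Nat.mem_primeFactors]
  constructor
  · rintro ⟨⟨h1, h2⟩, h3⟩; exact ⟨⟨h1, h3, hm.ne'⟩, h2⟩
  · rintro ⟨⟨h1, h3, -⟩, h2⟩; exact ⟨⟨h1, h2⟩, h3⟩

lemma phi_split (Q m : ℕ) (hm : 0 < m) : (m.totient : ℝ) / m = V (PD Q m) * V (PR Q m) := by
  rw [← V_tot hm, PD_eq Q m hm]
  unfold V PR
  exact (prod_filter_mul_prod_filter_not _ _ _).symm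

lemma cop_fr (Q m n : ℕ) (hm : 0 < m) : (if n.Coprime m then (1 : ℝ) else 0) = fr (PD Q m) n * fr (PR Q m) n := by
  classical
  have h1 : n.Coprime m ↔ (∀ p ∈ PD Q m, ¬ p ∣ n) ∧ (∀ p ∈ PR Q m, ¬ p ∣ n) := by
    constructor
    · intro h
      have h2 : ∀ p ∈ m.primeFactors, ¬ p ∣ n := by
        intro p hp hpn
        rw [Nat.mem_primeFactors] at hp
        have h3 := Nat.dvd_gcd hpn hp.2.1
        rw [Nat.coprime_iff_gcd_eq_one.1 h] at h3
        exact hp.1.one_lt.ne' (Nat.dvd_one.1 h3)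
      refine ⟨fun p hp => h2 p ?_, fun p hp => h2 p (mem_filter.1 hp).1⟩
      rw [PD_eq Q m hm] at hp
      exact (mem_filter.1 hp).1
    · rintro ⟨h2, h3⟩
      by_contra h
      rw [Nat.Prime.not_coprime_iff_dvd] at h
      obtain ⟨q, hq, hqn, hqm⟩ := h
      have hqf : q ∈ m.primeFactors := Nat.mem_primeFactors.2 ⟨hq, hqm, hm.ne'⟩
      by_cases hqQ : q ≤ Q
      · apply h2 q _ hqn
        rw [PD_eq Q m hm]
        exact mem_filter.2 ⟨hqf, hqQ⟩
      · exact h3 q (mem_filter.2 ⟨hqf, hqQ⟩) hqn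
  unfold fr
  by_cases h2 : ∀ p ∈ PD Q m, ¬ p ∣ n
  · by_cases h3 : ∀ p ∈ PR Q m, ¬ p ∣ n
    · rw [if_pos h2, if_pos h3, if_pos (h1.2 ⟨h2, h3⟩)]; norm_num
    · rw [if_pos h2, if_neg h3, if_neg (fun h => h3 (h1.1 h).2)]; norm_num
  · rw [if_neg h2, if_neg (fun h => h2 (h1.1 h).1)]; norm_num

lemma fr_per (P : Finset ℕ) (T n : ℕ) (hP : ∀ p ∈ P, p ∣ T) : fr P (n + T) = fr P n := by
  classical
  unfold fr
  have h1 : (∀ p ∈ P, ¬ p ∣ n + T) ↔ (∀ p ∈ P, ¬ p ∣ n) := by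
    constructor
    · intro h p hp h2
      exact h p hp (dvd_add h2 (hP p hp))
    · intro h p hp h2
      exact h p hp ((Nat.dvd_add_left (hP p hp)).1 h2)
  by_cases h2 : ∀ p ∈ P, ¬ p ∣ n
  · rw [if_pos h2, if_pos (h1.2 h2)]
  · rw [if_neg h2, if_neg (fun h => h2 (h1.1 h))]

lemma indep (Q m : ℕ) (c : ℕ → ℕ → ℝ) (hm : 0 < m) :
    ∑ n ∈ range (Q.factorial * m), wt Q c n * (if n.Coprime m then 1 else 0) =
      (Q.factorial * m : ℕ) * (V (PR Q m) * muD Q m c) := by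
  classical
  obtain ⟨F, hF⟩ : ∃ F, F = Q.factorial := ⟨_, rfl⟩
  have hF0 : 0 < F := by rw [hF]; exact Nat.factorial_pos _
  have hPR : ∀ p ∈ PR Q m, p.Prime := fun p hp => (Nat.mem_primeFactors.1 (mem_filter.1 hp).1).1
  obtain ⟨R, hR⟩ : ∃ R, R = ∏ p ∈ PR Q m, p := ⟨_, rfl⟩
  have hRm : R ∣ m := by
    rw [hR]
    apply Finset.prod_primes_dvd
    · intro p hp; exact (hPR p hp).prime
    · intro p hp
      exact (Nat.mem_primeFactors.1 (mem_filter.1 hp).1).2.1
  obtain ⟨k, hk⟩ := hRm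
  have hcop : ∀ p ∈ PR Q m, F.Coprime p := by
    intro p hp
    rw [Nat.coprime_comm, Nat.Prime.coprime_iff_not_dvd (hPR p hp), hF, (hPR p hp).dvd_factorial]
    exact (mem_filter.1 hp).2
  obtain ⟨g, hg⟩ : ∃ g : ℕ → ℝ, g = fun n => wt Q c n * fr (PD Q m) n := ⟨_, rfl⟩
  have hgper : ∀ n, g (n + F) = g n := by
    intro n
    rw [hg]
    show wt Q c (n + F) * fr (PD Q m) (n + F) = wt Q c n * fr (PD Q m) n
    congr 1
    · unfold wt
      apply sum_congr rfl
      intro d hd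
      obtain ⟨t, ht⟩ := dvdfac Q d hd
      rw [hF, ht, Nat.add_mul_mod_self_left]
    · apply fr_per
      intro p hp
      have h1 := mem_PQ.1 (mem_filter.1 hp).1
      rw [hF]
      exact dvdfac Q p (mem_Icc.2 ⟨h1.1.one_lt.le, h1.2⟩)
  have hgk : ∀ j n, g (n + F * j) = g n := by
    intro j
    induction j with
    | zero => intro n; simp
    | succ j ih =>
      intro n
      rw [mul_add, mul_one, ← add_assoc, hgper, ih]
  have h1 : ∀ n, wt Q c n * (if n.Coprime m then (1 : ℝ) else 0) = g n * fr (PR Q m) n := by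
    intro n
    rw [cop_fr Q m n hm, hg]
    ring
  have h2 : ∑ n ∈ range (F * R), g n * fr (PR Q m) n = (∏ p ∈ PR Q m, ((p : ℝ) - 1)) * ∑ i ∈ range F, g i := by
    rw [sum_split]
    have h3 : ∀ i ∈ range F, ∑ j ∈ range R, g (i + F * j) * fr (PR Q m) (i + F * j) =
        (∏ p ∈ PR Q m, ((p : ℝ) - 1)) * g i := by
      intro i _
      have h4 : ∀ j ∈ range R, g (i + F * j) * fr (PR Q m) (i + F * j) =
          g i * ((({0} : Finset ℕ).filter (fun h' => ∀ p ∈ PR Q m, ¬ p ∣ i + F * j + h')).card : ℝ) := by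
        intro j _
        rw [hgk, filter_singleton]
        congr 1
        unfold fr
        by_cases h5 : ∀ p ∈ PR Q m, ¬ p ∣ i + F * j
        · rw [if_pos h5, if_pos (by rw [add_zero]; exact h5)]; simp
        · rw [if_neg h5, if_neg (by rw [add_zero]; exact h5)]; simp
      rw [sum_congr rfl h4, ← mul_sum, hR, fullavg (PR Q m) {0} i F hPR hcop]
      simp
      ring
    rw [sum_congr rfl h3, mul_sum]
  have h3 : ∑ n ∈ range (F * m), g n * fr (PR Q m) n = k * ∑ n ∈ range (F * R), g n * fr (PR Q m) n := by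
    rw [show F * m = (F * R) * k by rw [hk]; ring]
    apply per_sum (G := fun n => g n * fr (PR Q m) n)
    intro n
    show g (n + F * R) * fr (PR Q m) (n + F * R) = g n * fr (PR Q m) n
    rw [hgk, fr_per]
    intro p hp
    apply Dvd.dvd.mul_left
    rw [hR]
    exact dvd_prod_of_mem (fun p : ℕ => p) hp
  rw [← hF, sum_congr rfl fun n _ => h1 n, h3, h2]
  have h4 : ∏ p ∈ PR Q m, ((p : ℝ) - 1) = R * V (PR Q m) := by
    rw [hR]
    unfold V
    push_cast
    rw [← prod_mul_distrib]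
    apply prod_congr rfl
    intro p hp
    have : (p : ℝ) ≠ 0 := by exact_mod_cast (hPR p hp).ne_zero
    field_simp
  have h5 : ∑ i ∈ range F, g i = F * muD Q m c := by
    unfold muD
    rw [← hF, hg]
    have : (F : ℝ) ≠ 0 := by exact_mod_cast hF0.ne'
    field_simp
  rw [h4, h5, hk]
  push_cast
  ring

end Pool.Agent.Y829.LP
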