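import Pool.Agent.Y829.G4
import Pool.Agent.TH423.SH.PSUa

/-! The Bombieri-Vinogradov theorem for sieve weights. -/

set_option autoImplicit false

namespace Pool.Agent.Y829.RP

open Finset Filter Topology H343E Pool.Agent.TH423.SH.PSUa Pool.Agent.Y829

/-- the weight with the coefficients `c` -/
noncomputable def wt (Q : ℕ) (c : ℕ → ℕ → ℝ) (n : ℕ) : ℝ := ∑ d ∈ Icc 1 Q, c d (n % d)

/-- the size of the coefficients with modulus `d` -/
noncomputable def ss (c : ℕ → ℕ → ℝ) (d : ℕ) : ℝ := ∑ a ∈ range d, |c d a|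

/-- the singular series of the shift `h` -/
noncomputable def GG (Q : ℕ) (c : ℕ → ℕ → ℝ) (h : ℕ) : ℝ :=
  ∑ d ∈ Icc 1 Q, ∑ a ∈ range d, (if (a + h).Coprime d then c d a / (Nat.totient d : ℝ) else 0)

lemma ss_nonneg (c : ℕ → ℕ → ℝ) (d : ℕ) : 0 ≤ ss c d := sum_nonneg fun _ _ => abs_nonneg _

lemma wt_eq (Q : ℕ) (c : ℕ → ℕ → ℝ) (n : ℕ) :
    wt Q c n = ∑ d ∈ Icc 1 Q, ∑ a ∈ range d, c d a * (if n % d = a then 1 else 0) := by
  unfold wt
  apply sum_congr rfl
  intro d hd
  rw [mem_Icc] at hd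
  rw [sum_eq_single (n % d)]
  · simp
  · intro a _ ha
    rw [if_neg (Ne.symm ha), mul_zero]
  · intro h
    exact absurd (mem_range.2 (Nat.mod_lt n (by omega))) h

lemma cnt_pr (X h d a : ℕ) (hd : 0 < d) (ha : a < d) (hdX : d ≤ X) :
    (((Ioc X (2 * X)).filter (fun n => n % d = a ∧ (n + h).Prime)).card : ℝ) =
      if (a + h).Coprime d then piAP (2 * X + h) d ((a + h) % d) - piAP (X + h) d ((a + h) % d) else 0 := by
  have h1 : ((Ioc X (2 * X)).filter (fun n => n % d = a ∧ (n + h).Prime)).card =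
      ((Ioc (X + h) (2 * X + h)).filter (fun p => p.Prime ∧ p ≡ (a + h) % d [MOD d])).card := by
    apply card_nbij' (fun n => n + h) (fun p => p - h)
    · intro n hn
      rw [mem_coe, mem_filter, mem_Ioc] at hn
      rw [mem_coe, mem_filter, mem_Ioc]
      dsimp only
      refine ⟨by omega, hn.2.2, ?_⟩
      have h2 : n ≡ a [MOD d] := by
        show n % d = a % d
        rw [hn.2.1, Nat.mod_eq_of_lt ha]
      exact (h2.add_right h).trans (Nat.mod_modEq _ _).symm
    · intro p hp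
      rw [mem_coe, mem_filter, mem_Ioc] at hp
      rw [mem_coe, mem_filter, mem_Ioc]
      dsimp only
      have h3 : p - h + h = p := by omega
      refine ⟨by omega, ?_, by rw [h3]; exact hp.2.1⟩
      have h2 : p - h + h ≡ a + h [MOD d] := by
        rw [h3]
        exact hp.2.2.trans (Nat.mod_modEq _ _)
      have h4 : p - h ≡ a [MOD d] := Nat.ModEq.add_right_cancel' h h2
      have h5 : (p - h) % d = a % d := h4
      rw [h5, Nat.mod_eq_of_lt ha]
    · intro n _
      show n + h - h = n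
      omega
    · intro p hp
      rw [mem_coe, mem_filter, mem_Ioc] at hp
      show p - h + h = p
      omega
  rw [h1]
  split_ifs with hc
  · unfold piAP
    rw [eq_sub_iff_add_eq]
    have h2 : (Icc 1 (2 * X + h)).filter (fun p => p.Prime ∧ p ≡ (a + h) % d [MOD d]) =
        (Ioc (X + h) (2 * X + h)).filter (fun p => p.Prime ∧ p ≡ (a + h) % d [MOD d]) ∪
        (Icc 1 (X + h)).filter (fun p => p.Prime ∧ p ≡ (a + h) % d [MOD d]) := by
      ext p
      simp only [mem_filter, mem_union, mem_Ioc, mem_Icc]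
      constructor
      · rintro ⟨h3, h4⟩
        by_cases h5 : p ≤ X + h
        · exact Or.inr ⟨⟨h3.1, h5⟩, h4⟩
        · exact Or.inl ⟨⟨by omega, h3.2⟩, h4⟩
      · rintro (⟨h3, h4⟩ | ⟨h3, h4⟩)
        · exact ⟨⟨by omega, h3.2⟩, h4⟩
        · exact ⟨⟨h3.1, by omega⟩, h4⟩
    have h3 : Disjoint ((Ioc (X + h) (2 * X + h)).filter (fun p => p.Prime ∧ p ≡ (a + h) % d [MOD d]))
        ((Icc 1 (X + h)).filter (fun p => p.Prime ∧ p ≡ (a + h) % d [MOD d])) := by
      rw [disjoint_left]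
      intro p hp hp'
      rw [mem_filter, mem_Ioc] at hp
      rw [mem_filter, mem_Icc] at hp'
      omega
    rw [h2, card_union_of_disjoint h3]
    push_cast
    ring
  · have h2 : (Ioc (X + h) (2 * X + h)).filter (fun p => p.Prime ∧ p ≡ (a + h) % d [MOD d]) = ∅ := by
      rw [filter_eq_empty_iff]
      rintro p hp ⟨hpp, hpm⟩
      rw [mem_Ioc] at hp
      rw [Nat.Prime.not_coprime_iff_dvd] at hc
      obtain ⟨q, hq, hqa, hqd⟩ := hc
      have h3 : p ≡ a + h [MOD q] := (hpm.trans (Nat.mod_modEq _ _)).of_dvd hqd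
      have h4 : q ∣ p := (Nat.modEq_zero_iff_dvd).1 (h3.trans ((Nat.modEq_zero_iff_dvd).2 hqa))
      have h5 : q = p := (Nat.prime_dvd_prime_iff_eq hq hpp).1 h4
      have h6 := Nat.le_of_dvd hd hqd
      omega
    rw [h2]
    simp

/-- `Σ d ee(x, d)²` -/
lemma sum_dee : ∃ C : ℝ, 0 < C ∧ ∀ x Q : ℕ, 3 ≤ x → Q ≤ x →
    ∑ d ∈ Icc 1 Q, (d : ℝ) * ee x d ^ 2 ≤ C * (x * Real.log x) * ∑ d ∈ Icc 1 Q, ee x d := by
  obtain ⟨cm, hcm, hmert⟩ := mert
  refine ⟨1 / cm + 1, by positivity, ?_⟩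
  intro x Q hx hQ
  rw [mul_sum]
  apply sum_le_sum
  intro d hd
  rw [mem_Icc] at hd
  have hx0 : (0 : ℝ) < x := by exact_mod_cast (by omega : 0 < x)
  have hL : 1 ≤ Real.log x := by
    rw [Real.le_log_iff_exp_le hx0]
    have := Real.exp_one_lt_d9
    have : (3 : ℝ) ≤ x := by exact_mod_cast hx
    linarith
  have hφ : (0 : ℝ) < Nat.totient d := by exact_mod_cast Nat.totient_pos.mpr (by omega)
  have hd0 : (0 : ℝ) < d := by exact_mod_cast (by omega : 0 < d)
  have h1 : cm / Real.log x ≤ (d.totient : ℝ) / d := by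
    rw [← V_tot (by omega : 0 < d)]
    apply hmert x (by omega)
    intro p hp
    rw [Nat.mem_primeFactors] at hp
    exact ⟨hp.1, (Nat.le_of_dvd (by omega) hp.2.1).trans (by omega)⟩
  have h2 : (d : ℝ) * (x / (Nat.totient d : ℝ)) ≤ x * Real.log x / cm := by
    rw [div_le_div_iff₀ (by linarith) hd0] at h1
    rw [mul_div_assoc', div_le_div_iff₀ hφ hcm]
    calc (d : ℝ) * x * cm = (cm * d) * x := by ring
      _ ≤ ((d.totient : ℝ) * Real.log x) * x := mul_le_mul_of_nonneg_right h1 hx0.le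
      _ = _ := by ring
  have h3 := ee_le x d hd.1
  have h4 := ee_nonneg x d
  have h5 : (d : ℝ) * ee x d ≤ (1 / cm + 1) * (x * Real.log x) := by
    have h6 : (d : ℝ) * ee x d ≤ d * (x / (Nat.totient d : ℝ) + 1) := mul_le_mul_of_nonneg_left h3 hd0.le
    have h7 : (d : ℝ) ≤ x := by exact_mod_cast hd.2.trans hQ
    have h8 : (x : ℝ) ≤ x * Real.log x := by nlinarith
    have e1 : (1 / cm + 1) * (x * Real.log x) = x * Real.log x / cm + x * Real.log x := by ring
    rw [e1]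
    rw [mul_add, mul_one] at h6
    linarith
  calc (d : ℝ) * ee x d ^ 2 = (d * ee x d) * ee x d := by ring
    _ ≤ _ := mul_le_mul_of_nonneg_right h5 h4

/-- Bombieri-Vinogradov with the sizes of the coefficients -/
theorem bvs (K K' : ℕ) : ∃ B X0 : ℕ, ∀ X : ℕ, X0 ≤ X → ∀ Q : ℕ, 1 ≤ Q → (Q : ℝ) ^ 2 * Real.log X ^ B ≤ X →
    ∀ c : ℕ → ℕ → ℝ, ∑ d ∈ Icc 1 Q, ss c d ^ 2 / d ≤ Real.log X ^ K →
    ∀ x : ℕ, X ≤ x → x ≤ 3 * X → ∑ d ∈ Icc 1 Q, ss c d * ee x d ≤ X / Real.log X ^ K' := by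
  obtain ⟨C, hC, hdee⟩ := sum_dee
  set U : ℕ := K + 2 * K' + 2 with hU
  obtain ⟨B0, x0, hBV⟩ := primes_of U (unsmoothed (U + 2))
  have hlog : Tendsto (fun n : ℕ => Real.log (n : ℝ)) atTop atTop :=
    Real.tendsto_log_atTop.comp tendsto_natCast_atTop_atTop
  obtain ⟨X1, hX1⟩ := (hlog.eventually_ge_atTop (max (2 ^ B0) (9 * C) + 2)).exists_forall_of_atTop
  refine ⟨B0 + 1, max (max x0 3) X1, ?_⟩
  intro X hX Q hQ hQX c hc x hxX hx3
  have hx0 : x0 ≤ x := ((le_max_left _ _).trans ((le_max_left _ _).trans hX)).trans hxX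
  have hX3 : 3 ≤ X := (le_max_right _ _).trans ((le_max_left _ _).trans hX)
  have hL := hX1 X ((le_max_right _ _).trans hX)
  set L := Real.log (X : ℝ) with hLd
  have hL2 : 2 ^ B0 ≤ L := by
    have := le_max_left ((2 : ℝ) ^ B0) (9 * C)
    linarith
  have hLC : 9 * C ≤ L := by
    have := le_max_right ((2 : ℝ) ^ B0) (9 * C)
    linarith
  have hLge2 : 2 ≤ L := by
    have h1 : (0 : ℝ) ≤ max ((2 : ℝ) ^ B0) (9 * C) := le_trans (by positivity) (le_max_left _ _)
    linarith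
  have hL0 : 0 < L := by linarith
  have hXr : (0 : ℝ) < X := by exact_mod_cast (by omega : 0 < X)
  have hxr : (0 : ℝ) < x := by exact_mod_cast (by omega : 0 < x)
  have hxX' : (X : ℝ) ≤ x := by exact_mod_cast hxX
  have hx3' : (x : ℝ) ≤ 3 * X := by exact_mod_cast hx3
  have hlx : L ≤ Real.log x := Real.log_le_log hXr hxX'
  have hlx2 : Real.log x ≤ 2 * L := by
    have h1 := Real.log_le_log hxr hx3'
    rw [Real.log_mul (by norm_num) hXr.ne'] at h1
    have h2 : Real.log 3 ≤ 2 := by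
      have := Real.log_le_sub_one_of_pos (show (0 : ℝ) < 3 by norm_num)
      linarith
    linarith
  have hlx0 : 0 < Real.log x := by linarith
  have hQr : (1 : ℝ) ≤ Q := by exact_mod_cast hQ
  have hQ2 : (Q : ℝ) ^ 2 ≤ x / Real.log x ^ B0 := by
    rw [le_div_iff₀ (by positivity)]
    have h1 : Real.log x ^ B0 ≤ L ^ (B0 + 1) := by
      calc Real.log x ^ B0 ≤ (2 * L) ^ B0 := pow_le_pow_left₀ hlx0.le hlx2 _
        _ = 2 ^ B0 * L ^ B0 := mul_pow _ _ _
        _ ≤ L * L ^ B0 := mul_le_mul_of_nonneg_right hL2 (by positivity)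
        _ = _ := by ring
    calc (Q : ℝ) ^ 2 * Real.log x ^ B0 ≤ (Q : ℝ) ^ 2 * L ^ (B0 + 1) :=
          mul_le_mul_of_nonneg_left h1 (by positivity)
      _ ≤ X := hQX
      _ ≤ x := hxX'
  have hQQ : (Q : ℝ) ≤ (Q : ℝ) ^ 2 := by nlinarith
  have hQx : Q ≤ x := by
    have h1 : (Q : ℝ) ≤ x := by
      refine (hQQ.trans hQ2).trans ?_
      rw [div_le_iff₀ (by positivity)]
      have : (1 : ℝ) ≤ Real.log x ^ B0 := one_le_pow₀ (by linarith)
      nlinarith
    exact_mod_cast h1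
  have hbv : ∑ d ∈ Icc 1 Q, ee x d ≤ x / Real.log x ^ U := by
    have h1 := hBV x hx0 1 le_rfl Q (hQQ.trans hQ2) (by rw [one_mul]; exact hQ2) (LL x) (LL_fam x)
    rw [one_mul] at h1
    exact h1
  have hd := hdee x Q (by omega) hQx
  set T : ℝ := L ^ (K + K') / X with hT
  have hT0 : 0 < T := by positivity
  have h1 : ∀ d ∈ Icc 1 Q, ss c d * ee x d ≤ (1 / 2) * ((ss c d ^ 2 / d) / T) + (1 / 2) * (T * (d * ee x d ^ 2)) := by
    intro d hd
    rw [mem_Icc] at hd
    have hd0 : (0 : ℝ) < d := by exact_mod_cast (by omega : 0 < d)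
    have h2 : 0 ≤ (ss c d / (d * T) - ee x d) ^ 2 * (T * d) := by positivity
    have h3 : (ss c d / (d * T) - ee x d) ^ 2 * (T * d) =
        (ss c d ^ 2 / d) / T + T * (d * ee x d ^ 2) - 2 * (ss c d * ee x d) := by
      field_simp
      ring
    linarith
  refine (sum_le_sum h1).trans ?_
  rw [sum_add_distrib, ← mul_sum, ← mul_sum, ← sum_div, ← mul_sum]
  have h2 : (∑ d ∈ Icc 1 Q, ss c d ^ 2 / d) / T ≤ X / L ^ K' := by
    rw [div_le_div_iff₀ hT0 (by positivity)]
    have h3 := mul_le_mul_of_nonneg_right hc (show 0 ≤ L ^ K' by positivity)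
    refine h3.trans (le_of_eq ?_)
    rw [hT, pow_add]
    field_simp
  have h3 : T * ∑ d ∈ Icc 1 Q, (d : ℝ) * ee x d ^ 2 ≤ X / L ^ K' := by
    have h4 : ∑ d ∈ Icc 1 Q, (d : ℝ) * ee x d ^ 2 ≤ C * (x * Real.log x) * (x / Real.log x ^ U) :=
      hd.trans (mul_le_mul_of_nonneg_left hbv (by positivity))
    have h5 : C * (x * Real.log x) * (x / Real.log x ^ U) ≤ 9 * C * X ^ 2 / L ^ (U - 1) := by
      have e1 : Real.log x ^ U = Real.log x ^ (U - 1) * Real.log x := by
        rw [← pow_succ]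
        congr 1
      have e2 : C * (x * Real.log x) * (x / Real.log x ^ U) = C * (x : ℝ) ^ 2 / Real.log x ^ (U - 1) := by
        rw [e1]
        field_simp
      rw [e2]
      apply div_le_div₀ (by positivity) _ (by positivity)
      · exact pow_le_pow_left₀ hL0.le hlx _
      · have h6 : (x : ℝ) ^ 2 ≤ (3 * X) ^ 2 := pow_le_pow_left₀ hxr.le hx3' 2
        calc C * (x : ℝ) ^ 2 ≤ C * (3 * X) ^ 2 := mul_le_mul_of_nonneg_left h6 hC.le
          _ = _ := by ring
    refine (mul_le_mul_of_nonneg_left (h4.trans h5) hT0.le).trans ?_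
    rw [hT, hU]
    have e3 : L ^ (K + K') / X * (9 * C * X ^ 2 / L ^ (K + 2 * K' + 2 - 1)) = (9 * C) * X / (L ^ K' * L) := by
      have : K + 2 * K' + 2 - 1 = (K + K') + K' + 1 := by omega
      have e4 : L ^ ((K + K') + K' + 1) = L ^ (K + K') * (L ^ K' * L) := by ring
      rw [this, e4]
      field_simp
    rw [e3, div_le_div_iff₀ (by positivity) (by positivity)]
    have h6 := mul_le_mul_of_nonneg_right hLC (show 0 ≤ (X : ℝ) * L ^ K' by positivity)
    linarith
  linarith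

/-- primes in the shifted window, with a sieve weight -/
theorem shift_pr (K K' : ℕ) : ∃ B X0 : ℕ, ∀ X : ℕ, X0 ≤ X → ∀ Q : ℕ, 1 ≤ Q → (Q : ℝ) ^ 2 * Real.log X ^ B ≤ X →
    ∀ c : ℕ → ℕ → ℝ, ∑ d ∈ Icc 1 Q, ss c d ^ 2 / d ≤ Real.log X ^ K →
    ∀ h : ℕ, h ≤ X → |∑ n ∈ Ioc X (2 * X), wt Q c n * (if (n + h).Prime then 1 else 0) -
      (pi1 (2 * X + h) - pi1 (X + h)) * GG Q c h| ≤ 2 * (X / Real.log X ^ K') := by
  obtain ⟨B, X0, hb⟩ := bvs K K'
  refine ⟨B, max X0 3, ?_⟩
  intro X hX Q hQ hQX c hc h hhX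
  have hX0 : X0 ≤ X := (le_max_left _ _).trans hX
  have hX3 : 3 ≤ X := (le_max_right _ _).trans hX
  have hb1 := hb X hX0 Q hQ hQX c hc (X + h) (by omega) (by omega)
  have hb2 := hb X hX0 Q hQ hQX c hc (2 * X + h) (by omega) (by omega)
  have hXr : (0 : ℝ) < X := by exact_mod_cast (by omega : 0 < X)
  have hL1 : 1 ≤ Real.log X := by
    rw [Real.le_log_iff_exp_le hXr]
    have := Real.exp_one_lt_d9
    have : (3 : ℝ) ≤ X := by exact_mod_cast hX3
    linarith
  have hQleX : Q ≤ X := by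
    have hQr : (1 : ℝ) ≤ Q := by exact_mod_cast hQ
    have h1 : (1 : ℝ) ≤ Real.log X ^ B := one_le_pow₀ hL1
    have h2 : (Q : ℝ) ≤ X := by nlinarith
    exact_mod_cast h2
  have e1 : ∑ n ∈ Ioc X (2 * X), wt Q c n * (if (n + h).Prime then 1 else 0) =
      ∑ d ∈ Icc 1 Q, ∑ a ∈ range d, c d a *
        (((Ioc X (2 * X)).filter (fun n => n % d = a ∧ (n + h).Prime)).card : ℝ) := by
    have h1 : ∀ n ∈ Ioc X (2 * X), wt Q c n * (if (n + h).Prime then 1 else 0) =
        ∑ d ∈ Icc 1 Q, ∑ a ∈ range d, c d a * (if n % d = a ∧ (n + h).Prime then 1 else 0) := by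
      intro n _
      rw [wt_eq, sum_mul]
      apply sum_congr rfl
      intro d _
      rw [sum_mul]
      apply sum_congr rfl
      intro a _
      by_cases h2 : n % d = a <;> by_cases h3 : (n + h).Prime <;> simp [h2, h3]
    rw [sum_congr rfl h1, sum_comm]
    apply sum_congr rfl
    intro d _
    rw [sum_comm]
    apply sum_congr rfl
    intro a _
    rw [← mul_sum, card_filter]
    push_cast
    rfl
  rw [e1]
  unfold GG
  rw [mul_sum, ← sum_sub_distrib]
  refine (abs_sum_le_sum_abs _ _).trans ?_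
  have key : ∀ d ∈ Icc 1 Q, |∑ a ∈ range d, c d a *
        (((Ioc X (2 * X)).filter (fun n => n % d = a ∧ (n + h).Prime)).card : ℝ) -
        (pi1 (2 * X + h) - pi1 (X + h)) * ∑ a ∈ range d, (if (a + h).Coprime d then c d a / (Nat.totient d : ℝ) else 0)| ≤
      ss c d * ee (2 * X + h) d + ss c d * ee (X + h) d := by
    intro d hd
    rw [mem_Icc] at hd
    rw [mul_sum, ← sum_sub_distrib]
    refine (abs_sum_le_sum_abs _ _).trans ?_
    unfold ss
    rw [sum_mul, sum_mul, ← sum_add_distrib]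
    apply sum_le_sum
    intro a ha
    rw [mem_range] at ha
    rw [cnt_pr X h d a (by omega) ha (by omega)]
    split_ifs with hcop
    · have hlt : (a + h) % d < d := Nat.mod_lt _ (by omega)
      have hco : ((a + h) % d).Coprime d := by
        rw [Nat.Coprime, ← Nat.gcd_rec, Nat.gcd_comm]
        exact hcop
      have h1 := FF_le_ee (2 * X + h) d ((a + h) % d) hlt hco
      have h2 := FF_le_ee (X + h) d ((a + h) % d) hlt hco
      unfold FF at h1 h2
      have e2 : c d a * (piAP (2 * X + h) d ((a + h) % d) - piAP (X + h) d ((a + h) % d)) -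
          (pi1 (2 * X + h) - pi1 (X + h)) * (c d a / (Nat.totient d : ℝ)) =
          c d a * ((piAP (2 * X + h) d ((a + h) % d) - pi1 (2 * X + h) / (Nat.totient d : ℝ)) -
            (piAP (X + h) d ((a + h) % d) - pi1 (X + h) / (Nat.totient d : ℝ))) := by ring
      rw [e2, abs_mul, ← mul_add]
      apply mul_le_mul_of_nonneg_left _ (abs_nonneg _)
      refine (abs_sub _ _).trans ?_
      linarith
    · simp only [mul_zero, sub_zero, abs_zero]
      have := ee_nonneg (2 * X + h) d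
      have := ee_nonneg (X + h) d
      positivity
  refine (sum_le_sum key).trans ?_
  rw [sum_add_distrib]
  linarith

end Pool.Agent.Y829.RP
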