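import Pool.Agent.Y829.RP1

/-! The singular series as a mean value over a period. -/

set_option autoImplicit false

namespace Pool.Agent.Y829.RP

open Finset Filter Topology Pool.Agent.Y829

/-- the primes up to `Q` -/
def PQ (Q : ℕ) : Finset ℕ := (Icc 1 Q).filter Nat.Prime

lemma mem_PQ {Q p : ℕ} : p ∈ PQ Q ↔ p.Prime ∧ p ≤ Q := by
  unfold PQ
  rw [mem_filter, mem_Icc]
  constructor
  · rintro ⟨h1, h2⟩; exact ⟨h2, h1.2⟩
  · rintro ⟨h1, h2⟩; exact ⟨⟨h1.one_lt.le, h2⟩, h1⟩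

/-- the number of `n` of the class `a` mod `d` in a period with `n + h` free of primes `≤ Q` -/
lemma modelid (Q N d a h : ℕ) (hN : 0 < N) (hdN : ∀ d ∈ Icc 1 Q, d ∣ N) (hd : 0 < d) (hdQ : d ≤ Q) (ha : a < d) :
    (((range N).filter (fun n => n % d = a ∧ ∀ p ∈ PQ Q, ¬ p ∣ n + h)).card : ℝ) =
      if (a + h).Coprime d then N * V (PQ Q) / (Nat.totient d : ℝ) else 0 := by
  classical
  split_ifs with hc
  · set P2 := (PQ Q).filter (fun p => ¬ p ∣ d) with hP2
    have hP2p : ∀ p ∈ P2, p.Prime := fun p hp => (mem_PQ.1 (mem_filter.1 hp).1).1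
    have hP2c : ∀ p ∈ P2, d.Coprime p := by
      intro p hp
      rw [Nat.coprime_comm, Nat.Prime.coprime_iff_not_dvd (hP2p p hp)]
      exact (mem_filter.1 hp).2
    set D := ∏ p ∈ P2, p with hD
    have hDN : D ∣ N := by
      apply Finset.prod_primes_dvd
      · intro p hp; exact (hP2p p hp).prime
      · intro p hp
        have h1 := mem_PQ.1 (mem_filter.1 hp).1
        exact hdN p (mem_Icc.2 ⟨h1.1.one_lt.le, h1.2⟩)
    have hdD : d.Coprime D := Nat.Coprime.prod_right hP2c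
    obtain ⟨k, hk⟩ := hdD.mul_dvd_of_dvd_of_dvd (hdN d (mem_Icc.2 ⟨hd, hdQ⟩)) hDN
    have hpf : (PQ Q).filter (fun p => p ∣ d) = d.primeFactors := by
      ext p
      rw [mem_filter, mem_PQ, Nat.mem_primeFactors]
      constructor
      · rintro ⟨h1, h2⟩; exact ⟨h1.1, h2, by omega⟩
      · rintro ⟨h1, h2, _⟩; exact ⟨⟨h1, (Nat.le_of_dvd hd h2).trans hdQ⟩, h2⟩
    have hVV : V (PQ Q) = V P2 * ((d.totient : ℝ) / d) := by
      rw [← V_tot hd, ← hpf, hP2]
      unfold V
      rw [mul_comm]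
      exact (prod_filter_mul_prod_filter_not _ _ _).symm
    have h1 : (((range N).filter (fun n => n % d = a ∧ ∀ p ∈ PQ Q, ¬ p ∣ n + h)).card : ℝ) =
        k * ∏ p ∈ P2, ((p : ℝ) - 1) := by
      rw [card_filter]
      push_cast
      rw [show N = d * (D * k) by rw [hk]; ring, sum_split]
      rw [sum_eq_single a]
      · have h2 : ∀ j ∈ range (D * k), (if (a + d * j) % d = a ∧ ∀ p ∈ PQ Q, ¬ p ∣ a + d * j + h then (1 : ℝ) else 0) =
            ((({0} : Finset ℕ).filter (fun h' => ∀ p ∈ P2, ¬ p ∣ (a + h) + d * j + h')).card : ℝ) := by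
          intro j _
          have e1 : (a + d * j) % d = a := by
            rw [Nat.add_mul_mod_self_left, Nat.mod_eq_of_lt ha]
          have e2 : a + d * j + h = (a + h) + d * j + 0 := by ring
          rw [e1, filter_singleton]
          have h3 : (∀ p ∈ PQ Q, ¬ p ∣ a + d * j + h) ↔ ∀ p ∈ P2, ¬ p ∣ (a + h) + d * j + 0 := by
            rw [e2]
            constructor
            · intro h4 p hp
              exact h4 p (mem_filter.1 hp).1
            · intro h4 p hp
              by_cases hpd : p ∣ d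
              · intro h5
                have h6 : p ∣ a + h := by
                  have e3 : a + h + d * j + 0 = (a + h) + d * j := by ring
                  rw [e3] at h5
                  exact (Nat.dvd_add_left (hpd.trans (Dvd.intro _ rfl))).1 h5
                have h7 := Nat.dvd_gcd h6 hpd
                rw [Nat.coprime_iff_gcd_eq_one.1 hc] at h7
                exact (mem_PQ.1 hp).1.one_lt.ne' (Nat.dvd_one.1 h7)
              · exact h4 p (mem_filter.2 ⟨hp, hpd⟩)
          by_cases h4 : ∀ p ∈ P2, ¬ p ∣ (a + h) + d * j + 0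
          · rw [if_pos ⟨rfl, h3.2 h4⟩, if_pos h4]; simp
          · rw [if_neg (fun h5 => h4 (h3.1 h5.2)), if_neg h4]; simp
        rw [sum_congr rfl h2, per_sum (G := fun j => ((({0} : Finset ℕ).filter (fun h' => ∀ p ∈ P2, ¬ p ∣ (a + h) + d * j + h')).card : ℝ)) (T := D)]
        · rw [fullavg P2 {0} (a + h) d hP2p hP2c]
          simp
        · intro j
          show ((({0} : Finset ℕ).filter (fun h' => ∀ p ∈ P2, ¬ p ∣ (a + h) + d * (j + D) + h')).card : ℝ) =
            ((({0} : Finset ℕ).filter (fun h' => ∀ p ∈ P2, ¬ p ∣ (a + h) + d * j + h')).card : ℝ)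
          refine congrArg Nat.cast (congrArg card ?_)
          apply filter_congr
          intro h' _
          have h4 : ∀ p ∈ P2, (p ∣ (a + h) + d * (j + D) + h' ↔ p ∣ (a + h) + d * j + h') := by
            intro p hp
            have e4 : (a + h) + d * (j + D) + h' = ((a + h) + d * j + h') + d * D := by ring
            rw [e4]
            exact Nat.dvd_add_left ((dvd_prod_of_mem (fun x : ℕ => x) hp).trans (Dvd.intro_left _ rfl))
          constructor
          · intro h5 p hp h6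
            exact h5 p hp ((h4 p hp).2 h6)
          · intro h5 p hp h6
            exact h5 p hp ((h4 p hp).1 h6)
      · intro i hi hia
        apply sum_eq_zero
        intro j _
        rw [if_neg]
        rintro ⟨h2, _⟩
        rw [Nat.add_mul_mod_self_left, Nat.mod_eq_of_lt (mem_range.1 hi)] at h2
        exact hia h2
      · intro h2
        exact absurd (mem_range.2 ha) h2
    rw [h1, hVV]
    have hV2 : ∏ p ∈ P2, ((p : ℝ) - 1) = D * V P2 := by
      rw [hD]
      unfold V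
      push_cast
      rw [← prod_mul_distrib]
      apply prod_congr rfl
      intro p hp
      have : (p : ℝ) ≠ 0 := by exact_mod_cast (hP2p p hp).ne_zero
      field_simp
    rw [hV2, hk]
    have hφ : (d.totient : ℝ) ≠ 0 := by exact_mod_cast (Nat.totient_pos.2 hd).ne'
    have hd0 : (d : ℝ) ≠ 0 := by exact_mod_cast hd.ne'
    push_cast
    field_simp
  · have h1 : (range N).filter (fun n => n % d = a ∧ ∀ p ∈ PQ Q, ¬ p ∣ n + h) = ∅ := by
      rw [filter_eq_empty_iff]
      rintro n _ ⟨h2, h3⟩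
      rw [Nat.Prime.not_coprime_iff_dvd] at hc
      obtain ⟨q, hq, hqa, hqd⟩ := hc
      apply h3 q (mem_PQ.2 ⟨hq, (Nat.le_of_dvd hd hqd).trans hdQ⟩)
      have h4 : n ≡ a [MOD d] := by
        show n % d = a % d
        rw [h2, Nat.mod_eq_of_lt ha]
      have h5 : n + h ≡ a + h [MOD q] := (h4.of_dvd hqd).add_right h
      exact (Nat.modEq_zero_iff_dvd).1 (h5.trans ((Nat.modEq_zero_iff_dvd).2 hqa))
    rw [h1]
    simp

/-- the mean value of the weight -/
noncomputable def mu (Q : ℕ) (c : ℕ → ℕ → ℝ) : ℝ := ∑ d ∈ Icc 1 Q, ∑ a ∈ range d, c d a / (d : ℝ)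

lemma sum_wt_free (Q N h : ℕ) (c : ℕ → ℕ → ℝ) (hN : 0 < N) (hdN : ∀ d ∈ Icc 1 Q, d ∣ N) :
    ∑ n ∈ range N, wt Q c n * (if (∀ p ∈ PQ Q, ¬ p ∣ n + h) then 1 else 0) = N * V (PQ Q) * GG Q c h := by
  classical
  have h1 : ∀ n ∈ range N, wt Q c n * (if (∀ p ∈ PQ Q, ¬ p ∣ n + h) then (1 : ℝ) else 0) =
      ∑ d ∈ Icc 1 Q, ∑ a ∈ range d, c d a * (if n % d = a ∧ (∀ p ∈ PQ Q, ¬ p ∣ n + h) then 1 else 0) := by
    intro n _
    rw [wt_eq, sum_mul]
    apply sum_congr rfl
    intro d _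
    rw [sum_mul]
    apply sum_congr rfl
    intro a _
    by_cases h2 : n % d = a <;> by_cases h3 : (∀ p ∈ PQ Q, ¬ p ∣ n + h) <;> simp only [h2, h3] <;> simp
  rw [sum_congr rfl h1, sum_comm]
  unfold GG
  rw [mul_sum]
  apply sum_congr rfl
  intro d hd
  rw [mem_Icc] at hd
  rw [sum_comm, mul_sum]
  apply sum_congr rfl
  intro a ha
  have h2 := modelid Q N d a h hN hdN (by omega) hd.2 (mem_range.1 ha)
  rw [← mul_sum]
  have h3 : ∑ n ∈ range N, (if n % d = a ∧ (∀ p ∈ PQ Q, ¬ p ∣ n + h) then (1 : ℝ) else 0) =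
      (((range N).filter (fun n => n % d = a ∧ ∀ p ∈ PQ Q, ¬ p ∣ n + h)).card : ℝ) := by
    rw [card_filter]
    push_cast
    rfl
  rw [h3, h2]
  split_ifs
  · ring
  · ring

lemma cnt_class (N d a : ℕ) (hd : 0 < d) (ha : a < d) (hdN : d ∣ N) :
    ((range N).filter (fun n => n % d = a)).card = N / d := by
  obtain ⟨k, hk⟩ := hdN
  have h1 : (((range N).filter (fun n => n % d = a)).card : ℝ) = k := by
    rw [card_filter]
    push_cast
    rw [hk, sum_split, sum_eq_single a]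
    · have h2 : ∀ j ∈ range k, (if (a + d * j) % d = a then (1 : ℝ) else 0) = 1 := by
        intro j _
        rw [Nat.add_mul_mod_self_left, Nat.mod_eq_of_lt ha, if_pos rfl]
      rw [sum_congr rfl h2]
      simp
    · intro i hi hia
      apply sum_eq_zero
      intro j _
      rw [if_neg]
      rw [Nat.add_mul_mod_self_left, Nat.mod_eq_of_lt (mem_range.1 hi)]
      exact hia
    · intro h2
      exact absurd (mem_range.2 ha) h2
  have h2 : ((range N).filter (fun n => n % d = a)).card = k := by exact_mod_cast h1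
  rw [h2, hk, Nat.mul_div_cancel_left _ hd]

lemma sum_wt (Q N : ℕ) (c : ℕ → ℕ → ℝ) (hdN : ∀ d ∈ Icc 1 Q, d ∣ N) :
    ∑ n ∈ range N, wt Q c n = N * mu Q c := by
  have h1 : ∀ n ∈ range N, wt Q c n = ∑ d ∈ Icc 1 Q, ∑ a ∈ range d, c d a * (if n % d = a then 1 else 0) :=
    fun n _ => wt_eq Q c n
  rw [sum_congr rfl h1, sum_comm]
  unfold mu
  rw [mul_sum]
  apply sum_congr rfl
  intro d hd
  rw [sum_comm, mul_sum]
  apply sum_congr rfl
  intro a ha
  have hd1 := (mem_Icc.1 hd).1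
  have h2 := cnt_class N d a hd1 (mem_range.1 ha) (hdN d hd)
  rw [← mul_sum]
  have h3 : ∑ n ∈ range N, (if n % d = a then (1 : ℝ) else 0) = ((N / d : ℕ) : ℝ) := by
    rw [← h2, card_filter]
    push_cast
    rfl
  rw [h3, Nat.cast_div (hdN d hd) (by exact_mod_cast (by omega : d ≠ 0))]
  ring

/-- the sum of the weight over a dyadic interval -/
lemma sum_dy (Q X : ℕ) (c : ℕ → ℕ → ℝ) :
    |∑ n ∈ Ioc X (2 * X), wt Q c n - X * mu Q c| ≤ ∑ d ∈ Icc 1 Q, ss c d := by
  have h1 : ∀ n ∈ Ioc X (2 * X), wt Q c n = ∑ d ∈ Icc 1 Q, ∑ a ∈ range d, c d a * (if n % d = a then 1 else 0) :=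
    fun n _ => wt_eq Q c n
  rw [sum_congr rfl h1, sum_comm]
  unfold mu
  rw [mul_sum, ← sum_sub_distrib]
  refine (abs_sum_le_sum_abs _ _).trans (sum_le_sum ?_)
  intro d hd
  have hd1 := (mem_Icc.1 hd).1
  rw [sum_comm, mul_sum, ← sum_sub_distrib]
  refine (abs_sum_le_sum_abs _ _).trans (sum_le_sum ?_)
  intro a ha
  rw [← mul_sum]
  have h3 : ∑ n ∈ Ioc X (2 * X), (if n % d = a then (1 : ℝ) else 0) =
      (((Ico (X + 1) (2 * X + 1)).filter (fun n => n ≡ a [MOD d])).card : ℝ) := by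
    rw [card_filter]
    push_cast
    have e1 : Ioc X (2 * X) = Ico (X + 1) (2 * X + 1) := by
      ext n
      rw [mem_Ioc, mem_Ico]
      omega
    rw [e1]
    apply sum_congr rfl
    intro n _
    have e2 : (n % d = a) ↔ (n ≡ a [MOD d]) := by
      unfold Nat.ModEq
      rw [Nat.mod_eq_of_lt (mem_range.1 ha)]
    simp only [e2]
  rw [h3]
  have h4 := cnt_mod (X + 1) (2 * X + 1) d a (by omega) (by omega)
  have h5 : (((2 * X + 1 : ℕ) : ℝ) - ((X + 1 : ℕ) : ℝ)) / (d : ℝ) = (X : ℝ) / d := by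
    push_cast
    congr 1
    ring
  rw [h5] at h4
  have e3 : c d a * (((Ico (X + 1) (2 * X + 1)).filter (fun n => n ≡ a [MOD d])).card : ℝ) - X * (c d a / (d : ℝ)) =
      c d a * ((((Ico (X + 1) (2 * X + 1)).filter (fun n => n ≡ a [MOD d])).card : ℝ) - X / d) := by ring
  rw [e3, abs_mul]
  calc |c d a| * _ ≤ |c d a| * 1 := mul_le_mul_of_nonneg_left h4 (abs_nonneg _)
    _ = |c d a| := mul_one _

lemma wt_lev (Q : ℕ) (c : ℕ → ℕ → ℝ) : Lev Q (wt Q c) := by
  refine ⟨fun d n => c d (n % d), ?_, fun n => rfl⟩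
  intro d n
  show c d ((n + d) % d) = c d (n % d)
  rw [Nat.add_mod_right]

/-- the sum of the singular series -/
lemma sum_GG (Q U N : ℕ) (c : ℕ → ℕ → ℝ) (hN : 0 < N) (hdN : ∀ d ∈ Icc 1 Q, d ∣ N) :
    ∑ n ∈ range N, wt Q c n * SO (fun _ => {0}) (PQ Q) U n = N * V (PQ Q) * ∑ h ∈ Icc 1 U, GG Q c h := by
  classical
  have h1 : ∀ n, SO (fun _ => {0}) (PQ Q) U n = ∑ h ∈ Icc 1 U, (if (∀ p ∈ PQ Q, ¬ p ∣ n + h) then (1 : ℝ) else 0) := by
    intro n
    unfold SO
    rw [card_filter]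
    push_cast
    apply sum_congr rfl
    intro h _
    have e1 : (∀ p ∈ PQ Q, (n + h) % p ∉ ({0} : Finset ℕ)) ↔ (∀ p ∈ PQ Q, ¬ p ∣ n + h) := by
      constructor
      · intro h2 p hp h3
        exact h2 p hp (mem_singleton.2 (Nat.mod_eq_zero_of_dvd h3))
      · intro h2 p hp h3
        exact h2 p hp (Nat.dvd_of_mod_eq_zero (mem_singleton.1 h3))
    by_cases h4 : (∀ p ∈ PQ Q, ¬ p ∣ n + h)
    · rw [if_pos (e1.2 h4), if_pos h4]
    · rw [if_neg (fun h5 => h4 (e1.1 h5)), if_neg h4]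
  have h2 : ∀ n ∈ range N, wt Q c n * SO (fun _ => {0}) (PQ Q) U n =
      ∑ h ∈ Icc 1 U, wt Q c n * (if (∀ p ∈ PQ Q, ¬ p ∣ n + h) then (1 : ℝ) else 0) := by
    intro n _
    rw [h1, mul_sum]
  rw [sum_congr rfl h2, sum_comm, mul_sum]
  apply sum_congr rfl
  intro h _
  exact sum_wt_free Q N h c hN hdN

lemma GG_nonneg (Q h : ℕ) (c : ℕ → ℕ → ℝ) (hw : ∀ n, 0 ≤ wt Q c n) : 0 ≤ GG Q c h := by
  classical
  set N := Q.factorial with hNd
  have hN : 0 < N := Nat.factorial_pos _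
  have hdN : ∀ d ∈ Icc 1 Q, d ∣ N := by
    intro d hd
    rw [mem_Icc] at hd
    exact Nat.dvd_factorial (by omega) hd.2
  have h1 := sum_wt_free Q N h c hN hdN
  have h2 : 0 ≤ N * V (PQ Q) * GG Q c h := by
    rw [← h1]
    apply sum_nonneg
    intro n _
    apply mul_nonneg (hw n)
    split_ifs <;> norm_num
  have h3 : 0 < (N : ℝ) * V (PQ Q) := by
    have := V_pos (P := PQ Q) (fun p hp => (mem_PQ.1 hp).1)
    have : (0 : ℝ) < N := by exact_mod_cast hN
    positivity
  exact nonneg_of_mul_nonneg_right h2 h3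

end Pool.Agent.Y829.RP
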