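import Pool.Agent.Y829.RP2
import Pool.Agent.Helper507.PNT

/-! Primes in short intervals, on average with respect to a sieve weight. -/

set_option autoImplicit false

namespace Pool.Agent.Y829.RP

open Finset Filter Topology Pool.Agent.Y829
open H343E (pi1)

lemma pi1_eq (x : ℕ) : pi1 x = Nat.primeCounting x := by
  unfold pi1
  rw [Nat.primeCounting, Nat.primeCounting', Nat.count_eq_card_filter_range]
  congr 2
  ext p
  simp only [mem_filter, mem_Icc, mem_range]
  constructor
  · rintro ⟨⟨h1, h2⟩, h3⟩; exact ⟨by omega, h3⟩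
  · rintro ⟨h1, h2⟩; exact ⟨⟨h2.one_le, by omega⟩, h2⟩

lemma pi_tend : Tendsto (fun x : ℕ => pi1 x * Real.log x / x) atTop (𝓝 1) := by
  have h := Pool.Agent.Helper507.PNT.pi_tendsto.comp (tendsto_natCast_atTop_atTop (R := ℝ))
  refine h.congr fun x => ?_
  simp only [Function.comp, Nat.floor_natCast]
  rw [pi1_eq]

lemma log_tend : Tendsto (fun x : ℕ => Real.log (x : ℝ)) atTop atTop :=
  Real.tendsto_log_atTop.comp tendsto_natCast_atTop_atTop

/-- the prime number theorem in dyadic intervals -/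
lemma dyadic (eta : ℝ) (he : 0 < eta) (he1 : eta ≤ 1) : ∃ X1 : ℕ, ∀ X : ℕ, X1 ≤ X → ∀ h : ℕ, h ≤ X →
    (1 - eta) * (X / Real.log X) ≤ pi1 (2 * X + h) - pi1 (X + h) ∧
    pi1 (2 * X + h) - pi1 (X + h) ≤ (1 + eta) * (X / Real.log X) := by
  set e : ℝ := eta / 20 with hee
  have he0 : 0 < e := by positivity
  have h1 := (Metric.tendsto_nhds.1 pi_tend e he0).exists_forall_of_atTop
  obtain ⟨x0, hx0⟩ := h1
  obtain ⟨x1, hx1⟩ := (log_tend.eventually_ge_atTop (100 / eta)).exists_forall_of_atTop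
  refine ⟨max (max x0 3) x1, ?_⟩
  intro X hX h hh
  have hX0 : x0 ≤ X := (le_max_left _ _).trans ((le_max_left _ _).trans hX)
  have hX3 : 3 ≤ X := (le_max_right _ _).trans ((le_max_left _ _).trans hX)
  have hL := hx1 X ((le_max_right _ _).trans hX)
  set L := Real.log (X : ℝ) with hLd
  have hL100 : 100 ≤ L := by
    refine le_trans ?_ hL
    rw [le_div_iff₀ he]
    nlinarith
  have hL0 : 0 < L := by linarith
  have hLe : 100 ≤ eta * L := by
    rw [div_le_iff₀ he] at hL
    linarith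
  have hXr : (0 : ℝ) < X := by exact_mod_cast (by omega : 0 < X)
  have hhr : (h : ℝ) ≤ X := by exact_mod_cast hh
  have hh0 : (0 : ℝ) ≤ h := Nat.cast_nonneg _
  have key : ∀ y : ℕ, X ≤ y → y ≤ 3 * X → (1 - e) * (y / (L + 2)) ≤ pi1 y ∧ pi1 y ≤ (1 + e) * (y / L) := by
    intro y hy1 hy2
    have h2 := hx0 y (hX0.trans hy1)
    rw [Real.dist_eq] at h2
    have h3 := abs_lt.1 h2
    have hyr : (0 : ℝ) < y := by exact_mod_cast (by omega : 0 < y)
    have hyX : (X : ℝ) ≤ y := by exact_mod_cast hy1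
    have hyX3 : (y : ℝ) ≤ 3 * X := by exact_mod_cast hy2
    have hl1 : L ≤ Real.log y := Real.log_le_log hXr hyX
    have hl2 : Real.log y ≤ L + 2 := by
      have h1 := Real.log_le_log hyr hyX3
      rw [Real.log_mul (by norm_num) hXr.ne'] at h1
      have h2 : Real.log 3 ≤ 2 := by
        have := Real.log_le_sub_one_of_pos (show (0 : ℝ) < 3 by norm_num)
        linarith
      linarith
    have hly : 0 < Real.log y := by linarith
    have e1 : pi1 y = (pi1 y * Real.log y / y) * (y / Real.log y) := by field_simp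
    have h4 : 0 < (y : ℝ) / Real.log y := by positivity
    have he1' : 0 ≤ 1 - e := by rw [hee]; linarith
    constructor
    · rw [e1]
      calc (1 - e) * (y / (L + 2)) ≤ (1 - e) * (y / Real.log y) := by
            apply mul_le_mul_of_nonneg_left _ he1'
            exact div_le_div_of_nonneg_left hyr.le hly hl2
        _ ≤ _ := mul_le_mul_of_nonneg_right (by linarith [h3.1]) h4.le
    · rw [e1]
      calc (pi1 y * Real.log y / y) * (y / Real.log y) ≤ (1 + e) * (y / Real.log y) :=
            mul_le_mul_of_nonneg_right (by linarith [h3.2]) h4.le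
        _ ≤ _ := by
            apply mul_le_mul_of_nonneg_left _ (by linarith)
            exact div_le_div_of_nonneg_left hyr.le hL0 hl1
  obtain ⟨a1, a2⟩ := key (2 * X + h) (by omega) (by omega)
  obtain ⟨b1, b2⟩ := key (X + h) (by omega) (by omega)
  push_cast at a1 a2 b1 b2
  have hL2 : (0 : ℝ) < L + 2 := by linarith
  have e20 : eta = 20 * e := by rw [hee]; ring
  constructor
  · have h5 : (1 - eta) * (X / L) ≤ (1 - e) * ((2 * X + h) / (L + 2)) - (1 + e) * ((X + h) / L) := by
      have e2 : (1 - e) * ((2 * X + h) / (L + 2)) - (1 + e) * ((X + h) / L) - (1 - eta) * (X / L) =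
          ((1 - e) * (2 * X + h) * L - (1 + e) * (X + h) * (L + 2) - (1 - eta) * X * (L + 2)) / (L * (L + 2)) := by
        field_simp
      have e3 : 0 ≤ ((1 - e) * (2 * X + h) * L - (1 + e) * (X + h) * (L + 2) - (1 - eta) * X * (L + 2)) / (L * (L + 2)) := by
        apply div_nonneg _ (by positivity)
        have e4 : (1 - e) * (2 * X + h) * L - (1 + e) * (X + h) * (L + 2) - (1 - eta) * X * (L + 2) =
            X * (eta * L) - e * L * (3 * X + 2 * h) - 2 * (1 + e) * (X + h) - 2 * (1 - eta) * X := by ring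
        rw [e4]
        have e5 : e * L * (3 * X + 2 * h) ≤ X * (eta * L) / 4 := by
          have : e * L * (3 * X + 2 * h) ≤ e * L * (5 * X) := by
            apply mul_le_mul_of_nonneg_left (by linarith) (by positivity)
          rw [e20]
          linarith
        have e6 : 2 * (1 + e) * (X + h) ≤ 8 * X := by
          have h6 : 1 + e ≤ 2 := by rw [hee]; linarith
          calc 2 * (1 + e) * (X + h) ≤ 2 * 2 * (X + X) := by
                apply mul_le_mul _ (by linarith) (by positivity) (by norm_num)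
                linarith
            _ = 8 * X := by ring
        have e7 : 2 * (1 - eta) * X ≤ 2 * X := by nlinarith
        have e8 : 100 * X ≤ X * (eta * L) := by
          have := mul_le_mul_of_nonneg_left hLe hXr.le
          linarith
        linarith
      linarith
    linarith
  · have h5 : (1 + e) * ((2 * X + h) / L) - (1 - e) * ((X + h) / (L + 2)) ≤ (1 + eta) * (X / L) := by
      have e2 : (1 + eta) * (X / L) - ((1 + e) * ((2 * X + h) / L) - (1 - e) * ((X + h) / (L + 2))) =
          ((1 + eta) * X * (L + 2) - (1 + e) * (2 * X + h) * (L + 2) + (1 - e) * (X + h) * L) / (L * (L + 2)) := by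
        field_simp
        ring
      have e3 : 0 ≤ ((1 + eta) * X * (L + 2) - (1 + e) * (2 * X + h) * (L + 2) + (1 - e) * (X + h) * L) / (L * (L + 2)) := by
        apply div_nonneg _ (by positivity)
        have e4 : (1 + eta) * X * (L + 2) - (1 + e) * (2 * X + h) * (L + 2) + (1 - e) * (X + h) * L =
            X * (eta * L) - e * L * (3 * X + 2 * h) + 2 * (1 + eta) * X - 2 * (1 + e) * (2 * X + h) := by ring
        rw [e4]
        have e5 : e * L * (3 * X + 2 * h) ≤ X * (eta * L) / 4 := by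
          have : e * L * (3 * X + 2 * h) ≤ e * L * (5 * X) := by
            apply mul_le_mul_of_nonneg_left (by linarith) (by positivity)
          rw [e20]
          linarith
        have e6 : 2 * (1 + e) * (2 * X + h) ≤ 12 * X := by
          have h6 : 1 + e ≤ 2 := by rw [hee]; linarith
          calc 2 * (1 + e) * (2 * X + h) ≤ 2 * 2 * (2 * X + X) := by
                apply mul_le_mul _ (by linarith) (by positivity) (by norm_num)
                linarith
            _ = 12 * X := by ring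
        have e7 : 0 ≤ 2 * (1 + eta) * X := by positivity
        have e8 : 100 * X ≤ X * (eta * L) := by
          have := mul_le_mul_of_nonneg_left hLe hXr.le
          linarith
        linarith
      linarith
    linarith

/-- the number of primes in `(n, n + U]` -/
noncomputable def pw (U n : ℕ) : ℝ := (((Ioc n (n + U)).filter Nat.Prime).card : ℝ)

lemma pw_eq (U n : ℕ) : pw U n = ∑ h ∈ Icc 1 U, (if (n + h).Prime then (1 : ℝ) else 0) := by
  unfold pw
  have h1 := shiftc n U Nat.Prime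
  have h2 : Ico (n + 1) (n + U + 1) = Ioc n (n + U) := by
    ext m
    rw [mem_Ico, mem_Ioc]
    omega
  rw [h2] at h1
  rw [← h1, card_filter]
  push_cast
  rfl

/-- the reduction to the mean value of the singular series -/
theorem reduc (K : ℕ) (eta : ℝ) (he : 0 < eta) (he1 : eta ≤ 1) : ∃ B X0 : ℕ, ∀ X : ℕ, X0 ≤ X → ∀ U Q : ℕ,
    U ≤ X → 1 ≤ Q → (Q : ℝ) ^ 2 * Real.log X ^ B ≤ X →
    ∀ c : ℕ → ℕ → ℝ, (∀ n, 0 ≤ wt Q c n) → ∑ d ∈ Icc 1 Q, ss c d ^ 2 / d ≤ Real.log X ^ K →
    X / Real.log X ^ K ≤ ∑ n ∈ Ioc X (2 * X), wt Q c n →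
    (∀ al : ℝ, 0 ≤ al → al * (U * mu Q c) ≤ ∑ h ∈ Icc 1 U, GG Q c h →
      ((1 - eta) ^ 2 * al - eta) * (U / Real.log X * ∑ n ∈ Ioc X (2 * X), wt Q c n) ≤
        ∑ n ∈ Ioc X (2 * X), wt Q c n * pw U n) ∧
    (∀ be : ℝ, 0 ≤ be → ∑ h ∈ Icc 1 U, GG Q c h ≤ be * (U * mu Q c) →
      ∑ n ∈ Ioc X (2 * X), wt Q c n * pw U n ≤
        ((1 + eta) ^ 2 * be + eta) * (U / Real.log X * ∑ n ∈ Ioc X (2 * X), wt Q c n)) := by
  classical
  obtain ⟨B, X0, hsh⟩ := shift_pr K (K + 2)
  obtain ⟨X1, hdy⟩ := dyadic eta he he1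
  obtain ⟨X2, hX2⟩ := (log_tend.eventually_ge_atTop (2 / eta + 1)).exists_forall_of_atTop
  refine ⟨B + 2 * K + 1, max (max X0 X1) (max X2 3), ?_⟩
  intro X hX U Q hUX hQ hQX c hw hc hW
  have hX0' : X0 ≤ X := (le_max_left _ _).trans ((le_max_left _ _).trans hX)
  have hX1' : X1 ≤ X := (le_max_right _ _).trans ((le_max_left _ _).trans hX)
  have hX3 : 3 ≤ X := (le_max_right _ _).trans ((le_max_right _ _).trans hX)
  have hL := hX2 X ((le_max_left _ _).trans ((le_max_right _ _).trans hX))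
  set L := Real.log (X : ℝ) with hLd
  set W : ℝ := ∑ n ∈ Ioc X (2 * X), wt Q c n with hWd
  have hXr : (0 : ℝ) < X := by exact_mod_cast (by omega : 0 < X)
  have hdiv : 0 < 2 / eta := by positivity
  have hL1 : 1 ≤ L := by linarith
  have hL0 : 0 < L := by linarith
  have hLe : 2 ≤ eta * L := by
    have h1 : 2 / eta ≤ L := by linarith
    rw [div_le_iff₀ he] at h1
    linarith
  have hQr : (1 : ℝ) ≤ Q := by exact_mod_cast hQ
  have hW0 : 0 ≤ W := sum_nonneg fun n _ => hw n
  have hUr : (0 : ℝ) ≤ U := Nat.cast_nonneg _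
  have hQX' : (Q : ℝ) ^ 2 * L ^ B ≤ X := by
    refine le_trans ?_ hQX
    apply mul_le_mul_of_nonneg_left _ (by positivity)
    exact pow_le_pow_right₀ hL1 (by omega)
  -- the mean value
  have hss : ∑ d ∈ Icc 1 Q, ss c d ≤ eta * W := by
    have h1 : ∀ d ∈ Icc 1 Q, ss c d ≤ (1 / 2) * (Q * (ss c d ^ 2 / d)) + (1 / 2) := by
      intro d hd
      rw [mem_Icc] at hd
      have hd0 : (0 : ℝ) < d := by exact_mod_cast (by omega : 0 < d)
      have hdQ : (d : ℝ) ≤ Q := by exact_mod_cast hd.2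
      have h2 : ss c d ^ 2 ≤ Q * (ss c d ^ 2 / d) := by
        rw [mul_div_assoc', le_div_iff₀ hd0, mul_comm]
        exact mul_le_mul_of_nonneg_right hdQ (sq_nonneg _)
      nlinarith [sq_nonneg (ss c d - 1)]
    have h2 : ∑ d ∈ Icc 1 Q, ss c d ≤ Q * L ^ K := by
      refine (sum_le_sum h1).trans ?_
      rw [sum_add_distrib, ← mul_sum, ← mul_sum, sum_const, Nat.card_Icc, Nat.add_sub_cancel, nsmul_eq_mul]
      have h3 := mul_le_mul_of_nonneg_left hc (show (0 : ℝ) ≤ Q by linarith)
      have h4 : (Q : ℝ) ≤ Q * L ^ K := by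
        have : (1 : ℝ) ≤ L ^ K := one_le_pow₀ hL1
        nlinarith
      linarith
    refine h2.trans ?_
    have h5 : (Q : ℝ) * L ^ K ≤ eta * (X / L ^ K) := by
      rw [mul_div_assoc', le_div_iff₀ (by positivity)]
      have h6 : (Q : ℝ) * L ^ K * L ^ K * L ≤ X := by
        calc (Q : ℝ) * L ^ K * L ^ K * L = Q * L ^ (2 * K + 1) := by ring
          _ ≤ (Q : ℝ) ^ 2 * L ^ (B + 2 * K + 1) := by
              apply mul_le_mul (by nlinarith) _ (by positivity) (by positivity)
              exact pow_le_pow_right₀ hL1 (by omega)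
          _ ≤ X := hQX
      have h7 : (Q : ℝ) * L ^ K * L ^ K * 1 ≤ (Q : ℝ) * L ^ K * L ^ K * (eta * L) := by
        apply mul_le_mul_of_nonneg_left (by linarith) (by positivity)
      calc (Q : ℝ) * L ^ K * L ^ K ≤ eta * ((Q : ℝ) * L ^ K * L ^ K * L) := by linarith
        _ ≤ eta * X := mul_le_mul_of_nonneg_left h6 he.le
    exact h5.trans (mul_le_mul_of_nonneg_left hW he.le)
  have hmean := (abs_le.1 ((sum_dy Q X c).trans hss))
  rw [← hWd] at hmean
  -- the decomposition
  have hT : |∑ n ∈ Ioc X (2 * X), wt Q c n * pw U n - ∑ h ∈ Icc 1 U, (pi1 (2 * X + h) - pi1 (X + h)) * GG Q c h| ≤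
      eta * (U / L * W) := by
    have h1 : ∑ n ∈ Ioc X (2 * X), wt Q c n * pw U n =
        ∑ h ∈ Icc 1 U, ∑ n ∈ Ioc X (2 * X), wt Q c n * (if (n + h).Prime then 1 else 0) := by
      rw [sum_comm]
      apply sum_congr rfl
      intro n _
      rw [pw_eq, mul_sum]
    rw [h1, ← sum_sub_distrib]
    refine (abs_sum_le_sum_abs _ _).trans ?_
    have h2 : ∀ h ∈ Icc 1 U, |∑ n ∈ Ioc X (2 * X), wt Q c n * (if (n + h).Prime then 1 else 0) -
        (pi1 (2 * X + h) - pi1 (X + h)) * GG Q c h| ≤ 2 * (X / L ^ (K + 2)) := by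
      intro h hh
      exact hsh X hX0' Q hQ hQX' c hc h ((mem_Icc.1 hh).2.trans hUX)
    refine (sum_le_sum h2).trans ?_
    rw [sum_const, Nat.card_Icc, Nat.add_sub_cancel, nsmul_eq_mul]
    have h3 : 2 * (X / L ^ (K + 2)) ≤ eta * (1 / L * W) := by
      have h4 : 2 * (X / L ^ (K + 2)) = (2 / L) * (1 / L * (X / L ^ K)) := by
        rw [pow_add]
        field_simp
      rw [h4]
      have h5 : 2 / L ≤ eta := by rw [div_le_iff₀ hL0]; exact hLe
      apply mul_le_mul h5 _ (by positivity) he.le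
      exact mul_le_mul_of_nonneg_left hW (by positivity)
    calc (U : ℝ) * (2 * (X / L ^ (K + 2))) ≤ U * (eta * (1 / L * W)) := mul_le_mul_of_nonneg_left h3 hUr
      _ = _ := by ring
  have hT' := abs_le.1 hT
  have hGG : ∀ h, 0 ≤ GG Q c h := fun h => GG_nonneg Q h c hw
  have hlow : (1 - eta) * (X / L) * ∑ h ∈ Icc 1 U, GG Q c h ≤
      ∑ h ∈ Icc 1 U, (pi1 (2 * X + h) - pi1 (X + h)) * GG Q c h := by
    rw [mul_sum]
    apply sum_le_sum
    intro h hh
    exact mul_le_mul_of_nonneg_right (hdy X hX1' h ((mem_Icc.1 hh).2.trans hUX)).1 (hGG h)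
  have hupp : ∑ h ∈ Icc 1 U, (pi1 (2 * X + h) - pi1 (X + h)) * GG Q c h ≤
      (1 + eta) * (X / L) * ∑ h ∈ Icc 1 U, GG Q c h := by
    rw [mul_sum]
    apply sum_le_sum
    intro h hh
    exact mul_le_mul_of_nonneg_right (hdy X hX1' h ((mem_Icc.1 hh).2.trans hUX)).2 (hGG h)
  refine ⟨?_, ?_⟩
  · intro al hal hG
    have h1 : (1 - eta) * (X / L) * (al * (U * mu Q c)) ≤ (1 - eta) * (X / L) * ∑ h ∈ Icc 1 U, GG Q c h := by
      apply mul_le_mul_of_nonneg_left hG
      apply mul_nonneg (by linarith) (by positivity)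
    have h2 : (1 - eta) ^ 2 * al * (U / L * W) ≤ (1 - eta) * (X / L) * (al * (U * mu Q c)) := by
      have h3 : (1 - eta) * W ≤ X * mu Q c := by linarith [hmean.2]
      have h4 : 0 ≤ (1 - eta) * al * (U / L) := by
        apply mul_nonneg (mul_nonneg (by linarith) hal) (by positivity)
      have h5 := mul_le_mul_of_nonneg_left h3 h4
      calc (1 - eta) ^ 2 * al * (U / L * W) = (1 - eta) * al * (U / L) * ((1 - eta) * W) := by ring
        _ ≤ _ := h5
        _ = _ := by ring
    have e1 : ((1 - eta) ^ 2 * al - eta) * (U / L * W) = (1 - eta) ^ 2 * al * (U / L * W) - eta * (U / L * W) := by ring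
    rw [e1]
    linarith [hT'.1]
  · intro be hbe hG
    have h1 : (1 + eta) * (X / L) * ∑ h ∈ Icc 1 U, GG Q c h ≤ (1 + eta) * (X / L) * (be * (U * mu Q c)) := by
      apply mul_le_mul_of_nonneg_left hG
      positivity
    have h2 : (1 + eta) * (X / L) * (be * (U * mu Q c)) ≤ (1 + eta) ^ 2 * be * (U / L * W) := by
      have h3 : X * mu Q c ≤ (1 + eta) * W := by linarith [hmean.1]
      have h4 : 0 ≤ (1 + eta) * be * (U / L) := by positivity
      have h5 := mul_le_mul_of_nonneg_left h3 h4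
      calc (1 + eta) * (X / L) * (be * (U * mu Q c)) = (1 + eta) * be * (U / L) * (X * mu Q c) := by ring
        _ ≤ _ := h5
        _ = _ := by ring
    have e1 : ((1 + eta) ^ 2 * be + eta) * (U / L * W) = (1 + eta) ^ 2 * be * (U / L * W) + eta * (U / L * W) := by ring
    rw [e1]
    linarith [hT'.2]

end Pool.Agent.Y829.RP
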