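import Pool.Agent.Y829.RP3

/-! Primes in short intervals, on average with respect to a sieve weight: the theorem. -/

set_option autoImplicit false

namespace Pool.Agent.Y829.RP

open Finset Filter Topology Pool.Agent.Y829

lemma dvdfac (Q : ℕ) : ∀ d ∈ Icc 1 Q, d ∣ Q.factorial := by
  intro d hd
  rw [mem_Icc] at hd
  exact Nat.dvd_factorial (by omega) hd.2

lemma logQ_le {X Q U : ℕ} {B : ℕ} {A : ℝ} (hA : 0 < A) (hX : 3 ≤ X) (hQ : 1 ≤ Q)
    (hQX : (Q : ℝ) ^ 2 * Real.log X ^ B ≤ X) (hU : Real.log X ^ A ≤ U) :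
    Real.log Q ≤ (U : ℝ) ^ (1 / A) := by
  have hXr : (0 : ℝ) < X := by exact_mod_cast (by omega : 0 < X)
  have hL1 : 1 ≤ Real.log X := by
    rw [Real.le_log_iff_exp_le hXr]
    have := Real.exp_one_lt_d9
    have : (3 : ℝ) ≤ X := by exact_mod_cast hX
    linarith
  have hQr : (1 : ℝ) ≤ Q := by exact_mod_cast hQ
  have h1 : (1 : ℝ) ≤ Real.log X ^ B := one_le_pow₀ hL1
  have h2 : (Q : ℝ) ≤ X := by nlinarith
  have h3 : Real.log Q ≤ Real.log X := Real.log_le_log (by linarith) h2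
  refine h3.trans ?_
  calc Real.log X = (Real.log X ^ A) ^ (1 / A) := by
        rw [← Real.rpow_mul (by linarith), mul_one_div, div_self hA.ne', Real.rpow_one]
    _ ≤ (U : ℝ) ^ (1 / A) := Real.rpow_le_rpow (by positivity) hU (by positivity)

lemma SO_coprime (Q U n : ℕ) : (((Icc 1 U).filter (fun h => (n + h).Coprime (∏ p ∈ PQ Q, p))).card : ℝ) =
    SO (fun _ => {0}) (PQ Q) U n := by
  classical
  have hP : ∀ p ∈ PQ Q, p.Prime := fun p hp => (mem_PQ.1 hp).1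
  have hM : 0 < ∏ p ∈ PQ Q, p := prod_pos fun p hp => (hP p hp).pos
  unfold SO
  refine congrArg Nat.cast (congrArg card ?_)
  apply filter_congr
  intro h _
  rw [cop_iff hM, Nat.primeFactors_prod hP]
  constructor
  · intro h2 p hp h3
    exact h2 p hp (Nat.dvd_of_mod_eq_zero (mem_singleton.1 h3))
  · intro h2 p hp h3
    exact h2 p hp (mem_singleton.2 (Nat.mod_eq_zero_of_dvd h3))

/-- intervals of length `(log X)^A`, `A > 2` -/
theorem part_one (A : ℝ) (hA : 2 < A) : ∃ c₀ : ℝ, 0 < c₀ ∧ ∀ K : ℕ, ∃ B X0 : ℕ, ∀ X U Q : ℕ, X0 ≤ X →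
    Real.log X ^ A ≤ U → U ≤ X → 1 ≤ Q → (Q : ℝ) ^ 2 * Real.log X ^ B ≤ X →
    ∀ c : ℕ → ℕ → ℝ, (∀ n, 0 ≤ wt Q c n) → ∑ d ∈ Icc 1 Q, ss c d ^ 2 / d ≤ Real.log X ^ K →
    X / Real.log X ^ K ≤ ∑ n ∈ Ioc X (2 * X), wt Q c n →
      c₀ * (U / Real.log X * ∑ n ∈ Ioc X (2 * X), wt Q c n) ≤ ∑ n ∈ Ioc X (2 * X), wt Q c n * pw U n := by
  classical
  obtain ⟨c1, U1, hc1, hmain⟩ := main (1 / A) (by positivity) (by
    rw [div_lt_div_iff₀ (by linarith) (by norm_num)]; linarith)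
  set c0 : ℝ := min c1 1 with hc0
  have hc00 : 0 < c0 := lt_min hc1 one_pos
  have hc01 : c0 ≤ 1 := min_le_right _ _
  refine ⟨c0 / 2, by positivity, ?_⟩
  intro K
  obtain ⟨B, X0, hred⟩ := reduc K (c0 / 8) (by positivity) (by linarith)
  obtain ⟨X1, hX1⟩ := (log_tend.eventually_ge_atTop ((U1 : ℝ) + 1)).exists_forall_of_atTop
  refine ⟨B, max (max X0 3) X1, ?_⟩
  intro X U Q hX hU hUX hQ hQX c hw hc hW
  have hX0' : X0 ≤ X := (le_max_left _ _).trans ((le_max_left _ _).trans hX)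
  have hX3 : 3 ≤ X := (le_max_right _ _).trans ((le_max_left _ _).trans hX)
  have hL := hX1 X ((le_max_right _ _).trans hX)
  obtain ⟨hr, -⟩ := hred X hX0' U Q hUX hQ hQX c hw hc hW
  have hlogQ := logQ_le (A := A) (by linarith) hX3 hQ hQX hU
  have hU1 : U1 ≤ U := by
    have h1 : (1 : ℝ) ≤ Real.log X := by
      have : (0 : ℝ) ≤ U1 := Nat.cast_nonneg _
      linarith
    have h2 : Real.log X ≤ Real.log X ^ A := by
      calc Real.log X = Real.log X ^ (1 : ℝ) := (Real.rpow_one _).symm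
        _ ≤ _ := Real.rpow_le_rpow_of_exponent_le h1 (by linarith)
    have h3 : (U1 : ℝ) ≤ U := by linarith
    exact_mod_cast h3
  set N := Q.factorial with hN
  have hN0 : 0 < N := Nat.factorial_pos _
  have hP : ∀ p ∈ PQ Q, p.Prime := fun p hp => (mem_PQ.1 hp).1
  set M := ∏ p ∈ PQ Q, p with hM
  have hM0 : 0 < M := prod_pos fun p hp => (hP p hp).pos
  have hMN : M ∣ N := by
    apply Finset.prod_primes_dvd
    · intro p hp; exact (hP p hp).prime
    · intro p hp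
      exact dvdfac Q p (mem_Icc.2 ⟨(hP p hp).one_lt.le, (mem_PQ.1 hp).2⟩)
  have h1 := (hmain U Q M N (wt Q c) hU1 hQ hlogQ hM0 hN0 hMN (dvdfac Q) hw (wt_lev Q c)).1
  have hMV : (M.totient : ℝ) / M = V (PQ Q) := by
    rw [← V_tot hM0, hM, Nat.primeFactors_prod hP]
  have h2 : ∀ n ∈ range N, wt Q c n * (((Icc 1 U).filter (fun h => (n + h).Coprime M)).card : ℝ) =
      wt Q c n * SO (fun _ => {0}) (PQ Q) U n := by
    intro n _
    rw [SO_coprime Q U n]
  rw [sum_congr rfl h2, sum_GG Q U N c hN0 (dvdfac Q), hMV, sum_wt Q N c (dvdfac Q)] at h1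
  have hNV : 0 < (N : ℝ) * V (PQ Q) := by
    have := V_pos hP
    have : (0 : ℝ) < N := by exact_mod_cast hN0
    positivity
  have hmu0 : 0 ≤ mu Q c := by
    have h3 := sum_wt Q N c (dvdfac Q)
    have h4 : 0 ≤ (N : ℝ) * mu Q c := by rw [← h3]; exact sum_nonneg fun n _ => hw n
    exact nonneg_of_mul_nonneg_right h4 (by exact_mod_cast hN0)
  have h3 : c1 * (U * mu Q c) ≤ ∑ h ∈ Icc 1 U, GG Q c h := by
    have h4 : N * V (PQ Q) * (c1 * (U * mu Q c)) ≤ N * V (PQ Q) * ∑ h ∈ Icc 1 U, GG Q c h := by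
      calc N * V (PQ Q) * (c1 * (U * mu Q c)) = c1 * U * V (PQ Q) * (N * mu Q c) := by ring
        _ ≤ _ := h1
    exact le_of_mul_le_mul_left h4 hNV
  have h4 : c0 * (U * mu Q c) ≤ ∑ h ∈ Icc 1 U, GG Q c h := by
    refine le_trans ?_ h3
    apply mul_le_mul_of_nonneg_right (min_le_left _ _)
    positivity
  have h5 := hr c0 hc00.le h4
  refine le_trans ?_ h5
  apply mul_le_mul_of_nonneg_right
  · have h8 : 3 / 4 ≤ (1 - c0 / 8) ^ 2 := by nlinarith
    have h9 := mul_le_mul_of_nonneg_right h8 hc00.le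
    linarith
  · have h6 : 0 ≤ ∑ n ∈ Ioc X (2 * X), wt Q c n := sum_nonneg fun n _ => hw n
    have h7 : 0 ≤ Real.log X := Real.log_natCast_nonneg X
    positivity

/-- the asymptotic behaviour for long intervals -/
theorem part_two : ∃ c₁ A1 : ℝ, 0 < c₁ ∧ ∀ A : ℝ, A1 ≤ A → ∀ K : ℕ, ∃ B X0 : ℕ, ∀ X U Q : ℕ, X0 ≤ X →
    Real.log X ^ A ≤ U → U ≤ X → 1 ≤ Q → (Q : ℝ) ^ 2 * Real.log X ^ B ≤ X →
    ∀ c : ℕ → ℕ → ℝ, (∀ n, 0 ≤ wt Q c n) → ∑ d ∈ Icc 1 Q, ss c d ^ 2 / d ≤ Real.log X ^ K →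
    X / Real.log X ^ K ≤ ∑ n ∈ Ioc X (2 * X), wt Q c n →
      |∑ n ∈ Ioc X (2 * X), wt Q c n * pw U n - U / Real.log X * ∑ n ∈ Ioc X (2 * X), wt Q c n| ≤
        Real.exp (-(c₁ * A)) * (U / Real.log X * ∑ n ∈ Ioc X (2 * X), wt Q c n) := by
  classical
  obtain ⟨C, hC1, hmain⟩ := main2 1
  have hCr : (1 : ℝ) ≤ C := by exact_mod_cast hC1
  have hl2 : 0 < Real.log 2 := Real.log_pos (by norm_num)
  refine ⟨Real.log 2 / (2 * C), 4 * C + (C + 1) * C + 1, by positivity, ?_⟩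
  intro A hA K
  have hA0 : 0 < A := by nlinarith
  set b : ℕ := ⌊A / C⌋₊ with hb
  have hbA : (b : ℝ) ≤ A / C := Nat.floor_le (by positivity)
  have hbA2 : A / C < b + 1 := Nat.lt_floor_add_one _
  have hbC : C ≤ b := by
    rw [hb]
    apply Nat.le_floor
    rw [le_div_iff₀ (by linarith)]
    nlinarith
  have hb1 : (1 : ℝ) ≤ b := by exact_mod_cast hC1.trans hbC
  obtain ⟨U1, hmain1⟩ := hmain b hbC
  set x : ℝ := (1 / 2 : ℝ) ^ b with hx
  have hx0 : 0 < x := by positivity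
  have hx1 : x ≤ 1 := pow_le_one₀ (by norm_num) (by norm_num)
  obtain ⟨B, X0, hred⟩ := reduc K (x / 8) (by positivity) (by linarith)
  obtain ⟨X1, hX1⟩ := (log_tend.eventually_ge_atTop ((U1 : ℝ) + 1)).exists_forall_of_atTop
  refine ⟨B, max (max X0 3) X1, ?_⟩
  intro X U Q hX hU hUX hQ hQX c hw hc hW
  have hX0' : X0 ≤ X := (le_max_left _ _).trans ((le_max_left _ _).trans hX)
  have hX3 : 3 ≤ X := (le_max_right _ _).trans ((le_max_left _ _).trans hX)
  have hL := hX1 X ((le_max_right _ _).trans hX)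
  obtain ⟨hr1, hr2⟩ := hred X hX0' U Q hUX hQ hQX c hw hc hW
  have hlogQ := logQ_le (A := A) hA0 hX3 hQ hQX hU
  have hL1 : (1 : ℝ) ≤ Real.log X := by
    have : (0 : ℝ) ≤ U1 := Nat.cast_nonneg _
    linarith
  have hAge1 : 1 ≤ A := by nlinarith
  have hU1r : Real.log X ≤ U := by
    have h2 : Real.log X ≤ Real.log X ^ A := by
      calc Real.log X = Real.log X ^ (1 : ℝ) := (Real.rpow_one _).symm
        _ ≤ _ := Real.rpow_le_rpow_of_exponent_le hL1 hAge1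
    linarith
  have hU1 : U1 ≤ U := by
    have h3 : (U1 : ℝ) ≤ U := by linarith
    exact_mod_cast h3
  have hUr1 : (1 : ℝ) ≤ U := by linarith
  have hlogQ' : Real.log Q ≤ (U : ℝ) ^ (1 / ((C : ℝ) * b)) := by
    refine hlogQ.trans ?_
    apply Real.rpow_le_rpow_of_exponent_le hUr1
    apply one_div_le_one_div_of_le (by positivity)
    rw [le_div_iff₀ (by linarith)] at hbA
    linarith
  set N := Q.factorial with hN
  have hN0 : 0 < N := Nat.factorial_pos _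
  have hP : ∀ p ∈ PQ Q, p.Prime := fun p hp => (mem_PQ.1 hp).1
  have hPN : ∀ p ∈ PQ Q, p.Prime ∧ p ∣ N := fun p hp =>
    ⟨hP p hp, dvdfac Q p (mem_Icc.2 ⟨(hP p hp).one_lt.le, (mem_PQ.1 hp).2⟩)⟩
  have h1 := (hmain1 U Q N (PQ Q) (fun _ => {0}) (wt Q c) hU1 hQ hlogQ' hN0 (dvdfac Q) hw (wt_lev Q c) hPN
    (fun p hp => ⟨by
      rw [singleton_subset_iff, mem_range]; exact (hP p hp).pos, by simp, by
      simpa using (hP p hp).one_lt⟩)).1
  have hVO : VO (fun _ => ({0} : Finset ℕ)) (PQ Q) = V (PQ Q) := by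
    unfold VO V
    simp
  rw [sum_GG Q U N c hN0 (dvdfac Q), hVO, sum_wt Q N c (dvdfac Q)] at h1
  have hNV : 0 < (N : ℝ) * V (PQ Q) := by
    have := V_pos hP
    have : (0 : ℝ) < N := by exact_mod_cast hN0
    positivity
  have h2 := abs_le.1 h1
  have h3 : (1 - x) * (U * mu Q c) ≤ ∑ h ∈ Icc 1 U, GG Q c h := by
    have h4 : N * V (PQ Q) * ((1 - x) * (U * mu Q c)) ≤ N * V (PQ Q) * ∑ h ∈ Icc 1 U, GG Q c h := by
      have e1 : N * V (PQ Q) * ((1 - x) * (U * mu Q c)) =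
          U * V (PQ Q) * (N * mu Q c) - x * (U * V (PQ Q) * (N * mu Q c)) := by ring
      rw [e1]
      linarith [h2.1]
    exact le_of_mul_le_mul_left h4 hNV
  have h4 : ∑ h ∈ Icc 1 U, GG Q c h ≤ (1 + x) * (U * mu Q c) := by
    have h5 : N * V (PQ Q) * ∑ h ∈ Icc 1 U, GG Q c h ≤ N * V (PQ Q) * ((1 + x) * (U * mu Q c)) := by
      have e1 : N * V (PQ Q) * ((1 + x) * (U * mu Q c)) =
          U * V (PQ Q) * (N * mu Q c) + x * (U * V (PQ Q) * (N * mu Q c)) := by ring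
      rw [e1]
      linarith [h2.2]
    exact le_of_mul_le_mul_left h5 hNV
  have h5 := hr1 (1 - x) (by linarith) h3
  have h6 := hr2 (1 + x) (by linarith) h4
  set T : ℝ := U / Real.log X * ∑ n ∈ Ioc X (2 * X), wt Q c n with hT
  have hT0 : 0 ≤ T := by
    have h6 : 0 ≤ ∑ n ∈ Ioc X (2 * X), wt Q c n := sum_nonneg fun n _ => hw n
    positivity
  have hexp : 2 * x ≤ Real.exp (-(Real.log 2 / (2 * C) * A)) := by
    have e1 : x = Real.exp (-(b * Real.log 2)) := by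
      rw [hx, ← mul_neg, Real.exp_nat_mul, Real.exp_neg, Real.exp_log (by norm_num)]
      norm_num
    have e2 : 2 * x = Real.exp (Real.log 2 + -(b * Real.log 2)) := by
      rw [Real.exp_add, Real.exp_log (by norm_num), ← e1]
    rw [e2]
    apply Real.exp_le_exp.2
    have h7 : (b : ℝ) ≥ A / C - 1 := by linarith
    have h8 : 4 ≤ A / C := by
      rw [le_div_iff₀ (by linarith)]
      nlinarith
    have e3 : Real.log 2 / (2 * C) * A = Real.log 2 * (A / C / 2) := by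
      field_simp
    rw [e3]
    have h9 : Real.log 2 * (2 - A / C) ≤ Real.log 2 * (-(A / C / 2)) := by
      apply mul_le_mul_of_nonneg_left _ hl2.le
      linarith
    have h10 : Real.log 2 + -(b * Real.log 2) ≤ Real.log 2 * (2 - A / C) := by
      have := mul_le_mul_of_nonneg_left h7 hl2.le
      nlinarith
    linarith
  refine le_trans ?_ (mul_le_mul_of_nonneg_right hexp hT0)
  rw [abs_le]
  constructor
  · have h7 : (1 - 2 * x) * T ≤ ((1 - x / 8) ^ 2 * (1 - x) - x / 8) * T := by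
      apply mul_le_mul_of_nonneg_right _ hT0
      nlinarith [sq_nonneg x, mul_nonneg hx0.le (sq_nonneg x)]
    linarith
  · have h7 : ((1 + x / 8) ^ 2 * (1 + x) + x / 8) * T ≤ (1 + 2 * x) * T := by
      apply mul_le_mul_of_nonneg_right _ hT0
      nlinarith [sq_nonneg x, mul_nonneg hx0.le (sq_nonneg x), mul_nonneg hx0.le (sub_nonneg.2 hx1)]
    linarith

end Pool.Agent.Y829.RP
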