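import Pool.Agent.Y829.RP4

/-! Concentration of the number of survivors in intervals of length `log X (log log X)^3`. -/

set_option autoImplicit false

namespace Pool.Agent.Y829.RS

open Finset Filter Topology Pool.Agent.Y829 Pool.Agent.Y829.RP

lemma VO_V (P : Finset ℕ) : VO (fun _ => ({0} : Finset ℕ)) P = V P := by
  unfold VO V; simp

lemma twostage (P1 P2 : Finset ℕ) (U : ℕ) (δ lam eta β : ℝ) (hP1 : ∀ p ∈ P1, p.Prime)
    (hP2 : ∀ p ∈ P2, p.Prime ∧ U < p) (hd : Disjoint P1 P2) (hδ : 0 < δ) (hδ1 : δ ≤ 1 / 4)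
    (heta : eta = δ / 4) (hlam : 0 ≤ lam) (hlam1 : lam ≤ 1 / 2)
    (hsum : 4 * (lam * ∑ p ∈ P2, 1 / (p : ℝ)) ≤ eta)
    (hbad : (((range (∏ p ∈ P1, p)).filter (fun n => δ * (U * V P1) <
      |SO (fun _ => {0}) P1 U n - U * V P1|)).card : ℝ) ≤ β * ((∏ p ∈ P1, p : ℕ) : ℝ)) :
    (((range (∏ p ∈ P1 ∪ P2, p)).filter (fun n => 3 * δ * (U * V (P1 ∪ P2)) <
      |SO (fun _ => {0}) (P1 ∪ P2) U n - U * V (P1 ∪ P2)|)).card : ℝ) ≤
      (β + 2 * Real.exp (-(lam * (U * V (P1 ∪ P2) / 2) * (δ / 2)))) *
        ((∏ p ∈ P1 ∪ P2, p : ℕ) : ℝ) := by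
  classical
  obtain ⟨D1, hD1⟩ : ∃ D, D = ∏ p ∈ P1, p := ⟨_, rfl⟩
  obtain ⟨D2, hD2⟩ : ∃ D, D = ∏ p ∈ P2, p := ⟨_, rfl⟩
  have hDD : ∏ p ∈ P1 ∪ P2, p = D1 * D2 := by rw [hD1, hD2, prod_union hd]
  have hPp : ∀ p ∈ P1 ∪ P2, p.Prime := by
    intro p hp
    rcases mem_union.1 hp with h | h
    · exact hP1 p h
    · exact (hP2 p h).1
  have hV : V (P1 ∪ P2) = V P1 * V P2 := by
    rw [← VO_V, ← VO_V, ← VO_V, VO_union hd]
  have hV1 : 0 < V P1 := V_pos hP1
  have hV2 : 0 < V P2 := V_pos (fun p hp => (hP2 p hp).1)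
  have hcopr : ∀ p ∈ P2, D1.Coprime p := by
    intro p hp
    rw [hD1]
    apply Nat.Coprime.prod_left
    intro q hq
    rw [Nat.coprime_primes (hP1 q hq) (hP2 p hp).1]
    rintro rfl
    exact disjoint_left.1 hd hq hp
  rw [← hD1] at hbad
  rw [hDD]
  obtain ⟨E, hE⟩ : ∃ E : ℝ, E = Real.exp (-(lam * (U * V (P1 ∪ P2) / 2) * (δ / 2))) := ⟨_, rfl⟩
  rw [← hE]
  have hE0 : 0 < E := by rw [hE]; exact Real.exp_pos _
  obtain ⟨bad, hbaddef⟩ : ∃ bad : ℕ → Prop, bad = fun n => 3 * δ * (U * V (P1 ∪ P2)) <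
      |SO (fun _ => {0}) (P1 ∪ P2) U n - U * V (P1 ∪ P2)| := ⟨_, rfl⟩
  obtain ⟨bad1, hbad1⟩ : ∃ bad1 : ℕ → Prop, bad1 = fun n => δ * (U * V P1) <
      |SO (fun _ => {0}) P1 U n - U * V P1| := ⟨_, rfl⟩
  -- one residue class modulo `D1`
  have key : ∀ i ∈ range D1, ∑ j ∈ range D2, (if bad (i + D1 * j) then (1 : ℝ) else 0) ≤
      (if bad1 i then (1 : ℝ) else 0) * D2 + D2 * (2 * E) := by
    intro i _
    by_cases hi : bad1 i
    · rw [if_pos hi, one_mul]
      have h1 : ∑ j ∈ range D2, (if bad (i + D1 * j) then (1 : ℝ) else 0) ≤ ∑ j ∈ range D2, (1 : ℝ) := by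
        apply sum_le_sum
        intro j _
        split_ifs <;> norm_num
      rw [sum_const, card_range, nsmul_eq_mul, mul_one] at h1
      have h2 : 0 ≤ (D2 : ℝ) * (2 * E) := by positivity
      linarith
    · rw [if_neg hi, zero_mul, zero_add]
      obtain ⟨H, hH⟩ : ∃ H, H = (Icc 1 U).filter (fun h => ∀ p ∈ P1, (i + h) % p ∉ ({0} : Finset ℕ)) := ⟨_, rfl⟩
      have hHc : |(H.card : ℝ) - U * V P1| ≤ δ * (U * V P1) := by
        rw [hbad1, not_lt] at hi
        have : SO (fun _ => {0}) P1 U i = (H.card : ℝ) := by unfold SO; rw [hH]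
        rwa [this] at hi
      have hS : ∀ j, SO (fun _ => {0}) (P1 ∪ P2) U (i + D1 * j) =
          ((H.filter (fun h => ∀ p ∈ P2, (i + D1 * j + h) % p ∉ ({0} : Finset ℕ))).card : ℝ) := by
        intro j
        unfold SO
        refine congrArg Nat.cast (congrArg card ?_)
        rw [hH, filter_filter]
        apply filter_congr
        intro h _
        have e1 : ∀ p ∈ P1, (i + D1 * j + h) % p = (i + h) % p := by
          intro p hp
          have h1 : p ∣ D1 := by rw [hD1]; exact dvd_prod_of_mem (fun p : ℕ => p) hp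
          obtain ⟨k, hk⟩ := h1
          have : i + D1 * j + h = (i + h) + p * (k * j) := by rw [hk]; ring
          rw [this]
          exact Nat.add_mul_mod_self_left _ _ _
        constructor
        · intro h1
          refine ⟨fun p hp => ?_, fun p hp => h1 p (mem_union_right _ hp)⟩
          rw [← e1 p hp]
          exact h1 p (mem_union_left _ hp)
        · rintro ⟨h1, h2⟩ p hp
          rcases mem_union.1 hp with hp | hp
          · rw [e1 p hp]; exact h1 p hp
          · exact h2 p hp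
      have hlb : ∀ p ∈ P2, lam * (2 : ℝ) ≤ 1 := fun p _ => by linarith
      have hHb : ∀ p ∈ P2, ∀ r : ℕ, ((H.filter (fun h => (r + h) % p ∈ ({0} : Finset ℕ))).card : ℝ) ≤ 2 := by
        intro p hp r
        have hp0 : 0 < p := (hP2 p hp).1.pos
        have h1 := cntO p r U hp0 {0} (by rw [singleton_subset_iff, mem_range]; exact hp0) 1 (by simp)
        have h2 : ((H.filter (fun h => (r + h) % p ∈ ({0} : Finset ℕ))).card : ℝ) ≤
            (((Icc 1 U).filter (fun h => (r + h) % p ∈ ({0} : Finset ℕ))).card : ℝ) := by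
          exact_mod_cast card_le_card (filter_subset_filter _ (by rw [hH]; exact filter_subset _ _))
        have h3 : (U : ℝ) / p ≤ 1 := by
          rw [div_le_one (by exact_mod_cast hp0)]
          exact_mod_cast (hP2 p hp).2.le
        push_cast at h1
        linarith
      have hdev := devi P2 (fun _ => 2) (fun _ => {0}) H i D1 lam eta δ (fun p hp => (hP2 p hp).1)
        (fun p hp => by rw [singleton_subset_iff, mem_range]; exact (hP2 p hp).1.pos)
        (fun p hp => by simpa using (hP2 p hp).1.two_le) hlam hlb hHb hcopr (by linarith) (by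
          refine le_trans (le_of_eq ?_) hsum
          rw [mul_sum, mul_sum, mul_sum]
          apply sum_congr rfl
          intro p _
          rw [card_singleton]
          push_cast
          ring)
      rw [VO_V, ← hD2] at hdev
      have hUV : 0 ≤ U * V P1 := by positivity
      have hHlow : U * V P1 / 2 ≤ H.card := by
        have := (abs_le.1 hHc).1
        nlinarith
      have hHup : (H.card : ℝ) ≤ 5 / 4 * (U * V P1) := by
        have := (abs_le.1 hHc).2
        nlinarith
      have h1 : ∑ j ∈ range D2, (if bad (i + D1 * j) then (1 : ℝ) else 0) ≤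
          (((range D2).filter (fun j => δ * (H.card * V P2) <
            |((H.filter (fun h => ∀ p ∈ P2, (i + D1 * j + h) % p ∉ ({0} : Finset ℕ))).card : ℝ) - H.card * V P2|)).card : ℝ) := by
        rw [card_filter]
        push_cast
        apply sum_le_sum
        intro j _
        by_cases hb : bad (i + D1 * j)
        · rw [if_pos hb, if_pos]
          rw [hbaddef] at hb
          change 3 * δ * (U * V (P1 ∪ P2)) <
            |SO (fun _ => {0}) (P1 ∪ P2) U (i + D1 * j) - U * V (P1 ∪ P2)| at hb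
          rw [hS j, hV] at hb
          obtain ⟨S, hSd⟩ : ∃ S : ℝ, S = ((H.filter (fun h => ∀ p ∈ P2, (i + D1 * j + h) % p ∉ ({0} : Finset ℕ))).card : ℝ) := ⟨_, rfl⟩
          rw [← hSd] at hb ⊢
          have h2 : |S - U * (V P1 * V P2)| ≤ |S - H.card * V P2| + |H.card * V P2 - U * (V P1 * V P2)| := abs_sub_le _ _ _
          have h3 : |H.card * V P2 - U * (V P1 * V P2)| ≤ δ * (U * (V P1 * V P2)) := by
            have e1 : H.card * V P2 - U * (V P1 * V P2) = (H.card - U * V P1) * V P2 := by ring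
            rw [e1, abs_mul, abs_of_pos hV2]
            have := mul_le_mul_of_nonneg_right hHc hV2.le
            linarith
          have h4 : H.card * V P2 ≤ (5 / 4) * (U * (V P1 * V P2)) := by
            have := mul_le_mul_of_nonneg_right hHup hV2.le
            linarith
          have h8 := mul_le_mul_of_nonneg_left h4 hδ.le
          have h9 : 0 ≤ δ * (U * (V P1 * V P2)) := by positivity
          linarith
        · rw [if_neg hb]
          split_ifs <;> norm_num
      refine h1.trans (hdev.trans ?_)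
      have h3 : U * V (P1 ∪ P2) / 2 ≤ H.card * V P2 := by
        rw [hV]
        have := mul_le_mul_of_nonneg_right hHlow hV2.le
        linarith
      have h4 : Real.exp (-(lam * (H.card * V P2) * (δ - 2 * eta))) ≤ E := by
        rw [hE]
        apply Real.exp_le_exp.2
        rw [neg_le_neg_iff]
        have e1 : δ - 2 * eta = δ / 2 := by rw [heta]; ring
        rw [e1]
        apply mul_le_mul_of_nonneg_right _ (by linarith)
        exact mul_le_mul_of_nonneg_left h3 hlam
      have h5 : (0 : ℝ) ≤ 2 * D2 := by positivity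
      have h6 := mul_le_mul_of_nonneg_left h4 h5
      linarith
  have h1 : (((range (D1 * D2)).filter bad).card : ℝ) = ∑ i ∈ range D1, ∑ j ∈ range D2, (if bad (i + D1 * j) then (1 : ℝ) else 0) := by
    rw [card_filter]
    push_cast
    exact sum_split D1 D2 (fun n => if bad n then (1 : ℝ) else 0)
  have h2 : (((range D1).filter bad1).card : ℝ) = ∑ i ∈ range D1, (if bad1 i then (1 : ℝ) else 0) := by
    rw [card_filter]
    push_cast
    rfl
  have h3 : ((D1 * D2 : ℕ) : ℝ) = D1 * D2 := by push_cast; ring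
  have h4 := sum_le_sum key
  rw [← h1, sum_add_distrib, ← sum_mul, ← h2, sum_const, card_range, nsmul_eq_mul] at h4
  have h5 : (((range D1).filter bad1).card : ℝ) ≤ β * D1 := by
    rw [hbad1]
    exact hbad
  have h6 : (0 : ℝ) ≤ D2 := Nat.cast_nonneg _
  have h7 := mul_le_mul_of_nonneg_right h5 h6
  rw [hbaddef] at h4
  rw [h3]
  calc _ ≤ _ := h4
    _ ≤ β * D1 * D2 + D1 * (D2 * (2 * E)) := by linarith
    _ = _ := by ring

end Pool.Agent.Y829.RS
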