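import Pool.Agent.Y829.RS1

/-! Concentration of the number of survivors in intervals of length `log X (log log X)^3`, part 2. -/

set_option autoImplicit false

namespace Pool.Agent.Y829.RS

open Finset Filter Topology Pool.Agent.Y829 Pool.Agent.Y829.RP

lemma ll_tend : Tendsto (fun X : ℕ => Real.log (Real.log (X : ℝ))) atTop atTop :=
  Real.tendsto_log_atTop.comp log_tend

lemma evl (a K K' : ℝ) (ha : 0 < a) : ∀ᶠ X : ℕ in atTop, K * Real.log (Real.log X) + K' ≤ Real.log X ^ a := by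
  have h1 : ∀ᶠ L : ℝ in atTop, K * Real.log L + K' ≤ L ^ a := by
    have h2 := (isLittleO_log_rpow_atTop ha).def (show (0 : ℝ) < 1 / (2 * (|K| + 1)) by positivity)
    have h3 := (tendsto_rpow_atTop ha).eventually_ge_atTop (2 * |K'|)
    filter_upwards [h2, h3, eventually_ge_atTop (1 : ℝ)] with L hL1 hL2 hL3
    have h4 : 0 ≤ Real.log L := Real.log_nonneg hL3
    have h5 : 0 ≤ L ^ a := by positivity
    rw [Real.norm_of_nonneg h4, Real.norm_of_nonneg h5] at hL1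
    have h6 : K * Real.log L ≤ |K| * Real.log L := mul_le_mul_of_nonneg_right (le_abs_self K) h4
    have h7 : |K| * Real.log L ≤ (|K| + 1) * (1 / (2 * (|K| + 1)) * L ^ a) := by
      apply mul_le_mul (by linarith) hL1 h4 (by positivity)
    have h8 : (|K| + 1) * (1 / (2 * (|K| + 1)) * L ^ a) = L ^ a / 2 := by field_simp
    have h9 := le_abs_self K'
    linarith
  exact log_tend.eventually h1

lemma expneg_le {t L : ℝ} {n : ℕ} (hL : 0 < L) (h : n * Real.log L + Real.log 4 ≤ t) :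
    4 * (Real.exp (-t) * L ^ n) ≤ 1 := by
  have h1 : L ^ n = Real.exp (n * Real.log L) := by
    rw [← Real.log_pow, Real.exp_log (pow_pos hL n)]
  rw [h1, ← Real.exp_add]
  have h2 : (4 : ℝ) = Real.exp (Real.log 4) := (Real.exp_log (by norm_num)).symm
  rw [h2, ← Real.exp_add, Real.exp_le_one_iff]
  linarith

/-- **Concentration** -/
theorem conc (b Cc : ℕ) : ∃ X0 : ℕ, ∀ X : ℕ, X0 ≤ X → ∀ U Q : ℕ,
    Real.log X * Real.log (Real.log X) ^ 3 ≤ U → Q ≤ X →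
    (((range (∏ p ∈ PQ Q, p)).filter (fun n => (1 / 2 : ℝ) ^ b * (U * V (PQ Q)) <
      |SO (fun _ => {0}) (PQ Q) U n - U * V (PQ Q)|)).card : ℝ) * Real.log X ^ Cc ≤
      ((∏ p ∈ PQ Q, p : ℕ) : ℝ) := by
  classical
  obtain ⟨C, hC1, hg⟩ := gtail 1
  obtain ⟨b1, hb1⟩ : ∃ b1, b1 = b + 2 + C := ⟨_, rfl⟩
  obtain ⟨U1, hU12, hg'⟩ := hg b1 (by omega)
  obtain ⟨cm, hcm, hmert⟩ := mert
  obtain ⟨δ, hδ⟩ : ∃ δ : ℝ, δ = (1 / 2 : ℝ) ^ b1 := ⟨_, rfl⟩
  have hδ0 : 0 < δ := by rw [hδ]; positivity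
  have hδb : 4 * δ ≤ (1 / 2 : ℝ) ^ b := by
    have h1 : (1 / 2 : ℝ) ^ b1 ≤ (1 / 2 : ℝ) ^ (b + 2) := pow_le_pow_of_le_one (by norm_num) (by norm_num) (by omega)
    rw [pow_add] at h1
    norm_num at h1 ⊢
    rw [hδ]
    norm_num
    linarith
  have hδ1 : δ ≤ 1 / 4 := by
    have : (1 / 2 : ℝ) ^ b ≤ 1 := pow_le_one₀ (by norm_num) (by norm_num)
    linarith
  have hC1r : (1 : ℝ) ≤ C := by exact_mod_cast hC1
  have hb1r : (1 : ℝ) ≤ b1 := by exact_mod_cast (by omega : 1 ≤ b1)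
  obtain ⟨a, ha⟩ : ∃ a : ℝ, a = 1 / ((C : ℝ) * b1) := ⟨_, rfl⟩
  have ha0 : 0 < a := by rw [ha]; positivity
  rw [← ha, ← hδ] at hg'
  obtain ⟨U2, hU2⟩ := (ev a 1 0 ha0).exists_forall_of_atTop
  obtain ⟨Kc, hKc⟩ : ∃ Kc : ℝ, Kc = (Cc + 2) * 128 / (cm * δ ^ 2) := ⟨_, rfl⟩
  have hKc0 : 0 ≤ Kc := by rw [hKc]; positivity
  have E := (((log_tend.eventually_ge_atTop ((U1 : ℝ) + U2 + 1)).and
    (ll_tend.eventually_ge_atTop (1 + Kc + |Real.log cm|))).and
    (evl a Cc (Real.log 4) ha0)).and (eventually_ge_atTop 3)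
  obtain ⟨X0, hX0⟩ := E.exists_forall_of_atTop
  refine ⟨X0, ?_⟩
  intro X hX U Q hU hQ
  obtain ⟨⟨⟨e1, e2⟩, e3⟩, e4⟩ := hX0 X hX
  obtain ⟨L, hL⟩ : ∃ L : ℝ, L = Real.log X := ⟨_, rfl⟩
  obtain ⟨ll, hll⟩ : ∃ ll : ℝ, ll = Real.log L := ⟨_, rfl⟩
  rw [← hL] at hU e1 e2 e3 ⊢
  rw [← hll] at hU e2 e3
  have hL1 : 1 ≤ L := by
    have h1 : (0 : ℝ) ≤ U1 := Nat.cast_nonneg _
    have h2 : (0 : ℝ) ≤ U2 := Nat.cast_nonneg _
    linarith
  have hll1 : 1 ≤ ll := by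
    have := abs_nonneg (Real.log cm)
    linarith
  have hUL : L ≤ U := by
    have h1 : 1 ≤ ll ^ 3 := one_le_pow₀ hll1
    nlinarith
  have hUU1 : U1 ≤ U := by
    have h2 : (0 : ℝ) ≤ U2 := Nat.cast_nonneg _
    have h3 : (U1 : ℝ) ≤ U := by linarith
    exact_mod_cast h3
  have hUU2 : U2 ≤ U := by
    have h2 : (0 : ℝ) ≤ U1 := Nat.cast_nonneg _
    have h3 : (U2 : ℝ) ≤ U := by linarith
    exact_mod_cast h3
  have hUpos : (0 : ℝ) < U := by linarith
  have hU0 : 0 < U := by exact_mod_cast hUpos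
  -- the two sets of primes
  obtain ⟨P1, hP1⟩ : ∃ P1, P1 = (PQ Q).filter (fun p => p ≤ U) := ⟨_, rfl⟩
  obtain ⟨P2, hP2⟩ : ∃ P2, P2 = (PQ Q).filter (fun p => U < p) := ⟨_, rfl⟩
  have hP1p : ∀ p ∈ P1, p.Prime ∧ p ≤ U := by
    intro p hp
    rw [hP1, mem_filter, mem_PQ] at hp
    exact ⟨hp.1.1, hp.2⟩
  have hP2p : ∀ p ∈ P2, p.Prime ∧ U < p := by
    intro p hp
    rw [hP2, mem_filter, mem_PQ] at hp
    exact ⟨hp.1.1, hp.2⟩
  have hd : Disjoint P1 P2 := by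
    rw [disjoint_left]
    intro p h1 h2
    have := (hP1p p h1).2
    have := (hP2p p h2).2
    omega
  have hun : P1 ∪ P2 = PQ Q := by
    rw [hP1, hP2]
    ext p
    rw [mem_union, mem_filter, mem_filter]
    constructor
    · rintro (h | h) <;> exact h.1
    · intro hp
      rcases le_or_gt p U with h | h
      · exact Or.inl ⟨hp, h⟩
      · exact Or.inr ⟨hp, h⟩
  obtain ⟨-, hst1⟩ := hg' U hUU1 P1 (fun _ => {0}) (fun p hp => ⟨(hP1p p hp).1, by
      have h1 := hU2 U hUU2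
      have h2 : Real.log p ≤ Real.log U := Real.log_le_log (by exact_mod_cast (hP1p p hp).1.pos)
        (by exact_mod_cast (hP1p p hp).2)
      linarith⟩) (fun p hp => ⟨by
      rw [singleton_subset_iff, mem_range]; exact (hP1p p hp).1.pos, by simp, by
      simpa using (hP1p p hp).1.one_lt⟩)
  rw [VO_V] at hst1
  have hX2 : 2 ≤ X := by omega
  have hVP : cm / L ≤ V (PQ Q) := by
    rw [hL]
    exact hmert X hX2 (PQ Q) (fun p hp => ⟨(mem_PQ.1 hp).1, (mem_PQ.1 hp).2.trans hQ⟩)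
  have hVP2 : cm / L ≤ V P2 := by
    rw [hL]
    refine hmert X hX2 P2 (fun p hp => ?_)
    rw [hP2, mem_filter, mem_PQ] at hp
    exact ⟨hp.1.1, hp.1.2.trans hQ⟩
  have hsum1 : ∑ p ∈ P2, 1 / (p : ℝ) ≤ 2 * ll := by
    refine (sum_inv_V P2 fun p hp => (hP2p p hp).1).trans ?_
    have h1 := Real.log_le_log (by positivity) hVP2
    rw [Real.log_div hcm.ne' (by linarith), ← hll] at h1
    have h2 := neg_abs_le (Real.log cm)
    linarith
  obtain ⟨eta, heta⟩ : ∃ eta : ℝ, eta = δ / 4 := ⟨_, rfl⟩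
  obtain ⟨lam, hlam⟩ : ∃ lam : ℝ, lam = eta / (8 * ll) := ⟨_, rfl⟩
  have heta0 : 0 < eta := by rw [heta]; positivity
  have hlam0 : 0 < lam := by rw [hlam]; positivity
  have hlam1 : lam ≤ 1 / 2 := by
    rw [hlam, div_le_iff₀ (by positivity)]
    linarith
  have hmain := twostage P1 P2 U δ lam eta (Real.exp (-(3 * (U : ℝ) ^ a))) (fun p hp => (hP1p p hp).1) hP2p hd hδ0
    hδ1 heta hlam0.le hlam1 (by
      have h1 : lam * ∑ p ∈ P2, 1 / (p : ℝ) ≤ lam * (2 * ll) := mul_le_mul_of_nonneg_left hsum1 hlam0.le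
      have h2 : lam * (2 * ll) = eta / 4 := by
        rw [hlam]
        field_simp
        ring
      linarith) (by
      rw [Real.exp_neg]
      rw [inv_mul_eq_div, le_div_iff₀ (Real.exp_pos _)]
      exact hst1)
  rw [hun] at hmain
  have hV0 : 0 < V (PQ Q) := V_pos fun p hp => (mem_PQ.1 hp).1
  have hUV : cm * ll ^ 3 ≤ U * V (PQ Q) := by
    have h1 : L * ll ^ 3 * (cm / L) ≤ U * V (PQ Q) := mul_le_mul hU hVP (by positivity) hUpos.le
    have h2 : L * ll ^ 3 * (cm / L) = cm * ll ^ 3 := by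
      field_simp
    linarith
  have hbound : (Real.exp (-(3 * (U : ℝ) ^ a)) + 2 * Real.exp (-(lam * (U * V (PQ Q) / 2) * (δ / 2)))) * L ^ Cc ≤ 1 := by
    have hL0 : 0 < L := by linarith
    have g1 : 4 * (Real.exp (-(3 * (U : ℝ) ^ a)) * L ^ Cc) ≤ 1 := by
      apply expneg_le hL0
      rw [← hll]
      have h1 : L ^ a ≤ (U : ℝ) ^ a := Real.rpow_le_rpow hL0.le hUL ha0.le
      have h2 : 0 ≤ L ^ a := by positivity
      linarith
    have g2 : 4 * (Real.exp (-(lam * (U * V (PQ Q) / 2) * (δ / 2))) * L ^ Cc) ≤ 1 := by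
      apply expneg_le hL0
      rw [← hll]
      have h1 : lam * (cm * ll ^ 3 / 2) * (δ / 2) ≤ lam * (U * V (PQ Q) / 2) * (δ / 2) := by
        apply mul_le_mul_of_nonneg_right _ (by positivity)
        apply mul_le_mul_of_nonneg_left _ hlam0.le
        linarith
      have h2 : lam * (cm * ll ^ 3 / 2) * (δ / 2) = cm * δ ^ 2 / 128 * ll * ll := by
        rw [hlam, heta]
        field_simp
        ring
      have h3 : (Cc : ℝ) + 2 ≤ cm * δ ^ 2 / 128 * ll := by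
        have h4 : Kc ≤ ll := by
          have := abs_nonneg (Real.log cm)
          linarith
        have h5 := mul_le_mul_of_nonneg_left h4 (show 0 ≤ cm * δ ^ 2 / 128 by positivity)
        refine le_trans (le_of_eq ?_) h5
        rw [hKc]
        field_simp
      have h4 := mul_le_mul_of_nonneg_right h3 (by linarith : (0 : ℝ) ≤ ll)
      have h5 : Real.log 4 ≤ 2 := by
        have h6 : Real.log 4 = 2 * Real.log 2 := by
          rw [show (4 : ℝ) = 2 ^ 2 by norm_num, Real.log_pow]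
          norm_num
        have := Real.log_two_lt_d9
        rw [h6]
        linarith
      nlinarith
    nlinarith
  have h1 : (((range (∏ p ∈ PQ Q, p)).filter (fun n => (1 / 2 : ℝ) ^ b * (U * V (PQ Q)) <
      |SO (fun _ => {0}) (PQ Q) U n - U * V (PQ Q)|)).card : ℝ) ≤
      (((range (∏ p ∈ PQ Q, p)).filter (fun n => 3 * δ * (U * V (PQ Q)) <
      |SO (fun _ => {0}) (PQ Q) U n - U * V (PQ Q)|)).card : ℝ) := by
    have : (range (∏ p ∈ PQ Q, p)).filter (fun n => (1 / 2 : ℝ) ^ b * (U * V (PQ Q)) <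
      |SO (fun _ => {0}) (PQ Q) U n - U * V (PQ Q)|) ⊆ (range (∏ p ∈ PQ Q, p)).filter (fun n => 3 * δ * (U * V (PQ Q)) <
      |SO (fun _ => {0}) (PQ Q) U n - U * V (PQ Q)|) := by
      intro n hn
      rw [mem_filter] at hn ⊢
      refine ⟨hn.1, lt_of_le_of_lt ?_ hn.2⟩
      apply mul_le_mul_of_nonneg_right _ (by positivity)
      linarith
    exact_mod_cast card_le_card this
  have h2 := h1.trans hmain
  have hLC : (0 : ℝ) ≤ L ^ Cc := by positivity
  have h3 := mul_le_mul_of_nonneg_right h2 hLC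
  refine h3.trans ?_
  have h4 : (0 : ℝ) ≤ ((∏ p ∈ PQ Q, p : ℕ) : ℝ) := Nat.cast_nonneg _
  have h5 := mul_le_mul_of_nonneg_right hbound h4
  rw [one_mul] at h5
  refine le_trans (le_of_eq ?_) h5
  ring

end Pool.Agent.Y829.RS
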