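import Pool.Agent.Y829.RS2

/-! The mean square of a sieve weight and its mass on a sparse set. -/

set_option autoImplicit false

namespace Pool.Agent.Y829.RS

open Finset Filter Topology Pool.Agent.Y829 Pool.Agent.Y829.RP

lemma cnt_two (N d e a a' : ℕ) (hd : 0 < d) (he : 0 < e) (hdN : d ∣ N) (heN : e ∣ N) :
    (((range N).filter (fun n => n % d = a ∧ n % e = a')).card : ℝ) ≤ N / (Nat.lcm d e : ℝ) := by
  classical
  have hl : 0 < Nat.lcm d e := Nat.lcm_pos hd he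
  rcases ((range N).filter (fun n => n % d = a ∧ n % e = a')).eq_empty_or_nonempty with h | ⟨v, hv⟩
  · rw [h, card_empty, Nat.cast_zero]
    positivity
  · rw [mem_filter] at hv
    have hsub : (range N).filter (fun n => n % d = a ∧ n % e = a') ⊆
        (range N).filter (fun n => n % (Nat.lcm d e) = v % (Nat.lcm d e)) := by
      intro n hn
      rw [mem_filter] at hn ⊢
      refine ⟨hn.1, ?_⟩
      have h1 : n ≡ v [MOD d] := by
        show n % d = v % d
        rw [hn.2.1, hv.2.1]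
      have h2 : n ≡ v [MOD e] := by
        show n % e = v % e
        rw [hn.2.2, hv.2.2]
      have h3 : n ≡ v [MOD (Nat.lcm d e)] := by
        rw [Nat.modEq_iff_dvd] at *
        rw [Int.natCast_dvd] at *
        exact Nat.lcm_dvd h1 h2
      exact h3
    have h1 := card_le_card hsub
    rw [cnt_class N (Nat.lcm d e) (v % (Nat.lcm d e)) hl (Nat.mod_lt _ hl) (Nat.lcm_dvd hdN heN)] at h1
    have h2 : (((range N).filter (fun n => n % d = a ∧ n % e = a')).card : ℝ) ≤ ((N / (Nat.lcm d e) : ℕ) : ℝ) := by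
      exact_mod_cast h1
    exact h2.trans Nat.cast_div_le

lemma crosssum (N d e : ℕ) (c : ℕ → ℕ → ℝ) (hd : 0 < d) (he : 0 < e) (hdN : d ∣ N) (heN : e ∣ N) :
    ∑ n ∈ range N, |c d (n % d)| * |c e (n % e)| ≤ N * (ss c d * ss c e / (Nat.lcm d e : ℝ)) := by
  classical
  have h1 : ∀ n ∈ range N, |c d (n % d)| * |c e (n % e)| =
      ∑ a ∈ range d, ∑ a' ∈ range e, (|c d a| * |c e a'|) * (if n % d = a ∧ n % e = a' then 1 else 0) := by
    intro n _
    rw [sum_eq_single (n % d)]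
    · rw [sum_eq_single (n % e)]
      · simp
      · intro b _ hb
        rw [if_neg, mul_zero]
        rintro ⟨-, h⟩
        exact hb h.symm
      · intro h
        exact absurd (mem_range.2 (Nat.mod_lt _ he)) h
    · intro b _ hb
      apply sum_eq_zero
      intro a' _
      rw [if_neg, mul_zero]
      rintro ⟨h, -⟩
      exact hb h.symm
    · intro h
      exact absurd (mem_range.2 (Nat.mod_lt _ hd)) h
  rw [sum_congr rfl h1, sum_comm]
  have h2 : ∀ a ∈ range d, ∑ n ∈ range N, ∑ a' ∈ range e, (|c d a| * |c e a'|) * (if n % d = a ∧ n % e = a' then (1 : ℝ) else 0) ≤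
      ∑ a' ∈ range e, (|c d a| * |c e a'|) * (N / (Nat.lcm d e : ℝ)) := by
    intro a _
    rw [sum_comm]
    apply sum_le_sum
    intro a' _
    rw [← mul_sum]
    apply mul_le_mul_of_nonneg_left _ (by positivity)
    have h3 := cnt_two N d e a a' hd he hdN heN
    rw [card_filter] at h3
    push_cast at h3
    exact h3
  refine (sum_le_sum h2).trans (le_of_eq ?_)
  unfold ss
  have h3 : ∀ a ∈ range d, ∑ a' ∈ range e, (|c d a| * |c e a'|) * (N / (Nat.lcm d e : ℝ)) =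
      |c d a| * ((∑ a' ∈ range e, |c e a'|) * (N / (Nat.lcm d e : ℝ))) := by
    intro a _
    rw [sum_mul, mul_sum]
    apply sum_congr rfl
    intro a' _
    ring
  rw [sum_congr rfl h3, ← sum_mul]
  ring

/-- the harmonic sum -/
noncomputable def HH (Q : ℕ) : ℝ := ∑ k ∈ Icc 1 Q, 1 / (k : ℝ)

lemma HH_nonneg (Q : ℕ) : 0 ≤ HH Q := sum_nonneg fun k _ => by positivity

lemma HH_mult (Q e : ℕ) (he : 0 < e) : ∑ d ∈ Icc 1 Q, (if e ∣ d then (e : ℝ) / d else 0) ≤ HH Q := by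
  classical
  rw [← sum_filter]
  unfold HH
  have h1 : ∑ d ∈ (Icc 1 Q).filter (fun d => e ∣ d), (e : ℝ) / d =
      ∑ k ∈ ((Icc 1 Q).filter (fun d => e ∣ d)).image (fun d => d / e), 1 / (k : ℝ) := by
    rw [sum_image]
    · apply sum_congr rfl
      intro d hd
      rw [mem_filter] at hd
      obtain ⟨k, hk⟩ := hd.2
      have hk0 : 0 < k := by
        rcases Nat.eq_zero_or_pos k with h | h
        · rw [h, mul_zero] at hk
          have := (mem_Icc.1 hd.1).1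
          omega
        · exact h
      rw [hk, Nat.mul_div_cancel_left _ he]
      push_cast
      have : (e : ℝ) ≠ 0 := by exact_mod_cast he.ne'
      field_simp
    · intro a ha b hb hab
      rw [mem_coe, mem_filter] at ha hb
      obtain ⟨k, hk⟩ := ha.2
      obtain ⟨k', hk'⟩ := hb.2
      simp only at hab
      rw [hk, hk', Nat.mul_div_cancel_left _ he, Nat.mul_div_cancel_left _ he] at hab
      rw [hk, hk', hab]
  rw [h1]
  apply sum_le_sum_of_subset_of_nonneg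
  · intro k hk
    rw [mem_image] at hk
    obtain ⟨d, hd, rfl⟩ := hk
    rw [mem_filter, mem_Icc] at hd
    rw [mem_Icc]
    constructor
    · exact Nat.div_pos (Nat.le_of_dvd (by omega) hd.2) he
    · exact (Nat.div_le_self _ _).trans hd.1.2
  · intro k _ _
    positivity

lemma lcmsum (Q d : ℕ) (hd : 0 < d) : ∑ e ∈ Icc 1 Q, 1 / (Nat.lcm d e : ℝ) ≤ (d.divisors.card : ℝ) / d * HH Q := by
  classical
  have hd0 : (0 : ℝ) < d := by exact_mod_cast hd
  have h1 : ∀ e ∈ Icc 1 Q, 1 / (Nat.lcm d e : ℝ) ≤ (1 / (d : ℝ)) * ∑ g ∈ d.divisors, (if g ∣ e then (g : ℝ) / e else 0) := by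
    intro e he
    rw [mem_Icc] at he
    have he0 : (0 : ℝ) < e := by exact_mod_cast (by omega : 0 < e)
    have h2 : ((Nat.gcd d e : ℕ) : ℝ) * (Nat.lcm d e : ℝ) = d * e := by exact_mod_cast Nat.gcd_mul_lcm d e
    have h3 : (0 : ℝ) < (Nat.lcm d e : ℝ) := by exact_mod_cast Nat.lcm_pos hd (by omega)
    have h4 : 1 / (Nat.lcm d e : ℝ) = (1 / (d : ℝ)) * ((Nat.gcd d e : ℝ) / e) := by
      field_simp
      linarith
    rw [h4]
    apply mul_le_mul_of_nonneg_left _ (by positivity)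
    have h5 : (if Nat.gcd d e ∣ e then ((Nat.gcd d e : ℕ) : ℝ) / e else 0) ≤
        ∑ g ∈ d.divisors, (if g ∣ e then (g : ℝ) / e else 0) := by
      apply single_le_sum (f := fun g : ℕ => (if g ∣ e then (g : ℝ) / e else 0))
      · intro g _
        show (0 : ℝ) ≤ (if g ∣ e then (g : ℝ) / e else 0)
        split_ifs <;> positivity
      · rw [Nat.mem_divisors]
        exact ⟨Nat.gcd_dvd_left d e, hd.ne'⟩
    rwa [if_pos (Nat.gcd_dvd_right d e)] at h5
  refine (sum_le_sum h1).trans ?_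
  rw [← mul_sum, sum_comm]
  have h2 : ∑ g ∈ d.divisors, ∑ e ∈ Icc 1 Q, (if g ∣ e then (g : ℝ) / e else 0) ≤ ∑ _g ∈ d.divisors, HH Q := by
    apply sum_le_sum
    intro g hg
    exact HH_mult Q g (Nat.pos_of_mem_divisors hg)
  rw [sum_const, nsmul_eq_mul] at h2
  have h3 := mul_le_mul_of_nonneg_left h2 (show 0 ≤ 1 / (d : ℝ) by positivity)
  refine h3.trans (le_of_eq ?_)
  ring

/-- the mean square -/
lemma meansq (Q N : ℕ) (c : ℕ → ℕ → ℝ) (T : ℝ) (D : Finset ℕ) (hD : D ⊆ Icc 1 Q)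
    (hT0 : 0 ≤ T) (hT : ∀ d ∈ D, (d.divisors.card : ℝ) ≤ T) (hdN : ∀ d ∈ Icc 1 Q, d ∣ N) :
    ∑ n ∈ range N, (∑ d ∈ D, |c d (n % d)|) ^ 2 ≤ N * (T * HH Q * ∑ d ∈ Icc 1 Q, ss c d ^ 2 / d) := by
  classical
  have h1 : ∀ n ∈ range N, (∑ d ∈ D, |c d (n % d)|) ^ 2 = ∑ d ∈ D, ∑ e ∈ D, |c d (n % d)| * |c e (n % e)| := by
    intro n _
    rw [sq, sum_mul_sum]
  rw [sum_congr rfl h1, sum_comm]
  have h2 : ∀ d ∈ D, ∑ n ∈ range N, ∑ e ∈ D, |c d (n % d)| * |c e (n % e)| ≤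
      ∑ e ∈ D, N * (ss c d * ss c e / (Nat.lcm d e : ℝ)) := by
    intro d hd
    rw [sum_comm]
    apply sum_le_sum
    intro e he
    exact crosssum N d e c (mem_Icc.1 (hD hd)).1 (mem_Icc.1 (hD he)).1 (hdN d (hD hd)) (hdN e (hD he))
  refine (sum_le_sum h2).trans ?_
  simp only [← mul_sum]
  apply mul_le_mul_of_nonneg_left _ (Nat.cast_nonneg _)
  have h3 : ∀ d ∈ D, ∀ e ∈ D, ss c d * ss c e / (Nat.lcm d e : ℝ) ≤
      (1 / 2) * (ss c d ^ 2 * (1 / (Nat.lcm d e : ℝ))) + (1 / 2) * (ss c e ^ 2 * (1 / (Nat.lcm d e : ℝ))) := by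
    intro d _ e _
    have h4 : 0 ≤ 1 / (Nat.lcm d e : ℝ) := by positivity
    have h5 : ss c d * ss c e ≤ (1 / 2) * ss c d ^ 2 + (1 / 2) * ss c e ^ 2 := by
      nlinarith [sq_nonneg (ss c d - ss c e)]
    have h6 := mul_le_mul_of_nonneg_right h5 h4
    calc ss c d * ss c e / (Nat.lcm d e : ℝ) = ss c d * ss c e * (1 / (Nat.lcm d e : ℝ)) := by ring
      _ ≤ _ := h6
      _ = _ := by ring
  have h4 : ∑ d ∈ D, ∑ e ∈ D, ss c d * ss c e / (Nat.lcm d e : ℝ) ≤
      ∑ d ∈ D, ∑ e ∈ D, ((1 / 2) * (ss c d ^ 2 * (1 / (Nat.lcm d e : ℝ))) + (1 / 2) * (ss c e ^ 2 * (1 / (Nat.lcm d e : ℝ)))) :=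
    sum_le_sum fun d hd => sum_le_sum fun e he => h3 d hd e he
  have h5 : ∑ d ∈ D, ∑ e ∈ D, ((1 / 2) * (ss c d ^ 2 * (1 / (Nat.lcm d e : ℝ))) + (1 / 2) * (ss c e ^ 2 * (1 / (Nat.lcm d e : ℝ)))) =
      ∑ d ∈ D, ∑ e ∈ D, ss c d ^ 2 * (1 / (Nat.lcm d e : ℝ)) := by
    have e1 : ∑ d ∈ D, ∑ e ∈ D, (1 / 2) * (ss c e ^ 2 * (1 / (Nat.lcm d e : ℝ))) =
        ∑ d ∈ D, ∑ e ∈ D, (1 / 2) * (ss c d ^ 2 * (1 / (Nat.lcm d e : ℝ))) := by
      rw [sum_comm]
      apply sum_congr rfl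
      intro d _
      apply sum_congr rfl
      intro e _
      rw [Nat.lcm_comm]
    simp only [sum_add_distrib]
    rw [e1, ← sum_add_distrib]
    apply sum_congr rfl
    intro d _
    rw [← sum_add_distrib]
    apply sum_congr rfl
    intro e _
    ring
  rw [h5] at h4
  refine h4.trans ?_
  have h6 : ∀ d ∈ D, ∑ e ∈ D, ss c d ^ 2 * (1 / (Nat.lcm d e : ℝ)) ≤ (T * HH Q) * (ss c d ^ 2 / d) := by
    intro d hd
    have hd0 : 0 < d := (mem_Icc.1 (hD hd)).1
    have hdr : (0 : ℝ) < d := by exact_mod_cast hd0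
    rw [← mul_sum]
    have e1 : ∑ e ∈ D, 1 / (Nat.lcm d e : ℝ) ≤ ∑ e ∈ Icc 1 Q, 1 / (Nat.lcm d e : ℝ) :=
      sum_le_sum_of_subset_of_nonneg hD fun e _ _ => by positivity
    have e2 := lcmsum Q d hd0
    have e3 : (d.divisors.card : ℝ) / d * HH Q ≤ T / d * HH Q := by
      apply mul_le_mul_of_nonneg_right _ (HH_nonneg Q)
      exact div_le_div_of_nonneg_right (hT d hd) hdr.le
    have e4 := mul_le_mul_of_nonneg_left ((e1.trans e2).trans e3) (sq_nonneg (ss c d))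
    refine e4.trans (le_of_eq ?_)
    ring
  refine (sum_le_sum h6).trans ?_
  rw [← mul_sum]
  apply mul_le_mul_of_nonneg_left _ (mul_nonneg hT0 (HH_nonneg Q))
  exact sum_le_sum_of_subset_of_nonneg hD fun d _ _ => by positivity

lemma tausum (Q : ℕ) : ∑ d ∈ Icc 1 Q, (d.divisors.card : ℝ) / d ≤ HH Q ^ 2 := by
  classical
  have h1 : ∀ d ∈ Icc 1 Q, (d.divisors.card : ℝ) / d ≤ ∑ e ∈ Icc 1 Q, (if e ∣ d then (e : ℝ) / d else 0) * (1 / e) := by
    intro d hd
    rw [mem_Icc] at hd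
    have hd0 : (0 : ℝ) < d := by exact_mod_cast (by omega : 0 < d)
    have h2 : (d.divisors.card : ℝ) / d = ∑ e ∈ d.divisors, (if e ∣ d then (e : ℝ) / d else 0) * (1 / e) := by
      have h3 : ∀ e ∈ d.divisors, (if e ∣ d then (e : ℝ) / d else 0) * (1 / e) = 1 / d := by
        intro e he
        have he0 : (e : ℝ) ≠ 0 := by exact_mod_cast (Nat.pos_of_mem_divisors he).ne'
        rw [if_pos (Nat.dvd_of_mem_divisors he)]
        field_simp
      rw [sum_congr rfl h3, sum_const, nsmul_eq_mul]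
      ring
    rw [h2]
    apply sum_le_sum_of_subset_of_nonneg
    · intro e he
      rw [mem_Icc]
      exact ⟨Nat.pos_of_mem_divisors he, (Nat.divisor_le he).trans hd.2⟩
    · intro e _ _
      split_ifs <;> positivity
  refine (sum_le_sum h1).trans ?_
  rw [sum_comm]
  have h2 : ∀ e ∈ Icc 1 Q, ∑ d ∈ Icc 1 Q, (if e ∣ d then (e : ℝ) / d else 0) * (1 / e) ≤ HH Q * (1 / e) := by
    intro e he
    rw [← sum_mul]
    apply mul_le_mul_of_nonneg_right (HH_mult Q e (mem_Icc.1 he).1) (by positivity)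
  refine (sum_le_sum h2).trans (le_of_eq ?_)
  rw [← mul_sum, sq]
  rfl

end Pool.Agent.Y829.RS
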