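import Pool.Agent.Y829.RP4
import Pool.Agent.H378R2.M7s
import Pool.Agent.H378R2.LSBV7

/-! Sieve weights relative to a large modulus: reduction to the relative Bombieri-Vinogradov theorem. -/

set_option autoImplicit false

namespace Pool.Agent.Y829.RW

open Finset Filter Topology Pool.Agent.Y829 Pool.Agent.Y829.RP
open Pool.Agent.H378R2 (Phi EPhi LPhi WW GoodP GoodS BVrel)

/-- the smoothed sum over the prime powers of the weight at distance `h` -/
noncomputable def TT (X : ℝ) (Q : ℕ) (c : ℕ → ℕ → ℝ) (h : ℕ) : ℝ :=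
  ∑ m ∈ Icc 1 ⌊3 * X⌋₊, Phi (m / X) * ArithmeticFunction.vonMangoldt m * wt Q c (m - h)

lemma TT_eq (X : ℝ) (hX : 1 ≤ X) (Q : ℕ) (c : ℕ → ℕ → ℝ) (h : ℕ) (hh : (h : ℝ) ≤ X) :
    TT X Q c h = ∑ d ∈ Icc 1 Q, ∑ a ∈ range d, c d a *
      ∑ m ∈ (Icc 1 ⌊3 * X⌋₊).filter (fun m => m ≡ a + h [MOD d]), Phi (m / X) * ArithmeticFunction.vonMangoldt m := by
  classical
  have h1 : ∀ m ∈ Icc 1 ⌊3 * X⌋₊, Phi (m / X) * ArithmeticFunction.vonMangoldt m * wt Q c (m - h) =
      ∑ d ∈ Icc 1 Q, ∑ a ∈ range d, c d a * (if m ≡ a + h [MOD d] then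
        Phi (m / X) * ArithmeticFunction.vonMangoldt m else 0) := by
    intro m _
    by_cases hm : (m : ℝ) ≤ X
    · have h2 : Phi (m / X) = 0 :=
        Pool.Agent.H378R2.Phi_eq_zero_of_le (by positivity) (by rw [div_le_one (by linarith)]; exact hm)
      rw [h2]
      simp
    · rw [not_le] at hm
      have hmh : h ≤ m := by
        have : (h : ℝ) < m := lt_of_le_of_lt hh hm
        exact_mod_cast this.le
      rw [wt_eq, mul_sum]
      apply sum_congr rfl
      intro d hd
      rw [mul_sum]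
      apply sum_congr rfl
      intro a ha
      have h3 : (m - h) % d = a ↔ m ≡ a + h [MOD d] := by
        have had : a % d = a := Nat.mod_eq_of_lt (mem_range.1 ha)
        have e1 : m - h + h = m := by omega
        constructor
        · intro h4
          have h5 : m - h ≡ a [MOD d] := by
            show (m - h) % d = a % d
            rw [had, h4]
          have h6 := h5.add_right h
          rwa [e1] at h6
        · intro h4
          have h5 : m - h + h ≡ a + h [MOD d] := by rw [e1]; exact h4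
          have h6 : m - h ≡ a [MOD d] := Nat.ModEq.add_right_cancel' h h5
          have h7 : (m - h) % d = a % d := h6
          rw [h7, had]
      by_cases h4 : m ≡ a + h [MOD d]
      · rw [if_pos h4, if_pos (h3.2 h4)]
        ring
      · rw [if_neg h4, if_neg (fun h5 => h4 (h3.1 h5))]
        ring
  unfold TT
  rw [sum_congr rfl h1, sum_comm]
  apply sum_congr rfl
  intro d _
  rw [sum_comm]
  apply sum_congr rfl
  intro a _
  rw [← mul_sum, sum_filter]

lemma cls (X : ℝ) (hX : 1 ≤ X) (d b : ℕ) (hd : 1 ≤ d) :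
    |∑ m ∈ (Icc 1 ⌊3 * X⌋₊).filter (fun m => m ≡ b [MOD d]), Phi (m / X) * ArithmeticFunction.vonMangoldt m -
      (if b.Coprime d then LPhi X / (Nat.totient d : ℝ) else 0)| ≤
      (if b.Coprime d then |EPhi X d b| else 0) + d.primeFactors.card * Real.log (3 * X) := by
  have hlog : 0 ≤ Real.log (3 * X) := Real.log_nonneg (by linarith)
  by_cases hb : b.Coprime d
  · rw [if_pos hb, if_pos hb]
    have h1 := Pool.Agent.H378R2.EPhi_eq X d b
    have h2 : ∑ m ∈ (Icc 1 ⌊3 * X⌋₊).filter (fun m => m ≡ b [MOD d]), Phi (m / X) * ArithmeticFunction.vonMangoldt m -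
        LPhi X / (Nat.totient d : ℝ) = EPhi X d b := by
      rw [h1]
      ring
    rw [h2]
    have : (0 : ℝ) ≤ d.primeFactors.card * Real.log (3 * X) := by positivity
    linarith
  · rw [if_neg hb, if_neg hb, sub_zero, zero_add]
    have hnn : ∀ m : ℕ, 0 ≤ Phi (m / X) * ArithmeticFunction.vonMangoldt m := fun m =>
      mul_nonneg (Pool.Agent.H378R2.Phi_nonneg _) ArithmeticFunction.vonMangoldt_nonneg
    rw [abs_of_nonneg (sum_nonneg fun m _ => hnn m)]
    refine le_trans ?_ (Pool.Agent.H378R2.LSBV.sum_ncPhi X hX d hd)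
    apply sum_le_sum_of_subset_of_nonneg
    · intro m hm
      rw [mem_filter] at hm ⊢
      refine ⟨hm.1, fun h2 => hb ?_⟩
      have h3 : Nat.gcd m d = Nat.gcd b d := Nat.ModEq.gcd_eq hm.2
      rw [Nat.coprime_iff_gcd_eq_one, ← h3]
      exact h2
    · intro m _ _
      exact hnn m

lemma TT_GG (X : ℝ) (hX : 1 ≤ X) (Q : ℕ) (c : ℕ → ℕ → ℝ) (h : ℕ) (hh : (h : ℝ) ≤ X) (E : ℕ → ℝ)
    (hE0 : ∀ d ∈ Icc 1 Q, ss c d ≠ 0 → 0 ≤ E d)
    (hE : ∀ d ∈ Icc 1 Q, ss c d ≠ 0 → ∀ b : ℕ, b.Coprime d → |EPhi X d b| ≤ E d) :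
    |TT X Q c h - LPhi X * RP.GG Q c h| ≤
      ∑ d ∈ Icc 1 Q, ss c d * (E d + d.primeFactors.card * Real.log (3 * X)) := by
  classical
  have hlog : 0 ≤ Real.log (3 * X) := Real.log_nonneg (by linarith)
  rw [TT_eq X hX Q c h hh]
  unfold RP.GG
  rw [mul_sum, ← sum_sub_distrib]
  refine (abs_sum_le_sum_abs _ _).trans (sum_le_sum ?_)
  intro d hd
  have hd1 := (mem_Icc.1 hd).1
  rw [mul_sum, ← sum_sub_distrib]
  refine (abs_sum_le_sum_abs _ _).trans ?_
  by_cases hs : ss c d = 0
  · rw [hs, zero_mul]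
    apply le_of_eq
    apply sum_eq_zero
    intro a ha
    have h1 : |c d a| = 0 := by
      unfold ss at hs
      rw [sum_eq_zero_iff_of_nonneg (fun _ _ => abs_nonneg _)] at hs
      exact hs a ha
    rw [abs_eq_zero] at h1
    rw [h1]
    simp
  · have h2 : ∀ a ∈ range d, |c d a * ∑ m ∈ (Icc 1 ⌊3 * X⌋₊).filter (fun m => m ≡ a + h [MOD d]),
        Phi (m / X) * ArithmeticFunction.vonMangoldt m -
        LPhi X * (if (a + h).Coprime d then c d a / (Nat.totient d : ℝ) else 0)| ≤
        |c d a| * (E d + d.primeFactors.card * Real.log (3 * X)) := by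
      intro a _
      have h3 := cls X hX d (a + h) hd1
      have e1 : c d a * ∑ m ∈ (Icc 1 ⌊3 * X⌋₊).filter (fun m => m ≡ a + h [MOD d]),
          Phi (m / X) * ArithmeticFunction.vonMangoldt m -
          LPhi X * (if (a + h).Coprime d then c d a / (Nat.totient d : ℝ) else 0) =
          c d a * (∑ m ∈ (Icc 1 ⌊3 * X⌋₊).filter (fun m => m ≡ a + h [MOD d]),
          Phi (m / X) * ArithmeticFunction.vonMangoldt m -
          (if (a + h).Coprime d then LPhi X / (Nat.totient d : ℝ) else 0)) := by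
        split_ifs <;> ring
      rw [e1, abs_mul]
      apply mul_le_mul_of_nonneg_left _ (abs_nonneg _)
      refine h3.trans ?_
      apply add_le_add _ le_rfl
      split_ifs with h4
      · exact hE d hd hs _ h4
      · exact hE0 d hd hs
    refine (sum_le_sum h2).trans ?_
    rw [← sum_mul]
    exact le_rfl

/-- from the smoothed sum to the primes -/
lemma TT_le (X : ℕ) (hX : 1 ≤ X) (Q : ℕ) (c : ℕ → ℕ → ℝ) (hw : ∀ n, 0 ≤ wt Q c n) (S : ℝ)
    (hS : ∀ n, wt Q c n ≤ S) (h : ℕ) :
    TT X Q c h ≤ (1 / 2) * Real.log (3 * X) *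
        ∑ n ∈ Ioc X (3 * X), wt Q c n * (if (n + h).Prime then 1 else 0) +
      S * (Real.log (3 * X) * h + 2 * Real.sqrt (3 * X) * Real.log (3 * X)) := by
  classical
  have hXr : (1 : ℝ) ≤ X := by exact_mod_cast hX
  have hS0 : 0 ≤ S := (hw 0).trans (hS 0)
  have hlog : 0 ≤ Real.log (3 * X) := Real.log_nonneg (by linarith)
  have hfl : ⌊3 * (X : ℝ)⌋₊ = 3 * X := by
    have : 3 * (X : ℝ) = ((3 * X : ℕ) : ℝ) := by push_cast; ring
    rw [this, Nat.floor_natCast]
  have hA : ∀ m ∈ Icc 1 (3 * X), Phi (m / (X : ℝ)) * ArithmeticFunction.vonMangoldt m * wt Q c (m - h) ≤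
      (if m.Prime ∧ X + h < m then (1 / 2) * Real.log (3 * X) * wt Q c (m - h) else 0) +
      ((if X < m ∧ m ≤ X + h then S * Real.log (3 * X) else 0) +
       (if ¬ m.Prime then S * ArithmeticFunction.vonMangoldt m else 0)) := by
    intro m hm
    rw [mem_Icc] at hm
    have hm0 : (0 : ℝ) < m := by exact_mod_cast (by omega : 0 < m)
    have hP0 := Pool.Agent.H378R2.Phi_nonneg (m / (X : ℝ))
    have hP1 := Pool.Agent.H378R2.Phi_le_half (m / (X : ℝ))
    have hL0 : 0 ≤ ArithmeticFunction.vonMangoldt m := ArithmeticFunction.vonMangoldt_nonneg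
    have hL1 : ArithmeticFunction.vonMangoldt m ≤ Real.log (3 * X) := by
      refine ArithmeticFunction.vonMangoldt_le_log.trans ?_
      apply Real.log_le_log hm0
      exact_mod_cast hm.2
    have hw0 := hw (m - h)
    have hw1 := hS (m - h)
    have t1 : 0 ≤ (if m.Prime ∧ X + h < m then (1 / 2) * Real.log (3 * X) * wt Q c (m - h) else 0) := by
      split_ifs
      · positivity
      · exact le_rfl
    have t2 : 0 ≤ (if X < m ∧ m ≤ X + h then S * Real.log (3 * X) else 0) := by
      split_ifs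
      · positivity
      · exact le_rfl
    have t3 : 0 ≤ (if ¬ m.Prime then S * ArithmeticFunction.vonMangoldt m else 0) := by
      split_ifs
      all_goals positivity
    by_cases h1 : m ≤ X
    · have h2 : Phi (m / (X : ℝ)) = 0 := Pool.Agent.H378R2.Phi_eq_zero_of_le (by positivity) (by
        rw [div_le_one (by linarith)]; exact_mod_cast h1)
      rw [h2, zero_mul, zero_mul]
      linarith
    · rw [not_le] at h1
      by_cases h2 : m ≤ X + h
      · rw [if_pos (show X < m ∧ m ≤ X + h from ⟨h1, h2⟩)]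
        have h3 : Phi (m / (X : ℝ)) * ArithmeticFunction.vonMangoldt m * wt Q c (m - h) ≤
            1 * Real.log (3 * X) * S := by
          apply mul_le_mul _ hw1 hw0 (by positivity)
          exact mul_le_mul (by linarith) hL1 hL0 (by norm_num)
        linarith
      · rw [not_le] at h2
        by_cases h3 : m.Prime
        · rw [if_pos (show m.Prime ∧ X + h < m from ⟨h3, h2⟩)]
          have h4 : Phi (m / (X : ℝ)) * ArithmeticFunction.vonMangoldt m * wt Q c (m - h) ≤
              (1 / 2) * Real.log (3 * X) * wt Q c (m - h) := by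
            apply mul_le_mul_of_nonneg_right _ hw0
            exact mul_le_mul hP1 hL1 hL0 (by norm_num)
          linarith
        · rw [if_pos h3]
          have h4 : Phi (m / (X : ℝ)) * ArithmeticFunction.vonMangoldt m * wt Q c (m - h) ≤
              1 * ArithmeticFunction.vonMangoldt m * S := by
            apply mul_le_mul _ hw1 hw0 (by positivity)
            exact mul_le_mul_of_nonneg_right (by linarith) hL0
          linarith
  unfold TT
  rw [hfl]
  refine (sum_le_sum hA).trans ?_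
  rw [sum_add_distrib, sum_add_distrib, mul_add]
  apply add_le_add
  · rw [mul_sum]
    rw [← sum_filter]
    have h1 : ∑ m ∈ (Icc 1 (3 * X)).filter (fun m => m.Prime ∧ X + h < m),
        (1 / 2) * Real.log (3 * X) * wt Q c (m - h) =
        ∑ n ∈ (Ioc X (3 * X - h)).filter (fun n => (n + h).Prime), (1 / 2) * Real.log (3 * X) * wt Q c n := by
      apply sum_nbij' (fun m => m - h) (fun n => n + h)
      · intro m hm
        rw [mem_filter, mem_Icc] at hm
        rw [mem_filter, mem_Ioc]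
        have e1 : m - h + h = m := by omega
        refine ⟨by omega, ?_⟩
        rw [e1]
        exact hm.2.1
      · intro n hn
        rw [mem_filter, mem_Ioc] at hn
        rw [mem_filter, mem_Icc]
        refine ⟨by omega, hn.2, by omega⟩
      · intro m hm
        rw [mem_filter, mem_Icc] at hm
        omega
      · intro n _
        omega
      · intro m _
        rfl
    rw [h1, sum_filter]
    refine le_trans (sum_le_sum_of_subset_of_nonneg (t := Ioc X (3 * X)) ?_ ?_) (le_of_eq ?_)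
    · intro n hn
      rw [mem_Ioc] at hn ⊢
      omega
    · intro n _ _
      split_ifs
      · have := hw n
        positivity
      · exact le_rfl
    · apply sum_congr rfl
      intro n _
      split_ifs <;> ring
  · apply add_le_add
    · rw [← sum_filter, sum_const, nsmul_eq_mul]
      have h1 : ((Icc 1 (3 * X)).filter (fun m => X < m ∧ m ≤ X + h)).card ≤ h := by
        have h2 : (Icc 1 (3 * X)).filter (fun m => X < m ∧ m ≤ X + h) ⊆ Ioc X (X + h) := by
          intro m hm
          rw [mem_filter] at hm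
          rw [mem_Ioc]
          exact hm.2
        have h3 := card_le_card h2
        rw [Nat.card_Ioc] at h3
        omega
      have h2 : (((Icc 1 (3 * X)).filter (fun m => X < m ∧ m ≤ X + h)).card : ℝ) ≤ h := by exact_mod_cast h1
      calc _ ≤ (h : ℝ) * (S * Real.log (3 * X)) := mul_le_mul_of_nonneg_right h2 (by positivity)
        _ = _ := by ring
    · rw [← sum_filter, ← mul_sum]
      apply mul_le_mul_of_nonneg_left _ hS0
      have h1 := Pool.Agent.H378R2.sum_nonprime_le (3 * (X : ℝ)) (by linarith)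
      rw [hfl] at h1
      exact h1

/-- the sum of the weight over `(A, B]` -/
lemma sum_int (Q A B : ℕ) (hAB : A ≤ B) (c : ℕ → ℕ → ℝ) :
    |∑ n ∈ Ioc A B, wt Q c n - ((B : ℝ) - A) * mu Q c| ≤ ∑ d ∈ Icc 1 Q, ss c d := by
  have h1 : ∀ n ∈ Ioc A B, wt Q c n = ∑ d ∈ Icc 1 Q, ∑ a ∈ range d, c d a * (if n % d = a then 1 else 0) :=
    fun n _ => wt_eq Q c n
  rw [sum_congr rfl h1, sum_comm]
  unfold mu
  rw [mul_sum, ← sum_sub_distrib]
  refine (abs_sum_le_sum_abs _ _).trans (sum_le_sum ?_)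
  intro d hd
  have hd1 := (mem_Icc.1 hd).1
  rw [sum_comm, mul_sum, ← sum_sub_distrib]
  refine (abs_sum_le_sum_abs _ _).trans (sum_le_sum ?_)
  intro a ha
  rw [← mul_sum]
  have h3 : ∑ n ∈ Ioc A B, (if n % d = a then (1 : ℝ) else 0) =
      (((Ico (A + 1) (B + 1)).filter (fun n => n ≡ a [MOD d])).card : ℝ) := by
    rw [card_filter]
    push_cast
    have e1 : Ioc A B = Ico (A + 1) (B + 1) := by
      ext n
      rw [mem_Ioc, mem_Ico]
      omega
    rw [e1]
    apply sum_congr rfl
    intro n _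
    have e2 : (n % d = a) ↔ (n ≡ a [MOD d]) := by
      unfold Nat.ModEq
      rw [Nat.mod_eq_of_lt (mem_range.1 ha)]
    simp only [e2]
  rw [h3]
  have h4 := cnt_mod (A + 1) (B + 1) d a (by omega) (by omega)
  have h5 : (((B + 1 : ℕ) : ℝ) - ((A + 1 : ℕ) : ℝ)) / (d : ℝ) = ((B : ℝ) - A) / d := by
    push_cast
    congr 1
    ring
  rw [h5] at h4
  have e3 : c d a * (((Ico (A + 1) (B + 1)).filter (fun n => n ≡ a [MOD d])).card : ℝ) -
      ((B : ℝ) - A) * (c d a / (d : ℝ)) =
      c d a * ((((Ico (A + 1) (B + 1)).filter (fun n => n ≡ a [MOD d])).card : ℝ) - ((B : ℝ) - A) / d) := by ring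
  rw [e3, abs_mul]
  calc |c d a| * _ ≤ |c d a| * 1 := mul_le_mul_of_nonneg_left h4 (abs_nonneg _)
    _ = |c d a| := mul_one _

/-- pointwise bound for the weight -/
lemma wt_le_ss (Q : ℕ) (c : ℕ → ℕ → ℝ) (n : ℕ) : wt Q c n ≤ ∑ d ∈ Icc 1 Q, ss c d := by
  unfold wt
  apply sum_le_sum
  intro d hd
  rw [mem_Icc] at hd
  refine (le_abs_self _).trans ?_
  unfold ss
  exact single_le_sum (f := fun a => |c d a|) (fun a _ => abs_nonneg _) (mem_range.2 (Nat.mod_lt n (by omega)))

/-- the coefficients of a weight relative to `W` -/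
noncomputable def ct (W : ℕ) (QS : Finset ℕ) (c : ℕ → ℕ → ℝ) (d a : ℕ) : ℝ :=
  if W ∣ d ∧ d / W ∈ QS then c (d / W) a else 0

lemma sum_rel (W R : ℕ) (hW : 0 < W) (QS : Finset ℕ) (hQS : QS ⊆ Icc 1 R) (F : ℕ → ℕ → ℝ) :
    ∑ d ∈ Icc 1 (W * R), (if W ∣ d ∧ d / W ∈ QS then F (d / W) d else 0) = ∑ q ∈ QS, F q (W * q) := by
  classical
  rw [← sum_filter]
  apply sum_nbij' (fun d => d / W) (fun q => W * q)
  · intro d hd
    rw [mem_filter] at hd
    exact hd.2.2
  · intro q hq
    have h1 := hQS hq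
    rw [mem_Icc] at h1
    rw [mem_filter, mem_Icc, Nat.mul_div_cancel_left q hW]
    refine ⟨⟨Nat.mul_pos hW (by omega), Nat.mul_le_mul_left W h1.2⟩, Dvd.intro _ rfl, hq⟩
  · intro d hd
    rw [mem_filter] at hd
    exact Nat.mul_div_cancel' hd.2.1
  · intro q _
    exact Nat.mul_div_cancel_left q hW
  · intro d hd
    rw [mem_filter] at hd
    rw [Nat.mul_div_cancel' hd.2.1]

lemma wt_ct (W R : ℕ) (hW : 0 < W) (QS : Finset ℕ) (hQS : QS ⊆ Icc 1 R) (c : ℕ → ℕ → ℝ) (n : ℕ) :
    wt (W * R) (ct W QS c) n = ∑ q ∈ QS, c q (n % (W * q)) := by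
  unfold wt ct
  exact sum_rel W R hW QS hQS (fun q d => c q (n % d))

lemma ss_ct (W : ℕ) (QS : Finset ℕ) (c : ℕ → ℕ → ℝ) (d : ℕ) :
    ss (ct W QS c) d = if W ∣ d ∧ d / W ∈ QS then ∑ a ∈ range d, |c (d / W) a| else 0 := by
  unfold ss ct
  split_ifs with h
  · rfl
  · simp

end Pool.Agent.Y829.RW
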