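import Pool.Agent.Y829.RW1
import Pool.Agent.H378R2.M1

/-! Sieve weights relative to a large modulus: the error terms. -/

set_option autoImplicit false

namespace Pool.Agent.Y829.RW

open Finset Filter Topology Pool.Agent.Y829 Pool.Agent.Y829.RP
open Pool.Agent.H378R2 (Phi EPhi LPhi MPhi WW GoodP GoodS BVrel)

/-- the admissible moduli -/
noncomputable def QS (X : ℝ) (S : Finset ℕ) (ps : ℕ) : Finset ℕ :=
  (Icc 1 ⌊X ^ (1 / 100 : ℝ)⌋₊).filter (fun q => Squarefree q ∧ q.Coprime (WW X S ps * ps))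

lemma QS_sub (X : ℝ) (S : Finset ℕ) (ps : ℕ) : QS X S ps ⊆ Icc 1 ⌊X ^ (1 / 100 : ℝ)⌋₊ := filter_subset _ _

lemma bv : BVrel := fun A Z => Pool.Agent.H378R2.bv_of Pool.Agent.H378R2.small_conductor A Z

lemma prod_Icc (n : ℕ) : ∏ k ∈ Icc 2 (n + 1), (1 - 1 / (k : ℝ)) = 1 / ((n : ℝ) + 1) := by
  induction n with
  | zero => simp
  | succ n ih =>
    have e1 : Icc 2 (n + 1 + 1) = insert (n + 2) (Icc 2 (n + 1)) := by
      ext k
      rw [mem_insert, mem_Icc, mem_Icc]
      omega
    rw [e1, prod_insert (by rw [mem_Icc]; omega), ih]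
    push_cast
    field_simp
    ring

lemma prod_ge (s : Finset ℕ) (n : ℕ) (hs : s ⊆ Icc 2 (n + 1)) :
    1 / ((n : ℝ) + 1) ≤ ∏ k ∈ s, (1 - 1 / (k : ℝ)) := by
  rw [← prod_Icc n, ← prod_sdiff hs]
  have h0 : ∀ k ∈ Icc 2 (n + 1), 0 ≤ 1 - 1 / (k : ℝ) ∧ 1 - 1 / (k : ℝ) ≤ 1 := by
    intro k hk
    rw [mem_Icc] at hk
    have hk2 : (2 : ℝ) ≤ k := by exact_mod_cast hk.1
    have h1 : 1 / (k : ℝ) ≤ 1 := by rw [div_le_one (by linarith)]; linarith
    have h2 : 0 ≤ 1 / (k : ℝ) := by positivity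
    constructor <;> linarith
  have h1 : ∏ k ∈ Icc 2 (n + 1) \ s, (1 - 1 / (k : ℝ)) ≤ 1 :=
    prod_le_one (fun k hk => (h0 k (mem_sdiff.1 hk).1).1) (fun k hk => (h0 k (mem_sdiff.1 hk).1).2)
  have h2 : 0 ≤ ∏ k ∈ s, (1 - 1 / (k : ℝ)) := prod_nonneg fun k hk => (h0 k (hs hk)).1
  calc _ ≤ 1 * ∏ k ∈ s, (1 - 1 / (k : ℝ)) := mul_le_mul_of_nonneg_right h1 h2
    _ = _ := one_mul _

/-- `W / φ(W) ≤ log X` -/
lemma W_le (X : ℝ) (hX : 2 ≤ Real.log X) (S : Finset ℕ) (ps : ℕ) :
    (WW X S ps : ℝ) ≤ Real.log X * (Nat.totient (WW X S ps) : ℝ) := by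
  have hW0 : (0 : ℝ) < WW X S ps := by exact_mod_cast Pool.Agent.H378R2.WW_pos X S ps
  rw [Pool.Agent.H378R2.totient_WW]
  have h1 : 1 / (((Pool.Agent.H378R2.yy X : ℕ) : ℝ) + 1) ≤ Pool.Agent.H378R2.BE (Pool.Agent.H378R2.PW X S ps) := by
    unfold Pool.Agent.H378R2.BE
    apply prod_ge
    intro p hp
    have h2 := Pool.Agent.H378R2.mem_PW.1 hp
    rw [mem_Icc]
    exact ⟨h2.2.1.two_le, by have := h2.1; omega⟩
  have h3 : ((Pool.Agent.H378R2.yy X : ℕ) : ℝ) + 1 ≤ Real.log X := by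
    have : ((Pool.Agent.H378R2.yy X : ℕ) : ℝ) ≤ Real.log X / 1000 := Nat.floor_le (by positivity)
    linarith
  have h4 : 1 ≤ Real.log X * Pool.Agent.H378R2.BE (Pool.Agent.H378R2.PW X S ps) := by
    have h5 : (0 : ℝ) < ((Pool.Agent.H378R2.yy X : ℕ) : ℝ) + 1 := by positivity
    calc (1 : ℝ) = (((Pool.Agent.H378R2.yy X : ℕ) : ℝ) + 1) * (1 / (((Pool.Agent.H378R2.yy X : ℕ) : ℝ) + 1)) := by
          field_simp
      _ ≤ Real.log X * Pool.Agent.H378R2.BE (Pool.Agent.H378R2.PW X S ps) :=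
          mul_le_mul h3 h1 (by positivity) (by linarith)
  calc (WW X S ps : ℝ) = WW X S ps * 1 := (mul_one _).symm
    _ ≤ WW X S ps * (Real.log X * Pool.Agent.H378R2.BE (Pool.Agent.H378R2.PW X S ps)) :=
        mul_le_mul_of_nonneg_left h4 hW0.le
    _ = _ := by ring

/-- the main estimates -/
theorem est (K Z : ℕ) (η : ℝ) (hη : 0 < η) : ∃ X0 : ℕ, ∀ X : ℕ, X0 ≤ X → ∃ (ps : ℕ) (S : Finset ℕ),
    GoodP Z ps ∧ GoodS X S ∧ ∀ (c : ℕ → ℕ → ℝ) (M : ℝ), 0 < M →
    (∀ q ∈ QS X S ps, ∑ a ∈ range (WW X S ps * q), |c q a| ≤ M * (q.divisors.card : ℝ) ^ K * Real.log X ^ K) →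
    (∀ h : ℕ, h ≤ X → |TT X (WW X S ps * ⌊(X : ℝ) ^ (1 / 100 : ℝ)⌋₊) (ct (WW X S ps) (QS X S ps) c) h -
        LPhi X * RP.GG (WW X S ps * ⌊(X : ℝ) ^ (1 / 100 : ℝ)⌋₊) (ct (WW X S ps) (QS X S ps) c) h| ≤
        η * (M * X / (WW X S ps * Real.log X ^ K))) ∧
    (∑ d ∈ Icc 1 (WW X S ps * ⌊(X : ℝ) ^ (1 / 100 : ℝ)⌋₊), ss (ct (WW X S ps) (QS X S ps) c) d) *
        (X : ℝ) ^ (19 / 20 : ℝ) ≤ η * (M * X / (WW X S ps * Real.log X ^ K)) := by
  classical
  obtain ⟨Xr, hbv⟩ := bv (2 * K + 2) Z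
  obtain ⟨C, hC, hwt⟩ := Pool.Agent.H378R2.LSBV.wt_le K
  set D : ℝ := 8 * C / η with hD
  have hD0 : 0 < D := by positivity
  have hg : ∀ᶠ X : ℕ in atTop, D * Real.log X ^ (2 * K + 2) ≤ (X : ℝ) ^ (1 / 50 : ℝ) := by
    have h1 := (isLittleO_log_rpow_rpow_atTop (((2 * K + 2 : ℕ) : ℕ) : ℝ) (show (0 : ℝ) < 1 / 50 by norm_num)).def
      (show (0 : ℝ) < 1 / D by positivity)
    have h2 := tendsto_natCast_atTop_atTop (R := ℝ) |>.eventually h1
    filter_upwards [h2, eventually_ge_atTop 3] with X h3 h4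
    have hXr : (3 : ℝ) ≤ X := by exact_mod_cast h4
    rw [Real.norm_of_nonneg (Real.rpow_nonneg (Real.log_nonneg (by linarith)) _),
      Real.norm_of_nonneg (Real.rpow_nonneg (by linarith) _), Real.rpow_natCast] at h3
    have h5 := mul_le_mul_of_nonneg_left h3 hD0.le
    have e1 : D * (1 / D * (X : ℝ) ^ (1 / 50 : ℝ)) = (X : ℝ) ^ (1 / 50 : ℝ) := by
      field_simp
    rw [e1] at h5
    exact h5
  obtain ⟨X1, hX1⟩ := hg.exists_forall_of_atTop
  obtain ⟨X2, hX2⟩ := (log_tend.eventually_ge_atTop (2 / η + 4)).exists_forall_of_atTop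
  refine ⟨max (max X1 X2) (max 3 ⌈Xr⌉₊), ?_⟩
  intro X hX
  have hXX1 : X1 ≤ X := (le_max_left _ _).trans ((le_max_left _ _).trans hX)
  have hXX2 : X2 ≤ X := (le_max_right _ _).trans ((le_max_left _ _).trans hX)
  have hX3 : 3 ≤ X := (le_max_left _ _).trans ((le_max_right _ _).trans hX)
  have hXXr : Xr ≤ X := (Nat.le_ceil _).trans (by
    exact_mod_cast (le_max_right _ _).trans ((le_max_right _ _).trans hX))
  obtain ⟨ps, S, hps, hS, hb⟩ := hbv X hXXr
  refine ⟨ps, S, hps, hS, ?_⟩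
  intro c M hM hc
  have hgrow := hX1 X hXX1
  have hLbig := hX2 X hXX2
  have hXr : (3 : ℝ) ≤ X := by exact_mod_cast hX3
  have hX0 : (0 : ℝ) < X := by linarith
  set L := Real.log (X : ℝ) with hL
  have hη2 : 0 < 2 / η := by positivity
  have hL4 : 4 ≤ L := by linarith
  have hL1 : 1 ≤ L := by linarith
  have hL0 : 0 < L := by linarith
  set W := WW X S ps with hW
  have hW0 : 0 < W := Pool.Agent.H378R2.WW_pos X S ps
  have hWr : (0 : ℝ) < W := by exact_mod_cast hW0
  set R := ⌊(X : ℝ) ^ (1 / 100 : ℝ)⌋₊ with hR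
  set t : ℝ := (X : ℝ) ^ (1 / 1400 : ℝ) with ht
  have ht0 : 0 ≤ t := Real.rpow_nonneg hX0.le _
  have ht1 : 1 ≤ t := Real.one_le_rpow (by linarith) (by norm_num)
  have htp : ∀ n : ℕ, t ^ n = (X : ℝ) ^ ((n : ℝ) / 1400) := by
    intro n
    rw [ht, ← Real.rpow_natCast, ← Real.rpow_mul hX0.le]
    congr 1
    ring
  have htX : t ^ 1400 = X := by
    rw [htp]
    norm_num
  have ht14 : t ^ 14 = (X : ℝ) ^ (1 / 100 : ℝ) := by rw [htp]; norm_num
  have ht28 : t ^ 28 = (X : ℝ) ^ (1 / 50 : ℝ) := by rw [htp]; norm_num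
  have ht1330 : t ^ 1330 = (X : ℝ) ^ (19 / 20 : ℝ) := by rw [htp]; norm_num
  have hWt : (W : ℝ) ≤ t ^ 2 := by
    refine (Pool.Agent.H378R2.WW_le X (by linarith) S ps).trans (le_of_eq ?_)
    rw [htp, Real.rpow_def_of_pos hX0]
    congr 1
    push_cast
    ring
  have hRt : (R : ℝ) ≤ t ^ 14 := by
    rw [ht14]
    exact Nat.floor_le (Real.rpow_nonneg hX0.le _)
  rw [← ht28] at hgrow
  have hlog3 : Real.log (3 * X) ≤ 2 * L := by
    rw [Real.log_mul (by norm_num) hX0.ne']
    have : Real.log 3 ≤ 2 := by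
      have := Real.log_le_sub_one_of_pos (show (0 : ℝ) < 3 by norm_num)
      linarith
    linarith
  have hlog30 : 0 ≤ Real.log (3 * X) := Real.log_nonneg (by linarith)
  obtain ⟨Bc, hBc1, hBc2⟩ := Pool.Agent.H378R2.Bc_exists X W hW0
  have hQS : QS X S ps ⊆ Icc 1 R := QS_sub _ _ _
  have hq1 : ∀ q ∈ QS X S ps, 1 ≤ q ∧ (q : ℝ) ≤ t ^ 14 := by
    intro q hq
    have h1 := mem_Icc.1 (hQS hq)
    exact ⟨h1.1, le_trans (by exact_mod_cast h1.2) hRt⟩
  have htau : ∀ q ∈ QS X S ps, (q.divisors.card : ℝ) ^ K ≤ C * t ^ 7 := by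
    intro q hq
    obtain ⟨h1, h2⟩ := hq1 q hq
    have hφ : (0 : ℝ) < Nat.totient q := by exact_mod_cast Nat.totient_pos.2 h1
    have h3 := hwt q h1
    unfold Pool.Agent.H378R2.LSBV.wt at h3
    rw [div_le_iff₀ hφ] at h3
    refine h3.trans ?_
    calc C / Real.sqrt q * (Nat.totient q : ℝ) ≤ C / Real.sqrt q * q := by
          apply mul_le_mul_of_nonneg_left _ (by positivity)
          exact_mod_cast Nat.totient_le q
      _ = C * (q / Real.sqrt q) := by ring
      _ = C * Real.sqrt q := by rw [Real.div_sqrt]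
      _ ≤ C * t ^ 7 := by
          apply mul_le_mul_of_nonneg_left _ hC.le
          rw [Real.sqrt_le_left (by positivity)]
          calc (q : ℝ) ≤ t ^ 14 := h2
            _ = (t ^ 7) ^ 2 := by ring
  have hcard : ((QS X S ps).card : ℝ) ≤ t ^ 14 := by
    refine le_trans ?_ hRt
    have h1 := card_le_card hQS
    rw [Nat.card_Icc, Nat.add_sub_cancel] at h1
    exact_mod_cast h1
  have hLK : (0 : ℝ) < L ^ K := by positivity
  have hCL : C * L ^ (2 * K + 2) * 8 ≤ η * t ^ 28 := by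
    have h1 := mul_le_mul_of_nonneg_left hgrow hη.le
    have e1 : η * (D * L ^ (2 * K + 2)) = C * L ^ (2 * K + 2) * 8 := by
      rw [hD]
      field_simp
    rw [e1] at h1
    exact h1
  constructor
  · intro h hh
    set E : ℕ → ℝ := fun d => |EPhi X d (Bc (d / W))| with hE
    have h1 := TT_GG X (by linarith) (W * R) (ct W (QS X S ps) c) h (by exact_mod_cast hh) E
      (fun _ _ _ => abs_nonneg _) (by
        intro d hd hs b hb1
        rw [ss_ct] at hs
        split_ifs at hs with h2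
        · have h3 : W * (d / W) = d := Nat.mul_div_cancel' h2.1
          have h4 := (hq1 _ h2.2).1
          have h5 := hBc2 (d / W) h4 b (by rw [h3]; exact hb1)
          rw [h3] at h5
          exact h5
        · exact absurd rfl hs)
    refine h1.trans ?_
    have h2 : ∀ d ∈ Icc 1 (W * R), ss (ct W (QS X S ps) c) d * (E d + d.primeFactors.card * Real.log (3 * X)) =
        if W ∣ d ∧ d / W ∈ QS X S ps then (∑ a ∈ range d, |c (d / W) a|) *
          (|EPhi X d (Bc (d / W))| + d.primeFactors.card * Real.log (3 * X)) else 0 := by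
      intro d _
      rw [ss_ct]
      split_ifs
      · rfl
      · rw [zero_mul]
    rw [sum_congr rfl h2, sum_rel W R hW0 (QS X S ps) hQS (fun q d => (∑ a ∈ range d, |c q a|) *
          (|EPhi X d (Bc q)| + d.primeFactors.card * Real.log (3 * X)))]
    have h3 : ∀ q ∈ QS X S ps, (∑ a ∈ range (W * q), |c q a|) *
          (|EPhi X (W * q) (Bc q)| + (W * q).primeFactors.card * Real.log (3 * X)) ≤
          M * L ^ K * ((q.divisors.card : ℝ) ^ (2 * K + 2) * |EPhi X (W * q) (Bc q)|) +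
          M * L ^ K * (C * t ^ 7 * (t ^ 16 * (2 * L))) := by
      intro q hq
      have h4 := hc q hq
      have h5 := htau q hq
      have h6 : (1 : ℝ) ≤ (q.divisors.card : ℝ) := by
        have : 0 < q.divisors.card := Finset.card_pos.2 ⟨1, Nat.one_mem_divisors.2 (by have := (hq1 q hq).1; omega)⟩
        exact_mod_cast this
      have h7 : (q.divisors.card : ℝ) ^ K ≤ (q.divisors.card : ℝ) ^ (2 * K + 2) :=
        pow_le_pow_right₀ h6 (by omega)
      have h8 : ((W * q).primeFactors.card : ℝ) ≤ t ^ 16 := by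
        have h9 : (W * q).primeFactors ⊆ Icc 1 (W * q) := by
          intro p hp
          rw [mem_Icc]
          exact ⟨(Nat.prime_of_mem_primeFactors hp).one_lt.le, Nat.le_of_mem_primeFactors hp⟩
        have h10 := card_le_card h9
        rw [Nat.card_Icc, Nat.add_sub_cancel] at h10
        calc ((W * q).primeFactors.card : ℝ) ≤ ((W * q : ℕ) : ℝ) := by exact_mod_cast h10
          _ = W * q := by push_cast; ring
          _ ≤ t ^ 2 * t ^ 14 := mul_le_mul hWt (hq1 q hq).2 (by positivity) (by positivity)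
          _ = t ^ 16 := by ring
      rw [mul_add]
      apply add_le_add
      · calc (∑ a ∈ range (W * q), |c q a|) * |EPhi X (W * q) (Bc q)| ≤
              M * (q.divisors.card : ℝ) ^ K * L ^ K * |EPhi X (W * q) (Bc q)| :=
              mul_le_mul_of_nonneg_right h4 (abs_nonneg _)
          _ ≤ M * (q.divisors.card : ℝ) ^ (2 * K + 2) * L ^ K * |EPhi X (W * q) (Bc q)| := by
              apply mul_le_mul_of_nonneg_right _ (abs_nonneg _)
              apply mul_le_mul_of_nonneg_right _ hLK.le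
              exact mul_le_mul_of_nonneg_left h7 hM.le
          _ = _ := by ring
      · calc (∑ a ∈ range (W * q), |c q a|) * ((W * q).primeFactors.card * Real.log (3 * X)) ≤
              (M * (q.divisors.card : ℝ) ^ K * L ^ K) * (t ^ 16 * (2 * L)) := by
              apply mul_le_mul h4 _ (by positivity) (by positivity)
              exact mul_le_mul h8 hlog3 hlog30 (by positivity)
          _ ≤ (M * (C * t ^ 7) * L ^ K) * (t ^ 16 * (2 * L)) := by
              apply mul_le_mul_of_nonneg_right _ (by positivity)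
              apply mul_le_mul_of_nonneg_right _ hLK.le
              exact mul_le_mul_of_nonneg_left h5 hM.le
          _ = _ := by ring
    refine (sum_le_sum h3).trans ?_
    rw [sum_add_distrib, ← mul_sum, sum_const, nsmul_eq_mul]
    have h4 := hb Bc hBc1
    have hφ : (0 : ℝ) < (Nat.totient W : ℝ) := by exact_mod_cast Nat.totient_pos.2 hW0
    have hWφ := W_le X (by linarith) S ps
    rw [← hW, ← hL] at hWφ
    have h5 : M * L ^ K * ∑ q ∈ QS X S ps, (q.divisors.card : ℝ) ^ (2 * K + 2) * |EPhi X (W * q) (Bc q)| ≤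
        η / 2 * (M * X / (W * L ^ K)) := by
      calc M * L ^ K * ∑ q ∈ QS X S ps, (q.divisors.card : ℝ) ^ (2 * K + 2) * |EPhi X (W * q) (Bc q)| ≤
            M * L ^ K * (X / ((Nat.totient W : ℝ) * L ^ (2 * K + 2))) :=
            mul_le_mul_of_nonneg_left h4 (by positivity)
        _ ≤ η / 2 * (M * X / (W * L ^ K)) := by
            rw [mul_div_assoc', mul_div_assoc', div_le_div_iff₀ (by positivity) (by positivity)]
            have h6 : 1 ≤ η / 2 * L := by
              have h7 : 2 / η ≤ L := by linarith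
              rw [div_le_iff₀ hη] at h7
              linarith
            calc M * L ^ K * X * (W * L ^ K) ≤ M * L ^ K * X * (L * (Nat.totient W : ℝ) * L ^ K) := by
                  apply mul_le_mul_of_nonneg_left _ (by positivity)
                  exact mul_le_mul_of_nonneg_right hWφ hLK.le
              _ = 1 * (M * X * (Nat.totient W : ℝ) * L ^ (2 * K + 1)) := by ring
              _ ≤ (η / 2 * L) * (M * X * (Nat.totient W : ℝ) * L ^ (2 * K + 1)) :=
                  mul_le_mul_of_nonneg_right h6 (by positivity)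
              _ = _ := by ring
    have h6 : ((QS X S ps).card : ℝ) * (M * L ^ K * (C * t ^ 7 * (t ^ 16 * (2 * L)))) ≤
        η / 2 * (M * X / (W * L ^ K)) := by
      calc ((QS X S ps).card : ℝ) * (M * L ^ K * (C * t ^ 7 * (t ^ 16 * (2 * L)))) ≤
            t ^ 14 * (M * L ^ K * (C * t ^ 7 * (t ^ 16 * (2 * L)))) :=
            mul_le_mul_of_nonneg_right hcard (by positivity)
        _ ≤ η / 2 * (M * X / (W * L ^ K)) := by
            rw [mul_div_assoc', le_div_iff₀ (by positivity)]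
            calc t ^ 14 * (M * L ^ K * (C * t ^ 7 * (t ^ 16 * (2 * L)))) * (W * L ^ K) ≤
                  t ^ 14 * (M * L ^ K * (C * t ^ 7 * (t ^ 16 * (2 * L)))) * (t ^ 2 * L ^ K) := by
                  apply mul_le_mul_of_nonneg_left _ (by positivity)
                  exact mul_le_mul_of_nonneg_right hWt hLK.le
              _ = M * t ^ 39 / 4 * (C * L ^ (2 * K + 1) * 1 * 8) := by ring
              _ ≤ M * t ^ 39 / 4 * (C * L ^ (2 * K + 1) * L * 8) := by
                  apply mul_le_mul_of_nonneg_left _ (by positivity)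
                  apply mul_le_mul_of_nonneg_right _ (by norm_num)
                  exact mul_le_mul_of_nonneg_left hL1 (by positivity)
              _ = M * t ^ 39 / 4 * (C * L ^ (2 * K + 2) * 8) := by ring
              _ ≤ M * t ^ 39 / 4 * (η * t ^ 28) := mul_le_mul_of_nonneg_left hCL (by positivity)
              _ = η / 4 * M * t ^ 67 := by ring
              _ ≤ η / 2 * M * t ^ 1400 := by
                  apply mul_le_mul _ (pow_le_pow_right₀ ht1 (by norm_num)) (by positivity) (by positivity)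
                  nlinarith [mul_pos hη hM]
              _ = η / 2 * (M * X) := by rw [htX]; ring
    have e1 : η * (M * X / (W * L ^ K)) = η / 2 * (M * X / (W * L ^ K)) + η / 2 * (M * X / (W * L ^ K)) := by ring
    rw [e1]
    exact add_le_add h5 h6
  · rw [← ht1330]
    have h2 : ∀ d ∈ Icc 1 (W * R), ss (ct W (QS X S ps) c) d =
        if W ∣ d ∧ d / W ∈ QS X S ps then (∑ a ∈ range d, |c (d / W) a|) else 0 := fun d _ => ss_ct _ _ _ _
    rw [sum_congr rfl h2, sum_rel W R hW0 (QS X S ps) hQS (fun q d => ∑ a ∈ range d, |c q a|)]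
    have h3 : ∀ q ∈ QS X S ps, ∑ a ∈ range (W * q), |c q a| ≤ M * (C * t ^ 7) * L ^ K := by
      intro q hq
      refine (hc q hq).trans ?_
      apply mul_le_mul_of_nonneg_right _ hLK.le
      exact mul_le_mul_of_nonneg_left (htau q hq) hM.le
    have h4 : ∑ q ∈ QS X S ps, ∑ a ∈ range (W * q), |c q a| ≤ t ^ 14 * (M * (C * t ^ 7) * L ^ K) := by
      refine (sum_le_sum h3).trans ?_
      rw [sum_const, nsmul_eq_mul]
      exact mul_le_mul_of_nonneg_right hcard (by positivity)
    calc (∑ q ∈ QS X S ps, ∑ a ∈ range (W * q), |c q a|) * t ^ 1330 ≤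
          t ^ 14 * (M * (C * t ^ 7) * L ^ K) * t ^ 1330 := mul_le_mul_of_nonneg_right h4 (by positivity)
      _ ≤ η * (M * X / (W * L ^ K)) := by
          rw [mul_div_assoc', le_div_iff₀ (by positivity)]
          calc t ^ 14 * (M * (C * t ^ 7) * L ^ K) * t ^ 1330 * (W * L ^ K) ≤
                t ^ 14 * (M * (C * t ^ 7) * L ^ K) * t ^ 1330 * (t ^ 2 * L ^ K) := by
                apply mul_le_mul_of_nonneg_left _ (by positivity)
                exact mul_le_mul_of_nonneg_right hWt hLK.le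
            _ = M * t ^ 1353 * (C * L ^ (2 * K) * 1) := by ring
            _ ≤ M * t ^ 1353 * (C * L ^ (2 * K) * (L ^ 2 * 8)) := by
                apply mul_le_mul_of_nonneg_left _ (by positivity)
                apply mul_le_mul_of_nonneg_left _ (by positivity)
                nlinarith
            _ = M * t ^ 1353 * (C * L ^ (2 * K + 2) * 8) := by ring
            _ ≤ M * t ^ 1353 * (η * t ^ 28) := mul_le_mul_of_nonneg_left hCL (by positivity)
            _ = η * M * t ^ 1381 := by ring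
            _ ≤ η * M * t ^ 1400 := by
                apply mul_le_mul_of_nonneg_left (pow_le_pow_right₀ ht1 (by norm_num)) (by positivity)
            _ = η * (M * X) := by rw [htX]; ring

end Pool.Agent.Y829.RW
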