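import Pool.Agent.Y829.RW2

/-! Sieve weights relative to a large modulus: the lower bound. -/

set_option autoImplicit false

namespace Pool.Agent.Y829.RW

open Finset Filter Topology Pool.Agent.Y829 Pool.Agent.Y829.RP
open Pool.Agent.H378R2 (Phi EPhi LPhi MPhi WW GoodP GoodS BVrel)

/-- lower bound for the mean of the singular series -/
lemma GG_low (a : ℝ) (ha : 0 < a) (ha' : a < 1 / 2) : ∃ (c1 : ℝ) (U1 : ℕ), 0 < c1 ∧
    ∀ (U Q : ℕ) (c : ℕ → ℕ → ℝ), U1 ≤ U → 1 ≤ Q → Real.log Q ≤ (U : ℝ) ^ a → (∀ n, 0 ≤ wt Q c n) →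
      0 ≤ mu Q c ∧ c1 * (U * mu Q c) ≤ ∑ h ∈ Icc 1 U, RP.GG Q c h := by
  classical
  obtain ⟨c1, U1, hc1, hmain⟩ := main a ha ha'
  refine ⟨c1, U1, hc1, ?_⟩
  intro U Q c hU1 hQ hlogQ hw
  set N := Q.factorial with hN
  have hN0 : 0 < N := Nat.factorial_pos _
  have hP : ∀ p ∈ PQ Q, p.Prime := fun p hp => (mem_PQ.1 hp).1
  set M := ∏ p ∈ PQ Q, p with hM
  have hM0 : 0 < M := prod_pos fun p hp => (hP p hp).pos
  have hMN : M ∣ N := by
    apply Finset.prod_primes_dvd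
    · intro p hp; exact (hP p hp).prime
    · intro p hp
      exact dvdfac Q p (mem_Icc.2 ⟨(hP p hp).one_lt.le, (mem_PQ.1 hp).2⟩)
  have h1 := (hmain U Q M N (wt Q c) hU1 hQ hlogQ hM0 hN0 hMN (dvdfac Q) hw (wt_lev Q c)).1
  have hMV : (M.totient : ℝ) / M = V (PQ Q) := by
    rw [← V_tot hM0, hM, Nat.primeFactors_prod hP]
  have h2 : ∀ n ∈ range N, wt Q c n * (((Icc 1 U).filter (fun h => (n + h).Coprime M)).card : ℝ) =
      wt Q c n * SO (fun _ => {0}) (PQ Q) U n := by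
    intro n _
    rw [SO_coprime Q U n]
  rw [sum_congr rfl h2, sum_GG Q U N c hN0 (dvdfac Q), hMV, sum_wt Q N c (dvdfac Q)] at h1
  have hNV : 0 < (N : ℝ) * V (PQ Q) := by
    have := V_pos hP
    have : (0 : ℝ) < N := by exact_mod_cast hN0
    positivity
  have hmu0 : 0 ≤ mu Q c := by
    have h3 := sum_wt Q N c (dvdfac Q)
    have h4 : 0 ≤ (N : ℝ) * mu Q c := by rw [← h3]; exact sum_nonneg fun n _ => hw n
    exact nonneg_of_mul_nonneg_right h4 (by exact_mod_cast hN0)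
  refine ⟨hmu0, ?_⟩
  have h4 : N * V (PQ Q) * (c1 * (U * mu Q c)) ≤ N * V (PQ Q) * ∑ h ∈ Icc 1 U, RP.GG Q c h := by
    calc N * V (PQ Q) * (c1 * (U * mu Q c)) = c1 * U * V (PQ Q) * (N * mu Q c) := by ring
      _ ≤ _ := h1
  exact le_of_mul_le_mul_left h4 hNV

lemma small_U : ∀ᶠ X : ℕ in atTop, ∀ h : ℕ, (h : ℝ) ≤ (X : ℝ) ^ (9 / 10 : ℝ) →
    Real.log (3 * X) * h + 2 * Real.sqrt (3 * X) * Real.log (3 * X) ≤ (X : ℝ) ^ (19 / 20 : ℝ) := by
  have h1 := (isLittleO_log_rpow_atTop (show (0 : ℝ) < 1 / 20 by norm_num)).def (show (0 : ℝ) < 1 / 10 by norm_num)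
  have h2 := tendsto_natCast_atTop_atTop (R := ℝ) |>.eventually h1
  filter_upwards [h2, eventually_ge_atTop 10] with X h3 h4 h hh
  have hXr : (10 : ℝ) ≤ X := by exact_mod_cast h4
  have hX0 : (0 : ℝ) < X := by linarith
  have hL2 : 2 ≤ Real.log X := by
    rw [Real.le_log_iff_exp_le hX0]
    have h5 : Real.exp 2 = Real.exp 1 * Real.exp 1 := by rw [← Real.exp_add]; norm_num
    have := Real.exp_one_lt_d9
    have := Real.exp_pos 1
    rw [h5]
    nlinarith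
  rw [Real.norm_of_nonneg (by linarith), Real.norm_of_nonneg (Real.rpow_nonneg hX0.le _)] at h3
  have hlog3 : Real.log (3 * X) ≤ 2 * Real.log X := by
    rw [Real.log_mul (by norm_num) hX0.ne']
    have : Real.log 3 ≤ 2 := by
      have := Real.log_le_sub_one_of_pos (show (0 : ℝ) < 3 by norm_num)
      linarith
    linarith
  have hlog30 : 0 ≤ Real.log (3 * X) := Real.log_nonneg (by linarith)
  have hs : 2 * Real.sqrt (3 * X) ≤ 4 * (X : ℝ) ^ (9 / 10 : ℝ) := by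
    have h5 : Real.sqrt (3 * X) ≤ 2 * (X : ℝ) ^ (1 / 2 : ℝ) := by
      rw [← Real.sqrt_eq_rpow]
      rw [Real.sqrt_le_left (by positivity), mul_pow, Real.sq_sqrt hX0.le]
      linarith
    have h6 : (X : ℝ) ^ (1 / 2 : ℝ) ≤ (X : ℝ) ^ (9 / 10 : ℝ) :=
      Real.rpow_le_rpow_of_exponent_le (by linarith) (by norm_num)
    linarith
  have hp : 0 ≤ (X : ℝ) ^ (9 / 10 : ℝ) := Real.rpow_nonneg hX0.le _
  calc Real.log (3 * X) * h + 2 * Real.sqrt (3 * X) * Real.log (3 * X) ≤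
        Real.log (3 * X) * (X : ℝ) ^ (9 / 10 : ℝ) + 4 * (X : ℝ) ^ (9 / 10 : ℝ) * Real.log (3 * X) :=
        add_le_add (mul_le_mul_of_nonneg_left hh hlog30) (mul_le_mul_of_nonneg_right hs hlog30)
    _ = 5 * (X : ℝ) ^ (9 / 10 : ℝ) * Real.log (3 * X) := by ring
    _ ≤ 5 * (X : ℝ) ^ (9 / 10 : ℝ) * (2 * Real.log X) := mul_le_mul_of_nonneg_left hlog3 (by positivity)
    _ ≤ 5 * (X : ℝ) ^ (9 / 10 : ℝ) * (2 * (1 / 10 * (X : ℝ) ^ (1 / 20 : ℝ))) := by
        apply mul_le_mul_of_nonneg_left _ (by positivity)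
        linarith
    _ = (X : ℝ) ^ (9 / 10 : ℝ) * (X : ℝ) ^ (1 / 20 : ℝ) := by ring
    _ = (X : ℝ) ^ (19 / 20 : ℝ) := by
        rw [← Real.rpow_add hX0]
        norm_num

/-- windows of length `(log X)^A`, `A > 2` -/
theorem lower (A : ℝ) (hA : 2 < A) : ∃ c₀ : ℝ, 0 < c₀ ∧ ∀ K Z : ℕ, ∃ X0 : ℕ, ∀ X : ℕ, X0 ≤ X →
    ∃ (ps : ℕ) (S : Finset ℕ), GoodP Z ps ∧ GoodS X S ∧ ∀ U : ℕ, Real.log X ^ A ≤ U →
    (U : ℝ) ≤ (X : ℝ) ^ (9 / 10 : ℝ) → ∀ (c : ℕ → ℕ → ℝ) (M : ℝ), 0 < M →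
    (∀ n, 0 ≤ ∑ q ∈ QS X S ps, c q (n % (WW X S ps * q))) →
    (∀ q ∈ QS X S ps, ∑ a ∈ range (WW X S ps * q), |c q a| ≤ M * (q.divisors.card : ℝ) ^ K * Real.log X ^ K) →
    M * X / (WW X S ps * Real.log X ^ K) ≤ ∑ n ∈ Ioc X (3 * X), ∑ q ∈ QS X S ps, c q (n % (WW X S ps * q)) →
      c₀ * (U / Real.log X * ∑ n ∈ Ioc X (3 * X), ∑ q ∈ QS X S ps, c q (n % (WW X S ps * q))) ≤
        ∑ n ∈ Ioc X (3 * X), (∑ q ∈ QS X S ps, c q (n % (WW X S ps * q))) * pw U n := by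
  classical
  obtain ⟨c1, U1, hc1, hGG⟩ := GG_low (1 / A) (by positivity) (by
    rw [div_lt_div_iff₀ (by linarith) (by norm_num)]; linarith)
  set c0 : ℝ := min c1 1 with hc0
  have hc00 : 0 < c0 := lt_min hc1 one_pos
  have hc01 : c0 ≤ 1 := min_le_right _ _
  have hc0c : c0 ≤ c1 := min_le_left _ _
  refine ⟨c0 / 1600, by positivity, ?_⟩
  intro K Z
  set η : ℝ := c0 / 3200 with hη
  have hη0 : 0 < η := by positivity
  obtain ⟨X1, hest⟩ := est K Z η hη0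
  obtain ⟨X2, hX2⟩ := (log_tend.eventually_ge_atTop ((U1 : ℝ) + 4)).exists_forall_of_atTop
  obtain ⟨X3, hX3⟩ := small_U.exists_forall_of_atTop
  obtain ⟨X4, hX4⟩ := ((tendsto_natCast_atTop_atTop (R := ℝ)).eventually
    Pool.Agent.H378R2.LPhi_ge).exists_forall_of_atTop
  refine ⟨max (max X1 X2) (max (max X3 X4) 3), ?_⟩
  intro X hX
  have hXX1 : X1 ≤ X := (le_max_left _ _).trans ((le_max_left _ _).trans hX)
  have hXX2 : X2 ≤ X := (le_max_right _ _).trans ((le_max_left _ _).trans hX)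
  have hXX3 : X3 ≤ X := (le_max_left _ _).trans ((le_max_left _ _).trans ((le_max_right _ _).trans hX))
  have hXX4 : X4 ≤ X := (le_max_right _ _).trans ((le_max_left _ _).trans ((le_max_right _ _).trans hX))
  have h3X : 3 ≤ X := (le_max_right _ _).trans ((le_max_right _ _).trans hX)
  obtain ⟨ps, S, hps, hS, hc⟩ := hest X hXX1
  refine ⟨ps, S, hps, hS, ?_⟩
  intro U hU hUX c M hM hw hs hm
  obtain ⟨hT, hSt⟩ := hc c M hM hs
  have hLbig := hX2 X hXX2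
  have hsm := hX3 X hXX3
  have hLP := hX4 X hXX4
  have hXr : (3 : ℝ) ≤ X := by exact_mod_cast h3X
  have hX0 : (0 : ℝ) < X := by linarith
  set L := Real.log (X : ℝ) with hL
  have hU10 : (0 : ℝ) ≤ U1 := Nat.cast_nonneg _
  have hL4 : 4 ≤ L := by linarith
  have hL0 : 0 < L := by linarith
  set W := WW X S ps with hW
  have hW0 : 0 < W := Pool.Agent.H378R2.WW_pos X S ps
  have hWr : (0 : ℝ) < W := by exact_mod_cast hW0
  set R := ⌊(X : ℝ) ^ (1 / 100 : ℝ)⌋₊ with hR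
  have hR1 : 1 ≤ R := Nat.le_floor (by
    rw [Nat.cast_one]; exact Real.one_le_rpow (by linarith) (by norm_num))
  set Q := W * R with hQ
  have hQ1 : 1 ≤ Q := Nat.mul_pos hW0 hR1
  set C := ct W (QS X S ps) c with hC
  have hwt : ∀ n, wt Q C n = ∑ q ∈ QS X S ps, c q (n % (W * q)) :=
    fun n => wt_ct W R hW0 (QS X S ps) (QS_sub _ _ _) c n
  simp only [← hwt] at hw hm ⊢
  set St : ℝ := ∑ d ∈ Icc 1 Q, ss C d with hStd
  set m : ℝ := ∑ n ∈ Ioc X (3 * X), wt Q C n with hmd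
  have hSt0 : 0 ≤ St := sum_nonneg fun d _ => ss_nonneg _ _
  have hSt1 : St * (X : ℝ) ^ (19 / 20 : ℝ) ≤ η * m := hSt.trans (mul_le_mul_of_nonneg_left hm hη0.le)
  have hSt2 : St ≤ η * m := by
    refine le_trans ?_ hSt1
    have h1 : 1 ≤ (X : ℝ) ^ (19 / 20 : ℝ) := Real.one_le_rpow (by linarith) (by norm_num)
    nlinarith
  have hm0 : 0 ≤ m := sum_nonneg fun n _ => hw n
  have hmass := (abs_le.1 ((sum_int Q X (3 * X) (by omega) C))).2
  rw [← hmd, ← hStd] at hmass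
  have e1 : (((3 * X : ℕ) : ℝ) - X) * mu Q C = 2 * (X * mu Q C) := by push_cast; ring
  rw [e1] at hmass
  have hUr1 : (U1 : ℝ) ≤ U := by
    have h2 : L ≤ L ^ A := by
      calc L = L ^ (1 : ℝ) := (Real.rpow_one _).symm
        _ ≤ _ := Real.rpow_le_rpow_of_exponent_le (by linarith) (by linarith)
    linarith
  have hlogQ : Real.log Q ≤ (U : ℝ) ^ (1 / A) := by
    have hQX : (Q : ℝ) ≤ X := by
      have h1 : (W : ℝ) ≤ (X : ℝ) ^ (1 / 700 : ℝ) := by
        refine (Pool.Agent.H378R2.WW_le X (by linarith) S ps).trans (le_of_eq ?_)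
        rw [Real.rpow_def_of_pos hX0]
        congr 1
        ring
      have h2 : (R : ℝ) ≤ (X : ℝ) ^ (1 / 100 : ℝ) := Nat.floor_le (Real.rpow_nonneg hX0.le _)
      calc (Q : ℝ) = W * R := by rw [hQ]; push_cast; ring
        _ ≤ (X : ℝ) ^ (1 / 700 : ℝ) * (X : ℝ) ^ (1 / 100 : ℝ) :=
            mul_le_mul h1 h2 (by positivity) (Real.rpow_nonneg hX0.le _)
        _ = (X : ℝ) ^ (1 / 700 + 1 / 100 : ℝ) := (Real.rpow_add hX0 _ _).symm
        _ ≤ (X : ℝ) ^ (1 : ℝ) := Real.rpow_le_rpow_of_exponent_le (by linarith) (by norm_num)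
        _ = X := Real.rpow_one _
    have h3 : Real.log Q ≤ L := Real.log_le_log (by exact_mod_cast hQ1) hQX
    refine h3.trans ?_
    calc L = (L ^ A) ^ (1 / A) := by
          rw [← Real.rpow_mul (by linarith), mul_one_div, div_self (by linarith), Real.rpow_one]
      _ ≤ (U : ℝ) ^ (1 / A) := Real.rpow_le_rpow (by positivity) hU (by positivity)
  obtain ⟨hmu0, hGlow⟩ := hGG U Q C (by exact_mod_cast hUr1) hQ1 hlogQ hw
  have hGlow' : c0 * (U * mu Q C) ≤ ∑ h ∈ Icc 1 U, RP.GG Q C h := by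
    refine le_trans ?_ hGlow
    exact mul_le_mul_of_nonneg_right hc0c (by positivity)
  -- the sum of the TT
  have hUleX : ∀ h ∈ Icc 1 U, h ≤ X ∧ (h : ℝ) ≤ (X : ℝ) ^ (9 / 10 : ℝ) := by
    intro h hh
    have h1 : (h : ℝ) ≤ U := by exact_mod_cast (mem_Icc.1 hh).2
    have h2 : (X : ℝ) ^ (9 / 10 : ℝ) ≤ X := by
      calc (X : ℝ) ^ (9 / 10 : ℝ) ≤ (X : ℝ) ^ (1 : ℝ) :=
            Real.rpow_le_rpow_of_exponent_le (by linarith) (by norm_num)
        _ = X := Real.rpow_one _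
    refine ⟨?_, h1.trans hUX⟩
    have : (h : ℝ) ≤ X := by linarith
    exact_mod_cast this
  have hTlow : ∀ h ∈ Icc 1 U, LPhi X * RP.GG Q C h - η * m ≤ TT X Q C h := by
    intro h hh
    have h1 := (abs_le.1 (hT h (hUleX h hh).1)).1
    have h2 := mul_le_mul_of_nonneg_left hm hη0.le
    linarith
  have hTup : ∀ h ∈ Icc 1 U, TT X Q C h ≤ L * ∑ n ∈ Ioc X (3 * X), wt Q C n * (if (n + h).Prime then 1 else 0) +
      η * m := by
    intro h hh
    have h1 := TT_le X (by omega) Q C hw St (wt_le_ss Q C) h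
    have h2 := hsm h (hUleX h hh).2
    have h3 := mul_le_mul_of_nonneg_left h2 hSt0
    have hlog3 : (1 / 2) * Real.log (3 * X) ≤ L := by
      rw [Real.log_mul (by norm_num) hX0.ne']
      have : Real.log 3 ≤ 2 := by
        have := Real.log_le_sub_one_of_pos (show (0 : ℝ) < 3 by norm_num)
        linarith
      linarith
    have h4 : 0 ≤ ∑ n ∈ Ioc X (3 * X), wt Q C n * (if (n + h).Prime then (1 : ℝ) else 0) := by
      apply sum_nonneg
      intro n _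
      apply mul_nonneg (hw n)
      split_ifs <;> norm_num
    have h5 := mul_le_mul_of_nonneg_right hlog3 h4
    linarith
  have hsum := sum_le_sum (fun h hh => (hTlow h hh).trans (hTup h hh))
  rw [sum_sub_distrib, sum_add_distrib, ← mul_sum, ← mul_sum, sum_const, Nat.card_Icc, Nat.add_sub_cancel,
    nsmul_eq_mul] at hsum
  have hpw : ∑ n ∈ Ioc X (3 * X), wt Q C n * pw U n =
      ∑ h ∈ Icc 1 U, ∑ n ∈ Ioc X (3 * X), wt Q C n * (if (n + h).Prime then 1 else 0) := by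
    rw [sum_comm]
    apply sum_congr rfl
    intro n _
    rw [pw_eq, mul_sum]
  rw [← mul_sum, ← hpw] at hsum
  set Pt : ℝ := ∑ n ∈ Ioc X (3 * X), wt Q C n * pw U n with hPt
  have hU0 : (0 : ℝ) ≤ U := Nat.cast_nonneg _
  have hA1 : X / 200 * (c0 * (U * mu Q C)) ≤ LPhi X * ∑ h ∈ Icc 1 U, RP.GG Q C h :=
    mul_le_mul hLP hGlow' (by positivity) ((by positivity : (0 : ℝ) ≤ X / 200).trans hLP)
  have hA2 : c0 / 400 * U * ((1 - η) * m) ≤ X / 200 * (c0 * (U * mu Q C)) := by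
    have h1 : (1 - η) * m ≤ 2 * (X * mu Q C) := by linarith
    calc c0 / 400 * U * ((1 - η) * m) ≤ c0 / 400 * U * (2 * (X * mu Q C)) :=
          mul_le_mul_of_nonneg_left h1 (by positivity)
      _ = _ := by ring
  have hA3 : c0 / 1600 * (U * m) ≤ L * Pt := by
    have h1 : 1 / 2 ≤ 1 - η := by rw [hη]; linarith
    have hUm : 0 ≤ U * m := by positivity
    have h2 : c0 / 800 * (U * m) ≤ c0 / 400 * U * ((1 - η) * m) := by
      calc c0 / 800 * (U * m) = c0 / 400 * U * ((1 / 2) * m) := by ring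
        _ ≤ _ := by
          apply mul_le_mul_of_nonneg_left _ (by positivity)
          exact mul_le_mul_of_nonneg_right h1 hm0
    have h3 : c0 / 1600 * (U * m) = c0 / 800 * (U * m) - (U * (η * m) + U * (η * m)) := by
      rw [hη]; ring
    rw [h3]
    linarith
  calc c0 / 1600 * (U / L * m) = (c0 / 1600 * (U * m)) / L := by field_simp
    _ ≤ (L * Pt) / L := div_le_div_of_nonneg_right hA3 hL0.le
    _ = Pt := by field_simp

end Pool.Agent.Y829.RW
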