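import Pool.Agent.Y829.RW4

/-! Sieve weights relative to a large modulus: the asymptotic behaviour, conclusion. -/

set_option autoImplicit false

namespace Pool.Agent.Y829.RW

open Finset Filter Topology Pool.Agent.Y829 Pool.Agent.Y829.RP
open Pool.Agent.H378R2 (Phi EPhi LPhi MPhi WW GoodP GoodS BVrel)

/-- long windows -/
theorem twosided : ∃ c₁ A1 : ℝ, 0 < c₁ ∧ ∀ A : ℝ, A1 ≤ A → ∀ K Z : ℕ, ∃ X0 : ℕ, ∀ X : ℕ, X0 ≤ X →
    ∃ (ps : ℕ) (S : Finset ℕ), GoodP Z ps ∧ GoodS X S ∧ ∀ U : ℕ, Real.log X ^ A ≤ U →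
    (U : ℝ) ≤ (X : ℝ) ^ (9 / 10 : ℝ) → ∀ (c : ℕ → ℕ → ℝ) (M : ℝ), 0 < M →
    (∀ n, 0 ≤ ∑ q ∈ QS X S ps, c q (n % (WW X S ps * q))) →
    (∀ q ∈ QS X S ps, ∑ a ∈ range (WW X S ps * q), |c q a| ≤ M * (q.divisors.card : ℝ) ^ K * Real.log X ^ K) →
    M * X / (WW X S ps * Real.log X ^ K) ≤ ∑ n ∈ Ioc X (3 * X), ∑ q ∈ QS X S ps, c q (n % (WW X S ps * q)) →
      |∑ n ∈ Icc 1 (3 * X), (∑ q ∈ QS X S ps, c q (n % (WW X S ps * q))) * ∑ h ∈ Icc 1 U, th X (n + h) -
        U * ∑ n ∈ Icc 1 (3 * X), (∑ q ∈ QS X S ps, c q (n % (WW X S ps * q))) * Phi (n / (X : ℝ))| ≤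
        Real.exp (-(c₁ * A)) * (U * ∑ n ∈ Icc 1 (3 * X),
          (∑ q ∈ QS X S ps, c q (n % (WW X S ps * q))) * Phi (n / (X : ℝ))) := by
  classical
  obtain ⟨C, hC1, hGG⟩ := GG_two
  have hCr : (1 : ℝ) ≤ C := by exact_mod_cast hC1
  have hl2 : 0 < Real.log 2 := Real.log_pos (by norm_num)
  refine ⟨Real.log 2 / (2 * C), 8 * C + (C + 1) * C + 1, by positivity, ?_⟩
  intro A hA K Z
  have hA0 : 0 < A := by nlinarith
  set b : ℕ := ⌊A / C⌋₊ with hb
  have hbA : (b : ℝ) ≤ A / C := Nat.floor_le (by positivity)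
  have hbA2 : A / C < b + 1 := Nat.lt_floor_add_one _
  have hbC : C ≤ b := by
    rw [hb]
    apply Nat.le_floor
    rw [le_div_iff₀ (by linarith)]
    nlinarith
  have hb1 : (1 : ℝ) ≤ b := by exact_mod_cast hC1.trans hbC
  obtain ⟨U1, hGG1⟩ := hGG b hbC
  set x : ℝ := (1 / 2 : ℝ) ^ b with hx
  have hx0 : 0 < x := by positivity
  have hx1 : x ≤ 1 := pow_le_one₀ (by norm_num) (by norm_num)
  set η : ℝ := x / 2240 with hη
  have hη0 : 0 < η := by positivity
  obtain ⟨X1, hest⟩ := est K Z η hη0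
  obtain ⟨X2, hX2⟩ := (log_tend.eventually_ge_atTop ((U1 : ℝ) + 4)).exists_forall_of_atTop
  obtain ⟨X3, hX3⟩ := small_U.exists_forall_of_atTop
  obtain ⟨X4, hX4⟩ := (LM (x / 2) (by positivity)).exists_forall_of_atTop
  refine ⟨max (max X1 X2) (max (max X3 X4) 4), ?_⟩
  intro X hX
  have hXX1 : X1 ≤ X := (le_max_left _ _).trans ((le_max_left _ _).trans hX)
  have hXX2 : X2 ≤ X := (le_max_right _ _).trans ((le_max_left _ _).trans hX)
  have hXX3 : X3 ≤ X := (le_max_left _ _).trans ((le_max_left _ _).trans ((le_max_right _ _).trans hX))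
  have hXX4 : X4 ≤ X := (le_max_right _ _).trans ((le_max_left _ _).trans ((le_max_right _ _).trans hX))
  have h4X : 4 ≤ X := (le_max_right _ _).trans ((le_max_right _ _).trans hX)
  obtain ⟨ps, S, hps, hS, hc⟩ := hest X hXX1
  refine ⟨ps, S, hps, hS, ?_⟩
  intro U hU hUX c M hM hw hs hm
  obtain ⟨hT, hSt⟩ := hc c M hM hs
  have hLbig := hX2 X hXX2
  have hsm := hX3 X hXX3
  obtain ⟨hLM, hMP⟩ := hX4 X hXX4
  have hXr : (4 : ℝ) ≤ X := by exact_mod_cast h4X
  have hX0 : (0 : ℝ) < X := by linarith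
  set L := Real.log (X : ℝ) with hL
  have hU10 : (0 : ℝ) ≤ U1 := Nat.cast_nonneg _
  have hL4 : 4 ≤ L := by linarith
  have hL0 : 0 < L := by linarith
  set W := WW X S ps with hW
  have hW0 : 0 < W := Pool.Agent.H378R2.WW_pos X S ps
  have hWr : (0 : ℝ) < W := by exact_mod_cast hW0
  set R := ⌊(X : ℝ) ^ (1 / 100 : ℝ)⌋₊ with hR
  have hR1 : 1 ≤ R := Nat.le_floor (by
    rw [Nat.cast_one]; exact Real.one_le_rpow (by linarith) (by norm_num))
  set Q := W * R with hQ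
  have hQ1 : 1 ≤ Q := Nat.mul_pos hW0 hR1
  set CC := ct W (QS X S ps) c with hCC
  have hwt : ∀ n, wt Q CC n = ∑ q ∈ QS X S ps, c q (n % (W * q)) :=
    fun n => wt_ct W R hW0 (QS X S ps) (QS_sub _ _ _) c n
  simp only [← hwt] at hw hm ⊢
  set St : ℝ := ∑ d ∈ Icc 1 Q, ss CC d with hStd
  set m : ℝ := ∑ n ∈ Ioc X (3 * X), wt Q CC n with hmd
  have hSt0 : 0 ≤ St := sum_nonneg fun d _ => ss_nonneg _ _
  have hSt1 : St * (X : ℝ) ^ (19 / 20 : ℝ) ≤ η * m := hSt.trans (mul_le_mul_of_nonneg_left hm hη0.le)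
  have hSt2 : St ≤ η * m := by
    refine le_trans ?_ hSt1
    have h1 : 1 ≤ (X : ℝ) ^ (19 / 20 : ℝ) := Real.one_le_rpow (by linarith) (by norm_num)
    nlinarith
  have hm0 : 0 ≤ m := sum_nonneg fun n _ => hw n
  have hmass := (abs_le.1 ((sum_int Q X (3 * X) (by omega) CC))).2
  rw [← hmd, ← hStd] at hmass
  have e1 : (((3 * X : ℕ) : ℝ) - X) * mu Q CC = 2 * (X * mu Q CC) := by push_cast; ring
  rw [e1] at hmass
  have hUr1 : (U1 : ℝ) ≤ U := by
    have h2 : L ≤ L ^ A := by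
      calc L = L ^ (1 : ℝ) := (Real.rpow_one _).symm
        _ ≤ _ := Real.rpow_le_rpow_of_exponent_le (by linarith) (by nlinarith)
    linarith
  have hU1r : (1 : ℝ) ≤ U := by
    have h2 : L ≤ L ^ A := by
      calc L = L ^ (1 : ℝ) := (Real.rpow_one _).symm
        _ ≤ _ := Real.rpow_le_rpow_of_exponent_le (by linarith) (by nlinarith)
    linarith
  have hQX : (Q : ℝ) ≤ X := by
    have h1 : (W : ℝ) ≤ (X : ℝ) ^ (1 / 700 : ℝ) := by
      refine (Pool.Agent.H378R2.WW_le X (by linarith) S ps).trans (le_of_eq ?_)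
      rw [Real.rpow_def_of_pos hX0]
      congr 1
      ring
    have h2 : (R : ℝ) ≤ (X : ℝ) ^ (1 / 100 : ℝ) := Nat.floor_le (Real.rpow_nonneg hX0.le _)
    calc (Q : ℝ) = W * R := by rw [hQ]; push_cast; ring
      _ ≤ (X : ℝ) ^ (1 / 700 : ℝ) * (X : ℝ) ^ (1 / 100 : ℝ) :=
          mul_le_mul h1 h2 (by positivity) (Real.rpow_nonneg hX0.le _)
      _ = (X : ℝ) ^ (1 / 700 + 1 / 100 : ℝ) := (Real.rpow_add hX0 _ _).symm
      _ ≤ (X : ℝ) ^ (1 : ℝ) := Real.rpow_le_rpow_of_exponent_le (by linarith) (by norm_num)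
      _ = X := Real.rpow_one _
  have hlogQ : Real.log Q ≤ (U : ℝ) ^ (1 / ((C : ℝ) * b)) := by
    have h3 : Real.log Q ≤ L := Real.log_le_log (by exact_mod_cast hQ1) hQX
    refine h3.trans ?_
    calc L = (L ^ A) ^ (1 / A) := by
          rw [← Real.rpow_mul (by linarith), mul_one_div, div_self (by linarith), Real.rpow_one]
      _ ≤ (U : ℝ) ^ (1 / A) := Real.rpow_le_rpow (by positivity) hU (by positivity)
      _ ≤ (U : ℝ) ^ (1 / ((C : ℝ) * b)) := by
          apply Real.rpow_le_rpow_of_exponent_le hU1r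
          apply one_div_le_one_div_of_le (by positivity)
          rw [le_div_iff₀ (by linarith)] at hbA
          linarith
  obtain ⟨hmu0, hGt⟩ := hGG1 U Q CC (by exact_mod_cast hUr1) hQ1 hlogQ hw
  have hUleX : ∀ h ∈ Icc 1 U, h ≤ X ∧ (h : ℝ) ≤ (X : ℝ) ^ (9 / 10 : ℝ) := by
    intro h hh
    have h1 : (h : ℝ) ≤ U := by exact_mod_cast (mem_Icc.1 hh).2
    have h2 : (X : ℝ) ^ (9 / 10 : ℝ) ≤ X := by
      calc (X : ℝ) ^ (9 / 10 : ℝ) ≤ (X : ℝ) ^ (1 : ℝ) :=
            Real.rpow_le_rpow_of_exponent_le (by linarith) (by norm_num)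
        _ = X := Real.rpow_one _
    refine ⟨?_, h1.trans hUX⟩
    have : (h : ℝ) ≤ X := by linarith
    exact_mod_cast this
  set Y : ℝ := MPhi X * mu Q CC with hY
  set NN : ℝ := ∑ n ∈ Icc 1 (3 * X), wt Q CC n * Phi (n / (X : ℝ)) with hNN
  have hY0 : 0 ≤ Y := mul_nonneg (le_trans (by positivity) hMP) hmu0
  have hη1 : η ≤ 1 / 2 := by rw [hη]; linarith
  have hmY : m ≤ 80 * Y := by
    have h1 : m / 2 ≤ (1 - η) * m := by nlinarith
    have h2 : X / 20 * mu Q CC ≤ Y := mul_le_mul_of_nonneg_right hMP hmu0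
    have h3 : (1 - η) * m ≤ 2 * (X * mu Q CC) := by linarith
    linarith
  have hStY : St ≤ 80 * η * Y := by
    calc St ≤ η * m := hSt2
      _ ≤ η * (80 * Y) := mul_le_mul_of_nonneg_left hmY hη0.le
      _ = _ := by ring
  have hNY := mass_Phi X h4X Q (by exact_mod_cast hQX) CC
  rw [← hNN, ← hY, ← hStd] at hNY
  have hNY' : |NN - Y| ≤ 400 * η * Y := by linarith
  have hNN2 : Y / 2 ≤ NN := by
    have h1 := (abs_le.1 hNY').1
    have h2 : 400 * η * Y ≤ Y / 2 := by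
      rw [hη]
      nlinarith
    linarith
  -- the individual steps
  have hU0 : (0 : ℝ) ≤ U := Nat.cast_nonneg _
  have hsw : ∑ n ∈ Icc 1 (3 * X), wt Q CC n * ∑ h ∈ Icc 1 U, th X (n + h) =
      ∑ h ∈ Icc 1 U, ∑ n ∈ Icc 1 (3 * X), wt Q CC n * th X (n + h) := by
    rw [sum_comm]
    apply sum_congr rfl
    intro n _
    rw [mul_sum]
  have s1 : |∑ h ∈ Icc 1 U, ∑ n ∈ Icc 1 (3 * X), wt Q CC n * th X (n + h) - ∑ h ∈ Icc 1 U, TT X Q CC h| ≤
      U * (80 * η * Y) := by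
    rw [← sum_sub_distrib]
    refine (abs_sum_le_sum_abs _ _).trans ?_
    have h1 : ∀ h ∈ Icc 1 U, |∑ n ∈ Icc 1 (3 * X), wt Q CC n * th X (n + h) - TT X Q CC h| ≤ 80 * η * Y := by
      intro h hh
      refine (TT_th X (by omega) Q CC hw St (wt_le_ss Q CC) h (hUleX h hh).1).trans ?_
      have h2 := hsm h (hUleX h hh).2
      have h3 : 0 ≤ Real.log (3 * X) * h := mul_nonneg (Real.log_nonneg (by linarith)) (Nat.cast_nonneg _)
      calc St * (2 * Real.sqrt (3 * X) * Real.log (3 * X)) ≤ St * (X : ℝ) ^ (19 / 20 : ℝ) :=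
            mul_le_mul_of_nonneg_left (by linarith) hSt0
        _ ≤ η * m := hSt1
        _ ≤ η * (80 * Y) := mul_le_mul_of_nonneg_left hmY hη0.le
        _ = _ := by ring
    refine (sum_le_sum h1).trans ?_
    rw [sum_const, Nat.card_Icc, Nat.add_sub_cancel, nsmul_eq_mul]
  have s2 : |∑ h ∈ Icc 1 U, TT X Q CC h - LPhi X * ∑ h ∈ Icc 1 U, RP.GG Q CC h| ≤ U * (80 * η * Y) := by
    rw [mul_sum, ← sum_sub_distrib]
    refine (abs_sum_le_sum_abs _ _).trans ?_
    have h1 : ∀ h ∈ Icc 1 U, |TT X Q CC h - LPhi X * RP.GG Q CC h| ≤ 80 * η * Y := by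
      intro h hh
      refine (hT h (hUleX h hh).1).trans ?_
      calc η * (M * X / (W * L ^ K)) ≤ η * m := mul_le_mul_of_nonneg_left hm hη0.le
        _ ≤ η * (80 * Y) := mul_le_mul_of_nonneg_left hmY hη0.le
        _ = _ := by ring
    refine (sum_le_sum h1).trans ?_
    rw [sum_const, Nat.card_Icc, Nat.add_sub_cancel, nsmul_eq_mul]
  have hLPle : LPhi X ≤ 2 * MPhi X := by
    have h1 := (abs_le.1 hLM).2
    have h2 : 0 ≤ MPhi X := le_trans (by positivity) hMP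
    nlinarith
  have hLP0 : 0 ≤ LPhi X := by
    have h1 := (abs_le.1 hLM).1
    have h2 : 0 ≤ MPhi X := le_trans (by positivity) hMP
    nlinarith
  have s3 : |LPhi X * ∑ h ∈ Icc 1 U, RP.GG Q CC h - LPhi X * (U * mu Q CC)| ≤ U * (2 * x * Y) := by
    rw [← mul_sub, abs_mul, abs_of_nonneg hLP0]
    calc LPhi X * |∑ h ∈ Icc 1 U, RP.GG Q CC h - U * mu Q CC| ≤ (2 * MPhi X) * (x * (U * mu Q CC)) :=
          mul_le_mul hLPle hGt (abs_nonneg _) (by linarith)
      _ = _ := by rw [hY]; ring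
  have s4 : |LPhi X * (U * mu Q CC) - U * Y| ≤ U * (x / 2 * Y) := by
    have e2 : LPhi X * (U * mu Q CC) - U * Y = (LPhi X - MPhi X) * (U * mu Q CC) := by rw [hY]; ring
    rw [e2, abs_mul, abs_of_nonneg (show 0 ≤ U * mu Q CC by positivity)]
    calc |LPhi X - MPhi X| * (U * mu Q CC) ≤ (x / 2 * MPhi X) * (U * mu Q CC) :=
          mul_le_mul_of_nonneg_right hLM (by positivity)
      _ = _ := by rw [hY]; ring
  have s5 : |U * Y - U * NN| ≤ U * (400 * η * Y) := by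
    rw [← mul_sub, abs_mul, abs_of_nonneg hU0, abs_sub_comm]
    exact mul_le_mul_of_nonneg_left hNY' hU0
  rw [hsw]
  have htot : |∑ h ∈ Icc 1 U, ∑ n ∈ Icc 1 (3 * X), wt Q CC n * th X (n + h) - U * NN| ≤
      U * (80 * η * Y) + U * (80 * η * Y) + U * (2 * x * Y) + U * (x / 2 * Y) + U * (400 * η * Y) := by
    have t1 := abs_le.1 s1
    have t2 := abs_le.1 s2
    have t3 := abs_le.1 s3
    have t4 := abs_le.1 s4
    have t5 := abs_le.1 s5
    rw [abs_le]
    constructor <;> linarith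
  refine htot.trans ?_
  have hexp : 6 * x ≤ Real.exp (-(Real.log 2 / (2 * C) * A)) := by
    have e1 : x = Real.exp (-(b * Real.log 2)) := by
      rw [hx, ← mul_neg, Real.exp_nat_mul, Real.exp_neg, Real.exp_log (by norm_num)]
      norm_num
    have e2 : 6 * x ≤ Real.exp (3 * Real.log 2 + -(b * Real.log 2)) := by
      rw [Real.exp_add, ← e1]
      have e3 : Real.exp (3 * Real.log 2) = 8 := by
        have : (3 : ℝ) * Real.log 2 = ((3 : ℕ) : ℝ) * Real.log 2 := by norm_num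
        rw [this, Real.exp_nat_mul, Real.exp_log (by norm_num)]
        norm_num
      rw [e3]
      linarith
    refine e2.trans ?_
    apply Real.exp_le_exp.2
    have h7 : (b : ℝ) ≥ A / C - 1 := by linarith
    have h8 : 8 ≤ A / C := by
      rw [le_div_iff₀ (by linarith)]
      nlinarith
    have e3 : Real.log 2 / (2 * C) * A = Real.log 2 * (A / C / 2) := by
      field_simp
    rw [e3]
    have h9 : Real.log 2 * (4 - A / C) ≤ Real.log 2 * (-(A / C / 2)) := by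
      apply mul_le_mul_of_nonneg_left _ hl2.le
      linarith
    have h10 : 3 * Real.log 2 + -(b * Real.log 2) ≤ Real.log 2 * (4 - A / C) := by
      have := mul_le_mul_of_nonneg_left h7 hl2.le
      nlinarith
    linarith
  calc U * (80 * η * Y) + U * (80 * η * Y) + U * (2 * x * Y) + U * (x / 2 * Y) + U * (400 * η * Y) =
        U * Y * (560 * η + 5 / 2 * x) := by ring
    _ = 3 * x * (U * Y) - (1 / 4) * x * (U * Y) := by rw [hη]; ring
    _ ≤ 3 * x * (U * Y) := by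
        have : 0 ≤ (1 / 4) * x * (U * Y) := by positivity
        linarith
    _ = 6 * x * (U * (Y / 2)) := by ring
    _ ≤ 6 * x * (U * NN) := by
        apply mul_le_mul_of_nonneg_left _ (by positivity)
        exact mul_le_mul_of_nonneg_left hNN2 hU0
    _ ≤ Real.exp (-(Real.log 2 / (2 * C) * A)) * (U * NN) := by
        apply mul_le_mul_of_nonneg_right hexp
        have : 0 ≤ NN := by linarith
        positivity

end Pool.Agent.Y829.RW
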