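import Pool.Agent.Y829.RX1

/-! Sieve weights on one residue class modulo `W`. -/

set_option autoImplicit false

namespace Pool.Agent.Y829.RX

open Finset Filter Topology Pool.Agent.Y829 Pool.Agent.Y829.RP Pool.Agent.Y829.RS Pool.Agent.Y829.RW

lemma cop_sum (W q b : ℕ) (hq : 0 < q) (hWq : W.Coprime q) (f : ℕ → ℝ) :
    ∑ j ∈ range q, f ((b + W * j) % q) = ∑ a ∈ range q, f a := by
  classical
  have hinj : Set.InjOn (fun j => (b + W * j) % q) (range q : Finset ℕ) := by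
    intro j hj j' hj' h
    rw [coe_range, Set.mem_Iio] at hj hj'
    have h1 : b + W * j ≡ b + W * j' [MOD q] := h
    have h2 : W * j ≡ W * j' [MOD q] := Nat.ModEq.add_left_cancel' b h1
    have h3 : j ≡ j' [MOD q] := Nat.ModEq.cancel_left_of_coprime (by
      rw [Nat.gcd_comm]; exact hWq) h2
    have h4 : j % q = j' % q := h3
    rwa [Nat.mod_eq_of_lt hj, Nat.mod_eq_of_lt hj'] at h4
  have himg : (range q).image (fun j => (b + W * j) % q) = range q := by
    apply eq_of_subset_of_card_le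
    · intro x hx
      rw [mem_image] at hx
      obtain ⟨j, _, rfl⟩ := hx
      rw [mem_range]
      exact Nat.mod_lt _ hq
    · rw [card_image_of_injOn hinj]
  conv_rhs => rw [← himg]
  rw [sum_image hinj]

/-- the weight on the class of `b` modulo `W` -/
noncomputable def cW (W b : ℕ) (c : ℕ → ℕ → ℝ) (q a : ℕ) : ℝ := if a % W = b then c q (a % q) else 0

lemma cW_val (W b q n : ℕ) (c : ℕ → ℕ → ℝ) :
    cW W b c q (n % (W * q)) = if n % W = b then c q (n % q) else 0 := by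
  unfold cW
  rw [Nat.mod_mul_right_mod, Nat.mod_mul_left_mod]

lemma cW_ss (W b q : ℕ) (c : ℕ → ℕ → ℝ) (hb : b < W) (hq : 0 < q) (hWq : W.Coprime q) :
    ∑ a ∈ range (W * q), |cW W b c q a| = ∑ a ∈ range q, |c q a| := by
  rw [sum_split]
  rw [sum_eq_single b]
  · have h1 : ∀ j ∈ range q, |cW W b c q (b + W * j)| = |c q ((b + W * j) % q)| := by
      intro j _
      unfold cW
      rw [Nat.add_mul_mod_self_left, Nat.mod_eq_of_lt hb, if_pos rfl]
    rw [sum_congr rfl h1]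
    exact cop_sum W q b hq hWq (fun a => |c q a|)
  · intro i hi hib
    apply sum_eq_zero
    intro j _
    unfold cW
    rw [Nat.add_mul_mod_self_left, Nat.mod_eq_of_lt (mem_range.1 hi), if_neg hib, abs_zero]
  · intro h
    exact absurd (mem_range.2 hb) h

/-- the weight in the variable `j`, `n = b + W j` -/
noncomputable def cc (W b : ℕ) (QS : Finset ℕ) (c : ℕ → ℕ → ℝ) (q j : ℕ) : ℝ :=
  if q ∈ QS then c q ((b + W * j) % q) else 0

lemma cc_ss (W b q : ℕ) (QS : Finset ℕ) (c : ℕ → ℕ → ℝ) (hq : 0 < q) (hWq : q ∈ QS → W.Coprime q) :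
    ss (cc W b QS c) q = if q ∈ QS then ∑ a ∈ range q, |c q a| else 0 := by
  unfold ss cc
  split_ifs with h
  · exact cop_sum W q b hq (hWq h) (fun a => |c q a|)
  · simp

lemma wt_cW (W R b : ℕ) (hW : 0 < W) (QS : Finset ℕ) (hQS : QS ⊆ Icc 1 R) (c : ℕ → ℕ → ℝ) (n : ℕ) :
    wt (W * R) (ct W QS (cW W b c)) n = if n % W = b then ∑ q ∈ QS, c q (n % q) else 0 := by
  rw [wt_ct W R hW QS hQS]
  have h1 : ∀ q ∈ QS, cW W b c q (n % (W * q)) = if n % W = b then c q (n % q) else 0 := fun q _ => cW_val W b q n c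
  rw [sum_congr rfl h1]
  split_ifs with h
  · rfl
  · simp

lemma wt_cc (W R b : ℕ) (QS : Finset ℕ) (hQS : QS ⊆ Icc 1 R) (c : ℕ → ℕ → ℝ) (j : ℕ) :
    wt R (cc W b QS c) j = ∑ q ∈ QS, c q ((b + W * j) % q) := by
  classical
  unfold wt cc
  rw [← sum_filter]
  have h1 : (Icc 1 R).filter (fun q => q ∈ QS) = QS := by
    ext q
    rw [mem_filter]
    exact ⟨fun h => h.2, fun h => ⟨hQS h, h⟩⟩
  rw [h1]
  apply sum_congr rfl
  intro q _
  congr 1
  rw [Nat.add_mod, Nat.mul_mod, Nat.mod_mod, ← Nat.mul_mod, ← Nat.add_mod]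

lemma rel_wt (W R b : ℕ) (hW : 0 < W) (hb : b < W) (QS : Finset ℕ) (hQS : QS ⊆ Icc 1 R) (c : ℕ → ℕ → ℝ) (j : ℕ) :
    wt (W * R) (ct W QS (cW W b c)) (b + W * j) = wt R (cc W b QS c) j := by
  rw [wt_cW W R b hW QS hQS, wt_cc W R b QS hQS, Nat.add_mul_mod_self_left, Nat.mod_eq_of_lt hb, if_pos rfl]

lemma sqsum (K : ℕ) (L : ℝ) (hL : 2 ≤ L) (R : ℕ) (hR : Real.log R ≤ L) (s : ℕ → ℝ) (hs0 : ∀ q, 0 ≤ s q)
    (hs : ∀ q ∈ Icc 1 R, s q ≤ (q.divisors.card : ℝ) ^ K * L ^ K) :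
    ∑ q ∈ Icc 1 R, s q ^ 2 / q ≤ L ^ (2 * K + 2 * 2 ^ (2 * K)) := by
  have hL0 : 0 < L := by linarith
  have h1 : ∀ q ∈ Icc 1 R, s q ^ 2 / q ≤ L ^ (2 * K) * ((q.divisors.card : ℝ) ^ (2 * K) / q) := by
    intro q hq
    have h2 : s q ^ 2 ≤ ((q.divisors.card : ℝ) ^ K * L ^ K) ^ 2 := pow_le_pow_left₀ (hs0 q) (hs q hq) 2
    have h3 : ((q.divisors.card : ℝ) ^ K * L ^ K) ^ 2 = L ^ (2 * K) * (q.divisors.card : ℝ) ^ (2 * K) := by ring
    rw [h3] at h2
    have h4 := div_le_div_of_nonneg_right h2 (Nat.cast_nonneg (α := ℝ) q)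
    refine h4.trans (le_of_eq ?_)
    ring
  refine (sum_le_sum h1).trans ?_
  rw [← mul_sum]
  have h2 := Pool.Agent.TH935.LD.tau_pow_div (2 * K) R
  have h3 : (1 + Real.log R) ^ (2 ^ (2 * K)) ≤ (L ^ 2) ^ (2 ^ (2 * K)) := by
    apply pow_le_pow_left₀
    · have := Real.log_natCast_nonneg R
      linarith
    · nlinarith
  calc L ^ (2 * K) * ∑ q ∈ Icc 1 R, (q.divisors.card : ℝ) ^ (2 * K) / q ≤ L ^ (2 * K) * (L ^ 2) ^ (2 ^ (2 * K)) :=
        mul_le_mul_of_nonneg_left (h2.trans h3) (by positivity)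
    _ = _ := by rw [← pow_mul, ← pow_add]

/-- the model on one class -/
theorem relmodel (K e : ℕ) (cx : ℝ) (hcx : 0 < cx) : ∃ X0 : ℕ, ∀ X : ℕ, X0 ≤ X → ∀ (W R U b : ℕ) (QS : Finset ℕ),
    0 < W → 1 ≤ R → W * R ≤ X → QS ⊆ Icc 1 R → (∀ q ∈ QS, W.Coprime q) → b < W →
    (((range ((W * R).factorial / W)).filter (fun j => (1 / 2 : ℝ) ^ e * (U * V (PQ (W * R))) <
      |SO (fun _ => {0}) (PQ (W * R)) U (b + W * j) - U * V (PQ (W * R))|)).card : ℝ) *
      Real.exp (Real.log X ^ cx) ≤ ((W * R).factorial / W : ℕ) →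
    ∀ c : ℕ → ℕ → ℝ, (∀ n, 0 ≤ wt (W * R) (ct W QS (cW W b c)) n) →
    (∀ q ∈ QS, ∑ a ∈ range q, |c q a| ≤ (q.divisors.card : ℝ) ^ K * Real.log X ^ K) →
    1 / (4 * (W * Real.log X ^ K)) ≤ mu (W * R) (ct W QS (cW W b c)) →
    |∑ h ∈ Icc 1 U, RP.GG (W * R) (ct W QS (cW W b c)) h - U * mu (W * R) (ct W QS (cW W b c))| ≤
      2 * (1 / 2 : ℝ) ^ e * (U * mu (W * R) (ct W QS (cW W b c))) := by
  classical
  obtain ⟨K2, hK2⟩ : ∃ K2, K2 = 2 * K + 2 * 2 ^ (2 * K) := ⟨_, rfl⟩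
  obtain ⟨X2, hX2⟩ := badmass K2 (K + 2)
  obtain ⟨cm, hcm, hmert⟩ := mert
  obtain ⟨δ, hδ⟩ : ∃ δ : ℝ, δ = (1 / 2 : ℝ) ^ e := ⟨_, rfl⟩
  have hδ0 : 0 < δ := by rw [hδ]; positivity
  have E := ((log_tend.eventually_ge_atTop (2 + 4 / (δ * cm))).and
    (evl cx ((2 * K2 + 4 * (K + 2) + 10 : ℕ) : ℝ) 0 hcx)).and (eventually_ge_atTop 3)
  obtain ⟨X3, hX3⟩ := E.exists_forall_of_atTop
  refine ⟨max X2 X3, ?_⟩
  intro X hX W R U b QS hW hR hWR hQS hcop hbW hbadc c hw hc hmu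
  obtain ⟨⟨e1, e2⟩, e3⟩ := hX3 X ((le_max_right _ _).trans hX)
  obtain ⟨Q, hQ⟩ : ∃ Q, Q = W * R := ⟨_, rfl⟩
  obtain ⟨C, hC⟩ : ∃ C, C = ct W QS (cW W b c) := ⟨_, rfl⟩
  have hrel := fun j => rel_wt W R b hW hbW QS hQS c j
  have hzero : ∀ n, n % W ≠ b → wt Q C n = 0 := by
    intro n hn
    rw [hQ, hC, wt_cW W R b hW QS hQS, if_neg hn]
  rw [← hQ] at hbadc hWR
  rw [← hQ, ← hC] at hw hmu ⊢
  simp only [← hQ, ← hC] at hrel
  have hQ0 : 0 < Q := by rw [hQ]; exact Nat.mul_pos hW hR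
  have hP : ∀ p ∈ PQ Q, p.Prime := fun p hp => (mem_PQ.1 hp).1
  have hVP : cm / Real.log X ≤ V (PQ Q) := hmert X (by omega) (PQ Q) fun p hp => ⟨hP p hp, (mem_PQ.1 hp).2.trans hWR⟩
  have hV0 : 0 < V (PQ Q) := V_pos hP
  have hRX : R ≤ X := by
    have : R ≤ Q := by rw [hQ]; exact Nat.le_mul_of_pos_left R hW
    omega
  obtain ⟨N, hN⟩ : ∃ N, N = Q.factorial := ⟨_, rfl⟩
  have hN0 : 0 < N := by rw [hN]; exact Nat.factorial_pos _
  have hdN : ∀ d ∈ Icc 1 Q, d ∣ N := by rw [hN]; exact dvdfac Q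
  have hWN : W ∣ N := hdN W (mem_Icc.2 ⟨hW, by rw [hQ]; exact Nat.le_mul_of_pos_right W hR⟩)
  obtain ⟨N', hN'⟩ := hWN
  have hN'0 : 0 < N' := by
    rcases Nat.eq_zero_or_pos N' with h | h
    · rw [h, mul_zero] at hN'; omega
    · exact h
  have hND : Q.factorial / W = N' := by rw [← hN, hN', Nat.mul_div_cancel_left _ hW]
  rw [hND] at hbadc
  have hdN' : ∀ d ∈ Icc 1 R, d ∣ N' := by
    intro d hd
    rw [mem_Icc] at hd
    have h1 : W * d ∣ N := hdN (W * d) (mem_Icc.2 ⟨Nat.mul_pos hW hd.1, by rw [hQ]; exact Nat.mul_le_mul_left W hd.2⟩)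
    rw [hN'] at h1
    exact Nat.dvd_of_mul_dvd_mul_left hW h1
  obtain ⟨bad, hbad⟩ : ∃ bad : ℕ → Prop, bad = fun n => δ * (U * V (PQ Q)) <
      |SO (fun _ => {0}) (PQ Q) U n - U * V (PQ Q)| := ⟨_, rfl⟩
  obtain ⟨L, hL⟩ : ∃ L : ℝ, L = Real.log X := ⟨_, rfl⟩
  rw [← hL] at hbadc hc e1 e2 hmu hVP
  have hL2 : 2 ≤ L := by
    have : 0 ≤ 4 / (δ * cm) := by positivity
    linarith
  have hL0 : 0 < L := by linarith
  have hSc : (((range N').filter (fun j => bad (b + W * j))).card : ℝ) * L ^ (2 * K2 + 4 * (K + 2) + 10) ≤ N' := by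
    have h1 : L ^ (2 * K2 + 4 * (K + 2) + 10) ≤ Real.exp (L ^ cx) := by
      have h2 : L ^ (2 * K2 + 4 * (K + 2) + 10) = Real.exp (((2 * K2 + 4 * (K + 2) + 10 : ℕ) : ℝ) * Real.log L) := by
        rw [← Real.log_pow, Real.exp_log (pow_pos hL0 _)]
      rw [h2]
      apply Real.exp_le_exp.2
      linarith
    have h3 : (((range N').filter (fun j => bad (b + W * j))).card : ℝ) * Real.exp (L ^ cx) ≤ N' := by
      rw [hbad, hδ]
      convert hbadc
    refine le_trans ?_ h3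
    exact mul_le_mul_of_nonneg_left h1 (Nat.cast_nonneg _)
  have hsq : ∑ d ∈ Icc 1 R, ss (cc W b QS c) d ^ 2 / d ≤ L ^ K2 := by
    rw [hK2]
    apply sqsum K L hL2 R (by
      rw [hL]; exact Real.log_le_log (by exact_mod_cast hR) (by exact_mod_cast hRX)) (fun q => ss (cc W b QS c) q)
      (fun q => ss_nonneg _ _)
    intro q hq
    have hq0 : 0 < q := (mem_Icc.1 hq).1
    show ss (cc W b QS c) q ≤ _
    rw [cc_ss W b q QS c hq0 (hcop q)]
    split_ifs with h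
    · exact hc q h
    · exact mul_nonneg (pow_nonneg (Nat.cast_nonneg _) _) (pow_nonneg hL0.le _)
  have hb := hX2 X ((le_max_left _ _).trans hX) R hR hRX (cc W b QS c) (by rw [← hL]; exact hsq) N' hdN'
    ((range N').filter (fun j => bad (b + W * j))) (filter_subset _ _) (by rw [← hL]; exact hSc)
  rw [← hL] at hb
  -- the bad mass
  have hsplit : ∑ n ∈ (range N).filter bad, wt Q C n ≤ N' / L ^ (K + 2) := by
    rw [le_div_iff₀ (by positivity)]
    refine le_trans (le_of_eq ?_) hb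
    congr 1
    rw [sum_filter, hN', sum_split W N' (fun n => if bad n then wt Q C n else 0), sum_eq_single b]
    · rw [sum_filter]
      apply sum_congr rfl
      intro j _
      by_cases h : bad (b + W * j)
      · rw [if_pos h, if_pos h, ← hrel j, abs_of_nonneg (hw _)]
      · rw [if_neg h, if_neg h]
    · intro i hi hib
      apply sum_eq_zero
      intro j _
      rw [hzero (i + W * j) (by rwa [Nat.add_mul_mod_self_left, Nat.mod_eq_of_lt (mem_range.1 hi)]), ite_self]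
    · intro h
      exact absurd (mem_range.2 hbW) h
  have hsw := sum_wt Q N C hdN
  have hUr : (0 : ℝ) ≤ U := Nat.cast_nonneg _
  have hNr : (0 : ℝ) < N := by exact_mod_cast hN0
  have hWr : (0 : ℝ) < W := by exact_mod_cast hW
  have hN'r : (0 : ℝ) < N' := by exact_mod_cast hN'0
  have hNe : (N : ℝ) = W * N' := by rw [hN']; push_cast; ring
  have h1 : |∑ n ∈ range N, wt Q C n * SO (fun _ => {0}) (PQ Q) U n - U * V (PQ Q) * ∑ n ∈ range N, wt Q C n| ≤
      2 * δ * (U * V (PQ Q)) * (N * mu Q C) := by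
    have h2 : ∑ n ∈ range N, wt Q C n * SO (fun _ => {0}) (PQ Q) U n - U * V (PQ Q) * ∑ n ∈ range N, wt Q C n =
        ∑ n ∈ range N, wt Q C n * (SO (fun _ => {0}) (PQ Q) U n - U * V (PQ Q)) := by
      rw [mul_sum, ← sum_sub_distrib]
      apply sum_congr rfl
      intro n _
      ring
    rw [h2]
    refine (abs_sum_le_sum_abs _ _).trans ?_
    have h3 : ∀ n ∈ range N, |wt Q C n * (SO (fun _ => {0}) (PQ Q) U n - U * V (PQ Q))| ≤
        wt Q C n * (δ * (U * V (PQ Q))) + (if bad n then wt Q C n * U else 0) := by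
      intro n _
      rw [abs_mul, abs_of_nonneg (hw n)]
      by_cases hbn : bad n
      · rw [if_pos hbn]
        have h4 : |SO (fun _ => {0}) (PQ Q) U n - U * V (PQ Q)| ≤ U := by
          have a1 := SO_le (fun _ => {0}) (PQ Q) U n
          have a2 := SO_nonneg (fun _ => {0}) (PQ Q) U n
          have a3 : U * V (PQ Q) ≤ U * 1 := mul_le_mul_of_nonneg_left (by
            have := VO_le_one (Om := fun _ => ({0} : Finset ℕ)) hP (fun p hp => by simpa using (hP p hp).one_lt)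
            rwa [VO_V] at this) hUr
          have a4 : 0 ≤ U * V (PQ Q) := by positivity
          rw [abs_le]
          constructor <;> linarith
        have h5 := mul_le_mul_of_nonneg_left h4 (hw n)
        have h6 : 0 ≤ wt Q C n * (δ * (U * V (PQ Q))) := by
          have := hw n
          positivity
        linarith
      · rw [if_neg hbn, add_zero]
        apply mul_le_mul_of_nonneg_left _ (hw n)
        rw [hbad] at hbn
        exact not_lt.1 hbn
    refine (sum_le_sum h3).trans ?_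
    rw [sum_add_distrib, ← sum_mul, hsw, ← sum_filter, ← sum_mul]
    have h4 : (∑ n ∈ (range N).filter bad, wt Q C n) * U ≤ δ * (U * V (PQ Q)) * (N * mu Q C) := by
      have h6 : (N' : ℝ) / L ^ (K + 2) ≤ δ * V (PQ Q) * (N * mu Q C) := by
        have h7 : δ * (cm / L) * (N * (1 / (4 * (W * L ^ K)))) ≤ δ * V (PQ Q) * (N * mu Q C) := by
          apply mul_le_mul
          · exact mul_le_mul_of_nonneg_left hVP hδ0.le
          · exact mul_le_mul_of_nonneg_left hmu hNr.le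
          · positivity
          · positivity
        refine le_trans ?_ h7
        have h8 : δ * (cm / L) * (N * (1 / (4 * (W * L ^ K)))) = (N' / L ^ (K + 2)) * (δ * cm * L / 4) := by
          rw [hNe, pow_add]
          field_simp
        rw [h8]
        have h9 : 1 ≤ δ * cm * L / 4 := by
          have h10 : 4 / (δ * cm) ≤ L := by linarith
          rw [div_le_iff₀ (by positivity)] at h10
          linarith
        exact le_mul_of_one_le_right (by positivity) h9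
      have h7 := mul_le_mul_of_nonneg_right (hsplit.trans h6) hUr
      refine h7.trans (le_of_eq ?_)
      ring
    linarith
  rw [sum_GG Q U N C hN0 hdN, hsw] at h1
  have hNV : 0 < (N : ℝ) * V (PQ Q) := by positivity
  have h2 : N * V (PQ Q) * |∑ h ∈ Icc 1 U, RP.GG Q C h - U * mu Q C| ≤ N * V (PQ Q) * (2 * δ * (U * mu Q C)) := by
    have e3 : N * V (PQ Q) * |∑ h ∈ Icc 1 U, RP.GG Q C h - U * mu Q C| =
        |N * V (PQ Q) * ∑ h ∈ Icc 1 U, RP.GG Q C h - U * V (PQ Q) * (N * mu Q C)| := by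
      have e4 : N * V (PQ Q) * ∑ h ∈ Icc 1 U, RP.GG Q C h - U * V (PQ Q) * (N * mu Q C) =
          (N * V (PQ Q)) * (∑ h ∈ Icc 1 U, RP.GG Q C h - U * mu Q C) := by ring
      rw [e4, abs_mul, abs_of_pos hNV]
    rw [e3]
    refine h1.trans (le_of_eq ?_)
    ring
  rw [← hδ]
  exact le_of_mul_le_mul_left h2 hNV

end Pool.Agent.Y829.RX
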