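import Pool.Agent.Y829.RX2

/-! Sieve weights relative to a large modulus: reduction to the model. -/

set_option autoImplicit false

namespace Pool.Agent.Y829.RX

open Finset Filter Topology Pool.Agent.Y829 Pool.Agent.Y829.RP Pool.Agent.Y829.RW
open Pool.Agent.H378R2 (Phi EPhi LPhi MPhi WW GoodP GoodS BVrel)

/-- reduction to the model -/
theorem relred (K Z : ℕ) (x : ℝ) (hx0 : 0 < x) (hx1 : x ≤ 1 / 2) : ∃ X0 : ℕ, ∀ X : ℕ, X0 ≤ X →
    ∃ (ps : ℕ) (S : Finset ℕ), GoodP Z ps ∧ GoodS X S ∧ ∀ U : ℕ,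
    (U : ℝ) ≤ (X : ℝ) ^ (9 / 10 : ℝ) → ∀ (c : ℕ → ℕ → ℝ) (M : ℝ), 0 < M →
    (∀ n, 0 ≤ ∑ q ∈ QS X S ps, c q (n % (WW X S ps * q))) →
    (∀ q ∈ QS X S ps, ∑ a ∈ range (WW X S ps * q), |c q a| ≤ M * (q.divisors.card : ℝ) ^ K * Real.log X ^ K) →
    M * X / (WW X S ps * Real.log X ^ K) ≤ ∑ n ∈ Ioc X (3 * X), ∑ q ∈ QS X S ps, c q (n % (WW X S ps * q)) →
      M / (4 * (WW X S ps * Real.log X ^ K)) ≤ mu (WW X S ps * ⌊(X : ℝ) ^ (1 / 100 : ℝ)⌋₊) (ct (WW X S ps) (QS X S ps) c) ∧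
      (|∑ h ∈ Icc 1 U, RP.GG (WW X S ps * ⌊(X : ℝ) ^ (1 / 100 : ℝ)⌋₊) (ct (WW X S ps) (QS X S ps) c) h -
        U * mu (WW X S ps * ⌊(X : ℝ) ^ (1 / 100 : ℝ)⌋₊) (ct (WW X S ps) (QS X S ps) c)| ≤
        x * (U * mu (WW X S ps * ⌊(X : ℝ) ^ (1 / 100 : ℝ)⌋₊) (ct (WW X S ps) (QS X S ps) c)) →
      |∑ n ∈ Icc 1 (3 * X), (∑ q ∈ QS X S ps, c q (n % (WW X S ps * q))) * ∑ h ∈ Icc 1 U, th X (n + h) -
        U * ∑ n ∈ Icc 1 (3 * X), (∑ q ∈ QS X S ps, c q (n % (WW X S ps * q))) * Phi (n / (X : ℝ))| ≤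
        6 * x * (U * ∑ n ∈ Icc 1 (3 * X),
          (∑ q ∈ QS X S ps, c q (n % (WW X S ps * q))) * Phi (n / (X : ℝ))) ∧
      1 / 3200 * (U / Real.log X * ∑ n ∈ Ioc X (3 * X), ∑ q ∈ QS X S ps, c q (n % (WW X S ps * q))) ≤
        ∑ n ∈ Ioc X (3 * X), (∑ q ∈ QS X S ps, c q (n % (WW X S ps * q))) * pw U n) := by
  classical
  set η : ℝ := min (x / 2240) (1 / 6400) with hη
  have hη0 : 0 < η := lt_min (by positivity) (by norm_num)
  have hηx : η ≤ x / 2240 := min_le_left _ _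
  have hη64 : η ≤ 1 / 6400 := min_le_right _ _
  obtain ⟨X1, hest⟩ := est K Z η hη0
  obtain ⟨X2, hX2⟩ := (log_tend.eventually_ge_atTop (4 : ℝ)).exists_forall_of_atTop
  obtain ⟨X3, hX3⟩ := small_U.exists_forall_of_atTop
  obtain ⟨X4, hX4⟩ := (LM (x / 2) (by positivity)).exists_forall_of_atTop
  obtain ⟨X5, hX5⟩ := ((tendsto_natCast_atTop_atTop (R := ℝ)).eventually
    Pool.Agent.H378R2.LPhi_ge).exists_forall_of_atTop
  refine ⟨max (max X1 X2) (max (max X3 X4) (max X5 4)), ?_⟩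
  intro X hX
  have hXX1 : X1 ≤ X := (le_max_left _ _).trans ((le_max_left _ _).trans hX)
  have hXX2 : X2 ≤ X := (le_max_right _ _).trans ((le_max_left _ _).trans hX)
  have hXX3 : X3 ≤ X := (le_max_left _ _).trans ((le_max_left _ _).trans ((le_max_right _ _).trans hX))
  have hXX4 : X4 ≤ X := (le_max_right _ _).trans ((le_max_left _ _).trans ((le_max_right _ _).trans hX))
  have hXX5 : X5 ≤ X := (le_max_left _ _).trans ((le_max_right _ _).trans ((le_max_right _ _).trans hX))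
  have h4X : 4 ≤ X := (le_max_right _ _).trans ((le_max_right _ _).trans ((le_max_right _ _).trans hX))
  obtain ⟨ps, S, hps, hS, hc⟩ := hest X hXX1
  refine ⟨ps, S, hps, hS, ?_⟩
  intro U hUX c M hM hw hs hm
  obtain ⟨hT, hSt⟩ := hc c M hM hs
  have hLbig := hX2 X hXX2
  have hsm := hX3 X hXX3
  obtain ⟨hLM, hMP⟩ := hX4 X hXX4
  have hXr : (4 : ℝ) ≤ X := by exact_mod_cast h4X
  have hX0 : (0 : ℝ) < X := by linarith
  set L := Real.log (X : ℝ) with hL
  have hL4 : 4 ≤ L := hLbig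
  have hLP := hX5 X hXX5
  have hL0 : 0 < L := by linarith
  set W := WW X S ps with hW
  have hW0 : 0 < W := Pool.Agent.H378R2.WW_pos X S ps
  have hWr : (0 : ℝ) < W := by exact_mod_cast hW0
  set R := ⌊(X : ℝ) ^ (1 / 100 : ℝ)⌋₊ with hR
  have hR1 : 1 ≤ R := Nat.le_floor (by
    rw [Nat.cast_one]; exact Real.one_le_rpow (by linarith) (by norm_num))
  set Q := W * R with hQ
  have hQ1 : 1 ≤ Q := Nat.mul_pos hW0 hR1
  set CC := ct W (QS X S ps) c with hCC
  have hwt : ∀ n, wt Q CC n = ∑ q ∈ QS X S ps, c q (n % (W * q)) :=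
    fun n => wt_ct W R hW0 (QS X S ps) (QS_sub _ _ _) c n
  simp only [← hwt] at hw hm ⊢
  set St : ℝ := ∑ d ∈ Icc 1 Q, ss CC d with hStd
  set m : ℝ := ∑ n ∈ Ioc X (3 * X), wt Q CC n with hmd
  have hSt0 : 0 ≤ St := sum_nonneg fun d _ => ss_nonneg _ _
  have hSt1 : St * (X : ℝ) ^ (19 / 20 : ℝ) ≤ η * m := hSt.trans (mul_le_mul_of_nonneg_left hm hη0.le)
  have hSt2 : St ≤ η * m := by
    refine le_trans ?_ hSt1
    have h1 : 1 ≤ (X : ℝ) ^ (19 / 20 : ℝ) := Real.one_le_rpow (by linarith) (by norm_num)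
    nlinarith
  have hm0 : 0 ≤ m := sum_nonneg fun n _ => hw n
  have hmass := (abs_le.1 ((sum_int Q X (3 * X) (by omega) CC))).2
  rw [← hmd, ← hStd] at hmass
  have e1 : (((3 * X : ℕ) : ℝ) - X) * mu Q CC = 2 * (X * mu Q CC) := by push_cast; ring
  rw [e1] at hmass
  have hLK : 0 < L ^ K := by positivity
  refine ⟨?_, ?_⟩
  · have h1 : m / 2 ≤ (1 - η) * m := by nlinarith
    have h2 : M * X / (W * L ^ K) / 2 ≤ 2 * (X * mu Q CC) := by linarith
    have h3 : M * X / (W * L ^ K) / 2 = 2 * (X * (M / (4 * (W * L ^ K)))) := by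
      field_simp
      norm_num
    rw [h3] at h2
    have h4 : X * (M / (4 * (W * L ^ K))) ≤ X * mu Q CC := by linarith
    exact le_of_mul_le_mul_left h4 hX0
  intro hGt
  have hQX : (Q : ℝ) ≤ X := by
    have h1 : (W : ℝ) ≤ (X : ℝ) ^ (1 / 700 : ℝ) := by
      refine (Pool.Agent.H378R2.WW_le X (by linarith) S ps).trans (le_of_eq ?_)
      rw [Real.rpow_def_of_pos hX0]
      congr 1
      ring
    have h2 : (R : ℝ) ≤ (X : ℝ) ^ (1 / 100 : ℝ) := Nat.floor_le (Real.rpow_nonneg hX0.le _)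
    calc (Q : ℝ) = W * R := by rw [hQ]; push_cast; ring
      _ ≤ (X : ℝ) ^ (1 / 700 : ℝ) * (X : ℝ) ^ (1 / 100 : ℝ) :=
          mul_le_mul h1 h2 (by positivity) (Real.rpow_nonneg hX0.le _)
      _ = (X : ℝ) ^ (1 / 700 + 1 / 100 : ℝ) := (Real.rpow_add hX0 _ _).symm
      _ ≤ (X : ℝ) ^ (1 : ℝ) := Real.rpow_le_rpow_of_exponent_le (by linarith) (by norm_num)
      _ = X := Real.rpow_one _
  have hmu0 : 0 ≤ mu Q CC := by
    have h1 : 0 ≤ (1 - η) * m := mul_nonneg (by linarith) hm0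
    have h2 : 0 ≤ 2 * (X * mu Q CC) := by linarith
    have h3 : 0 ≤ X * mu Q CC := by linarith
    exact nonneg_of_mul_nonneg_right h3 hX0
  have hUleX : ∀ h ∈ Icc 1 U, h ≤ X ∧ (h : ℝ) ≤ (X : ℝ) ^ (9 / 10 : ℝ) := by
    intro h hh
    have h1 : (h : ℝ) ≤ U := by exact_mod_cast (mem_Icc.1 hh).2
    have h2 : (X : ℝ) ^ (9 / 10 : ℝ) ≤ X := by
      calc (X : ℝ) ^ (9 / 10 : ℝ) ≤ (X : ℝ) ^ (1 : ℝ) :=
            Real.rpow_le_rpow_of_exponent_le (by linarith) (by norm_num)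
        _ = X := Real.rpow_one _
    refine ⟨?_, h1.trans hUX⟩
    have : (h : ℝ) ≤ X := by linarith
    exact_mod_cast this
  set Y : ℝ := MPhi X * mu Q CC with hY
  set NN : ℝ := ∑ n ∈ Icc 1 (3 * X), wt Q CC n * Phi (n / (X : ℝ)) with hNN
  have hY0 : 0 ≤ Y := mul_nonneg (le_trans (by positivity) hMP) hmu0
  have hη1 : η ≤ 1 / 2 := by linarith
  have hmY : m ≤ 80 * Y := by
    have h1 : m / 2 ≤ (1 - η) * m := by nlinarith
    have h2 : X / 20 * mu Q CC ≤ Y := mul_le_mul_of_nonneg_right hMP hmu0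
    have h3 : (1 - η) * m ≤ 2 * (X * mu Q CC) := by linarith
    linarith
  have hStY : St ≤ 80 * η * Y := by
    calc St ≤ η * m := hSt2
      _ ≤ η * (80 * Y) := mul_le_mul_of_nonneg_left hmY hη0.le
      _ = _ := by ring
  have hNY := mass_Phi X h4X Q (by exact_mod_cast hQX) CC
  rw [← hNN, ← hY, ← hStd] at hNY
  have hNY' : |NN - Y| ≤ 400 * η * Y := by linarith
  have hNN2 : Y / 2 ≤ NN := by
    have h1 := (abs_le.1 hNY').1
    have h2 : 400 * η * Y ≤ Y / 2 := by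
      have := mul_le_mul_of_nonneg_right hη64 hY0
      linarith
    linarith
  -- the individual steps
  have hU0 : (0 : ℝ) ≤ U := Nat.cast_nonneg _
  have hsw : ∑ n ∈ Icc 1 (3 * X), wt Q CC n * ∑ h ∈ Icc 1 U, th X (n + h) =
      ∑ h ∈ Icc 1 U, ∑ n ∈ Icc 1 (3 * X), wt Q CC n * th X (n + h) := by
    rw [sum_comm]
    apply sum_congr rfl
    intro n _
    rw [mul_sum]
  have s1 : |∑ h ∈ Icc 1 U, ∑ n ∈ Icc 1 (3 * X), wt Q CC n * th X (n + h) - ∑ h ∈ Icc 1 U, TT X Q CC h| ≤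
      U * (80 * η * Y) := by
    rw [← sum_sub_distrib]
    refine (abs_sum_le_sum_abs _ _).trans ?_
    have h1 : ∀ h ∈ Icc 1 U, |∑ n ∈ Icc 1 (3 * X), wt Q CC n * th X (n + h) - TT X Q CC h| ≤ 80 * η * Y := by
      intro h hh
      refine (TT_th X (by omega) Q CC hw St (wt_le_ss Q CC) h (hUleX h hh).1).trans ?_
      have h2 := hsm h (hUleX h hh).2
      have h3 : 0 ≤ Real.log (3 * X) * h := mul_nonneg (Real.log_nonneg (by linarith)) (Nat.cast_nonneg _)
      calc St * (2 * Real.sqrt (3 * X) * Real.log (3 * X)) ≤ St * (X : ℝ) ^ (19 / 20 : ℝ) :=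
            mul_le_mul_of_nonneg_left (by linarith) hSt0
        _ ≤ η * m := hSt1
        _ ≤ η * (80 * Y) := mul_le_mul_of_nonneg_left hmY hη0.le
        _ = _ := by ring
    refine (sum_le_sum h1).trans ?_
    rw [sum_const, Nat.card_Icc, Nat.add_sub_cancel, nsmul_eq_mul]
  have s2 : |∑ h ∈ Icc 1 U, TT X Q CC h - LPhi X * ∑ h ∈ Icc 1 U, RP.GG Q CC h| ≤ U * (80 * η * Y) := by
    rw [mul_sum, ← sum_sub_distrib]
    refine (abs_sum_le_sum_abs _ _).trans ?_
    have h1 : ∀ h ∈ Icc 1 U, |TT X Q CC h - LPhi X * RP.GG Q CC h| ≤ 80 * η * Y := by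
      intro h hh
      refine (hT h (hUleX h hh).1).trans ?_
      calc η * (M * X / (W * L ^ K)) ≤ η * m := mul_le_mul_of_nonneg_left hm hη0.le
        _ ≤ η * (80 * Y) := mul_le_mul_of_nonneg_left hmY hη0.le
        _ = _ := by ring
    refine (sum_le_sum h1).trans ?_
    rw [sum_const, Nat.card_Icc, Nat.add_sub_cancel, nsmul_eq_mul]
  have hLPle : LPhi X ≤ 2 * MPhi X := by
    have h1 := (abs_le.1 hLM).2
    have h2 : 0 ≤ MPhi X := le_trans (by positivity) hMP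
    nlinarith
  have hLP0 : 0 ≤ LPhi X := by
    have h1 := (abs_le.1 hLM).1
    have h2 : 0 ≤ MPhi X := le_trans (by positivity) hMP
    nlinarith
  have s3 : |LPhi X * ∑ h ∈ Icc 1 U, RP.GG Q CC h - LPhi X * (U * mu Q CC)| ≤ U * (2 * x * Y) := by
    rw [← mul_sub, abs_mul, abs_of_nonneg hLP0]
    calc LPhi X * |∑ h ∈ Icc 1 U, RP.GG Q CC h - U * mu Q CC| ≤ (2 * MPhi X) * (x * (U * mu Q CC)) :=
          mul_le_mul hLPle hGt (abs_nonneg _) (by linarith)
      _ = _ := by rw [hY]; ring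
  have s4 : |LPhi X * (U * mu Q CC) - U * Y| ≤ U * (x / 2 * Y) := by
    have e2 : LPhi X * (U * mu Q CC) - U * Y = (LPhi X - MPhi X) * (U * mu Q CC) := by rw [hY]; ring
    rw [e2, abs_mul, abs_of_nonneg (show 0 ≤ U * mu Q CC by positivity)]
    calc |LPhi X - MPhi X| * (U * mu Q CC) ≤ (x / 2 * MPhi X) * (U * mu Q CC) :=
          mul_le_mul_of_nonneg_right hLM (by positivity)
      _ = _ := by rw [hY]; ring
  have s5 : |U * Y - U * NN| ≤ U * (400 * η * Y) := by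
    rw [← mul_sub, abs_mul, abs_of_nonneg hU0, abs_sub_comm]
    exact mul_le_mul_of_nonneg_left hNY' hU0
  rw [hsw]
  have htot : |∑ h ∈ Icc 1 U, ∑ n ∈ Icc 1 (3 * X), wt Q CC n * th X (n + h) - U * NN| ≤
      U * (80 * η * Y) + U * (80 * η * Y) + U * (2 * x * Y) + U * (x / 2 * Y) + U * (400 * η * Y) := by
    have t1 := abs_le.1 s1
    have t2 := abs_le.1 s2
    have t3 := abs_le.1 s3
    have t4 := abs_le.1 s4
    have t5 := abs_le.1 s5
    rw [abs_le]
    constructor <;> linarith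
  refine ⟨?_, ?_⟩
  · refine htot.trans ?_
    calc U * (80 * η * Y) + U * (80 * η * Y) + U * (2 * x * Y) + U * (x / 2 * Y) + U * (400 * η * Y) =
          U * Y * (560 * η + 5 / 2 * x) := by ring
      _ ≤ U * Y * (3 * x) := by
          apply mul_le_mul_of_nonneg_left _ (by positivity)
          linarith
      _ = 6 * x * (U * (Y / 2)) := by ring
      _ ≤ 6 * x * (U * NN) := by
          apply mul_le_mul_of_nonneg_left _ (by positivity)
          exact mul_le_mul_of_nonneg_left hNN2 hU0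
  · have hGlow' : 1 / 2 * (U * mu Q CC) ≤ ∑ h ∈ Icc 1 U, RP.GG Q CC h := by
      have h1 := (abs_le.1 hGt).1
      have h2 : x * (U * mu Q CC) ≤ 1 / 2 * (U * mu Q CC) := mul_le_mul_of_nonneg_right hx1 (by positivity)
      linarith
    have hTlow : ∀ h ∈ Icc 1 U, LPhi X * RP.GG Q CC h - η * m ≤ TT X Q CC h := by
      intro h hh
      have h1 := (abs_le.1 (hT h (hUleX h hh).1)).1
      have h2 := mul_le_mul_of_nonneg_left hm hη0.le
      linarith
    have hTup : ∀ h ∈ Icc 1 U, TT X Q CC h ≤ L * ∑ n ∈ Ioc X (3 * X), wt Q CC n * (if (n + h).Prime then 1 else 0) +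
        η * m := by
      intro h hh
      have h1 := TT_le X (by omega) Q CC hw St (wt_le_ss Q CC) h
      have h2 := hsm h (hUleX h hh).2
      have h3 := mul_le_mul_of_nonneg_left h2 hSt0
      have hlog3 : (1 / 2) * Real.log (3 * X) ≤ L := by
        rw [Real.log_mul (by norm_num) hX0.ne']
        have : Real.log 3 ≤ 2 := by
          have := Real.log_le_sub_one_of_pos (show (0 : ℝ) < 3 by norm_num)
          linarith
        linarith
      have h4 : 0 ≤ ∑ n ∈ Ioc X (3 * X), wt Q CC n * (if (n + h).Prime then (1 : ℝ) else 0) := by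
        apply sum_nonneg
        intro n _
        apply mul_nonneg (hw n)
        split_ifs <;> norm_num
      have h5 := mul_le_mul_of_nonneg_right hlog3 h4
      linarith
    have hsum := sum_le_sum (fun h hh => (hTlow h hh).trans (hTup h hh))
    rw [sum_sub_distrib, sum_add_distrib, ← mul_sum, ← mul_sum, sum_const, Nat.card_Icc, Nat.add_sub_cancel,
      nsmul_eq_mul] at hsum
    have hpw : ∑ n ∈ Ioc X (3 * X), wt Q CC n * pw U n =
        ∑ h ∈ Icc 1 U, ∑ n ∈ Ioc X (3 * X), wt Q CC n * (if (n + h).Prime then 1 else 0) := by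
      rw [sum_comm]
      apply sum_congr rfl
      intro n _
      rw [pw_eq, mul_sum]
    rw [← mul_sum, ← hpw] at hsum
    set Pt : ℝ := ∑ n ∈ Ioc X (3 * X), wt Q CC n * pw U n with hPt
    have hA1 : X / 200 * (1 / 2 * (U * mu Q CC)) ≤ LPhi X * ∑ h ∈ Icc 1 U, RP.GG Q CC h :=
      mul_le_mul hLP hGlow' (by positivity) ((by positivity : (0 : ℝ) ≤ X / 200).trans hLP)
    have hA2 : 1 / 800 * U * ((1 - η) * m) ≤ X / 200 * (1 / 2 * (U * mu Q CC)) := by
      have h1 : (1 - η) * m ≤ 2 * (X * mu Q CC) := by linarith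
      calc 1 / 800 * U * ((1 - η) * m) ≤ 1 / 800 * U * (2 * (X * mu Q CC)) :=
            mul_le_mul_of_nonneg_left h1 (by positivity)
        _ = _ := by ring
    have hA3 : 1 / 3200 * (U * m) ≤ L * Pt := by
      have hUm : 0 ≤ U * m := by positivity
      have h2 : 1 / 1600 * (U * m) ≤ 1 / 800 * U * ((1 - η) * m) := by
        calc 1 / 1600 * (U * m) = 1 / 800 * U * ((1 / 2) * m) := by ring
          _ ≤ _ := by
            apply mul_le_mul_of_nonneg_left _ (by positivity)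
            exact mul_le_mul_of_nonneg_right (by linarith) hm0
      have h3 : η * (U * m) ≤ 1 / 6400 * (U * m) := mul_le_mul_of_nonneg_right hη64 hUm
      linarith
    calc 1 / 3200 * (U / L * m) = (1 / 3200 * (U * m)) / L := by field_simp
      _ ≤ (L * Pt) / L := div_le_div_of_nonneg_right hA3 hL0.le
      _ = Pt := by field_simp

end Pool.Agent.Y829.RX
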