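import Pool.Agent.Y829.RX3

/-! Typical residue classes modulo the record modulus. -/

set_option autoImplicit false

namespace Pool.Agent.Y829.RX

open Finset Filter Topology Pool.Agent.Y829 Pool.Agent.Y829.RP Pool.Agent.Y829.RS Pool.Agent.Y829.RW
open Pool.Agent.H378R2 (Phi EPhi LPhi MPhi WW GoodP GoodS BVrel)

/-- the bad integers -/
def badn (e : ℕ) (Q U n : ℕ) : Prop := (1 / 2 : ℝ) ^ e * (U * V (PQ Q)) <
  |SO (fun _ => {0}) (PQ Q) U n - U * V (PQ Q)|

open Classical in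
/-- the bad classes for one `U` -/
noncomputable def EU (e W R U : ℕ) (t : ℝ) : Finset ℕ :=
  (range W).filter (fun b => (((W * R).factorial / W : ℕ) : ℝ) <
    (((range ((W * R).factorial / W)).filter (fun j => badn e (W * R) U (b + W * j))).card : ℝ) * Real.exp t)

lemma EU_card (e W R U : ℕ) (t : ℝ) (hW : 0 < W) (hR : 1 ≤ R)
    (h : (((range (∏ p ∈ PQ (W * R), p)).filter (fun n => (1 / 2 : ℝ) ^ e * (U * V (PQ (W * R))) <
      |SO (fun _ => {0}) (PQ (W * R)) U n - U * V (PQ (W * R))|)).card : ℝ) * Real.exp (2 * t) ≤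
      ((∏ p ∈ PQ (W * R), p : ℕ) : ℝ)) :
    ((EU e W R U t).card : ℝ) * Real.exp t ≤ W := by
  classical
  obtain ⟨Q, hQ⟩ : ∃ Q, Q = W * R := ⟨_, rfl⟩
  unfold EU
  rw [← hQ] at h ⊢
  have hP : ∀ p ∈ PQ Q, p.Prime := fun p hp => (mem_PQ.1 hp).1
  obtain ⟨N, hN⟩ : ∃ N, N = Q.factorial := ⟨_, rfl⟩
  have hN0 : 0 < N := by rw [hN]; exact Nat.factorial_pos _
  have hdN : ∀ d ∈ Icc 1 Q, d ∣ N := by rw [hN]; exact dvdfac Q
  have hWN : W ∣ N := hdN W (mem_Icc.2 ⟨hW, by rw [hQ]; exact Nat.le_mul_of_pos_right W hR⟩)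
  obtain ⟨N', hN'⟩ := hWN
  have hN'0 : 0 < N' := by
    rcases Nat.eq_zero_or_pos N' with h | h
    · rw [h, mul_zero] at hN'; omega
    · exact h
  have hND : Q.factorial / W = N' := by rw [← hN, hN', Nat.mul_div_cancel_left _ hW]
  rw [hND]
  apply classes W N' hW hN'0 (badn e Q U) t
  rw [← hN']
  obtain ⟨M, hM⟩ : ∃ M, M = ∏ p ∈ PQ Q, p := ⟨_, rfl⟩
  have hMN : M ∣ N := by
    rw [hM]
    apply Finset.prod_primes_dvd
    · intro p hp; exact (hP p hp).prime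
    · intro p hp
      exact hdN p (mem_Icc.2 ⟨(hP p hp).one_lt.le, (mem_PQ.1 hp).2⟩)
  obtain ⟨k, hk⟩ := hMN
  rw [← hM] at h
  have hper : ∀ n, (if badn e Q U (n + M) then (1 : ℝ) else 0) = if badn e Q U n then (1 : ℝ) else 0 := by
    intro n
    have h1 : badn e Q U (n + M) ↔ badn e Q U n := by
      unfold badn
      rw [SO_per (fun _ => {0}) (PQ Q) U M n (fun p hp => by
        rw [hM]; exact dvd_prod_of_mem (fun p : ℕ => p) hp)]
    simp only [h1]
  have h1 : (((range N).filter (badn e Q U)).card : ℝ) = k * (((range M).filter (badn e Q U)).card : ℝ) := by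
    rw [card_filter, card_filter, hk]
    push_cast
    exact per_sum hper k
  rw [h1, hk]
  push_cast
  have h2 : (((range M).filter (badn e Q U)).card : ℝ) * Real.exp (2 * t) ≤ M := by
    unfold badn
    convert h
  have := mul_le_mul_of_nonneg_left h2 (Nat.cast_nonneg (α := ℝ) k)
  linarith

/-- **typical classes** -/
theorem typical (A : ℝ) (hA : 1 < A) (e : ℕ) : ∃ cx : ℝ, 0 < cx ∧ ∀ K Z : ℕ, ∃ X0 : ℕ, ∀ X : ℕ, X0 ≤ X →
    ∃ (ps : ℕ) (S : Finset ℕ), GoodP Z ps ∧ GoodS X S ∧ ∃ E : Finset ℕ, E ⊆ range (WW X S ps) ∧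
    (E.card : ℝ) * Real.exp (Real.log X ^ cx) ≤ WW X S ps ∧ ∀ b : ℕ, b < WW X S ps → b ∉ E → ∀ U : ℕ,
    Real.log X ^ A ≤ U → (U : ℝ) ≤ (X : ℝ) ^ (9 / 10 : ℝ) → ∀ c : ℕ → ℕ → ℝ,
    (∀ n, n % WW X S ps = b → 0 ≤ ∑ q ∈ QS X S ps, c q (n % q)) →
    (∀ q ∈ QS X S ps, ∑ a ∈ range q, |c q a| ≤ (q.divisors.card : ℝ) ^ K * Real.log X ^ K) →
    X / (WW X S ps * Real.log X ^ K) ≤ ∑ n ∈ Ioc X (3 * X), (if n % WW X S ps = b then ∑ q ∈ QS X S ps, c q (n % q) else 0) →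
      |∑ n ∈ Icc 1 (3 * X), (if n % WW X S ps = b then ∑ q ∈ QS X S ps, c q (n % q) else 0) * ∑ h ∈ Icc 1 U, th X (n + h) -
        U * ∑ n ∈ Icc 1 (3 * X), (if n % WW X S ps = b then ∑ q ∈ QS X S ps, c q (n % q) else 0) * Phi (n / (X : ℝ))| ≤
        (1 / 2 : ℝ) ^ e * (U * ∑ n ∈ Icc 1 (3 * X),
          (if n % WW X S ps = b then ∑ q ∈ QS X S ps, c q (n % q) else 0) * Phi (n / (X : ℝ))) ∧
      1 / 3200 * (U / Real.log X * ∑ n ∈ Ioc X (3 * X), (if n % WW X S ps = b then ∑ q ∈ QS X S ps, c q (n % q) else 0)) ≤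
        ∑ n ∈ Ioc X (3 * X), (if n % WW X S ps = b then ∑ q ∈ QS X S ps, c q (n % q) else 0) * pw U n := by
  classical
  obtain ⟨c0, hc0, X1, hconc⟩ := concA A hA (e + 4)
  obtain ⟨C, hC1, hGG⟩ := GG_two
  obtain ⟨b0, hb0⟩ : ∃ b0, b0 = max C (e + 3) := ⟨_, rfl⟩
  obtain ⟨U1, hGG1⟩ := hGG b0 (by rw [hb0]; exact le_max_left _ _)
  have hCr : (1 : ℝ) ≤ C := by exact_mod_cast hC1
  have hb0r : (1 : ℝ) ≤ b0 := by
    have : 1 ≤ b0 := by rw [hb0]; exact hC1.trans (le_max_left _ _)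
    exact_mod_cast this
  obtain ⟨A', hA'⟩ : ∃ A' : ℝ, A' = C * b0 := ⟨_, rfl⟩
  have hA'1 : 1 ≤ A' := by rw [hA']; nlinarith
  have hx : 2 * (1 / 2 : ℝ) ^ (e + 4) = (1 / 2 : ℝ) ^ (e + 3) := by rw [pow_succ]; ring
  have hx1 : (1 / 2 : ℝ) ^ (e + 3) ≤ 1 / 2 := by
    calc (1 / 2 : ℝ) ^ (e + 3) ≤ (1 / 2 : ℝ) ^ 1 := pow_le_pow_of_le_one (by norm_num) (by norm_num) (by omega)
      _ = _ := pow_one _
  have h6x : 6 * (1 / 2 : ℝ) ^ (e + 3) ≤ (1 / 2 : ℝ) ^ e := by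
    have h1 : (1 / 2 : ℝ) ^ (e + 3) = (1 / 2 : ℝ) ^ e * (1 / 8) := by rw [pow_add]; norm_num
    have h2 : (0 : ℝ) < (1 / 2 : ℝ) ^ e := by positivity
    rw [h1]
    linarith
  refine ⟨c0 / 2, by positivity, ?_⟩
  intro K Z
  obtain ⟨X2, hred⟩ := relred K Z ((1 / 2 : ℝ) ^ (e + 3)) (by positivity) hx1
  obtain ⟨X3, hmod⟩ := relmodel K (e + 4) c0 hc0
  have EE := ((log_tend.eventually_ge_atTop ((U1 : ℝ) + 4)).and ((evpow c0 (c0 / 2) 1 0 (by positivity) (by linarith)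
    (by norm_num)).and (evl (c0 / 2) A' 2 (by positivity)))).and (eventually_ge_atTop 4)
  obtain ⟨X4, hX4⟩ := EE.exists_forall_of_atTop
  refine ⟨max (max X1 X2) (max X3 X4), ?_⟩
  intro X hX
  have hXX1 : X1 ≤ X := (le_max_left _ _).trans ((le_max_left _ _).trans hX)
  have hXX2 : X2 ≤ X := (le_max_right _ _).trans ((le_max_left _ _).trans hX)
  have hXX3 : X3 ≤ X := (le_max_left _ _).trans ((le_max_right _ _).trans hX)
  have hXX4 : X4 ≤ X := (le_max_right _ _).trans ((le_max_right _ _).trans hX)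
  obtain ⟨⟨e1, ⟨e2, e3⟩⟩, e4⟩ := hX4 X hXX4
  obtain ⟨ps, S, hps, hS, hr⟩ := hred X hXX2
  obtain ⟨W, hW⟩ : ∃ W, W = WW X S ps := ⟨_, rfl⟩
  obtain ⟨QQ, hQQ⟩ : ∃ QQ, QQ = QS X S ps := ⟨_, rfl⟩
  obtain ⟨R, hR⟩ : ∃ R, R = ⌊(X : ℝ) ^ (1 / 100 : ℝ)⌋₊ := ⟨_, rfl⟩
  obtain ⟨L, hL⟩ : ∃ L : ℝ, L = Real.log X := ⟨_, rfl⟩
  have hXr : (4 : ℝ) ≤ X := by exact_mod_cast e4
  have hX0 : (0 : ℝ) < X := by linarith
  have hU10 : (0 : ℝ) ≤ U1 := Nat.cast_nonneg _
  have hW0 : 0 < W := by rw [hW]; exact Pool.Agent.H378R2.WW_pos X S ps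
  have hR1 : 1 ≤ R := by
    rw [hR]
    exact Nat.le_floor (by rw [Nat.cast_one]; exact Real.one_le_rpow (by linarith) (by norm_num))
  have hQS : QQ ⊆ Icc 1 R := by rw [hQQ, hR]; exact QS_sub _ _ _
  have hcop : ∀ q ∈ QQ, W.Coprime q := by
    intro q hq
    rw [hQQ] at hq
    unfold RW.QS at hq
    rw [mem_filter] at hq
    rw [hW]
    exact (Nat.Coprime.coprime_mul_right_right hq.2.2).symm
  have hWR : W * R ≤ X := by
    have h1 : (W : ℝ) ≤ (X : ℝ) ^ (1 / 700 : ℝ) := by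
      rw [hW]
      refine (Pool.Agent.H378R2.WW_le X (by linarith) S ps).trans (le_of_eq ?_)
      rw [Real.rpow_def_of_pos hX0]
      congr 1
      ring
    have h2 : (R : ℝ) ≤ (X : ℝ) ^ (1 / 100 : ℝ) := by
      rw [hR]; exact Nat.floor_le (Real.rpow_nonneg hX0.le _)
    have h3 : ((W * R : ℕ) : ℝ) ≤ X := by
      calc ((W * R : ℕ) : ℝ) = W * R := by push_cast; ring
        _ ≤ (X : ℝ) ^ (1 / 700 : ℝ) * (X : ℝ) ^ (1 / 100 : ℝ) :=
            mul_le_mul h1 h2 (by positivity) (Real.rpow_nonneg hX0.le _)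
        _ = (X : ℝ) ^ (1 / 700 + 1 / 100 : ℝ) := (Real.rpow_add hX0 _ _).symm
        _ ≤ (X : ℝ) ^ (1 : ℝ) := Real.rpow_le_rpow_of_exponent_le (by linarith) (by norm_num)
        _ = X := Real.rpow_one _
    exact_mod_cast h3
  refine ⟨ps, S, hps, hS, ?_⟩
  rw [← hW, ← hQQ, ← hL]
  rw [← hW, ← hQQ, ← hR, ← hL] at hr
  rw [← hL] at e1 e2 e3
  have hL4 : 4 ≤ L := by linarith
  have hL0 : 0 < L := by linarith
  obtain ⟨Um, hUm⟩ : ∃ Um, Um = ⌊L ^ A'⌋₊ := ⟨_, rfl⟩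
  obtain ⟨E, hE⟩ : ∃ E, E = ((range (Um + 1)).filter (fun U : ℕ => L ^ A ≤ U)).biUnion (fun U => EU (e + 4) W R U (L ^ c0)) := ⟨_, rfl⟩
  refine ⟨E, ?_, ?_, ?_⟩
  · rw [hE]
    intro b hb
    rw [mem_biUnion] at hb
    obtain ⟨U, _, hb⟩ := hb
    unfold EU at hb
    exact (mem_filter.1 hb).1
  · have h1 : (E.card : ℝ) * Real.exp (L ^ c0) ≤ (Um + 1) * W := by
      have h2 : (E.card : ℝ) ≤ ∑ U ∈ (range (Um + 1)).filter (fun U : ℕ => L ^ A ≤ U), ((EU (e + 4) W R U (L ^ c0)).card : ℝ) := by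
        rw [hE]
        exact_mod_cast card_biUnion_le
      have h3 := mul_le_mul_of_nonneg_right h2 (Real.exp_pos (L ^ c0)).le
      rw [sum_mul] at h3
      refine h3.trans ?_
      have h4 : ∀ U ∈ (range (Um + 1)).filter (fun U : ℕ => L ^ A ≤ U), ((EU (e + 4) W R U (L ^ c0)).card : ℝ) * Real.exp (L ^ c0) ≤ W := by
        intro U hU
        have h5 := (mem_filter.1 hU).2
        apply EU_card (e + 4) W R U (L ^ c0) hW0 hR1
        have h6 := hconc X hXX1 U (W * R) (by rw [← hL]; exact h5) hWR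
        rw [← hL] at h6
        exact h6
      refine (sum_le_sum h4).trans ?_
      rw [sum_const, nsmul_eq_mul]
      apply mul_le_mul_of_nonneg_right _ (Nat.cast_nonneg _)
      have h5 := card_filter_le (range (Um + 1)) (fun U : ℕ => L ^ A ≤ U)
      rw [card_range] at h5
      exact_mod_cast h5
    have h2 : ((Um : ℝ) + 1) * Real.exp (L ^ (c0 / 2)) ≤ Real.exp (L ^ c0) := by
      have h3 : (Um : ℝ) + 1 ≤ Real.exp (L ^ (c0 / 2)) := by
        have h4 : (Um : ℝ) ≤ L ^ A' := by rw [hUm]; exact Nat.floor_le (by positivity)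
        have h5 : 1 ≤ L ^ A' := Real.one_le_rpow (by linarith) (by linarith)
        have h6 : (Um : ℝ) + 1 ≤ Real.exp 1 * L ^ A' := by
          have h7 : (2 : ℝ) ≤ Real.exp 1 := by
            have := Real.add_one_le_exp (1 : ℝ)
            linarith
          nlinarith
        refine h6.trans ?_
        rw [Real.rpow_def_of_pos hL0, ← Real.exp_add]
        apply Real.exp_le_exp.2
        linarith
      calc ((Um : ℝ) + 1) * Real.exp (L ^ (c0 / 2)) ≤ Real.exp (L ^ (c0 / 2)) * Real.exp (L ^ (c0 / 2)) :=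
            mul_le_mul_of_nonneg_right h3 (Real.exp_pos _).le
        _ = Real.exp (L ^ (c0 / 2) + L ^ (c0 / 2)) := (Real.exp_add _ _).symm
        _ ≤ _ := by
            apply Real.exp_le_exp.2
            linarith
    have h3 : (0 : ℝ) < Um + 1 := by positivity
    have h4 : (E.card : ℝ) * (((Um : ℝ) + 1) * Real.exp (L ^ (c0 / 2))) ≤ (Um + 1) * W :=
      (mul_le_mul_of_nonneg_left h2 (Nat.cast_nonneg _)).trans h1
    have h5 : ((Um : ℝ) + 1) * ((E.card : ℝ) * Real.exp (L ^ (c0 / 2))) ≤ ((Um : ℝ) + 1) * W := by linarith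
    exact le_of_mul_le_mul_left h5 h3
  · intro b hbW hbE U hU hUX c hw hc hm
    have hval : ∀ n, ∑ q ∈ QQ, cW W b c q (n % (W * q)) = if n % W = b then ∑ q ∈ QQ, c q (n % q) else 0 := by
      intro n
      have h1 : ∀ q ∈ QQ, cW W b c q (n % (W * q)) = if n % W = b then c q (n % q) else 0 := fun q _ => cW_val W b q n c
      rw [sum_congr rfl h1]
      split_ifs with h
      · rfl
      · simp
    have hnn : ∀ n, 0 ≤ ∑ q ∈ QQ, cW W b c q (n % (W * q)) := by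
      intro n
      rw [hval n]
      split_ifs with h
      · exact hw n h
      · exact le_refl _
    have hbd : ∀ q ∈ QQ, ∑ a ∈ range (W * q), |cW W b c q a| ≤ 1 * (q.divisors.card : ℝ) ^ K * L ^ K := by
      intro q hq
      rw [cW_ss W b q c hbW (mem_Icc.1 (hQS hq)).1 (hcop q hq), one_mul]
      exact hc q hq
    have hr' := hr U hUX (cW W b c) 1 one_pos hnn hbd (by
      rw [one_mul]
      simp only [hval]
      exact hm)
    simp only [hval] at hr'
    obtain ⟨hmu, hfin⟩ := hr'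
    have hwt : ∀ n, 0 ≤ wt (W * R) (ct W QQ (cW W b c)) n := by
      intro n
      rw [wt_ct W R hW0 QQ hQS]
      exact hnn n
    have hmu0 : 0 ≤ mu (W * R) (ct W QQ (cW W b c)) := le_trans (by positivity) hmu
    have hUr : (0 : ℝ) ≤ U := Nat.cast_nonneg _
    have hmain : |∑ h ∈ Icc 1 U, RP.GG (W * R) (ct W QQ (cW W b c)) h - U * mu (W * R) (ct W QQ (cW W b c))| ≤
        (1 / 2 : ℝ) ^ (e + 3) * (U * mu (W * R) (ct W QQ (cW W b c))) := by
      rcases le_or_gt U Um with hUU | hUU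
      · rw [← hx]
        apply hmod X hXX3 W R U b QQ hW0 hR1 hWR hQS hcop hbW _ c hwt (by rw [← hL]; exact hc) (by rw [← hL]; exact hmu)
        rw [← hL]
        by_contra hcon
        rw [not_le] at hcon
        apply hbE
        rw [hE, mem_biUnion]
        refine ⟨U, mem_filter.2 ⟨mem_range.2 (by omega), hU⟩, ?_⟩
        unfold EU
        rw [mem_filter]
        refine ⟨mem_range.2 hbW, ?_⟩
        unfold badn
        convert hcon
      · have hU' : L ^ A' ≤ U := by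
          have h9 : 0 ≤ L ^ A' := by positivity
          rw [hUm] at hUU
          exact ((Nat.floor_lt h9).1 hUU).le
        have hUr1 : (U1 : ℝ) ≤ U := by
          have h2 : L ≤ L ^ A' := by
            calc L = L ^ (1 : ℝ) := (Real.rpow_one _).symm
              _ ≤ _ := Real.rpow_le_rpow_of_exponent_le (by linarith) hA'1
          linarith
        have hQ1 : 1 ≤ W * R := Nat.mul_pos hW0 hR1
        have hlogQ : Real.log ((W * R : ℕ) : ℝ) ≤ (U : ℝ) ^ (1 / ((C : ℝ) * b0)) := by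
          have h3 : Real.log ((W * R : ℕ) : ℝ) ≤ L := by
            rw [hL]
            exact Real.log_le_log (by exact_mod_cast hQ1) (by exact_mod_cast hWR)
          refine h3.trans ?_
          rw [← hA']
          calc L = (L ^ A') ^ (1 / A') := by
                rw [← Real.rpow_mul (by linarith), mul_one_div, div_self (by linarith), Real.rpow_one]
            _ ≤ (U : ℝ) ^ (1 / A') := Real.rpow_le_rpow (by positivity) hU' (by positivity)
        obtain ⟨-, hGt⟩ := hGG1 U (W * R) (ct W QQ (cW W b c)) (by exact_mod_cast hUr1) hQ1 hlogQ hwt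
        refine hGt.trans ?_
        apply mul_le_mul_of_nonneg_right _ (by positivity)
        exact pow_le_pow_of_le_one (by norm_num) (by norm_num) (by rw [hb0]; exact le_max_right _ _)
    obtain ⟨f1, f2⟩ := hfin hmain
    refine ⟨f1.trans ?_, f2⟩
    apply mul_le_mul_of_nonneg_right h6x
    apply mul_nonneg hUr
    apply sum_nonneg
    intro n _
    refine mul_nonneg ?_ (Pool.Agent.H378R2.LSBV.Phi_nonneg _)
    split_ifs with h
    · exact hw n h
    · exact le_refl _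

end Pool.Agent.Y829.RX
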