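import Pool.Agent.Y829.G2
import Pool.Agent.W89.Sv.Adm

/-! The fundamental lemma for windows with the true rate: the Buchstab step and the start. -/

set_option autoImplicit false

namespace Pool.Agent.Y829.RZ

open Finset Filter Topology Pool.Agent.Y829 Pool.Agent.W89.Sv

/-- `E` is an admissible error for windows of length `z ^ s` -/
def WA (s E : ℝ) : Prop := ∀ ε : ℝ, 0 < ε → ∃ z0 : ℕ, ∀ z : ℕ, z0 ≤ z → ∀ n U d : ℕ, 0 < d →
  d.Coprime (PZ 1 z) → (z : ℝ) ^ s ≤ U / d →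
    |sift 1 (Icc 1 U) (fun h => n + h) d z - U / d * VZ 1 z| ≤ (E + ε) * (U / d * VZ 1 z)

lemma WA.mono {s E E' : ℝ} (h : WA s E) (hE : E ≤ E') : WA s E' := by
  intro ε hε
  obtain ⟨z0, hz0⟩ := h ε hε
  refine ⟨z0, fun z hz n U d hd hdz hD => (hz0 z hz n U d hd hdz hD).trans ?_⟩
  have hV := VZ_pos 1 z
  have : 0 ≤ (U : ℝ) / d * VZ 1 z := by positivity
  nlinarith

lemma WA.anti {s s' E : ℝ} (h : WA s E) (hs : s ≤ s') : WA s' E := by
  intro ε hε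
  obtain ⟨z0, hz0⟩ := h ε hε
  refine ⟨max z0 1, fun z hz n U d hd hdz hD => ?_⟩
  have hz1 : (1 : ℝ) ≤ z := by exact_mod_cast (le_max_right _ _).trans hz
  exact hz0 z ((le_max_left _ _).trans hz) n U d hd hdz
    ((Real.rpow_le_rpow_of_exponent_le hz1 hs).trans hD)

/-- limits -/
lemma WA.lim {s E : ℝ} (h : ∀ η : ℝ, 0 < η → WA s (E + η)) : WA s E := by
  intro ε hε
  obtain ⟨z0, hz0⟩ := h (ε / 2) (by positivity) (ε / 2) (by positivity)
  refine ⟨z0, fun z hz n U d hd hdz hD => (hz0 z hz n U d hd hdz hD).trans (le_of_eq ?_)⟩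
  ring

/-- the Buchstab step -/
theorem WA.step {s t E1 E2 : ℝ} (hs : 1 < s) (hst : s < t) (hE1 : 0 ≤ E1) (hE2 : 0 ≤ E2)
    (h1 : WA (s - 1) E1) (h2 : WA t E2) : WA s (E2 * (t / s) + E1 * (t / s - 1)) := by
  intro ε hε
  have hs0 : 0 < s := by linarith
  have hts : 1 < t / s := by rw [one_lt_div hs0]; exact hst
  obtain ⟨B, hB⟩ : ∃ B : ℝ, B = E1 + E2 + 2 * (t / s) + 2 := ⟨_, rfl⟩
  have hB0 : 0 < B := by rw [hB]; linarith
  obtain ⟨e1, he1⟩ : ∃ e1 : ℝ, e1 = min 1 (ε / B) := ⟨_, rfl⟩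
  have he10 : 0 < e1 := by rw [he1]; exact lt_min one_pos (by positivity)
  have he11 : e1 ≤ 1 := by rw [he1]; exact min_le_left _ _
  have he12 : e1 * B ≤ ε := by
    calc e1 * B ≤ ε / B * B := mul_le_mul_of_nonneg_right (by rw [he1]; exact min_le_right _ _) hB0.le
      _ = ε := div_mul_cancel₀ _ hB0.ne'
  obtain ⟨z1, hz1⟩ := h1 e1 he10
  obtain ⟨z2, hz2⟩ := h2 e1 he10
  obtain ⟨z3, hz3⟩ := step_setup 1 one_ne_zero hs0 hst he10 (max z1 z2)
  refine ⟨z3, fun z hz n U d hd hdz hD => ?_⟩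
  obtain ⟨w, hw1, hw0, hwz, hwt, hwV⟩ := hz3 z hz
  have hVz := VZ_pos 1 z
  have hVw := VZ_pos 1 w
  have hdw : d.Coprime (PZ 1 w) := Nat.Coprime.coprime_dvd_right (PZ_dvd hwz) hdz
  have k1 := hz2 w ((le_max_right _ _).trans hw1) n U d hd hdw (hwt.trans hD)
  have k2 : ∀ p ∈ (PP 1 z).filter (fun p => w ≤ p),
      |sift 1 (Icc 1 U) (fun h => n + h) (d * p) p - U / d * (VZ 1 p / p)| ≤
        (E1 + e1) * (U / d) * (VZ 1 p / p) := by
    intro p hp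
    rw [mem_filter, mem_PP] at hp
    have hp0 : (0 : ℝ) < p := by exact_mod_cast hp.1.2.1.pos
    have h3 : (p : ℝ) ^ (s - 1) ≤ U / ((d * p : ℕ) : ℝ) := by
      rw [Real.rpow_sub hp0, Real.rpow_one]
      push_cast
      rw [← div_div]
      apply div_le_div_of_nonneg_right _ hp0.le
      refine le_trans ?_ hD
      exact Real.rpow_le_rpow hp0.le (by exact_mod_cast hp.1.1.le) hs0.le
    have h4 : (d * p).Coprime (PZ 1 p) := by
      apply Nat.Coprime.mul_left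
      · exact Nat.Coprime.coprime_dvd_right (PZ_dvd hp.1.1.le) hdz
      · exact coprime_PZ hp.1.2.1
    have h5 := hz1 p ((le_max_left _ _).trans (hw1.trans hp.2)) n U (d * p)
      (Nat.mul_pos hd hp.1.2.1.pos) h4 h3
    have e1' : (U : ℝ) / ((d * p : ℕ) : ℝ) * VZ 1 p = U / d * (VZ 1 p / p) := by
      push_cast
      have hd0 : (d : ℝ) ≠ 0 := by exact_mod_cast hd.ne'
      field_simp
    rw [e1'] at h5
    refine h5.trans (le_of_eq ?_)
    ring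
  have k3 := sum_le_sum k2
  rw [← mul_sum, V_tele 1 hwz] at k3
  have k4 : |∑ p ∈ (PP 1 z).filter (fun p => w ≤ p), sift 1 (Icc 1 U) (fun h => n + h) (d * p) p -
      U / d * (VZ 1 w - VZ 1 z)| ≤ (E1 + e1) * (U / d) * (VZ 1 w - VZ 1 z) := by
    refine le_trans ?_ k3
    rw [← V_tele 1 hwz, mul_sum, ← sum_sub_distrib]
    exact abs_sum_le_sum_abs _ _
  have k5 := buchstab 1 (Icc 1 U) (fun h => n + h) hwz hdz
  obtain ⟨Y, hY⟩ : ∃ Y : ℝ, Y = (U : ℝ) / d := ⟨_, rfl⟩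
  have hY0 : 0 ≤ Y := by rw [hY]; positivity
  rw [← hY] at k1 k4 ⊢
  obtain ⟨ρ, hρ⟩ : ∃ ρ : ℝ, ρ = VZ 1 w / VZ 1 z := ⟨_, rfl⟩
  have hVwρ : VZ 1 w = ρ * VZ 1 z := by rw [hρ]; field_simp
  rw [← hρ] at hwV
  have h6 := abs_le.1 hwV
  have hmain : (E2 + e1) * ρ + (E1 + e1) * (ρ - 1) ≤ (E2 * (t / s) + E1 * (t / s - 1)) + ε := by
    have h7 : E2 * ρ ≤ E2 * (t / s + e1) := mul_le_mul_of_nonneg_left (by linarith) hE2
    have h8 : E1 * (ρ - 1) ≤ E1 * (t / s + e1 - 1) := mul_le_mul_of_nonneg_left (by linarith) hE1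
    have h9 : e1 * (2 * ρ - 1) ≤ e1 * (2 * (t / s) + 2) := by
      apply mul_le_mul_of_nonneg_left _ he10.le
      linarith
    have h10 : e1 * B = e1 * E1 + e1 * E2 + e1 * (2 * (t / s) + 2) := by rw [hB]; ring
    linarith
  have hYV : 0 ≤ Y * VZ 1 z := by positivity
  have h7 := mul_le_mul_of_nonneg_right hmain hYV
  have h8 : ((E2 + e1) * ρ + (E1 + e1) * (ρ - 1)) * (Y * VZ 1 z) =
      (E2 + e1) * (Y * VZ 1 w) + (E1 + e1) * Y * (VZ 1 w - VZ 1 z) := by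
    rw [hVwρ]; ring
  rw [h8] at h7
  refine le_trans ?_ h7
  have m1 := abs_le.1 k1
  have m2 := abs_le.1 k4
  rw [abs_le]
  constructor
  · rw [k5]; linarith [m1.1, m2.2]
  · rw [k5]; linarith [m1.2, m2.1]

/-- short windows, from longer ones -/
theorem WA.small {s t E : ℝ} (hs : 0 < s) (hst : s < t) (hE : 0 ≤ E) (h : WA t E) : WA s ((1 + E) * (t / s)) := by
  intro ε hε
  have hts : 1 < t / s := by rw [one_lt_div hs]; exact hst
  obtain ⟨B, hB⟩ : ∃ B : ℝ, B = 1 + E + (t / s) + 1 := ⟨_, rfl⟩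
  have hB0 : 0 < B := by rw [hB]; linarith
  obtain ⟨e1, he1⟩ : ∃ e1 : ℝ, e1 = min 1 (ε / B) := ⟨_, rfl⟩
  have he10 : 0 < e1 := by rw [he1]; exact lt_min one_pos (by positivity)
  have he11 : e1 ≤ 1 := by rw [he1]; exact min_le_left _ _
  have he12 : e1 * B ≤ ε := by
    calc e1 * B ≤ ε / B * B := mul_le_mul_of_nonneg_right (by rw [he1]; exact min_le_right _ _) hB0.le
      _ = ε := div_mul_cancel₀ _ hB0.ne'
  obtain ⟨z2, hz2⟩ := h e1 he10
  obtain ⟨z3, hz3⟩ := step_setup 1 one_ne_zero hs hst he10 z2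
  refine ⟨z3, fun z hz n U d hd hdz hD => ?_⟩
  obtain ⟨w, hw1, hw0, hwz, hwt, hwV⟩ := hz3 z hz
  have hVz := VZ_pos 1 z
  have hVw := VZ_pos 1 w
  have hdw : d.Coprime (PZ 1 w) := Nat.Coprime.coprime_dvd_right (PZ_dvd hwz) hdz
  have k1 := hz2 w hw1 n U d hd hdw (hwt.trans hD)
  have k5 := sift_anti 1 (Icc 1 U) (fun h => n + h) d hwz
  have k6 := sift_nonneg 1 (Icc 1 U) (fun h => n + h) d z
  obtain ⟨Y, hY⟩ : ∃ Y : ℝ, Y = (U : ℝ) / d := ⟨_, rfl⟩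
  have hY0 : 0 ≤ Y := by rw [hY]; positivity
  rw [← hY] at k1 ⊢
  obtain ⟨ρ, hρ⟩ : ∃ ρ : ℝ, ρ = VZ 1 w / VZ 1 z := ⟨_, rfl⟩
  have hVwρ : VZ 1 w = ρ * VZ 1 z := by rw [hρ]; field_simp
  rw [← hρ] at hwV
  have h6 := abs_le.1 hwV
  have hmain : (1 + E + e1) * ρ ≤ (1 + E) * (t / s) + ε := by
    have h7 : (1 + E) * ρ ≤ (1 + E) * (t / s + e1) := mul_le_mul_of_nonneg_left (by linarith) (by linarith)
    have h9 : e1 * ρ ≤ e1 * (t / s + 1) := by
      apply mul_le_mul_of_nonneg_left _ he10.le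
      linarith
    have h10 : e1 * B = e1 * (1 + E) + e1 * (t / s + 1) := by rw [hB]; ring
    linarith
  have hYV : 0 ≤ Y * VZ 1 z := by positivity
  have h7 := mul_le_mul_of_nonneg_right hmain hYV
  have h8 : (1 + E + e1) * ρ * (Y * VZ 1 z) = Y * VZ 1 w + (E + e1) * (Y * VZ 1 w) := by
    rw [hVwρ]; ring
  rw [h8] at h7
  have m1 := abs_le.1 k1
  have h9 : Y * VZ 1 z ≤ ((1 + E) * (t / s) + ε) * (Y * VZ 1 z) := by
    apply le_mul_of_one_le_left hYV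
    nlinarith
  rw [abs_le]
  constructor
  · linarith
  · linarith [m1.2]

end Pool.Agent.Y829.RZ
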