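import Pool.Agent.Y829.RZ1

/-! The fundamental lemma for windows with the true rate: the base case. -/

set_option autoImplicit false

namespace Pool.Agent.Y829.RZ

open Finset Filter Topology Pool.Agent.Y829 Pool.Agent.W89.Sv

lemma cop_PZ (z m : ℕ) : m.Coprime (PZ 1 z) ↔ ∀ p ∈ PP 1 z, m % p ∉ ({0} : Finset ℕ) := by
  unfold PZ
  rw [Nat.coprime_prod_right_iff]
  constructor
  · intro h p hp h1
    rw [mem_singleton] at h1
    have h2 := h p hp
    rw [Nat.coprime_comm, Nat.Prime.coprime_iff_not_dvd (PP_prime hp)] at h2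
    exact h2 (Nat.dvd_of_mod_eq_zero h1)
  · intro h p hp
    rw [Nat.coprime_comm, Nat.Prime.coprime_iff_not_dvd (PP_prime hp)]
    intro h1
    exact h p hp (by rw [mem_singleton]; exact Nat.mod_eq_zero_of_dvd h1)

/-- the multiples of `d` in a window -/
lemma sift_window (n U d z : ℕ) (hd : 0 < d) (hdz : d.Coprime (PZ 1 z)) :
    sift 1 (Icc 1 U) (fun h => n + h) d z =
      (((Icc 1 ((n + U) / d - n / d)).filter (fun k => ∀ p ∈ PP 1 z, (n / d + k) % p ∉ ({0} : Finset ℕ))).card : ℝ) := by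
  classical
  unfold sift
  congr 1
  have hle : n / d ≤ (n + U) / d := Nat.div_le_div_right (by omega)
  have hdn := Nat.div_mul_le_self n d
  apply card_nbij' (fun h => (n + h) / d - n / d) (fun k => d * (n / d + k) - n)
  · intro h hh
    rw [mem_coe, mem_filter, mem_Icc] at hh
    obtain ⟨⟨h1, h2⟩, ⟨m, hm⟩, h4⟩ := hh
    dsimp only at hm h4
    have h5 : (n + h) / d = m := by rw [hm, Nat.mul_div_cancel_left m hd]
    have h6 : n / d < m := by
      by_contra h7
      have h8 : d * m ≤ d * (n / d) := Nat.mul_le_mul_left d (not_lt.1 h7)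
      rw [mul_comm d (n / d)] at h8
      omega
    have h7 : m ≤ (n + U) / d := by
      rw [← h5]
      exact Nat.div_le_div_right (by omega)
    rw [mem_coe, mem_filter, mem_Icc]
    dsimp only
    rw [h5]
    refine ⟨⟨by omega, by omega⟩, ?_⟩
    rw [hm] at h4
    have h8 : m.Coprime (PZ 1 z) := Nat.Coprime.coprime_mul_left h4
    rw [cop_PZ] at h8
    have h9 : n / d + (m - n / d) = m := by omega
    rw [h9]
    exact h8
  · intro k hk
    rw [mem_coe, mem_filter, mem_Icc] at hk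
    obtain ⟨⟨h1, h2⟩, h3⟩ := hk
    have h4 : n < d * (n / d + k) := by
      have h5 : d * (n / d + 1) ≤ d * (n / d + k) := Nat.mul_le_mul_left d (by omega)
      have h6 : n < d * (n / d + 1) := Nat.lt_mul_div_succ n hd
      omega
    have h5 : d * (n / d + k) ≤ n + U := by
      have h6 : d * (n / d + k) ≤ d * ((n + U) / d) := Nat.mul_le_mul_left d (by omega)
      have h7 := Nat.mul_div_le (n + U) d
      omega
    rw [mem_coe, mem_filter, mem_Icc]
    dsimp only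
    have h6 : n + (d * (n / d + k) - n) = d * (n / d + k) := by omega
    rw [h6]
    refine ⟨⟨by omega, by omega⟩, Dvd.intro _ rfl, ?_⟩
    rw [← cop_PZ] at h3
    exact Nat.Coprime.mul_left hdz h3
  · intro h hh
    rw [mem_coe, mem_filter, mem_Icc] at hh
    obtain ⟨⟨h1, h2⟩, ⟨m, hm⟩, h4⟩ := hh
    dsimp only at hm h4
    dsimp only
    have h5 : (n + h) / d = m := by rw [hm, Nat.mul_div_cancel_left m hd]
    have h6 : n / d ≤ m := by rw [← h5]; exact Nat.div_le_div_right (by omega)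
    rw [h5]
    have h7 : n / d + (m - n / d) = m := by omega
    rw [h7, ← hm]
    omega
  · intro k hk
    rw [mem_coe, mem_filter, mem_Icc] at hk
    obtain ⟨⟨h1, h2⟩, h3⟩ := hk
    dsimp only
    have h4 : n < d * (n / d + k) := by
      have h5 : d * (n / d + 1) ≤ d * (n / d + k) := Nat.mul_le_mul_left d (by omega)
      have h6 : n < d * (n / d + 1) := Nat.lt_mul_div_succ n hd
      omega
    have h6 : n + (d * (n / d + k) - n) = d * (n / d + k) := by omega
    rw [h6, Nat.mul_div_cancel_left _ hd]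
    omega

/-- the base case -/
theorem base : ∃ C : ℕ, 1 ≤ C ∧ ∀ b : ℕ, C ≤ b → WA ((C * b + 1 : ℕ) : ℝ) ((1 / 2 : ℝ) ^ b) := by
  classical
  obtain ⟨C, hC1, hsm⟩ := small 1
  refine ⟨C, hC1, fun b hb ε hε => ?_⟩
  obtain ⟨U0, hU0⟩ := hsm b hb
  obtain ⟨z1, hz1⟩ := exists_nat_ge (2 / ε)
  refine ⟨max (max (U0 + 1) 2) z1, fun z hz n U d hd hdz hD => ?_⟩
  simp only [max_le_iff] at hz
  obtain ⟨⟨a1, a2⟩, a3⟩ := hz
  have hC1r : (1 : ℝ) ≤ C := by exact_mod_cast hC1
  have hb1 : 1 ≤ b := hC1.trans hb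
  have hzr : (2 : ℝ) ≤ z := by exact_mod_cast a2
  rw [Real.rpow_natCast] at hD
  obtain ⟨U', hU'⟩ : ∃ U', U' = (n + U) / d - n / d := ⟨_, rfl⟩
  have hdr : (0 : ℝ) < d := by exact_mod_cast hd
  have hle : n / d ≤ (n + U) / d := Nat.div_le_div_right (by omega)
  have hU'e : (U' : ℝ) = (((n + U) / d : ℕ) : ℝ) - ((n / d : ℕ) : ℝ) := by
    rw [hU', Nat.cast_sub hle]
  have b1 : (((n + U) / d : ℕ) : ℝ) * d ≤ n + U := by exact_mod_cast Nat.div_mul_le_self (n + U) d
  have b2 : ((n : ℝ) + U) < ((((n + U) / d : ℕ) : ℝ) + 1) * d := by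
    have h1 := Nat.lt_mul_div_succ (n + U) hd
    have h2 : ((n + U : ℕ) : ℝ) < ((d * ((n + U) / d + 1) : ℕ) : ℝ) := by exact_mod_cast h1
    push_cast at h2 ⊢
    linarith
  have b3 : ((n / d : ℕ) : ℝ) * d ≤ n := by exact_mod_cast Nat.div_mul_le_self n d
  have b4 : (n : ℝ) < (((n / d : ℕ) : ℝ) + 1) * d := by
    have h1 := Nat.lt_mul_div_succ n hd
    have h2 : ((n : ℕ) : ℝ) < ((d * (n / d + 1) : ℕ) : ℝ) := by exact_mod_cast h1
    push_cast at h2 ⊢
    linarith
  have hdiff : |(U' : ℝ) - U / d| ≤ 1 := by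
    rw [abs_le]
    constructor
    · have h1 : (U : ℝ) / d ≤ U' + 1 := by
        rw [div_le_iff₀ hdr, hU'e]
        linarith
      linarith
    · have h1 : (U' : ℝ) - 1 ≤ U / d := by
        rw [le_div_iff₀ hdr, hU'e]
        linarith
      linarith
  have hd1 := abs_le.1 hdiff
  have hzpow : (z : ℝ) ^ (C * b) + 1 ≤ (z : ℝ) ^ (C * b + 1) := by
    have h1 : (1 : ℝ) ≤ (z : ℝ) ^ (C * b) := one_le_pow₀ (by linarith)
    rw [pow_succ]
    nlinarith
  have hzz : (z : ℝ) ≤ (z : ℝ) ^ (C * b) := by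
    apply le_self_pow₀ (by linarith)
    have : 0 < C * b := Nat.mul_pos hC1 hb1
    omega
  have hUz : (z : ℝ) ^ (C * b) ≤ U' := by linarith [hd1.1]
  have hUU : U0 ≤ U' := by
    have h1 : (z : ℝ) ≤ U' := hzz.trans hUz
    have h2 : z ≤ U' := by exact_mod_cast h1
    omega
  have h1 := hU0 U' hUU (PP 1 z) (fun _ => {0}) (fun p hp => by
    refine ⟨PP_prime hp, ?_⟩
    have hp1 := (mem_PP.1 hp).1
    have hpz : (p : ℝ) ≤ z := by exact_mod_cast hp1.le
    have hCb : (0 : ℝ) < (C : ℝ) * b := by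
      have : (1 : ℝ) ≤ b := by exact_mod_cast hb1
      positivity
    refine hpz.trans ?_
    have h2 : (z : ℝ) = ((z : ℝ) ^ (C * b)) ^ (1 / ((C : ℝ) * b)) := by
      rw [← Real.rpow_natCast, ← Real.rpow_mul (by linarith)]
      push_cast
      rw [mul_one_div, div_self hCb.ne', Real.rpow_one]
    rw [h2]
    exact Real.rpow_le_rpow (by positivity) hUz (by positivity)) (fun p hp => ⟨by
      rw [singleton_subset_iff, mem_range]; exact (PP_prime hp).pos, by simp, by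
      simpa using (PP_prime hp).one_lt⟩) (n / d)
  have hVO : VO (fun _ => ({0} : Finset ℕ)) (PP 1 z) = VZ 1 z := by
    unfold VO VZ
    simp
  rw [sift_window n U d z hd hdz, ← hU']
  rw [hVO] at h1
  obtain ⟨Vz, hVz⟩ : ∃ Vz : ℝ, Vz = VZ 1 z := ⟨_, rfl⟩
  have hV0 : 0 < Vz := by rw [hVz]; exact VZ_pos 1 z
  rw [← hVz] at h1 ⊢
  obtain ⟨x, hx⟩ : ∃ x : ℝ, x = (1 / 2 : ℝ) ^ b := ⟨_, rfl⟩
  have hx0 : 0 < x := by rw [hx]; positivity
  have hx1 : x ≤ 1 := by rw [hx]; exact pow_le_one₀ (by norm_num) (by norm_num)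
  rw [← hx] at h1 ⊢
  obtain ⟨Y, hY⟩ : ∃ Y : ℝ, Y = (U : ℝ) / d := ⟨_, rfl⟩
  rw [← hY] at hd1 hD hdiff ⊢
  have hYz : (z : ℝ) ≤ Y := by linarith
  have hYε : 2 ≤ ε * Y := by
    have h2 : 2 / ε ≤ Y := hz1.trans (le_trans (by exact_mod_cast a3) hYz)
    rw [div_le_iff₀ hε] at h2
    linarith
  have k1 := abs_le.1 h1
  have k2 : |(U' : ℝ) * Vz - Y * Vz| ≤ Vz := by
    rw [← sub_mul, abs_mul, abs_of_pos hV0]
    exact mul_le_of_le_one_left hV0.le hdiff
  have k3 := abs_le.1 k2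
  have k4 : x * ((U' : ℝ) * Vz) ≤ x * (Y * Vz) + Vz := by
    have h2 : x * ((U' : ℝ) * Vz) ≤ x * (Y * Vz + Vz) := mul_le_mul_of_nonneg_left (by linarith [k3.2]) hx0.le
    have h3 : x * Vz ≤ Vz := mul_le_of_le_one_left hV0.le hx1
    linarith
  have k5 : 2 * Vz ≤ ε * (Y * Vz) := by
    have := mul_le_mul_of_nonneg_right hYε hV0.le
    linarith
  rw [abs_le]
  constructor <;> linarith [k1.1, k1.2, k3.1, k3.2]

end Pool.Agent.Y829.RZ
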