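import Pool.Agent.Y829.RZ2

/-! The fundamental lemma for windows with the true rate: the iteration. -/

set_option autoImplicit false

namespace Pool.Agent.Y829.RZ

open Finset Filter Topology Pool.Agent.Y829 Pool.Agent.W89.Sv

/-- exponential decay -/
theorem geo : ∃ B ρ : ℝ, 0 < B ∧ 0 < ρ ∧ ρ < 1 ∧ ∀ s : ℕ, 1 ≤ s → WA (s : ℝ) (B * ρ ^ s) := by
  obtain ⟨C, hC1, hb⟩ := base
  have hCr : (1 : ℝ) ≤ C := by exact_mod_cast hC1
  obtain ⟨ρ, hρ⟩ : ∃ ρ : ℝ, ρ = (1 / 2 : ℝ) ^ (1 / (C : ℝ)) := ⟨_, rfl⟩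
  have hρ0 : 0 < ρ := by rw [hρ]; positivity
  have hρ1 : ρ < 1 := by
    rw [hρ]
    exact Real.rpow_lt_one (by norm_num) (by norm_num) (by positivity)
  have hρC : ρ ^ C = 1 / 2 := by
    rw [hρ, ← Real.rpow_natCast, ← Real.rpow_mul (by norm_num), one_div_mul_cancel (by linarith), Real.rpow_one]
  obtain ⟨s0, hs0⟩ : ∃ s0 : ℕ, s0 = C * C + 1 := ⟨_, rfl⟩
  obtain ⟨B, hB⟩ : ∃ B : ℝ, B = 2 * ((s0 : ℝ) + 1) / ρ ^ s0 := ⟨_, rfl⟩
  have hB0 : 0 < B := by rw [hB]; positivity
  refine ⟨B, ρ, hB0, hρ0, hρ1, fun s hs => ?_⟩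
  have hpow : ρ ^ s0 ≤ 1 := pow_le_one₀ hρ0.le hρ1.le
  rcases Nat.lt_or_ge s s0 with h | h
  · -- small `s`
    have h1 := hb C le_rfl
    rw [← hs0] at h1
    have h2 := WA.small (s := (s : ℝ)) (by exact_mod_cast hs) (by exact_mod_cast h) (by positivity) h1
    refine h2.mono ?_
    have h3 : (1 / 2 : ℝ) ^ C ≤ 1 := pow_le_one₀ (by norm_num) (by norm_num)
    have h4 : (s0 : ℝ) / s ≤ s0 := div_le_self (by positivity) (by exact_mod_cast hs)
    have h5 : (1 + (1 / 2 : ℝ) ^ C) * ((s0 : ℝ) / s) ≤ 2 * s0 := by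
      apply mul_le_mul (by linarith) h4 (by positivity) (by norm_num)
    refine h5.trans ?_
    have h6 : ρ ^ s0 ≤ ρ ^ s := pow_le_pow_of_le_one hρ0.le hρ1.le h.le
    rw [hB, div_mul_eq_mul_div, le_div_iff₀ (by positivity)]
    apply mul_le_mul (by linarith) h6 (by positivity) (by positivity)
  · -- large `s`
    obtain ⟨b, hbd⟩ : ∃ b, b = (s - 1) / C := ⟨_, rfl⟩
    have h1 : C ≤ b := by
      rw [hbd, Nat.le_div_iff_mul_le (by omega)]
      omega
    have h2 : C * b + 1 ≤ s := by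
      have h3 := Nat.mul_div_le (s - 1) C
      rw [hbd]
      omega
    have h3 : s ≤ C * b + C := by
      have h4 := Nat.lt_mul_div_succ (s - 1) (show 0 < C by omega)
      rw [← hbd] at h4
      have h5 : C * (b + 1) = C * b + C := by ring
      omega
    have h4 := (hb b h1).anti (s' := (s : ℝ)) (by exact_mod_cast h2)
    refine h4.mono ?_
    have h5 : (1 / 2 : ℝ) ^ b = ρ ^ (C * b) := by rw [pow_mul, hρC]
    rw [h5]
    have h6 : ρ ^ (C * b + C) ≤ ρ ^ s := pow_le_pow_of_le_one hρ0.le hρ1.le h3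
    rw [pow_add, hρC] at h6
    have h7 : 2 * ρ ^ s ≤ B * ρ ^ s := by
      apply mul_le_mul_of_nonneg_right _ (by positivity)
      rw [hB, le_div_iff₀ (by positivity)]
      have : (0 : ℝ) ≤ s0 := Nat.cast_nonneg _
      nlinarith
    linarith

/-- the error after `k` steps -/
noncomputable def Ek (B κ ρ : ℝ) (k s : ℕ) : ℝ := B * κ ^ k * ρ ^ s / (s.descFactorial k : ℝ)

lemma desc_pos {s k : ℕ} (h : k ≤ s) : (1 : ℝ) ≤ (s.descFactorial k : ℝ) := by
  have h1 : 0 < s.descFactorial k := Nat.pos_of_ne_zero (by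
    rw [Ne, Nat.descFactorial_eq_zero_iff_lt]
    omega)
  exact_mod_cast h1

theorem iter (B ρ : ℝ) (hB : 0 < B) (hρ0 : 0 < ρ) (hρ1 : ρ < 1) (hg : ∀ s : ℕ, 1 ≤ s → WA (s : ℝ) (B * ρ ^ s)) :
    ∀ k s : ℕ, k + 1 ≤ s → WA (s : ℝ) (Ek B (1 / (ρ * (1 - ρ))) ρ k s) := by
  obtain ⟨κ, hκ⟩ : ∃ κ : ℝ, κ = 1 / (ρ * (1 - ρ)) := ⟨_, rfl⟩
  have h1ρ : 0 < 1 - ρ := by linarith
  have hκ0 : 0 < κ := by rw [hκ]; positivity
  rw [← hκ]
  intro k
  induction k with
  | zero =>
    intro s hs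
    refine (hg s (by omega)).mono (le_of_eq ?_)
    unfold Ek
    simp
  | succ k ih =>
    intro s hs
    have hE0 : ∀ t : ℕ, 0 ≤ Ek B κ ρ k t := by
      intro t
      unfold Ek
      positivity
    -- the telescoped inequality
    have tel : ∀ m s : ℕ, k + 2 ≤ s →
        WA (s : ℝ) ((∑ i ∈ range m, Ek B κ ρ k (s - 1 + i) + ((s : ℝ) + m) * Ek B κ ρ k (s + m)) / s) := by
      intro m
      induction m with
      | zero =>
        intro s hs
        refine (ih s (by omega)).mono (le_of_eq ?_)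
        have : (s : ℝ) ≠ 0 := by exact_mod_cast (by omega : s ≠ 0)
        simp only [range_zero, sum_empty, Nat.cast_zero, add_zero, zero_add]
        field_simp
      | succ m ihm =>
        intro s hs
        have hs0 : (0 : ℝ) < s := by exact_mod_cast (by omega : 0 < s)
        have a1 := ihm (s + 1) (by omega)
        have a2 := ih (s - 1) (by omega)
        have hcast : ((s - 1 : ℕ) : ℝ) = (s : ℝ) - 1 := by rw [Nat.cast_sub (by omega)]; simp
        rw [hcast] at a2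
        have a3 := WA.step (s := (s : ℝ)) (t := ((s + 1 : ℕ) : ℝ)) (by exact_mod_cast (by omega : 1 < s))
          (by push_cast; linarith) (hE0 _) (by
            apply div_nonneg _ (Nat.cast_nonneg _)
            apply add_nonneg (sum_nonneg fun i _ => hE0 _)
            exact mul_nonneg (by positivity) (hE0 _)) a2 a1
        refine a3.mono (le_of_eq ?_)
        have e1 : s + 1 - 1 = s := by omega
        have e2 : s + 1 + m = s + (m + 1) := by ring
        rw [e1, e2, sum_range_succ' (fun i => Ek B κ ρ k (s - 1 + i)) m, add_zero]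
        have e3 : ∀ i ∈ range m, Ek B κ ρ k (s - 1 + (i + 1)) = Ek B κ ρ k (s + i) := by
          intro i _
          congr 1
          omega
        rw [sum_congr rfl e3]
        push_cast
        field_simp
        ring
    have hs0 : (0 : ℝ) < s := by exact_mod_cast (by omega : 0 < s)
    apply WA.lim
    intro η hη
    -- choose `m`
    have hlim : Tendsto (fun n : ℕ => (n : ℝ) * ρ ^ n) atTop (𝓝 0) :=
      tendsto_self_mul_const_pow_of_lt_one hρ0.le hρ1
    have hη' : 0 < η * s / (B * κ ^ k) := by positivity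
    obtain ⟨n0, hn0⟩ := ((tendsto_order.1 hlim).2 _ hη').exists_forall_of_atTop
    have hm := hn0 (s + n0) (by omega)
    refine (tel n0 s (by omega)).mono ?_
    have g1 : ∑ i ∈ range n0, Ek B κ ρ k (s - 1 + i) ≤ s * Ek B κ ρ (k + 1) s := by
      have g2 : ∀ i ∈ range n0, Ek B κ ρ k (s - 1 + i) ≤
          (B * κ ^ k * ρ ^ (s - 1) / ((s - 1).descFactorial k : ℝ)) * ρ ^ i := by
        intro i _
        unfold Ek
        have d1 := desc_pos (s := s - 1) (k := k) (by omega)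
        have d2 : ((s - 1).descFactorial k : ℝ) ≤ ((s - 1 + i).descFactorial k : ℝ) := by
          exact_mod_cast Nat.descFactorial_le k (by omega)
        rw [pow_add, div_mul_eq_mul_div]
        rw [div_le_div_iff₀ (by linarith) (by linarith)]
        have g3 : 0 ≤ B * κ ^ k * (ρ ^ (s - 1) * ρ ^ i) := by positivity
        have g4 := mul_le_mul_of_nonneg_left d2 g3
        linarith
      refine (sum_le_sum g2).trans ?_
      rw [← mul_sum]
      have g3 : ∑ i ∈ range n0, ρ ^ i ≤ 1 / (1 - ρ) := by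
        rw [geom_sum_eq hρ1.ne, le_div_iff₀ h1ρ]
        have g4 : (ρ ^ n0 - 1) / (ρ - 1) * (1 - ρ) = 1 - ρ ^ n0 := by
          have : ρ - 1 ≠ 0 := by linarith
          field_simp
          ring
        rw [g4]
        have : 0 < ρ ^ n0 := by positivity
        linarith
      have d1 := desc_pos (s := s - 1) (k := k) (by omega)
      have g5 : 0 ≤ B * κ ^ k * ρ ^ (s - 1) / ((s - 1).descFactorial k : ℝ) := by positivity
      refine (mul_le_mul_of_nonneg_left g3 g5).trans (le_of_eq ?_)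
      unfold Ek
      obtain ⟨s', hs'⟩ : ∃ s', s = s' + 1 := ⟨s - 1, by omega⟩
      rw [hs', Nat.add_sub_cancel, Nat.succ_descFactorial_succ, hκ]
      rw [hs', Nat.add_sub_cancel] at d1
      have d2 : ((s'.descFactorial k : ℕ) : ℝ) ≠ 0 := by linarith
      have d3 : ((s' + 1 : ℕ) : ℝ) ≠ 0 := by positivity
      push_cast at d3 ⊢
      have : 1 - ρ ≠ 0 := h1ρ.ne'
      rw [pow_succ (1 / (ρ * (1 - ρ))) k, pow_succ ρ s']
      field_simp
    have g2 : ((s : ℝ) + n0) * Ek B κ ρ k (s + n0) ≤ η * s := by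
      unfold Ek
      have d1 := desc_pos (s := s + n0) (k := k) (by omega)
      have g3 : B * κ ^ k * ρ ^ (s + n0) / ((s + n0).descFactorial k : ℝ) ≤ B * κ ^ k * ρ ^ (s + n0) :=
        div_le_self (by positivity) d1
      have g4 : ((s : ℝ) + n0) * (B * κ ^ k * ρ ^ (s + n0)) ≤ η * s := by
        have g5 := hm.le
        rw [le_div_iff₀ (by positivity)] at g5
        push_cast at g5
        linarith
      exact (mul_le_mul_of_nonneg_left g3 (by positivity)).trans g4
    rw [div_le_iff₀ hs0]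
    have g3 : (Ek B κ ρ (k + 1) s + η) * s = s * Ek B κ ρ (k + 1) s + η * s := by ring
    rw [g3]
    exact add_le_add g1 g2

/-- **The fundamental lemma for windows, with the true rate** -/
theorem fl : ∃ B κ : ℝ, 0 < B ∧ 1 ≤ κ ∧ ∀ s : ℕ, 1 ≤ s → WA (s : ℝ) (B * κ ^ s / (s.factorial : ℝ)) := by
  obtain ⟨B, ρ, hB, hρ0, hρ1, hg⟩ := geo
  have h1ρ : 0 < 1 - ρ := by linarith
  obtain ⟨κ, hκ⟩ : ∃ κ : ℝ, κ = 1 / (ρ * (1 - ρ)) := ⟨_, rfl⟩
  have hκ1 : 1 ≤ κ := by
    rw [hκ, le_div_iff₀ (by positivity), one_mul]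
    nlinarith
  refine ⟨B, κ, hB, hκ1, fun s hs => ?_⟩
  have h1 := iter B ρ hB hρ0 hρ1 hg (s - 1) s (by omega)
  rw [← hκ] at h1
  refine h1.mono ?_
  unfold Ek
  have h2 : s.descFactorial (s - 1) = s.factorial := by
    have h3 := Nat.factorial_mul_descFactorial (show s - 1 ≤ s by omega)
    have h4 : s - (s - 1) = 1 := by omega
    rw [h4, Nat.factorial_one, one_mul] at h3
    exact h3
  rw [h2]
  apply div_le_div_of_nonneg_right _ (Nat.cast_nonneg _)
  have h3 : κ ^ (s - 1) ≤ κ ^ s := pow_le_pow_right₀ hκ1 (by omega)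
  have h4 : ρ ^ s ≤ 1 := pow_le_one₀ hρ0.le hρ1.le
  have h5 : κ ^ (s - 1) * ρ ^ s ≤ κ ^ s * 1 := mul_le_mul h3 h4 (by positivity) (by positivity)
  have h6 := mul_le_mul_of_nonneg_left h5 hB.le
  linarith

end Pool.Agent.Y829.RZ
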