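import Pool.Agent.Y829.RX1

/-! Concentration of the number of survivors of a set of shifts. -/

set_option autoImplicit false

namespace Pool.Agent.Y829.SA

open Finset Filter Topology Pool.Agent.Y829 Pool.Agent.Y829.RP Pool.Agent.Y829.RS

/-- the number of `h ∈ H` such that no `p ∈ P` divides `n + h` -/
noncomputable def SH (H P : Finset ℕ) (n : ℕ) : ℝ := by
  classical exact ((H.filter (fun h => ∀ p ∈ P, (n + h) % p ∉ ({0} : Finset ℕ))).card : ℝ)

lemma SH_nonneg (H P : Finset ℕ) (n : ℕ) : 0 ≤ SH H P n := by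
  unfold SH; exact Nat.cast_nonneg _

lemma SH_le (H P : Finset ℕ) (n : ℕ) : SH H P n ≤ H.card := by
  classical
  unfold SH
  exact_mod_cast card_le_card (filter_subset _ _)

/-- one stage -/
lemma onestage (P H : Finset ℕ) (x A : ℕ) (b : ℕ → ℝ) (lam δ : ℝ) (hP : ∀ p ∈ P, p.Prime) (hA : ∀ p ∈ P, A.Coprime p)
    (hδ1 : δ ≤ 1 / 4) (hlam : 0 ≤ lam) (hb : ∀ p ∈ P, lam * b p ≤ 1)
    (hHb : ∀ p ∈ P, ∀ r : ℕ, ((H.filter (fun h => (r + h) % p ∈ ({0} : Finset ℕ))).card : ℝ) ≤ b p)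
    (hsum : 8 * ∑ p ∈ P, lam * b p * (1 / p) ≤ δ) :
    (((range (∏ p ∈ P, p)).filter (fun j => δ * (H.card * V P) <
      |SH H P (x + A * j) - H.card * V P|)).card : ℝ) ≤
      2 * Real.exp (-(lam * (H.card * V P) * (δ / 2))) * ((∏ p ∈ P, p : ℕ) : ℝ) := by
  classical
  have h := devi P b (fun _ => {0}) H x A lam (δ / 4) δ hP
    (fun p hp => by rw [singleton_subset_iff, mem_range]; exact (hP p hp).pos)
    (fun p hp => by simpa using (hP p hp).two_le) hlam hb hHb hA (by linarith) (by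
      refine le_trans (le_of_eq ?_) (show 2 * ∑ p ∈ P, lam * b p * (1 / p) ≤ δ / 4 by linarith)
      congr 1
      apply sum_congr rfl
      intro p _
      rw [card_singleton, Nat.cast_one])
  rw [VO_V] at h
  unfold SH
  have e1 : δ - 2 * (δ / 4) = δ / 2 := by ring
  rw [e1] at h
  refine h.trans (le_of_eq ?_)
  ring

theorem twostageG (P1 P2 H : Finset ℕ) (x A : ℕ) (b1 b2 : ℕ → ℝ) (lam1 lam2 δ : ℝ) (hP1 : ∀ p ∈ P1, p.Prime)
    (hP2 : ∀ p ∈ P2, p.Prime) (hd : Disjoint P1 P2) (hA1 : ∀ p ∈ P1, A.Coprime p) (hA2 : ∀ p ∈ P2, A.Coprime p)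
    (hδ : 0 < δ) (hδ1 : δ ≤ 1 / 4) (hl1 : 0 ≤ lam1) (hl2 : 0 ≤ lam2)
    (hb1 : ∀ p ∈ P1, lam1 * b1 p ≤ 1) (hb2 : ∀ p ∈ P2, lam2 * b2 p ≤ 1)
    (hH1 : ∀ p ∈ P1, ∀ r : ℕ, ((H.filter (fun h => (r + h) % p ∈ ({0} : Finset ℕ))).card : ℝ) ≤ b1 p)
    (hH2 : ∀ p ∈ P2, ∀ r : ℕ, ((H.filter (fun h => (r + h) % p ∈ ({0} : Finset ℕ))).card : ℝ) ≤ b2 p)
    (hs1 : 8 * ∑ p ∈ P1, lam1 * b1 p * (1 / p) ≤ δ) (hs2 : 8 * ∑ p ∈ P2, lam2 * b2 p * (1 / p) ≤ δ) :
    (((range (∏ p ∈ P1 ∪ P2, p)).filter (fun j => 3 * δ * (H.card * V (P1 ∪ P2)) <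
      |SH H (P1 ∪ P2) (x + A * j) - H.card * V (P1 ∪ P2)|)).card : ℝ) ≤
      (2 * Real.exp (-(lam1 * (H.card * V P1) * (δ / 2))) +
        2 * Real.exp (-(lam2 * (H.card * V (P1 ∪ P2) / 2) * (δ / 2)))) * ((∏ p ∈ P1 ∪ P2, p : ℕ) : ℝ) := by
  classical
  obtain ⟨D1, hD1⟩ : ∃ D, D = ∏ p ∈ P1, p := ⟨_, rfl⟩
  obtain ⟨D2, hD2⟩ : ∃ D, D = ∏ p ∈ P2, p := ⟨_, rfl⟩
  have hDD : ∏ p ∈ P1 ∪ P2, p = D1 * D2 := by rw [hD1, hD2, prod_union hd]
  have hV : V (P1 ∪ P2) = V P1 * V P2 := by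
    rw [← VO_V, ← VO_V, ← VO_V, VO_union hd]
  have hV1 : 0 < V P1 := V_pos hP1
  have hV2 : 0 < V P2 := V_pos hP2
  have hcopr : ∀ p ∈ P2, (A * D1).Coprime p := by
    intro p hp
    apply Nat.Coprime.mul_left (hA2 p hp)
    rw [hD1]
    apply Nat.Coprime.prod_left
    intro q hq
    rw [Nat.coprime_primes (hP1 q hq) (hP2 p hp)]
    rintro rfl
    exact disjoint_left.1 hd hq hp
  have hst1 := onestage P1 H x A b1 lam1 δ hP1 hA1 hδ1 hl1 hb1 hH1 hs1
  rw [← hD1] at hst1
  rw [hDD]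
  obtain ⟨E1, hE1⟩ : ∃ E : ℝ, E = Real.exp (-(lam1 * (H.card * V P1) * (δ / 2))) := ⟨_, rfl⟩
  obtain ⟨E, hE⟩ : ∃ E : ℝ, E = Real.exp (-(lam2 * (H.card * V (P1 ∪ P2) / 2) * (δ / 2))) := ⟨_, rfl⟩
  rw [← hE1] at hst1 ⊢
  rw [← hE]
  have hE0 : 0 < E := by rw [hE]; exact Real.exp_pos _
  obtain ⟨bad, hbaddef⟩ : ∃ bad : ℕ → Prop, bad = fun j => 3 * δ * (H.card * V (P1 ∪ P2)) <
      |SH H (P1 ∪ P2) (x + A * j) - H.card * V (P1 ∪ P2)| := ⟨_, rfl⟩
  obtain ⟨bad1, hbad1⟩ : ∃ bad1 : ℕ → Prop, bad1 = fun j => δ * (H.card * V P1) <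
      |SH H P1 (x + A * j) - H.card * V P1| := ⟨_, rfl⟩
  -- one residue class modulo `D1`
  have key : ∀ i ∈ range D1, ∑ j ∈ range D2, (if bad (i + D1 * j) then (1 : ℝ) else 0) ≤
      (if bad1 i then (1 : ℝ) else 0) * D2 + D2 * (2 * E) := by
    intro i _
    by_cases hi : bad1 i
    · rw [if_pos hi, one_mul]
      have h1 : ∑ j ∈ range D2, (if bad (i + D1 * j) then (1 : ℝ) else 0) ≤ ∑ j ∈ range D2, (1 : ℝ) := by
        apply sum_le_sum
        intro j _
        split_ifs <;> norm_num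
      rw [sum_const, card_range, nsmul_eq_mul, mul_one] at h1
      have h2 : 0 ≤ (D2 : ℝ) * (2 * E) := by positivity
      linarith
    · rw [if_neg hi, zero_mul, zero_add]
      obtain ⟨H2, hH2'⟩ : ∃ H2, H2 = H.filter (fun h => ∀ p ∈ P1, (x + A * i + h) % p ∉ ({0} : Finset ℕ)) := ⟨_, rfl⟩
      have hHc : |(H2.card : ℝ) - H.card * V P1| ≤ δ * (H.card * V P1) := by
        rw [hbad1, not_lt] at hi
        have : SH H P1 (x + A * i) = (H2.card : ℝ) := by unfold SH; rw [hH2']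
        rwa [this] at hi
      have hS : ∀ j, SH H (P1 ∪ P2) (x + A * (i + D1 * j)) = SH H2 P2 ((x + A * i) + (A * D1) * j) := by
        intro j
        unfold SH
        refine congrArg Nat.cast (congrArg card ?_)
        rw [hH2', filter_filter]
        apply filter_congr
        intro h _
        have e0 : x + A * (i + D1 * j) = (x + A * i) + (A * D1) * j := by ring
        rw [e0]
        have e1 : ∀ p ∈ P1, ((x + A * i) + (A * D1) * j + h) % p = (x + A * i + h) % p := by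
          intro p hp
          have h1 : p ∣ D1 := by rw [hD1]; exact dvd_prod_of_mem (fun p : ℕ => p) hp
          obtain ⟨k, hk⟩ := h1
          have : (x + A * i) + (A * D1) * j + h = (x + A * i + h) + p * (A * k * j) := by rw [hk]; ring
          rw [this]
          exact Nat.add_mul_mod_self_left _ _ _
        constructor
        · intro h1
          refine ⟨fun p hp => ?_, fun p hp => h1 p (mem_union_right _ hp)⟩
          rw [← e1 p hp]
          exact h1 p (mem_union_left _ hp)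
        · rintro ⟨h1, h2⟩ p hp
          rcases mem_union.1 hp with hp | hp
          · rw [e1 p hp]; exact h1 p hp
          · exact h2 p hp
      have hst2 := onestage P2 H2 (x + A * i) (A * D1) b2 lam2 δ hP2 hcopr hδ1 hl2 hb2 (by
        intro p hp r
        refine le_trans ?_ (hH2 p hp r)
        exact_mod_cast card_le_card (filter_subset_filter _ (by rw [hH2']; exact filter_subset _ _))) hs2
      rw [← hD2] at hst2
      have hUV : 0 ≤ H.card * V P1 := by positivity
      have hHlow : H.card * V P1 / 2 ≤ H2.card := by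
        have := (abs_le.1 hHc).1
        nlinarith
      have hHup : (H2.card : ℝ) ≤ 5 / 4 * (H.card * V P1) := by
        have := (abs_le.1 hHc).2
        nlinarith
      have h1 : ∑ j ∈ range D2, (if bad (i + D1 * j) then (1 : ℝ) else 0) ≤
          (((range D2).filter (fun j => δ * (H2.card * V P2) <
            |SH H2 P2 ((x + A * i) + (A * D1) * j) - H2.card * V P2|)).card : ℝ) := by
        rw [card_filter]
        push_cast
        apply sum_le_sum
        intro j _
        by_cases hb : bad (i + D1 * j)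
        · rw [if_pos hb, if_pos]
          rw [hbaddef] at hb
          change 3 * δ * (H.card * V (P1 ∪ P2)) <
            |SH H (P1 ∪ P2) (x + A * (i + D1 * j)) - H.card * V (P1 ∪ P2)| at hb
          rw [hS j, hV] at hb
          obtain ⟨S, hSd⟩ : ∃ S : ℝ, S = SH H2 P2 ((x + A * i) + (A * D1) * j) := ⟨_, rfl⟩
          rw [← hSd] at hb ⊢
          have h2 : |S - H.card * (V P1 * V P2)| ≤ |S - H2.card * V P2| + |H2.card * V P2 - H.card * (V P1 * V P2)| := abs_sub_le _ _ _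
          have h3 : |H2.card * V P2 - H.card * (V P1 * V P2)| ≤ δ * (H.card * (V P1 * V P2)) := by
            have e1 : H2.card * V P2 - H.card * (V P1 * V P2) = (H2.card - H.card * V P1) * V P2 := by ring
            rw [e1, abs_mul, abs_of_pos hV2]
            have := mul_le_mul_of_nonneg_right hHc hV2.le
            linarith
          have h4 : H2.card * V P2 ≤ (5 / 4) * (H.card * (V P1 * V P2)) := by
            have := mul_le_mul_of_nonneg_right hHup hV2.le
            linarith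
          have h8 := mul_le_mul_of_nonneg_left h4 hδ.le
          have h9 : 0 ≤ δ * (H.card * (V P1 * V P2)) := by positivity
          linarith
        · rw [if_neg hb]
          split_ifs <;> norm_num
      refine h1.trans (hst2.trans ?_)
      have h3 : H.card * V (P1 ∪ P2) / 2 ≤ H2.card * V P2 := by
        rw [hV]
        have := mul_le_mul_of_nonneg_right hHlow hV2.le
        linarith
      have h4 : Real.exp (-(lam2 * (H2.card * V P2) * (δ / 2))) ≤ E := by
        rw [hE]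
        apply Real.exp_le_exp.2
        rw [neg_le_neg_iff]
        apply mul_le_mul_of_nonneg_right _ (by linarith)
        exact mul_le_mul_of_nonneg_left h3 hl2
      have h5 : (0 : ℝ) ≤ 2 * D2 := by positivity
      have h6 := mul_le_mul_of_nonneg_left h4 h5
      linarith
  have h1 : (((range (D1 * D2)).filter bad).card : ℝ) = ∑ i ∈ range D1, ∑ j ∈ range D2, (if bad (i + D1 * j) then (1 : ℝ) else 0) := by
    rw [card_filter]
    push_cast
    exact sum_split D1 D2 (fun n => if bad n then (1 : ℝ) else 0)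
  have h2 : (((range D1).filter bad1).card : ℝ) = ∑ i ∈ range D1, (if bad1 i then (1 : ℝ) else 0) := by
    rw [card_filter]
    push_cast
    rfl
  have h3 : ((D1 * D2 : ℕ) : ℝ) = D1 * D2 := by push_cast; ring
  have h4 := sum_le_sum key
  rw [← h1, sum_add_distrib, ← sum_mul, ← h2, sum_const, card_range, nsmul_eq_mul] at h4
  have h5 : (((range D1).filter bad1).card : ℝ) ≤ 2 * E1 * D1 := by
    rw [hbad1]
    exact hst1
  have h6 : (0 : ℝ) ≤ D2 := Nat.cast_nonneg _
  have h7 := mul_le_mul_of_nonneg_right h5 h6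
  rw [hbaddef] at h4
  rw [h3]
  calc _ ≤ _ := h4
    _ ≤ 2 * E1 * D1 * D2 + D1 * (D2 * (2 * E)) := by linarith
    _ = _ := by ring

end Pool.Agent.Y829.SA
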