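import Pool.Agent.Y829.RZ3
import Pool.Agent.Y829.SA1
import Pool.Agent.Y829.RW4

/-! Sieve weights relative to a large modulus, the true rate: concentration. -/

set_option autoImplicit false

namespace Pool.Agent.Y829.RZ

open Finset Filter Topology Pool.Agent.Y829 Pool.Agent.Y829.RP Pool.Agent.Y829.SA Pool.Agent.Y829.RS
open Pool.Agent.W89.Sv (PP PZ VZ sift mem_PP PP_prime VZ_pos)

lemma evx (c a e : ℝ) (hc : 0 < c) (hae : a < e) : ∀ᶠ U : ℕ in atTop,
    5 * (U : ℝ) ^ a * Real.log U ≤ c * (U : ℝ) ^ e := by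
  have h1 := (isLittleO_log_rpow_atTop (show 0 < e - a by linarith)).def (show (0 : ℝ) < c / 5 by positivity)
  have h2 := tendsto_natCast_atTop_atTop (R := ℝ) |>.eventually h1
  filter_upwards [h2, eventually_ge_atTop 1] with U g1 g2
  have hU1 : (1 : ℝ) ≤ U := by exact_mod_cast g2
  have hU0 : (0 : ℝ) < U := by linarith
  have hL : 0 ≤ Real.log (U : ℝ) := Real.log_natCast_nonneg U
  rw [Real.norm_of_nonneg hL, Real.norm_of_nonneg (Real.rpow_nonneg hU0.le _)] at g1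
  calc 5 * (U : ℝ) ^ a * Real.log U ≤ 5 * (U : ℝ) ^ a * (c / 5 * (U : ℝ) ^ (e - a)) :=
        mul_le_mul_of_nonneg_left g1 (by positivity)
    _ = c * ((U : ℝ) ^ a * (U : ℝ) ^ (e - a)) := by ring
    _ = c * (U : ℝ) ^ e := by
        rw [← Real.rpow_add hU0]
        congr 2
        ring

lemma hcount (U z i : ℕ) : (((Icc 1 U).filter (fun h => ∀ p ∈ PP 1 z, (i + h) % p ∉ ({0} : Finset ℕ))).card : ℝ) =
    sift 1 (Icc 1 U) (fun h => i + h) 1 z := by
  classical
  unfold sift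
  refine congrArg Nat.cast (congrArg card ?_)
  apply filter_congr
  intro h _
  rw [cop_PZ]
  constructor
  · intro h1
    exact ⟨one_dvd _, h1⟩
  · intro h1
    exact h1.2

/-- **Concentration** with a sharp error -/
theorem conS (E : ℝ) (hE : 0 < E) (hE1 : E ≤ 1 / 4) (s : ℕ) (hs : 3 ≤ s) (hWA : WA (s : ℝ) E) (a : ℝ) (ha : 0 < a)
    (has : a * s < 1) : ∃ U1 : ℕ, ∀ U Q : ℕ, U1 ≤ U → U ≤ Q → Real.log Q ≤ (U : ℝ) ^ a →
    (((range (∏ p ∈ PQ Q, p)).filter (fun n => 2 * E * (U * V (PQ Q)) <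
      |SO (fun _ => {0}) (PQ Q) U n - U * V (PQ Q)|)).card : ℝ) ≤
      Real.exp (-(3 * (U : ℝ) ^ a)) * ((∏ p ∈ PQ Q, p : ℕ) : ℝ) := by
  classical
  obtain ⟨cm, hcm, hmert⟩ := mert
  have hsr : (3 : ℝ) ≤ s := by exact_mod_cast hs
  have ha3 : a < 1 / 3 := by
    rw [lt_div_iff₀ (by norm_num)]
    have : a * 3 ≤ a * s := mul_le_mul_of_nonneg_left hsr ha.le
    linarith
  have has' : a < 1 / s := by
    rw [lt_div_iff₀ (by linarith)]
    exact has
  obtain ⟨δ, hδ⟩ : ∃ δ : ℝ, δ = E / 8 := ⟨_, rfl⟩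
  have hδ0 : 0 < δ := by rw [hδ]; positivity
  have hδ1 : δ ≤ 1 / 4 := by rw [hδ]; linarith
  obtain ⟨z0, hz0⟩ := hWA (E / 4) (by positivity)
  have E1 := evx (δ ^ 2 * cm / 512) a (1 / s) (by positivity) has'
  have E2 := evx (δ ^ 2 * cm / 256) a (1 - a) (by positivity) (by linarith)
  have E3 : ∀ᶠ U : ℕ in atTop, ((z0 : ℝ) + 4) < (U : ℝ) ^ (1 / (s : ℝ)) :=
    ((tendsto_rpow_atTop (by positivity)).comp tendsto_natCast_atTop_atTop).eventually_gt_atTop _
  have E4 : ∀ᶠ U : ℕ in atTop, (2 : ℝ) < (U : ℝ) ^ a :=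
    ((tendsto_rpow_atTop ha).comp tendsto_natCast_atTop_atTop).eventually_gt_atTop _
  have E5 := log_tend.eventually_ge_atTop (|Real.log cm| + 1)
  obtain ⟨U1, hU1⟩ := ((E1.and E2).and ((E3.and E4).and (E5.and (eventually_ge_atTop 3)))).exists_forall_of_atTop
  refine ⟨U1, ?_⟩
  intro U Q hU hUQ hlogQ
  obtain ⟨⟨f1, f2⟩, ⟨⟨f3, f4⟩, ⟨f5, f6⟩⟩⟩ := hU1 U hU
  have hUr : (3 : ℝ) ≤ U := by exact_mod_cast f6
  have hU0 : (0 : ℝ) < U := by linarith
  have hU1r : (1 : ℝ) ≤ U := by linarith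
  have hlU : 0 < Real.log U := Real.log_pos (by linarith)
  obtain ⟨z, hz⟩ : ∃ z : ℕ, z = ⌊(U : ℝ) ^ (1 / (s : ℝ))⌋₊ := ⟨_, rfl⟩
  have hzle : (z : ℝ) ≤ (U : ℝ) ^ (1 / (s : ℝ)) := by rw [hz]; exact Nat.floor_le (by positivity)
  have hzgt : (U : ℝ) ^ (1 / (s : ℝ)) - 1 < z := by rw [hz]; exact Nat.sub_one_lt_floor _
  have hzr : (3 : ℝ) < z := by
    have : (0 : ℝ) ≤ z0 := Nat.cast_nonneg _
    linarith
  have hzz0 : z0 ≤ z := by
    have : (z0 : ℝ) ≤ z := by linarith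
    exact_mod_cast this
  have hz0' : (0 : ℝ) < z := by linarith
  have hzhalf : (U : ℝ) ^ (1 / (s : ℝ)) / 2 ≤ z := by linarith
  have hzU : z ≤ U := by
    have h1 : (z : ℝ) ≤ U := by
      refine hzle.trans ?_
      calc (U : ℝ) ^ (1 / (s : ℝ)) ≤ (U : ℝ) ^ (1 : ℝ) := by
            apply Real.rpow_le_rpow_of_exponent_le hU1r
            rw [div_le_one (by linarith)]
            linarith
        _ = U := Real.rpow_one _
    exact_mod_cast h1
  have hzs : (z : ℝ) ^ (s : ℝ) ≤ U / ((1 : ℕ) : ℝ) := by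
    rw [Nat.cast_one, div_one]
    calc (z : ℝ) ^ (s : ℝ) ≤ ((U : ℝ) ^ (1 / (s : ℝ))) ^ (s : ℝ) := Real.rpow_le_rpow hz0'.le hzle (by linarith)
      _ = U := by rw [← Real.rpow_mul hU0.le, one_div_mul_cancel (by linarith), Real.rpow_one]
  -- the sets of primes
  obtain ⟨P0, hP0⟩ : ∃ P0, P0 = PP 1 z := ⟨_, rfl⟩
  obtain ⟨P1, hP1⟩ : ∃ P1, P1 = (PQ Q).filter (fun p => z ≤ p ∧ p ≤ U) := ⟨_, rfl⟩
  obtain ⟨P2, hP2⟩ : ∃ P2, P2 = (PQ Q).filter (fun p => U < p) := ⟨_, rfl⟩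
  have hP0p : ∀ p ∈ P0, p.Prime ∧ p < z := fun p hp => by
    rw [hP0, mem_PP] at hp
    exact ⟨hp.2.1, hp.1⟩
  have hP1p : ∀ p ∈ P1, p.Prime ∧ z ≤ p ∧ p ≤ U := fun p hp => by
    rw [hP1, mem_filter, mem_PQ] at hp
    exact ⟨hp.1.1, hp.2⟩
  have hP2p : ∀ p ∈ P2, p.Prime ∧ U < p ∧ p ≤ Q := fun p hp => by
    rw [hP2, mem_filter, mem_PQ] at hp
    exact ⟨hp.1.1, hp.2, hp.1.2⟩
  have hd12 : Disjoint P1 P2 := by
    rw [disjoint_left]
    intro p h1 h2
    have := (hP1p p h1).2.2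
    have := (hP2p p h2).2.1
    omega
  have hd0 : Disjoint P0 (P1 ∪ P2) := by
    rw [disjoint_left]
    intro p h1 h2
    have g1 := (hP0p p h1).2
    rcases mem_union.1 h2 with h2 | h2
    · have := (hP1p p h2).2.1
      omega
    · have := (hP2p p h2).2.1
      omega
  have hd01 : Disjoint P0 P1 := disjoint_of_subset_right subset_union_left hd0
  have hun : P0 ∪ (P1 ∪ P2) = PQ Q := by
    ext p
    rw [mem_union, mem_union, hP0, hP1, hP2, mem_PP, mem_filter, mem_filter, mem_PQ]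
    constructor
    · rintro (h | h | h)
      · exact ⟨h.2.1, by omega⟩
      · exact h.1
      · exact h.1
    · intro h
      rcases Nat.lt_or_ge p z with h1 | h1
      · left
        exact ⟨h1, h.1, fun h2 => h.1.one_lt.ne' (Nat.dvd_one.1 h2)⟩
      · right
        rcases Nat.lt_or_ge U p with h2 | h2
        · right; exact ⟨h, h2⟩
        · left; exact ⟨h, h1, h2⟩
  have hVun : V (PQ Q) = V P0 * V (P1 ∪ P2) := by
    rw [← hun, ← VO_V, ← VO_V, ← VO_V, VO_union hd0]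
  have hV01 : V (P0 ∪ P1) = V P0 * V P1 := by
    rw [← VO_V, ← VO_V, ← VO_V, VO_union hd01]
  have hV0 : 0 < V P0 := V_pos fun p hp => (hP0p p hp).1
  have hV1 : 0 < V P1 := V_pos fun p hp => (hP1p p hp).1
  have hV12 : 0 < V (P1 ∪ P2) := V_pos fun p hp => by
    rcases mem_union.1 hp with hp | hp
    · exact (hP1p p hp).1
    · exact (hP2p p hp).1
  have hV01ge : cm / Real.log U ≤ V P0 * V P1 := by
    rw [← hV01]
    refine hmert U (by omega) (P0 ∪ P1) fun p hp => ?_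
    rcases mem_union.1 hp with hp | hp
    · exact ⟨(hP0p p hp).1, ((hP0p p hp).2.le).trans hzU⟩
    · exact ⟨(hP1p p hp).1, (hP1p p hp).2.2⟩
  have hUa0 : (0 : ℝ) < (U : ℝ) ^ a := by positivity
  have hlQ : 0 < Real.log Q := Real.log_pos (by exact_mod_cast (by omega : 1 < Q))
  have hVQge : cm / (U : ℝ) ^ a ≤ V (PQ Q) := by
    refine le_trans ?_ (hmert Q (by omega) (PQ Q) fun p hp => mem_PQ.1 hp)
    exact div_le_div_of_nonneg_left hcm.le hlQ hlogQ
  have hVP2ge : cm / (U : ℝ) ^ a ≤ V P2 := by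
    refine le_trans ?_ (hmert Q (by omega) P2 fun p hp => ⟨(hP2p p hp).1, (hP2p p hp).2.2⟩)
    exact div_le_div_of_nonneg_left hcm.le hlQ hlogQ
  -- the products
  obtain ⟨D0, hD0⟩ : ∃ D0, D0 = ∏ p ∈ P0, p := ⟨_, rfl⟩
  obtain ⟨D, hD⟩ : ∃ D, D = ∏ p ∈ P1 ∪ P2, p := ⟨_, rfl⟩
  have hDD : ∏ p ∈ PQ Q, p = D0 * D := by rw [← hun, prod_union hd0, hD0, hD]
  have hcop0 : ∀ p ∈ P1 ∪ P2, D0.Coprime p := by
    intro p hp
    rw [hD0]
    apply Nat.Coprime.prod_left
    intro q hq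
    have hpp : p.Prime := by
      rcases mem_union.1 hp with hp | hp
      · exact (hP1p p hp).1
      · exact (hP2p p hp).1
    rw [Nat.coprime_primes (hP0p q hq).1 hpp]
    rintro rfl
    exact disjoint_left.1 hd0 hq hp
  -- parameters
  obtain ⟨lam1, hlam1⟩ : ∃ lam1 : ℝ, lam1 = δ * z / (64 * U) := ⟨_, rfl⟩
  obtain ⟨lam2, hlam2⟩ : ∃ lam2 : ℝ, lam2 = δ / (32 * Real.log U) := ⟨_, rfl⟩
  have hlam10 : 0 < lam1 := by rw [hlam1]; positivity
  have hlam20 : 0 < lam2 := by rw [hlam2]; positivity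
  have hlU1 : 1 ≤ Real.log U := by
    have := abs_nonneg (Real.log cm)
    linarith
  have hb1 : ∀ p ∈ P1, lam1 * (2 * U / (p : ℝ)) ≤ 1 := by
    intro p hp
    have hp0 : (0 : ℝ) < p := by exact_mod_cast (hP1p p hp).1.pos
    have hpz : (z : ℝ) ≤ p := by exact_mod_cast (hP1p p hp).2.1
    have e1 : lam1 * (2 * U / (p : ℝ)) = δ / 32 * (z / p) := by
      rw [hlam1]; field_simp; ring
    rw [e1]
    have h1 : (z : ℝ) / p ≤ 1 := by rw [div_le_one hp0]; exact hpz
    calc δ / 32 * (z / p) ≤ 1 * 1 := mul_le_mul (by linarith) h1 (by positivity) (by norm_num)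
      _ = 1 := one_mul 1
  have hb2 : ∀ p ∈ P2, (U : ℝ) / p + 1 ≤ 2 := by
    intro p hp
    have hp0 : (0 : ℝ) < p := by exact_mod_cast (hP2p p hp).1.pos
    have hpU : (U : ℝ) ≤ p := by exact_mod_cast (hP2p p hp).2.1.le
    have h1 : (U : ℝ) / p ≤ 1 := by rw [div_le_one hp0]; exact hpU
    linarith
  have hlam2le : lam2 ≤ 1 / 2 := by
    rw [hlam2, div_le_iff₀ (by positivity)]
    linarith
  have hs1 : 8 * ∑ p ∈ P1, lam1 * (2 * U / (p : ℝ)) * (1 / p) ≤ δ := by
    have h1 := sum_sq_inv P1 (z / 2) (by positivity) (fun p hp => by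
      have hpz : (z : ℝ) ≤ p := by exact_mod_cast (hP1p p hp).2.1
      linarith)
    have h2 : ∑ p ∈ P1, lam1 * (2 * U / (p : ℝ)) * (1 / p) = δ * z / 32 * ∑ p ∈ P1, 1 / (p : ℝ) ^ 2 := by
      rw [mul_sum]
      apply sum_congr rfl
      intro p hp
      have hp0 : (0 : ℝ) < p := by exact_mod_cast (hP1p p hp).1.pos
      rw [hlam1]
      field_simp
      ring
    rw [h2]
    have h3 := mul_le_mul_of_nonneg_left h1 (show 0 ≤ δ * z / 32 by positivity)
    have h4 : δ * z / 32 * (2 / ((z : ℝ) / 2)) = δ / 8 := by field_simp; ring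
    rw [h4] at h3
    linarith
  have hs2 : 8 * ∑ p ∈ P2, lam2 * ((U : ℝ) / p + 1) * (1 / p) ≤ δ := by
    have h1 : ∑ p ∈ P2, lam2 * ((U : ℝ) / p + 1) * (1 / p) ≤ ∑ p ∈ P2, lam2 * 2 * (1 / (p : ℝ)) := by
      apply sum_le_sum
      intro p hp
      have hp0 : (0 : ℝ) < p := by exact_mod_cast (hP2p p hp).1.pos
      apply mul_le_mul_of_nonneg_right _ (by positivity)
      exact mul_le_mul_of_nonneg_left (hb2 p hp) hlam20.le
    rw [← mul_sum] at h1
    have h2 : ∑ p ∈ P2, 1 / (p : ℝ) ≤ 2 * Real.log U := by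
      refine (sum_inv_V P2 fun p hp => (hP2p p hp).1).trans ?_
      have h3 := Real.log_le_log (by positivity) hVP2ge
      rw [Real.log_div hcm.ne' hUa0.ne', Real.log_rpow hU0] at h3
      have h4 := neg_abs_le (Real.log cm)
      have h5 : a * Real.log U ≤ 1 * Real.log U := mul_le_mul_of_nonneg_right (by linarith) hlU.le
      linarith
    have h3 := mul_le_mul_of_nonneg_left h2 (show 0 ≤ lam2 * 2 by positivity)
    have h4 : lam2 * 2 * (2 * Real.log U) = δ / 8 := by rw [hlam2]; field_simp; ring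
    rw [h4] at h3
    linarith
  -- one residue class modulo `D0`
  have key : ∀ i ∈ range D0, ∑ j ∈ range D, (if 2 * E * (U * V (PQ Q)) <
      |SO (fun _ => {0}) (PQ Q) U (i + D0 * j) - U * V (PQ Q)| then (1 : ℝ) else 0) ≤
      D * Real.exp (-(3 * (U : ℝ) ^ a)) := by
    intro i _
    obtain ⟨H, hH⟩ : ∃ H, H = (Icc 1 U).filter (fun h => ∀ p ∈ P0, (i + h) % p ∉ ({0} : Finset ℕ)) := ⟨_, rfl⟩
    have hHsub : H ⊆ Icc 1 U := by rw [hH]; exact filter_subset _ _
    have hHc : |(H.card : ℝ) - U * V P0| ≤ 5 / 4 * E * (U * V P0) := by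
      have h1 := hz0 z hzz0 i U 1 one_pos (Nat.coprime_one_left _) hzs
      rw [← hcount U z i, Nat.cast_one, div_one, ← hP0, ← hH] at h1
      have h2 : VZ 1 z = V P0 := by rw [hP0]; rfl
      rw [h2] at h1
      refine h1.trans (le_of_eq ?_)
      ring
    have hUV0 : 0 < U * V P0 := by positivity
    have hHc' := abs_le.1 hHc
    have hEUV : 5 / 4 * E * (U * V P0) ≤ 5 / 16 * (U * V P0) := by
      apply mul_le_mul_of_nonneg_right _ hUV0.le
      linarith
    have hHlow : U * V P0 / 2 ≤ H.card := by linarith [hHc'.1]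
    have hHup : (H.card : ℝ) ≤ 2 * (U * V P0) := by linarith [hHc'.2]
    have hcntH : ∀ p r : ℕ, 0 < p → ((H.filter (fun h => (r + h) % p ∈ ({0} : Finset ℕ))).card : ℝ) ≤ U / p + 1 := by
      intro p r hp
      have h1 := cntO p r U hp {0} (by rw [singleton_subset_iff, mem_range]; exact hp) 1 (by simp)
      rw [Nat.cast_one, one_mul] at h1
      refine le_trans ?_ h1
      exact_mod_cast card_le_card (filter_subset_filter _ hHsub)
    have hdev := twostageG P1 P2 H i D0 (fun p => 2 * U / (p : ℝ)) (fun p => (U : ℝ) / p + 1) lam1 lam2 δ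
      (fun p hp => (hP1p p hp).1) (fun p hp => (hP2p p hp).1) hd12
      (fun p hp => hcop0 p (mem_union_left _ hp)) (fun p hp => hcop0 p (mem_union_right _ hp))
      hδ0 hδ1 hlam10.le hlam20.le hb1 (fun p hp => by
        have h1 := mul_le_mul_of_nonneg_left (hb2 p hp) hlam20.le
        linarith) (fun p hp r => by
        have hp0 : (0 : ℝ) < p := by exact_mod_cast (hP1p p hp).1.pos
        refine (hcntH p r (hP1p p hp).1.pos).trans ?_
        have h1 : (1 : ℝ) ≤ U / p := by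
          rw [le_div_iff₀ hp0, one_mul]
          exact_mod_cast (hP1p p hp).2.2
        have h2 : 2 * (U : ℝ) / p = U / p + U / p := by ring
        rw [h2]
        linarith) (fun p hp r => hcntH p r (hP2p p hp).1.pos) hs1 hs2
    rw [← hD] at hdev
    have hS : ∀ j, SO (fun _ => {0}) (PQ Q) U (i + D0 * j) = SH H (P1 ∪ P2) (i + D0 * j) := by
      intro j
      unfold SO SH
      refine congrArg Nat.cast (congrArg card ?_)
      rw [hH, filter_filter]
      apply filter_congr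
      intro h _
      have e1 : ∀ p ∈ P0, (i + D0 * j + h) % p = (i + h) % p := by
        intro p hp
        have h1 : p ∣ D0 := by rw [hD0]; exact dvd_prod_of_mem (fun p : ℕ => p) hp
        obtain ⟨k, hk⟩ := h1
        have : i + D0 * j + h = (i + h) + p * (k * j) := by rw [hk]; ring
        rw [this]
        exact Nat.add_mul_mod_self_left _ _ _
      rw [← hun]
      constructor
      · intro h1
        refine ⟨fun p hp => ?_, fun p hp => h1 p (mem_union_right _ hp)⟩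
        rw [← e1 p hp]
        exact h1 p (mem_union_left _ hp)
      · rintro ⟨h1, h2⟩ p hp
        rcases mem_union.1 hp with hp | hp
        · rw [e1 p hp]; exact h1 p hp
        · exact h2 p hp
    have h1 : ∑ j ∈ range D, (if 2 * E * (U * V (PQ Q)) <
        |SO (fun _ => {0}) (PQ Q) U (i + D0 * j) - U * V (PQ Q)| then (1 : ℝ) else 0) ≤
        (((range D).filter (fun j => 3 * δ * (H.card * V (P1 ∪ P2)) <
          |SH H (P1 ∪ P2) (i + D0 * j) - H.card * V (P1 ∪ P2)|)).card : ℝ) := by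
      rw [card_filter]
      push_cast
      apply sum_le_sum
      intro j _
      by_cases hbad : 2 * E * (U * V (PQ Q)) < |SO (fun _ => {0}) (PQ Q) U (i + D0 * j) - U * V (PQ Q)|
      · rw [if_pos hbad, if_pos]
        rw [hS, hVun] at hbad
        obtain ⟨S, hSd⟩ : ∃ S : ℝ, S = SH H (P1 ∪ P2) (i + D0 * j) := ⟨_, rfl⟩
        obtain ⟨v, hv⟩ : ∃ v : ℝ, v = V (P1 ∪ P2) := ⟨_, rfl⟩
        rw [← hSd, ← hv] at hbad ⊢
        rw [← hv] at hV12
        have h2 : |S - U * (V P0 * v)| ≤ |S - H.card * v| + |H.card * v - U * (V P0 * v)| := abs_sub_le _ _ _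
        have h3 : |H.card * v - U * (V P0 * v)| ≤ 5 / 4 * E * (U * V P0) * v := by
          have e1 : H.card * v - U * (V P0 * v) = (H.card - U * V P0) * v := by ring
          rw [e1, abs_mul, abs_of_pos hV12]
          exact mul_le_mul_of_nonneg_right hHc hV12.le
        have h4 : 3 * δ * (H.card * v) ≤ 3 / 4 * E * (U * V P0 * v) := by
          have h5 : (H.card : ℝ) * v ≤ 2 * (U * V P0) * v := mul_le_mul_of_nonneg_right hHup hV12.le
          have h6 := mul_le_mul_of_nonneg_left h5 (show 0 ≤ 3 * δ by positivity)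
          refine h6.trans (le_of_eq ?_)
          rw [hδ]
          ring
        linarith
      · rw [if_neg hbad]
        split_ifs <;> norm_num
    refine h1.trans (hdev.trans ?_)
    -- the exponents
    obtain ⟨t1, ht1⟩ : ∃ t1 : ℝ, t1 = lam1 * (H.card * V P1) * (δ / 2) := ⟨_, rfl⟩
    obtain ⟨t2, ht2⟩ : ∃ t2 : ℝ, t2 = lam2 * (H.card * V (P1 ∪ P2) / 2) * (δ / 2) := ⟨_, rfl⟩
    rw [← ht1, ← ht2]
    have g1 : 5 * (U : ℝ) ^ a ≤ t1 := by
      have h2 : U * V P0 / 2 * V P1 ≤ H.card * V P1 := mul_le_mul_of_nonneg_right hHlow hV1.le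
      have h3 : lam1 * (U * V P0 / 2 * V P1) * (δ / 2) ≤ t1 := by
        rw [ht1]
        apply mul_le_mul_of_nonneg_right _ (by positivity)
        exact mul_le_mul_of_nonneg_left h2 hlam10.le
      have h4 : lam1 * (U * V P0 / 2 * V P1) * (δ / 2) = δ ^ 2 * z / 256 * (V P0 * V P1) := by
        rw [hlam1]; field_simp; ring
      have h5 : δ ^ 2 * z / 256 * (cm / Real.log U) ≤ δ ^ 2 * z / 256 * (V P0 * V P1) :=
        mul_le_mul_of_nonneg_left hV01ge (by positivity)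
      have h6 : δ ^ 2 * ((U : ℝ) ^ (1 / (s : ℝ)) / 2) / 256 * (cm / Real.log U) ≤ δ ^ 2 * z / 256 * (cm / Real.log U) := by
        apply mul_le_mul_of_nonneg_right _ (by positivity)
        apply div_le_div_of_nonneg_right _ (by norm_num)
        exact mul_le_mul_of_nonneg_left hzhalf (by positivity)
      have h7 : 5 * (U : ℝ) ^ a ≤ δ ^ 2 * ((U : ℝ) ^ (1 / (s : ℝ)) / 2) / 256 * (cm / Real.log U) := by
        have e1 : δ ^ 2 * ((U : ℝ) ^ (1 / (s : ℝ)) / 2) / 256 * (cm / Real.log U) =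
            (δ ^ 2 * cm / 512 * (U : ℝ) ^ (1 / (s : ℝ))) / Real.log U := by
          field_simp
          ring
        rw [e1, le_div_iff₀ hlU]
        exact f1
      linarith
    have g2 : 5 * (U : ℝ) ^ a ≤ t2 := by
      have h2 : U * V P0 / 2 * V (P1 ∪ P2) / 2 ≤ H.card * V (P1 ∪ P2) / 2 := by
        have := mul_le_mul_of_nonneg_right hHlow hV12.le
        linarith
      have h3 : lam2 * (U * V P0 / 2 * V (P1 ∪ P2) / 2) * (δ / 2) ≤ t2 := by
        rw [ht2]
        apply mul_le_mul_of_nonneg_right _ (by positivity)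
        exact mul_le_mul_of_nonneg_left h2 hlam20.le
      have h4 : lam2 * (U * V P0 / 2 * V (P1 ∪ P2) / 2) * (δ / 2) =
          δ ^ 2 * U / (256 * Real.log U) * V (PQ Q) := by
        rw [hlam2, hVun]; field_simp; ring
      have h5 : δ ^ 2 * U / (256 * Real.log U) * (cm / (U : ℝ) ^ a) ≤ δ ^ 2 * U / (256 * Real.log U) * V (PQ Q) :=
        mul_le_mul_of_nonneg_left hVQge (by positivity)
      have h7 : 5 * (U : ℝ) ^ a ≤ δ ^ 2 * U / (256 * Real.log U) * (cm / (U : ℝ) ^ a) := by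
        have e2 : (U : ℝ) ^ (1 - a) = U / (U : ℝ) ^ a := by rw [Real.rpow_sub hU0, Real.rpow_one]
        have e1 : δ ^ 2 * U / (256 * Real.log U) * (cm / (U : ℝ) ^ a) =
            (δ ^ 2 * cm / 256 * (U : ℝ) ^ (1 - a)) / Real.log U := by
          rw [e2]
          field_simp
        rw [e1, le_div_iff₀ hlU]
        exact f2
      linarith
    have g3 : ∀ t : ℝ, 5 * (U : ℝ) ^ a ≤ t → 2 * Real.exp (-t) ≤ 1 / 2 * Real.exp (-(3 * (U : ℝ) ^ a)) := by
      intro t ht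
      have h2 : Real.exp (-t) ≤ Real.exp (-(2 * (U : ℝ) ^ a)) * Real.exp (-(3 * (U : ℝ) ^ a)) := by
        rw [← Real.exp_add]
        apply Real.exp_le_exp.2
        linarith
      have h3 : Real.exp (-(2 * (U : ℝ) ^ a)) ≤ 1 / 4 := by
        rw [Real.exp_neg]
        have h6 := Real.add_one_le_exp (2 * (U : ℝ) ^ a)
        rw [inv_le_comm₀ (Real.exp_pos _) (by norm_num)]
        norm_num
        linarith
      have h4 := mul_le_mul_of_nonneg_right h3 (Real.exp_pos (-(3 * (U : ℝ) ^ a))).le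
      linarith
    have g4 := g3 t1 g1
    have g5 := g3 t2 g2
    rw [mul_comm (D : ℝ)]
    apply mul_le_mul_of_nonneg_right _ (Nat.cast_nonneg _)
    linarith
  rw [card_filter]
  push_cast
  have hDDr : (∏ p ∈ PQ Q, (p : ℝ)) = ((D0 * D : ℕ) : ℝ) := by rw [← hDD]; push_cast; rfl
  rw [hDD, sum_split, hDDr]
  refine (sum_le_sum key).trans ?_
  rw [sum_const, card_range, nsmul_eq_mul]
  apply le_of_eq
  push_cast
  ring

end Pool.Agent.Y829.RZ
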