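import Pool.Agent.Y829.RZ4

/-! Sieve weights relative to a large modulus, the true rate: the mean of the singular series. -/

set_option autoImplicit false

namespace Pool.Agent.Y829.RZ

open Finset Filter Topology Pool.Agent.Y829 Pool.Agent.Y829.RP Pool.Agent.Y829.SA Pool.Agent.Y829.RS

lemma evy (a c : ℝ) (ha : 0 < a) (hc : 0 < c) : ∀ᶠ U : ℕ in atTop,
    Real.exp (-(U : ℝ) ^ a) ≤ c * (1 / (U : ℝ) ^ a) := by
  have h1 : ∀ᶠ U : ℕ in atTop, (2 / c : ℝ) < (U : ℝ) ^ a :=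
    ((tendsto_rpow_atTop ha).comp tendsto_natCast_atTop_atTop).eventually_gt_atTop _
  filter_upwards [h1, eventually_ge_atTop 1] with U g1 g2
  have hU0 : (0 : ℝ) < U := by exact_mod_cast g2
  obtain ⟨x, hx⟩ : ∃ x : ℝ, x = (U : ℝ) ^ a := ⟨_, rfl⟩
  rw [← hx] at g1 ⊢
  have hx0 : 0 < x := by rw [hx]; positivity
  have h2 : x ^ 2 / 2 ≤ Real.exp x := by
    have := Real.quadratic_le_exp_of_nonneg hx0.le
    nlinarith
  rw [div_lt_iff₀ hc] at g1
  rw [Real.exp_neg, mul_one_div, inv_le_comm₀ (Real.exp_pos _) (by positivity), inv_div]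
  refine le_trans ?_ h2
  rw [div_le_div_iff₀ hc (by norm_num)]
  nlinarith

/-- the mean of the singular series, `U ≤ Q` -/
theorem meanS (E : ℝ) (hE : 0 < E) (hE1 : E ≤ 1 / 4) (s : ℕ) (hs : 3 ≤ s) (hWA : WA (s : ℝ) E) (a : ℝ) (ha : 0 < a)
    (has : a * s < 1) : ∃ U1 : ℕ, ∀ (U Q : ℕ) (c : ℕ → ℕ → ℝ), U1 ≤ U → U ≤ Q → Real.log Q ≤ (U : ℝ) ^ a →
    (∀ n, 0 ≤ wt Q c n) → 0 ≤ mu Q c ∧
      |∑ h ∈ Icc 1 U, RP.GG Q c h - U * mu Q c| ≤ 3 * E * (U * mu Q c) := by
  classical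
  obtain ⟨cm, hcm, hmert⟩ := mert
  obtain ⟨U1, hcon⟩ := conS E hE hE1 s hs hWA a ha has
  obtain ⟨U2, hU2⟩ := ((evy a (E * cm) ha (by positivity)).and (eventually_ge_atTop 2)).exists_forall_of_atTop
  refine ⟨max U1 U2, ?_⟩
  intro U Q c hU hUQ hlogQ hw
  have hcon1 := hcon U Q ((le_max_left _ _).trans hU) hUQ hlogQ
  obtain ⟨f1, f2⟩ := hU2 U ((le_max_right _ _).trans hU)
  have hQ2 : 2 ≤ Q := f2.trans hUQ
  obtain ⟨N, hN⟩ : ∃ N, N = Q.factorial := ⟨_, rfl⟩
  have hN0 : 0 < N := by rw [hN]; exact Nat.factorial_pos _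
  have hdN : ∀ d ∈ Icc 1 Q, d ∣ N := by rw [hN]; exact dvdfac Q
  have hP : ∀ p ∈ PQ Q, p.Prime := fun p hp => (mem_PQ.1 hp).1
  obtain ⟨M, hM⟩ : ∃ M, M = ∏ p ∈ PQ Q, p := ⟨_, rfl⟩
  rw [← hM] at hcon1
  have hMN : M ∣ N := by
    rw [hM]
    apply Finset.prod_primes_dvd
    · intro p hp; exact (hP p hp).prime
    · intro p hp
      exact hdN p (mem_Icc.2 ⟨(hP p hp).one_lt.le, (mem_PQ.1 hp).2⟩)
  obtain ⟨k, hk⟩ := hMN
  have hV0 : 0 < V (PQ Q) := V_pos hP
  have hV1 : V (PQ Q) ≤ 1 := V_le_one hP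
  have hUr : (0 : ℝ) ≤ U := Nat.cast_nonneg _
  have hUpos : (0 : ℝ) < U := by exact_mod_cast (by omega : 0 < U)
  have hNr : (0 : ℝ) < N := by exact_mod_cast hN0
  have hQ0 : (0 : ℝ) < Q := by exact_mod_cast (by omega : 0 < Q)
  have hlQ : 0 < Real.log Q := Real.log_pos (by exact_mod_cast (by omega : 1 < Q))
  have hVge : cm / (U : ℝ) ^ a ≤ V (PQ Q) := by
    refine le_trans ?_ (hmert Q hQ2 (PQ Q) fun p hp => mem_PQ.1 hp)
    exact div_le_div_of_nonneg_left hcm.le hlQ hlogQ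
  obtain ⟨S, hS⟩ : ∃ S : ℕ → ℝ, S = fun n => SO (fun _ => {0}) (PQ Q) U n := ⟨_, rfl⟩
  obtain ⟨bad, hbad⟩ : ∃ bad : ℕ → Prop, bad = fun n => 2 * E * (U * V (PQ Q)) < |S n - U * V (PQ Q)| := ⟨_, rfl⟩
  have hcon2 : (((range M).filter bad).card : ℝ) ≤ Real.exp (-(3 * (U : ℝ) ^ a)) * M := by
    rw [hbad, hS]
    convert hcon1
  have hper : ∀ n, (if bad (n + M) then (1 : ℝ) else 0) = if bad n then (1 : ℝ) else 0 := by
    intro n
    have h1 : bad (n + M) ↔ bad n := by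
      rw [hbad, hS]
      show (2 * E * (U * V (PQ Q)) < |SO (fun _ => {0}) (PQ Q) U (n + M) - U * V (PQ Q)|) ↔
        (2 * E * (U * V (PQ Q)) < |SO (fun _ => {0}) (PQ Q) U n - U * V (PQ Q)|)
      rw [SO_per (fun _ => {0}) (PQ Q) U M n (fun p hp => by
        rw [hM]; exact dvd_prod_of_mem (fun p : ℕ => p) hp)]
    simp only [h1]
  have hcount : (((range N).filter bad).card : ℝ) ≤ Real.exp (-(3 * (U : ℝ) ^ a)) * N := by
    have h1 : (((range N).filter bad).card : ℝ) = k * (((range M).filter bad).card : ℝ) := by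
      rw [card_filter, card_filter, hk]
      push_cast
      exact per_sum hper k
    rw [h1, hk]
    push_cast
    have := mul_le_mul_of_nonneg_left hcon2 (Nat.cast_nonneg (α := ℝ) k)
    linarith
  -- the mass of the bad set
  obtain ⟨T0, hT0⟩ : ∃ T0 : ℝ, T0 = ∑ n ∈ range N, wt Q c n := ⟨_, rfl⟩
  have hT00 : 0 ≤ T0 := by rw [hT0]; exact sum_nonneg fun n _ => hw n
  have hsup : ∀ n, wt Q c n ≤ (Q : ℝ) ^ 2 * T0 / N := by
    intro n
    rw [le_div_iff₀ hNr, mul_comm, hT0]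
    exact supb N Q hN0 hdN (wt Q c) hw (wt_lev Q c) n
  have hQexp : (Q : ℝ) ^ 2 ≤ Real.exp (2 * (U : ℝ) ^ a) := by
    have h1 : (Q : ℝ) ≤ Real.exp ((U : ℝ) ^ a) := (Real.log_le_iff_le_exp hQ0).1 hlogQ
    calc (Q : ℝ) ^ 2 ≤ (Real.exp ((U : ℝ) ^ a)) ^ 2 := pow_le_pow_left₀ hQ0.le h1 2
      _ = Real.exp (2 * (U : ℝ) ^ a) := by rw [← Real.exp_nat_mul]; norm_num
  have hbadw : ∑ n ∈ (range N).filter bad, wt Q c n ≤ Real.exp (-(U : ℝ) ^ a) * T0 := by
    refine (sum_le_sum fun n _ => hsup n).trans ?_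
    rw [sum_const, nsmul_eq_mul, ← mul_div_assoc, div_le_iff₀ hNr]
    have h4 : (((range N).filter bad).card : ℝ) * (Q : ℝ) ^ 2 ≤ Real.exp (-(U : ℝ) ^ a) * N := by
      calc (((range N).filter bad).card : ℝ) * (Q : ℝ) ^ 2 ≤
            (Real.exp (-(3 * (U : ℝ) ^ a)) * N) * Real.exp (2 * (U : ℝ) ^ a) :=
            mul_le_mul hcount hQexp (by positivity) (by positivity)
        _ = (Real.exp (-(3 * (U : ℝ) ^ a)) * Real.exp (2 * (U : ℝ) ^ a)) * N := by ring
        _ = Real.exp (-(U : ℝ) ^ a) * N := by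
            rw [← Real.exp_add]
            congr 2
            ring
    have h5 := mul_le_mul_of_nonneg_right h4 hT00
    linarith
  have hsmall : Real.exp (-(U : ℝ) ^ a) ≤ E * V (PQ Q) := by
    refine f1.trans ?_
    have := mul_le_mul_of_nonneg_left hVge hE.le
    refine le_trans (le_of_eq ?_) this
    ring
  have hmain : |∑ n ∈ range N, wt Q c n * S n - U * V (PQ Q) * T0| ≤ 3 * E * (U * V (PQ Q) * T0) := by
    have e1 : ∑ n ∈ range N, wt Q c n * S n - U * V (PQ Q) * T0 =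
        ∑ n ∈ range N, wt Q c n * (S n - U * V (PQ Q)) := by
      rw [hT0, mul_sum, ← sum_sub_distrib]
      apply sum_congr rfl
      intro n _
      ring
    rw [e1]
    refine (abs_sum_le_sum_abs _ _).trans ?_
    have h1 : ∀ n ∈ range N, |wt Q c n * (S n - U * V (PQ Q))| ≤
        wt Q c n * (2 * E * (U * V (PQ Q))) + (if bad n then wt Q c n * U else 0) := by
      intro n _
      rw [abs_mul, abs_of_nonneg (hw n)]
      by_cases hbn : bad n
      · rw [if_pos hbn]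
        have h4 : |S n - U * V (PQ Q)| ≤ U := by
          have a1 : S n ≤ U := by rw [hS]; exact SO_le (fun _ => {0}) (PQ Q) U n
          have a2 : 0 ≤ S n := by rw [hS]; exact SO_nonneg (fun _ => {0}) (PQ Q) U n
          have a3 : U * V (PQ Q) ≤ U * 1 := mul_le_mul_of_nonneg_left hV1 hUr
          have a4 : 0 ≤ U * V (PQ Q) := by positivity
          rw [abs_le]
          constructor <;> linarith
        have h5 := mul_le_mul_of_nonneg_left h4 (hw n)
        have h6 : 0 ≤ wt Q c n * (2 * E * (U * V (PQ Q))) := by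
          have := hw n
          positivity
        linarith
      · rw [if_neg hbn, add_zero]
        apply mul_le_mul_of_nonneg_left _ (hw n)
        rw [hbad] at hbn
        exact not_lt.1 hbn
    refine (sum_le_sum h1).trans ?_
    rw [sum_add_distrib, ← sum_mul, ← sum_filter, ← sum_mul, ← hT0]
    have h2 := mul_le_mul_of_nonneg_right hbadw hUr
    have h3 := mul_le_mul_of_nonneg_right hsmall (mul_nonneg hT00 hUr)
    linarith
  have hmu0 : 0 ≤ mu Q c := by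
    have h3 := sum_wt Q N c hdN
    have h4 : 0 ≤ (N : ℝ) * mu Q c := by rw [← h3]; exact sum_nonneg fun n _ => hw n
    exact nonneg_of_mul_nonneg_right h4 hNr
  refine ⟨hmu0, ?_⟩
  rw [hS, sum_GG Q U N c hN0 hdN, hT0, sum_wt Q N c hdN] at hmain
  have hNV : 0 < (N : ℝ) * V (PQ Q) := by positivity
  have e1 : N * V (PQ Q) * ∑ h ∈ Icc 1 U, RP.GG Q c h - U * V (PQ Q) * (N * mu Q c) =
      (N * V (PQ Q)) * (∑ h ∈ Icc 1 U, RP.GG Q c h - U * mu Q c) := by ring
  have e2 : 3 * E * (U * V (PQ Q) * (N * mu Q c)) = (N * V (PQ Q)) * (3 * E * (U * mu Q c)) := by ring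
  rw [e1, e2, abs_mul, abs_of_pos hNV] at hmain
  exact le_of_mul_le_mul_left hmain hNV

lemma ext_sum (Q Q' : ℕ) (hQ : Q ≤ Q') (f : ℕ → ℝ) :
    ∑ d ∈ Icc 1 Q', (if d ≤ Q then f d else 0) = ∑ d ∈ Icc 1 Q, f d := by
  rw [← sum_filter]
  congr 1
  ext d
  rw [mem_filter, mem_Icc, mem_Icc]
  constructor
  · rintro ⟨⟨h1, h2⟩, h3⟩; exact ⟨h1, h3⟩
  · rintro ⟨h1, h2⟩; exact ⟨⟨h1, h2.trans hQ⟩, h2⟩

/-- the mean of the singular series -/
theorem meanT (E : ℝ) (hE : 0 < E) (hE1 : E ≤ 1 / 4) (s : ℕ) (hs : 3 ≤ s) (hWA : WA (s : ℝ) E) (a : ℝ) (ha : 0 < a)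
    (has : a * s < 1) : ∃ U1 : ℕ, ∀ (U Q : ℕ) (c : ℕ → ℕ → ℝ), U1 ≤ U → Real.log Q ≤ (U : ℝ) ^ a →
    (∀ n, 0 ≤ wt Q c n) → 0 ≤ mu Q c ∧
      |∑ h ∈ Icc 1 U, RP.GG Q c h - U * mu Q c| ≤ 3 * E * (U * mu Q c) := by
  obtain ⟨U1, hme⟩ := meanS E hE hE1 s hs hWA a ha has
  obtain ⟨U2, hU2⟩ := (ev a 1 0 ha).exists_forall_of_atTop
  refine ⟨max U1 U2, ?_⟩
  intro U Q c hU hlogQ hw
  have hU1 : U1 ≤ U := (le_max_left _ _).trans hU
  have hlU := hU2 U ((le_max_right _ _).trans hU)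
  rcases Nat.lt_or_ge U Q with h | h
  · exact hme U Q c hU1 h.le hlogQ hw
  · obtain ⟨c', hc'⟩ : ∃ c' : ℕ → ℕ → ℝ, c' = fun d n => if d ≤ Q then c d n else 0 := ⟨_, rfl⟩
    have e1 : ∀ n, wt U c' n = wt Q c n := by
      intro n
      rw [hc']
      unfold wt
      exact ext_sum Q U h (fun d => c d (n % d))
    have e2 : ∀ h', RP.GG U c' h' = RP.GG Q c h' := by
      intro h'
      rw [hc']
      unfold RP.GG
      rw [← ext_sum Q U h]
      apply sum_congr rfl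
      intro d _
      by_cases hd : d ≤ Q
      · simp only [if_pos hd]
      · simp only [if_neg hd, zero_div, ite_self, sum_const_zero]
    have e3 : mu U c' = mu Q c := by
      rw [hc']
      unfold mu
      rw [← ext_sum Q U h]
      apply sum_congr rfl
      intro d _
      by_cases hd : d ≤ Q
      · simp only [if_pos hd]
      · simp only [if_neg hd, zero_div, sum_const_zero]
    have h1 := hme U U c' hU1 le_rfl (by linarith) (fun n => by rw [e1]; exact hw n)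
    simp only [e2, e3] at h1
    exact h1

/-- the rate -/
lemma rate (B κ ε : ℝ) (hB : 0 < B) (hκ : 1 ≤ κ) (hε : 0 < ε) : ∃ A1 : ℝ, 5 ≤ A1 ∧ ∀ A : ℝ, A1 ≤ A → ∀ s : ℕ,
    A - 1 ≤ s → (s : ℝ) ≤ A → B * κ ^ s / (s.factorial : ℝ) ≤ Real.exp (-((1 - ε) * (A * Real.log A))) := by
  obtain ⟨C, hC⟩ : ∃ C : ℝ, C = |Real.log B| + Real.log κ + 4 := ⟨_, rfl⟩
  have hlκ : 0 ≤ Real.log κ := Real.log_nonneg hκ
  have hC0 : 0 < C := by
    have := abs_nonneg (Real.log B)
    rw [hC]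
    linarith
  refine ⟨max 5 (Real.exp (C / ε)), le_max_left _ _, ?_⟩
  intro A hA s hs1 hs2
  have hA5 : 5 ≤ A := (le_max_left _ _).trans hA
  have hAe : Real.exp (C / ε) ≤ A := (le_max_right _ _).trans hA
  have hA0 : 0 < A := by linarith
  have hlA : C / ε ≤ Real.log A := by
    rw [Real.le_log_iff_exp_le hA0]
    exact hAe
  have hCε : C ≤ ε * Real.log A := by
    rw [div_le_iff₀ hε] at hlA
    linarith
  have hsr : (4 : ℝ) ≤ s := by linarith
  have hs0 : (0 : ℝ) < s := by linarith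
  have hf0 : (0 : ℝ) < (s.factorial : ℝ) := by exact_mod_cast Nat.factorial_pos s
  -- Stirling
  have hst : (s : ℝ) * Real.log s - s ≤ Real.log (s.factorial : ℝ) := by
    have h1 : (s : ℝ) ^ s / (s.factorial : ℝ) ≤ Real.exp s := by
      have h2 := Real.pow_div_factorial_le_exp (s : ℝ) hs0.le s
      exact h2
    have h2 := Real.log_le_log (by positivity) h1
    rw [Real.log_exp, Real.log_div (by positivity) hf0.ne', Real.log_pow] at h2
    linarith
  rw [← Real.log_le_log_iff (by positivity) (Real.exp_pos _), Real.log_exp, Real.log_div (by positivity) hf0.ne',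
    Real.log_mul hB.ne' (by positivity), Real.log_pow]
  have h1 : Real.log B ≤ |Real.log B| := le_abs_self _
  have h2 : (s : ℝ) * Real.log κ ≤ A * Real.log κ := mul_le_mul_of_nonneg_right hs2 hlκ
  have h3 : Real.log A - 1 ≤ Real.log s := by
    have h4 : A / 2 ≤ s := by linarith
    have h5 := Real.log_le_log (by positivity) h4
    rw [Real.log_div hA0.ne' (by norm_num)] at h5
    have := Real.log_two_lt_d9
    linarith
  have hlA1 : 1 ≤ Real.log A := by
    rw [Real.le_log_iff_exp_le hA0]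
    have := Real.exp_one_lt_d9
    linarith
  have h4 : (A - 1) * (Real.log A - 1) ≤ s * Real.log s := by
    apply mul_le_mul hs1 h3 (by linarith) (by linarith)
  have h5 : Real.log A ≤ A - 1 := Real.log_le_sub_one_of_pos hA0
  have h6 : C * A ≤ ε * Real.log A * A := mul_le_mul_of_nonneg_right hCε hA0.le
  have h7 : |Real.log B| ≤ |Real.log B| * A := le_mul_of_one_le_right (abs_nonneg _) (by linarith)
  have h8 : C * A = |Real.log B| * A + A * Real.log κ + 4 * A := by rw [hC]; ring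
  have h9 : (A - 1) * (Real.log A - 1) = A * Real.log A - A - Real.log A + 1 := by ring
  have h10 : -((1 - ε) * (A * Real.log A)) = -(A * Real.log A) + ε * Real.log A * A := by ring
  rw [h10]
  linarith

end Pool.Agent.Y829.RZ
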