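import Pool.Agent.Y829.SA2
import Pool.Agent.Y829.RS5

/-! Primes `n - h`, on average with respect to a sieve weight. -/

set_option autoImplicit false

namespace Pool.Agent.Y829.SA

open Finset Filter Topology Pool.Agent.Y829 Pool.Agent.Y829.RP Pool.Agent.Y829.RS
open H343E Pool.Agent.TH423.SH.PSUa

lemma cnt_ng (X h T d a : ℕ) (hd : 0 < d) (ha : a < d) (hT : d ∣ T) (hhT : h ≤ T) (hdX : d + h ≤ X) :
    (((Ioc X (2 * X)).filter (fun n => n % d = a ∧ (n - h).Prime)).card : ℝ) =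
      if (a + (T - h)).Coprime d then piAP (2 * X - h) d ((a + (T - h)) % d) - piAP (X - h) d ((a + (T - h)) % d) else 0 := by
  obtain ⟨s, hs⟩ : ∃ s, s = T - h := ⟨_, rfl⟩
  have hsT : s + h = T := by omega
  rw [← hs]
  have hz : s + h ≡ 0 [MOD d] := by rw [hsT]; exact (Nat.modEq_zero_iff_dvd).2 hT
  have key : ∀ p : ℕ, p + h ≡ a [MOD d] ↔ p ≡ a + s [MOD d] := by
    intro p
    constructor
    · intro h1
      have h2 : p + h + s ≡ a + s [MOD d] := h1.add_right s
      have h3 : p + h + s ≡ p [MOD d] := by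
        have h4 : p + (s + h) ≡ p + 0 [MOD d] := hz.add_left p
        have e1 : p + h + s = p + (s + h) := by ring
        rw [e1]
        exact h4
      exact h3.symm.trans h2
    · intro h1
      have h2 : p + h ≡ a + s + h [MOD d] := h1.add_right h
      have h3 : a + s + h ≡ a [MOD d] := by
        have h4 : a + (s + h) ≡ a + 0 [MOD d] := hz.add_left a
        have e1 : a + s + h = a + (s + h) := by ring
        rw [e1]
        exact h4
      exact h2.trans h3
  have h1 : ((Ioc X (2 * X)).filter (fun n => n % d = a ∧ (n - h).Prime)).card =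
      ((Ioc (X - h) (2 * X - h)).filter (fun p => p.Prime ∧ p ≡ (a + s) % d [MOD d])).card := by
    apply card_nbij' (fun n => n - h) (fun p => p + h)
    · intro n hn
      rw [mem_coe, mem_filter, mem_Ioc] at hn
      rw [mem_coe, mem_filter, mem_Ioc]
      dsimp only
      refine ⟨by omega, hn.2.2, ?_⟩
      have h2 : n ≡ a [MOD d] := by
        show n % d = a % d
        rw [hn.2.1, Nat.mod_eq_of_lt ha]
      have h3 : n - h + h = n := by omega
      have h4 : n - h + h ≡ a [MOD d] := by rw [h3]; exact h2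
      exact ((key _).1 h4).trans (Nat.mod_modEq _ _).symm
    · intro p hp
      rw [mem_coe, mem_filter, mem_Ioc] at hp
      rw [mem_coe, mem_filter, mem_Ioc]
      dsimp only
      have h3 : p + h - h = p := by omega
      refine ⟨by omega, ?_, by rw [h3]; exact hp.2.1⟩
      have h2 : p + h ≡ a [MOD d] := (key p).2 (hp.2.2.trans (Nat.mod_modEq _ _))
      have h5 : (p + h) % d = a % d := h2
      rw [h5, Nat.mod_eq_of_lt ha]
    · intro n hn
      rw [mem_coe, mem_filter, mem_Ioc] at hn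
      show n - h + h = n
      omega
    · intro p hp
      show p + h - h = p
      omega
  rw [h1]
  split_ifs with hc
  · unfold piAP
    rw [eq_sub_iff_add_eq]
    have h2 : (Icc 1 (2 * X - h)).filter (fun p => p.Prime ∧ p ≡ (a + s) % d [MOD d]) =
        (Ioc (X - h) (2 * X - h)).filter (fun p => p.Prime ∧ p ≡ (a + s) % d [MOD d]) ∪
        (Icc 1 (X - h)).filter (fun p => p.Prime ∧ p ≡ (a + s) % d [MOD d]) := by
      ext p
      simp only [mem_filter, mem_union, mem_Ioc, mem_Icc]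
      constructor
      · rintro ⟨h3, h4⟩
        by_cases h5 : p ≤ X - h
        · exact Or.inr ⟨⟨h3.1, h5⟩, h4⟩
        · exact Or.inl ⟨⟨by omega, h3.2⟩, h4⟩
      · rintro (⟨h3, h4⟩ | ⟨h3, h4⟩)
        · exact ⟨⟨by omega, h3.2⟩, h4⟩
        · exact ⟨⟨h3.1, by omega⟩, h4⟩
    have h3 : Disjoint ((Ioc (X - h) (2 * X - h)).filter (fun p => p.Prime ∧ p ≡ (a + s) % d [MOD d]))
        ((Icc 1 (X - h)).filter (fun p => p.Prime ∧ p ≡ (a + s) % d [MOD d])) := by
      rw [disjoint_left]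
      intro p hp hp'
      rw [mem_filter, mem_Ioc] at hp
      rw [mem_filter, mem_Icc] at hp'
      omega
    rw [h2, card_union_of_disjoint h3]
    push_cast
    ring
  · have h2 : (Ioc (X - h) (2 * X - h)).filter (fun p => p.Prime ∧ p ≡ (a + s) % d [MOD d]) = ∅ := by
      rw [filter_eq_empty_iff]
      rintro p hp ⟨hpp, hpm⟩
      rw [mem_Ioc] at hp
      rw [Nat.Prime.not_coprime_iff_dvd] at hc
      obtain ⟨q, hq, hqa, hqd⟩ := hc
      have h3 : p ≡ a + s [MOD q] := (hpm.trans (Nat.mod_modEq _ _)).of_dvd hqd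
      have h4 : q ∣ p := (Nat.modEq_zero_iff_dvd).1 (h3.trans ((Nat.modEq_zero_iff_dvd).2 hqa))
      have h5 : q = p := (Nat.prime_dvd_prime_iff_eq hq hpp).1 h4
      have h6 := Nat.le_of_dvd hd hqd
      omega
    rw [h2]
    simp

/-- primes in the window shifted to the left, with a sieve weight -/
theorem shift_ng (K K' : ℕ) : ∃ B X0 : ℕ, ∀ X : ℕ, X0 ≤ X → ∀ Q : ℕ, 1 ≤ Q → (Q : ℝ) ^ 2 * Real.log X ^ B ≤ X →
    ∀ c : ℕ → ℕ → ℝ, ∑ d ∈ Icc 1 Q, ss c d ^ 2 / d ≤ Real.log X ^ K →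
    ∀ h T : ℕ, 4 * h ≤ X → h ≤ T → (∀ d ∈ Icc 1 Q, d ∣ T) →
    |∑ n ∈ Ioc X (2 * X), wt Q c n * (if (n - h).Prime then 1 else 0) -
      (pi1 (2 * X - h) - pi1 (X - h)) * RP.GG Q c (T - h)| ≤ 4 * (X / Real.log X ^ K') := by
  obtain ⟨B, X0, hb⟩ := bvs (K + 1) (K' + 1)
  have E := (log_tend.eventually_ge_atTop ((2 : ℝ) ^ (K + K' + 2) + 4))
  obtain ⟨X1, hX1⟩ := E.exists_forall_of_atTop
  refine ⟨B + 1, max (2 * X0) (max X1 8), ?_⟩
  intro X hX Q hQ hQX c hc h T hhX hhT hT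
  have hX0 : 2 * X0 ≤ X := (le_max_left _ _).trans hX
  have hX8 : 8 ≤ X := (le_max_right _ _).trans ((le_max_right _ _).trans hX)
  have hL := hX1 X ((le_max_left _ _).trans ((le_max_right _ _).trans hX))
  obtain ⟨Y, hY⟩ : ∃ Y, Y = X - h := ⟨_, rfl⟩
  have hYX : Y ≤ X := by omega
  have hY2 : X ≤ 2 * Y := by omega
  have hXr : (0 : ℝ) < X := by exact_mod_cast (by omega : 0 < X)
  have hYr : (0 : ℝ) < Y := by exact_mod_cast (by omega : 0 < Y)
  have hYXr : (Y : ℝ) ≤ X := by exact_mod_cast hYX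
  have hY2r : (X : ℝ) ≤ 2 * Y := by exact_mod_cast hY2
  obtain ⟨L, hLd⟩ : ∃ L : ℝ, L = Real.log X := ⟨_, rfl⟩
  obtain ⟨LY, hLY⟩ : ∃ L : ℝ, L = Real.log Y := ⟨_, rfl⟩
  rw [← hLd] at hL hQX hc ⊢
  have hpw : (1 : ℝ) ≤ (2 : ℝ) ^ (K + K' + 2) := one_le_pow₀ (by norm_num)
  have hL5 : 5 ≤ L := by linarith
  have hLY1 : LY ≤ L := by rw [hLY, hLd]; exact Real.log_le_log hYr hYXr
  have hLY2 : L ≤ LY + 1 := by
    have h1 := Real.log_le_log hXr hY2r
    rw [Real.log_mul (by norm_num) hYr.ne', ← hLd, ← hLY] at h1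
    have h2 : Real.log 2 ≤ 1 := by
      have := Real.log_two_lt_d9
      linarith
    linarith
  have hLY4 : 4 ≤ LY := by linarith
  have hLY3 : L ≤ 2 * LY := by linarith
  have hLYb : 2 ^ (K + K' + 1) ≤ LY := by
    have e1 : (2 : ℝ) ^ (K + K' + 2) = 2 ^ (K + K' + 1) * 2 := pow_succ _ _
    have e2 : (1 : ℝ) ≤ 2 ^ (K + K' + 1) := one_le_pow₀ (by norm_num)
    linarith
  have hQr : (1 : ℝ) ≤ Q := by exact_mod_cast hQ
  have hQY : (Q : ℝ) ^ 2 * Real.log Y ^ B ≤ Y := by
    rw [← hLY]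
    have h1 : (Q : ℝ) ^ 2 * LY ^ B ≤ Q ^ 2 * L ^ B :=
      mul_le_mul_of_nonneg_left (pow_le_pow_left₀ (by linarith) hLY1 _) (by positivity)
    have h2 : (Q : ℝ) ^ 2 * L ^ B * 2 ≤ (Q : ℝ) ^ 2 * L ^ B * L :=
      mul_le_mul_of_nonneg_left (by linarith) (by positivity)
    have h3 : (Q : ℝ) ^ 2 * L ^ B * L = Q ^ 2 * L ^ (B + 1) := by ring
    linarith
  have hcY : ∑ d ∈ Icc 1 Q, ss c d ^ 2 / d ≤ Real.log Y ^ (K + 1) := by
    rw [← hLY]
    refine hc.trans ?_
    have h1 : L ^ K ≤ (2 * LY) ^ K := pow_le_pow_left₀ (by linarith) hLY3 _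
    refine h1.trans ?_
    rw [mul_pow, pow_succ, mul_comm]
    apply mul_le_mul_of_nonneg_left _ (by positivity)
    refine le_trans ?_ hLYb
    exact pow_le_pow_right₀ (by norm_num) (by omega)
  have hb1 := hb Y (by omega) Q hQ hQY c hcY Y le_rfl (by omega)
  have hb2 := hb Y (by omega) Q hQ hQY c hcY (2 * X - h) (by omega) (by omega)
  have hQleX : 2 * Q ≤ X := by
    have h1 : (1 : ℝ) ≤ L ^ B := one_le_pow₀ (by linarith)
    have h2 : (Q : ℝ) ^ 2 * L ^ (B + 1) = Q ^ 2 * L ^ B * L := by ring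
    have h3 : (Q : ℝ) ^ 2 ≤ Q ^ 2 * L ^ B := by nlinarith
    have h4 : (Q : ℝ) ^ 2 * 2 ≤ Q ^ 2 * L ^ B * L := by
      apply mul_le_mul h3 (by linarith) (by norm_num) (by positivity)
    have h5 : (2 : ℝ) * Q ≤ X := by nlinarith
    exact_mod_cast h5
  have e1 : ∑ n ∈ Ioc X (2 * X), wt Q c n * (if (n - h).Prime then 1 else 0) =
      ∑ d ∈ Icc 1 Q, ∑ a ∈ range d, c d a *
        (((Ioc X (2 * X)).filter (fun n => n % d = a ∧ (n - h).Prime)).card : ℝ) := by
    have h1 : ∀ n ∈ Ioc X (2 * X), wt Q c n * (if (n - h).Prime then 1 else 0) =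
        ∑ d ∈ Icc 1 Q, ∑ a ∈ range d, c d a * (if n % d = a ∧ (n - h).Prime then 1 else 0) := by
      intro n _
      rw [wt_eq, sum_mul]
      apply sum_congr rfl
      intro d _
      rw [sum_mul]
      apply sum_congr rfl
      intro a _
      by_cases h2 : n % d = a <;> by_cases h3 : (n - h).Prime <;> simp [h2, h3]
    rw [sum_congr rfl h1, sum_comm]
    apply sum_congr rfl
    intro d _
    rw [sum_comm]
    apply sum_congr rfl
    intro a _
    rw [← mul_sum, card_filter]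
    push_cast
    rfl
  rw [e1]
  unfold RP.GG
  rw [mul_sum, ← sum_sub_distrib]
  refine (abs_sum_le_sum_abs _ _).trans ?_
  rw [← hY]
  have key : ∀ d ∈ Icc 1 Q, |∑ a ∈ range d, c d a *
        (((Ioc X (2 * X)).filter (fun n => n % d = a ∧ (n - h).Prime)).card : ℝ) -
        (pi1 (2 * X - h) - pi1 Y) * ∑ a ∈ range d, (if (a + (T - h)).Coprime d then c d a / (Nat.totient d : ℝ) else 0)| ≤
      ss c d * ee (2 * X - h) d + ss c d * ee Y d := by
    intro d hd
    have hdT := hT d hd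
    rw [mem_Icc] at hd
    rw [mul_sum, ← sum_sub_distrib]
    refine (abs_sum_le_sum_abs _ _).trans ?_
    unfold ss
    rw [sum_mul, sum_mul, ← sum_add_distrib]
    apply sum_le_sum
    intro a ha
    rw [mem_range] at ha
    rw [cnt_ng X h T d a (by omega) ha hdT hhT (by omega), ← hY]
    split_ifs with hcop
    · have hlt : (a + (T - h)) % d < d := Nat.mod_lt _ (by omega)
      have hco : ((a + (T - h)) % d).Coprime d := by
        rw [Nat.Coprime, ← Nat.gcd_rec, Nat.gcd_comm]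
        exact hcop
      have h1 := FF_le_ee (2 * X - h) d ((a + (T - h)) % d) hlt hco
      have h2 := FF_le_ee Y d ((a + (T - h)) % d) hlt hco
      unfold FF at h1 h2
      have e2 : c d a * (piAP (2 * X - h) d ((a + (T - h)) % d) - piAP Y d ((a + (T - h)) % d)) -
          (pi1 (2 * X - h) - pi1 Y) * (c d a / (Nat.totient d : ℝ)) =
          c d a * ((piAP (2 * X - h) d ((a + (T - h)) % d) - pi1 (2 * X - h) / (Nat.totient d : ℝ)) -
            (piAP Y d ((a + (T - h)) % d) - pi1 Y / (Nat.totient d : ℝ))) := by ring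
      rw [e2, abs_mul, ← mul_add]
      apply mul_le_mul_of_nonneg_left _ (abs_nonneg _)
      refine (abs_sub _ _).trans ?_
      linarith
    · simp only [mul_zero, sub_zero, abs_zero]
      have := ee_nonneg (2 * X - h) d
      have := ee_nonneg Y d
      positivity
  refine (sum_le_sum key).trans ?_
  rw [sum_add_distrib]
  have hfin : (Y : ℝ) / Real.log Y ^ (K' + 1) ≤ X / L ^ K' := by
    rw [← hLY, div_le_div_iff₀ (by positivity) (by positivity)]
    have h1 : L ^ K' ≤ (2 * LY) ^ K' := pow_le_pow_left₀ (by linarith) hLY3 _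
    rw [mul_pow] at h1
    have h2 : (2 : ℝ) ^ K' ≤ LY := by
      refine le_trans ?_ hLYb
      exact pow_le_pow_right₀ (by norm_num) (by omega)
    have h3 : L ^ K' ≤ LY * LY ^ K' := h1.trans (mul_le_mul_of_nonneg_right h2 (by positivity))
    rw [pow_succ' LY]
    exact mul_le_mul hYXr h3 (by positivity) hXr.le
  have hnn : 0 ≤ (X : ℝ) / L ^ K' := by positivity
  linarith

/-- the prime number theorem in dyadic intervals shifted to the left -/
lemma dyadic_ng (eta : ℝ) (he : 0 < eta) (he1 : eta ≤ 1) : ∃ X1 : ℕ, ∀ X : ℕ, X1 ≤ X → ∀ h : ℕ,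
    4 * (h * Real.log X) ≤ eta * X →
    (1 - eta) * (X / Real.log X) ≤ pi1 (2 * X - h) - pi1 (X - h) ∧
    pi1 (2 * X - h) - pi1 (X - h) ≤ (1 + eta) * (X / Real.log X) := by
  obtain ⟨X1, hd⟩ := dyadic (eta / 2) (by positivity) (by linarith)
  obtain ⟨X2, hX2⟩ := (log_tend.eventually_ge_atTop (1 : ℝ)).exists_forall_of_atTop
  refine ⟨max X1 X2, ?_⟩
  intro X hX h hh
  have hL := hX2 X ((le_max_right _ _).trans hX)
  obtain ⟨d1, d2⟩ := hd X ((le_max_left _ _).trans hX) 0 (Nat.zero_le _)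
  simp only [add_zero] at d1 d2
  obtain ⟨L, hLd⟩ : ∃ L : ℝ, L = Real.log X := ⟨_, rfl⟩
  rw [← hLd] at hL hh d1 d2 ⊢
  have hmon : ∀ a b : ℕ, a ≤ b → pi1 a ≤ pi1 b ∧ pi1 b ≤ pi1 a + ((b - a : ℕ) : ℝ) := by
    intro a b hab
    unfold pi1
    have hs : (Icc 1 a).filter (fun p => p.Prime) ⊆ (Icc 1 b).filter (fun p => p.Prime) := by
      apply filter_subset_filter
      exact Icc_subset_Icc_right hab
    constructor
    · exact_mod_cast card_le_card hs
    · have h1 : (Icc 1 b).filter (fun p => p.Prime) ⊆ (Icc 1 a).filter (fun p => p.Prime) ∪ Ioc a b := by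
        intro p hp
        rw [mem_filter, mem_Icc] at hp
        rw [mem_union, mem_filter, mem_Icc, mem_Ioc]
        by_cases h2 : p ≤ a
        · exact Or.inl ⟨⟨hp.1.1, h2⟩, hp.2⟩
        · exact Or.inr ⟨by omega, hp.1.2⟩
      have h2 := (card_le_card h1).trans (card_union_le _ _)
      rw [Nat.card_Ioc] at h2
      exact_mod_cast h2
  obtain ⟨m1, m2⟩ := hmon (2 * X - h) (2 * X) (by omega)
  obtain ⟨m3, m4⟩ := hmon (X - h) X (by omega)
  have h1 : ((2 * X - (2 * X - h) : ℕ) : ℝ) ≤ h := by exact_mod_cast (by omega : 2 * X - (2 * X - h) ≤ h)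
  have h2 : ((X - (X - h) : ℕ) : ℝ) ≤ h := by exact_mod_cast (by omega : X - (X - h) ≤ h)
  have h3 : (h : ℝ) ≤ eta / 4 * (X / L) := by
    have e1 : eta / 4 * (X / L) = (eta * X / 4) / L := by ring
    rw [e1, le_div_iff₀ (by linarith)]
    linarith
  have h4 : 0 ≤ (X : ℝ) / L := by
    have : (0 : ℝ) ≤ X := Nat.cast_nonneg _
    positivity
  have h5 : 0 ≤ eta * (X / L) := by positivity
  constructor
  · linarith
  · linarith

end Pool.Agent.Y829.SA
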