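import Pool.Agent.Y829.SA3

/-! The model for a general set of shifts. -/

set_option autoImplicit false

namespace Pool.Agent.Y829.SA

open Finset Filter Topology Pool.Agent.Y829 Pool.Agent.Y829.RP Pool.Agent.Y829.RS

lemma SH_per (H P : Finset ℕ) (M n : ℕ) (hM : ∀ p ∈ P, p ∣ M) : SH H P (n + M) = SH H P n := by
  classical
  unfold SH
  refine congrArg Nat.cast (congrArg card ?_)
  apply filter_congr
  intro h _
  have e1 : ∀ p ∈ P, (n + M + h) % p = (n + h) % p := by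
    intro p hp
    obtain ⟨k, hk⟩ := hM p hp
    have : n + M + h = (n + h) + p * k := by rw [hk]; ring
    rw [this]
    exact Nat.add_mul_mod_self_left _ _ _
  constructor
  · intro h1 p hp
    rw [← e1 p hp]; exact h1 p hp
  · intro h1 p hp
    rw [e1 p hp]; exact h1 p hp

lemma SH_mono (H P P' : Finset ℕ) (n : ℕ) (h : P ⊆ P') : SH H P' n ≤ SH H P n := by
  classical
  unfold SH
  have : H.filter (fun h => ∀ p ∈ P', (n + h) % p ∉ ({0} : Finset ℕ)) ⊆
      H.filter (fun h => ∀ p ∈ P, (n + h) % p ∉ ({0} : Finset ℕ)) := by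
    intro x hx
    rw [mem_filter] at hx ⊢
    exact ⟨hx.1, fun p hp => hx.2 p (h hp)⟩
  exact_mod_cast card_le_card this

/-- the sum of the singular series -/
lemma sum_SH (Q N : ℕ) (H : Finset ℕ) (c : ℕ → ℕ → ℝ) (hN : 0 < N) (hdN : ∀ d ∈ Icc 1 Q, d ∣ N) :
    ∑ n ∈ range N, wt Q c n * SH H (PQ Q) n = N * V (PQ Q) * ∑ h ∈ H, RP.GG Q c h := by
  classical
  have h1 : ∀ n, SH H (PQ Q) n = ∑ h ∈ H, (if (∀ p ∈ PQ Q, ¬ p ∣ n + h) then (1 : ℝ) else 0) := by
    intro n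
    unfold SH
    rw [card_filter]
    push_cast
    apply sum_congr rfl
    intro h _
    have e1 : (∀ p ∈ PQ Q, (n + h) % p ∉ ({0} : Finset ℕ)) ↔ (∀ p ∈ PQ Q, ¬ p ∣ n + h) := by
      constructor
      · intro h2 p hp h3
        exact h2 p hp (mem_singleton.2 (Nat.mod_eq_zero_of_dvd h3))
      · intro h2 p hp h3
        exact h2 p hp (Nat.dvd_of_mod_eq_zero (mem_singleton.1 h3))
    by_cases h4 : (∀ p ∈ PQ Q, ¬ p ∣ n + h)
    · rw [if_pos (e1.2 h4), if_pos h4]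
    · rw [if_neg (fun h5 => h4 (e1.1 h5)), if_neg h4]
  have h2 : ∀ n ∈ range N, wt Q c n * SH H (PQ Q) n =
      ∑ h ∈ H, wt Q c n * (if (∀ p ∈ PQ Q, ¬ p ∣ n + h) then (1 : ℝ) else 0) := by
    intro n _
    rw [h1, mul_sum]
  rw [sum_congr rfl h2, sum_comm, mul_sum]
  apply sum_congr rfl
  intro h _
  exact sum_wt_free Q N h c hN hdN

/-- the model -/
theorem modelG (A A' : ℝ) (hA : 1 < A) (hAA : A ≤ A') (K e : ℕ) : ∃ X0 : ℕ, ∀ X : ℕ, X0 ≤ X →
    ∀ (U Q : ℕ) (H : Finset ℕ), Real.log X ^ A ≤ U → U ≤ Real.log X ^ A' → 1 ≤ Q → Q ≤ X → H.card ≤ U →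
    Spread H Q U (Real.log (Real.log X) ^ 5) (Real.log (Real.log X)) →
    ∀ c : ℕ → ℕ → ℝ, (∀ n, 0 ≤ wt Q c n) → ∑ d ∈ Icc 1 Q, ss c d ^ 2 / d ≤ Real.log X ^ K →
    1 / (2 * Real.log X ^ K) ≤ mu Q c →
    (∀ n, wt Q c n = 0 ∨ U / Real.log (Real.log X) ^ 2 ≤ SH H (P0 Q (Real.log (Real.log X) ^ 5)) n) →
    ∀ N : ℕ, 0 < N → (∀ d ∈ Icc 1 Q, d ∣ N) →
    |N * V (PQ Q) * ∑ h ∈ H, RP.GG Q c h - V (P3 Q (Real.log (Real.log X) ^ 5)) *
      ∑ n ∈ range N, wt Q c n * SH H (P0 Q (Real.log (Real.log X) ^ 5)) n| ≤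
    (1 / 2 : ℝ) ^ e * (V (P3 Q (Real.log (Real.log X) ^ 5)) *
      ∑ n ∈ range N, wt Q c n * SH H (P0 Q (Real.log (Real.log X) ^ 5)) n) := by
  classical
  obtain ⟨X1, hX1⟩ := concG A A' hA hAA (e + 1) (2 * K + 4 * (K + 3) + 10)
  obtain ⟨X2, hX2⟩ := badmass K (K + 3)
  obtain ⟨cm, hcm, hmert⟩ := mert
  obtain ⟨δ, hδ⟩ : ∃ δ : ℝ, δ = (1 / 2 : ℝ) ^ (e + 1) := ⟨_, rfl⟩
  have hδ0 : 0 < δ := by rw [hδ]; positivity
  have hδe : (1 / 2 : ℝ) ^ e = 2 * δ := by rw [hδ, pow_succ]; ring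
  have E := ((log_tend.eventually_ge_atTop (1 + 2 / (δ * cm))).and (evl (1 / 2) 1 0 (by norm_num))).and
    ((ll_tend.eventually_ge_atTop (1 : ℝ)).and (eventually_ge_atTop 3))
  obtain ⟨X3, hX3⟩ := E.exists_forall_of_atTop
  refine ⟨max (max X1 X2) X3, ?_⟩
  intro X hX U Q H hU hU' hQ1 hQX hHU hSp c hw hc hmu hlow N hN0 hdN
  have hc1 := hX1 X ((le_max_left _ _).trans ((le_max_left _ _).trans hX)) U Q H hU hU' hQX hSp
  have hc2 := hX2 X ((le_max_right _ _).trans ((le_max_left _ _).trans hX)) Q hQ1 hQX c hc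
  obtain ⟨⟨e1, e3⟩, e4, e2⟩ := hX3 X ((le_max_right _ _).trans hX)
  have hP : ∀ p ∈ PQ Q, p.Prime := fun p hp => (mem_PQ.1 hp).1
  obtain ⟨y, hy⟩ : ∃ y : ℝ, y = Real.log (Real.log X) ^ 5 := ⟨_, rfl⟩
  rw [← hy] at hc1 hlow ⊢
  have hP3s : P3 Q y ⊆ PQ Q := filter_subset _ _
  have hP0s : P0 Q y ⊆ PQ Q := filter_subset _ _
  have hV3 : cm / Real.log X ≤ V (P3 Q y) := hmert X (by omega) (P3 Q y) fun p hp =>
    ⟨hP p (hP3s hp), (mem_PQ.1 (hP3s hp)).2.trans hQX⟩
  have hV30 : 0 < V (P3 Q y) := V_pos fun p hp => hP p (hP3s hp)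
  obtain ⟨L, hL⟩ : ∃ L : ℝ, L = Real.log X := ⟨_, rfl⟩
  rw [← hL] at hc1 hc2 hc e1 e3 e4 hmu hV3 hU hU' hlow
  obtain ⟨ll, hll⟩ : ∃ ll : ℝ, ll = Real.log L := ⟨_, rfl⟩
  rw [← hll] at e3 e4 hlow
  have hL1 : 1 ≤ L := by
    have : 0 ≤ 2 / (δ * cm) := by positivity
    linarith
  have hL0 : 0 < L := by linarith
  have hll0 : 0 < ll := by linarith
  have hlL : ll ^ 2 ≤ L := by
    have h1 : ll ≤ L ^ (1 / 2 : ℝ) := by linarith
    have h2 : ll ^ 2 ≤ (L ^ (1 / 2 : ℝ)) ^ 2 := pow_le_pow_left₀ hll0.le h1 2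
    have h3 : (L ^ (1 / 2 : ℝ)) ^ 2 = L := by
      rw [← Real.rpow_natCast, ← Real.rpow_mul hL0.le]
      norm_num
    linarith
  obtain ⟨M, hM⟩ : ∃ M, M = ∏ p ∈ PQ Q, p := ⟨_, rfl⟩
  have hM0 : 0 < M := by rw [hM]; exact prod_pos fun p hp => (hP p hp).pos
  have hpM : ∀ p ∈ PQ Q, p ∣ M := by
    intro p hp
    rw [hM]; exact dvd_prod_of_mem (fun p : ℕ => p) hp
  have hMN : M ∣ N := by
    rw [hM]
    apply Finset.prod_primes_dvd
    · intro p hp; exact (hP p hp).prime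
    · intro p hp
      exact hdN p (mem_Icc.2 ⟨(hP p hp).one_lt.le, (mem_PQ.1 hp).2⟩)
  obtain ⟨k, hk⟩ := hMN
  rw [← hM] at hc1
  obtain ⟨S0, hS0⟩ : ∃ S0 : ℕ → ℝ, S0 = fun n => SH H (P0 Q y) n := ⟨_, rfl⟩
  obtain ⟨S, hS⟩ : ∃ S : ℕ → ℝ, S = fun n => SH H (PQ Q) n := ⟨_, rfl⟩
  obtain ⟨V3, hV3d⟩ : ∃ V3, V3 = V (P3 Q y) := ⟨_, rfl⟩
  rw [← hV3d] at hc1 hV3 hV30 ⊢
  have hS0nn : ∀ n, 0 ≤ S0 n := fun n => by rw [hS0]; exact SH_nonneg _ _ _
  have hSnn : ∀ n, 0 ≤ S n := fun n => by rw [hS]; exact SH_nonneg _ _ _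
  have hS0U : ∀ n, S0 n ≤ U := fun n => by
    rw [hS0]
    exact (SH_le _ _ _).trans (by exact_mod_cast hHU)
  have hSU : ∀ n, S n ≤ U := fun n => by
    rw [hS]
    exact (SH_le _ _ _).trans (by exact_mod_cast hHU)
  have hV31 : V3 ≤ 1 := by
    rw [hV3d]
    have := VO_le_one (Om := fun _ => ({0} : Finset ℕ)) (P := P3 Q y) (fun p hp => hP p (hP3s hp))
      (fun p hp => by simpa using (hP p (hP3s hp)).one_lt)
    rwa [VO_V] at this
  obtain ⟨bad, hbad⟩ : ∃ bad : ℕ → Prop, bad = fun n => δ * (S0 n * V3) < |S n - S0 n * V3| := ⟨_, rfl⟩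
  have hc1' : (((range M).filter bad).card : ℝ) * L ^ (2 * K + 4 * (K + 3) + 10) ≤ M := by
    rw [hbad, hδ, hS0, hS]
    convert hc1
  have hper : ∀ n, (if bad (n + M) then (1 : ℝ) else 0) = if bad n then (1 : ℝ) else 0 := by
    intro n
    have h1 : bad (n + M) ↔ bad n := by
      rw [hbad, hS0, hS]
      show (δ * (SH H (P0 Q y) (n + M) * V3) < |SH H (PQ Q) (n + M) - SH H (P0 Q y) (n + M) * V3|) ↔
        (δ * (SH H (P0 Q y) n * V3) < |SH H (PQ Q) n - SH H (P0 Q y) n * V3|)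
      rw [SH_per H (PQ Q) M n hpM, SH_per H (P0 Q y) M n fun p hp => hpM p (hP0s hp)]
    simp only [h1]
  have hcount : (((range N).filter bad).card : ℝ) * L ^ (2 * K + 4 * (K + 3) + 10) ≤ N := by
    have h1 : (((range N).filter bad).card : ℝ) = k * (((range M).filter bad).card : ℝ) := by
      rw [card_filter, card_filter, hk]
      push_cast
      exact per_sum hper k
    rw [h1, hk]
    push_cast
    have := mul_le_mul_of_nonneg_left hc1' (Nat.cast_nonneg (α := ℝ) k)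
    linarith
  have hb := hc2 N hdN ((range N).filter bad) (filter_subset _ _) hcount
  have hb' : ∑ n ∈ (range N).filter bad, |wt Q c n| = ∑ n ∈ (range N).filter bad, wt Q c n :=
    sum_congr rfl fun n _ => abs_of_nonneg (hw n)
  rw [hb'] at hb
  have hsw := sum_wt Q N c hdN
  have hUr : (0 : ℝ) ≤ U := Nat.cast_nonneg _
  have hNr : (0 : ℝ) < N := by exact_mod_cast hN0
  have hmu0 : 0 < mu Q c := lt_of_lt_of_le (by positivity) hmu
  obtain ⟨W0, hW0⟩ : ∃ W0, W0 = ∑ n ∈ range N, wt Q c n * S0 n := ⟨_, rfl⟩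
  have hW0' : ∑ n ∈ range N, wt Q c n * SH H (P0 Q y) n = W0 := by rw [hW0, hS0]
  rw [hW0', ← sum_SH Q N H c hN0 hdN]
  have hWS : ∑ n ∈ range N, wt Q c n * SH H (PQ Q) n = ∑ n ∈ range N, wt Q c n * S n := by rw [hS]
  rw [hWS]
  -- the lower bound
  have hW0low : U / ll ^ 2 * (N * mu Q c) ≤ W0 := by
    rw [← hsw, mul_sum, hW0]
    apply sum_le_sum
    intro n _
    rcases hlow n with h1 | h1
    · rw [h1, mul_zero, zero_mul]
    · rw [mul_comm, hS0]
      exact mul_le_mul_of_nonneg_left h1 (hw n)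
  have h2 : ∑ n ∈ range N, wt Q c n * S n - V3 * W0 =
      ∑ n ∈ range N, wt Q c n * (S n - S0 n * V3) := by
    rw [hW0, mul_sum, ← sum_sub_distrib]
    apply sum_congr rfl
    intro n _
    ring
  rw [h2]
  refine (abs_sum_le_sum_abs _ _).trans ?_
  have h3 : ∀ n ∈ range N, |wt Q c n * (S n - S0 n * V3)| ≤
      δ * V3 * (wt Q c n * S0 n) + (if bad n then wt Q c n * U else 0) := by
    intro n _
    rw [abs_mul, abs_of_nonneg (hw n)]
    have h6 : 0 ≤ δ * V3 * (wt Q c n * S0 n) := by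
      have := hw n
      have := hS0nn n
      positivity
    by_cases hbn : bad n
    · rw [if_pos hbn]
      have h4 : |S n - S0 n * V3| ≤ U := by
        have a1 := hSU n
        have a2 := hSnn n
        have a3 : S0 n * V3 ≤ U * 1 := mul_le_mul (hS0U n) hV31 hV30.le hUr
        have a4 : 0 ≤ S0 n * V3 := mul_nonneg (hS0nn n) hV30.le
        rw [abs_le]
        constructor <;> linarith
      have h5 := mul_le_mul_of_nonneg_left h4 (hw n)
      linarith
    · rw [if_neg hbn, add_zero]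
      have h7 : |S n - S0 n * V3| ≤ δ * (S0 n * V3) := by
        rw [hbad] at hbn
        exact not_lt.1 hbn
      have h8 := mul_le_mul_of_nonneg_left h7 (hw n)
      refine h8.trans (le_of_eq ?_)
      ring
  refine (sum_le_sum h3).trans ?_
  rw [sum_add_distrib, ← mul_sum, ← hW0, ← sum_filter, ← sum_mul]
  have h4 : (∑ n ∈ (range N).filter bad, wt Q c n) * U ≤ δ * V3 * W0 := by
    have h5 : (∑ n ∈ (range N).filter bad, wt Q c n) ≤ N / L ^ (K + 3) := by
      rw [le_div_iff₀ (by positivity)]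
      exact hb
    have h6 : (N : ℝ) / L ^ (K + 3) * U ≤ δ * (cm / L) * (U / ll ^ 2 * (N * (1 / (2 * L ^ K)))) := by
      have h7 : δ * (cm / L) * (U / ll ^ 2 * (N * (1 / (2 * L ^ K)))) =
          (N / L ^ (K + 3) * U) * ((δ * cm * L / 2) * (L / ll ^ 2)) := by
        rw [pow_add L K 3]
        field_simp
      rw [h7]
      apply le_mul_of_one_le_right (by positivity)
      have h8 : 1 ≤ δ * cm * L / 2 := by
        have h10 : 2 / (δ * cm) ≤ L := by linarith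
        rw [div_le_iff₀ (by positivity)] at h10
        linarith
      have h9 : 1 ≤ L / ll ^ 2 := by
        rw [le_div_iff₀ (by positivity), one_mul]
        exact hlL
      nlinarith
    have h7 := mul_le_mul_of_nonneg_right h5 hUr
    refine (h7.trans h6).trans ?_
    apply mul_le_mul _ _ (by positivity) (by positivity)
    · exact mul_le_mul_of_nonneg_left hV3 hδ0.le
    · refine le_trans ?_ hW0low
      apply mul_le_mul_of_nonneg_left _ (by positivity)
      exact mul_le_mul_of_nonneg_left hmu hNr.le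
  rw [hδe]
  linarith

/-- sums of periodic functions over a dyadic interval -/
lemma win_per (g : ℕ → ℝ) (X m : ℕ) (hm : 0 < m) (hg : ∀ n, g (n + m) = g n) :
    |∑ n ∈ Ioc X (2 * X), g n - X / m * ∑ n ∈ range m, g n| ≤ ∑ n ∈ range m, |g n| := by
  have hg' : ∀ n, g n = g (n % m) := by
    intro n
    have h1 : ∀ k r, g (r + m * k) = g r := by
      intro k
      induction k with
      | zero => intro r; simp
      | succ k ih =>
        intro r
        rw [mul_add, mul_one, ← add_assoc, hg, ih]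
    conv_lhs => rw [← Nat.mod_add_div n m]
    exact h1 _ _
  have h1 : ∑ n ∈ Ioc X (2 * X), g n = ∑ r ∈ range m, g r *
      (((Ico (X + 1) (2 * X + 1)).filter (fun n => n ≡ r [MOD m])).card : ℝ) := by
    have h2 : ∀ n ∈ Ioc X (2 * X), g n = ∑ r ∈ range m, g r * (if n ≡ r [MOD m] then 1 else 0) := by
      intro n _
      rw [sum_eq_single (n % m)]
      · rw [if_pos (Nat.mod_modEq _ _).symm, mul_one, ← hg' n]
      · intro r hr hrn
        rw [if_neg, mul_zero]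
        intro h3
        have h4 : n % m = r % m := h3
        rw [Nat.mod_eq_of_lt (mem_range.1 hr)] at h4
        exact hrn h4.symm
      · intro h3
        exact absurd (mem_range.2 (Nat.mod_lt n hm)) h3
    rw [sum_congr rfl h2, sum_comm]
    apply sum_congr rfl
    intro r _
    rw [← mul_sum, card_filter]
    push_cast
    have e1 : Ioc X (2 * X) = Ico (X + 1) (2 * X + 1) := by
      ext n
      rw [mem_Ioc, mem_Ico]
      omega
    rw [e1]
  rw [h1, mul_sum, ← sum_sub_distrib]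
  refine (abs_sum_le_sum_abs _ _).trans (sum_le_sum ?_)
  intro r _
  have h4 := cnt_mod (X + 1) (2 * X + 1) m r (by omega) hm
  have h5 : (((2 * X + 1 : ℕ) : ℝ) - ((X + 1 : ℕ) : ℝ)) / (m : ℝ) = (X : ℝ) / m := by
    push_cast
    congr 1
    ring
  rw [h5] at h4
  have e3 : g r * (((Ico (X + 1) (2 * X + 1)).filter (fun n => n ≡ r [MOD m])).card : ℝ) - X / m * g r =
      g r * ((((Ico (X + 1) (2 * X + 1)).filter (fun n => n ≡ r [MOD m])).card : ℝ) - X / m) := by ring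
  rw [e3, abs_mul]
  calc |g r| * _ ≤ |g r| * 1 := mul_le_mul_of_nonneg_left h4 (abs_nonneg _)
    _ = |g r| := mul_one _

/-- transfer from the period to the dyadic interval -/
lemma transf (Q X D N : ℕ) (c : ℕ → ℕ → ℝ) (f : ℕ → ℝ) (F : ℝ) (hD : 0 < D) (hN : 0 < N)
    (hf : ∀ n, f (n + D) = f n) (hF : ∀ n, |f n| ≤ F) (hdN : ∀ d ∈ Icc 1 Q, d * D ∣ N) :
    |∑ n ∈ Ioc X (2 * X), wt Q c n * f n - X / N * ∑ n ∈ range N, wt Q c n * f n| ≤
      (∑ d ∈ Icc 1 Q, ss c d) * (D * F) := by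
  have h0 : ∀ s : Finset ℕ, ∑ n ∈ s, wt Q c n * f n = ∑ d ∈ Icc 1 Q, ∑ n ∈ s, c d (n % d) * f n := by
    intro s
    rw [sum_comm]
    apply sum_congr rfl
    intro n _
    unfold wt
    rw [sum_mul]
  rw [h0, h0, mul_sum, ← sum_sub_distrib, sum_mul]
  refine (abs_sum_le_sum_abs _ _).trans (sum_le_sum ?_)
  intro d hd
  have hd1 := (mem_Icc.1 hd).1
  have hm : 0 < d * D := Nat.mul_pos (by omega) hD
  obtain ⟨k, hk⟩ := hdN d hd
  have hfk : ∀ k r, f (r + D * k) = f r := by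
    intro k
    induction k with
    | zero => intro r; simp
    | succ k ih =>
      intro r
      rw [mul_add, mul_one, ← add_assoc, hf, ih]
  have hg : ∀ n, c d ((n + d * D) % d) * f (n + d * D) = c d (n % d) * f n := by
    intro n
    rw [Nat.add_mul_mod_self_left, mul_comm d D, hfk]
  have h1 := win_per (fun n => c d (n % d) * f n) X (d * D) hm hg
  have h2 : ∑ n ∈ range N, c d (n % d) * f n = k * ∑ n ∈ range (d * D), c d (n % d) * f n := by
    rw [hk]
    exact per_sum (G := fun n => c d (n % d) * f n) hg k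
  have hk0 : 0 < k := by
    rcases Nat.eq_zero_or_pos k with h | h
    · rw [h, mul_zero] at hk; omega
    · exact h
  have h3 : (X : ℝ) / N * ∑ n ∈ range N, c d (n % d) * f n =
      X / ((d * D : ℕ) : ℝ) * ∑ n ∈ range (d * D), c d (n % d) * f n := by
    rw [h2, hk]
    have a1 : (k : ℝ) ≠ 0 := by exact_mod_cast hk0.ne'
    have a2 : ((d * D : ℕ) : ℝ) ≠ 0 := by exact_mod_cast hm.ne'
    push_cast at a2 ⊢
    field_simp
  rw [h3]
  refine h1.trans ?_
  have h4 : ∀ n ∈ range (d * D), |c d (n % d) * f n| ≤ |c d (n % d)| * F := by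
    intro n _
    rw [abs_mul]
    exact mul_le_mul_of_nonneg_left (hF n) (abs_nonneg _)
  refine (sum_le_sum h4).trans ?_
  rw [← sum_mul]
  have h5 : ∑ n ∈ range (d * D), |c d (n % d)| = D * ss c d := by
    have := per_sum (G := fun n => |c d (n % d)|) (T := d) (by
      intro n
      show |c d ((n + d) % d)| = |c d (n % d)|
      rw [Nat.add_mod_right]) D
    rw [this]
    unfold ss
    congr 1
    apply sum_congr rfl
    intro n hn
    rw [Nat.mod_eq_of_lt (mem_range.1 hn)]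
  rw [h5]
  apply le_of_eq
  ring

end Pool.Agent.Y829.SA
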