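import Pool.Agent.Y829.SA4

/-! Primes `n - h` with `h` in a set of shifts, on average with respect to a sieve weight. -/

set_option autoImplicit false

namespace Pool.Agent.Y829.SA

open Finset Filter Topology Pool.Agent.Y829 Pool.Agent.Y829.RP Pool.Agent.Y829.RS
open H343E (pi1)

/-- the number of `h ∈ H` such that no prime of `P` divides `n - h` -/
noncomputable def Sv (H P : Finset ℕ) (n : ℕ) : ℝ := by
  classical exact ((H.filter (fun h => ∀ p ∈ P, ¬ p ∣ n - h)).card : ℝ)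

/-- the number of `h ∈ H` such that `n - h` is a prime -/
noncomputable def Pr (H : Finset ℕ) (n : ℕ) : ℝ := ((H.filter (fun h => (n - h).Prime)).card : ℝ)

lemma card_im (H : Finset ℕ) (T : ℕ) (hT : ∀ h ∈ H, h ≤ T) : Set.InjOn (fun h => T - h) (H : Set ℕ) := by
  intro a ha b hb hab
  have h1 := hT a (mem_coe.1 ha)
  have h2 := hT b (mem_coe.1 hb)
  have h3 : T - a = T - b := hab
  omega

lemma SH_im (H P : Finset ℕ) (T n : ℕ) (hT : ∀ h ∈ H, h ≤ T) (hn : ∀ h ∈ H, h ≤ n) (hP : ∀ p ∈ P, p ∣ T) :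
    SH (H.image (fun h => T - h)) P n = Sv H P n := by
  classical
  unfold SH Sv
  rw [filter_image, card_image_of_injOn]
  · refine congrArg Nat.cast (congrArg card ?_)
    apply filter_congr
    intro h hh
    have e1 : ∀ p ∈ P, ((n + (T - h)) % p ∉ ({0} : Finset ℕ) ↔ ¬ p ∣ n - h) := by
      intro p hp
      rw [mem_singleton, not_iff_not]
      have h1 : n + (T - h) = (n - h) + T := by
        have := hT h hh
        have := hn h hh
        omega
      rw [h1, ← Nat.dvd_iff_mod_eq_zero]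
      exact Nat.dvd_add_left (hP p hp)
    constructor
    · intro h1 p hp
      exact (e1 p hp).1 (h1 p hp)
    · intro h1 p hp
      exact (e1 p hp).2 (h1 p hp)
  · exact (card_im H T hT).mono (by
      intro x hx
      rw [mem_coe, mem_filter] at hx
      exact mem_coe.2 hx.1)

lemma hits_im (H : Finset ℕ) (T r p : ℕ) (hT : ∀ h ∈ H, h ≤ T) :
    (((H.image (fun h => T - h)).filter (fun h => (r + h) % p ∈ ({0} : Finset ℕ))).card) ≤
      (H.filter (fun h => h % p = (r + T) % p)).card := by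
  classical
  rw [filter_image]
  refine card_image_le.trans (card_le_card ?_)
  intro h hh
  rw [mem_filter] at hh ⊢
  refine ⟨hh.1, ?_⟩
  have h1 := hT h hh.1
  have h2 : (r + (T - h)) % p = 0 := mem_singleton.1 hh.2
  have h3 : h + (r + (T - h)) = r + T := by omega
  have h4 : p ∣ r + (T - h) := Nat.dvd_of_mod_eq_zero h2
  rw [← h3]
  obtain ⟨k, hk⟩ := h4
  rw [hk, Nat.add_mul_mod_self_left]

lemma mu_low (K : ℕ) : ∃ X0 : ℕ, ∀ X Q : ℕ, X0 ≤ X → 1 ≤ Q → (Q : ℝ) ^ 2 * Real.log X ^ K ≤ X →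
    ∀ c : ℕ → ℕ → ℝ, ∑ d ∈ Icc 1 Q, ss c d ^ 2 / d ≤ Real.log X ^ K →
    X / Real.log X ^ K ≤ ∑ n ∈ Ioc X (2 * X), wt Q c n → 1 / (2 * Real.log X ^ K) ≤ mu Q c := by
  have E := (log_tend.eventually_ge_atTop (1 : ℝ)).and ((evbig K).and (eventually_ge_atTop 3))
  obtain ⟨X2, hX2⟩ := E.exists_forall_of_atTop
  refine ⟨X2, ?_⟩
  intro X Q hX hQ hQX3 c hc hW
  obtain ⟨e1, e2, e3⟩ := hX2 X hX
  have hXr : (0 : ℝ) < X := by exact_mod_cast (by omega : 0 < X)
  have h1 := sum_dy Q X c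
  have h2 : ∑ d ∈ Icc 1 Q, ss c d ≤ X / (2 * Real.log X ^ K) := by
    apply abs_le_of_sq_le_sq' _ (by positivity) |>.2
    refine (sumss Q c).trans ?_
    have h3 : (∑ d ∈ Icc 1 Q, ss c d ^ 2 / (d : ℝ)) * (Q : ℝ) ^ 2 ≤ X := by
      have h4 := mul_le_mul_of_nonneg_right hc (sq_nonneg (Q : ℝ))
      linarith
    refine h3.trans ?_
    rw [div_pow, le_div_iff₀ (by positivity)]
    have h5 : (2 * Real.log X ^ K) ^ 2 = 4 * Real.log X ^ (2 * K) := by
      rw [mul_pow, ← pow_mul]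
      norm_num
      ring
    rw [h5, sq]
    exact mul_le_mul_of_nonneg_left e2 hXr.le
  have h3 := (abs_le.1 h1).2
  have h4 : (X : ℝ) / Real.log X ^ K - X / (2 * Real.log X ^ K) ≤ X * mu Q c := by linarith
  have h5 : (X : ℝ) / Real.log X ^ K - X / (2 * Real.log X ^ K) = X * (1 / (2 * Real.log X ^ K)) := by
    have : (0 : ℝ) < Real.log X ^ K := by positivity
    field_simp
    ring
  rw [h5] at h4
  exact le_of_mul_le_mul_left h4 hXr

lemma prod_le_exp (n : ℕ) : ((∏ p ∈ PQ n, p : ℕ) : ℝ) ≤ Real.exp (2 * n) := by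
  have h1 : ∏ p ∈ PQ n, p = primorial n := by
    unfold primorial PQ
    apply prod_congr _ fun _ _ => rfl
    ext p
    rw [mem_filter, mem_Icc, mem_filter, mem_range]
    constructor
    · rintro ⟨h1, h2⟩; exact ⟨by omega, h2⟩
    · rintro ⟨h1, h2⟩; exact ⟨⟨h2.one_lt.le, by omega⟩, h2⟩
  rw [h1]
  have h2 : (primorial n : ℝ) ≤ 4 ^ n := by exact_mod_cast primorial_le_four_pow n
  refine h2.trans ?_
  have h3 : (4 : ℝ) ≤ Real.exp 2 := by
    have h4 := RX.log4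
    rw [← Real.log_le_iff_le_exp (by norm_num)]
    exact h4
  calc (4 : ℝ) ^ n ≤ Real.exp 2 ^ n := pow_le_pow_left₀ (by norm_num) h3 n
    _ = Real.exp (2 * n) := by rw [← Real.exp_nat_mul]; congr 1; ring

lemma P0_eq (Q : ℕ) (y : ℝ) (hy : 0 ≤ y) (hyQ : ⌊y⌋₊ ≤ Q) : P0 Q y = PQ ⌊y⌋₊ := by
  ext p
  unfold P0
  rw [mem_filter, mem_PQ, mem_PQ, Nat.le_floor_iff hy]
  constructor
  · rintro ⟨⟨h1, _⟩, h3⟩; exact ⟨h1, h3⟩
  · rintro ⟨h1, h2⟩
    refine ⟨⟨h1, ?_⟩, h2⟩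
    exact ((Nat.le_floor_iff hy).2 h2).trans hyQ

lemma Sv_nonneg (H P : Finset ℕ) (n : ℕ) : 0 ≤ Sv H P n := by
  unfold Sv; exact Nat.cast_nonneg _

end Pool.Agent.Y829.SA
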