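import Pool.Agent.Y829.SA6

/-! Primes `n - h`: all levels, and the squares. -/

set_option autoImplicit false

namespace Pool.Agent.Y829.SA

open Finset Filter Topology Pool.Agent.Y829 Pool.Agent.Y829.RP Pool.Agent.Y829.RS

/-- the extension of the coefficients by zero -/
noncomputable def ext0 (Q : ℕ) (c : ℕ → ℕ → ℝ) (d a : ℕ) : ℝ := if d ≤ Q then c d a else 0

lemma ext_sum (Q Q' : ℕ) (hQ : Q ≤ Q') (F : ℕ → ℝ) :
    ∑ d ∈ Icc 1 Q', (if d ≤ Q then F d else 0) = ∑ d ∈ Icc 1 Q, F d := by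
  rw [← sum_filter]
  apply sum_congr _ fun _ _ => rfl
  ext d
  rw [mem_filter, mem_Icc, mem_Icc]
  constructor
  · rintro ⟨h1, h2⟩; exact ⟨h1.1, h2⟩
  · rintro ⟨h1, h2⟩; exact ⟨⟨h1, h2.trans hQ⟩, h2⟩

lemma wt_ext (Q Q' : ℕ) (hQ : Q ≤ Q') (c : ℕ → ℕ → ℝ) (n : ℕ) : wt Q' (ext0 Q c) n = wt Q c n := by
  unfold wt ext0
  exact ext_sum Q Q' hQ (fun d => c d (n % d))

lemma ss_ext (Q : ℕ) (c : ℕ → ℕ → ℝ) (d : ℕ) : ss (ext0 Q c) d = if d ≤ Q then ss c d else 0 := by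
  unfold ss ext0
  split_ifs with h
  · rfl
  · simp

theorem mainG (A A' : ℝ) (hA : 1 < A) (hAA : A ≤ A') (K b : ℕ) : ∃ B X0 : ℕ, ∀ X : ℕ, X0 ≤ X →
    ∀ (U Q : ℕ) (H : Finset ℕ), Real.log X ^ A ≤ U → (U : ℝ) ≤ Real.log X ^ A' → 1 ≤ Q →
    (Q : ℝ) ^ 2 * Real.log X ^ B ≤ X → H.card ≤ U →
    (∀ h ∈ H, (h : ℝ) ≤ Real.log X ^ A') →
    (∀ p : ℕ, p.Prime → Real.log (Real.log X) ^ 5 < p → ∀ r : ℕ,
      ((H.filter (fun h => h % p = r)).card : ℝ) ≤ 2 * (U / p + 1)) →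
    ∀ c : ℕ → ℕ → ℝ, (∀ n, 0 ≤ wt Q c n) → ∑ d ∈ Icc 1 Q, ss c d ^ 2 / d ≤ Real.log X ^ K →
    X / Real.log X ^ K ≤ ∑ n ∈ Ioc X (2 * X), wt Q c n →
    (∀ n, (∀ h ∈ H, h ≤ n) → Sv H (PQ ⌊Real.log (Real.log X) ^ 5⌋₊) n = 0 ∨
      U / Real.log (Real.log X) ^ 2 ≤ Sv H (PQ ⌊Real.log (Real.log X) ^ 5⌋₊) n) →
    (∀ n, (∀ h ∈ H, h ≤ n) → wt Q c n = 0 ∨
      U / Real.log (Real.log X) ^ 2 ≤ Sv H (PQ ⌊Real.log (Real.log X) ^ 5⌋₊) n) →
    |∑ n ∈ Ioc X (2 * X), wt Q c n * Pr H n - 1 / (V (PQ ⌊Real.log (Real.log X) ^ 5⌋₊) * Real.log X) *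
      ∑ n ∈ Ioc X (2 * X), wt Q c n * Sv H (PQ ⌊Real.log (Real.log X) ^ 5⌋₊) n| ≤
    (1 / 2 : ℝ) ^ b * (1 / (V (PQ ⌊Real.log (Real.log X) ^ 5⌋₊) * Real.log X) *
      ∑ n ∈ Ioc X (2 * X), wt Q c n * Sv H (PQ ⌊Real.log (Real.log X) ^ 5⌋₊) n) := by
  obtain ⟨B, X0, hm⟩ := mainG0 A A' hA hAA K b
  have E := ((evB ((B : ℝ) + 10) 1 one_pos).and (evl 1 1 0 one_pos)).and
    ((ll_tend.eventually_ge_atTop (1 : ℝ)).and ((log_tend.eventually_ge_atTop (1 : ℝ)).and (eventually_ge_atTop 3)))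
  obtain ⟨X4, hX4⟩ := E.exists_forall_of_atTop
  refine ⟨B, max X0 X4, ?_⟩
  intro X hX U Q H hU hU' hQ hQX hHU hHA hits c hw hc hW hlow1 hlow2
  obtain ⟨⟨ev1, ev2⟩, ev3, ev4, ev5⟩ := hX4 X ((le_max_right _ _).trans hX)
  obtain ⟨Q', hQ'⟩ : ∃ Q', Q' = max Q ⌊Real.log (Real.log X) ^ 5⌋₊ := ⟨_, rfl⟩
  have hQQ' : Q ≤ Q' := by rw [hQ']; exact le_max_left _ _
  have hyQ' : ⌊Real.log (Real.log X) ^ 5⌋₊ ≤ Q' := by rw [hQ']; exact le_max_right _ _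
  have hwe : ∀ n, wt Q' (ext0 Q c) n = wt Q c n := wt_ext Q Q' hQQ' c
  have hse : ∑ d ∈ Icc 1 Q', ss (ext0 Q c) d ^ 2 / d = ∑ d ∈ Icc 1 Q, ss c d ^ 2 / d := by
    rw [← ext_sum Q Q' hQQ']
    apply sum_congr rfl
    intro d _
    rw [ss_ext]
    split_ifs
    · rfl
    · simp
  have hQX' : (Q' : ℝ) ^ 2 * Real.log X ^ B ≤ X := by
    rcases le_total Q ⌊Real.log (Real.log X) ^ 5⌋₊ with h | h
    · rw [hQ', max_eq_right h]
      have hL0 : (0 : ℝ) < Real.log X := lt_of_lt_of_le one_pos ev4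
      have hll0 : (0 : ℝ) < Real.log (Real.log X) := lt_of_lt_of_le one_pos ev3
      have h1 : (⌊Real.log (Real.log X) ^ 5⌋₊ : ℝ) ≤ Real.log (Real.log X) ^ 5 := Nat.floor_le (by positivity)
      have h2 : Real.log (Real.log X) ≤ Real.log X := by
        rw [Real.rpow_one, one_mul, add_zero] at ev2
        exact ev2
      have h3 : (⌊Real.log (Real.log X) ^ 5⌋₊ : ℝ) ^ 2 ≤ Real.log X ^ 10 := by
        calc (⌊Real.log (Real.log X) ^ 5⌋₊ : ℝ) ^ 2 ≤ (Real.log (Real.log X) ^ 5) ^ 2 :=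
              pow_le_pow_left₀ (Nat.cast_nonneg _) h1 2
          _ = Real.log (Real.log X) ^ 10 := by ring
          _ ≤ Real.log X ^ 10 := pow_le_pow_left₀ hll0.le h2 10
      have h4 : Real.log X ^ ((B : ℝ) + 10) = Real.log X ^ 10 * Real.log X ^ B := by
        rw [show ((B : ℝ) + 10) = ((10 + B : ℕ) : ℝ) by push_cast; ring, Real.rpow_natCast, pow_add]
      rw [h4] at ev1
      have h5 := mul_le_mul_of_nonneg_right h3 (show 0 ≤ Real.log X ^ B by positivity)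
      have h6 : 0 ≤ Real.log X ^ 10 * Real.log X ^ B := by positivity
      have h7 : Real.log X ^ 10 * Real.log X ^ B ≤ Real.log X ^ 10 * Real.log X ^ B * Real.log X :=
        le_mul_of_one_le_right h6 ev4
      have h8 : 0 ≤ Real.log X ^ 10 * Real.log X ^ B * Real.log X := mul_nonneg h6 hL0.le
      rw [one_mul] at ev1
      exact h5.trans (h7.trans (le_trans (by linarith) ev1))
    · rw [hQ', max_eq_left h]
      exact hQX
  have := hm X ((le_max_left _ _).trans hX) U Q' H hU hU' (hQ.trans hQQ') hyQ' hQX' hHU hHA hits (ext0 Q c)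
    (fun n => by rw [hwe]; exact hw n) (by rw [hse]; exact hc)
    (by rw [sum_congr rfl fun n _ => hwe n]; exact hW) hlow1 (fun n hn => by rw [hwe]; exact hlow2 n hn)
  simp only [hwe] at this
  exact this

/-- the classes of the square roots of `n` -/
noncomputable def rt (n p : ℕ) : Finset ℕ := (range p).filter (fun r => r ^ 2 % p = n % p)

lemma rt_card (n p : ℕ) (hp : p.Prime) (h2 : p ≠ 2) : ((rt n p).card : ℤ) = jacobiSym n p + 1 := by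
  have : Fact p.Prime := ⟨hp⟩
  rw [← jacobiSym.legendreSym.to_jacobiSym p (n : ℤ)]
  rw [← legendreSym.card_sqrts p h2 (n : ℤ)]
  congr 1
  unfold rt
  apply card_bij (fun (r : ℕ) _ => ((r : ℕ) : ZMod p))
  · intro r hr
    rw [mem_filter, mem_range] at hr
    rw [Set.mem_toFinset, Set.mem_setOf_eq]
    have h1 := (ZMod.natCast_eq_natCast_iff (r ^ 2) n p).2 hr.2
    push_cast at h1 ⊢
    exact h1
  · intro a ha b hb hab
    rw [mem_filter, mem_range] at ha hb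
    have h1 : a % p = b % p := (ZMod.natCast_eq_natCast_iff a b p).1 hab
    rwa [Nat.mod_eq_of_lt ha.1, Nat.mod_eq_of_lt hb.1] at h1
  · intro x hx
    rw [Set.mem_toFinset, Set.mem_setOf_eq] at hx
    refine ⟨x.val, ?_, ZMod.natCast_zmod_val x⟩
    rw [mem_filter, mem_range]
    refine ⟨ZMod.val_lt x, ?_⟩
    apply (ZMod.natCast_eq_natCast_iff (x.val ^ 2) n p).1
    push_cast
    rw [ZMod.natCast_zmod_val]
    push_cast at hx
    exact hx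

lemma rt_card_two (n : ℕ) : (rt n 2).card = 1 := by
  unfold rt
  rcases Nat.mod_two_eq_zero_or_one n with h | h
  · rw [h]; decide
  · rw [h]; decide

lemma rt_le (n p : ℕ) (hp : p.Prime) : (rt n p).card ≤ 2 ∧ (rt n p).card < p := by
  by_cases h2 : p = 2
  · rw [h2, rt_card_two]; omega
  · have h1 := rt_card n p hp h2
    have h3 : jacobiSym (n : ℤ) p ≤ 1 := by
      rcases jacobiSym.trichotomy (n : ℤ) p with h | h | h <;> rw [h] <;> norm_num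
    have h4 := hp.two_le
    omega

end Pool.Agent.Y829.SA
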