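import Pool.Agent.Y829.SA7

/-! Primes `n - m²`, on average with respect to a sieve weight. -/

set_option autoImplicit false

namespace Pool.Agent.Y829.SA

open Finset Filter Topology Pool.Agent.Y829 Pool.Agent.Y829.RP Pool.Agent.Y829.RS

/-- the squares of `1, ..., M` -/
def sqH (M : ℕ) : Finset ℕ := (Icc 1 M).image (fun m => m ^ 2)

lemma sq_inj (M : ℕ) : Set.InjOn (fun m : ℕ => m ^ 2) ((Icc 1 M : Finset ℕ) : Set ℕ) := by
  intro a _ b _ hab
  have h : a ^ 2 = b ^ 2 := hab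
  exact Nat.pow_left_injective (n := 2) (by norm_num) h

lemma sqH_card (M : ℕ) : (sqH M).card = M := by
  unfold sqH
  rw [card_image_of_injOn (sq_inj M), Nat.card_Icc]
  omega

lemma sq_filter (M : ℕ) (R : ℕ → Prop) [DecidablePred R] :
    ((sqH M).filter R).card = ((Icc 1 M).filter (fun m => R (m ^ 2))).card := by
  unfold sqH
  rw [filter_image, card_image_of_injOn]
  exact (sq_inj M).mono (by
    intro x hx
    rw [mem_coe, mem_filter] at hx
    exact mem_coe.2 hx.1)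

lemma sq_hits (M p r : ℕ) (hp : p.Prime) :
    (((sqH M).filter (fun h => h % p = r)).card : ℝ) ≤ 2 * ((M : ℝ) / p + 1) := by
  rw [sq_filter]
  by_cases hr : r < p
  · have h1 := cntO p 0 M hp.pos (rt r p) (filter_subset _ _) 2 (rt_le r p hp).1
    refine le_trans ?_ h1
    have h2 : (Icc 1 M).filter (fun m => m ^ 2 % p = r) ⊆ (Icc 1 M).filter (fun h => (0 + h) % p ∈ rt r p) := by
      intro m hm
      rw [mem_filter] at hm ⊢
      refine ⟨hm.1, ?_⟩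
      unfold rt
      rw [mem_filter, mem_range, zero_add]
      refine ⟨Nat.mod_lt _ hp.pos, ?_⟩
      rw [← Nat.pow_mod, hm.2, Nat.mod_eq_of_lt hr]
    exact_mod_cast card_le_card h2
  · have h2 : (Icc 1 M).filter (fun m => m ^ 2 % p = r) = ∅ := by
      rw [filter_eq_empty_iff]
      intro m _ h
      have := Nat.mod_lt (m ^ 2) hp.pos
      omega
    rw [h2, card_empty]
    push_cast
    positivity

lemma sq_Sv (M n : ℕ) (P : Finset ℕ) (hP : ∀ p ∈ P, p.Prime) (hn : M ^ 2 ≤ n) :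
    Sv (sqH M) P n = (((Icc 1 M).filter (fun h => ∀ p ∈ P, (0 + h) % p ∉ rt n p)).card : ℝ) := by
  classical
  unfold Sv
  rw [sq_filter]
  refine congrArg Nat.cast (congrArg card ?_)
  apply filter_congr
  intro m hm
  have hmM : m ^ 2 ≤ n := (Nat.pow_le_pow_left (mem_Icc.1 hm).2 2).trans hn
  have e1 : ∀ p ∈ P, (¬ p ∣ n - m ^ 2 ↔ (0 + m) % p ∉ rt n p) := by
    intro p hp
    rw [not_iff_not]
    unfold rt
    rw [mem_filter, mem_range, zero_add, ← Nat.pow_mod]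
    have h1 : p ∣ n - m ^ 2 ↔ m ^ 2 ≡ n [MOD p] := (Nat.modEq_iff_dvd' hmM).symm
    rw [h1]
    constructor
    · intro h2
      exact ⟨Nat.mod_lt _ (hP p hp).pos, h2⟩
    · rintro ⟨_, h2⟩
      exact h2
  constructor
  · intro h1 p hp
    exact (e1 p hp).1 (h1 p hp)
  · intro h1 p hp
    exact (e1 p hp).2 (h1 p hp)

/-- the local factor -/
noncomputable def sing (k n : ℕ) : ℝ := ∏ p ∈ (Icc 3 k).filter Nat.Prime, (1 - (jacobiSym n p : ℝ) / (p - 1))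

lemma VO_sing (k n : ℕ) (hk : 2 ≤ k) : VO (fun p => rt n p) (PQ k) = V (PQ k) * sing k n := by
  have h1 : PQ k = insert 2 ((Icc 3 k).filter Nat.Prime) := by
    ext p
    rw [mem_PQ, mem_insert, mem_filter, mem_Icc]
    constructor
    · rintro ⟨h1, h2⟩
      by_cases h3 : p = 2
      · exact Or.inl h3
      · have := h1.two_le
        exact Or.inr ⟨⟨by omega, h2⟩, h1⟩
    · rintro (h | ⟨h1, h2⟩)
      · rw [h]; exact ⟨Nat.prime_two, hk⟩
      · exact ⟨h2, h1.2⟩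
  have h2 : 2 ∉ (Icc 3 k).filter Nat.Prime := by
    rw [mem_filter, mem_Icc]
    omega
  unfold VO V sing
  rw [h1, prod_insert h2, prod_insert h2, rt_card_two, mul_assoc, ← prod_mul_distrib]
  congr 1
  · norm_num
  · apply prod_congr rfl
    intro p hp
    rw [mem_filter, mem_Icc] at hp
    have h3 := rt_card n p hp.2 (by omega)
    have h4 : (((rt n p).card : ℕ) : ℝ) = (jacobiSym n p : ℝ) + 1 := by exact_mod_cast h3
    rw [h4]
    have h5 : (3 : ℝ) ≤ p := by exact_mod_cast hp.1.1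
    have h6 : (p : ℝ) ≠ 0 := by linarith
    have h7 : (p : ℝ) - 1 ≠ 0 := by linarith
    field_simp
    ring

lemma ev6 (C : ℝ) (hC : 0 < C) : ∀ᶠ X : ℕ in atTop,
    (Real.log (Real.log (Real.log X) ^ 5)) ^ 6 * C ≤ Real.log (Real.log X) ^ 2 := by
  have h1 : ∀ᶠ t : ℝ in atTop, (Real.log (t ^ 5)) ^ 6 * C ≤ t ^ 2 := by
    obtain ⟨e, he⟩ : ∃ e : ℝ, e = (1 / C) / (5 ^ 6) := ⟨_, rfl⟩
    have he0 : 0 < e := by rw [he]; positivity
    have h2 := (isLittleO_log_rpow_atTop (show (0 : ℝ) < 1 / 3 by norm_num)).def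
      (show (0 : ℝ) < min e 1 by positivity)
    filter_upwards [h2, eventually_ge_atTop (1 : ℝ)] with t h3 h4
    have h5 : 0 ≤ Real.log t := Real.log_nonneg h4
    rw [Real.norm_of_nonneg h5, Real.norm_of_nonneg (by positivity)] at h3
    have h6 : Real.log t ^ 6 ≤ (min e 1 * t ^ (1 / 3 : ℝ)) ^ 6 := pow_le_pow_left₀ h5 h3 6
    have h7 : (t ^ (1 / 3 : ℝ)) ^ 6 = t ^ 2 := by
      rw [← Real.rpow_natCast, ← Real.rpow_mul (by linarith)]
      norm_num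
    rw [mul_pow, h7] at h6
    have h8 : (min e 1) ^ 6 ≤ e := by
      have h9 : 0 ≤ min e 1 := by positivity
      have h10 : min e 1 ≤ 1 := min_le_right _ _
      calc (min e 1) ^ 6 ≤ (min e 1) ^ 1 := pow_le_pow_of_le_one h9 h10 (by norm_num)
        _ = min e 1 := pow_one _
        _ ≤ e := min_le_left _ _
    rw [Real.log_pow, mul_pow]
    have h11 : Real.log t ^ 6 ≤ e * t ^ 2 := h6.trans (mul_le_mul_of_nonneg_right h8 (by positivity))
    have h12 : e * (5 ^ 6 * C) = 1 := by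
      rw [he]
      field_simp
    calc ((5 : ℕ) : ℝ) ^ 6 * Real.log t ^ 6 * C = (5 ^ 6 * C) * Real.log t ^ 6 := by push_cast; ring
      _ ≤ (5 ^ 6 * C) * (e * t ^ 2) := mul_le_mul_of_nonneg_left h11 (by positivity)
      _ = (e * (5 ^ 6 * C)) * t ^ 2 := by ring
      _ = t ^ 2 := by rw [h12, one_mul]
  exact ll_tend.eventually h1

/-- the survivors -/
theorem sq_surv (A : ℝ) (hA : 1 ≤ A) (b : ℕ) : ∃ X0 : ℕ, ∀ X : ℕ, X0 ≤ X → ∀ M : ℕ, Real.log X ^ A ≤ M →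
    ∀ n : ℕ, M ^ 2 ≤ n →
    |Sv (sqH M) (PQ ⌊Real.log (Real.log X) ^ 5⌋₊) n - M * VO (fun p => rt n p) (PQ ⌊Real.log (Real.log X) ^ 5⌋₊)| ≤
      (1 / 2 : ℝ) ^ b * (M * VO (fun p => rt n p) (PQ ⌊Real.log (Real.log X) ^ 5⌋₊)) ∧
    M / Real.log (Real.log X) ^ 2 ≤ Sv (sqH M) (PQ ⌊Real.log (Real.log X) ^ 5⌋₊) n := by
  obtain ⟨C, hC, hs⟩ := small 2
  obtain ⟨U0, hU0⟩ := hs (max (b + 1) C) (le_max_right _ _)
  obtain ⟨b', hb'⟩ : ∃ b', b' = max (b + 1) C := ⟨_, rfl⟩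
  rw [← hb'] at hU0
  have hb'1 : b + 1 ≤ b' := by rw [hb']; exact le_max_left _ _
  have hb'0 : 1 ≤ b' := by omega
  obtain ⟨cm, hcm, hmert⟩ := mert
  obtain ⟨C2, hC2⟩ : ∃ C2 : ℝ, C2 = 2 * (6 / cm) ^ 6 := ⟨_, rfl⟩
  have hC20 : 0 < C2 := by rw [hC2]; positivity
  have hCb : 0 < 1 / (5 * ((C : ℝ) * b')) := by
    have h1 : (0 : ℝ) < C := by exact_mod_cast hC
    have h2 : (0 : ℝ) < b' := by exact_mod_cast hb'0
    positivity
  have E := ((evl (1 / (5 * ((C : ℝ) * b'))) 1 0 hCb).and (ev6 C2 hC20)).and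
    ((ll_tend.eventually_ge_atTop (2 : ℝ)).and ((log_tend.eventually_ge_atTop (max 1 (U0 : ℝ))).and (eventually_ge_atTop 3)))
  obtain ⟨X0, hX0⟩ := E.exists_forall_of_atTop
  refine ⟨X0, ?_⟩
  intro X hX M hM n hn
  obtain ⟨⟨e1, e2⟩, e3, e4, e5⟩ := hX0 X hX
  obtain ⟨L, hL⟩ : ∃ L : ℝ, L = Real.log X := ⟨_, rfl⟩
  obtain ⟨ll, hll⟩ : ∃ ll : ℝ, ll = Real.log (Real.log X) := ⟨_, rfl⟩
  rw [← hll] at e1 e2 e3 ⊢
  rw [← hL] at e1 e4 hM
  have hL1 : 1 ≤ L := (le_max_left _ _).trans e4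
  have hLU : (U0 : ℝ) ≤ L := (le_max_right _ _).trans e4
  have hLA : L ≤ L ^ A := by
    calc L = L ^ (1 : ℝ) := (Real.rpow_one _).symm
      _ ≤ _ := Real.rpow_le_rpow_of_exponent_le hL1 hA
  have hML : L ≤ M := hLA.trans hM
  have hMU : U0 ≤ M := by
    have : (U0 : ℝ) ≤ M := hLU.trans hML
    exact_mod_cast this
  have hM1 : (1 : ℝ) ≤ M := hL1.trans hML
  have hll0 : 0 < ll := by linarith
  obtain ⟨y, hy⟩ : ∃ y : ℝ, y = ll ^ 5 := ⟨_, rfl⟩
  rw [← hy] at e2 ⊢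
  have hy32 : 32 ≤ y := by
    rw [hy]
    calc (32 : ℝ) = 2 ^ 5 := by norm_num
      _ ≤ ll ^ 5 := pow_le_pow_left₀ (by norm_num) e3 5
  have hy0 : 0 ≤ y := by linarith
  have hP : ∀ p ∈ PQ ⌊y⌋₊, p.Prime := fun p hp => (mem_PQ.1 hp).1
  have hyM : y ≤ (M : ℝ) ^ (1 / ((C : ℝ) * b')) := by
    have h1 : y ≤ L ^ (1 / ((C : ℝ) * b')) := by
      have h2 : ll ≤ L ^ (1 / (5 * ((C : ℝ) * b'))) := by linarith
      have h3 : ll ^ 5 ≤ (L ^ (1 / (5 * ((C : ℝ) * b')))) ^ 5 := pow_le_pow_left₀ hll0.le h2 5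
      have h4 : (L ^ (1 / (5 * ((C : ℝ) * b')))) ^ 5 = L ^ (1 / ((C : ℝ) * b')) := by
        rw [← Real.rpow_natCast, ← Real.rpow_mul (by linarith)]
        congr 1
        have h5 : ((C : ℝ) * b') ≠ 0 := by
          have h1 : (0 : ℝ) < C := by exact_mod_cast hC
          have h2 : (0 : ℝ) < b' := by exact_mod_cast hb'0
          positivity
        push_cast
        field_simp
      rw [hy]
      linarith
    refine h1.trans ?_
    apply Real.rpow_le_rpow (by linarith) hML (by positivity)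
  have h1 := hU0 M hMU (PQ ⌊y⌋₊) (fun p => rt n p) (by
    intro p hp
    refine ⟨hP p hp, ?_⟩
    have h2 : (p : ℝ) ≤ y := (Nat.le_floor_iff hy0).1 (mem_PQ.1 hp).2
    exact h2.trans hyM) (by
    intro p hp
    exact ⟨filter_subset _ _, (rt_le n p (hP p hp)).1, (rt_le n p (hP p hp)).2⟩) 0
  rw [← sq_Sv M n (PQ ⌊y⌋₊) hP hn] at h1
  obtain ⟨S, hS⟩ : ∃ S, S = Sv (sqH M) (PQ ⌊y⌋₊) n := ⟨_, rfl⟩
  obtain ⟨W, hW⟩ : ∃ W, W = VO (fun p => rt n p) (PQ ⌊y⌋₊) := ⟨_, rfl⟩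
  rw [← hS, ← hW] at h1
  rw [← hS, ← hW]
  have hW0 : 0 < W := by rw [hW]; exact VO_pos hP fun p hp => (rt_le n p (hP p hp)).2
  have hMW : 0 < M * W := by positivity
  have hpw : (1 / 2 : ℝ) ^ b' ≤ (1 / 2) ^ (b + 1) := pow_le_pow_of_le_one (by norm_num) (by norm_num) hb'1
  have hpw2 : (1 / 2 : ℝ) ^ (b + 1) ≤ (1 / 2) ^ b := pow_le_pow_of_le_one (by norm_num) (by norm_num) (by omega)
  have hpw3 : (1 / 2 : ℝ) ^ (b + 1) ≤ 1 / 2 := by
    calc (1 / 2 : ℝ) ^ (b + 1) ≤ (1 / 2) ^ 1 := pow_le_pow_of_le_one (by norm_num) (by norm_num) (by omega)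
      _ = 1 / 2 := pow_one _
  refine ⟨h1.trans (mul_le_mul_of_nonneg_right (hpw.trans hpw2) hMW.le), ?_⟩
  have h2 : M * W / 2 ≤ S := by
    have h3 := (abs_le.1 h1).1
    have h4 := mul_le_mul_of_nonneg_right (hpw.trans hpw3) hMW.le
    linarith
  refine le_trans ?_ h2
  -- the lower bound for the product
  have hfl : 2 ≤ ⌊y⌋₊ := Nat.le_floor (by push_cast; linarith)
  have h3 : (cm / Real.log y) ≤ V (PQ ⌊y⌋₊) := by
    have h4 := hmert ⌊y⌋₊ hfl (PQ ⌊y⌋₊) (fun p hp => mem_PQ.1 hp)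
    refine le_trans ?_ h4
    apply div_le_div_of_nonneg_left hcm.le
    · exact Real.log_pos (by exact_mod_cast (by omega : 1 < ⌊y⌋₊))
    · apply Real.log_le_log
      · exact_mod_cast (by omega : 0 < ⌊y⌋₊)
      · exact Nat.floor_le hy0
  have hlogy : 0 < Real.log y := Real.log_pos (by linarith)
  have h4 := VO_ge (Om := fun p => rt n p) (P := PQ ⌊y⌋₊) (κ := 2) hP (fun p hp => (rt_le n p (hP p hp)).2)
    (fun p hp => (rt_le n p (hP p hp)).1)
  rw [← hW] at h4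
  norm_num at h4
  have h5 : (1 / 6 * (cm / Real.log y)) ^ 6 ≤ W := by
    refine le_trans ?_ h4
    rw [mul_pow]
    have : (cm / Real.log y) ^ 6 ≤ V (PQ ⌊y⌋₊) ^ 6 := pow_le_pow_left₀ (by positivity) h3 6
    have h6 := mul_le_mul_of_nonneg_left this (show (0 : ℝ) ≤ (1 / 6) ^ 6 by positivity)
    norm_num at h6 ⊢
    exact h6
  have h6 : 1 / ll ^ 2 ≤ W / 2 := by
    have h7 : 1 / ll ^ 2 ≤ (1 / 6 * (cm / Real.log y)) ^ 6 / 2 := by
      rw [div_le_iff₀ (by positivity)]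
      have h8 : (1 / 6 * (cm / Real.log y)) ^ 6 / 2 = 1 / (Real.log y ^ 6 * C2) := by
        rw [hC2]
        field_simp
      rw [h8, one_div_mul_eq_div, le_div_iff₀ (by positivity), one_mul]
      exact e2
    linarith
  calc (M : ℝ) / ll ^ 2 = M * (1 / ll ^ 2) := by ring
    _ ≤ M * (W / 2) := mul_le_mul_of_nonneg_left h6 (by positivity)
    _ = M * W / 2 := by ring

end Pool.Agent.Y829.SA
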