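import Pool.Agent.Y829.SA8

/-! Primes `n - m²`, on average with respect to a sieve weight: the theorem. -/

set_option autoImplicit false

namespace Pool.Agent.Y829.SA

open Finset Filter Topology Pool.Agent.Y829 Pool.Agent.Y829.RP Pool.Agent.Y829.RS

lemma sq_Pr (M n : ℕ) : Pr (sqH M) n = (((Icc 1 M).filter (fun m => (n - m ^ 2).Prime)).card : ℝ) := by
  unfold Pr
  rw [sq_filter]

theorem squares (A A' : ℝ) (hA : 1 < A) (hAA : A ≤ A') (K b : ℕ) : ∃ B X0 : ℕ, ∀ X : ℕ, X0 ≤ X →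
    ∀ M Q : ℕ, Real.log X ^ A ≤ M → (M : ℝ) ≤ Real.log X ^ A' → 1 ≤ Q → (Q : ℝ) ^ 2 * Real.log X ^ B ≤ X →
    ∀ c : ℕ → ℕ → ℝ, (∀ n, 0 ≤ wt Q c n) → ∑ d ∈ Icc 1 Q, ss c d ^ 2 / d ≤ Real.log X ^ K →
    X / Real.log X ^ K ≤ ∑ n ∈ Ioc X (2 * X), wt Q c n →
    |∑ n ∈ Ioc X (2 * X), wt Q c n * (((Icc 1 M).filter (fun m => (n - m ^ 2).Prime)).card : ℝ) -
      M / Real.log X * ∑ n ∈ Ioc X (2 * X), wt Q c n * sing ⌊Real.log (Real.log X) ^ 5⌋₊ n| ≤
    (1 / 2 : ℝ) ^ b * (M / Real.log X * ∑ n ∈ Ioc X (2 * X), wt Q c n * sing ⌊Real.log (Real.log X) ^ 5⌋₊ n) := by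
  obtain ⟨δ, hδ⟩ : ∃ δ : ℝ, δ = (1 / 2 : ℝ) ^ (b + 2) := ⟨_, rfl⟩
  have hδ0 : 0 < δ := by rw [hδ]; positivity
  have hδb : (1 / 2 : ℝ) ^ b = 4 * δ := by rw [hδ, pow_add]; norm_num; ring
  have hδ1 : δ ≤ 1 := by rw [hδ]; exact pow_le_one₀ (by norm_num) (by norm_num)
  obtain ⟨B, X1, h1⟩ := mainG A (2 * A') hA (by linarith) K (b + 2)
  obtain ⟨X2, h2⟩ := sq_surv A hA.le (b + 2)
  have E := ((evB (2 * A') 1 one_pos).and (ll_tend.eventually_ge_atTop (2 : ℝ))).and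
    (log_tend.eventually_ge_atTop (1 : ℝ))
  obtain ⟨X3, h3⟩ := E.exists_forall_of_atTop
  refine ⟨B, max (max X1 X2) X3, ?_⟩
  intro X hX M Q hM hM' hQ hQX c hw hc hW
  obtain ⟨⟨e1, e2⟩, e3⟩ := h3 X ((le_max_right _ _).trans hX)
  have hX1 : X1 ≤ X := (le_max_left _ _).trans ((le_max_left _ _).trans hX)
  have hX2 : X2 ≤ X := (le_max_right _ _).trans ((le_max_left _ _).trans hX)
  have hs := h2 X hX2 M hM
  have hL0 : 0 < Real.log X := lt_of_lt_of_le one_pos e3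
  have hM2 : ((M : ℝ)) ^ 2 ≤ Real.log X ^ (2 * A') := by
    calc (M : ℝ) ^ 2 ≤ (Real.log X ^ A') ^ 2 := pow_le_pow_left₀ (Nat.cast_nonneg _) hM' 2
      _ = Real.log X ^ (2 * A') := by
          rw [← Real.rpow_natCast, ← Real.rpow_mul hL0.le]
          congr 1
          push_cast
          ring
  have hMM' : (M : ℝ) ≤ Real.log X ^ (2 * A') := by
    refine hM'.trans ?_
    apply Real.rpow_le_rpow_of_exponent_le e3
    linarith
  have hsq : ∀ h ∈ sqH M, h ≤ M ^ 2 := by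
    intro h hh
    unfold sqH at hh
    rw [mem_image] at hh
    obtain ⟨m, hm, rfl⟩ := hh
    exact Nat.pow_le_pow_left (mem_Icc.1 hm).2 2
  have hlow : ∀ n, (∀ h ∈ sqH M, h ≤ n) →
      M / Real.log (Real.log X) ^ 2 ≤ Sv (sqH M) (PQ ⌊Real.log (Real.log X) ^ 5⌋₊) n := by
    intro n hn
    rcases Nat.eq_zero_or_pos M with h | h
    · rw [h]
      have := Sv_nonneg (sqH 0) (PQ ⌊Real.log (Real.log X) ^ 5⌋₊) n
      simpa using this
    · apply (hs n _).2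
      apply hn
      unfold sqH
      rw [mem_image]
      exact ⟨M, mem_Icc.2 ⟨h, le_rfl⟩, rfl⟩
  have hm := h1 X hX1 M Q (sqH M) hM hMM' hQ hQX (le_of_eq (sqH_card M)) (by
    intro h hh
    refine le_trans ?_ hM2
    exact_mod_cast hsq h hh) (fun p hp _ r => sq_hits M p r hp) c hw hc hW
    (fun n hn => Or.inr (hlow n hn)) (fun n hn => Or.inr (hlow n hn))
  obtain ⟨k, hk⟩ : ∃ k, k = ⌊Real.log (Real.log X) ^ 5⌋₊ := ⟨_, rfl⟩
  rw [← hk] at hm ⊢
  have hk2 : 2 ≤ k := by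
    rw [hk]
    apply Nat.le_floor
    push_cast
    calc (2 : ℝ) ≤ 2 ^ 5 := by norm_num
      _ ≤ Real.log (Real.log X) ^ 5 := pow_le_pow_left₀ (by norm_num) e2 5
  have hV0 : 0 < V (PQ k) := V_pos fun p hp => (mem_PQ.1 hp).1
  simp only [sq_Pr] at hm
  obtain ⟨L, hL⟩ : ∃ L : ℝ, L = Real.log X := ⟨_, rfl⟩
  rw [← hL] at hm hL0 hM2 ⊢
  obtain ⟨T, hT⟩ : ∃ T, T = M / L * ∑ n ∈ Ioc X (2 * X), wt Q c n * sing k n := ⟨_, rfl⟩
  obtain ⟨R, hR⟩ : ∃ R, R = 1 / (V (PQ k) * L) * ∑ n ∈ Ioc X (2 * X), wt Q c n * Sv (sqH M) (PQ k) n := ⟨_, rfl⟩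
  rw [← hT]
  rw [← hR, ← hδ] at hm
  -- the survivors
  have hMX : (M : ℝ) ^ 2 ≤ X := by
    refine hM2.trans ?_
    rw [← hL] at e1 e3
    have h4 : L ^ (2 * A') ≤ L ^ (2 * A') * L := le_mul_of_one_le_right (by positivity) e3
    have h5 : 0 ≤ L ^ (2 * A') * L := by positivity
    linarith
  have hMX' : M ^ 2 ≤ X := by exact_mod_cast hMX
  have hsing : ∀ n, 0 < sing k n := by
    intro n
    have h4 := VO_sing k n hk2
    have h5 : 0 < VO (fun p => rt n p) (PQ k) := VO_pos (fun p hp => (mem_PQ.1 hp).1)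
      (fun p hp => (rt_le n p (mem_PQ.1 hp).1).2)
    rw [h4] at h5
    exact pos_of_mul_pos_right h5 hV0.le
  have hRT : |R - T| ≤ δ * T := by
    have h4 : R - T = 1 / (V (PQ k) * L) * ∑ n ∈ Ioc X (2 * X), wt Q c n *
        (Sv (sqH M) (PQ k) n - M * VO (fun p => rt n p) (PQ k)) := by
      rw [hR, hT]
      simp only [mul_sub]
      rw [sum_sub_distrib, mul_sub]
      congr 1
      have h5 : ∀ n ∈ Ioc X (2 * X), wt Q c n * (M * VO (fun p => rt n p) (PQ k)) =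
          (M * V (PQ k)) * (wt Q c n * sing k n) := by
        intro n _
        rw [VO_sing k n hk2]
        ring
      rw [sum_congr rfl h5, ← mul_sum]
      field_simp
    have h6 : T = 1 / (V (PQ k) * L) * ∑ n ∈ Ioc X (2 * X), wt Q c n * (M * VO (fun p => rt n p) (PQ k)) := by
      rw [hT]
      have h5 : ∀ n ∈ Ioc X (2 * X), wt Q c n * (M * VO (fun p => rt n p) (PQ k)) =
          (M * V (PQ k)) * (wt Q c n * sing k n) := by
        intro n _
        rw [VO_sing k n hk2]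
        ring
      rw [sum_congr rfl h5, ← mul_sum]
      field_simp
    have hp : 0 ≤ 1 / (V (PQ k) * L) := by positivity
    rw [h4, abs_mul, abs_of_nonneg hp]
    rw [h6]
    have h7 : |∑ n ∈ Ioc X (2 * X), wt Q c n * (Sv (sqH M) (PQ k) n - M * VO (fun p => rt n p) (PQ k))| ≤
        δ * ∑ n ∈ Ioc X (2 * X), wt Q c n * (M * VO (fun p => rt n p) (PQ k)) := by
      refine (abs_sum_le_sum_abs _ _).trans ?_
      rw [mul_sum]
      apply sum_le_sum
      intro n hn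
      rw [abs_mul, abs_of_nonneg (hw n)]
      have h8 := (hs n (hMX'.trans (mem_Ioc.1 hn).1.le)).1
      rw [← hk, ← hδ] at h8
      have h9 := mul_le_mul_of_nonneg_left h8 (hw n)
      refine h9.trans (le_of_eq ?_)
      ring
    have h8 := mul_le_mul_of_nonneg_left h7 hp
    refine h8.trans (le_of_eq ?_)
    ring
  have hT0 : 0 ≤ T := by
    rw [hT]
    apply mul_nonneg (by positivity)
    apply sum_nonneg
    intro n _
    exact mul_nonneg (hw n) (hsing n).le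
  rw [hδb]
  have t1 := abs_le.1 hm
  have t2 := abs_le.1 hRT
  have u1 : δ * R ≤ δ * (2 * T) := by
    apply mul_le_mul_of_nonneg_left _ hδ0.le
    have := mul_le_mul_of_nonneg_right hδ1 hT0
    linarith [t2.2]
  have u2 : 0 ≤ δ * T := mul_nonneg hδ0.le hT0
  rw [abs_le]
  constructor
  · linarith [t1.1, t2.1]
  · linarith [t1.2, t2.2]

end Pool.Agent.Y829.SA
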