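import Pool.Agent.Y829.SB1

/-! Concentration of the number of survivors of a large set of shifts. -/

set_option autoImplicit false

namespace Pool.Agent.Y829.SB

open Finset Filter Topology Pool.Agent.Y829 Pool.Agent.Y829.RP Pool.Agent.Y829.RS Pool.Agent.Y829.SA

/-- sets of shifts of scale `U` -/
def SpreadU (H : Finset ℕ) (Q U : ℕ) (y ll : ℝ) : Prop :=
  (∀ p ∈ P3 Q y, (p : ℝ) ≤ Real.log U ^ 8 → ∀ r : ℕ,
    ((H.filter (fun h => (r + h) % p ∈ ({0} : Finset ℕ))).card : ℝ) ≤ 4 * (H.card / p)) ∧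
  (∀ p ∈ P3 Q y, Real.log U ^ 8 < p → ∀ r : ℕ,
    ((H.filter (fun h => (r + h) % p ∈ ({0} : Finset ℕ))).card : ℝ) ≤ 2 * (U / p + 1)) ∧
  (∀ n : ℕ, SH H (P0 Q y) n = 0 ∨ H.card / ll ^ 2 ≤ SH H (P0 Q y) n)

lemma evlog8 : ∃ U0 : ℕ, 3 ≤ U0 ∧ ∀ U : ℕ, U0 ≤ U → Real.log U ^ 8 ≤ U := by
  have h1 := (Real.isLittleO_pow_log_id_atTop (n := 8)).def (show (0 : ℝ) < 1 by norm_num)
  have h2 := tendsto_natCast_atTop_atTop (R := ℝ) |>.eventually h1
  obtain ⟨U0, h3⟩ := (h2.and (eventually_ge_atTop 3)).exists_forall_of_atTop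
  refine ⟨max U0 3, le_max_right _ _, ?_⟩
  intro U hU
  have h4 := (h3 U ((le_max_left _ _).trans hU)).1
  rw [one_mul, id] at h4
  have h5 : (0 : ℝ) ≤ U := Nat.cast_nonneg _
  have h6 : 0 ≤ Real.log (U : ℝ) ^ 8 := by
    have := Real.log_natCast_nonneg U
    positivity
  rwa [Real.norm_of_nonneg h6, Real.norm_of_nonneg h5] at h4

/-- the sum of three exponentials -/
lemma threeexp {L t1 t2 t3 : ℝ} {n : ℕ} (hL : 2 ≤ L) (h1 : (n + 3 : ℝ) * Real.log L ≤ t1)
    (h2 : (n + 3 : ℝ) * Real.log L ≤ t2) (h3 : (n + 3 : ℝ) * Real.log L ≤ t3) (hl : 1 ≤ Real.log L) :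
    (2 * Real.exp (-t1) + 2 * Real.exp (-t2) + 2 * Real.exp (-t3)) * L ^ n ≤ 1 := by
  have hl4 := RX.log4
  have key : ∀ t : ℝ, (n + 3 : ℝ) * Real.log L ≤ t → 2 * Real.exp (-t) * L ^ n ≤ 1 / 4 := by
    intro t ht
    have h4 := expneg_le (t := t) (L := L) (n := n + 1) (by linarith) (by push_cast; linarith)
    rw [pow_succ] at h4
    have h5 : 0 ≤ Real.exp (-t) * L ^ n := by positivity
    have h6 : Real.exp (-t) * L ^ n * 2 ≤ Real.exp (-t) * L ^ n * L := mul_le_mul_of_nonneg_left hL h5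
    have h7 : Real.exp (-t) * (L ^ n * L) = Real.exp (-t) * L ^ n * L := by ring
    rw [h7] at h4
    have h8 : 2 * Real.exp (-t) * L ^ n = 2 * (Real.exp (-t) * L ^ n) := by ring
    rw [h8]
    linarith
  have k1 := key t1 h1
  have k2 := key t2 h2
  have k3 := key t3 h3
  have e : (2 * Real.exp (-t1) + 2 * Real.exp (-t2) + 2 * Real.exp (-t3)) * L ^ n =
      2 * Real.exp (-t1) * L ^ n + 2 * Real.exp (-t2) * L ^ n + 2 * Real.exp (-t3) * L ^ n := by ring
  rw [e]
  linarith

/-- **Concentration**, large sets of shifts -/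
theorem concU (A : ℝ) (hA : 1 < A) (e Cc : ℕ) : ∃ X0 : ℕ, ∀ X : ℕ, X0 ≤ X → ∀ (U Q : ℕ) (H : Finset ℕ),
    Real.log X ^ A ≤ H.card → H.card ≤ U → (U : ℝ) ≤ 4 * Real.log U * H.card → U ≤ X → Q ≤ X →
    SpreadU H Q U (Real.log (Real.log X) ^ 5) (Real.log (Real.log X)) →
    (((range (∏ p ∈ PQ Q, p)).filter (fun n =>
      (1 / 2 : ℝ) ^ e * (SH H (P0 Q (Real.log (Real.log X) ^ 5)) n * V (P3 Q (Real.log (Real.log X) ^ 5))) <
      |SH H (PQ Q) n - SH H (P0 Q (Real.log (Real.log X) ^ 5)) n * V (P3 Q (Real.log (Real.log X) ^ 5))|)).card : ℝ) *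
      Real.log X ^ Cc ≤ ((∏ p ∈ PQ Q, p : ℕ) : ℝ) := by
  classical
  obtain ⟨cm, hcm, hmert⟩ := mert
  obtain ⟨U0, hU03, hU0⟩ := evlog8
  obtain ⟨δ, hδ⟩ : ∃ δ : ℝ, δ = (1 / 2 : ℝ) ^ (e + 3) := ⟨_, rfl⟩
  have hδ0 : 0 < δ := by rw [hδ]; positivity
  have hδe : 5 * δ ≤ (1 / 2 : ℝ) ^ e := by
    have h1 : δ = (1 / 2 : ℝ) ^ e * (1 / 8) := by rw [hδ, pow_add]; norm_num
    have h2 : (0 : ℝ) < (1 / 2 : ℝ) ^ e := by positivity
    rw [h1]
    linarith
  have hδ1 : δ ≤ 1 / 8 := by
    rw [hδ]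
    calc (1 / 2 : ℝ) ^ (e + 3) ≤ (1 / 2 : ℝ) ^ 3 := pow_le_pow_of_le_one (by norm_num) (by norm_num) (by omega)
      _ = 1 / 8 := by norm_num
  obtain ⟨k1, hk1⟩ : ∃ k1 : ℝ, k1 = δ ^ 2 * cm / 1024 := ⟨_, rfl⟩
  have hk10 : 0 < k1 := by rw [hk1]; positivity
  have E := ((((ll_tend.eventually_ge_atTop (1 + |Real.log cm|)).and (evll k1 (Cc + 3) hk10)).and
    (evl ((A - 1) / 5) 1 0 (by linarith))).and
    ((log_tend.eventually_ge_atTop (max 2 (U0 : ℝ))).and (eventually_ge_atTop 3)))
  obtain ⟨X0, hX0⟩ := E.exists_forall_of_atTop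
  refine ⟨X0, ?_⟩
  intro X hX U Q H hHA hHU hUH hUX hQ hSp
  obtain ⟨⟨⟨e1, e2⟩, e4⟩, ⟨e5, e6⟩⟩ := hX0 X hX
  obtain ⟨L, hL⟩ : ∃ L : ℝ, L = Real.log X := ⟨_, rfl⟩
  obtain ⟨ll, hll⟩ : ∃ ll : ℝ, ll = Real.log L := ⟨_, rfl⟩
  rw [← hL] at hHA e1 e2 e4 e5 hSp ⊢
  rw [← hll] at e1 e2 e4 hSp ⊢
  obtain ⟨y, hy⟩ : ∃ y : ℝ, y = ll ^ 5 := ⟨_, rfl⟩
  rw [← hy] at hSp ⊢
  have hll1 : 1 ≤ ll := by
    have := abs_nonneg (Real.log cm)
    linarith
  have hll0 : 0 < ll := by linarith
  have hL2 : 2 ≤ L := (le_max_left _ _).trans e5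
  have hL0 : 0 < L := by linarith
  have hy0 : 0 < y := by rw [hy]; positivity
  have hLA : L ≤ L ^ A := by
    calc L = L ^ (1 : ℝ) := (Real.rpow_one _).symm
      _ ≤ _ := Real.rpow_le_rpow_of_exponent_le (by linarith) hA.le
  have hHU' : (H.card : ℝ) ≤ U := by exact_mod_cast hHU
  have hUL : L ≤ U := by linarith
  have hUpos : (0 : ℝ) < U := by linarith
  have hHpos : (0 : ℝ) < H.card := by linarith
  have hUU0 : U0 ≤ U := by
    have h1 : (U0 : ℝ) ≤ U := ((le_max_right _ _).trans e5).trans hUL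
    exact_mod_cast h1
  obtain ⟨w, hw⟩ : ∃ w : ℝ, w = Real.log U ^ 8 := ⟨_, rfl⟩
  have hwU : w ≤ U := by rw [hw]; exact hU0 U hUU0
  rw [SpreadU, ← hw] at hSp
  obtain ⟨LU, hLU⟩ : ∃ LU : ℝ, LU = Real.log U := ⟨_, rfl⟩
  rw [← hLU] at hUH hw
  have hLUll : ll ≤ LU := by rw [hll, hLU]; exact Real.log_le_log hL0 hUL
  have hLUL : LU ≤ L := by
    rw [hL, hLU]
    exact Real.log_le_log hUpos (by exact_mod_cast hUX)
  have hLU0 : 0 < LU := by linarith
  have hw0 : 0 < w := by rw [hw]; positivity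
  -- the sets of primes
  obtain ⟨PA, hPA⟩ : ∃ PA : Finset ℕ, PA = (P3 Q y).filter (fun p : ℕ => (p : ℝ) ≤ w) := ⟨_, rfl⟩
  obtain ⟨PR, hPR⟩ : ∃ PR : Finset ℕ, PR = (P3 Q y).filter (fun p : ℕ => ¬ (p : ℝ) ≤ w) := ⟨_, rfl⟩
  obtain ⟨PB, hPB⟩ : ∃ PB, PB = PR.filter (fun p => p ≤ U) := ⟨_, rfl⟩
  obtain ⟨PC, hPC⟩ : ∃ PC, PC = PR.filter (fun p => ¬ p ≤ U) := ⟨_, rfl⟩
  have hP3 : ∀ p ∈ P3 Q y, p.Prime ∧ p ≤ Q ∧ y < p := by
    intro p hp
    unfold P3 at hp
    rw [mem_filter, mem_PQ, not_le] at hp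
    exact ⟨hp.1.1, hp.1.2, hp.2⟩
  have hPA' : ∀ p ∈ PA, p ∈ P3 Q y ∧ (p : ℝ) ≤ w := by
    intro p hp; rw [hPA, mem_filter] at hp; exact hp
  have hPR' : ∀ p ∈ PR, p ∈ P3 Q y ∧ w < p := by
    intro p hp
    rw [hPR, mem_filter, not_le] at hp
    exact hp
  have hPB' : ∀ p ∈ PB, p ∈ P3 Q y ∧ w < p ∧ p ≤ U := by
    intro p hp
    rw [hPB, mem_filter] at hp
    exact ⟨(hPR' p hp.1).1, (hPR' p hp.1).2, hp.2⟩
  have hPC' : ∀ p ∈ PC, p ∈ P3 Q y ∧ w < p ∧ U < p := by
    intro p hp
    rw [hPC, mem_filter, not_le] at hp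
    exact ⟨(hPR' p hp.1).1, (hPR' p hp.1).2, hp.2⟩
  have hdBC : Disjoint PB PC := by rw [hPB, hPC]; exact disjoint_filter_filter_not _ _ _
  have hunBC : PB ∪ PC = PR := by rw [hPB, hPC]; exact filter_union_filter_not_eq _ _
  have hdAR : Disjoint PA PR := by rw [hPA, hPR]; exact disjoint_filter_filter_not _ _ _
  have hunAR : PA ∪ PR = P3 Q y := by rw [hPA, hPR]; exact filter_union_filter_not_eq _ _
  have hdAB : Disjoint PA PB := by
    rw [← hunBC, disjoint_union_right] at hdAR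
    exact hdAR.1
  have hdABC : Disjoint (PA ∪ PB) PC := by
    rw [← hunBC, disjoint_union_right] at hdAR
    rw [disjoint_union_left]
    exact ⟨hdAR.2, hdBC⟩
  have hunABC : PA ∪ PB ∪ PC = P3 Q y := by rw [union_assoc, hunBC, hunAR]
  have hd03 : Disjoint (P0 Q y) (P3 Q y) := disjoint_filter_filter_not _ _ _
  have hun03 : P0 Q y ∪ P3 Q y = PQ Q := filter_union_filter_not_eq _ _
  have hP0 : ∀ p ∈ P0 Q y, p.Prime := by
    intro p hp
    unfold P0 at hp
    rw [mem_filter, mem_PQ] at hp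
    exact hp.1.1
  obtain ⟨D0, hD0⟩ : ∃ D, D = ∏ p ∈ P0 Q y, p := ⟨_, rfl⟩
  obtain ⟨D3, hD3⟩ : ∃ D, D = ∏ p ∈ P3 Q y, p := ⟨_, rfl⟩
  have hDD : ∏ p ∈ PQ Q, p = D0 * D3 := by rw [hD0, hD3, ← prod_union hd03, hun03]
  have hcop : ∀ p ∈ P3 Q y, D0.Coprime p := by
    intro p hp
    rw [hD0]
    apply Nat.Coprime.prod_left
    intro q hq
    rw [Nat.coprime_primes (hP0 q hq) (hP3 p hp).1]
    rintro rfl
    exact disjoint_left.1 hd03 hq hp
  have h2U : 2 ≤ U := by omega
  have hVAB : cm / LU ≤ V (PA ∪ PB) := by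
    rw [hLU]
    apply hmert U h2U
    intro p hp
    rcases mem_union.1 hp with h | h
    · refine ⟨(hP3 p (hPA' p h).1).1, ?_⟩
      exact_mod_cast (hPA' p h).2.trans hwU
    · exact ⟨(hP3 p (hPB' p h).1).1, (hPB' p h).2.2⟩
  have hVA : cm / (8 * ll) ≤ V PA := by
    obtain ⟨m, hm⟩ : ∃ m : ℕ, m = max ⌊w⌋₊ 2 := ⟨_, rfl⟩
    have h1 := hmert m (by rw [hm]; exact le_max_right _ _) PA (fun p hp => by
      refine ⟨(hP3 p (hPA' p hp).1).1, ?_⟩
      rw [hm]
      exact le_max_of_le_left (Nat.le_floor (hPA' p hp).2))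
    refine le_trans ?_ h1
    have hm2 : 2 ≤ m := by rw [hm]; exact le_max_right _ _
    apply div_le_div_of_nonneg_left hcm.le
    · exact Real.log_pos (by exact_mod_cast (by omega : 1 < m))
    · have h2 : (m : ℝ) ≤ L ^ 8 := by
        rw [hm]
        push_cast
        apply max_le
        · refine (Nat.floor_le hw0.le).trans ?_
          rw [hw]
          exact pow_le_pow_left₀ hLU0.le hLUL 8
        · calc (2 : ℝ) ≤ L := hL2
            _ = L ^ 1 := (pow_one L).symm
            _ ≤ L ^ 8 := pow_le_pow_right₀ (by linarith) (by norm_num)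
      have h3 := Real.log_le_log (by exact_mod_cast (by omega : 0 < m)) h2
      rw [Real.log_pow, ← hll] at h3
      exact_mod_cast h3
  have hX2 : 2 ≤ X := by omega
  have hV3 : cm / L ≤ V (P3 Q y) := by
    rw [hL]
    exact hmert X hX2 _ (fun p hp => ⟨(hP3 p hp).1, (hP3 p hp).2.1.trans hQ⟩)
  have hVC : cm / L ≤ V PC := by
    rw [hL]
    exact hmert X hX2 _ (fun p hp => ⟨(hP3 p (hPC' p hp).1).1, (hP3 p (hPC' p hp).1).2.1.trans hQ⟩)
  have hsumC : ∑ p ∈ PC, 1 / (p : ℝ) ≤ 2 * ll := by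
    refine (sum_inv_V PC fun p hp => (hP3 p (hPC' p hp).1).1).trans ?_
    have h1 := Real.log_le_log (by positivity) hVC
    rw [Real.log_div hcm.ne' hL0.ne', ← hll] at h1
    have h2 := neg_abs_le (Real.log cm)
    linarith
  have hsumA : ∑ p ∈ PA, 1 / (p : ℝ) ^ 2 ≤ 2 / y := sum_sq_inv PA y hy0 (fun p hp => (hP3 p (hPA' p hp).1).2.2)
  have hsumB : ∑ p ∈ PB, 1 / (p : ℝ) ^ 2 ≤ 2 / w := sum_sq_inv PB w hw0 (fun p hp => (hPB' p hp).2.1)
  obtain ⟨hSpA, hSpB, hSp2⟩ := hSp
  obtain ⟨lam1, hlam1⟩ : ∃ lam : ℝ, lam = δ * y / (64 * H.card) := ⟨_, rfl⟩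
  obtain ⟨lam2, hlam2⟩ : ∃ lam : ℝ, lam = δ * w / (64 * U) := ⟨_, rfl⟩
  obtain ⟨lam3, hlam3⟩ : ∃ lam : ℝ, lam = δ / (64 * ll) := ⟨_, rfl⟩
  have hlam10 : 0 < lam1 := by rw [hlam1]; positivity
  have hlam20 : 0 < lam2 := by rw [hlam2]; positivity
  have hlam30 : 0 < lam3 := by rw [hlam3]; positivity
  obtain ⟨bad, hbad⟩ : ∃ bad : ℕ → Prop, bad = fun n => (1 / 2 : ℝ) ^ e * (SH H (P0 Q y) n * V (P3 Q y)) <
      |SH H (PQ Q) n - SH H (P0 Q y) n * V (P3 Q y)| := ⟨_, rfl⟩
  rw [hDD]
  have hV30 : 0 < V (P3 Q y) := V_pos fun p hp => (hP3 p hp).1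
  have key : ∀ i ∈ range D0, (∑ j ∈ range D3, (if bad (i + D0 * j) then (1 : ℝ) else 0)) * L ^ Cc ≤ D3 := by
    intro i _
    obtain ⟨H1, hH1⟩ : ∃ H1, H1 = H.filter (fun h => ∀ p ∈ P0 Q y, (i + h) % p ∉ ({0} : Finset ℕ)) := ⟨_, rfl⟩
    have hH1s : H1 ⊆ H := by rw [hH1]; exact filter_subset _ _
    have hH1c : ∀ j, SH H (P0 Q y) (i + D0 * j) = (H1.card : ℝ) := by
      intro j
      unfold SH
      rw [hH1]
      refine congrArg Nat.cast (congrArg card ?_)
      apply filter_congr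
      intro h _
      have e1 : ∀ p ∈ P0 Q y, (i + D0 * j + h) % p = (i + h) % p := by
        intro p hp
        have h1 : p ∣ D0 := by rw [hD0]; exact dvd_prod_of_mem (fun p : ℕ => p) hp
        obtain ⟨k, hk⟩ := h1
        have : i + D0 * j + h = (i + h) + p * (k * j) := by rw [hk]; ring
        rw [this]
        exact Nat.add_mul_mod_self_left _ _ _
      constructor
      · intro h1 p hp
        rw [← e1 p hp]; exact h1 p hp
      · intro h1 p hp
        rw [e1 p hp]; exact h1 p hp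
    have hS : ∀ j, SH H (PQ Q) (i + D0 * j) = SH H1 (P3 Q y) (i + D0 * j) := by
      intro j
      unfold SH
      refine congrArg Nat.cast (congrArg card ?_)
      rw [hH1, filter_filter]
      apply filter_congr
      intro h _
      have e1 : ∀ p ∈ P0 Q y, (i + D0 * j + h) % p = (i + h) % p := by
        intro p hp
        have h1 : p ∣ D0 := by rw [hD0]; exact dvd_prod_of_mem (fun p : ℕ => p) hp
        obtain ⟨k, hk⟩ := h1
        have : i + D0 * j + h = (i + h) + p * (k * j) := by rw [hk]; ring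
        rw [this]
        exact Nat.add_mul_mod_self_left _ _ _
      rw [← hun03]
      constructor
      · intro h1
        refine ⟨fun p hp => ?_, fun p hp => h1 p (mem_union_right _ hp)⟩
        rw [← e1 p hp]
        exact h1 p (mem_union_left _ hp)
      · rintro ⟨h1, h2⟩ p hp
        rcases mem_union.1 hp with hp | hp
        · rw [e1 p hp]; exact h1 p hp
        · exact h2 p hp
    have hSle : ∀ j, SH H1 (P3 Q y) (i + D0 * j) ≤ H1.card := fun j => SH_le _ _ _
    rcases hSp2 i with h0 | h0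
    · -- no survivors
      have h0' : (H1.card : ℝ) = 0 := by
        have := hH1c 0
        rw [mul_zero, add_zero] at this
        rw [← this]; exact h0
      have h1 : ∀ j ∈ range D3, (if bad (i + D0 * j) then (1 : ℝ) else 0) = 0 := by
        intro j _
        rw [if_neg]
        rw [hbad, not_lt, hS j, hH1c j, h0', zero_mul, mul_zero, sub_zero]
        have h2 := hSle j
        rw [h0'] at h2
        have h3 := SH_nonneg H1 (P3 Q y) (i + D0 * j)
        have h4 : SH H1 (P3 Q y) (i + D0 * j) = 0 := le_antisymm h2 h3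
        rw [h4, abs_zero]
      rw [sum_congr rfl h1, sum_const_zero, zero_mul]
      exact Nat.cast_nonneg _
    · have hHlow : H.card / ll ^ 2 ≤ (H1.card : ℝ) := by
        have := hH1c 0
        rw [mul_zero, add_zero] at this
        rw [← this]; exact h0
      have hits1 : ∀ p r : ℕ, ((H1.filter (fun h => (r + h) % p ∈ ({0} : Finset ℕ))).card : ℝ) ≤
          ((H.filter (fun h => (r + h) % p ∈ ({0} : Finset ℕ))).card : ℝ) := by
        intro p r
        exact_mod_cast card_le_card (filter_subset_filter _ hH1s)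
      have hst := threestage PA PB PC H1 i D0 (fun p => 4 * (H.card / p)) (fun p => 4 * (U / p)) (fun _ => 4)
        lam1 lam2 lam3 δ
        (fun p hp => (hP3 p (hPA' p hp).1).1) (fun p hp => (hP3 p (hPB' p hp).1).1)
        (fun p hp => (hP3 p (hPC' p hp).1).1) hdAB hdABC
        (fun p hp => hcop p (hPA' p hp).1) (fun p hp => hcop p (hPB' p hp).1) (fun p hp => hcop p (hPC' p hp).1)
        hδ0 hδ1 hlam10.le hlam20.le hlam30.le
        (by
          intro p hp
          have h1 := (hP3 p (hPA' p hp).1).2.2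
          have hp0 : (0 : ℝ) < p := by linarith
          have h2 : lam1 * (4 * (H.card / p)) = δ / 16 * (y / p) := by
            rw [hlam1]
            field_simp
            norm_num
          rw [h2]
          have h3 : y / p ≤ 1 := by rw [div_le_one hp0]; exact h1.le
          have h4 := mul_le_mul_of_nonneg_left h3 (show 0 ≤ δ / 16 by positivity)
          linarith)
        (by
          intro p hp
          have h1 := (hPB' p hp).2.1
          have hp0 : (0 : ℝ) < p := by linarith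
          have h2 : lam2 * (4 * (U / p)) = δ / 16 * (w / p) := by
            rw [hlam2]
            field_simp
            norm_num
          rw [h2]
          have h3 : w / p ≤ 1 := by rw [div_le_one hp0]; exact h1.le
          have h4 := mul_le_mul_of_nonneg_left h3 (show 0 ≤ δ / 16 by positivity)
          linarith)
        (by
          intro p _
          rw [hlam3, div_mul_eq_mul_div, div_le_one (by positivity)]
          linarith)
        (fun p hp r => (hits1 p r).trans (hSpA p (hPA' p hp).1 (hPA' p hp).2 r))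
        (by
          intro p hp r
          have hp0 : (0 : ℝ) < p := by exact_mod_cast (hP3 p (hPB' p hp).1).1.pos
          have h1 := hSpB p (hPB' p hp).1 (hPB' p hp).2.1 r
          have h2 : (1 : ℝ) ≤ U / p := by
            rw [le_div_iff₀ hp0, one_mul]
            exact_mod_cast (hPB' p hp).2.2
          have h3 := hits1 p r
          linarith)
        (by
          intro p hp r
          have hp0 : (0 : ℝ) < p := by exact_mod_cast (hP3 p (hPC' p hp).1).1.pos
          have h1 := hSpB p (hPC' p hp).1 (hPC' p hp).2.1 r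
          have h2 : U / p ≤ (1 : ℝ) := by
            rw [div_le_one hp0]
            exact_mod_cast (hPC' p hp).2.2.le
          have h3 := hits1 p r
          linarith)
        (by
          have h1 : ∀ p ∈ PA, lam1 * (4 * (H.card / p)) * (1 / p) = (δ * y / 16) * (1 / (p : ℝ) ^ 2) := by
            intro p hp
            have hp0 : (0 : ℝ) < p := by exact_mod_cast (hP3 p (hPA' p hp).1).1.pos
            rw [hlam1]
            field_simp
            norm_num
          rw [sum_congr rfl h1, ← mul_sum]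
          have h2 := mul_le_mul_of_nonneg_left hsumA (show 0 ≤ δ * y / 16 by positivity)
          have h3 : δ * y / 16 * (2 / y) = δ / 8 := by
            field_simp
            norm_num
          rw [h3] at h2
          linarith)
        (by
          have h1 : ∀ p ∈ PB, lam2 * (4 * (U / p)) * (1 / p) = (δ * w / 16) * (1 / (p : ℝ) ^ 2) := by
            intro p hp
            have hp0 : (0 : ℝ) < p := by exact_mod_cast (hP3 p (hPB' p hp).1).1.pos
            rw [hlam2]
            field_simp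
            norm_num
          rw [sum_congr rfl h1, ← mul_sum]
          have h2 := mul_le_mul_of_nonneg_left hsumB (show 0 ≤ δ * w / 16 by positivity)
          have h3 : δ * w / 16 * (2 / w) = δ / 8 := by
            field_simp
            norm_num
          rw [h3] at h2
          linarith)
        (by
          have h1 : ∀ p ∈ PC, lam3 * 4 * (1 / p) = (4 * lam3) * (1 / (p : ℝ)) := fun p _ => by ring
          rw [sum_congr rfl h1, ← mul_sum]
          have h2 := mul_le_mul_of_nonneg_left hsumC (show 0 ≤ 4 * lam3 by positivity)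
          have h3 : 4 * lam3 * (2 * ll) = δ / 8 := by
            rw [hlam3]
            field_simp
            norm_num
          rw [h3] at h2
          linarith)
      rw [hunABC, ← hD3] at hst
      -- the exponents
      have hkll : k1 * ll ^ 2 ≥ (Cc + 3) * ll := e2
      have hE1 : (Cc + 3) * ll ≤ lam1 * (H1.card * V PA) * (δ / 2) := by
        have h1 : H.card / ll ^ 2 * (cm / (8 * ll)) ≤ H1.card * V PA :=
          mul_le_mul hHlow hVA (by positivity) (Nat.cast_nonneg _)
        have h2 : lam1 * (H.card / ll ^ 2 * (cm / (8 * ll))) * (δ / 2) ≤ lam1 * (H1.card * V PA) * (δ / 2) := by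
          apply mul_le_mul_of_nonneg_right _ (by positivity)
          exact mul_le_mul_of_nonneg_left h1 hlam10.le
        have h3 : lam1 * (H.card / ll ^ 2 * (cm / (8 * ll))) * (δ / 2) = k1 * ll ^ 2 := by
          rw [hlam1, hk1, hy]
          field_simp
          norm_num
        linarith
      have hE2 : (Cc + 3) * ll ≤ lam2 * (H1.card * V (PA ∪ PB) / 2) * (δ / 2) := by
        have h0 : U / (4 * LU) ≤ (H.card : ℝ) := by
          rw [div_le_iff₀ (by positivity)]
          linarith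
        have h0' : U / (4 * LU) / ll ^ 2 ≤ (H1.card : ℝ) := by
          refine le_trans ?_ hHlow
          exact div_le_div_of_nonneg_right h0 (by positivity)
        have h1 : U / (4 * LU) / ll ^ 2 * (cm / LU) ≤ H1.card * V (PA ∪ PB) :=
          mul_le_mul h0' hVAB (by positivity) (Nat.cast_nonneg _)
        have h2 : lam2 * (U / (4 * LU) / ll ^ 2 * (cm / LU) / 2) * (δ / 2) ≤
            lam2 * (H1.card * V (PA ∪ PB) / 2) * (δ / 2) := by
          apply mul_le_mul_of_nonneg_right _ (by positivity)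
          apply mul_le_mul_of_nonneg_left _ hlam20.le
          linarith
        have h3 : lam2 * (U / (4 * LU) / ll ^ 2 * (cm / LU) / 2) * (δ / 2) = k1 * (LU ^ 6 / ll ^ 2) := by
          rw [hlam2, hk1, hw]
          field_simp
          norm_num
        have h4 : ll ^ 2 ≤ LU ^ 6 / ll ^ 2 := by
          rw [le_div_iff₀ (by positivity)]
          calc ll ^ 2 * ll ^ 2 = ll ^ 4 := by ring
            _ ≤ ll ^ 6 := pow_le_pow_right₀ hll1 (by norm_num)
            _ ≤ LU ^ 6 := pow_le_pow_left₀ hll0.le hLUll 6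
        have h5 := mul_le_mul_of_nonneg_left h4 hk10.le
        linarith
      have hE3 : (Cc + 3) * ll ≤ lam3 * (H1.card * V (P3 Q y) / 2) * (δ / 2) := by
        have h1 : H.card / ll ^ 2 * (cm / L) ≤ H1.card * V (P3 Q y) :=
          mul_le_mul hHlow hV3 (by positivity) (Nat.cast_nonneg _)
        have h2 : lam3 * (H.card / ll ^ 2 * (cm / L) / 2) * (δ / 2) ≤ lam3 * (H1.card * V (P3 Q y) / 2) * (δ / 2) := by
          apply mul_le_mul_of_nonneg_right _ (by positivity)
          apply mul_le_mul_of_nonneg_left _ hlam30.le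
          linarith
        have h3 : lam3 * (H.card / ll ^ 2 * (cm / L) / 2) * (δ / 2) = (4 * k1) * (H.card / L) / ll ^ 3 := by
          rw [hlam3, hk1]
          field_simp
          norm_num
        have h4 : ll ^ 5 ≤ H.card / L := by
          have h5 : L ^ (A - 1) ≤ H.card / L := by
            rw [le_div_iff₀ hL0]
            have h6 : L ^ (A - 1) * L = L ^ A := by
              nth_rewrite 2 [← Real.rpow_one L]
              rw [← Real.rpow_add hL0]
              congr 1
              ring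
            rw [h6]; exact hHA
          have h7 : ll ^ 5 ≤ (L ^ ((A - 1) / 5)) ^ 5 := pow_le_pow_left₀ hll0.le (by linarith) 5
          have h8 : (L ^ ((A - 1) / 5)) ^ 5 = L ^ (A - 1) := by
            rw [← Real.rpow_natCast, ← Real.rpow_mul hL0.le]
            congr 1
            push_cast
            ring
          linarith
        have h5 : k1 * ll ^ 2 ≤ (4 * k1) * (H.card / L) / ll ^ 3 := by
          rw [le_div_iff₀ (by positivity)]
          have := mul_le_mul_of_nonneg_left h4 hk10.le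
          have h6 : 0 ≤ k1 * (H.card / L) := by positivity
          calc k1 * ll ^ 2 * ll ^ 3 = k1 * ll ^ 5 := by ring
            _ ≤ _ := this
            _ ≤ _ := by linarith
        linarith
      have g1 : (2 * Real.exp (-(lam1 * (H1.card * V PA) * (δ / 2))) +
          2 * Real.exp (-(lam2 * (H1.card * V (PA ∪ PB) / 2) * (δ / 2))) +
          2 * Real.exp (-(lam3 * (H1.card * V (P3 Q y) / 2) * (δ / 2)))) * L ^ Cc ≤ 1 :=
        threeexp hL2 (by rw [← hll]; exact hE1) (by rw [← hll]; exact hE2)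
          (by rw [← hll]; exact hE3) (by rw [← hll]; exact hll1)
      have h1 : ∑ j ∈ range D3, (if bad (i + D0 * j) then (1 : ℝ) else 0) ≤
          (((range D3).filter (fun j => 5 * δ * (H1.card * V (P3 Q y)) <
            |SH H1 (P3 Q y) (i + D0 * j) - H1.card * V (P3 Q y)|)).card : ℝ) := by
        rw [card_filter]
        push_cast
        apply sum_le_sum
        intro j _
        by_cases hb : bad (i + D0 * j)
        · rw [if_pos hb, if_pos]
          rw [hbad] at hb
          change (1 / 2 : ℝ) ^ e * (SH H (P0 Q y) (i + D0 * j) * V (P3 Q y)) <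
            |SH H (PQ Q) (i + D0 * j) - SH H (P0 Q y) (i + D0 * j) * V (P3 Q y)| at hb
          rw [hS j, hH1c j] at hb
          refine lt_of_le_of_lt ?_ hb
          apply mul_le_mul_of_nonneg_right hδe
          positivity
        · rw [if_neg hb]
          split_ifs <;> norm_num
      have h2 := h1.trans hst
      have hLC : (0 : ℝ) ≤ L ^ Cc := by positivity
      have h3 := mul_le_mul_of_nonneg_right h2 hLC
      refine h3.trans ?_
      have h4 : (0 : ℝ) ≤ D3 := Nat.cast_nonneg _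
      have h6 := mul_le_mul_of_nonneg_right g1 h4
      rw [one_mul] at h6
      refine le_trans (le_of_eq ?_) h6
      ring
  have h1 : (((range (D0 * D3)).filter bad).card : ℝ) = ∑ i ∈ range D0, ∑ j ∈ range D3, (if bad (i + D0 * j) then (1 : ℝ) else 0) := by
    rw [card_filter]
    push_cast
    exact sum_split D0 D3 (fun n => if bad n then (1 : ℝ) else 0)
  have h4 := sum_le_sum key
  rw [← sum_mul, ← h1, sum_const, card_range, nsmul_eq_mul] at h4
  rw [hbad] at h4
  push_cast
  convert h4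

end Pool.Agent.Y829.SB
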