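import Pool.Agent.Y829.SB2

/-! Primes `n - h` with `h` in a large set of shifts, on average with respect to a sieve weight. -/

set_option autoImplicit false

namespace Pool.Agent.Y829.SB

open Finset Filter Topology Pool.Agent.Y829 Pool.Agent.Y829.RP Pool.Agent.Y829.RS Pool.Agent.Y829.SA
open H343E (pi1)

lemma evD (δ : ℝ) (hδ : 0 < δ) : ∀ᶠ X : ℕ in atTop, 4 * ((X : ℝ) ^ (9 / 10 : ℝ) * Real.log X) ≤ δ * X := by
  have h1 := (isLittleO_log_rpow_atTop (show (0 : ℝ) < 1 / 10 by norm_num)).def (show (0 : ℝ) < δ / 4 by positivity)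
  have h2 := tendsto_natCast_atTop_atTop (R := ℝ) |>.eventually h1
  filter_upwards [h2, eventually_ge_atTop 1] with X h3 h4
  have hX : (0 : ℝ) < X := by exact_mod_cast h4
  rw [Real.norm_of_nonneg (Real.log_natCast_nonneg X), Real.norm_of_nonneg (by positivity)] at h3
  have h5 := mul_le_mul_of_nonneg_left h3 (show 0 ≤ 4 * (X : ℝ) ^ (9 / 10 : ℝ) by positivity)
  have h6 : (X : ℝ) ^ (9 / 10 : ℝ) * (X : ℝ) ^ (1 / 10 : ℝ) = X := by
    rw [← Real.rpow_add hX]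
    norm_num
  calc 4 * ((X : ℝ) ^ (9 / 10 : ℝ) * Real.log X) = 4 * (X : ℝ) ^ (9 / 10 : ℝ) * Real.log X := by ring
    _ ≤ _ := h5
    _ = δ * ((X : ℝ) ^ (9 / 10 : ℝ) * (X : ℝ) ^ (1 / 10 : ℝ)) := by ring
    _ = δ * X := by rw [h6]

/-- the model -/
theorem modelU (A : ℝ) (hA : 1 < A) (K e : ℕ) : ∃ X0 : ℕ, ∀ X : ℕ, X0 ≤ X →
    ∀ (U Q : ℕ) (H : Finset ℕ), Real.log X ^ A ≤ H.card → H.card ≤ U → (U : ℝ) ≤ 4 * Real.log U * H.card →
    U ≤ X → 1 ≤ Q → Q ≤ X →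
    SpreadU H Q U (Real.log (Real.log X) ^ 5) (Real.log (Real.log X)) →
    ∀ c : ℕ → ℕ → ℝ, (∀ n, 0 ≤ wt Q c n) → ∑ d ∈ Icc 1 Q, ss c d ^ 2 / d ≤ Real.log X ^ K →
    1 / (2 * Real.log X ^ K) ≤ mu Q c →
    (∀ n, wt Q c n = 0 ∨ H.card / Real.log (Real.log X) ^ 2 ≤ SH H (P0 Q (Real.log (Real.log X) ^ 5)) n) →
    ∀ N : ℕ, 0 < N → (∀ d ∈ Icc 1 Q, d ∣ N) →
    |N * V (PQ Q) * ∑ h ∈ H, RP.GG Q c h - V (P3 Q (Real.log (Real.log X) ^ 5)) *
      ∑ n ∈ range N, wt Q c n * SH H (P0 Q (Real.log (Real.log X) ^ 5)) n| ≤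
    (1 / 2 : ℝ) ^ e * (V (P3 Q (Real.log (Real.log X) ^ 5)) *
      ∑ n ∈ range N, wt Q c n * SH H (P0 Q (Real.log (Real.log X) ^ 5)) n) := by
  classical
  obtain ⟨X1, hX1⟩ := concU A hA (e + 1) (2 * K + 4 * (K + 3) + 10)
  obtain ⟨X2, hX2⟩ := badmass K (K + 3)
  obtain ⟨cm, hcm, hmert⟩ := mert
  obtain ⟨δ, hδ⟩ : ∃ δ : ℝ, δ = (1 / 2 : ℝ) ^ (e + 1) := ⟨_, rfl⟩
  have hδ0 : 0 < δ := by rw [hδ]; positivity
  have hδe : (1 / 2 : ℝ) ^ e = 2 * δ := by rw [hδ, pow_succ]; ring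
  have E := ((log_tend.eventually_ge_atTop (1 + 2 / (δ * cm))).and (evl (1 / 2) 1 0 (by norm_num))).and
    ((ll_tend.eventually_ge_atTop (1 : ℝ)).and (eventually_ge_atTop 3))
  obtain ⟨X3, hX3⟩ := E.exists_forall_of_atTop
  refine ⟨max (max X1 X2) X3, ?_⟩
  intro X hX U' Q H hHA hHU' hUH hUX hQ1 hQX hSp c hw hc hmu hlow N hN0 hdN
  have hc1 := hX1 X ((le_max_left _ _).trans ((le_max_left _ _).trans hX)) U' Q H hHA hHU' hUH hUX hQX hSp
  obtain ⟨U, hUd⟩ : ∃ U : ℕ, U = H.card := ⟨_, rfl⟩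
  have hHU : H.card ≤ U := hUd.ge
  rw [← hUd] at hlow
  have hc2 := hX2 X ((le_max_right _ _).trans ((le_max_left _ _).trans hX)) Q hQ1 hQX c hc
  obtain ⟨⟨e1, e3⟩, e4, e2⟩ := hX3 X ((le_max_right _ _).trans hX)
  have hP : ∀ p ∈ PQ Q, p.Prime := fun p hp => (mem_PQ.1 hp).1
  obtain ⟨y, hy⟩ : ∃ y : ℝ, y = Real.log (Real.log X) ^ 5 := ⟨_, rfl⟩
  rw [← hy] at hc1 hlow ⊢
  have hP3s : P3 Q y ⊆ PQ Q := filter_subset _ _
  have hP0s : P0 Q y ⊆ PQ Q := filter_subset _ _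
  have hV3 : cm / Real.log X ≤ V (P3 Q y) := hmert X (by omega) (P3 Q y) fun p hp =>
    ⟨hP p (hP3s hp), (mem_PQ.1 (hP3s hp)).2.trans hQX⟩
  have hV30 : 0 < V (P3 Q y) := V_pos fun p hp => hP p (hP3s hp)
  obtain ⟨L, hL⟩ : ∃ L : ℝ, L = Real.log X := ⟨_, rfl⟩
  rw [← hL] at hc1 hc2 hc e1 e3 e4 hmu hV3 hlow
  obtain ⟨ll, hll⟩ : ∃ ll : ℝ, ll = Real.log L := ⟨_, rfl⟩
  rw [← hll] at e3 e4 hlow
  have hL1 : 1 ≤ L := by
    have : 0 ≤ 2 / (δ * cm) := by positivity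
    linarith
  have hL0 : 0 < L := by linarith
  have hll0 : 0 < ll := by linarith
  have hlL : ll ^ 2 ≤ L := by
    have h1 : ll ≤ L ^ (1 / 2 : ℝ) := by linarith
    have h2 : ll ^ 2 ≤ (L ^ (1 / 2 : ℝ)) ^ 2 := pow_le_pow_left₀ hll0.le h1 2
    have h3 : (L ^ (1 / 2 : ℝ)) ^ 2 = L := by
      rw [← Real.rpow_natCast, ← Real.rpow_mul hL0.le]
      norm_num
    linarith
  obtain ⟨M, hM⟩ : ∃ M, M = ∏ p ∈ PQ Q, p := ⟨_, rfl⟩
  have hM0 : 0 < M := by rw [hM]; exact prod_pos fun p hp => (hP p hp).pos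
  have hpM : ∀ p ∈ PQ Q, p ∣ M := by
    intro p hp
    rw [hM]; exact dvd_prod_of_mem (fun p : ℕ => p) hp
  have hMN : M ∣ N := by
    rw [hM]
    apply Finset.prod_primes_dvd
    · intro p hp; exact (hP p hp).prime
    · intro p hp
      exact hdN p (mem_Icc.2 ⟨(hP p hp).one_lt.le, (mem_PQ.1 hp).2⟩)
  obtain ⟨k, hk⟩ := hMN
  rw [← hM] at hc1
  obtain ⟨S0, hS0⟩ : ∃ S0 : ℕ → ℝ, S0 = fun n => SH H (P0 Q y) n := ⟨_, rfl⟩
  obtain ⟨S, hS⟩ : ∃ S : ℕ → ℝ, S = fun n => SH H (PQ Q) n := ⟨_, rfl⟩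
  obtain ⟨V3, hV3d⟩ : ∃ V3, V3 = V (P3 Q y) := ⟨_, rfl⟩
  rw [← hV3d] at hc1 hV3 hV30 ⊢
  have hS0nn : ∀ n, 0 ≤ S0 n := fun n => by rw [hS0]; exact SH_nonneg _ _ _
  have hSnn : ∀ n, 0 ≤ S n := fun n => by rw [hS]; exact SH_nonneg _ _ _
  have hS0U : ∀ n, S0 n ≤ U := fun n => by
    rw [hS0]
    exact (SH_le _ _ _).trans (by exact_mod_cast hHU)
  have hSU : ∀ n, S n ≤ U := fun n => by
    rw [hS]
    exact (SH_le _ _ _).trans (by exact_mod_cast hHU)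
  have hV31 : V3 ≤ 1 := by
    rw [hV3d]
    have := VO_le_one (Om := fun _ => ({0} : Finset ℕ)) (P := P3 Q y) (fun p hp => hP p (hP3s hp))
      (fun p hp => by simpa using (hP p (hP3s hp)).one_lt)
    rwa [VO_V] at this
  obtain ⟨bad, hbad⟩ : ∃ bad : ℕ → Prop, bad = fun n => δ * (S0 n * V3) < |S n - S0 n * V3| := ⟨_, rfl⟩
  have hc1' : (((range M).filter bad).card : ℝ) * L ^ (2 * K + 4 * (K + 3) + 10) ≤ M := by
    rw [hbad, hδ, hS0, hS]
    convert hc1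
  have hper : ∀ n, (if bad (n + M) then (1 : ℝ) else 0) = if bad n then (1 : ℝ) else 0 := by
    intro n
    have h1 : bad (n + M) ↔ bad n := by
      rw [hbad, hS0, hS]
      show (δ * (SH H (P0 Q y) (n + M) * V3) < |SH H (PQ Q) (n + M) - SH H (P0 Q y) (n + M) * V3|) ↔
        (δ * (SH H (P0 Q y) n * V3) < |SH H (PQ Q) n - SH H (P0 Q y) n * V3|)
      rw [SH_per H (PQ Q) M n hpM, SH_per H (P0 Q y) M n fun p hp => hpM p (hP0s hp)]
    simp only [h1]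
  have hcount : (((range N).filter bad).card : ℝ) * L ^ (2 * K + 4 * (K + 3) + 10) ≤ N := by
    have h1 : (((range N).filter bad).card : ℝ) = k * (((range M).filter bad).card : ℝ) := by
      rw [card_filter, card_filter, hk]
      push_cast
      exact per_sum hper k
    rw [h1, hk]
    push_cast
    have := mul_le_mul_of_nonneg_left hc1' (Nat.cast_nonneg (α := ℝ) k)
    linarith
  have hb := hc2 N hdN ((range N).filter bad) (filter_subset _ _) hcount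
  have hb' : ∑ n ∈ (range N).filter bad, |wt Q c n| = ∑ n ∈ (range N).filter bad, wt Q c n :=
    sum_congr rfl fun n _ => abs_of_nonneg (hw n)
  rw [hb'] at hb
  have hsw := sum_wt Q N c hdN
  have hUr : (0 : ℝ) ≤ U := Nat.cast_nonneg _
  have hNr : (0 : ℝ) < N := by exact_mod_cast hN0
  have hmu0 : 0 < mu Q c := lt_of_lt_of_le (by positivity) hmu
  obtain ⟨W0, hW0⟩ : ∃ W0, W0 = ∑ n ∈ range N, wt Q c n * S0 n := ⟨_, rfl⟩
  have hW0' : ∑ n ∈ range N, wt Q c n * SH H (P0 Q y) n = W0 := by rw [hW0, hS0]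
  rw [hW0', ← sum_SH Q N H c hN0 hdN]
  have hWS : ∑ n ∈ range N, wt Q c n * SH H (PQ Q) n = ∑ n ∈ range N, wt Q c n * S n := by rw [hS]
  rw [hWS]
  -- the lower bound
  have hW0low : U / ll ^ 2 * (N * mu Q c) ≤ W0 := by
    rw [← hsw, mul_sum, hW0]
    apply sum_le_sum
    intro n _
    rcases hlow n with h1 | h1
    · rw [h1, mul_zero, zero_mul]
    · rw [mul_comm, hS0]
      exact mul_le_mul_of_nonneg_left h1 (hw n)
  have h2 : ∑ n ∈ range N, wt Q c n * S n - V3 * W0 =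
      ∑ n ∈ range N, wt Q c n * (S n - S0 n * V3) := by
    rw [hW0, mul_sum, ← sum_sub_distrib]
    apply sum_congr rfl
    intro n _
    ring
  rw [h2]
  refine (abs_sum_le_sum_abs _ _).trans ?_
  have h3 : ∀ n ∈ range N, |wt Q c n * (S n - S0 n * V3)| ≤
      δ * V3 * (wt Q c n * S0 n) + (if bad n then wt Q c n * U else 0) := by
    intro n _
    rw [abs_mul, abs_of_nonneg (hw n)]
    have h6 : 0 ≤ δ * V3 * (wt Q c n * S0 n) := by
      have := hw n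
      have := hS0nn n
      positivity
    by_cases hbn : bad n
    · rw [if_pos hbn]
      have h4 : |S n - S0 n * V3| ≤ U := by
        have a1 := hSU n
        have a2 := hSnn n
        have a3 : S0 n * V3 ≤ U * 1 := mul_le_mul (hS0U n) hV31 hV30.le hUr
        have a4 : 0 ≤ S0 n * V3 := mul_nonneg (hS0nn n) hV30.le
        rw [abs_le]
        constructor <;> linarith
      have h5 := mul_le_mul_of_nonneg_left h4 (hw n)
      linarith
    · rw [if_neg hbn, add_zero]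
      have h7 : |S n - S0 n * V3| ≤ δ * (S0 n * V3) := by
        rw [hbad] at hbn
        exact not_lt.1 hbn
      have h8 := mul_le_mul_of_nonneg_left h7 (hw n)
      refine h8.trans (le_of_eq ?_)
      ring
  refine (sum_le_sum h3).trans ?_
  rw [sum_add_distrib, ← mul_sum, ← hW0, ← sum_filter, ← sum_mul]
  have h4 : (∑ n ∈ (range N).filter bad, wt Q c n) * U ≤ δ * V3 * W0 := by
    have h5 : (∑ n ∈ (range N).filter bad, wt Q c n) ≤ N / L ^ (K + 3) := by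
      rw [le_div_iff₀ (by positivity)]
      exact hb
    have h6 : (N : ℝ) / L ^ (K + 3) * U ≤ δ * (cm / L) * (U / ll ^ 2 * (N * (1 / (2 * L ^ K)))) := by
      have h7 : δ * (cm / L) * (U / ll ^ 2 * (N * (1 / (2 * L ^ K)))) =
          (N / L ^ (K + 3) * U) * ((δ * cm * L / 2) * (L / ll ^ 2)) := by
        rw [pow_add L K 3]
        field_simp
      rw [h7]
      apply le_mul_of_one_le_right (by positivity)
      have h8 : 1 ≤ δ * cm * L / 2 := by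
        have h10 : 2 / (δ * cm) ≤ L := by linarith
        rw [div_le_iff₀ (by positivity)] at h10
        linarith
      have h9 : 1 ≤ L / ll ^ 2 := by
        rw [le_div_iff₀ (by positivity), one_mul]
        exact hlL
      nlinarith
    have h7 := mul_le_mul_of_nonneg_right h5 hUr
    refine (h7.trans h6).trans ?_
    apply mul_le_mul _ _ (by positivity) (by positivity)
    · exact mul_le_mul_of_nonneg_left hV3 hδ0.le
    · refine le_trans ?_ hW0low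
      apply mul_le_mul_of_nonneg_left _ (by positivity)
      exact mul_le_mul_of_nonneg_left hmu hNr.le
  rw [hδe]
  linarith

theorem mainU0 (A : ℝ) (hA : 1 < A) (K b : ℕ) : ∃ B X0 : ℕ, ∀ X : ℕ, X0 ≤ X →
    ∀ (U Q : ℕ) (H : Finset ℕ), Real.log X ^ A ≤ H.card → H.card ≤ U → (U : ℝ) ≤ 4 * Real.log U * H.card →
    U ≤ X → 1 ≤ Q →
    ⌊Real.log (Real.log X) ^ 5⌋₊ ≤ Q → (Q : ℝ) ^ 2 * Real.log X ^ B ≤ X →
    (∀ h ∈ H, (h : ℝ) ≤ (X : ℝ) ^ (9 / 10 : ℝ)) →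
    (∀ p : ℕ, p.Prime → Real.log (Real.log X) ^ 5 < p → (p : ℝ) ≤ Real.log U ^ 8 → ∀ r : ℕ,
      ((H.filter (fun h => h % p = r)).card : ℝ) ≤ 4 * (H.card / p)) →
    (∀ p : ℕ, p.Prime → Real.log U ^ 8 < p → ∀ r : ℕ,
      ((H.filter (fun h => h % p = r)).card : ℝ) ≤ 2 * (U / p + 1)) →
    ∀ c : ℕ → ℕ → ℝ, (∀ n, 0 ≤ wt Q c n) → ∑ d ∈ Icc 1 Q, ss c d ^ 2 / d ≤ Real.log X ^ K →
    X / Real.log X ^ K ≤ ∑ n ∈ Ioc X (2 * X), wt Q c n →
    (∀ n, (∀ h ∈ H, h ≤ n) → Sv H (PQ ⌊Real.log (Real.log X) ^ 5⌋₊) n = 0 ∨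
      H.card / Real.log (Real.log X) ^ 2 ≤ Sv H (PQ ⌊Real.log (Real.log X) ^ 5⌋₊) n) →
    (∀ n, (∀ h ∈ H, h ≤ n) → wt Q c n = 0 ∨
      H.card / Real.log (Real.log X) ^ 2 ≤ Sv H (PQ ⌊Real.log (Real.log X) ^ 5⌋₊) n) →
    |∑ n ∈ Ioc X (2 * X), wt Q c n * Pr H n - 1 / (V (PQ ⌊Real.log (Real.log X) ^ 5⌋₊) * Real.log X) *
      ∑ n ∈ Ioc X (2 * X), wt Q c n * Sv H (PQ ⌊Real.log (Real.log X) ^ 5⌋₊) n| ≤
    (1 / 2 : ℝ) ^ b * (1 / (V (PQ ⌊Real.log (Real.log X) ^ 5⌋₊) * Real.log X) *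
      ∑ n ∈ Ioc X (2 * X), wt Q c n * Sv H (PQ ⌊Real.log (Real.log X) ^ 5⌋₊) n) := by
  classical
  obtain ⟨δ, hδ⟩ : ∃ δ : ℝ, δ = (1 / 2 : ℝ) ^ (b + 4) := ⟨_, rfl⟩
  have hδ0 : 0 < δ := by rw [hδ]; positivity
  have hδb : (1 / 2 : ℝ) ^ b = 16 * δ := by rw [hδ, pow_add]; norm_num; ring
  have hδ1 : δ ≤ 1 / 16 := by
    have : (1 / 2 : ℝ) ^ b ≤ 1 := pow_le_one₀ (by norm_num) (by norm_num)
    linarith
  obtain ⟨Bs, Xs, hsh⟩ := shift_ng K (K + 3)
  obtain ⟨X1, hdy⟩ := dyadic_ng δ hδ0 (by linarith)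
  obtain ⟨X2, hmod⟩ := modelU A hA K (b + 4)
  obtain ⟨X3, hml⟩ := mu_low K
  have E := (((evD δ hδ0).and (evC δ hδ0 K)).and ((log_tend.eventually_ge_atTop (1 + 8 / δ)).and
    (evl (1 / 2) 1 0 (by norm_num)))).and ((ll_tend.eventually_ge_atTop (1 : ℝ)).and (eventually_ge_atTop 3))
  obtain ⟨X4, hX4⟩ := E.exists_forall_of_atTop
  refine ⟨max Bs K, max (max (max Xs X1) (max X2 X3)) X4, ?_⟩
  intro X hX U' Q H hHA' hHU' hUH hUX hQ hyQ hQX hHA hits1 hits2 c hw hc hW hlow1 hlow2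
  obtain ⟨⟨⟨ev1, ev2⟩, ev3, ev4⟩, ev5, ev6⟩ := hX4 X ((le_max_right _ _).trans hX)
  have hXs : Xs ≤ X := (le_max_left _ _).trans ((le_max_left _ _).trans ((le_max_left _ _).trans hX))
  have hX1 : X1 ≤ X := (le_max_right _ _).trans ((le_max_left _ _).trans ((le_max_left _ _).trans hX))
  have hX2 : X2 ≤ X := (le_max_left _ _).trans ((le_max_right _ _).trans ((le_max_left _ _).trans hX))
  have hX3 : X3 ≤ X := (le_max_right _ _).trans ((le_max_right _ _).trans ((le_max_left _ _).trans hX))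
  have hXr : (0 : ℝ) < X := by exact_mod_cast (by omega : 0 < X)
  have hdivδ : 0 < 8 / δ := by positivity
  have hL1 : 1 ≤ Real.log X := by linarith
  have hQr : (1 : ℝ) ≤ Q := by exact_mod_cast hQ
  have hQXs : (Q : ℝ) ^ 2 * Real.log X ^ Bs ≤ X := by
    refine le_trans ?_ hQX
    apply mul_le_mul_of_nonneg_left _ (by positivity)
    exact pow_le_pow_right₀ hL1 (le_max_left _ _)
  have hQXK : (Q : ℝ) ^ 2 * Real.log X ^ K ≤ X := by
    refine le_trans ?_ hQX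
    apply mul_le_mul_of_nonneg_left _ (by positivity)
    exact pow_le_pow_right₀ hL1 (le_max_right _ _)
  have hQ2X : (Q : ℝ) ^ 2 ≤ X := by
    have h1 : (1 : ℝ) ≤ Real.log X ^ K := one_le_pow₀ hL1
    have h2 : 0 ≤ (Q : ℝ) ^ 2 := by positivity
    nlinarith
  have hQleX : Q ≤ X := by
    have h2 : (Q : ℝ) ≤ X := by nlinarith
    exact_mod_cast h2
  have hmu := hml X Q hX3 hQ hQXK c hc hW
  obtain ⟨L, hL⟩ : ∃ L : ℝ, L = Real.log X := ⟨_, rfl⟩
  obtain ⟨ll, hll⟩ : ∃ ll : ℝ, ll = Real.log (Real.log X) := ⟨_, rfl⟩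
  obtain ⟨y, hy⟩ : ∃ y : ℝ, y = ll ^ 5 := ⟨_, rfl⟩
  have hll0 : 0 < ll := by rw [hll]; linarith
  have hy0 : 0 ≤ y := by rw [hy]; positivity
  obtain ⟨Py, hPy⟩ : ∃ Py, Py = PQ ⌊y⌋₊ := ⟨_, rfl⟩
  have hP0y : P0 Q y = Py := by
    rw [hPy]
    apply P0_eq Q y hy0
    rw [hy, hll]; exact hyQ
  have hP : ∀ p ∈ PQ Q, p.Prime := fun p hp => (mem_PQ.1 hp).1
  have hPyp : ∀ p ∈ Py, p.Prime := fun p hp => by rw [hPy] at hp; exact (mem_PQ.1 hp).1
  have hPyQ : Py ⊆ PQ Q := by rw [← hP0y]; exact filter_subset _ _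
  obtain ⟨D, hD⟩ : ∃ D, D = ∏ p ∈ Py, p := ⟨_, rfl⟩
  have hD0 : 0 < D := by rw [hD]; exact prod_pos fun p hp => (hPyp p hp).pos
  have hDle : (D : ℝ) ≤ Real.exp (2 * ll ^ 5) := by
    rw [hD, hPy]
    refine (prod_le_exp _).trans (Real.exp_le_exp.2 ?_)
    rw [← hy]
    have := Nat.floor_le hy0
    linarith
  obtain ⟨N, hN⟩ : ∃ N, N = Q.factorial * D := ⟨_, rfl⟩
  have hN0 : 0 < N := by rw [hN]; exact Nat.mul_pos (Nat.factorial_pos _) hD0
  have hdN : ∀ d ∈ Icc 1 Q, d ∣ N := fun d hd => by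
    rw [hN]; exact (dvdfac Q d hd).trans (Dvd.intro _ rfl)
  have hdDN : ∀ d ∈ Icc 1 Q, d * D ∣ N := fun d hd => by
    rw [hN]; exact Nat.mul_dvd_mul_right (dvdfac Q d hd) D
  obtain ⟨T, hT⟩ : ∃ T, T = N * X := ⟨_, rfl⟩
  have hdT : ∀ d ∈ Icc 1 Q, d ∣ T := fun d hd => by rw [hT]; exact (hdN d hd).trans (Dvd.intro _ rfl)
  have hpT : ∀ p ∈ PQ Q, p ∣ T := fun p hp => hdT p (mem_Icc.2 ⟨(hP p hp).one_lt.le, (mem_PQ.1 hp).2⟩)
  have hXT : X ≤ T := by rw [hT]; exact Nat.le_mul_of_pos_left X hN0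
  have hhX : ∀ h ∈ H, 4 * (h * Real.log X) ≤ δ * X := by
    intro h hh
    refine le_trans ?_ ev1
    apply mul_le_mul_of_nonneg_left _ (by norm_num)
    exact mul_le_mul_of_nonneg_right (hHA h hh) (by linarith)
  have hhX4 : ∀ h ∈ H, 4 * h ≤ X := by
    intro h hh
    have h1 := hhX h hh
    have h2 : (0 : ℝ) ≤ h := Nat.cast_nonneg _
    have h3 : (h : ℝ) ≤ h * Real.log X := le_mul_of_one_le_right h2 hL1
    have h4 : δ * X ≤ X := by nlinarith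
    have h5 : 4 * (h : ℝ) ≤ X := by linarith
    exact_mod_cast h5
  have hhT : ∀ h ∈ H, h ≤ T := fun h hh => by
    have := hhX4 h hh
    omega
  obtain ⟨Hs, hHs⟩ : ∃ Hs, Hs = H.image (fun h => T - h) := ⟨_, rfl⟩
  have hinj := card_im H T hhT
  have hHsc : Hs.card = H.card := by rw [hHs]; exact card_image_of_injOn hinj
  have hLll : Real.log L = ll := by rw [hL, hll]
  have hSHSv : ∀ n, SH Hs Py n = Sv H Py (n + T) := by
    intro n
    rw [← SH_per Hs Py T n fun p hp => hpT p (hPyQ hp), hHs]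
    exact SH_im H Py T (n + T) hhT (fun h hh => (hhT h hh).trans (Nat.le_add_left _ _))
      (fun p hp => hpT p (hPyQ hp))
  -- the conditions
  have hSp : SpreadU Hs Q U' (Real.log (Real.log X) ^ 5) (Real.log (Real.log X)) := by
    refine ⟨?_, ?_, ?_⟩
    · intro p hp hpw r
      unfold P3 at hp
      rw [mem_filter, not_le, mem_PQ] at hp
      have h1 := hits1 p hp.1.1 hp.2 hpw ((r + T) % p)
      rw [hHsc]
      refine le_trans ?_ h1
      rw [hHs]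
      exact_mod_cast hits_im H T r p hhT
    · intro p hp hpw r
      unfold P3 at hp
      rw [mem_filter, not_le, mem_PQ] at hp
      have h1 := hits2 p hp.1.1 hpw ((r + T) % p)
      refine le_trans ?_ h1
      rw [hHs]
      exact_mod_cast hits_im H T r p hhT
    · intro n
      rw [← hll, ← hy, hP0y, hSHSv n, hHsc]
      have := hlow1 (n + T) (fun h hh => (hhT h hh).trans (Nat.le_add_left _ _))
      rw [← hll, ← hy, ← hPy] at this
      exact this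
  have hwtT : ∀ n, wt Q c (n + T) = wt Q c n := by
    intro n
    unfold wt
    apply sum_congr rfl
    intro d hd
    obtain ⟨k, hk⟩ := hdT d hd
    rw [hk, Nat.add_mul_mod_self_left]
  have hlow3 : ∀ n, wt Q c n = 0 ∨ (H.card : ℝ) / Real.log (Real.log X) ^ 2 ≤ SH Hs (P0 Q (Real.log (Real.log X) ^ 5)) n := by
    intro n
    have := hlow2 (n + T) (fun h hh => (hhT h hh).trans (Nat.le_add_left _ _))
    rw [hwtT, ← hll, ← hy, ← hPy] at this
    rw [← hll, ← hy, hP0y, hSHSv n]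
    exact this
  have hm := hmod X hX2 U' Q Hs (by rw [hHsc]; exact hHA') (by rw [hHsc]; exact hHU') (by rw [hHsc]; exact hUH) hUX
    hQ hQleX hSp c hw hc hmu (by rw [hHsc]; exact hlow3) N hN0 hdN
  obtain ⟨U, hUd⟩ : ∃ U : ℕ, U = H.card := ⟨_, rfl⟩
  have hHU : H.card ≤ U := hUd.ge
  rw [← hUd] at hlow3 hHA' 
  rw [← hδ, ← hll, ← hy, hP0y] at hm
  rw [← hll, ← hy, ← hPy, ← hL]
  rw [← hL] at hL1 ev3 ev4 hc hW hHA' hQXs hQXK hmu
  rw [← hll] at ev5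
  -- notation
  have hVQ : V (PQ Q) = V Py * V (P3 Q y) := by
    have h1 := prod_filter_mul_prod_filter_not (PQ Q) (fun p => (p : ℝ) ≤ y) (fun p => (1 - 1 / (p : ℝ)))
    rw [← hP0y]
    unfold V P0 P3
    exact h1.symm
  obtain ⟨V0, hV0⟩ : ∃ V0, V0 = V Py := ⟨_, rfl⟩
  obtain ⟨V3, hV3⟩ : ∃ V3, V3 = V (P3 Q y) := ⟨_, rfl⟩
  have hV00 : 0 < V0 := by rw [hV0]; exact V_pos hPyp
  have hV30 : 0 < V3 := by rw [hV3]; exact V_pos fun p hp => hP p ((filter_subset _ _) hp)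
  have hV01 : V0 ≤ 1 := by
    rw [hV0]
    have := VO_le_one (Om := fun _ => ({0} : Finset ℕ)) (P := Py) hPyp
      (fun p hp => by simpa using (hPyp p hp).one_lt)
    rwa [VO_V] at this
  rw [hVQ, ← hV0, ← hV3] at hm
  rw [← hV0]
  obtain ⟨G, hG⟩ : ∃ G, G = ∑ h ∈ Hs, RP.GG Q c h := ⟨_, rfl⟩
  rw [← hG] at hm
  have hGnn : 0 ≤ G := by rw [hG]; exact sum_nonneg fun h _ => GG_nonneg Q h c hw
  have hGH : G = ∑ h ∈ H, RP.GG Q c (T - h) := by
    rw [hG, hHs, sum_image hinj]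
  obtain ⟨W0, hW0⟩ : ∃ W0, W0 = ∑ n ∈ range N, wt Q c n * SH Hs Py n := ⟨_, rfl⟩
  rw [← hW0] at hm
  obtain ⟨R, hR⟩ : ∃ R, R = ∑ n ∈ Ioc X (2 * X), wt Q c n * Sv H Py n := ⟨_, rfl⟩
  rw [← hR]
  have hL0 : 0 < L := by linarith
  have hNr : (0 : ℝ) < N := by exact_mod_cast hN0
  have hUr : (0 : ℝ) < U := by
    have : 0 < L ^ A := by positivity
    exact lt_of_lt_of_le this hHA'
  have hmu0 : 0 < mu Q c := lt_of_lt_of_le (by positivity) hmu
  -- the lower bound for `W0`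
  have hW0low : X * (U / (2 * ll ^ 2 * L ^ K)) ≤ X / N * W0 := by
    have h1 : U / ll ^ 2 * (N * mu Q c) ≤ W0 := by
      rw [← sum_wt Q N c hdN, mul_sum, hW0]
      apply sum_le_sum
      intro n _
      have := hlow3 n
      rw [← hll, ← hy, hP0y] at this
      rcases this with h1 | h1
      · rw [h1, mul_zero, zero_mul]
      · rw [mul_comm]
        exact mul_le_mul_of_nonneg_left h1 (hw n)
    have h2 : U / ll ^ 2 * (N * (1 / (2 * L ^ K))) ≤ W0 := by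
      refine le_trans ?_ h1
      apply mul_le_mul_of_nonneg_left _ (by positivity)
      exact mul_le_mul_of_nonneg_left hmu hNr.le
    have h3 := mul_le_mul_of_nonneg_left h2 (show 0 ≤ (X : ℝ) / N by positivity)
    refine le_trans (le_of_eq ?_) h3
    field_simp
  obtain ⟨Z, hZ⟩ : ∃ Z, Z = X / N * W0 := ⟨_, rfl⟩
  rw [← hZ] at hW0low
  have hZ0 : 0 < Z := lt_of_lt_of_le (by positivity) hW0low
  -- the transfer
  have htr : |R - Z| ≤ δ * Z := by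
    have h1 := transf Q X D N c (fun n => SH Hs Py n) U hD0 hN0
      (fun n => SH_per Hs Py D n fun p hp => by rw [hD]; exact dvd_prod_of_mem (fun p : ℕ => p) hp)
      (fun n => by
        rw [abs_of_nonneg (SH_nonneg _ _ _)]
        refine (SH_le _ _ _).trans ?_
        rw [hHsc]
        exact_mod_cast hHU) hdDN
    rw [← hW0, ← hZ] at h1
    have h2 : ∑ n ∈ Ioc X (2 * X), wt Q c n * SH Hs Py n = R := by
      rw [hR]
      apply sum_congr rfl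
      intro n hn
      rw [hHs, SH_im H Py T n hhT (fun h hh => by
        have := hhX4 h hh
        have := (mem_Ioc.1 hn).1
        omega) (fun p hp => hpT p (hPyQ hp))]
    rw [h2] at h1
    refine h1.trans ?_
    have h3 : ∑ d ∈ Icc 1 Q, ss c d ≤ Q * L ^ K := by
      apply abs_le_of_sq_le_sq' _ (by positivity) |>.2
      refine (sumss Q c).trans ?_
      have h4 : ∑ d ∈ Icc 1 Q, ss c d ^ 2 / d ≤ L ^ K * L ^ K := by
        have : (1 : ℝ) ≤ L ^ K := one_le_pow₀ hL1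
        nlinarith
      calc (∑ d ∈ Icc 1 Q, ss c d ^ 2 / (d : ℝ)) * (Q : ℝ) ^ 2 ≤ L ^ K * L ^ K * (Q : ℝ) ^ 2 :=
            mul_le_mul_of_nonneg_right h4 (by positivity)
        _ = _ := by ring
    have h4 : (∑ d ∈ Icc 1 Q, ss c d) * (D * U) ≤ Q * L ^ K * (D * U) :=
      mul_le_mul_of_nonneg_right h3 (by positivity)
    refine h4.trans ?_
    have h5 := ev2 Q D (by positivity) hQ2X (Nat.cast_nonneg _) (by rw [← hll]; exact hDle)
    rw [← hL, hLll] at h5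
    refine le_trans ?_ (mul_le_mul_of_nonneg_left hW0low hδ0.le)
    have h6 : δ * (X * (U / (2 * ll ^ 2 * L ^ K))) = X * (δ * U / (2 * ll ^ 2 * L ^ K)) := by ring
    rw [h6]
    have h7 := mul_le_mul_of_nonneg_right h5 (show 0 ≤ δ * U / (2 * ll ^ 2 * L ^ K) by positivity)
    refine le_trans (le_of_eq ?_) h7
    rw [mul_comm 2 K, pow_mul]
    field_simp
  -- the primes
  obtain ⟨P1, hP1⟩ : ∃ P1, P1 = ∑ n ∈ Ioc X (2 * X), wt Q c n * Pr H n := ⟨_, rfl⟩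
  rw [← hP1]
  obtain ⟨M, hM⟩ : ∃ M, M = 1 / (V0 * L) * Z := ⟨_, rfl⟩
  have hM0 : 0 < M := by rw [hM]; positivity
  obtain ⟨G2, hG2⟩ : ∃ G2, G2 = ∑ h ∈ H, (pi1 (2 * X - h) - pi1 (X - h)) * RP.GG Q c (T - h) := ⟨_, rfl⟩
  have s1 : |P1 - G2| ≤ δ * M := by
    have h1 : P1 = ∑ h ∈ H, ∑ n ∈ Ioc X (2 * X), wt Q c n * (if (n - h).Prime then 1 else 0) := by
      rw [sum_comm, hP1]
      apply sum_congr rfl
      intro n _
      unfold Pr
      rw [card_filter, ← mul_sum]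
      push_cast
      rfl
    rw [h1, hG2, ← sum_sub_distrib]
    refine (abs_sum_le_sum_abs _ _).trans ?_
    have h2 : ∀ h ∈ H, |∑ n ∈ Ioc X (2 * X), wt Q c n * (if (n - h).Prime then 1 else 0) -
        (pi1 (2 * X - h) - pi1 (X - h)) * RP.GG Q c (T - h)| ≤ 4 * (X / L ^ (K + 3)) := by
      intro h hh
      rw [hL]
      rw [hL] at hQXs hc
      exact hsh X hXs Q hQ hQXs c hc h T (hhX4 h hh) (hhT h hh) hdT
    refine (sum_le_sum h2).trans ?_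
    rw [sum_const, nsmul_eq_mul]
    have h3 : (H.card : ℝ) * (4 * (X / L ^ (K + 3))) ≤ U * (4 * (X / L ^ (K + 3))) := by
      apply mul_le_mul_of_nonneg_right _ (by positivity)
      exact_mod_cast hHU
    refine h3.trans ?_
    have h4 : 1 / L * Z ≤ M := by
      rw [hM]
      apply mul_le_mul_of_nonneg_right _ hZ0.le
      apply one_div_le_one_div_of_le (by positivity)
      have := mul_le_mul_of_nonneg_right hV01 hL0.le
      rwa [one_mul] at this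
    have h5 : 1 / L * (X * (U / (2 * ll ^ 2 * L ^ K))) ≤ M :=
      (mul_le_mul_of_nonneg_left hW0low (by positivity)).trans h4
    refine le_trans ?_ (mul_le_mul_of_nonneg_left h5 hδ0.le)
    have h6 : δ * (1 / L * (X * (U / (2 * ll ^ 2 * L ^ K)))) =
        U * (4 * (X / L ^ (K + 3))) * ((δ * L / 8) * (L / ll ^ 2)) := by
      rw [pow_add L K 3]
      field_simp
      ring
    rw [h6]
    apply le_mul_of_one_le_right (by positivity)
    have h8 : 1 ≤ δ * L / 8 := by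
      have h10 : 8 / δ ≤ L := by linarith
      rw [div_le_iff₀ hδ0] at h10
      linarith
    have h9 : 1 ≤ L / ll ^ 2 := by
      rw [le_div_iff₀ (by positivity), one_mul]
      have h1 : ll ≤ L ^ (1 / 2 : ℝ) := by rw [hLll] at ev4; linarith
      have h2 : ll ^ 2 ≤ (L ^ (1 / 2 : ℝ)) ^ 2 := pow_le_pow_left₀ hll0.le h1 2
      have h3 : (L ^ (1 / 2 : ℝ)) ^ 2 = L := by
        rw [← Real.rpow_natCast, ← Real.rpow_mul hL0.le]
        norm_num
      exact h2.trans h3.le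
    exact one_le_mul_of_one_le_of_one_le h8 h9
  have s2 : |G2 - X / L * G| ≤ δ * (X / L * G) := by
    rw [hG2, hGH, mul_sum, ← sum_sub_distrib, mul_sum]
    refine (abs_sum_le_sum_abs _ _).trans (sum_le_sum ?_)
    intro h hh
    obtain ⟨d1, d2⟩ := hdy X hX1 h (hhX h hh)
    rw [← hL] at d1 d2
    have hg := GG_nonneg Q (T - h) c hw
    have e1 : (pi1 (2 * X - h) - pi1 (X - h)) * RP.GG Q c (T - h) - X / L * RP.GG Q c (T - h) =
        ((pi1 (2 * X - h) - pi1 (X - h)) - X / L) * RP.GG Q c (T - h) := by ring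
    rw [e1, abs_mul, abs_of_nonneg hg, ← mul_assoc]
    apply mul_le_mul_of_nonneg_right _ hg
    rw [abs_le]
    constructor <;> linarith
  have s3 : |X / L * G - M| ≤ δ * M := by
    have h1 : X / L * G - M = (X / (N * (V0 * V3) * L)) * (N * (V0 * V3) * G - V3 * W0) := by
      rw [hM, hZ]
      field_simp
    rw [h1, abs_mul, abs_of_nonneg (show 0 ≤ (X : ℝ) / (N * (V0 * V3) * L) by positivity)]
    have h2 := mul_le_mul_of_nonneg_left hm (show 0 ≤ (X : ℝ) / (N * (V0 * V3) * L) by positivity)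
    refine h2.trans (le_of_eq ?_)
    rw [hM, hZ]
    field_simp
  obtain ⟨R', hR'⟩ : ∃ R', R' = 1 / (V0 * L) * R := ⟨_, rfl⟩
  rw [← hR']
  have s4 : |R' - M| ≤ δ * M := by
    have h1 : R' - M = 1 / (V0 * L) * (R - Z) := by rw [hR', hM]; ring
    rw [h1, abs_mul, abs_of_nonneg (show 0 ≤ 1 / (V0 * L) by positivity)]
    have h2 := mul_le_mul_of_nonneg_left htr (show 0 ≤ 1 / (V0 * L) by positivity)
    refine h2.trans (le_of_eq ?_)
    rw [hM]
    ring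
  rw [hδb]
  have t1 := abs_le.1 s1
  have t2 := abs_le.1 s2
  have t3 := abs_le.1 s3
  have t4 := abs_le.1 s4
  have u0 : δ * M ≤ 1 / 16 * M := mul_le_mul_of_nonneg_right hδ1 hM0.le
  have u1 : X / L * G ≤ 2 * M := by linarith [t3.2]
  have u2 : δ * (X / L * G) ≤ δ * (2 * M) := mul_le_mul_of_nonneg_left u1 hδ0.le
  have u3 : M ≤ 2 * R' := by linarith [t4.1]
  have u4 : δ * M ≤ δ * (2 * R') := mul_le_mul_of_nonneg_left u3 hδ0.le
  have u5 : 0 ≤ δ * R' := mul_nonneg hδ0.le (by linarith)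
  rw [abs_le]
  constructor
  · linarith [t1.1, t2.1, t3.1, t4.2]
  · linarith [t1.2, t2.2, t3.2, t4.1]

theorem mainU (A : ℝ) (hA : 1 < A) (K b : ℕ) : ∃ B X0 : ℕ, ∀ X : ℕ, X0 ≤ X →
    ∀ (U Q : ℕ) (H : Finset ℕ), Real.log X ^ A ≤ H.card → H.card ≤ U → (U : ℝ) ≤ 4 * Real.log U * H.card →
    U ≤ X → 1 ≤ Q → (Q : ℝ) ^ 2 * Real.log X ^ B ≤ X →
    (∀ h ∈ H, (h : ℝ) ≤ (X : ℝ) ^ (9 / 10 : ℝ)) →
    (∀ p : ℕ, p.Prime → Real.log (Real.log X) ^ 5 < p → (p : ℝ) ≤ Real.log U ^ 8 → ∀ r : ℕ,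
      ((H.filter (fun h => h % p = r)).card : ℝ) ≤ 4 * (H.card / p)) →
    (∀ p : ℕ, p.Prime → Real.log U ^ 8 < p → ∀ r : ℕ,
      ((H.filter (fun h => h % p = r)).card : ℝ) ≤ 2 * (U / p + 1)) →
    ∀ c : ℕ → ℕ → ℝ, (∀ n, 0 ≤ wt Q c n) → ∑ d ∈ Icc 1 Q, ss c d ^ 2 / d ≤ Real.log X ^ K →
    X / Real.log X ^ K ≤ ∑ n ∈ Ioc X (2 * X), wt Q c n →
    (∀ n, (∀ h ∈ H, h ≤ n) → Sv H (PQ ⌊Real.log (Real.log X) ^ 5⌋₊) n = 0 ∨
      H.card / Real.log (Real.log X) ^ 2 ≤ Sv H (PQ ⌊Real.log (Real.log X) ^ 5⌋₊) n) →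
    (∀ n, (∀ h ∈ H, h ≤ n) → wt Q c n = 0 ∨
      H.card / Real.log (Real.log X) ^ 2 ≤ Sv H (PQ ⌊Real.log (Real.log X) ^ 5⌋₊) n) →
    |∑ n ∈ Ioc X (2 * X), wt Q c n * Pr H n - 1 / (V (PQ ⌊Real.log (Real.log X) ^ 5⌋₊) * Real.log X) *
      ∑ n ∈ Ioc X (2 * X), wt Q c n * Sv H (PQ ⌊Real.log (Real.log X) ^ 5⌋₊) n| ≤
    (1 / 2 : ℝ) ^ b * (1 / (V (PQ ⌊Real.log (Real.log X) ^ 5⌋₊) * Real.log X) *
      ∑ n ∈ Ioc X (2 * X), wt Q c n * Sv H (PQ ⌊Real.log (Real.log X) ^ 5⌋₊) n) := by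
  obtain ⟨B, X0, hm⟩ := mainU0 A hA K b
  have E := ((evB ((B : ℝ) + 10) 1 one_pos).and (evl 1 1 0 one_pos)).and
    ((ll_tend.eventually_ge_atTop (1 : ℝ)).and ((log_tend.eventually_ge_atTop (1 : ℝ)).and (eventually_ge_atTop 3)))
  obtain ⟨X4, hX4⟩ := E.exists_forall_of_atTop
  refine ⟨B, max X0 X4, ?_⟩
  intro X hX U Q H hHA' hHU hUH hUX hQ hQX hHA hits1 hits2 c hw hc hW hlow1 hlow2
  obtain ⟨⟨ev1, ev2⟩, ev3, ev4, ev5⟩ := hX4 X ((le_max_right _ _).trans hX)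
  obtain ⟨Q', hQ'⟩ : ∃ Q', Q' = max Q ⌊Real.log (Real.log X) ^ 5⌋₊ := ⟨_, rfl⟩
  have hQQ' : Q ≤ Q' := by rw [hQ']; exact le_max_left _ _
  have hyQ' : ⌊Real.log (Real.log X) ^ 5⌋₊ ≤ Q' := by rw [hQ']; exact le_max_right _ _
  have hwe : ∀ n, wt Q' (ext0 Q c) n = wt Q c n := wt_ext Q Q' hQQ' c
  have hse : ∑ d ∈ Icc 1 Q', ss (ext0 Q c) d ^ 2 / d = ∑ d ∈ Icc 1 Q, ss c d ^ 2 / d := by
    rw [← ext_sum Q Q' hQQ']
    apply sum_congr rfl
    intro d _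
    rw [ss_ext]
    split_ifs
    · rfl
    · simp
  have hQX' : (Q' : ℝ) ^ 2 * Real.log X ^ B ≤ X := by
    rcases le_total Q ⌊Real.log (Real.log X) ^ 5⌋₊ with h | h
    · rw [hQ', max_eq_right h]
      have hL0 : (0 : ℝ) < Real.log X := lt_of_lt_of_le one_pos ev4
      have hll0 : (0 : ℝ) < Real.log (Real.log X) := lt_of_lt_of_le one_pos ev3
      have h1 : (⌊Real.log (Real.log X) ^ 5⌋₊ : ℝ) ≤ Real.log (Real.log X) ^ 5 := Nat.floor_le (by positivity)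
      have h2 : Real.log (Real.log X) ≤ Real.log X := by
        rw [Real.rpow_one, one_mul, add_zero] at ev2
        exact ev2
      have h3 : (⌊Real.log (Real.log X) ^ 5⌋₊ : ℝ) ^ 2 ≤ Real.log X ^ 10 := by
        calc (⌊Real.log (Real.log X) ^ 5⌋₊ : ℝ) ^ 2 ≤ (Real.log (Real.log X) ^ 5) ^ 2 :=
              pow_le_pow_left₀ (Nat.cast_nonneg _) h1 2
          _ = Real.log (Real.log X) ^ 10 := by ring
          _ ≤ Real.log X ^ 10 := pow_le_pow_left₀ hll0.le h2 10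
      have h4 : Real.log X ^ ((B : ℝ) + 10) = Real.log X ^ 10 * Real.log X ^ B := by
        rw [show ((B : ℝ) + 10) = ((10 + B : ℕ) : ℝ) by push_cast; ring, Real.rpow_natCast, pow_add]
      rw [h4] at ev1
      have h5 := mul_le_mul_of_nonneg_right h3 (show 0 ≤ Real.log X ^ B by positivity)
      have h6 : 0 ≤ Real.log X ^ 10 * Real.log X ^ B := by positivity
      have h7 : Real.log X ^ 10 * Real.log X ^ B ≤ Real.log X ^ 10 * Real.log X ^ B * Real.log X :=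
        le_mul_of_one_le_right h6 ev4
      have h8 : 0 ≤ Real.log X ^ 10 * Real.log X ^ B * Real.log X := mul_nonneg h6 hL0.le
      rw [one_mul] at ev1
      exact h5.trans (h7.trans (le_trans (by linarith) ev1))
    · rw [hQ', max_eq_left h]
      exact hQX
  have := hm X ((le_max_left _ _).trans hX) U Q' H hHA' hHU hUH hUX (hQ.trans hQQ') hyQ' hQX' hHA hits1 hits2 (ext0 Q c)
    (fun n => by rw [hwe]; exact hw n) (by rw [hse]; exact hc)
    (by rw [sum_congr rfl fun n _ => hwe n]; exact hW) hlow1 (fun n hn => by rw [hwe]; exact hlow2 n hn)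
  simp only [hwe] at this
  exact this

end Pool.Agent.Y829.SB
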