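import Pool.Agent.Y829.RP3
import Pool.Agent.Y829.RS2

/-! The fundamental lemma for the primes in a dyadic interval. -/

set_option autoImplicit false

namespace Pool.Agent.Y829.SB

open Finset Filter Topology Pool.Agent.Y829 Pool.Agent.Y829.RP Pool.Agent.Y829.RS
open H343E Pool.Agent.TH423.SH.PSUa

/-- the primes of `(U, 2U]` -/
def HP (U : ℕ) : Finset ℕ := (Ioc U (2 * U)).filter Nat.Prime

lemma HP_card (U : ℕ) : ((HP U).card : ℝ) = pi1 (2 * U) - pi1 U := by
  unfold HP pi1
  rw [eq_sub_iff_add_eq]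
  have h2 : (Icc 1 (2 * U)).filter (fun p => p.Prime) =
      (Ioc U (2 * U)).filter Nat.Prime ∪ (Icc 1 U).filter (fun p => p.Prime) := by
    ext p
    simp only [mem_filter, mem_union, mem_Ioc, mem_Icc]
    constructor
    · rintro ⟨h3, h4⟩
      by_cases h5 : p ≤ U
      · exact Or.inr ⟨⟨h3.1, h5⟩, h4⟩
      · exact Or.inl ⟨⟨by omega, h3.2⟩, h4⟩
    · rintro (⟨h3, h4⟩ | ⟨h3, h4⟩)
      · exact ⟨⟨by omega, h3.2⟩, h4⟩
      · exact ⟨⟨h3.1, by omega⟩, h4⟩
  have h3 : Disjoint ((Ioc U (2 * U)).filter Nat.Prime) ((Icc 1 U).filter (fun p => p.Prime)) := by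
    rw [disjoint_left]
    intro p hp hp'
    rw [mem_filter, mem_Ioc] at hp
    rw [mem_filter, mem_Icc] at hp'
    omega
  rw [h2, card_union_of_disjoint h3]
  push_cast
  ring

lemma HP_ap (U q a : ℕ) : (((HP U).filter (fun p => p ≡ a [MOD q])).card : ℝ) = piAP (2 * U) q a - piAP U q a := by
  unfold HP piAP
  rw [eq_sub_iff_add_eq, filter_filter]
  have h2 : (Icc 1 (2 * U)).filter (fun p => p.Prime ∧ p ≡ a [MOD q]) =
      (Ioc U (2 * U)).filter (fun p => p.Prime ∧ p ≡ a [MOD q]) ∪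
      (Icc 1 U).filter (fun p => p.Prime ∧ p ≡ a [MOD q]) := by
    ext p
    simp only [mem_filter, mem_union, mem_Ioc, mem_Icc]
    constructor
    · rintro ⟨h3, h4⟩
      by_cases h5 : p ≤ U
      · exact Or.inr ⟨⟨h3.1, h5⟩, h4⟩
      · exact Or.inl ⟨⟨by omega, h3.2⟩, h4⟩
    · rintro (⟨h3, h4⟩ | ⟨h3, h4⟩)
      · exact ⟨⟨by omega, h3.2⟩, h4⟩
      · exact ⟨⟨h3.1, by omega⟩, h4⟩
  have h3 : Disjoint ((Ioc U (2 * U)).filter (fun p => p.Prime ∧ p ≡ a [MOD q]))
      ((Icc 1 U).filter (fun p => p.Prime ∧ p ≡ a [MOD q])) := by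
    rw [disjoint_left]
    intro p hp hp'
    rw [mem_filter, mem_Ioc] at hp
    rw [mem_filter, mem_Icc] at hp'
    omega
  rw [h2, card_union_of_disjoint h3]
  push_cast
  ring

/-- the Siegel-Walfisz theorem, from the Bombieri-Vinogradov theorem -/
lemma sw (C K : ℕ) : ∃ x0 : ℕ, 3 ≤ x0 ∧ ∀ U : ℕ, x0 ≤ U → ∀ q a : ℕ, 1 ≤ q → (q : ℝ) ≤ Real.log U ^ C → a.Coprime q →
    |(((HP U).filter (fun p => p ≡ a [MOD q])).card : ℝ) - (HP U).card / (Nat.totient q : ℝ)| ≤
      U / Real.log U ^ K := by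
  obtain ⟨B0, x0, hBV⟩ := primes_of (K + 2) (unsmoothed (K + 2 + 2))
  have h1 := (Real.isLittleO_pow_log_id_atTop (n := 2 * C + B0)).def (show (0 : ℝ) < 1 / 2 ^ B0 by positivity)
  have h2 := tendsto_natCast_atTop_atTop (R := ℝ) |>.eventually h1
  obtain ⟨x1, h3⟩ := (h2.and (log_tend.eventually_ge_atTop (3 : ℝ))).exists_forall_of_atTop
  refine ⟨max (max x0 x1) 3, le_max_right _ _, ?_⟩
  intro U hU q a hq hqU ha
  have hU0 : x0 ≤ U := (le_max_left _ _).trans ((le_max_left _ _).trans hU)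
  have hU1 : x1 ≤ U := (le_max_right _ _).trans ((le_max_left _ _).trans hU)
  have hU3 : 3 ≤ U := (le_max_right _ _).trans hU
  obtain ⟨e1, e2⟩ := h3 U hU1
  have hUr : (0 : ℝ) < U := by exact_mod_cast (by omega : 0 < U)
  obtain ⟨L, hL⟩ : ∃ L : ℝ, L = Real.log U := ⟨_, rfl⟩
  rw [← hL] at e1 e2 hqU ⊢
  have hL0 : 0 < L := by linarith
  rw [id, Real.norm_of_nonneg (by positivity), Real.norm_of_nonneg hUr.le] at e1
  have e1' : L ^ (2 * C + B0) * 2 ^ B0 ≤ U := by
    have h4 := mul_le_mul_of_nonneg_right e1 (show (0 : ℝ) ≤ 2 ^ B0 by positivity)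
    refine h4.trans (le_of_eq ?_)
    field_simp
  have key : ∀ x : ℕ, U ≤ x → x ≤ 2 * U → ee x q ≤ (x : ℝ) / L ^ (K + 2) := by
    intro x hx hx2
    have hx1 : (U : ℝ) ≤ x := by exact_mod_cast hx
    have hx2r : (x : ℝ) ≤ 2 * U := by exact_mod_cast hx2
    have hxr : (0 : ℝ) < x := by linarith
    have hlx : L ≤ Real.log x := by rw [hL]; exact Real.log_le_log hUr hx1
    have hlx2 : Real.log x ≤ 2 * L := by
      have h5 := Real.log_le_log hxr hx2r
      rw [Real.log_mul (by norm_num) hUr.ne', ← hL] at h5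
      have h6 : Real.log 2 ≤ 1 := by
        have := Real.log_two_lt_d9
        linarith
      linarith
    have hlx0 : 0 < Real.log x := by linarith
    have hq2 : (q : ℝ) ^ 2 ≤ x / Real.log x ^ B0 := by
      rw [le_div_iff₀ (by positivity)]
      calc (q : ℝ) ^ 2 * Real.log x ^ B0 ≤ (L ^ C) ^ 2 * (2 * L) ^ B0 := by
            apply mul_le_mul _ _ (by positivity) (by positivity)
            · exact pow_le_pow_left₀ (Nat.cast_nonneg _) hqU 2
            · exact pow_le_pow_left₀ hlx0.le hlx2 _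
        _ = L ^ (2 * C + B0) * 2 ^ B0 := by
            rw [mul_pow, ← pow_mul, pow_add, mul_comm C 2]
            ring
        _ ≤ U := e1'
        _ ≤ x := hx1
    have hq1 : (1 : ℝ) ≤ q := by exact_mod_cast hq
    have hqq : (q : ℝ) ≤ q ^ 2 := by nlinarith
    have h7 := hBV x (hU0.trans hx) 1 le_rfl q (hqq.trans hq2) (by rw [one_mul]; exact hq2) (LL x) (LL_fam x)
    rw [one_mul] at h7
    have h8 : ee x q ≤ ∑ d ∈ Icc 1 q, ee x d :=
      single_le_sum (f := fun d => ee x d) (fun d _ => ee_nonneg x d) (mem_Icc.2 ⟨hq, le_rfl⟩)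
    refine (h8.trans h7).trans ?_
    apply div_le_div_of_nonneg_left hxr.le (by positivity)
    exact pow_le_pow_left₀ hL0.le hlx _
  have k1 := key U le_rfl (by omega)
  have k2 := key (2 * U) (by omega) le_rfl
  have hqa : (a % q).Coprime q := by
    rw [Nat.Coprime, ← Nat.gcd_rec, Nat.gcd_comm]
    exact ha
  have hlt : a % q < q := Nat.mod_lt _ (by omega)
  have f1 := FF_le_ee U q (a % q) hlt hqa
  have f2 := FF_le_ee (2 * U) q (a % q) hlt hqa
  have hap : ∀ x, piAP x q (a % q) = piAP x q a := by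
    intro x
    unfold piAP
    refine congrArg Nat.cast (congrArg card ?_)
    apply filter_congr
    intro p _
    constructor
    · rintro ⟨h1, h2⟩; exact ⟨h1, h2.trans (Nat.mod_modEq _ _)⟩
    · rintro ⟨h1, h2⟩; exact ⟨h1, h2.trans (Nat.mod_modEq _ _).symm⟩
  unfold FF at f1 f2
  rw [hap] at f1 f2
  rw [HP_ap, HP_card]
  have e3 : piAP (2 * U) q a - piAP U q a - (pi1 (2 * U) - pi1 U) / (Nat.totient q : ℝ) =
      (piAP (2 * U) q a - pi1 (2 * U) / (Nat.totient q : ℝ)) - (piAP U q a - pi1 U / (Nat.totient q : ℝ)) := by ring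
  rw [e3]
  refine (abs_sub _ _).trans ?_
  push_cast at k2
  have h9 : (2 * (U : ℝ)) / L ^ (K + 2) + U / L ^ (K + 2) ≤ U / L ^ K := by
    have h10 : (2 * (U : ℝ)) / L ^ (K + 2) + U / L ^ (K + 2) = (U / L ^ K) * (3 / L ^ 2) := by
      rw [pow_add]
      field_simp
      ring
    rw [h10]
    have h11 : 3 / L ^ 2 ≤ 1 := by
      rw [div_le_one (by positivity)]
      nlinarith
    exact mul_le_of_le_one_right (by positivity) h11
  linarith

lemma HP_low : ∃ x0 : ℕ, 3 ≤ x0 ∧ ∀ U : ℕ, x0 ≤ U → U / (2 * Real.log U) ≤ ((HP U).card : ℝ) ∧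
    ((HP U).card : ℝ) ≤ U := by
  obtain ⟨X1, h⟩ := dyadic (1 / 2) (by norm_num) (by norm_num)
  refine ⟨max X1 3, le_max_right _ _, ?_⟩
  intro U hU
  obtain ⟨h1, -⟩ := h U ((le_max_left _ _).trans hU) 0 (Nat.zero_le _)
  simp only [add_zero] at h1
  rw [HP_card]
  constructor
  · refine le_trans (le_of_eq ?_) h1
    rw [div_mul_eq_div_div]
    ring
  · rw [← HP_card]
    unfold HP
    have h2 : ((Ioc U (2 * U)).filter Nat.Prime).card ≤ (Ioc U (2 * U)).card := card_filter_le _ _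
    rw [Nat.card_Ioc] at h2
    exact_mod_cast h2.trans (by omega)

/-- the hits -/
lemma HP_hits (U p r : ℕ) (hp : 0 < p) : (((HP U).filter (fun h => h % p = r)).card : ℝ) ≤ 2 * ((U : ℝ) / p + 1) := by
  by_cases hr : r < p
  · have h1 := (abs_le.1 (cnt_mod (U + 1) (2 * U + 1) p r (by omega) hp)).2
    have h2 : ((HP U).filter (fun h => h % p = r)).card ≤
        ((Ico (U + 1) (2 * U + 1)).filter (fun n => n ≡ r [MOD p])).card := by
      apply card_le_card
      intro h hh
      rw [mem_filter] at hh ⊢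
      unfold HP at hh
      rw [mem_filter, mem_Ioc] at hh
      refine ⟨mem_Ico.2 (by omega), ?_⟩
      show h % p = r % p
      rw [hh.2, Nat.mod_eq_of_lt hr]
    have h3 : (((HP U).filter (fun h => h % p = r)).card : ℝ) ≤
        (((Ico (U + 1) (2 * U + 1)).filter (fun n => n ≡ r [MOD p])).card : ℝ) := by exact_mod_cast h2
    have h4 : (((2 * U + 1 : ℕ) : ℝ) - ((U + 1 : ℕ) : ℝ)) / (p : ℝ) = (U : ℝ) / p := by
      push_cast
      congr 1
      ring
    rw [h4] at h1
    have h5 : 0 ≤ (U : ℝ) / p := by positivity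
    linarith
  · have h2 : (HP U).filter (fun h => h % p = r) = ∅ := by
      rw [filter_eq_empty_iff]
      intro h _ hh
      have := Nat.mod_lt h hp
      omega
    rw [h2, card_empty]
    push_cast
    positivity

lemma HP_hits_small : ∃ x0 : ℕ, ∀ U : ℕ, x0 ≤ U → ∀ p r : ℕ, p.Prime → (p : ℝ) ≤ Real.log U ^ 8 →
    (((HP U).filter (fun h => h % p = r)).card : ℝ) ≤ 4 * ((HP U).card / p) := by
  obtain ⟨x1, -, h1⟩ := sw 8 10
  obtain ⟨x2, -, h2⟩ := HP_low
  have h3 := (Real.isLittleO_pow_log_id_atTop (n := 8)).def (show (0 : ℝ) < 1 by norm_num)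
  have h4 := tendsto_natCast_atTop_atTop (R := ℝ) |>.eventually h3
  obtain ⟨x3, h5⟩ := (h4.and ((log_tend.eventually_ge_atTop (2 : ℝ)).and (eventually_ge_atTop 3))).exists_forall_of_atTop
  refine ⟨max (max x1 x2) x3, ?_⟩
  intro U hU p r hp hpU
  obtain ⟨e1, e2, e3⟩ := h5 U ((le_max_right _ _).trans hU)
  have g1 := h1 U ((le_max_left _ _).trans ((le_max_left _ _).trans hU))
  obtain ⟨g2, -⟩ := h2 U ((le_max_right _ _).trans ((le_max_left _ _).trans hU))
  have hUr : (0 : ℝ) < U := by exact_mod_cast (by omega : 0 < U)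
  obtain ⟨L, hL⟩ : ∃ L : ℝ, L = Real.log U := ⟨_, rfl⟩
  rw [← hL] at e1 e2 hpU g1 g2
  have hL0 : 0 < L := by linarith
  rw [id, one_mul, Real.norm_of_nonneg (by positivity), Real.norm_of_nonneg hUr.le] at e1
  have hp0 : (0 : ℝ) < p := by exact_mod_cast hp.pos
  have hc0 : (0 : ℝ) ≤ (HP U).card := Nat.cast_nonneg _
  have hnn : 0 ≤ 4 * (((HP U).card : ℝ) / p) := by positivity
  by_cases hr : r < p
  · by_cases hr0 : r = 0
    · have h6 : (HP U).filter (fun h => h % p = r) = ∅ := by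
        rw [filter_eq_empty_iff]
        intro h hh hh2
        unfold HP at hh
        rw [mem_filter, mem_Ioc] at hh
        rw [hr0] at hh2
        have h7 : p ∣ h := Nat.dvd_of_mod_eq_zero hh2
        have h8 : p = h := (Nat.prime_dvd_prime_iff_eq hp hh.2).1 h7
        have h9 : (p : ℝ) ≤ U := hpU.trans e1
        have h10 : p ≤ U := by exact_mod_cast h9
        omega
      rw [h6, card_empty]
      simpa using hnn
    · have hcop : r.Coprime p := by
        rw [Nat.coprime_comm, Nat.Prime.coprime_iff_not_dvd hp]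
        intro h
        have := Nat.le_of_dvd (by omega) h
        omega
      have h6 := (abs_le.1 (g1 p r hp.one_lt.le hpU hcop)).2
      have h7 : (HP U).filter (fun h => h % p = r) = (HP U).filter (fun h => h ≡ r [MOD p]) := by
        apply filter_congr
        intro h _
        unfold Nat.ModEq
        rw [Nat.mod_eq_of_lt hr]
      rw [h7]
      rw [Nat.totient_prime hp] at h6
      have h8 : ((p - 1 : ℕ) : ℝ) = p - 1 := by
        rw [Nat.cast_sub hp.one_lt.le]; simp
      rw [h8] at h6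
      have hp2 : (2 : ℝ) ≤ p := by exact_mod_cast hp.two_le
      have h9 : ((HP U).card : ℝ) / (p - 1) ≤ 2 * ((HP U).card / p) := by
        rw [mul_div_assoc', div_le_div_iff₀ (by linarith) hp0]
        nlinarith
      have h10 : (U : ℝ) / L ^ 10 ≤ 2 * ((HP U).card / p) := by
        have h11 : (U : ℝ) / (2 * L) / L ^ 8 ≤ (HP U).card / p := by
          apply div_le_div₀ hc0 g2 hp0 hpU
        have h12 : (U : ℝ) / L ^ 10 ≤ 2 * (U / (2 * L) / L ^ 8) := by
          have h13 : 2 * ((U : ℝ) / (2 * L) / L ^ 8) = U / L ^ 9 := by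
            field_simp
          rw [h13]
          apply div_le_div_of_nonneg_left hUr.le (by positivity)
          exact pow_le_pow_right₀ (by linarith) (by norm_num)
        linarith
      linarith
  · have h6 : (HP U).filter (fun h => h % p = r) = ∅ := by
      rw [filter_eq_empty_iff]
      intro h _ hh
      have := Nat.mod_lt h hp.pos
      omega
    rw [h6, card_empty]
    simpa using hnn

end Pool.Agent.Y829.SB
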