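import Pool.Agent.Y829.SB4

/-! The fundamental lemma for the primes in a dyadic interval: sifting by `p ∣ N - h`. -/

set_option autoImplicit false

namespace Pool.Agent.Y829.SB

open Finset Filter Topology Pool.Agent.Y829 Pool.Agent.Y829.RP Pool.Agent.Y829.RS

/-- the local factor -/
noncomputable def GN (k N : ℕ) : ℝ := ∏ p ∈ (PQ k).filter (fun p => ¬ p ∣ N), (1 - 1 / ((p : ℝ) - 1))

lemma GN_low (k N : ℕ) (hN : Even N) : V (PQ k) ^ 2 ≤ GN k N := by
  have h0 : ∀ p ∈ PQ k, p.Prime := fun p hp => (mem_PQ.1 hp).1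
  have h1 : V (PQ k) ^ 2 = ∏ p ∈ PQ k, (1 - 1 / (p : ℝ)) ^ 2 := by
    unfold V
    rw [prod_pow]
  rw [h1]
  have h2 : GN k N = ∏ p ∈ PQ k, (if ¬ p ∣ N then (1 - 1 / ((p : ℝ) - 1)) else 1) := by
    unfold GN
    rw [prod_filter]
  rw [h2]
  apply Finset.prod_le_prod
  · intro p _; positivity
  · intro p hp
    have hpp := h0 p hp
    have hp2 : (2 : ℝ) ≤ p := by exact_mod_cast hpp.two_le
    have hp1 : 0 < 1 - 1 / (p : ℝ) := fac_pos hpp
    have hp1' : 1 - 1 / (p : ℝ) ≤ 1 := by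
      have : 0 < 1 / (p : ℝ) := by positivity
      linarith
    by_cases h : p ∣ N
    · rw [if_neg (not_not.2 h)]
      exact pow_le_one₀ hp1.le hp1'
    · rw [if_pos h]
      have hp3 : 3 ≤ p := by
        rcases hpp.eq_two_or_odd' with h3 | h3
        · rw [h3] at h
          exact absurd hN.two_dvd h
        · have := hpp.two_le
          obtain ⟨m, hm⟩ := h3
          omega
      have hp3r : (3 : ℝ) ≤ p := by exact_mod_cast hp3
      have e1 : (1 - 1 / ((p : ℝ) - 1)) - (1 - 1 / (p : ℝ)) ^ 2 = (p ^ 2 - 3 * p + 1) / (p ^ 2 * (p - 1)) := by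
        have a1 : (p : ℝ) ≠ 0 := by linarith
        have a2 : (p : ℝ) - 1 ≠ 0 := by linarith
        field_simp
        ring
      have e2 : 0 ≤ ((p : ℝ) ^ 2 - 3 * p + 1) / (p ^ 2 * (p - 1)) := by
        apply div_nonneg
        · nlinarith
        · have : (0 : ℝ) ≤ (p : ℝ) - 1 := by linarith
          positivity
      linarith

lemma GN_pos (k N : ℕ) (hN : Even N) : 0 < GN k N := by
  have h1 := GN_low k N hN
  have h2 : 0 < V (PQ k) := V_pos fun p hp => (mem_PQ.1 hp).1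
  have : 0 < V (PQ k) ^ 2 := by positivity
  linarith

/-- one class modulo the small primes -/
lemma oneclass (U N D Dd : ℕ) (r : ℕ) (b J : ℕ) (E : ℝ) (C0 : ℕ) (hD0 : 0 < D)
    (hfl : ∀ (b J z0 : ℕ) (P : Finset ℕ) (g : ℕ → ℝ)
      (Om : ℕ → Finset ℕ), C0 ≤ b → C0 ≤ z0 → (∀ p ∈ P, p.Prime ∧ z0 < p ∧ p ≤ 2 ^ 2 ^ J) →
      (∀ p ∈ P, (Om p).card ≤ 1) → (∀ p ∈ P, 0 ≤ g p ∧ g p ≤ 1 / ((p : ℝ) - 1)) →
      ∀ (S : Finset ℕ) (w : ℕ → ℝ) (A : ℝ) (err : ℕ → ℝ), (∀ n ∈ S, 0 ≤ w n) → 0 ≤ A →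
      (∀ m, 0 ≤ err m) → (∀ T ⊆ P, ∏ p ∈ T, p ≤ (2 ^ 2 ^ J) ^ (C0 * b) → ∀ c : ℕ → ℕ, (∀ p ∈ T, c p ∈ Om p) →
        |∑ n ∈ S.filter (fun n => ∀ p ∈ T, n % p = c p), w n - A * ∏ p ∈ T, g p| ≤
          err (∏ p ∈ T, p)) →
      |∑ n ∈ S.filter (fun n => ∀ p ∈ P, n % p ∉ Om p), w n -
        A * ∏ p ∈ P, (1 - ((Om p).card : ℝ) * g p)| ≤
        (1 / 2 : ℝ) ^ b * (A * ∏ p ∈ P, (1 - ((Om p).card : ℝ) * g p)) +
          ((J : ℝ) + 2) *
            ∑ T ∈ P.powerset.filter (fun T : Finset ℕ => ∏ p ∈ T, p ≤ (2 ^ 2 ^ J) ^ (C0 * b)),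
              ((1 : ℕ) : ℝ) ^ T.card * err (∏ p ∈ T, p))
    (hb : C0 ≤ b) (P2 : Finset ℕ) (hP2 : ∀ p ∈ P2, p.Prime ∧ C0 < p ∧ p ≤ 2 ^ 2 ^ J ∧ ¬ p ∣ N ∧ D.Coprime p)
    (hDd : Dd = (2 ^ 2 ^ J) ^ (C0 * b)) (hE : 0 ≤ E) (hr : r < D) (hrD : r.Coprime D)
    (hsw : ∀ q a : ℕ, 1 ≤ q → q ≤ D * Dd → a.Coprime q →
      |(((HP U).filter (fun p => p ≡ a [MOD q])).card : ℝ) - (HP U).card / (Nat.totient q : ℝ)| ≤ E) :
    |((((HP U).filter (fun h => h % D = r)).filter (fun h => ∀ p ∈ P2, h % p ≠ N % p)).card : ℝ) -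
      (HP U).card / (Nat.totient D : ℝ) * ∏ p ∈ P2, (1 - 1 / ((p : ℝ) - 1))| ≤
      (1 / 2 : ℝ) ^ b * ((HP U).card / (Nat.totient D : ℝ) * ∏ p ∈ P2, (1 - 1 / ((p : ℝ) - 1))) +
        ((J : ℝ) + 2) * (Dd * E) := by
  classical
  have hP2p : ∀ p ∈ P2, p.Prime := fun p hp => (hP2 p hp).1
  have hφD : (0 : ℝ) < Nat.totient D := by exact_mod_cast Nat.totient_pos.2 hD0
  have h1 := hfl b J C0 P2 (fun p => 1 / ((p : ℝ) - 1)) (fun p => {N % p}) hb le_rfl
    (fun p hp => ⟨(hP2 p hp).1, (hP2 p hp).2.1, (hP2 p hp).2.2.1⟩) (fun p _ => by simp)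
    (fun p hp => ⟨by
      have : (2 : ℝ) ≤ p := by exact_mod_cast (hP2p p hp).two_le
      have h2 : (0 : ℝ) ≤ (p : ℝ) - 1 := by linarith
      positivity, le_rfl⟩)
    ((HP U).filter (fun h => h % D = r)) (fun _ => 1) ((HP U).card / (Nat.totient D : ℝ)) (fun _ => E)
    (fun _ _ => zero_le_one) (by positivity) (fun _ => hE) (by
      intro T hT hTle c hc
      have hTp : ∀ p ∈ T, p.Prime := fun p hp => hP2p p (hT hp)
      have hDT : ∀ p ∈ T, D.Coprime p := fun p hp => (hP2 p (hT hp)).2.2.2.2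
      have hcp : ∀ p ∈ T, c p = N % p := fun p hp => mem_singleton.1 (hc p hp)
      have hclt : ∀ p ∈ T, c p < p := by
        intro p hp
        rw [hcp p hp]
        exact Nat.mod_lt _ (hTp p hp).pos
      obtain ⟨v, hv⟩ := crt D T hTp hDT r hr c hclt
      have hm0 : 0 < ∏ p ∈ T, p := prod_pos fun p hp => (hTp p hp).pos
      have hvv := (hv v).2 (Nat.ModEq.refl v)
      have hvD : v.Coprime D := by
        have h2 : v % D = r := hvv.1
        rw [Nat.coprime_comm, Nat.Coprime, Nat.gcd_rec, h2]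
        exact hrD
      have hvT : v.Coprime (∏ p ∈ T, p) := by
        apply Nat.Coprime.prod_right
        intro p hp
        rw [Nat.coprime_comm, Nat.Prime.coprime_iff_not_dvd (hTp p hp)]
        intro h3
        have h4 := hvv.2 p hp
        rw [hcp p hp, Nat.mod_eq_zero_of_dvd h3] at h4
        exact (hP2 p (hT hp)).2.2.2.1 (Nat.dvd_of_mod_eq_zero h4.symm)
      have h5 := hsw (D * ∏ p ∈ T, p) v (Nat.mul_pos hD0 hm0) (by
        rw [hDd]
        exact Nat.mul_le_mul_left D hTle) (Nat.Coprime.mul_right hvD hvT)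
      have h6 : ((HP U).filter (fun h => h % D = r)).filter (fun n => ∀ p ∈ T, n % p = c p) =
          (HP U).filter (fun n => n ≡ v [MOD (D * ∏ p ∈ T, p)]) := by
        rw [filter_filter]
        apply filter_congr
        intro m _
        exact hv m
      rw [h6, sum_const, nsmul_eq_mul, mul_one]
      have h7 : (Nat.totient (D * ∏ p ∈ T, p) : ℝ) = Nat.totient D * ∏ p ∈ T, ((p : ℝ) - 1) := by
        rw [Nat.totient_mul (Nat.Coprime.prod_right hDT)]
        push_cast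
        congr 1
        have h8 : (Nat.totient (∏ p ∈ T, p) : ℝ) = ((∏ p ∈ T, p : ℕ) : ℝ) * V T := by
          have h9 := V_tot hm0
          rw [Nat.primeFactors_prod hTp] at h9
          rw [h9]
          have : ((∏ p ∈ T, p : ℕ) : ℝ) ≠ 0 := by exact_mod_cast hm0.ne'
          field_simp
        rw [h8]
        unfold V
        push_cast
        rw [← prod_mul_distrib]
        apply prod_congr rfl
        intro p hp
        have : (p : ℝ) ≠ 0 := by exact_mod_cast (hTp p hp).ne_zero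
        field_simp
      rw [h7] at h5
      have h8 : ((HP U).card : ℝ) / (Nat.totient D * ∏ p ∈ T, ((p : ℝ) - 1)) =
          (HP U).card / (Nat.totient D : ℝ) * ∏ p ∈ T, 1 / ((p : ℝ) - 1) := by
        rw [← div_div, div_eq_mul_inv _ (∏ p ∈ T, ((p : ℝ) - 1)), ← prod_inv_distrib]
        congr 1
        apply prod_congr rfl
        intro p _
        rw [one_div]
      rw [h8] at h5
      exact h5)
  have e1 : ∏ p ∈ P2, (1 - ((({N % p} : Finset ℕ).card : ℕ) : ℝ) * (1 / ((p : ℝ) - 1))) =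
      ∏ p ∈ P2, (1 - 1 / ((p : ℝ) - 1)) := by
    apply prod_congr rfl
    intro p _
    rw [card_singleton]
    push_cast
    ring
  have e2 : ∀ h : ℕ, (∀ p ∈ P2, h % p ∉ ({N % p} : Finset ℕ)) ↔ (∀ p ∈ P2, h % p ≠ N % p) := by
    intro h
    constructor
    · intro h2 p hp h3
      exact h2 p hp (mem_singleton.2 h3)
    · intro h2 p hp h3
      exact h2 p hp (mem_singleton.1 h3)
  rw [e1] at h1
  have e3 : ((HP U).filter (fun h => h % D = r)).filter (fun n => ∀ p ∈ P2, n % p ∉ ({N % p} : Finset ℕ)) =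
      ((HP U).filter (fun h => h % D = r)).filter (fun h => ∀ p ∈ P2, h % p ≠ N % p) := by
    apply filter_congr
    intro h _
    exact e2 h
  rw [e3, sum_const, nsmul_eq_mul, mul_one] at h1
  refine h1.trans ?_
  have h2 : ((J : ℝ) + 2) * ∑ T ∈ P2.powerset.filter (fun T : Finset ℕ => ∏ p ∈ T, p ≤ (2 ^ 2 ^ J) ^ (C0 * b)),
      ((1 : ℕ) : ℝ) ^ T.card * E ≤ ((J : ℝ) + 2) * (Dd * E) := by
    apply mul_le_mul_of_nonneg_left _ (by positivity)
    have h3 : ∀ T ∈ P2.powerset.filter (fun T : Finset ℕ => ∏ p ∈ T, p ≤ (2 ^ 2 ^ J) ^ (C0 * b)),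
        ((1 : ℕ) : ℝ) ^ T.card * E = E := by
      intro T _
      rw [Nat.cast_one, one_pow, one_mul]
    rw [sum_congr rfl h3, sum_const, nsmul_eq_mul]
    apply mul_le_mul_of_nonneg_right _ hE
    rw [hDd]
    exact_mod_cast Pool.Agent.TH882.FL.card_le P2 hP2p _
  exact add_le_add le_rfl h2

end Pool.Agent.Y829.SB
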