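import Pool.Agent.Y829.SB5

/-! The fundamental lemma for the primes in a dyadic interval: sifting by `p ∣ N - h`. -/

set_option autoImplicit false

namespace Pool.Agent.Y829.SB

open Finset Filter Topology Pool.Agent.Y829 Pool.Agent.Y829.RP Pool.Agent.Y829.RS

theorem smallP (b : ℕ) : ∃ U0 : ℕ, 3 ≤ U0 ∧ ∀ U : ℕ, U0 ≤ U → ∀ k N : ℕ, (k : ℝ) ≤ Real.log U ^ 8 → Even N →
    |(((HP U).filter (fun h => ∀ p ∈ PQ k, h % p ≠ N % p)).card : ℝ) - (HP U).card * GN k N| ≤
      (1 / 2 : ℝ) ^ b * ((HP U).card * GN k N) := by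
  classical
  obtain ⟨C0, hC0, hfl⟩ := Pool.Agent.TH882.FL.fla 1
  obtain ⟨b', hb'⟩ : ∃ b', b' = max (b + 1) C0 := ⟨_, rfl⟩
  have hb'1 : b + 1 ≤ b' := by rw [hb']; exact le_max_left _ _
  have hb'2 : C0 ≤ b' := by rw [hb']; exact le_max_right _ _
  obtain ⟨C, hC⟩ : ∃ C, C = 17 * (C0 * b') := ⟨_, rfl⟩
  obtain ⟨x1, hx1, hsw⟩ := sw (C + 1) (C + 19)
  obtain ⟨x2, hx2, hlow⟩ := HP_low
  have h3 := (Real.isLittleO_pow_log_id_atTop (n := 8)).def (show (0 : ℝ) < 1 by norm_num)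
  have h4 := tendsto_natCast_atTop_atTop (R := ℝ) |>.eventually h3
  obtain ⟨x3, h5⟩ := (h4.and ((log_tend.eventually_ge_atTop
    (C0.factorial * 136 * 2 ^ (b + 1) + 4 : ℝ)).and (eventually_ge_atTop 3))).exists_forall_of_atTop
  refine ⟨max (max x1 x2) x3, (hx1.trans (le_max_left _ _)).trans (le_max_left _ _), ?_⟩
  intro U hU k N hk hN
  obtain ⟨e1, e2, e3⟩ := h5 U ((le_max_right _ _).trans hU)
  have hsw' := hsw U ((le_max_left _ _).trans ((le_max_left _ _).trans hU))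
  obtain ⟨hlow1, -⟩ := hlow U ((le_max_right _ _).trans ((le_max_left _ _).trans hU))
  have hUr : (0 : ℝ) < U := by exact_mod_cast (by omega : 0 < U)
  obtain ⟨l, hl⟩ : ∃ l : ℝ, l = Real.log U := ⟨_, rfl⟩
  rw [← hl] at e1 e2 hk hlow1 hsw'
  have hfac : (1 : ℝ) ≤ C0.factorial := by exact_mod_cast Nat.factorial_pos C0
  have hpow : (1 : ℝ) ≤ 2 ^ (b + 1) := one_le_pow₀ (by norm_num)
  have hprod : 0 < (C0.factorial : ℝ) * 136 * 2 ^ (b + 1) := by positivity
  have hl4 : 4 ≤ l := by linarith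
  have hl0 : 0 < l := by linarith
  have hlfac : (C0.factorial : ℝ) * 136 * 2 ^ (b + 1) ≤ l := by linarith
  have hlfac' : (C0.factorial : ℝ) ≤ l := by
    refine le_trans ?_ hlfac
    have h6 : (1 : ℝ) ≤ 136 * 2 ^ (b + 1) := by linarith
    calc (C0.factorial : ℝ) = C0.factorial * 1 := (mul_one _).symm
      _ ≤ C0.factorial * (136 * 2 ^ (b + 1)) := mul_le_mul_of_nonneg_left h6 (by positivity)
      _ = _ := by ring
  rw [id, one_mul, Real.norm_of_nonneg (by positivity), Real.norm_of_nonneg hUr.le] at e1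
  have hkU : k ≤ U := by
    have : (k : ℝ) ≤ U := hk.trans e1
    exact_mod_cast this
  -- the scale `J`
  obtain ⟨M0, hM0⟩ : ∃ M0 : ℕ, M0 = ⌈l ^ 16⌉₊ := ⟨_, rfl⟩
  have hM01 : l ^ 16 ≤ M0 := by rw [hM0]; exact Nat.le_ceil _
  have hl16 : (4 : ℝ) ^ 16 ≤ l ^ 16 := pow_le_pow_left₀ (by norm_num) hl4 16
  have hM02 : (M0 : ℝ) ≤ l ^ 17 := by
    have h6 : (M0 : ℝ) < l ^ 16 + 1 := by rw [hM0]; exact Nat.ceil_lt_add_one (by positivity)
    have h7 : (1 : ℝ) ≤ l ^ 16 := by linarith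
    have h8 : l ^ 17 = l * l ^ 16 := by ring
    have h9 : 2 * l ^ 16 ≤ l * l ^ 16 := mul_le_mul_of_nonneg_right (by linarith) (by positivity)
    linarith
  have hM016 : (16 : ℝ) < M0 := by
    have : (16 : ℝ) < 4 ^ 16 := by norm_num
    linarith
  have hM0n : 2 ≤ M0 := by
    have : (2 : ℝ) ≤ M0 := by linarith
    exact_mod_cast this
  obtain ⟨J, hJ1, hJ2, hJ3⟩ := exJ (N := M0) (e1 := 1 / 2) hM0n (by norm_num) (by norm_num) (by
    have h6 : (2 : ℝ) = (4 : ℝ) ^ (1 / 2 : ℝ) := by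
      rw [show (4 : ℝ) = 2 ^ (2 : ℝ) by norm_num, ← Real.rpow_mul (by norm_num)]
      norm_num
    nth_rewrite 1 [h6]
    apply Real.rpow_lt_rpow (by norm_num) (by linarith) (by norm_num))
  have hJ2' : ((2 ^ 2 ^ J : ℕ) : ℝ) ≤ l ^ 17 := by
    refine hJ2.trans ?_
    norm_num
    exact hM02
  have hkJ : k ≤ 2 ^ 2 ^ J := by
    have h6 : (k : ℝ) ≤ ((2 ^ 2 ^ J : ℕ) : ℝ) := by
      refine (hk.trans ?_).trans hJ1
      have h7 : l ^ 8 = (l ^ 16) ^ (1 / 2 : ℝ) := by
        rw [← Real.rpow_natCast, ← Real.rpow_natCast, ← Real.rpow_mul hl0.le]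
        norm_num
      rw [h7]
      exact Real.rpow_le_rpow (by positivity) hM01 (by norm_num)
    exact_mod_cast h6
  have hJl : (J : ℝ) + 2 ≤ 68 * l := by
    refine hJ3.trans ?_
    have h6 : Real.log M0 ≤ 17 * Real.log l := by
      have := Real.log_le_log (by linarith) hM02
      rw [Real.log_pow] at this
      exact_mod_cast this
    have h7 : Real.log l ≤ l := (Real.log_le_sub_one_of_pos hl0).trans (by linarith)
    linarith
  obtain ⟨Dd, hDd⟩ : ∃ Dd : ℕ, Dd = (2 ^ 2 ^ J) ^ (C0 * b') := ⟨_, rfl⟩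
  have hDdle : (Dd : ℝ) ≤ l ^ C := by
    rw [hDd, hC]
    push_cast
    push_cast at hJ2'
    rw [pow_mul l 17]
    exact pow_le_pow_left₀ (by positivity) hJ2' _
  -- the primes
  obtain ⟨P1, hP1⟩ : ∃ P1, P1 = (PQ k).filter (fun p => p ≤ C0) := ⟨_, rfl⟩
  obtain ⟨P2, hP2⟩ : ∃ P2, P2 = (PQ k).filter (fun p => C0 < p ∧ ¬ p ∣ N) := ⟨_, rfl⟩
  have hPk : ∀ p ∈ PQ k, p.Prime ∧ p ≤ k := fun p hp => mem_PQ.1 hp
  have hP1' : ∀ p ∈ P1, p ∈ PQ k ∧ p ≤ C0 := fun p hp => by rw [hP1, mem_filter] at hp; exact hp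
  have hP2' : ∀ p ∈ P2, p ∈ PQ k ∧ C0 < p ∧ ¬ p ∣ N := fun p hp => by rw [hP2, mem_filter] at hp; exact hp
  have hP1p : ∀ p ∈ P1, p.Prime := fun p hp => (hPk p (hP1' p hp).1).1
  have hP2p : ∀ p ∈ P2, p.Prime := fun p hp => (hPk p (hP2' p hp).1).1
  obtain ⟨D, hD⟩ : ∃ D, D = ∏ p ∈ P1, p := ⟨_, rfl⟩
  have hD0 : 0 < D := by rw [hD]; exact prod_pos fun p hp => (hP1p p hp).pos
  have hpD : ∀ p ∈ P1, p ∣ D := fun p hp => by rw [hD]; exact dvd_prod_of_mem (fun p : ℕ => p) hp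
  have hDle : (D : ℝ) ≤ C0.factorial := by
    have h1 : D ∣ C0.factorial := by
      rw [hD]
      apply Finset.prod_primes_dvd
      · intro p hp; exact (hP1p p hp).prime
      · intro p hp
        exact (Nat.Prime.dvd_factorial (hP1p p hp)).2 (hP1' p hp).2
    exact_mod_cast Nat.le_of_dvd (Nat.factorial_pos _) h1
  obtain ⟨Om, hOm⟩ : ∃ Om : ℕ → Finset ℕ, Om = fun p => {0, N % p} := ⟨_, rfl⟩
  obtain ⟨R, hR⟩ : ∃ R, R = (range D).filter (fun r => ∀ p ∈ P1, r % p ∉ Om p) := ⟨_, rfl⟩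
  have hOmcard : ∀ p : ℕ, 0 < p → (((Om p).card : ℕ) : ℝ) = if ¬ p ∣ N then 2 else 1 := by
    intro p hp
    rw [hOm]
    by_cases h : p ∣ N
    · rw [if_neg (not_not.2 h)]
      show ((({0, N % p} : Finset ℕ).card : ℕ) : ℝ) = 1
      rw [Nat.mod_eq_zero_of_dvd h]
      simp
    · rw [if_pos h]
      show ((({0, N % p} : Finset ℕ).card : ℕ) : ℝ) = 2
      rw [card_pair]
      · norm_num
      · intro h2
        exact h (Nat.dvd_of_mod_eq_zero h2.symm)
  have hRcard : (R.card : ℝ) = ∏ p ∈ P1, ((p : ℝ) - (Om p).card) := by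
    have h1 := fullk P1 Om {0} 0 1 hP1p (fun p hp => by
      rw [hOm]
      intro x hx
      rw [mem_insert, mem_singleton] at hx
      rw [mem_range]
      rcases hx with h | h
      · rw [h]; exact (hP1p p hp).pos
      · rw [h]; exact Nat.mod_lt _ (hP1p p hp).pos) (fun p _ => Nat.coprime_one_left p)
    have h2 : ∑ j ∈ range (∏ p ∈ P1, p), ((({0} : Finset ℕ).filter (fun h => ∀ p ∈ P1, (0 + 1 * j + h) % p ∉ Om p)).card : ℝ) =
        R.card := by
      rw [hR, card_filter, ← hD]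
      push_cast
      apply sum_congr rfl
      intro j _
      have h3 : ({0} : Finset ℕ).filter (fun h => ∀ p ∈ P1, (0 + 1 * j + h) % p ∉ Om p) =
          if (∀ p ∈ P1, j % p ∉ Om p) then {0} else ∅ := by
        rw [filter_singleton]
        simp
      rw [h3]
      split_ifs <;> simp
    rw [h2] at h1
    rw [h1]
    simp
  have hφD : (Nat.totient D : ℝ) = ∏ p ∈ P1, ((p : ℝ) - 1) := by
    have h9 := V_tot hD0
    have h10 : D.primeFactors = P1 := by rw [hD]; exact Nat.primeFactors_prod hP1p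
    rw [h10] at h9
    have hDr : (D : ℝ) ≠ 0 := by exact_mod_cast hD0.ne'
    have h11 : (Nat.totient D : ℝ) = D * V P1 := by
      rw [h9]
      field_simp
    rw [h11, hD]
    unfold V
    push_cast
    rw [← prod_mul_distrib]
    apply prod_congr rfl
    intro p hp
    have : (p : ℝ) ≠ 0 := by exact_mod_cast (hP1p p hp).ne_zero
    field_simp
  have hφD0 : (0 : ℝ) < Nat.totient D := by exact_mod_cast Nat.totient_pos.2 hD0
  obtain ⟨E, hE⟩ : ∃ E : ℝ, E = U / l ^ (C + 19) := ⟨_, rfl⟩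
  have hE0 : 0 ≤ E := by rw [hE]; positivity
  obtain ⟨G2, hG2⟩ : ∃ G2, G2 = ∏ p ∈ P2, (1 - 1 / ((p : ℝ) - 1)) := ⟨_, rfl⟩
  -- one class
  have hclass : ∀ r ∈ R, |((((HP U).filter (fun h => h % D = r)).filter (fun h => ∀ p ∈ P2, h % p ≠ N % p)).card : ℝ) -
      (HP U).card / (Nat.totient D : ℝ) * G2| ≤
      (1 / 2 : ℝ) ^ b' * ((HP U).card / (Nat.totient D : ℝ) * G2) + ((J : ℝ) + 2) * (Dd * E) := by
    intro r hr
    rw [hR, mem_filter, mem_range] at hr
    rw [hG2]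
    apply oneclass U N D Dd r b' J E C0 hD0 hfl hb'2 P2 _ hDd hE0 hr.1 _ _
    · intro p hp
      refine ⟨hP2p p hp, (hP2' p hp).2.1, (hPk p (hP2' p hp).1).2.trans hkJ, (hP2' p hp).2.2, ?_⟩
      rw [hD]
      apply Nat.Coprime.prod_left
      intro q hq
      rw [Nat.coprime_primes (hP1p q hq) (hP2p p hp)]
      rintro rfl
      have := (hP1' q hq).2
      have := (hP2' q hp).2.1
      omega
    · rw [hD]
      apply Nat.Coprime.prod_right
      intro p hp
      rw [Nat.coprime_comm, Nat.Prime.coprime_iff_not_dvd (hP1p p hp)]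
      intro h
      apply hr.2 p hp
      rw [hOm, Nat.mod_eq_zero_of_dvd h]
      simp
    · intro q a hq hqD ha
      rw [hE]
      apply hsw' q a hq _ ha
      have h6 : (q : ℝ) ≤ D * Dd := by exact_mod_cast hqD
      calc (q : ℝ) ≤ D * Dd := h6
        _ ≤ l * l ^ C := mul_le_mul (hDle.trans hlfac') hDdle (Nat.cast_nonneg _) hl0.le
        _ = l ^ (C + 1) := by rw [pow_succ]; ring
  -- the sum over the classes
  have hS : (((HP U).filter (fun h => ∀ p ∈ PQ k, h % p ≠ N % p)).card : ℝ) =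
      ∑ r ∈ R, ((((HP U).filter (fun h => h % D = r)).filter (fun h => ∀ p ∈ P2, h % p ≠ N % p)).card : ℝ) := by
    have hHP : ∀ h ∈ HP U, ∀ p ∈ PQ k, h % p ≠ 0 := by
      intro h hh p hp h0
      unfold HP at hh
      rw [mem_filter, mem_Ioc] at hh
      have h1 : p ∣ h := Nat.dvd_of_mod_eq_zero h0
      have h2 := (Nat.prime_dvd_prime_iff_eq (hPk p hp).1 hh.2).1 h1
      have h3 := (hPk p hp).2
      omega
    have h1 : ((HP U).filter (fun h => ∀ p ∈ PQ k, h % p ≠ N % p)).card =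
        ∑ r ∈ R, (((HP U).filter (fun h => ∀ p ∈ PQ k, h % p ≠ N % p)).filter (fun m => m % D = r)).card := by
      apply card_eq_sum_card_fiberwise
      intro x hx
      rw [mem_coe, mem_filter] at hx
      rw [mem_coe, hR, mem_filter, mem_range]
      refine ⟨Nat.mod_lt _ hD0, fun p hp => ?_⟩
      rw [Nat.mod_mod_of_dvd _ (hpD p hp), hOm, mem_insert, mem_singleton, not_or]
      exact ⟨hHP x hx.1 p (hP1' p hp).1, hx.2 p (hP1' p hp).1⟩
    rw [h1]
    push_cast
    apply sum_congr rfl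
    intro r hr
    refine congrArg Nat.cast (congrArg card ?_)
    rw [hR, mem_filter] at hr
    ext x
    simp only [mem_filter]
    constructor
    · rintro ⟨⟨h2, h3⟩, h4⟩
      exact ⟨⟨h2, h4⟩, fun p hp => h3 p (hP2' p hp).1⟩
    · rintro ⟨⟨h2, h4⟩, h3⟩
      refine ⟨⟨h2, fun p hp => ?_⟩, h4⟩
      by_cases hpN : p ∣ N
      · rw [Nat.mod_eq_zero_of_dvd hpN]
        exact hHP x h2 p hp
      · by_cases hpC : p ≤ C0
        · have h5 := hr.2 p (by rw [hP1, mem_filter]; exact ⟨hp, hpC⟩)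
          rw [← h4, Nat.mod_mod_of_dvd _ (hpD p (by rw [hP1, mem_filter]; exact ⟨hp, hpC⟩)), hOm, mem_insert,
            mem_singleton, not_or] at h5
          exact h5.2
        · exact h3 p (by rw [hP2, mem_filter]; exact ⟨hp, not_le.1 hpC, hpN⟩)
  have hGN : GN k N = (R.card : ℝ) / Nat.totient D * G2 := by
    have h1 : (R.card : ℝ) / Nat.totient D = ∏ p ∈ P1.filter (fun p => ¬ p ∣ N), (1 - 1 / ((p : ℝ) - 1)) := by
      rw [hRcard, hφD, ← prod_div_distrib, prod_filter]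
      apply prod_congr rfl
      intro p hp
      rw [hOmcard p (hP1p p hp).pos]
      by_cases h : p ∣ N
      · rw [if_neg (not_not.2 h), if_neg (not_not.2 h)]
        have : (p : ℝ) - 1 ≠ 0 := by
          have : (2 : ℝ) ≤ p := by exact_mod_cast (hP1p p hp).two_le
          intro h0
          linarith
        exact div_self this
      · rw [if_pos h, if_pos h]
        have : (p : ℝ) - 1 ≠ 0 := by
          have : (2 : ℝ) ≤ p := by exact_mod_cast (hP1p p hp).two_le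
          intro h0
          linarith
        field_simp
        ring
    rw [h1, hG2]
    unfold GN
    rw [← prod_union]
    · apply prod_congr _ fun _ _ => rfl
      ext p
      rw [hP1, hP2]
      simp only [mem_filter, mem_union]
      constructor
      · rintro ⟨h2, h3⟩
        by_cases h4 : p ≤ C0
        · exact Or.inl ⟨⟨h2, h4⟩, h3⟩
        · exact Or.inr ⟨h2, not_le.1 h4, h3⟩
      · rintro (⟨⟨h2, _⟩, h3⟩ | ⟨h2, _, h3⟩)
        · exact ⟨h2, h3⟩
        · exact ⟨h2, h3⟩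
    · rw [disjoint_left]
      intro p hp hp'
      have h2 := (hP1' p (mem_filter.1 hp).1).2
      have h3 := (hP2' p hp').2.1
      omega
  have hGN0 := GN_pos k N hN
  have hmain : |(((HP U).filter (fun h => ∀ p ∈ PQ k, h % p ≠ N % p)).card : ℝ) - (HP U).card * GN k N| ≤
      (1 / 2 : ℝ) ^ b' * ((HP U).card * GN k N) + R.card * (((J : ℝ) + 2) * (Dd * E)) := by
    have h1 : ((HP U).card : ℝ) * GN k N = ∑ r ∈ R, ((HP U).card / (Nat.totient D : ℝ) * G2) := by
      rw [sum_const, nsmul_eq_mul, hGN]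
      ring
    rw [h1, hS, ← sum_sub_distrib]
    refine (abs_sum_le_sum_abs _ _).trans ((sum_le_sum hclass).trans (le_of_eq ?_))
    rw [sum_add_distrib, ← mul_sum]
    congr 1
    rw [sum_const, nsmul_eq_mul]
  refine hmain.trans ?_
  have hRle : (R.card : ℝ) ≤ C0.factorial := by
    refine le_trans ?_ hDle
    have : R.card ≤ D := by rw [hR]; exact (card_filter_le _ _).trans (by rw [card_range])
    exact_mod_cast this
  have hGlow : 1 / l ^ 16 ≤ GN k N := by
    refine le_trans ?_ (GN_low k N hN)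
    have h1 := V_ge (P := PQ k) (fun p hp => (hPk p hp).1) (y := max k 1) (le_max_right _ _)
      (fun p hp => (hPk p hp).2.trans (le_max_left _ _))
    have h2 : ((max k 1 : ℕ) : ℝ) ≤ l ^ 8 := by
      push_cast
      apply max_le hk
      exact one_le_pow₀ (by linarith)
    have h3 : 1 / l ^ 8 ≤ V (PQ k) := by
      refine le_trans ?_ h1
      apply one_div_le_one_div_of_le _ h2
      have : (1 : ℝ) ≤ ((max k 1 : ℕ) : ℝ) := by exact_mod_cast le_max_right _ _
      linarith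
    calc 1 / l ^ 16 = (1 / l ^ 8) ^ 2 := by
          rw [div_pow, one_pow, ← pow_mul]
      _ ≤ _ := pow_le_pow_left₀ (by positivity) h3 2
  have herr : R.card * (((J : ℝ) + 2) * (Dd * E)) ≤ (1 / 2 : ℝ) ^ (b + 1) * ((HP U).card * GN k N) := by
    have h1 : (R.card : ℝ) * (((J : ℝ) + 2) * (Dd * E)) ≤ C0.factorial * (68 * l * (l ^ C * E)) := by
      apply mul_le_mul hRle _ (by positivity) (by positivity)
      apply mul_le_mul hJl _ (by positivity) (by positivity)
      exact mul_le_mul_of_nonneg_right hDdle hE0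
    have h2 : (C0.factorial : ℝ) * (68 * l * (l ^ C * E)) = C0.factorial * 68 * (U / l ^ 18) := by
      rw [hE, show C + 19 = C + 18 + 1 by ring, pow_succ, pow_add]
      field_simp
    have h3 : U / (2 * l) * (1 / l ^ 16) ≤ (HP U).card * GN k N :=
      mul_le_mul hlow1 hGlow (by positivity) (Nat.cast_nonneg _)
    have h4 : (C0.factorial : ℝ) * 68 * (U / l ^ 18) ≤ (1 / 2 : ℝ) ^ (b + 1) * (U / (2 * l) * (1 / l ^ 16)) := by
      have h5 : (1 / 2 : ℝ) ^ (b + 1) * (U / (2 * l) * (1 / l ^ 16)) =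
          (l / (2 * 2 ^ (b + 1))) * (U / l ^ 18) := by
        rw [one_div_pow]
        field_simp
      rw [h5]
      apply mul_le_mul_of_nonneg_right _ (by positivity)
      rw [le_div_iff₀ (by positivity)]
      linarith
    calc _ ≤ _ := h1
      _ = _ := h2
      _ ≤ _ := h4
      _ ≤ _ := mul_le_mul_of_nonneg_left h3 (by positivity)
  have hpw : (1 / 2 : ℝ) ^ b' ≤ (1 / 2) ^ (b + 1) := pow_le_pow_of_le_one (by norm_num) (by norm_num) hb'1
  have h6 : (1 / 2 : ℝ) ^ b = (1 / 2 : ℝ) ^ (b + 1) + (1 / 2 : ℝ) ^ (b + 1) := by rw [pow_succ]; ring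
  have h7 : 0 ≤ ((HP U).card : ℝ) * GN k N := by positivity
  have h8 := mul_le_mul_of_nonneg_right hpw h7
  rw [h6, add_mul]
  linarith

end Pool.Agent.Y829.SB
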