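import Pool.Agent.Y829.SB3
import Pool.Agent.Y829.SB6
import Pool.Agent.Y829.SA8

/-! Goldbach's problem with one prime of a given size, on average with respect to a sieve weight. -/

set_option autoImplicit false

namespace Pool.Agent.Y829.SB

open Finset Filter Topology Pool.Agent.Y829 Pool.Agent.Y829.RP Pool.Agent.Y829.RS Pool.Agent.Y829.SA

/-- the local factor of Hardy and Littlewood -/
noncomputable def cl (k N : ℕ) : ℝ :=
  2 * (∏ p ∈ (Icc 3 k).filter Nat.Prime, (1 - 1 / ((p : ℝ) - 1) ^ 2)) *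
    ∏ p ∈ (Icc 3 k).filter (fun p => p.Prime ∧ p ∣ N), (((p : ℝ) - 1) / (p - 2))

lemma cl_eq (k N : ℕ) (hk : 2 ≤ k) (hN : Even N) : GN k N = V (PQ k) * cl k N := by
  have h1 : PQ k = insert 2 ((Icc 3 k).filter Nat.Prime) := by
    ext p
    rw [mem_PQ, mem_insert, mem_filter, mem_Icc]
    constructor
    · rintro ⟨h1, h2⟩
      by_cases h3 : p = 2
      · exact Or.inl h3
      · have := h1.two_le
        exact Or.inr ⟨⟨by omega, h2⟩, h1⟩
    · rintro (h | ⟨h1, h2⟩)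
      · rw [h]; exact ⟨Nat.prime_two, hk⟩
      · exact ⟨h2, h1.2⟩
  have h2 : 2 ∉ (Icc 3 k).filter Nat.Prime := by
    rw [mem_filter, mem_Icc]
    omega
  unfold GN cl V
  rw [prod_filter, h1, prod_insert h2, prod_insert h2, if_neg (not_not.2 hN.two_dvd)]
  have h3 : ∏ p ∈ (Icc 3 k).filter (fun p => p.Prime ∧ p ∣ N), (((p : ℝ) - 1) / (p - 2)) =
      ∏ p ∈ (Icc 3 k).filter Nat.Prime, (if p ∣ N then (((p : ℝ) - 1) / (p - 2)) else 1) := by
    rw [← prod_filter, filter_filter]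
  rw [h3]
  have key : ∏ p ∈ (Icc 3 k).filter Nat.Prime, (if ¬ p ∣ N then (1 - 1 / ((p : ℝ) - 1)) else 1) =
      (∏ p ∈ (Icc 3 k).filter Nat.Prime, (1 - 1 / (p : ℝ))) *
        ((∏ p ∈ (Icc 3 k).filter Nat.Prime, (1 - 1 / ((p : ℝ) - 1) ^ 2)) *
        (∏ p ∈ (Icc 3 k).filter Nat.Prime, (if p ∣ N then (((p : ℝ) - 1) / (p - 2)) else 1))) := by
    rw [← prod_mul_distrib, ← prod_mul_distrib]
    apply prod_congr rfl
    intro p hp
    rw [mem_filter, mem_Icc] at hp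
    have hp3 : (3 : ℝ) ≤ p := by exact_mod_cast hp.1.1
    have a1 : (p : ℝ) ≠ 0 := by intro h; linarith
    have a2 : (p : ℝ) - 1 ≠ 0 := by intro h; linarith
    have a3 : (p : ℝ) - 2 ≠ 0 := by intro h; linarith
    by_cases h : p ∣ N
    · rw [if_neg (not_not.2 h), if_pos h]
      field_simp
      ring
    · rw [if_pos h, if_neg h]
      field_simp
      ring
  rw [key]
  push_cast
  ring

lemma HP_Sv (U k n : ℕ) (hn : ∀ h ∈ HP U, h ≤ n) :
    Sv (HP U) (PQ k) n = (((HP U).filter (fun h => ∀ p ∈ PQ k, h % p ≠ n % p)).card : ℝ) := by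
  classical
  unfold Sv
  refine congrArg Nat.cast (congrArg card ?_)
  apply filter_congr
  intro h hh
  have e1 : ∀ p ∈ PQ k, (¬ p ∣ n - h ↔ h % p ≠ n % p) := by
    intro p _
    rw [Ne, not_iff_not]
    exact (Nat.modEq_iff_dvd' (hn h hh)).symm
  constructor
  · intro h1 p hp
    exact (e1 p hp).1 (h1 p hp)
  · intro h1 p hp
    exact (e1 p hp).2 (h1 p hp)

lemma HP_odd (U k n : ℕ) (hU : 2 ≤ U) (hk : 2 ≤ k) (hn : ∀ h ∈ HP U, h ≤ n) (hodd : ¬ Even n) :
    Sv (HP U) (PQ k) n = 0 := by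
  classical
  rw [HP_Sv U k n hn]
  have h1 : (HP U).filter (fun h => ∀ p ∈ PQ k, h % p ≠ n % p) = ∅ := by
    rw [filter_eq_empty_iff]
    intro h hh h2
    apply h2 2 (mem_PQ.2 ⟨Nat.prime_two, hk⟩)
    unfold HP at hh
    rw [mem_filter, mem_Ioc] at hh
    have h3 : h % 2 = 1 := by
      rcases hh.2.eq_two_or_odd with h4 | h4
      · omega
      · exact h4
    rw [Nat.not_even_iff] at hodd
    rw [h3, hodd]
  rw [h1]
  simp

theorem goldbach (A : ℝ) (hA : 1 < A) (K b : ℕ) : ∃ B X0 : ℕ, ∀ X : ℕ, X0 ≤ X →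
    ∀ U Q : ℕ, Real.log X ^ A ≤ U → (U : ℝ) ≤ (X : ℝ) ^ (4 / 5 : ℝ) → 1 ≤ Q →
    (Q : ℝ) ^ 2 * Real.log X ^ B ≤ X →
    ∀ c : ℕ → ℕ → ℝ, (∀ n, 0 ≤ wt Q c n) → ∑ d ∈ Icc 1 Q, ss c d ^ 2 / d ≤ Real.log X ^ K →
    X / Real.log X ^ K ≤ ∑ n ∈ Ioc X (2 * X), wt Q c n → (∀ n, ¬ Even n → wt Q c n = 0) →
    |∑ n ∈ Ioc X (2 * X), wt Q c n * Pr (HP U) n -
      (HP U).card / Real.log X * ∑ n ∈ Ioc X (2 * X), wt Q c n * cl ⌊Real.log (Real.log X) ^ 5⌋₊ n| ≤
    (1 / 2 : ℝ) ^ b * ((HP U).card / Real.log X * ∑ n ∈ Ioc X (2 * X), wt Q c n * cl ⌊Real.log (Real.log X) ^ 5⌋₊ n) := by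
  obtain ⟨δ, hδ⟩ : ∃ δ : ℝ, δ = (1 / 2 : ℝ) ^ (b + 2) := ⟨_, rfl⟩
  have hδ0 : 0 < δ := by rw [hδ]; positivity
  have hδb : (1 / 2 : ℝ) ^ b = 4 * δ := by rw [hδ, pow_add]; norm_num; ring
  have hδ1 : δ ≤ 1 / 4 := by
    have : (1 / 2 : ℝ) ^ b ≤ 1 := pow_le_one₀ (by norm_num) (by norm_num)
    linarith
  obtain ⟨s, hs⟩ : ∃ s : ℝ, s = (1 + A) / 2 / A := ⟨_, rfl⟩
  have hs1 : s < 1 := by
    rw [hs, div_lt_one (by linarith)]
    linarith
  have hsA : A * s = (1 + A) / 2 := by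
    rw [hs]
    have : A ≠ 0 := by linarith
    field_simp
  obtain ⟨cm, hcm, hmert⟩ := mert
  obtain ⟨B, X1, h1⟩ := mainU ((1 + A) / 2) (by linarith) K (b + 2)
  obtain ⟨U1, hU13, hsm⟩ := smallP (b + 2)
  obtain ⟨U2, hU23, hlw⟩ := HP_low
  obtain ⟨U3, hht⟩ := HP_hits_small
  obtain ⟨U4, hU4⟩ := (Pool.Agent.Y829.ev (1 - s) 2 0 (by linarith)).exists_forall_of_atTop
  have hX45 : ∀ᶠ X : ℕ in atTop, (2 : ℝ) ≤ (X : ℝ) ^ (1 / 10 : ℝ) :=
    ((tendsto_rpow_atTop (by norm_num)).comp tendsto_natCast_atTop_atTop).eventually_ge_atTop 2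
  have E := (((ev6 (2 / cm ^ 2) (by positivity)).and (ll_tend.eventually_ge_atTop (2 : ℝ))).and
    ((log_tend.eventually_ge_atTop ((max (max U1 U2) (max U3 U4) : ℕ) : ℝ)).and
      (log_tend.eventually_ge_atTop (1 : ℝ)))).and ((hX45.and (eventually_ge_atTop 3)))
  obtain ⟨X3, h3⟩ := E.exists_forall_of_atTop
  refine ⟨B, max X1 X3, ?_⟩
  intro X hX U Q hU hUX hQ hQX c hw hc hW hodd
  obtain ⟨⟨⟨e1, e2⟩, ⟨e3, e4⟩⟩, ⟨e5, e6⟩⟩ := h3 X ((le_max_right _ _).trans hX)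
  have hXr : (1 : ℝ) ≤ X := by exact_mod_cast (by omega : 1 ≤ X)
  have hX0 : (0 : ℝ) < X := by linarith
  obtain ⟨L, hL⟩ : ∃ L : ℝ, L = Real.log X := ⟨_, rfl⟩
  obtain ⟨ll, hll⟩ : ∃ ll : ℝ, ll = Real.log (Real.log X) := ⟨_, rfl⟩
  have hL0 : 0 < Real.log X := lt_of_lt_of_le one_pos e4
  have hLA : Real.log X ≤ Real.log X ^ A := by
    calc Real.log X = Real.log X ^ (1 : ℝ) := (Real.rpow_one _).symm
      _ ≤ _ := Real.rpow_le_rpow_of_exponent_le e4 hA.le
  have hLU : Real.log X ≤ U := hLA.trans hU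
  have hUbig : max (max U1 U2) (max U3 U4) ≤ U := by exact_mod_cast e3.trans hLU
  have hUU1 : U1 ≤ U := (le_max_left _ _).trans ((le_max_left _ _).trans hUbig)
  have hUU2 : U2 ≤ U := (le_max_right _ _).trans ((le_max_left _ _).trans hUbig)
  have hUU3 : U3 ≤ U := (le_max_left _ _).trans ((le_max_right _ _).trans hUbig)
  have hUU4 : U4 ≤ U := (le_max_right _ _).trans ((le_max_right _ _).trans hUbig)
  have hU3' : 3 ≤ U := hU13.trans hUU1
  have hUr : (1 : ℝ) ≤ U := by exact_mod_cast (by omega : 1 ≤ U)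
  have hUr0 : (0 : ℝ) < U := by linarith
  obtain ⟨g1, g2⟩ := hlw U hUU2
  have hlU : ll ≤ Real.log U := by rw [hll]; exact Real.log_le_log hL0 hLU
  have hll2 : 2 ≤ ll := by rw [hll]; exact e2
  have hlU0 : 0 < Real.log U := by linarith
  -- the conditions
  have c1 : Real.log X ^ ((1 + A) / 2) ≤ (HP U).card := by
    have k1 : (U : ℝ) ^ s ≤ U / (2 * Real.log U) := by
      rw [le_div_iff₀ (by positivity)]
      have k2 := hU4 U hUU4
      rw [add_zero] at k2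
      calc (U : ℝ) ^ s * (2 * Real.log U) ≤ (U : ℝ) ^ s * (U : ℝ) ^ (1 - s) :=
            mul_le_mul_of_nonneg_left k2 (by positivity)
        _ = U := by
            rw [← Real.rpow_add hUr0]
            norm_num
    have k3 : Real.log X ^ ((1 + A) / 2) ≤ (U : ℝ) ^ s := by
      rw [← hsA, Real.rpow_mul hL0.le]
      apply Real.rpow_le_rpow (by positivity) hU
      rw [hs]
      have : 0 < A := by linarith
      positivity
    exact k3.trans (k1.trans g1)
  have c2 : (HP U).card ≤ U := by exact_mod_cast g2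
  have c3 : (U : ℝ) ≤ 4 * Real.log U * (HP U).card := by
    have k1 : (U : ℝ) ≤ 2 * Real.log U * (HP U).card := by
      rw [div_le_iff₀ (by positivity)] at g1
      linarith
    have k2 : 0 ≤ Real.log U * (HP U).card := by positivity
    linarith
  have c4 : U ≤ X := by
    have k1 : (U : ℝ) ≤ X := by
      refine hUX.trans ?_
      calc (X : ℝ) ^ (4 / 5 : ℝ) ≤ (X : ℝ) ^ (1 : ℝ) := Real.rpow_le_rpow_of_exponent_le hXr (by norm_num)
        _ = X := Real.rpow_one _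
    exact_mod_cast k1
  have c5' : ∀ h ∈ HP U, h ≤ 2 * U := by
    intro h hh
    unfold HP at hh
    rw [mem_filter, mem_Ioc] at hh
    exact hh.1.2
  have h2U : (2 : ℝ) * U ≤ (X : ℝ) ^ (9 / 10 : ℝ) := by
    calc (2 : ℝ) * U ≤ (X : ℝ) ^ (1 / 10 : ℝ) * (X : ℝ) ^ (4 / 5 : ℝ) :=
          mul_le_mul e5 hUX hUr0.le (by positivity)
      _ = (X : ℝ) ^ (9 / 10 : ℝ) := by
          rw [← Real.rpow_add hX0]
          norm_num
  have c5 : ∀ h ∈ HP U, (h : ℝ) ≤ (X : ℝ) ^ (9 / 10 : ℝ) := by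
    intro h hh
    refine le_trans ?_ h2U
    exact_mod_cast c5' h hh
  have h2UX : 2 * U ≤ X := by
    have k1 : (2 : ℝ) * U ≤ X := by
      refine h2U.trans ?_
      calc (X : ℝ) ^ (9 / 10 : ℝ) ≤ (X : ℝ) ^ (1 : ℝ) := Real.rpow_le_rpow_of_exponent_le hXr (by norm_num)
        _ = X := Real.rpow_one _
    exact_mod_cast k1
  obtain ⟨y, hy⟩ : ∃ y : ℝ, y = ll ^ 5 := ⟨_, rfl⟩
  have hy32 : 32 ≤ y := by
    rw [hy]
    calc (32 : ℝ) = 2 ^ 5 := by norm_num
      _ ≤ ll ^ 5 := pow_le_pow_left₀ (by norm_num) hll2 5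
  obtain ⟨k, hk⟩ : ∃ k, k = ⌊y⌋₊ := ⟨_, rfl⟩
  have hk32 : 32 ≤ k := by
    rw [hk]
    exact Nat.le_floor (by exact_mod_cast hy32)
  have hk2 : 2 ≤ k := by omega
  have hky : (k : ℝ) ≤ y := by rw [hk]; exact Nat.floor_le (by linarith)
  have hkU : (k : ℝ) ≤ Real.log U ^ 8 := by
    refine hky.trans ?_
    rw [hy]
    calc ll ^ 5 ≤ ll ^ 8 := pow_le_pow_right₀ (by linarith) (by norm_num)
      _ ≤ Real.log U ^ 8 := pow_le_pow_left₀ (by linarith) hlU 8
  have hkk : ⌊Real.log (Real.log X) ^ 5⌋₊ = k := by rw [hk, hy, hll]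
  have hVk : 0 < V (PQ k) := V_pos fun p hp => (mem_PQ.1 hp).1
  have hsmall : ∀ n, Even n → (∀ h ∈ HP U, h ≤ n) →
      |Sv (HP U) (PQ k) n - (HP U).card * GN k n| ≤ δ * ((HP U).card * GN k n) := by
    intro n hn hle
    rw [HP_Sv U k n hle, hδ]
    exact hsm U hUU1 k n hkU hn
  have hSlow : ∀ n, Even n → (∀ h ∈ HP U, h ≤ n) → (HP U).card / ll ^ 2 ≤ Sv (HP U) (PQ k) n := by
    intro n hn hle
    have k1 := (abs_le.1 (hsmall n hn hle)).1
    have k2 := GN_pos k n hn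
    have k3 : 0 ≤ ((HP U).card : ℝ) * GN k n := by positivity
    have k4 := mul_le_mul_of_nonneg_right hδ1 k3
    have k5 : ((HP U).card : ℝ) * GN k n / 2 ≤ Sv (HP U) (PQ k) n := by linarith
    refine le_trans ?_ k5
    have hlogy1 : 1 ≤ Real.log y := by
      rw [Real.le_log_iff_exp_le (by linarith)]
      have := Real.exp_one_lt_d9
      linarith
    have k6 : cm / Real.log y ≤ V (PQ k) := by
      have k7 := hmert k hk2 (PQ k) (fun p hp => mem_PQ.1 hp)
      refine le_trans ?_ k7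
      apply div_le_div_of_nonneg_left hcm.le
      · exact Real.log_pos (by exact_mod_cast (by omega : 1 < k))
      · apply Real.log_le_log _ hky
        exact_mod_cast (by omega : 0 < k)
    have k8 : (cm / Real.log y) ^ 2 ≤ GN k n := by
      refine le_trans ?_ (GN_low k n hn)
      exact pow_le_pow_left₀ (by positivity) k6 2
    have k9 : 1 / ll ^ 2 ≤ GN k n / 2 := by
      have k10 : 1 / ll ^ 2 ≤ (cm / Real.log y) ^ 2 / 2 := by
        rw [div_le_iff₀ (by positivity)]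
        have k11 : (cm / Real.log y) ^ 2 / 2 = 1 / (Real.log y ^ 2 * (2 / cm ^ 2)) := by
          field_simp
        rw [k11, one_div_mul_eq_div, le_div_iff₀ (by positivity), one_mul]
        rw [← hll, ← hy] at e1
        refine le_trans ?_ e1
        apply mul_le_mul_of_nonneg_right _ (by positivity)
        exact pow_le_pow_right₀ hlogy1 (by norm_num)
      linarith
    calc ((HP U).card : ℝ) / ll ^ 2 = (HP U).card * (1 / ll ^ 2) := by ring
      _ ≤ (HP U).card * (GN k n / 2) := mul_le_mul_of_nonneg_left k9 (Nat.cast_nonneg _)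
      _ = _ := by ring
  have hm := h1 X ((le_max_left _ _).trans hX) U Q (HP U) c1 c2 c3 c4 hQ hQX c5
    (fun p hp _ hpU r => hht U hUU3 p r hp hpU) (fun p hp _ r => HP_hits U p r hp.pos) c hw hc hW
    (fun n hn => by
      rw [hkk, ← hll]
      by_cases he : Even n
      · exact Or.inr (hSlow n he hn)
      · exact Or.inl (HP_odd U k n (by omega) hk2 hn he))
    (fun n hn => by
      rw [hkk, ← hll]
      by_cases he : Even n
      · exact Or.inr (hSlow n he hn)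
      · exact Or.inl (hodd n he))
  rw [hkk] at hm ⊢
  rw [← hL] at hm hL0 ⊢
  obtain ⟨T, hT⟩ : ∃ T, T = (HP U).card / L * ∑ n ∈ Ioc X (2 * X), wt Q c n * cl k n := ⟨_, rfl⟩
  obtain ⟨R, hR⟩ : ∃ R, R = 1 / (V (PQ k) * L) * ∑ n ∈ Ioc X (2 * X), wt Q c n * Sv (HP U) (PQ k) n := ⟨_, rfl⟩
  rw [← hT]
  rw [← hR, ← hδ] at hm
  have hTT : T = 1 / (V (PQ k) * L) * ∑ n ∈ Ioc X (2 * X), wt Q c n * ((HP U).card * GN k n) := by
    rw [hT]
    have h5 : ∀ n ∈ Ioc X (2 * X), wt Q c n * ((HP U).card * GN k n) =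
        ((HP U).card * V (PQ k)) * (wt Q c n * cl k n) := by
      intro n _
      by_cases he : Even n
      · rw [cl_eq k n hk2 he]
        ring
      · rw [hodd n he]
        ring
    rw [sum_congr rfl h5, ← mul_sum]
    field_simp
  have hRT : |R - T| ≤ δ * T := by
    have h4 : R - T = 1 / (V (PQ k) * L) * ∑ n ∈ Ioc X (2 * X), wt Q c n *
        (Sv (HP U) (PQ k) n - (HP U).card * GN k n) := by
      rw [hR, hTT]
      simp only [mul_sub]
      rw [sum_sub_distrib, mul_sub]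
    have hp : 0 ≤ 1 / (V (PQ k) * L) := by positivity
    rw [h4, abs_mul, abs_of_nonneg hp]
    have h7 : |∑ n ∈ Ioc X (2 * X), wt Q c n * (Sv (HP U) (PQ k) n - (HP U).card * GN k n)| ≤
        δ * ∑ n ∈ Ioc X (2 * X), wt Q c n * ((HP U).card * GN k n) := by
      refine (abs_sum_le_sum_abs _ _).trans ?_
      rw [mul_sum]
      apply sum_le_sum
      intro n hn
      by_cases he : Even n
      · rw [abs_mul, abs_of_nonneg (hw n)]
        have h8 := hsmall n he (fun h hh => (c5' h hh).trans (h2UX.trans (mem_Ioc.1 hn).1.le))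
        have h9 := mul_le_mul_of_nonneg_left h8 (hw n)
        refine h9.trans (le_of_eq ?_)
        ring
      · rw [hodd n he, zero_mul, zero_mul, abs_zero, mul_zero]
    have h8 := mul_le_mul_of_nonneg_left h7 hp
    refine h8.trans (le_of_eq ?_)
    rw [hTT]
    ring
  have hT0 : 0 ≤ T := by
    rw [hTT]
    apply mul_nonneg (by positivity)
    apply sum_nonneg
    intro n _
    by_cases he : Even n
    · have := GN_pos k n he
      have := hw n
      positivity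
    · rw [hodd n he, zero_mul]
  rw [hδb]
  have t1 := abs_le.1 hm
  have t2 := abs_le.1 hRT
  have u1 : δ * R ≤ δ * (2 * T) := by
    apply mul_le_mul_of_nonneg_left _ hδ0.le
    have := mul_le_mul_of_nonneg_right hδ1 hT0
    linarith [t2.2]
  have u2 : 0 ≤ δ * T := mul_nonneg hδ0.le hT0
  rw [abs_le]
  constructor
  · linarith [t1.1, t2.1]
  · linarith [t1.2, t2.2]

end Pool.Agent.Y829.SB
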