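import Pool.Agent.Y829.SB7
import Pool.Agent.Y829.SA9

/-! Primes `n - m²`, squares of every size, on average with respect to a sieve weight. -/

set_option autoImplicit false

namespace Pool.Agent.Y829.SB

open Finset Filter Topology Pool.Agent.Y829 Pool.Agent.Y829.RP Pool.Agent.Y829.RS Pool.Agent.Y829.SA

theorem squares (A : ℝ) (hA : 1 < A) (K b : ℕ) : ∃ B X0 : ℕ, ∀ X : ℕ, X0 ≤ X →
    ∀ M Q : ℕ, Real.log X ^ A ≤ M → (M : ℝ) ≤ (X : ℝ) ^ (2 / 5 : ℝ) → 1 ≤ Q → (Q : ℝ) ^ 2 * Real.log X ^ B ≤ X →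
    ∀ c : ℕ → ℕ → ℝ, (∀ n, 0 ≤ wt Q c n) → ∑ d ∈ Icc 1 Q, ss c d ^ 2 / d ≤ Real.log X ^ K →
    X / Real.log X ^ K ≤ ∑ n ∈ Ioc X (2 * X), wt Q c n →
    |∑ n ∈ Ioc X (2 * X), wt Q c n * (((Icc 1 M).filter (fun m => (n - m ^ 2).Prime)).card : ℝ) -
      M / Real.log X * ∑ n ∈ Ioc X (2 * X), wt Q c n * sing ⌊Real.log (Real.log X) ^ 5⌋₊ n| ≤
    (1 / 2 : ℝ) ^ b * (M / Real.log X * ∑ n ∈ Ioc X (2 * X), wt Q c n * sing ⌊Real.log (Real.log X) ^ 5⌋₊ n) := by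
  obtain ⟨δ, hδ⟩ : ∃ δ : ℝ, δ = (1 / 2 : ℝ) ^ (b + 2) := ⟨_, rfl⟩
  have hδ0 : 0 < δ := by rw [hδ]; positivity
  have hδb : (1 / 2 : ℝ) ^ b = 4 * δ := by rw [hδ, pow_add]; norm_num; ring
  have hδ1 : δ ≤ 1 := by rw [hδ]; exact pow_le_one₀ (by norm_num) (by norm_num)
  obtain ⟨B, X1, h1⟩ := mainU A hA K (b + 2)
  obtain ⟨X2, h2⟩ := sq_surv A hA.le (b + 2)
  obtain ⟨U8, hU83, hU8⟩ := evlog8
  have E := ((ll_tend.eventually_ge_atTop (2 : ℝ)).and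
    ((log_tend.eventually_ge_atTop (U8 : ℝ)).and (log_tend.eventually_ge_atTop (1 : ℝ)))).and (eventually_ge_atTop 3)
  obtain ⟨X3, h3⟩ := E.exists_forall_of_atTop
  refine ⟨B, max (max X1 X2) X3, ?_⟩
  intro X hX M Q hM hM' hQ hQX c hw hc hW
  obtain ⟨⟨e2, ⟨e4, e3⟩⟩, e5⟩ := h3 X ((le_max_right _ _).trans hX)
  have hX1 : X1 ≤ X := (le_max_left _ _).trans ((le_max_left _ _).trans hX)
  have hX2 : X2 ≤ X := (le_max_right _ _).trans ((le_max_left _ _).trans hX)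
  have hXr : (1 : ℝ) ≤ X := by exact_mod_cast (by omega : 1 ≤ X)
  have hX0 : (0 : ℝ) < X := by linarith
  have hs := h2 X hX2 M hM
  have hL0 : 0 < Real.log X := lt_of_lt_of_le one_pos e3
  have hLA : Real.log X ≤ Real.log X ^ A := by
    calc Real.log X = Real.log X ^ (1 : ℝ) := (Real.rpow_one _).symm
      _ ≤ _ := Real.rpow_le_rpow_of_exponent_le e3 hA.le
  have hLM : Real.log X ≤ M := hLA.trans hM
  have hMr : (1 : ℝ) ≤ M := e3.trans hLM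
  have hMU8 : U8 ≤ M := by exact_mod_cast e4.trans hLM
  have hM3 : 3 ≤ M := hU83.trans hMU8
  have hM2 : ((M : ℝ)) ^ 2 ≤ (X : ℝ) ^ (4 / 5 : ℝ) := by
    calc (M : ℝ) ^ 2 ≤ ((X : ℝ) ^ (2 / 5 : ℝ)) ^ 2 := pow_le_pow_left₀ (Nat.cast_nonneg _) hM' 2
      _ = (X : ℝ) ^ (4 / 5 : ℝ) := by
          rw [← Real.rpow_natCast, ← Real.rpow_mul hX0.le]
          norm_num
  have hM29 : ((M : ℝ)) ^ 2 ≤ (X : ℝ) ^ (9 / 10 : ℝ) :=
    hM2.trans (Real.rpow_le_rpow_of_exponent_le hXr (by norm_num))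
  have hMX : (M : ℝ) ^ 2 ≤ X := by
    refine hM2.trans ?_
    calc (X : ℝ) ^ (4 / 5 : ℝ) ≤ (X : ℝ) ^ (1 : ℝ) := Real.rpow_le_rpow_of_exponent_le hXr (by norm_num)
      _ = X := Real.rpow_one _
  have hMX' : M ^ 2 ≤ X := by exact_mod_cast hMX
  have hMX1 : M ≤ X := (Nat.le_self_pow (by norm_num) M).trans hMX'
  have hlM : 1 ≤ Real.log M := by
    rw [Real.le_log_iff_exp_le (by linarith)]
    have h6 := Real.exp_one_lt_d9
    have h7 : (3 : ℝ) ≤ M := by exact_mod_cast hM3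
    linarith
  have hsq : ∀ h ∈ sqH M, h ≤ M ^ 2 := by
    intro h hh
    unfold sqH at hh
    rw [mem_image] at hh
    obtain ⟨m, hm, rfl⟩ := hh
    exact Nat.pow_le_pow_left (mem_Icc.1 hm).2 2
  have hlow : ∀ n, (∀ h ∈ sqH M, h ≤ n) →
      (sqH M).card / Real.log (Real.log X) ^ 2 ≤ Sv (sqH M) (PQ ⌊Real.log (Real.log X) ^ 5⌋₊) n := by
    intro n hn
    rw [sqH_card]
    apply (hs n _).2
    apply hn
    unfold sqH
    rw [mem_image]
    exact ⟨M, mem_Icc.2 ⟨by omega, le_rfl⟩, rfl⟩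
  have hm := h1 X hX1 M Q (sqH M) (by rw [sqH_card]; exact hM) (le_of_eq (sqH_card M)) (by
      rw [sqH_card]
      have h6 : (0 : ℝ) ≤ M := by linarith
      have h7 : (1 : ℝ) ≤ 4 * Real.log M := by linarith
      exact le_mul_of_one_le_left h6 h7) hMX1 hQ hQX (by
    intro h hh
    refine le_trans ?_ hM29
    exact_mod_cast hsq h hh) (by
    intro p hp _ hpM r
    refine (sq_hits M p r hp).trans ?_
    rw [sqH_card]
    have hp0 : (0 : ℝ) < p := by exact_mod_cast hp.pos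
    have h6 : (p : ℝ) ≤ M := hpM.trans (hU8 M hMU8)
    have h7 : (1 : ℝ) ≤ M / p := by rw [le_div_iff₀ hp0, one_mul]; exact h6
    linarith) (fun p hp _ r => sq_hits M p r hp) c hw hc hW
    (fun n hn => Or.inr (hlow n hn)) (fun n hn => Or.inr (hlow n hn))
  obtain ⟨k, hk⟩ : ∃ k, k = ⌊Real.log (Real.log X) ^ 5⌋₊ := ⟨_, rfl⟩
  rw [← hk] at hm ⊢
  have hk2 : 2 ≤ k := by
    rw [hk]
    apply Nat.le_floor
    push_cast
    calc (2 : ℝ) ≤ 2 ^ 5 := by norm_num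
      _ ≤ Real.log (Real.log X) ^ 5 := pow_le_pow_left₀ (by norm_num) e2 5
  have hV0 : 0 < V (PQ k) := V_pos fun p hp => (mem_PQ.1 hp).1
  simp only [sq_Pr] at hm
  obtain ⟨L, hL⟩ : ∃ L : ℝ, L = Real.log X := ⟨_, rfl⟩
  rw [← hL] at hm hL0 ⊢
  obtain ⟨T, hT⟩ : ∃ T, T = M / L * ∑ n ∈ Ioc X (2 * X), wt Q c n * sing k n := ⟨_, rfl⟩
  obtain ⟨R, hR⟩ : ∃ R, R = 1 / (V (PQ k) * L) * ∑ n ∈ Ioc X (2 * X), wt Q c n * Sv (sqH M) (PQ k) n := ⟨_, rfl⟩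
  rw [← hT]
  rw [← hR, ← hδ] at hm
  have hsing : ∀ n, 0 < sing k n := by
    intro n
    have h4 := VO_sing k n hk2
    have h5 : 0 < VO (fun p => rt n p) (PQ k) := VO_pos (fun p hp => (mem_PQ.1 hp).1)
      (fun p hp => (rt_le n p (mem_PQ.1 hp).1).2)
    rw [h4] at h5
    exact pos_of_mul_pos_right h5 hV0.le
  have h6 : T = 1 / (V (PQ k) * L) * ∑ n ∈ Ioc X (2 * X), wt Q c n * (M * VO (fun p => rt n p) (PQ k)) := by
    rw [hT]
    have h5 : ∀ n ∈ Ioc X (2 * X), wt Q c n * (M * VO (fun p => rt n p) (PQ k)) =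
        (M * V (PQ k)) * (wt Q c n * sing k n) := by
      intro n _
      rw [VO_sing k n hk2]
      ring
    rw [sum_congr rfl h5, ← mul_sum]
    field_simp
  have hRT : |R - T| ≤ δ * T := by
    have h4 : R - T = 1 / (V (PQ k) * L) * ∑ n ∈ Ioc X (2 * X), wt Q c n *
        (Sv (sqH M) (PQ k) n - M * VO (fun p => rt n p) (PQ k)) := by
      rw [hR, h6]
      simp only [mul_sub]
      rw [sum_sub_distrib, mul_sub]
    have hp : 0 ≤ 1 / (V (PQ k) * L) := by positivity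
    rw [h4, abs_mul, abs_of_nonneg hp]
    have h7 : |∑ n ∈ Ioc X (2 * X), wt Q c n * (Sv (sqH M) (PQ k) n - M * VO (fun p => rt n p) (PQ k))| ≤
        δ * ∑ n ∈ Ioc X (2 * X), wt Q c n * (M * VO (fun p => rt n p) (PQ k)) := by
      refine (abs_sum_le_sum_abs _ _).trans ?_
      rw [mul_sum]
      apply sum_le_sum
      intro n hn
      rw [abs_mul, abs_of_nonneg (hw n)]
      have h8 := (hs n (hMX'.trans (mem_Ioc.1 hn).1.le)).1
      rw [← hk, ← hδ] at h8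
      have h9 := mul_le_mul_of_nonneg_left h8 (hw n)
      refine h9.trans (le_of_eq ?_)
      ring
    have h8 := mul_le_mul_of_nonneg_left h7 hp
    refine h8.trans (le_of_eq ?_)
    rw [h6]
    ring
  have hT0 : 0 ≤ T := by
    rw [hT]
    apply mul_nonneg (by positivity)
    apply sum_nonneg
    intro n _
    exact mul_nonneg (hw n) (hsing n).le
  rw [hδb]
  have t1 := abs_le.1 hm
  have t2 := abs_le.1 hRT
  have u1 : δ * R ≤ δ * (2 * T) := by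
    apply mul_le_mul_of_nonneg_left _ hδ0.le
    have := mul_le_mul_of_nonneg_right hδ1 hT0
    linarith [t2.2]
  have u2 : 0 ≤ δ * T := mul_nonneg hδ0.le hT0
  rw [abs_le]
  constructor
  · linarith [t1.1, t2.1]
  · linarith [t1.2, t2.2]

end Pool.Agent.Y829.SB
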